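import Mathlib

/-!
Planar definitions for the Barker–Larman problem (MP_70efd9_gt).
-/

set_option autoImplicit false

open Set MeasureTheory Filter Topology

namespace Pool.Agent.Helper18.BL

/-- the standard pairing on `ℝ × ℝ` -/
def pr (n z : ℝ × ℝ) : ℝ := n.1 * z.1 + n.2 * z.2

/-- planar centrally symmetric convex bodies -/
structure IsBody (B : Set (ℝ × ℝ)) : Prop where
  convex : Convex ℝ B
  compact : IsCompact B
  symm : ∀ z ∈ B, -z ∈ B
  zero_int : (0 : ℝ × ℝ) ∈ interior B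

/-- polar body -/
def plr (B : Set (ℝ × ℝ)) : Set (ℝ × ℝ) := {n | ∀ z ∈ B, pr n z ≤ 1}

/-- volume product -/
noncomputable def MV (B : Set (ℝ × ℝ)) : ℝ :=
  (volume B).toReal * (volume (plr B)).toReal

/-- covariance form of the polar body -/
noncomputable def Qf (B : Set (ℝ × ℝ)) (x y : ℝ × ℝ) : ℝ :=
  (∫ n in plr B, pr n x * pr n y) / (volume (plr B)).toReal

/-- `B` is a (solid) ellipse centred at the origin -/
def IsEll2 (B : Set (ℝ × ℝ)) : Prop :=
  ∃ a b c : ℝ, 0 < a ∧ 0 < a * c - b ^ 2 ∧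
    B = {z : ℝ × ℝ | a * z.1 ^ 2 + 2 * b * (z.1 * z.2) + c * z.2 ^ 2 ≤ 1}

end Pool.Agent.Helper18.BL
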