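import Mathlib
import Pool.Agent.Helper18.BL.PlanarDefs

/-!
Three-dimensional definitions for the Barker–Larman problem (MP_70efd9_gt).
-/

set_option autoImplicit false

open Set MeasureTheory Filter Topology Metric
open scoped RealInnerProductSpace

namespace Pool.Agent.Helper18.BL

/-- Euclidean 3-space -/
abbrev E := EuclideanSpace ℝ (Fin 3)

/-- The situation of the problem in dimension 3: `K ⊂ int K1` convex bodies, `h` the support
function of `K`, `C v` the centre of the section of `K1` by the supporting plane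
`{x | ⟪v, x⟫ = h v}` of `K`. -/
structure Setting where
  K : Set E
  K1 : Set E
  h : E → ℝ
  C : E → E
  r : ℝ
  R : ℝ
  K_convex : Convex ℝ K
  K_compact : IsCompact K
  K_int : (interior K).Nonempty
  K1_convex : Convex ℝ K1
  K1_compact : IsCompact K1
  r_pos : 0 < r
  ball_sub : ∀ x ∈ K, closedBall x r ⊆ K1
  K1_bdd : ∀ x ∈ K1, ‖x‖ ≤ R
  h_le : ∀ v, ∀ x ∈ K, ⟪v, x⟫ ≤ h v
  h_att : ∀ v, ∃ x ∈ K, ⟪v, x⟫ = h v
  C_h : ∀ v, v ≠ 0 → ⟪v, C v⟫ = h v
  C_symm : ∀ v, v ≠ 0 → ∀ x ∈ K1, ⟪v, x⟫ = h v → (2 : ℝ) • C v - x ∈ K1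

namespace Setting

variable (S : Setting)

/-- contact face -/
def F (v : E) : Set E := {x | x ∈ S.K ∧ ⟪v, x⟫ = S.h v}

/-- the section, moved to its centre: `S'_v ⊂ v^⊥` -/
def Sp (v : E) : Set E := {w | ⟪v, w⟫ = 0 ∧ S.C v + w ∈ S.K1}

/-- relative boundary of the centred section -/
def bd (v : E) : Set E := {w | w ∈ S.Sp v ∧ ∀ c : ℝ, 1 < c → c • w ∉ S.Sp v}

/-- a pair of supporting planes of `K1` at the antipodal points `C v ± w` of the section -/
def Pair (v w n : E) (t t' : ℝ) : Prop :=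
  w ∈ S.Sp v ∧ (∀ x ∈ S.K1, ⟪n - t • v, x⟫ ≤ ⟪n - t • v, S.C v + w⟫) ∧
    (∀ x ∈ S.K1, ⟪-n - t' • v, x⟫ ≤ ⟪-n - t' • v, S.C v - w⟫)

end Setting

/-- the relation satisfied by the (transposed) derivative `A` of the centre function -/
def Rel (A : E →L[ℝ] E) (κ w n : E) (t t' : ℝ) : Prop :=
  (2 : ℝ) • A n = -(t + t') • w + (t - t') • κ

namespace Setting

variable (S : Setting)

/-- first order datum at `v`, all sums `t + t'` being in `P` -/
def Dat (P : Set ℝ) (v : E) (A : E →L[ℝ] E) (κ : E) : Prop :=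
  S.C v + κ ∈ S.F v ∧
  (∀ n : E, ∃ (w : E) (t t' : ℝ), S.Pair v w n t t' ∧ Rel A κ w n t t' ∧ t + t' ∈ P) ∧
  (∀ w ∈ S.bd v, ∃ (n : E) (t t' : ℝ), ⟪n, w⟫ = 1 ∧ S.Pair v w n t t' ∧ Rel A κ w n t t' ∧
    t + t' ∈ P)

/-- condition (N): non-narrowing -/
def Nn (v : E) : Prop := ∀ n : E, ∃ (w : E) (t t' : ℝ), S.Pair v w n t t' ∧ 0 ≤ t + t'

/-- the section is an ellipse -/
def Ell (v : E) : Prop :=
  ∃ B : E →L[ℝ] E →L[ℝ] ℝ, (∀ x y, B x y = B y x) ∧ (∀ x, ⟪v, x⟫ = 0 → x ≠ 0 → 0 < B x x) ∧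
    S.Sp v = {w | ⟪v, w⟫ = 0 ∧ B w w ≤ 1}

/-- `K1` is contained in the cylinder over the section `S_v` with axis `q` -/
def Cyl (v q : E) : Prop :=
  ⟪v, q⟫ = 1 ∧ ∀ x ∈ S.K1, x - (⟪v, x⟫ - S.h v) • q ∈ S.K1

end Setting

/-- a linear parametrisation of the plane `v^⊥` -/
def Par (v : E) (T : (ℝ × ℝ) →ₗ[ℝ] E) : Prop :=
  Function.Injective T ∧ ∀ z, ⟪v, T z⟫ = 0

theorem exists_par (v : E) : ∃ T : (ℝ × ℝ) →ₗ[ℝ] E, v ≠ 0 → Par v T := by
  by_cases hv : v = 0
  · exact ⟨0, fun h => absurd hv h⟩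
  · have hfin : Module.finrank ℝ (ℝ ∙ v)ᗮ = 2 := by
      have : Fact (Module.finrank ℝ E = 2 + 1) := ⟨by simp⟩
      exact Submodule.finrank_orthogonal_span_singleton hv
    have e : (ℝ × ℝ) ≃ₗ[ℝ] (ℝ ∙ v)ᗮ := by
      apply LinearEquiv.ofFinrankEq
      rw [hfin]; simp
    refine ⟨(Submodule.subtype _).comp e.toLinearMap, fun _ => ⟨?_, ?_⟩⟩
    · intro x y hxy
      apply e.injective
      exact Subtype.ext hxy
    · intro z
      have := (e z).2
      rw [Submodule.mem_orthogonal_singleton_iff_inner_right] at this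
      exact this

/-- a chosen parametrisation of `v^⊥` -/
noncomputable def par (v : E) : (ℝ × ℝ) →ₗ[ℝ] E := (exists_par v).choose

theorem par_spec {v : E} (hv : v ≠ 0) : Par v (par v) := (exists_par v).choose_spec hv

namespace Setting

variable (S : Setting)

/-- the planar body obtained from the centred section by a parametrisation -/
def body (v : E) (T : (ℝ × ℝ) →ₗ[ℝ] E) : Set (ℝ × ℝ) := {z | S.C v + T z ∈ S.K1}

/-- volume product of the section -/
noncomputable def P (v : E) : ℝ := MV (S.body v (par v))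

/-- the covariance form of the polar of the section, on `v^⊥` -/
noncomputable def Q (v x y : E) : ℝ :=
  Qf (S.body v (par v)) (Function.invFun (par v) x) (Function.invFun (par v) y)

/-- volume of the cap beyond the plane `H_v` -/
noncomputable def cap (v : E) : ℝ := (volume {x | x ∈ S.K1 ∧ S.h v ≤ ⟪v, x⟫}).toReal

end Setting

/-- the linear lift of `e` to `v^⊥` along `u` -/
noncomputable def lift (v u e : E) : E := e - (⟪v, e⟫ / ⟪v, u⟫) • u

/-- `lift v u` as a linear map -/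
noncomputable def liftL (v u : E) : E →ₗ[ℝ] E where
  toFun := lift v u
  map_add' x y := by
    simp only [lift, inner_add_right, add_div, add_smul]
    abel
  map_smul' c x := by
    simp only [lift, inner_smul_right, RingHom.id_apply, smul_sub, smul_smul, mul_div_assoc]

namespace Setting

variable (S : Setting)

/-- support function of the centred section -/
noncomputable def lsup (v n : E) : ℝ := sSup ((fun w => ⟪n, w⟫) '' S.Sp v)

/-- gauge of the centred section, at the orthogonal projection to `v^⊥` -/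
noncomputable def gam (v e : E) : ℝ := gauge {x : E | S.C v + lift v v x ∈ S.K1} e

end Setting

/-- quadratic polynomials on `E` -/
structure Quad where
  B : E →L[ℝ] E →L[ℝ] ℝ
  p : E
  c : ℝ
  symm : ∀ x y, B x y = B y x

/-- evaluation -/
noncomputable def Quad.ev (G : Quad) (x : E) : ℝ := G.B x x + ⟪G.p, x⟫ + G.c

/-- `K1` is an ellipsoid -/
def IsEllipsoid {n : ℕ} (K1 : Set (EuclideanSpace ℝ (Fin n))) : Prop :=
  ∃ (T : EuclideanSpace ℝ (Fin n) ≃ₗ[ℝ] EuclideanSpace ℝ (Fin n)) (a : EuclideanSpace ℝ (Fin n)),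
    K1 = (fun x => a + T x) '' Metric.closedBall 0 1

end Pool.Agent.Helper18.BL

namespace Pool.Agent.Helper18.BL

/-- gradient of a quadratic polynomial, as a linear functional -/
noncomputable def Quad.grad (G : Quad) (x y : E) : ℝ := 2 * G.B x y + ⟪G.p, y⟫

namespace Setting

variable (S : Setting)

/-- the section `S_v` is `{G ≤ 0}` -/
def Rep (G : Quad) (v : E) : Prop := ∀ x, ⟪v, x⟫ = S.h v → (x ∈ S.K1 ↔ G.ev x ≤ 0)

end Setting

/-- the sign condition `ρ < 0` for a datum -/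
def RhoNeg (v : E) (A : E →L[ℝ] E) (κ : E) : Prop :=
  κ ≠ 0 ∧ ∃ c : E, ⟪v, c⟫ = 0 ∧ ⟪κ, c⟫ = 0 ∧ ⟪A c, c⟫ < 0

end Pool.Agent.Helper18.BL
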