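import Mathlib
import Pool.Agent.Helper18.BL.Defs

set_option autoImplicit false

open Set MeasureTheory Filter Topology Metric
open scoped RealInnerProductSpace

namespace Pool.Agent.Helper18.BL
namespace Setting
variable (S : Setting)

/-! ### T1: basic facts -/

theorem K_sub : S.K ⊆ S.K1 := fun x hx =>
  S.ball_sub x hx (mem_closedBall_self S.r_pos.le)

theorem R_nonneg : 0 ≤ S.R := by
  obtain ⟨x, hx⟩ := S.K_int
  exact (norm_nonneg x).trans (S.K1_bdd x (S.K_sub (interior_subset hx)))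

theorem h_smul {c : ℝ} (hc : 0 ≤ c) (v : E) : S.h (c • v) = c * S.h v := by
  apply le_antisymm
  · obtain ⟨x, hx, hxe⟩ := S.h_att (c • v)
    rw [← hxe, real_inner_smul_left]
    exact mul_le_mul_of_nonneg_left (S.h_le v x hx) hc
  · obtain ⟨x, hx, hxe⟩ := S.h_att v
    rw [← hxe, ← real_inner_smul_left]
    exact S.h_le _ x hx

private theorem h_sub_le (u v : E) : S.h u - S.h v ≤ S.R * ‖u - v‖ := by
  obtain ⟨x, hx, hxe⟩ := S.h_att u
  have h1 := S.h_le v x hx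
  have h2 : ⟪u - v, x⟫ ≤ ‖u - v‖ * ‖x‖ := real_inner_le_norm _ _
  have h3 : ‖x‖ ≤ S.R := S.K1_bdd x (S.K_sub hx)
  have h4 : ⟪u - v, x⟫ = ⟪u, x⟫ - ⟪v, x⟫ := inner_sub_left _ _ _
  have h5 : ‖u - v‖ * ‖x‖ ≤ ‖u - v‖ * S.R := mul_le_mul_of_nonneg_left h3 (norm_nonneg _)
  rw [← hxe]
  linarith [mul_comm S.R ‖u - v‖]

theorem h_lip (u v : E) : |S.h u - S.h v| ≤ S.R * ‖u - v‖ := by
  rw [abs_le]
  have h1 := S.h_sub_le u v
  have h2 := S.h_sub_le v u
  rw [norm_sub_rev v u] at h2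
  constructor <;> linarith

theorem h_cont : Continuous S.h := by
  have : LipschitzWith (Real.toNNReal S.R) S.h := by
    apply LipschitzWith.of_dist_le_mul
    intro x y
    rw [Real.dist_eq, Real.coe_toNNReal _ S.R_nonneg, dist_eq_norm]
    exact S.h_lip x y
  exact this.continuous

/-- convexity of `h` -/
theorem h_add_le (u v : E) : S.h (u + v) ≤ S.h u + S.h v := by
  obtain ⟨x, hx, hxe⟩ := S.h_att (u + v)
  rw [← hxe, inner_add_left]
  exact add_le_add (S.h_le u x hx) (S.h_le v x hx)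

/-- `K` has interior points, so opposite supporting planes are different -/
theorem h_width {v : E} (hv : v ≠ 0) : 0 < S.h v + S.h (-v) := by
  obtain ⟨x0, hx0⟩ := S.K_int
  obtain ⟨ε, hε, hball⟩ := Metric.isOpen_iff.1 isOpen_interior x0 hx0
  have hvn : 0 < ‖v‖ := norm_pos_iff.2 hv
  set d : E := (ε / (2 * ‖v‖)) • v with hd
  have hdn : ‖d‖ < ε := by
    rw [hd, norm_smul, Real.norm_of_nonneg (by positivity)]
    field_simp
    linarith
  have hdv : ⟪v, d⟫ = ε / 2 * ‖v‖ := by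
    rw [hd, real_inner_smul_right, real_inner_self_eq_norm_sq]
    field_simp
  have h1 : x0 + d ∈ S.K := interior_subset (hball (by simpa [mem_ball, dist_eq_norm] using hdn))
  have h2 : x0 - d ∈ S.K := interior_subset (hball (by simpa [mem_ball, dist_eq_norm] using hdn))
  have h3 := S.h_le v _ h1
  have h4 := S.h_le (-v) _ h2
  rw [inner_add_right, hdv] at h3
  rw [inner_neg_left, inner_sub_right, hdv] at h4
  have : 0 < ε / 2 * ‖v‖ := by positivity
  linarith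

theorem C_mem {v : E} (hv : v ≠ 0) : S.C v ∈ S.K1 := by
  obtain ⟨x, hx, hxe⟩ := S.h_att v
  have h1 := S.K_sub hx
  have h2 := S.C_symm v hv x h1 hxe
  have h3 : S.C v = (1 / 2 : ℝ) • x + (1 / 2 : ℝ) • ((2 : ℝ) • S.C v - x) := by
    module
  rw [h3]
  exact S.K1_convex h1 h2 (by norm_num) (by norm_num) (by norm_num)

theorem C_ball {v : E} (hv : v ≠ 0) : closedBall (S.C v) (S.r / 2) ⊆ S.K1 := by
  intro y hy
  obtain ⟨x, hx, hxe⟩ := S.h_att v
  have h1 := S.K_sub hx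
  have h2 := S.C_symm v hv x h1 hxe
  have h4 : x + (2 : ℝ) • (y - S.C v) ∈ S.K1 := by
    apply S.ball_sub x hx
    rw [mem_closedBall, dist_eq_norm] at hy ⊢
    have : x + (2 : ℝ) • (y - S.C v) - x = (2 : ℝ) • (y - S.C v) := by abel
    rw [this, norm_smul]
    norm_num
    linarith
  have h3 : y = (1 / 2 : ℝ) • (x + (2 : ℝ) • (y - S.C v)) +
      (1 / 2 : ℝ) • ((2 : ℝ) • S.C v - x) := by
    module
  rw [h3]
  exact S.K1_convex h4 h2 (by norm_num) (by norm_num) (by norm_num)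

private theorem sec_compact (v : E) : IsCompact {x | x ∈ S.K1 ∧ ⟪v, x⟫ = S.h v} :=
  S.K1_compact.inter_right (isClosed_eq (continuous_const.inner continuous_id) continuous_const)

theorem C_unique {v : E} (hv : v ≠ 0) {p : E} (hp : ⟪v, p⟫ = S.h v)
    (hs : ∀ x ∈ S.K1, ⟪v, x⟫ = S.h v → (2 : ℝ) • p - x ∈ S.K1) : p = S.C v := by
  set d : E := (2 : ℝ) • (p - S.C v) with hd
  have hne : {x | x ∈ S.K1 ∧ ⟪v, x⟫ = S.h v}.Nonempty := ⟨S.C v, S.C_mem hv, S.C_h v hv⟩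
  obtain ⟨x, hx, hmax⟩ := (S.sec_compact v).exists_isMaxOn hne
    (f := fun x => ⟪d, x⟫) ((continuous_const.inner continuous_id).continuousOn)
  have h1 := S.C_symm v hv x hx.1 hx.2
  have h2 : ⟪v, (2 : ℝ) • S.C v - x⟫ = S.h v := by
    rw [inner_sub_right, real_inner_smul_right, S.C_h v hv, hx.2]; ring
  have h3 := hs _ h1 h2
  have h4 : (2 : ℝ) • p - ((2 : ℝ) • S.C v - x) = x + d := by
    rw [hd]; module
  rw [h4] at h3
  have h5 : ⟪v, x + d⟫ = S.h v := by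
    rw [inner_add_right, hx.2, hd, real_inner_smul_right, inner_sub_right, hp, S.C_h v hv]; ring
  have h6 : ⟪d, x + d⟫ ≤ ⟪d, x⟫ := hmax ⟨h3, h5⟩
  rw [inner_add_right, real_inner_self_eq_norm_sq] at h6
  have h7 : ‖d‖ = 0 := by nlinarith [norm_nonneg d]
  have h8 : d = 0 := norm_eq_zero.1 h7
  rw [hd, smul_eq_zero] at h8
  rcases h8 with h8 | h8
  · norm_num at h8
  · exact sub_eq_zero.1 h8

theorem C_smul {c : ℝ} (hc : 0 < c) {v : E} (hv : v ≠ 0) : S.C (c • v) = S.C v := by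
  have hcv : c • v ≠ 0 := smul_ne_zero hc.ne' hv
  have h1 : ⟪v, S.C (c • v)⟫ = S.h v := by
    have := S.C_h (c • v) hcv
    rw [real_inner_smul_left, S.h_smul hc.le] at this
    exact mul_left_cancel₀ hc.ne' this
  refine S.C_unique hv h1 fun x hx hxe => S.C_symm (c • v) hcv x hx ?_
  rw [real_inner_smul_left, S.h_smul hc.le, hxe]

/-- sections depend in a Lipschitz way on `v`: if `x ∈ S_u`, move along the segment to
`C v ± (r/2) v`. -/
theorem section_lip : ∃ L : ℝ, 0 < L ∧ ∀ u v : E, ‖u‖ = 1 → ‖v‖ = 1 → ∀ x ∈ S.K1,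
    ⟪u, x⟫ = S.h u → ∃ y ∈ S.K1, ⟪v, y⟫ = S.h v ∧ ‖x - y‖ ≤ L * ‖u - v‖ := by
  have hr := S.r_pos
  have hR := S.R_nonneg
  refine ⟨8 * S.R ^ 2 / S.r + 1, by positivity, ?_⟩
  intro u v hu hv x hx hxe
  have hv0 : v ≠ 0 := by
    intro h; rw [h, norm_zero] at hv; norm_num at hv
  set δ : ℝ := ⟪v, x⟫ - S.h v with hδ
  have hδb : |δ| ≤ 2 * S.R * ‖u - v‖ := by
    have h1 := S.h_lip u v
    have h2 : |⟪u - v, x⟫| ≤ ‖u - v‖ * ‖x‖ := abs_real_inner_le_norm _ _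
    have h3 : ‖x‖ ≤ S.R := S.K1_bdd x hx
    have h4 : ‖u - v‖ * ‖x‖ ≤ ‖u - v‖ * S.R := mul_le_mul_of_nonneg_left h3 (norm_nonneg _)
    have h5 : δ = (S.h u - S.h v) - ⟪u - v, x⟫ := by
      rw [inner_sub_left, hxe, hδ]; ring
    rw [h5]
    have h6 := abs_sub (S.h u - S.h v) (⟪u - v, x⟫)
    have h7 : |S.h u - S.h v - ⟪u - v, x⟫| ≤ |S.h u - S.h v| + |⟪u - v, x⟫| := by
      simpa [sub_eq_add_neg, abs_neg] using abs_add_le (S.h u - S.h v) (-⟪u - v, x⟫)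
    nlinarith
  -- the point on the other side
  obtain ⟨z, hz, hzδ⟩ : ∃ z ∈ S.K1, (⟪v, z⟫ - S.h v) * |δ| = -(S.r / 2) * δ := by
    rcases le_total 0 δ with h | h
    · refine ⟨S.C v - (S.r / 2) • v, S.C_ball hv0 ?_, ?_⟩
      · rw [mem_closedBall, dist_eq_norm]
        have : S.C v - (S.r / 2) • v - S.C v = -((S.r / 2) • v) := by abel
        rw [this, norm_neg, norm_smul, hv, Real.norm_of_nonneg (by positivity)]
        linarith
      · rw [abs_of_nonneg h, inner_sub_right, real_inner_smul_right, S.C_h v hv0,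
          real_inner_self_eq_norm_sq, hv]
        ring
    · refine ⟨S.C v + (S.r / 2) • v, S.C_ball hv0 ?_, ?_⟩
      · rw [mem_closedBall, dist_eq_norm]
        have : S.C v + (S.r / 2) • v - S.C v = (S.r / 2) • v := by abel
        rw [this, norm_smul, hv, Real.norm_of_nonneg (by positivity)]
        linarith
      · rw [abs_of_nonpos h, inner_add_right, real_inner_smul_right, S.C_h v hv0,
          real_inner_self_eq_norm_sq, hv]
        ring
  set s : ℝ := |δ| / (|δ| + S.r / 2) with hs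
  have hden : 0 < |δ| + S.r / 2 := by positivity
  have hs0 : 0 ≤ s := by positivity
  have hs1 : s ≤ 1 := by
    rw [hs, div_le_one hden]; linarith
  refine ⟨(1 - s) • x + s • z, S.K1_convex hx hz (by linarith) hs0 (by ring), ?_, ?_⟩
  · rw [inner_add_right, real_inner_smul_right, real_inner_smul_right]
    have h1 : ⟪v, x⟫ = δ + S.h v := by rw [hδ]; ring
    rw [h1]
    have h2 : s * (|δ| + S.r / 2) = |δ| := by
      rw [hs]; field_simp
    have h3 : (1 - s) * (|δ| + S.r / 2) = S.r / 2 := by linarith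
    have h4 : ((1 - s) * δ + s * (⟪v, z⟫ - S.h v)) * (|δ| + S.r / 2) = 0 := by
      calc ((1 - s) * δ + s * (⟪v, z⟫ - S.h v)) * (|δ| + S.r / 2)
          = ((1 - s) * (|δ| + S.r / 2)) * δ +
            (s * (|δ| + S.r / 2)) * (⟪v, z⟫ - S.h v) := by ring
        _ = S.r / 2 * δ + |δ| * (⟪v, z⟫ - S.h v) := by rw [h2, h3]
        _ = 0 := by linarith
    have h5 : (1 - s) * δ + s * (⟪v, z⟫ - S.h v) = 0 := by
      rcases mul_eq_zero.1 h4 with h | h
      · exact h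
      · exact absurd h hden.ne'
    linarith
  · have h1 : x - ((1 - s) • x + s • z) = s • (x - z) := by module
    rw [h1, norm_smul, Real.norm_of_nonneg hs0]
    have h2 : ‖x - z‖ ≤ 2 * S.R := by
      calc ‖x - z‖ ≤ ‖x‖ + ‖z‖ := norm_sub_le _ _
        _ ≤ S.R + S.R := add_le_add (S.K1_bdd x hx) (S.K1_bdd z hz)
        _ = 2 * S.R := by ring
    have h3 : s ≤ |δ| / (S.r / 2) := by
      rw [hs]
      apply div_le_div_of_nonneg_left (abs_nonneg _) (by positivity)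
      linarith [abs_nonneg δ]
    calc s * ‖x - z‖ ≤ (|δ| / (S.r / 2)) * (2 * S.R) := by
          apply mul_le_mul h3 h2 (norm_nonneg _) (by positivity)
      _ = |δ| * (4 * S.R / S.r) := by field_simp; ring
      _ ≤ (2 * S.R * ‖u - v‖) * (4 * S.R / S.r) :=
          mul_le_mul_of_nonneg_right hδb (by positivity)
      _ = 8 * S.R ^ 2 / S.r * ‖u - v‖ := by field_simp; ring
      _ ≤ (8 * S.R ^ 2 / S.r + 1) * ‖u - v‖ :=
          mul_le_mul_of_nonneg_right (by linarith) (norm_nonneg _)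

/-- `2 ⟪n, C v⟫ = max_{S_v} n + min_{S_v} n` -/
theorem C_lip : ∃ L : ℝ, 0 < L ∧ ∀ u v : E, ‖u‖ = 1 → ‖v‖ = 1 →
    ‖S.C u - S.C v‖ ≤ L * ‖u - v‖ := by
  obtain ⟨L, hL, hsec⟩ := S.section_lip
  refine ⟨L, hL, ?_⟩
  have ne0 : ∀ v : E, ‖v‖ = 1 → v ≠ 0 := fun v hv h => by
    rw [h, norm_zero] at hv; norm_num at hv
  intro u v hu hv
  set n : E := S.C u - S.C v with hn
  -- extreme values on the two sections
  have hmax : ∀ v : E, ‖v‖ = 1 → ∀ n : E, ∃ x ∈ S.K1, ⟪v, x⟫ = S.h v ∧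
      ∀ y ∈ S.K1, ⟪v, y⟫ = S.h v → ⟪n, y⟫ ≤ ⟪n, x⟫ := by
    intro v hv n
    have hne : {x | x ∈ S.K1 ∧ ⟪v, x⟫ = S.h v}.Nonempty :=
      ⟨S.C v, S.C_mem (ne0 v hv), S.C_h v (ne0 v hv)⟩
    obtain ⟨x, hx, hmax⟩ := (S.sec_compact v).exists_isMaxOn hne
      (f := fun x => ⟪n, x⟫) ((continuous_const.inner continuous_id).continuousOn)
    exact ⟨x, hx.1, hx.2, fun y hy hye => hmax ⟨hy, hye⟩⟩
  obtain ⟨x, hx, hxe, hxm⟩ := hmax u hu n
  obtain ⟨y, hy, hye, hym⟩ := hmax v hv n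
  have hx' := S.C_symm u (ne0 u hu) x hx hxe
  have hy' := S.C_symm v (ne0 v hv) y hy hye
  have hye' : ⟪v, (2 : ℝ) • S.C v - y⟫ = S.h v := by
    rw [inner_sub_right, real_inner_smul_right, S.C_h v (ne0 v hv), hye]; ring
  -- max_u ≤ max_v + L ε ‖n‖
  obtain ⟨a, ha, hae, hab⟩ := hsec u v hu hv x hx hxe
  have h1 : ⟪n, x⟫ ≤ ⟪n, y⟫ + ‖n‖ * (L * ‖u - v‖) := by
    have h2 := hym a ha hae
    have h3 : ⟪n, x - a⟫ ≤ ‖n‖ * ‖x - a‖ := real_inner_le_norm _ _
    rw [inner_sub_right] at h3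
    have h4 : ‖n‖ * ‖x - a‖ ≤ ‖n‖ * (L * ‖u - v‖) :=
      mul_le_mul_of_nonneg_left hab (norm_nonneg _)
    linarith
  -- min_u ≤ min_v + L ε ‖n‖
  obtain ⟨b, hb, hbe, hbb⟩ := hsec v u hv hu _ hy' hye'
  have h5 : ⟪n, (2 : ℝ) • S.C u - x⟫ ≤ ⟪n, (2 : ℝ) • S.C v - y⟫ + ‖n‖ * (L * ‖u - v‖) := by
    have hb' := S.C_symm u (ne0 u hu) b hb hbe
    have hbe' : ⟪u, (2 : ℝ) • S.C u - b⟫ = S.h u := by
      rw [inner_sub_right, real_inner_smul_right, S.C_h u (ne0 u hu), hbe]; ring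
    have h2 := hxm _ hb' hbe'
    have h3 : ⟪n, b - ((2 : ℝ) • S.C v - y)⟫ ≤ ‖n‖ * ‖b - ((2 : ℝ) • S.C v - y)‖ :=
      real_inner_le_norm _ _
    have h4 : ‖n‖ * ‖b - ((2 : ℝ) • S.C v - y)‖ ≤ ‖n‖ * (L * ‖u - v‖) := by
      apply mul_le_mul_of_nonneg_left _ (norm_nonneg _)
      rw [norm_sub_rev, norm_sub_rev u v]
      exact hbb
    rw [inner_sub_right] at h2 h3 ⊢
    linarith
  have h6 : 2 * ‖n‖ ^ 2 ≤ 2 * (‖n‖ * (L * ‖u - v‖)) := by
    have h7 : ⟪n, S.C u⟫ - ⟪n, S.C v⟫ = ‖n‖ ^ 2 := by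
      rw [← inner_sub_right, ← hn, real_inner_self_eq_norm_sq]
    rw [inner_sub_right, inner_sub_right, real_inner_smul_right, real_inner_smul_right] at h5
    linarith
  rcases (norm_nonneg n).eq_or_lt with h7 | h7
  · rw [← h7]; positivity
  · have h8 : ‖n‖ * ‖n‖ ≤ ‖n‖ * (L * ‖u - v‖) := by nlinarith
    exact le_of_mul_le_mul_left h8 h7

theorem C_cont {v : E} (hv : v ≠ 0) : ContinuousAt S.C v := by
  obtain ⟨L, hL, hlip⟩ := S.C_lip
  have hnorm : ∀ w : E, w ≠ 0 → ‖(‖w‖⁻¹) • w‖ = 1 := fun w hw => by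
    rw [norm_smul, norm_inv, norm_norm, inv_mul_cancel₀ (norm_ne_zero_iff.2 hw)]
  have hev : ∀ᶠ w in 𝓝 v, w ≠ 0 := isOpen_ne.mem_nhds hv
  have hbd : ∀ᶠ w in 𝓝 v, ‖S.C w - S.C v‖ ≤ L * ‖(‖w‖⁻¹) • w - (‖v‖⁻¹) • v‖ := by
    filter_upwards [hev] with w hw
    have h1 := hlip _ _ (hnorm w hw) (hnorm v hv)
    rwa [S.C_smul (inv_pos.2 (norm_pos_iff.2 hw)) hw,
      S.C_smul (inv_pos.2 (norm_pos_iff.2 hv)) hv] at h1
  have hlim : Tendsto (fun w : E => L * ‖(‖w‖⁻¹) • w - (‖v‖⁻¹) • v‖) (𝓝 v) (𝓝 0) := by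
    have h1 : ContinuousAt (fun w : E => L * ‖(‖w‖⁻¹) • w - (‖v‖⁻¹) • v‖) v := by
      have h2 : ContinuousAt (fun w : E => (‖w‖⁻¹) • w) v :=
        (continuous_norm.continuousAt.inv₀ (norm_ne_zero_iff.2 hv)).smul continuousAt_id
      exact continuousAt_const.mul (h2.sub continuousAt_const).norm
    have h3 := h1.tendsto
    simpa using h3
  rw [ContinuousAt, tendsto_iff_norm_sub_tendsto_zero]
  exact squeeze_zero' (Eventually.of_forall fun _ => norm_nonneg _) hbd hlim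

theorem Sp_neg {v w : E} (hv : v ≠ 0) (hw : w ∈ S.Sp v) : -w ∈ S.Sp v := by
  refine ⟨by rw [inner_neg_right, hw.1, neg_zero], ?_⟩
  have h1 : ⟪v, S.C v + w⟫ = S.h v := by rw [inner_add_right, hw.1, S.C_h v hv, add_zero]
  have h2 := S.C_symm v hv _ hw.2 h1
  have h3 : (2 : ℝ) • S.C v - (S.C v + w) = S.C v + -w := by module
  rwa [h3] at h2

theorem Sp_convex (v : E) : Convex ℝ (S.Sp v) := by
  intro x hx y hy a b ha hb hab
  refine ⟨?_, ?_⟩
  · rw [inner_add_right, real_inner_smul_right, real_inner_smul_right, hx.1, hy.1]; ring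
  · have h1 : S.C v + (a • x + b • y) = a • (S.C v + x) + b • (S.C v + y) := by
      have : b = 1 - a := by linarith
      rw [this]; module
    rw [h1]
    exact S.K1_convex hx.2 hy.2 ha hb hab

theorem Sp_compact (v : E) : IsCompact (S.Sp v) := by
  have h1 : S.Sp v = ((fun x => x - S.C v) '' S.K1) ∩ {w | ⟪v, w⟫ = 0} := by
    ext w
    constructor
    · intro hw
      exact ⟨⟨S.C v + w, hw.2, by simp⟩, hw.1⟩
    · rintro ⟨⟨x, hx, rfl⟩, h⟩
      refine ⟨h, ?_⟩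
      simpa using hx
  rw [h1]
  exact (S.K1_compact.image (continuous_id.sub continuous_const)).inter_right
    (isClosed_eq (continuous_const.inner continuous_id) continuous_const)

theorem Sp_norm {v w : E} (hv : v ≠ 0) (hw : w ∈ S.Sp v) : ‖w‖ ≤ 2 * S.R := by
  have h1 : w = (S.C v + w) - S.C v := by abel
  rw [h1]
  calc ‖(S.C v + w) - S.C v‖ ≤ ‖S.C v + w‖ + ‖S.C v‖ := norm_sub_le _ _
    _ ≤ S.R + S.R := add_le_add (S.K1_bdd _ hw.2) (S.K1_bdd _ (S.C_mem hv))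
    _ = 2 * S.R := by ring

theorem Sp_ball {v w : E} (hv : v ≠ 0) (h0 : ⟪v, w⟫ = 0) (hw : ‖w‖ ≤ S.r / 2) :
    w ∈ S.Sp v := by
  refine ⟨h0, S.C_ball hv ?_⟩
  rw [mem_closedBall, dist_eq_norm]
  simpa using hw

/-- every direction in `v^⊥` meets the boundary -/
theorem exists_bd {v e : E} (hv : v ≠ 0) (he : e ≠ 0) (h0 : ⟪v, e⟫ = 0) :
    ∃ c : ℝ, 0 < c ∧ c • e ∈ S.bd v := by
  have hr := S.r_pos
  have hen : 0 < ‖e‖ := norm_pos_iff.2 he
  set A : Set ℝ := {c : ℝ | c ∈ Icc (0 : ℝ) (2 * S.R / ‖e‖) ∧ c • e ∈ S.Sp v} with hA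
  have hAc : IsCompact A := by
    have h1 : IsClosed {c : ℝ | c • e ∈ S.Sp v} :=
      (S.Sp_compact v).isClosed.preimage (continuous_id.smul continuous_const)
    exact isCompact_Icc.inter_right h1
  have hc0 : S.r / (2 * ‖e‖) ∈ A := by
    have h1 : (S.r / (2 * ‖e‖)) • e ∈ S.Sp v := by
      apply S.Sp_ball hv
      · rw [real_inner_smul_right, h0, mul_zero]
      · rw [norm_smul, Real.norm_of_nonneg (by positivity)]
        apply le_of_eq
        field_simp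
    refine ⟨⟨by positivity, ?_⟩, h1⟩
    have h2 := S.Sp_norm hv h1
    rw [norm_smul, Real.norm_of_nonneg (by positivity)] at h2
    rw [le_div_iff₀ hen]
    exact h2
  obtain ⟨c, hc, hmax⟩ := hAc.exists_isMaxOn ⟨_, hc0⟩ (f := fun x => x) continuous_id.continuousOn
  have hcpos : 0 < c := lt_of_lt_of_le (by positivity) (hmax hc0)
  refine ⟨c, hcpos, hc.2, ?_⟩
  intro c' hc' hmem
  rw [smul_smul] at hmem
  have h1 : c' * c ∈ A := by
    refine ⟨⟨by positivity, ?_⟩, hmem⟩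
    have h2 := S.Sp_norm hv hmem
    rw [norm_smul, Real.norm_of_nonneg (by positivity)] at h2
    rw [le_div_iff₀ hen]
    exact h2
  have h2 : c' * c ≤ c := hmax h1
  nlinarith

theorem F_orth {v κ : E} (hv : v ≠ 0) (h : S.C v + κ ∈ S.F v) : ⟪v, κ⟫ = 0 := by
  have h1 := h.2
  rw [inner_add_right, S.C_h v hv] at h1
  linarith

/-- contact points are well inside -/
theorem F_inside {v κ : E} (hv : v ≠ 0) (h : S.C v + κ ∈ S.F v) :
    ∃ c : ℝ, 1 + S.r / (2 * S.R) ≤ c ∧ c • κ ∈ S.Sp v := by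
  have hr := S.r_pos
  have horth := S.F_orth hv h
  have hκ : κ ∈ S.Sp v := ⟨horth, S.K_sub h.1⟩
  rcases eq_or_ne κ 0 with h0 | h0
  · refine ⟨1 + S.r / (2 * S.R), le_rfl, ?_⟩
    rw [h0, smul_zero, ← h0]
    exact hκ
  · have hn : 0 < ‖κ‖ := norm_pos_iff.2 h0
    refine ⟨1 + S.r / ‖κ‖, ?_, ?_, ?_⟩
    · have := S.Sp_norm hv hκ
      have h2 : S.r / (2 * S.R) ≤ S.r / ‖κ‖ := div_le_div_of_nonneg_left hr.le hn this
      linarith
    · rw [real_inner_smul_right, horth, mul_zero]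
    · apply S.ball_sub _ h.1
      rw [mem_closedBall, dist_eq_norm]
      have h1 : S.C v + (1 + S.r / ‖κ‖) • κ - (S.C v + κ) = (S.r / ‖κ‖) • κ := by module
      rw [h1, norm_smul, Real.norm_of_nonneg (by positivity)]
      apply le_of_eq
      field_simp

end Setting
end Pool.Agent.Helper18.BL
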