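import Mathlib
import Pool.Agent.Helper18.BL.T1

set_option autoImplicit false

open Set MeasureTheory Filter Topology Metric
open scoped RealInnerProductSpace

namespace Pool.Agent.Helper18.BL
namespace Setting
variable (S : Setting)

/-! ### T2: pairs -/
theorem pair_max {v w n : E} {t t' : ℝ} (hv : v ≠ 0) (h : S.Pair v w n t t') :
    ∀ w' ∈ S.Sp v, ⟪n, w'⟫ ≤ ⟪n, w⟫ := by
  intro w' hw'
  have h1 := h.2.1 (S.C v + w') hw'.2
  rw [inner_add_right, inner_add_right, inner_sub_left n (t • v) w', inner_sub_left n (t • v) w,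
    real_inner_smul_left, real_inner_smul_left, hw'.1, h.1.1] at h1
  linarith

/-- the bound for one supporting plane -/
private theorem one_bound {v w N : E} (hv : v ≠ 0)
    (h : ∀ x ∈ S.K1, ⟪N, x⟫ ≤ ⟪N, S.C v + w⟫) : S.r / 2 * ‖N‖ ≤ ⟪N, w⟫ := by
  have hr := S.r_pos
  rcases eq_or_ne N 0 with h0 | h0
  · simp [h0]
  · have hN : 0 < ‖N‖ := norm_pos_iff.2 h0
    have h1 : S.C v + (S.r / 2 / ‖N‖) • N ∈ S.K1 := by
      apply S.C_ball hv
      rw [mem_closedBall, dist_eq_norm, add_sub_cancel_left, norm_smul,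
        Real.norm_of_nonneg (by positivity)]
      apply le_of_eq
      field_simp
    have h2 := h _ h1
    rw [inner_add_right, inner_add_right, real_inner_smul_right, real_inner_self_eq_norm_sq] at h2
    have h3 : S.r / 2 / ‖N‖ * ‖N‖ ^ 2 = S.r / 2 * ‖N‖ := by field_simp
    rw [h3] at h2
    linarith

/-- `(r/2) ‖n - t v‖ ≤ ⟪n - t v, w⟫ = ⟪n, w⟫ ≤ 2 R ‖n‖` -/
theorem pair_bound {v w n : E} {t t' : ℝ} (hv : v ≠ 0) (h : S.Pair v w n t t') :
    ‖n - t • v‖ ≤ 4 * S.R / S.r * ‖n‖ ∧ ‖n + t' • v‖ ≤ 4 * S.R / S.r * ‖n‖ := by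
  have hr := S.r_pos
  have h1 := S.one_bound hv h.2.1
  have h2 : S.r / 2 * ‖-n - t' • v‖ ≤ ⟪-n - t' • v, -w⟫ := by
    apply S.one_bound hv
    intro x hx
    have := h.2.2 x hx
    rwa [sub_eq_add_neg] at this
  have h3 : ‖n‖ * ‖w‖ ≤ ‖n‖ * (2 * S.R) :=
    mul_le_mul_of_nonneg_left (S.Sp_norm hv h.1) (norm_nonneg _)
  have h4 : ⟪n, w⟫ ≤ ‖n‖ * ‖w‖ := real_inner_le_norm _ _
  rw [inner_sub_left, real_inner_smul_left, h.1.1] at h1
  rw [inner_sub_left, real_inner_smul_left, inner_neg_right, inner_neg_right, inner_neg_left,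
    h.1.1] at h2
  have h5 : ‖-n - t' • v‖ = ‖n + t' • v‖ := by
    rw [← norm_neg]; congr 1; abel
  rw [h5] at h2
  constructor
  · rw [div_mul_eq_mul_div, le_div_iff₀ hr]
    linarith
  · rw [div_mul_eq_mul_div, le_div_iff₀ hr]
    linarith

/-- closedness -/
theorem pair_closed {v w n : ℕ → E} {t t' : ℕ → ℝ} {v0 w0 n0 : E} {t0 t0' : ℝ} (hv0 : v0 ≠ 0)
    (h : ∀ j, S.Pair (v j) (w j) (n j) (t j) (t' j)) (hv : Tendsto v atTop (𝓝 v0))
    (hw : Tendsto w atTop (𝓝 w0)) (hn : Tendsto n atTop (𝓝 n0)) (ht : Tendsto t atTop (𝓝 t0))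
    (ht' : Tendsto t' atTop (𝓝 t0')) : S.Pair v0 w0 n0 t0 t0' := by
  have hC : Tendsto (fun j => S.C (v j)) atTop (𝓝 (S.C v0)) := (S.C_cont hv0).tendsto.comp hv
  have hN : Tendsto (fun j => n j - t j • v j) atTop (𝓝 (n0 - t0 • v0)) := hn.sub (ht.smul hv)
  have hN' : Tendsto (fun j => -n j - t' j • v j) atTop (𝓝 (-n0 - t0' • v0)) :=
    hn.neg.sub (ht'.smul hv)
  have hp : Tendsto (fun j => S.C (v j) + w j) atTop (𝓝 (S.C v0 + w0)) := hC.add hw
  have hp' : Tendsto (fun j => S.C (v j) - w j) atTop (𝓝 (S.C v0 - w0)) := hC.sub hw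
  refine ⟨⟨?_, ?_⟩, ?_, ?_⟩
  · have h1 : Tendsto (fun j => ⟪v j, w j⟫) atTop (𝓝 ⟪v0, w0⟫) := hv.inner hw
    have h2 : Tendsto (fun _ : ℕ => (0 : ℝ)) atTop (𝓝 0) := tendsto_const_nhds
    refine tendsto_nhds_unique h1 (h2.congr fun j => ((h j).1.1).symm)
  · exact S.K1_compact.isClosed.mem_of_tendsto hp (Eventually.of_forall fun j => (h j).1.2)
  · intro x hx
    exact le_of_tendsto_of_tendsto' (hN.inner tendsto_const_nhds) (hN.inner hp)
      (fun j => (h j).2.1 x hx)
  · intro x hx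
    exact le_of_tendsto_of_tendsto' (hN'.inner tendsto_const_nhds) (hN'.inner hp')
      (fun j => (h j).2.2 x hx)

private theorem int_ne {v : E} (hv : v ≠ 0) : S.C v ∈ interior S.K1 := by
  have hr := S.r_pos
  exact interior_mono (S.C_ball hv) (mem_interior.2 ⟨ball (S.C v) (S.r / 2), ball_subset_closedBall,
    isOpen_ball, mem_ball_self (by positivity)⟩)

/-- if a continuous functional is `< u` on the interior it is `≤ u` on `K1` -/
private theorem le_of_lt_int {v : E} (hv : v ≠ 0) (f : E →L[ℝ] ℝ) (u : ℝ)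
    (hf : ∀ a ∈ interior S.K1, f a < u) : ∀ x ∈ S.K1, f x ≤ u := by
  intro x hx
  have h1 : closure (interior S.K1) = closure S.K1 :=
    S.K1_convex.closure_interior_eq_closure_of_nonempty_interior ⟨_, S.int_ne hv⟩
  have h2 : x ∈ closure (interior S.K1) := by rw [h1]; exact subset_closure hx
  have h3 : closure (interior S.K1) ⊆ {x | f x ≤ u} :=
    closure_minimal (fun a ha => (hf a ha).le) (isClosed_le f.continuous continuous_const)
  exact h3 h2

/-- one supporting plane -/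
private theorem support_exists {v w n : E} (hv : v ≠ 0) (hw : w ∈ S.Sp v)
    (hmax : ∀ w' ∈ S.Sp v, ⟪n, w'⟫ ≤ ⟪n, w⟫) :
    ∃ t : ℝ, ∀ x ∈ S.K1, ⟪n - t • v, x⟫ ≤ ⟪n - t • v, S.C v + w⟫ := by
  have hvn : 0 < ‖v‖ ^ 2 := by positivity
  set n' : E := n - (⟪v, n⟫ / ‖v‖ ^ 2) • v with hn'
  have hvn' : ⟪v, n'⟫ = 0 := by
    rw [hn', inner_sub_right, real_inner_smul_right, real_inner_self_eq_norm_sq]
    field_simp
    ring
  rcases eq_or_ne n' 0 with h0 | h0
  · refine ⟨⟪v, n⟫ / ‖v‖ ^ 2, fun x _ => ?_⟩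
    rw [← hn', h0, inner_zero_left, inner_zero_left]
  have hn'n : 0 < ‖n'‖ ^ 2 := by
    have := norm_pos_iff.2 h0
    positivity
  have hnn' : ⟪n, n'⟫ = ‖n'‖ ^ 2 := by
    have h1 : n = n' + (⟪v, n⟫ / ‖v‖ ^ 2) • v := by rw [hn']; abel
    conv_lhs => rw [h1]
    rw [inner_add_left, real_inner_smul_left, hvn', real_inner_self_eq_norm_sq]
    ring
  -- Hahn-Banach
  set A : Set E := {x | ⟪v, x⟫ = S.h v ∧ ⟪n, S.C v + w⟫ ≤ ⟪n, x⟫} with hA
  have hAconv : Convex ℝ A := by
    intro x hx y hy a b ha hb hab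
    refine ⟨?_, ?_⟩
    · rw [inner_add_right, real_inner_smul_right, real_inner_smul_right, hx.1, hy.1]
      rw [← add_mul, hab, one_mul]
    · rw [inner_add_right n (a • x) (b • y), real_inner_smul_right, real_inner_smul_right]
      have h1 := mul_le_mul_of_nonneg_left hx.2 ha
      have h2 := mul_le_mul_of_nonneg_left hy.2 hb
      have h3 : a * ⟪n, S.C v + w⟫ + b * ⟪n, S.C v + w⟫ = ⟪n, S.C v + w⟫ := by
        rw [← add_mul, hab, one_mul]
      linarith
  have hdisj : Disjoint (interior S.K1) A := by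
    rw [Set.disjoint_left]
    intro x hx hxA
    obtain ⟨ε, hε, hball⟩ := Metric.isOpen_iff.1 isOpen_interior x hx
    have hn1 : 0 < ‖n'‖ := norm_pos_iff.2 h0
    set y : E := x + (ε / (2 * ‖n'‖)) • n' with hy
    have hyK : y ∈ S.K1 := by
      apply interior_subset (hball _)
      rw [mem_ball, dist_eq_norm, hy, add_sub_cancel_left, norm_smul,
        Real.norm_of_nonneg (by positivity)]
      have : ε / (2 * ‖n'‖) * ‖n'‖ = ε / 2 := by field_simp
      linarith
    have hySp : y - S.C v ∈ S.Sp v := by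
      refine ⟨?_, ?_⟩
      · rw [inner_sub_right, hy, inner_add_right, real_inner_smul_right, hvn', hxA.1,
          S.C_h v hv]
        ring
      · simpa using hyK
    have h1 := hmax _ hySp
    have h2 := hxA.2
    rw [inner_add_right] at h2
    rw [inner_sub_right, hy, inner_add_right, real_inner_smul_right, hnn'] at h1
    have h3 : 0 < ε / (2 * ‖n'‖) * ‖n'‖ ^ 2 := by positivity
    linarith
  obtain ⟨f, u, hfu, huf⟩ := geometric_hahn_banach_open S.K1_convex.interior isOpen_interior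
    hAconv hdisj
  -- the normal vector
  obtain ⟨N, hN⟩ : ∃ N : E, ∀ x, f x = ⟪N, x⟫ := by
    refine ⟨(InnerProductSpace.toDual ℝ E).symm f, fun x => ?_⟩
    rw [InnerProductSpace.toDual_symm_apply]
  have hpA : S.C v + w ∈ A :=
    ⟨by rw [inner_add_right, S.C_h v hv, hw.1, add_zero], le_rfl⟩
  have hcone : ∀ d : E, ⟪v, d⟫ = 0 → 0 ≤ ⟪n, d⟫ → 0 ≤ ⟪N, d⟫ := by
    intro d hd1 hd2
    by_contra hneg
    push Not at hneg
    have h1 : ∀ c : ℝ, 0 ≤ c → u ≤ ⟪N, S.C v + w⟫ + c * ⟪N, d⟫ := by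
      intro c hc
      have h2 : S.C v + w + c • d ∈ A := by
        refine ⟨?_, ?_⟩
        · rw [inner_add_right, real_inner_smul_right, hd1, hpA.1]; ring
        · rw [inner_add_right n (S.C v + w), real_inner_smul_right]
          have := mul_nonneg hc hd2
          linarith
      have h3 := huf _ h2
      rw [hN, inner_add_right N (S.C v + w), real_inner_smul_right] at h3
      exact h3
    have h4 := h1 ((⟪N, S.C v + w⟫ - u + 1) / (-⟪N, d⟫)) (by
      apply div_nonneg _ (by linarith)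
      have := huf _ hpA
      rw [hN] at this
      linarith)
    have h5 : (⟪N, S.C v + w⟫ - u + 1) / (-⟪N, d⟫) * ⟪N, d⟫ = -(⟪N, S.C v + w⟫ - u + 1) := by
      have : ⟪N, d⟫ ≠ 0 := hneg.ne
      field_simp
    rw [h5] at h4
    linarith
  set β : ℝ := ⟪v, N⟫ / ‖v‖ ^ 2 with hβ
  set α : ℝ := ⟪n', N⟫ / ‖n'‖ ^ 2 with hα
  set ν : E := N - α • n' - β • v with hν
  have hn'v : ⟪n', v⟫ = 0 := by rw [real_inner_comm]; exact hvn'
  have hvν : ⟪v, ν⟫ = 0 := by
    rw [hν, inner_sub_right, inner_sub_right, real_inner_smul_right, real_inner_smul_right, hvn',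
      real_inner_self_eq_norm_sq, hβ]
    field_simp
    ring
  have hnν' : ⟪n', ν⟫ = 0 := by
    rw [hν, inner_sub_right, inner_sub_right, real_inner_smul_right, real_inner_smul_right, hn'v,
      real_inner_self_eq_norm_sq, hα]
    field_simp
    ring
  have hnν : ⟪n, ν⟫ = 0 := by
    have h1 : n = n' + (⟪v, n⟫ / ‖v‖ ^ 2) • v := by rw [hn']; abel
    rw [h1, inner_add_left, real_inner_smul_left, hvν, hnν']
    ring
  have hNν : ⟪N, ν⟫ = 0 := by
    apply le_antisymm
    · have := hcone (-ν) (by rw [inner_neg_right, hvν, neg_zero])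
        (by rw [inner_neg_right, hnν, neg_zero])
      rw [inner_neg_right] at this
      linarith
    · exact hcone ν hvν hnν.ge
  have hν0 : ν = 0 := by
    have h1 : ⟪ν, ν⟫ = 0 := by
      conv_lhs => rw [hν]
      rw [← hν, inner_sub_left, inner_sub_left, real_inner_smul_left, real_inner_smul_left, hNν,
        hnν', hvν]
      ring
    exact inner_self_eq_zero.1 h1
  have hNeq : N = α • n' + β • v := by
    have : N - α • n' - β • v = 0 := by rw [← hν]; exact hν0
    have h2 : N = (N - α • n' - β • v) + (α • n' + β • v) := by abel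
    rw [this, zero_add] at h2
    exact h2
  have hα0 : 0 < α := by
    have h1 : 0 ≤ ⟪N, n'⟫ := hcone n' hvn' (by rw [hnn']; exact hn'n.le)
    have h2 : 0 ≤ α := by
      rw [hα, real_inner_comm]
      positivity
    rcases h2.eq_or_lt with h3 | h3
    · exfalso
      have h4 := hfu _ (S.int_ne hv)
      have h5 := huf _ hpA
      rw [hN, hNeq, ← h3, zero_smul, zero_add, real_inner_smul_left] at h4 h5
      rw [S.C_h v hv] at h4
      rw [inner_add_right, hw.1, S.C_h v hv, add_zero] at h5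
      linarith
    · exact h3
  refine ⟨⟪v, n⟫ / ‖v‖ ^ 2 - β / α, fun x hx => ?_⟩
  have h1 : n - (⟪v, n⟫ / ‖v‖ ^ 2 - β / α) • v = (1 / α) • N := by
    rw [hNeq, smul_add, smul_smul, smul_smul, one_div_mul_cancel hα0.ne', one_smul, hn',
      sub_smul]
    have : (1 / α * β) = β / α := by ring
    rw [this]
    abel
  rw [h1, real_inner_smul_left, real_inner_smul_left]
  apply mul_le_mul_of_nonneg_left _ (by positivity)
  have h2 := S.le_of_lt_int hv f u hfu x hx
  have h3 := huf _ hpA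
  rw [hN] at h2 h3
  linarith

/-- existence of supporting planes for given `n` and any maximal point `w`
(geometric Hahn–Banach for `int K1` and the flat `{x | ⟪v,x⟫ = h v, ⟪n,x⟫ = max}`) -/
theorem pair_exists_n {v w n : E} (hv : v ≠ 0) (hw : w ∈ S.Sp v)
    (hmax : ∀ w' ∈ S.Sp v, ⟪n, w'⟫ ≤ ⟪n, w⟫) : ∃ t t' : ℝ, S.Pair v w n t t' := by
  obtain ⟨t, ht⟩ := S.support_exists hv hw hmax
  obtain ⟨t', ht'⟩ := S.support_exists hv (S.Sp_neg hv hw) (n := -n) (by
    intro w' hw'
    have h1 := hmax _ (S.Sp_neg hv hw')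
    rw [inner_neg_right] at h1
    rw [inner_neg_left, inner_neg_left, inner_neg_right]
    linarith)
  refine ⟨t, t', hw, ht, fun x hx => ?_⟩
  rw [sub_eq_add_neg (S.C v) w]
  exact ht' x hx

/-- existence of supporting planes at a given boundary point -/
theorem pair_exists_w {v w : E} (hv : v ≠ 0) (hw : w ∈ S.bd v) :
    ∃ (n : E) (t t' : ℝ), ⟪v, n⟫ = 0 ∧ ⟪n, w⟫ = 1 ∧ S.Pair v w n t t' := by
  have hvn : 0 < ‖v‖ ^ 2 := by positivity
  set A : Set E := {x | ∃ c : ℝ, 1 ≤ c ∧ x = S.C v + c • w} with hA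
  have hAconv : Convex ℝ A := by
    rintro x ⟨c, hc, rfl⟩ y ⟨c', hc', rfl⟩ a b ha hb hab
    refine ⟨a * c + b * c', ?_, ?_⟩
    · nlinarith
    · have : b = 1 - a := by linarith
      rw [this]; module
  have hdisj : Disjoint (interior S.K1) A := by
    rw [Set.disjoint_left]
    rintro x hx ⟨c, hc, rfl⟩
    have h1 : Tendsto (fun s : ℝ => S.C v + s • w) (𝓝[>] c) (𝓝 (S.C v + c • w)) := by
      have : Continuous (fun s : ℝ => S.C v + s • w) := by fun_prop
      exact (this.tendsto c).mono_left nhdsWithin_le_nhds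
    have h2 : ∀ᶠ s in 𝓝[>] c, S.C v + s • w ∈ interior S.K1 :=
      h1.eventually (isOpen_interior.mem_nhds hx)
    obtain ⟨s, hs, hsc⟩ := (h2.and self_mem_nhdsWithin).exists
    have hsc' : c < s := hsc
    apply hw.2 s (by linarith)
    refine ⟨by rw [real_inner_smul_right, hw.1.1, mul_zero], interior_subset hs⟩
  obtain ⟨f, u, hfu, huf⟩ := geometric_hahn_banach_open S.K1_convex.interior isOpen_interior
    hAconv hdisj
  obtain ⟨N, hN⟩ : ∃ N : E, ∀ x, f x = ⟪N, x⟫ := by
    refine ⟨(InnerProductSpace.toDual ℝ E).symm f, fun x => ?_⟩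
    rw [InnerProductSpace.toDual_symm_apply]
  have hpA : S.C v + w ∈ A := ⟨1, le_rfl, by rw [one_smul]⟩
  have hu := huf _ hpA
  have hpos : 0 < ⟪N, w⟫ := by
    have h4 := hfu _ (S.int_ne hv)
    rw [hN] at h4
    rw [hN, inner_add_right] at hu
    linarith
  set a : ℝ := ⟪N, w⟫ with ha
  set β : ℝ := ⟪v, N⟫ / ‖v‖ ^ 2 with hβ
  set n : E := (1 / a) • (N - β • v) with hn
  have hvn0 : ⟪v, n⟫ = 0 := by
    rw [hn, real_inner_smul_right, inner_sub_right, real_inner_smul_right,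
      real_inner_self_eq_norm_sq, hβ]
    field_simp
    ring
  have hnw : ⟪n, w⟫ = 1 := by
    rw [hn, real_inner_smul_left, inner_sub_left, real_inner_smul_left, hw.1.1, ← ha]
    field_simp
    ring
  have hnt : n - (-(β / a)) • v = (1 / a) • N := by
    rw [hn, smul_sub, smul_smul]
    have : 1 / a * β = β / a := by ring
    rw [this, neg_smul]
    abel
  have h1 : ∀ x ∈ S.K1, ⟪n - (-(β / a)) • v, x⟫ ≤ ⟪n - (-(β / a)) • v, S.C v + w⟫ := by
    intro x hx
    rw [hnt, real_inner_smul_left, real_inner_smul_left]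
    apply mul_le_mul_of_nonneg_left _ (by positivity)
    have h2 := S.le_of_lt_int hv f u hfu x hx
    rw [hN] at h2 hu
    linarith
  have hmax : ∀ w' ∈ S.Sp v, ⟪n, w'⟫ ≤ ⟪n, w⟫ := by
    intro w' hw'
    have h3 := h1 (S.C v + w') hw'.2
    rw [inner_add_right, inner_add_right, inner_sub_left n _ w', inner_sub_left n _ w,
      real_inner_smul_left v w', real_inner_smul_left v w, hw'.1, hw.1.1] at h3
    linarith
  obtain ⟨t', ht'⟩ := S.support_exists hv (S.Sp_neg hv hw.1) (n := -n) (by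
    intro w' hw'
    have h1 := hmax _ (S.Sp_neg hv hw')
    rw [inner_neg_right] at h1
    rw [inner_neg_left, inner_neg_left, inner_neg_right]
    linarith)
  refine ⟨n, -(β / a), t', hvn0, hnw, hw.1, h1, fun x hx => ?_⟩
  rw [sub_eq_add_neg (S.C v) w]
  exact ht' x hx

theorem pair_smul {v w n : E} {t t' c : ℝ} (hv : v ≠ 0) (hc : 0 < c)
    (h : S.Pair v w n t t') : S.Pair (c • v) w n (t / c) (t' / c) := by
  have h1 : (t / c) • (c • v) = t • v := by rw [smul_smul, div_mul_cancel₀ _ hc.ne']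
  have h2 : (t' / c) • (c • v) = t' • v := by rw [smul_smul, div_mul_cancel₀ _ hc.ne']
  have hC := S.C_smul hc hv
  refine ⟨⟨by rw [real_inner_smul_left, h.1.1, mul_zero], by rw [hC]; exact h.1.2⟩, ?_, ?_⟩
  · rw [h1, hC]; exact h.2.1
  · rw [h2, hC]; exact h.2.2

/-- `n` may be changed by multiples of `v` -/
theorem pair_shift {v w n : E} {t t' s : ℝ} (hv : v ≠ 0) (h : S.Pair v w n t t') :
    S.Pair v w (n + s • v) (t + s) (t' - s) := by
  have h1 : n + s • v - (t + s) • v = n - t • v := by rw [add_smul]; abel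
  have h2 : -(n + s • v) - (t' - s) • v = -n - t' • v := by rw [sub_smul]; abel
  refine ⟨h.1, ?_, ?_⟩
  · rw [h1]; exact h.2.1
  · rw [h2]; exact h.2.2

theorem pair_nsmul {v w n : E} {t t' c : ℝ} (hc : 0 ≤ c)
    (h : S.Pair v w n t t') : S.Pair v w (c • n) (c * t) (c * t') := by
  have h1 : c • n - (c * t) • v = c • (n - t • v) := by rw [smul_sub, smul_smul]
  have h2 : -(c • n) - (c * t') • v = c • (-n - t' • v) := by rw [smul_sub, smul_smul, smul_neg]
  refine ⟨h.1, ?_, ?_⟩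
  · intro x hx
    rw [h1, real_inner_smul_left, real_inner_smul_left]
    exact mul_le_mul_of_nonneg_left (h.2.1 x hx) hc
  · intro x hx
    rw [h2, real_inner_smul_left, real_inner_smul_left]
    exact mul_le_mul_of_nonneg_left (h.2.2 x hx) hc

/-- monotonicity of supporting planes -/
theorem pair_mono {v v' w w' n n' : E} {t t1 s s1 : ℝ}
    (h : S.Pair v w n t t1) (h' : S.Pair v' w' n' s s1) :
    0 ≤ ⟪(n' - s • v') - (n - t • v), (S.C v' + w') - (S.C v + w)⟫ := by
  have h1 := h.2.1 _ h'.1.2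
  have h2 := h'.2.1 _ h.1.2
  rw [inner_sub_right, inner_sub_left (n' - s • v'), inner_sub_left (n' - s • v')]
  linarith

end Setting
end Pool.Agent.Helper18.BL
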