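import Mathlib
import Pool.Agent.Helper18.BL.T1
import Pool.Agent.Helper18.BL.T2

set_option autoImplicit false

open Set MeasureTheory Filter Topology Metric
open scoped RealInnerProductSpace Pointwise

namespace Pool.Agent.Helper18.BL
namespace Setting
variable (S : Setting)

/-! ### T12: Case I -/

/-- the pair inequality between opposite sections -/
private theorem T12_ineq {v w w2 n : E} {t t' : ℝ} (hv : v ≠ 0) (h : S.Pair v w n t t')
    (hw2 : w2 ∈ S.Sp (-v)) :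
    ⟪n - t • v, S.C (-v) + w2⟫ ≤ ⟪n - t • v, S.C v + w⟫ ∧
    ⟪-n - t' • v, S.C (-v) - w2⟫ ≤ ⟪-n - t' • v, S.C v - w⟫ ∧
    2 * ⟪n, w2⟫ = ⟪n - t • v, S.C (-v) + w2⟫ + ⟪-n - t' • v, S.C (-v) - w2⟫
      - (t + t') * S.h (-v) ∧
    2 * ⟪n, w⟫ = ⟪n - t • v, S.C v + w⟫ + ⟪-n - t' • v, S.C v - w⟫
      + (t + t') * S.h v := by
  have hv' : -v ≠ 0 := neg_ne_zero.mpr hv
  have h1 : S.C (-v) + w2 ∈ S.K1 := hw2.2
  have h2 : S.C (-v) - w2 ∈ S.K1 := by
    have := (S.Sp_neg hv' hw2).2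
    rwa [← sub_eq_add_neg] at this
  have e1 : ⟪v, w2⟫ = 0 := by
    have := hw2.1
    rw [inner_neg_left] at this
    linarith
  have e2 : ⟪v, w⟫ = 0 := h.1.1
  have e3 : ⟪v, S.C v⟫ = S.h v := S.C_h v hv
  have e4 : ⟪v, S.C (-v)⟫ = - S.h (-v) := by
    have := S.C_h (-v) hv'
    rw [inner_neg_left] at this
    linarith
  refine ⟨h.2.1 _ h1, h.2.2 _ h2, ?_, ?_⟩
  · simp only [inner_sub_left, inner_neg_left, inner_add_right, inner_sub_right,
      real_inner_smul_left, e1, e4]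
    ring
  · simp only [inner_sub_left, inner_neg_left, inner_add_right, inner_sub_right,
      real_inner_smul_left, e2, e3]
    ring

/-- in every direction there is a common supporting plane of the two sections -/
private theorem T12_common (h : ∀ v : E, v ≠ 0 → S.Nn v) {v : E} (hv : v ≠ 0) (n : E) :
    ∃ (a b : E) (t : ℝ), a ∈ S.K1 ∧ ⟪v, a⟫ = S.h v ∧ b ∈ S.K1 ∧ ⟪v, b⟫ = - S.h (-v) ∧
      (∀ x ∈ S.K1, ⟪n - t • v, x⟫ ≤ ⟪n - t • v, a⟫) ∧ ⟪n - t • v, b⟫ = ⟪n - t • v, a⟫ := by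
  have hv' : -v ≠ 0 := neg_ne_zero.mpr hv
  obtain ⟨w, t, t', hp, ht⟩ := h v hv n
  obtain ⟨w2, s, s', hp2, hs⟩ := h (-v) hv' n
  have hw : S.C v + w ∈ S.K1 := hp.1.2
  have hW : 0 < S.h v + S.h (-v) := S.h_width hv
  have hwSp : w ∈ S.Sp (- -v) := by rw [neg_neg]; exact hp.1
  obtain ⟨a1, a2, a3, a4⟩ := S.T12_ineq hv hp hp2.1
  obtain ⟨b1, b2, b3, b4⟩ := S.T12_ineq hv' hp2 hwSp
  rw [neg_neg] at b1 b2 b3
  have e1 : ⟪v, w2⟫ = 0 := by
    have := hp2.1.1
    rw [inner_neg_left] at this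
    linarith
  refine ⟨S.C v + w, S.C (-v) + w2, t, hw, ?_, hp2.1.2, ?_, hp.2.1, ?_⟩
  · rw [inner_add_right, S.C_h v hv, hp.1.1, add_zero]
  · have := S.C_h (-v) hv'
    rw [inner_neg_left] at this
    rw [inner_add_right, e1, add_zero]
    linarith
  · have k1 : 0 ≤ (t + t') * (S.h v + S.h (-v)) := mul_nonneg ht hW.le
    have k2 : 0 ≤ (s + s') * (S.h v + S.h (-v)) := mul_nonneg hs hW.le
    nlinarith [a1, a2, a3, a4, b1, b2, b3, b4, k1, k2]

/-- a point between two opposite sections is a convex combination of points of the sections -/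
private theorem T12_comb (h : ∀ v : E, v ≠ 0 → S.Nn v) {v : E} (hv : v ≠ 0) {y : E}
    (hy : y ∈ S.K1) {c : ℝ} (hc0 : 0 ≤ c) (hc1 : c ≤ 1)
    (hyc : ⟪v, y⟫ = c * S.h v + (1 - c) * (- S.h (-v))) :
    ∃ a ∈ S.K1, ∃ b ∈ S.K1, ⟪v, a⟫ = S.h v ∧ ⟪v, b⟫ = - S.h (-v) ∧
      y = c • a + (1 - c) • b := by
  by_contra hcon
  set A : Set E := {a | a ∈ S.K1 ∧ ⟪v, a⟫ = S.h v} with hA
  set B : Set E := {b | b ∈ S.K1 ∧ ⟪v, b⟫ = - S.h (-v)} with hB
  have hAc : IsCompact A := by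
    apply S.K1_compact.inter_right
    exact isClosed_eq (by fun_prop) continuous_const
  have hBc : IsCompact B := by
    apply S.K1_compact.inter_right
    exact isClosed_eq (by fun_prop) continuous_const
  have hAconv : Convex ℝ A := by
    intro x hx z hz p q hp hq hpq
    refine ⟨S.K1_convex hx.1 hz.1 hp hq hpq, ?_⟩
    rw [inner_add_right, real_inner_smul_right, real_inner_smul_right, hx.2, hz.2, ← add_mul,
      hpq, one_mul]
  have hBconv : Convex ℝ B := by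
    intro x hx z hz p q hp hq hpq
    refine ⟨S.K1_convex hx.1 hz.1 hp hq hpq, ?_⟩
    rw [inner_add_right, real_inner_smul_right, real_inner_smul_right, hx.2, hz.2, ← add_mul,
      hpq, one_mul]
  have hD : IsCompact (c • A + (1 - c) • B) := (hAc.smul c).add (hBc.smul (1 - c))
  have hDconv : Convex ℝ (c • A + (1 - c) • B) := (hAconv.smul c).add (hBconv.smul (1 - c))
  have hyD : y ∉ c • A + (1 - c) • B := by
    rintro ⟨x1, ⟨a, ha, rfl⟩, x2, ⟨b, hb, rfl⟩, hxy⟩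
    exact hcon ⟨a, ha.1, b, hb.1, ha.2, hb.2, hxy.symm⟩
  obtain ⟨f, u, hfu, huy⟩ := geometric_hahn_banach_closed_point hDconv hD.isClosed hyD
  obtain ⟨n, hn⟩ := (InnerProductSpace.toDual ℝ E).surjective f
  have hf : ∀ x, f x = ⟪n, x⟫ := by
    intro x
    rw [← hn]
    rfl
  obtain ⟨a, b, t, ha, hva, hb, hvb, hsup, heq⟩ := S.T12_common h hv n
  have hmem : c • a + (1 - c) • b ∈ c • A + (1 - c) • B :=
    Set.add_mem_add (Set.smul_mem_smul_set ⟨ha, hva⟩) (Set.smul_mem_smul_set ⟨hb, hvb⟩)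
  have h1 := hfu _ hmem
  rw [hf] at h1 huy
  have h2 := hsup y hy
  have h3 : ⟪n, c • a + (1 - c) • b⟫ = c * ⟪n, a⟫ + (1 - c) * ⟪n, b⟫ := by
    rw [inner_add_right, real_inner_smul_right, real_inner_smul_right]
  simp only [inner_sub_left, real_inner_smul_left] at h2 heq
  rw [hyc] at h2
  rw [hva] at h2 heq
  rw [hvb] at heq
  rw [h3] at h1
  nlinarith [h1, h2, huy, heq]

private theorem T12_orth (z : E) : ∃ u : E, u ≠ 0 ∧ ⟪u, z⟫ = 0 := by
  have hdim : Module.finrank ℝ E = 3 := by simp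
  by_cases hz : z = 0
  · obtain ⟨u, hu⟩ := exists_ne (0 : E)
    exact ⟨u, hu, by rw [hz, inner_zero_right]⟩
  · have h1 : Module.finrank ℝ (ℝ ∙ z)ᗮ = 2 := by
      have : Fact (Module.finrank ℝ E = 2 + 1) := ⟨by simp⟩
      exact Submodule.finrank_orthogonal_span_singleton hz
    have h2 : (ℝ ∙ z)ᗮ ≠ ⊥ := by
      intro h0
      rw [h0] at h1
      simp at h1
    obtain ⟨u, hu, hu0⟩ := Submodule.exists_mem_ne_zero_of_ne_bot h2
    rw [Submodule.mem_orthogonal_singleton_iff_inner_left] at hu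
    exact ⟨u, hu0, hu⟩

theorem case_one (h : ∀ v : E, v ≠ 0 → S.Nn v) : False := by
  obtain ⟨x0, hx0⟩ := S.K_int
  have hne : S.K1.Nonempty := ⟨x0, S.K_sub (interior_subset hx0)⟩
  obtain ⟨y, hy⟩ := S.K1_compact.extremePoints_nonempty hne
  obtain ⟨u, hu0, hu⟩ := T12_orth (y - x0)
  have huy : ⟪u, y⟫ = ⟪u, x0⟫ := by
    rw [inner_sub_right] at hu
    linarith
  have key : ∀ v : E, v ≠ 0 → ⟪v, x0⟫ < S.h v := by
    intro v hv
    rw [mem_interior_iff_mem_nhds, Metric.mem_nhds_iff] at hx0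
    obtain ⟨ε, hε, hball⟩ := hx0
    have hvn : 0 < ‖v‖ := norm_pos_iff.mpr hv
    have hmem : x0 + (ε / 2 / ‖v‖) • v ∈ S.K := by
      apply hball
      rw [mem_ball, dist_eq_norm, add_sub_cancel_left, norm_smul, Real.norm_eq_abs,
        abs_of_pos (by positivity), div_mul_cancel₀ _ hvn.ne']
      linarith
    have h1 := S.h_le v _ hmem
    rw [inner_add_right, real_inner_smul_right, real_inner_self_eq_norm_sq] at h1
    have h2 : 0 < ε / 2 / ‖v‖ * ‖v‖ ^ 2 := by positivity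
    linarith
  have k1 := key u hu0
  have k2 := key (-u) (neg_ne_zero.mpr hu0)
  rw [inner_neg_left] at k2
  have hW : 0 < S.h u + S.h (-u) := by linarith
  set c : ℝ := (⟪u, y⟫ + S.h (-u)) / (S.h u + S.h (-u)) with hc
  have hc0 : 0 < c := div_pos (by linarith) hW
  have hc1 : c < 1 := by
    rw [hc, div_lt_one hW]
    linarith
  have hyc : ⟪u, y⟫ = c * S.h u + (1 - c) * (- S.h (-u)) := by
    rw [hc]
    field_simp
    ring
  rw [mem_extremePoints] at hy
  obtain ⟨a, ha, b, hb, hua, hub, hyab⟩ := S.T12_comb h hu0 hy.1 hc0.le hc1.le hyc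
  have hseg : y ∈ openSegment ℝ a b :=
    ⟨c, 1 - c, hc0, by linarith, by ring, hyab.symm⟩
  have := (hy.2 a ha b hb hseg).1
  rw [← this, hua] at huy
  linarith

end Setting
end Pool.Agent.Helper18.BL
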