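import Mathlib
import Pool.Agent.Helper18.BL.T1

set_option autoImplicit false

open Set MeasureTheory Filter Topology Metric
open scoped RealInnerProductSpace

namespace Pool.Agent.Helper18.BL
namespace Setting
variable (S : Setting)

/-! ### T10: cap volume -/
theorem cap_smul {v : E} {c : ℝ} (hc : 0 < c) : S.cap (c • v) = S.cap v := by
  unfold cap
  congr 2
  ext x
  simp only [mem_ofPred_eq, S.h_smul hc.le, real_inner_smul_left]
  constructor
  · rintro ⟨h1, h2⟩; exact ⟨h1, le_of_mul_le_mul_left h2 hc⟩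
  · rintro ⟨h1, h2⟩; exact ⟨h1, mul_le_mul_of_nonneg_left h2 hc.le⟩

private theorem measurableSet_half (s : ℝ) (v : E) :
    MeasurableSet {x : E | x ∈ S.K1 ∧ s ≤ ⟪v, x⟫} := by
  have h1 : MeasurableSet S.K1 := S.K1_compact.isClosed.measurableSet
  have h2 : IsClosed {x : E | s ≤ ⟪v, x⟫} :=
    isClosed_le continuous_const (continuous_const.inner continuous_id)
  exact h1.inter h2.measurableSet

private theorem plane_null {v : E} (hv : v ≠ 0) (s : ℝ) :
    volume {x : E | ⟪v, x⟫ = s} = 0 := by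
  have hne : ((ℝ ∙ v)ᗮ : Submodule ℝ E) ≠ ⊤ := by
    intro h
    have : v ∈ ((ℝ ∙ v)ᗮ : Submodule ℝ E) := by rw [h]; trivial
    rw [Submodule.mem_orthogonal_singleton_iff_inner_right] at this
    exact hv (inner_self_eq_zero.1 this)
  have h0 : volume (((ℝ ∙ v)ᗮ : Submodule ℝ E) : Set E) = 0 :=
    Measure.addHaar_submodule volume _ hne
  have hvv : ⟪v, v⟫ ≠ 0 := fun h => hv (inner_self_eq_zero.1 h)
  have heq : {x : E | ⟪v, x⟫ = s} =
      (fun x => x + (-(s / ⟪v, v⟫) • v)) ⁻¹' (((ℝ ∙ v)ᗮ : Submodule ℝ E) : Set E) := by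
    ext x
    simp only [mem_ofPred_eq, mem_preimage, SetLike.mem_coe,
      Submodule.mem_orthogonal_singleton_iff_inner_right, inner_add_right, inner_smul_right]
    rw [neg_mul, div_mul_cancel₀ _ hvv, ← sub_eq_add_neg, sub_eq_zero]
  rw [heq, measure_preimage_add_right]
  exact h0

private theorem half_cont {v : E} (hv : v ≠ 0) (s : ℝ) :
    ContinuousAt (fun p : ℝ × E => volume.real {x : E | x ∈ S.K1 ∧ p.1 ≤ ⟪p.2, x⟫}) (s, v) := by
  have hK : MeasurableSet S.K1 := S.K1_compact.isClosed.measurableSet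
  have heq : (fun p : ℝ × E => volume.real {x : E | x ∈ S.K1 ∧ p.1 ≤ ⟪p.2, x⟫}) =
      fun p : ℝ × E => ∫ x, ({x : E | x ∈ S.K1 ∧ p.1 ≤ ⟪p.2, x⟫}).indicator (1 : E → ℝ) x := by
    funext p
    rw [integral_indicator_one (S.measurableSet_half p.1 p.2)]
  rw [heq]
  apply continuousAt_of_dominated (bound := fun x => S.K1.indicator (1 : E → ℝ) x)
  · refine Eventually.of_forall fun p => ?_
    exact ((measurable_one).indicator (S.measurableSet_half p.1 p.2)).aestronglyMeasurable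
  · refine Eventually.of_forall fun p => Eventually.of_forall fun x => ?_
    have h0 : 0 ≤ ({x : E | x ∈ S.K1 ∧ p.1 ≤ ⟪p.2, x⟫}).indicator (1 : E → ℝ) x :=
      indicator_nonneg (fun _ _ => zero_le_one) _
    rw [Real.norm_of_nonneg h0]
    exact indicator_le_indicator_of_subset (fun x hx => hx.1) (fun _ => zero_le_one) x
  · exact (integrable_indicator_iff hK).2 (integrableOn_const (S.K1_compact.measure_lt_top.ne))
  · have hae : ∀ᵐ x : E, ⟪v, x⟫ ≠ s := by
      rw [ae_iff]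
      simp only [not_not]
      exact plane_null hv s
    filter_upwards [hae] with x hx
    by_cases hxK : x ∈ S.K1
    · rcases lt_or_gt_of_ne hx with h | h
      · have hev : ∀ᶠ p : ℝ × E in 𝓝 (s, v), ⟪p.2, x⟫ < p.1 := by
          have hc1 : Continuous fun p : ℝ × E => ⟪p.2, x⟫ := continuous_snd.inner continuous_const
          exact (hc1.continuousAt).eventually_lt (continuous_fst.continuousAt) h
        apply ContinuousAt.congr (f := fun _ => (0 : ℝ)) continuousAt_const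
        filter_upwards [hev] with p hp
        symm
        apply indicator_of_notMem
        rintro ⟨_, h2⟩
        exact absurd h2 (not_le.2 hp)
      · have hev : ∀ᶠ p : ℝ × E in 𝓝 (s, v), p.1 < ⟪p.2, x⟫ := by
          have hc1 : Continuous fun p : ℝ × E => ⟪p.2, x⟫ := continuous_snd.inner continuous_const
          exact (continuous_fst.continuousAt).eventually_lt (hc1.continuousAt) h
        apply ContinuousAt.congr (f := fun _ => (1 : ℝ)) continuousAt_const
        filter_upwards [hev] with p hp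
        symm
        have hm : x ∈ {x : E | x ∈ S.K1 ∧ p.1 ≤ ⟪p.2, x⟫} := ⟨hxK, hp.le⟩
        rw [indicator_of_mem hm]; rfl
    · apply ContinuousAt.congr (f := fun _ => (0 : ℝ)) continuousAt_const
      refine Eventually.of_forall fun p => ?_
      symm
      apply indicator_of_notMem
      rintro ⟨h1, _⟩
      exact hxK h1

theorem cap_cont {v : E} (hv : v ≠ 0) : ContinuousAt S.cap v := by
  have h1 := S.half_cont hv (S.h v)
  have h2 : ContinuousAt (fun v' : E => (S.h v', v')) v :=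
    (S.h_cont.continuousAt).prodMk continuousAt_id
  exact ContinuousAt.comp (f := fun v' : E => (S.h v', v')) (x := v) h1 h2

theorem cap_nonneg (v : E) : 0 ≤ S.cap v := ENNReal.toReal_nonneg

theorem cap_le (v : E) : S.cap v ≤ (volume S.K1).toReal := by
  unfold cap
  apply ENNReal.toReal_mono S.K1_compact.measure_lt_top.ne
  exact measure_mono fun x hx => hx.1

private theorem reflect_mem {u x : E} (hu : ‖u‖ = 1) (hx : x ∈ S.K1) {s l : ℝ} (hs : 0 < s)
    (hxs : ⟪u, x⟫ = S.h u - s) (hl0 : 0 ≤ l) (hl : l * (S.r / 2 + 2 * s) ≤ S.r / 2) :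
    S.C u - l • (x - S.C u) ∈ S.K1 := by
  have hu0 : u ≠ 0 := by
    intro h; rw [h, norm_zero] at hu; exact zero_ne_one hu
  have huu : ⟪u, u⟫ = 1 := by rw [real_inner_self_eq_norm_sq, hu]; norm_num
  set r' := S.r / 2 with hr'
  have hr : 0 < r' := by have := S.r_pos; rw [hr']; linarith
  have hp : S.C u + r' • u ∈ S.K1 := by
    apply S.C_ball hu0
    rw [mem_closedBall, dist_eq_norm, add_sub_cancel_left, norm_smul, hu, mul_one,
      Real.norm_of_nonneg hr.le]
  have hC : S.C u ∈ S.K1 := S.C_mem hu0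
  have hrs : 0 < r' + s := by linarith
  have hr2s : 0 < r' + 2 * s := by linarith
  have hz : (r' / (r' + s)) • x + (s / (r' + s)) • (S.C u + r' • u) ∈ S.K1 :=
    S.K1_convex hx hp (by positivity) (by positivity) (by field_simp)
  set z := (r' / (r' + s)) • x + (s / (r' + s)) • (S.C u + r' • u) with hzdef
  have hCh : ⟪u, S.C u⟫ = S.h u := S.C_h u hu0
  have hzu : ⟪u, z⟫ = S.h u := by
    rw [hzdef, inner_add_right, inner_smul_right, inner_smul_right, inner_add_right,
      inner_smul_right, hxs, hCh, huu]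
    field_simp
    ring
  have hz' := S.C_symm u hu0 z hz hzu
  have hq : ((r' + s) / (r' + 2 * s)) • ((2 : ℝ) • S.C u - z) +
      (s / (r' + 2 * s)) • (S.C u + r' • u) ∈ S.K1 :=
    S.K1_convex hz' hp (by positivity) (by positivity) (by field_simp; ring)
  have hq' : ((r' + s) / (r' + 2 * s)) • ((2 : ℝ) • S.C u - z) +
      (s / (r' + 2 * s)) • (S.C u + r' • u) = S.C u - (r' / (r' + 2 * s)) • (x - S.C u) := by
    rw [hzdef]
    match_scalars <;> field_simp <;> ring
  rw [hq'] at hq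
  have hl1 : l * (r' + 2 * s) / r' ≤ 1 := by
    rw [div_le_one hr]; exact hl
  have hfin := S.K1_convex hq hC (a := l * (r' + 2 * s) / r') (b := 1 - l * (r' + 2 * s) / r')
    (by positivity) (by linarith) (by ring)
  have heq : (l * (r' + 2 * s) / r') • (S.C u - (r' / (r' + 2 * s)) • (x - S.C u)) +
      (1 - l * (r' + 2 * s) / r') • S.C u = S.C u - l • (x - S.C u) := by
    match_scalars <;> (field_simp; try ring)
  rw [heq] at hfin
  exact hfin

private theorem vol_reflect (C : E) {l : ℝ} (hl : 0 ≤ l) (G : Set E) :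
    volume.real ((fun x => C - l • (x - C)) '' G) = l ^ 3 * volume.real G := by
  have h : (fun x => C - l • (x - C)) = AffineMap.homothety C (-l) := by
    funext x
    simp only [AffineMap.homothety_apply, vsub_eq_sub, vadd_eq_add]
    rw [neg_smul]; abel
  rw [h]
  unfold Measure.real
  rw [Measure.addHaar_image_homothety, ENNReal.toReal_mul]
  congr 1
  rw [ENNReal.toReal_ofReal (abs_nonneg _)]
  have : Module.finrank ℝ E = 3 := by simp
  rw [this, abs_pow, abs_neg, abs_of_nonneg hl]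

/-- the squeeze in direction `u` -/
private noncomputable def sq (u : E) (ε : ℝ) : E →ₗ[ℝ] E :=
  LinearMap.transvection ((ε - 1) • (innerSL ℝ u).toLinearMap) u

private theorem sq_apply (u : E) (ε : ℝ) (y : E) : sq u ε y = y + ((ε - 1) * ⟪u, y⟫) • u := by
  unfold sq
  rw [LinearMap.transvection.apply]
  rfl

private theorem vol_sq {u : E} (hu : ‖u‖ = 1) {ε : ℝ} (hε : 0 ≤ ε) (C : E) (M : Set E) :
    volume.real ((fun y => C + sq u ε y) '' M) = ε * volume.real M := by
  have huu : ⟪u, u⟫ = 1 := by rw [real_inner_self_eq_norm_sq, hu]; norm_num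
  have h1 : (fun y => C + sq u ε y) '' M = (fun y => C + y) '' (sq u ε '' M) := by
    rw [image_image]
  unfold Measure.real
  rw [h1, image_add_left, measure_preimage_add, Measure.addHaar_image_linearMap,
    ENNReal.toReal_mul, ENNReal.toReal_ofReal (abs_nonneg _)]
  congr 1
  unfold sq
  rw [LinearMap.transvection.det]
  have : ((ε - 1) • (innerSL ℝ u).toLinearMap) u = (ε - 1) * ⟪u, u⟫ := rfl
  rw [this, huu, mul_one]
  rw [show 1 + (ε - 1) = ε by ring, abs_of_nonneg hε]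

/-- Proof: compare the two wedges between `H_u` and `H_{u+εδ}`; the map
`x ↦ C u - (1 - c ε)(x - C u)` sends the gained wedge into the lost wedge, with volume factor
`1 - O(ε)`, and misses `{C u + w + ζ u : ‖w‖ ≤ r', 0 ≤ ζ ≤ ε h'/2}`. -/
theorem cap_var {u κ δ : E} (hu : ‖u‖ = 1) (hκF : S.C u + κ ∈ S.F u) (hδu : ⟪u, δ⟫ = 0)
    (hpos : 0 < ⟪κ, δ⟫) : ∃ c ε0 : ℝ, 0 < c ∧ 0 < ε0 ∧ ∀ ε, 0 < ε → ε < ε0 →
      S.cap (u + ε • δ) ≤ S.cap u - c * ε := by
  have hu0 : u ≠ 0 := by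
    intro h; rw [h, norm_zero] at hu; exact zero_ne_one hu
  have huu : ⟪u, u⟫ = 1 := by rw [real_inner_self_eq_norm_sq, hu]; norm_num
  have hCh : ⟪u, S.C u⟫ = S.h u := S.C_h u hu0
  have hr := S.r_pos
  have hδu' : ⟪δ, u⟫ = 0 := by rw [real_inner_comm]; exact hδu
  set C := S.C u with hCdef
  set β : ℝ := ⟪δ, κ⟫ with hβdef
  have hβ : 0 < β := by rw [hβdef, real_inner_comm]; exact hpos
  -- radius of the small ball
  obtain ⟨r1, hr1, hr1a, hr1b⟩ : ∃ r1 : ℝ, 0 < r1 ∧ 3 * r1 ≤ S.r / 2 ∧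
      3 * r1 * (1 + ‖δ‖) ≤ β / 2 := by
    have hd : 0 < 1 + ‖δ‖ := by positivity
    refine ⟨min (S.r / 6) (β / (6 * (1 + ‖δ‖))), by positivity, ?_, ?_⟩
    · have := min_le_left (S.r / 6) (β / (6 * (1 + ‖δ‖)))
      linarith
    · have h1 := min_le_right (S.r / 6) (β / (6 * (1 + ‖δ‖)))
      calc 3 * min (S.r / 6) (β / (6 * (1 + ‖δ‖))) * (1 + ‖δ‖)
          ≤ 3 * (β / (6 * (1 + ‖δ‖))) * (1 + ‖δ‖) := by gcongr
        _ = β / 2 := by field_simp; ring
  set M1 : Set E := closedBall ((2 * r1) • u) r1 with hM1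
  set c0 : ℝ := volume.real M1 with hc0def
  have hc0 : 0 < c0 := by
    rw [hc0def, hM1]
    exact ENNReal.toReal_pos (measure_closedBall_pos volume _ hr1).ne' measure_closedBall_lt_top.ne
  have hM1y : ∀ y ∈ M1, ‖y‖ ≤ 3 * r1 ∧ r1 ≤ ⟪u, y⟫ ∧ ⟪u, y⟫ ≤ 3 * r1 := by
    intro y hy
    rw [hM1, mem_closedBall, dist_eq_norm] at hy
    have h1 : ‖y‖ ≤ ‖y - (2 * r1) • u‖ + ‖(2 * r1) • u‖ := by
      calc ‖y‖ = ‖(y - (2 * r1) • u) + (2 * r1) • u‖ := by rw [sub_add_cancel]
        _ ≤ _ := norm_add_le _ _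
    rw [norm_smul, hu, mul_one, Real.norm_of_nonneg (by positivity)] at h1
    have h2 : |⟪u, y - (2 * r1) • u⟫| ≤ ‖u‖ * ‖y - (2 * r1) • u‖ := abs_real_inner_le_norm _ _
    rw [hu, one_mul, inner_sub_right, inner_smul_right, huu, mul_one] at h2
    have h3 := abs_le.1 (h2.trans hy)
    exact ⟨by linarith, by linarith [h3.1], by linarith [h3.2]⟩
  -- the constants
  set M0 : ℝ := ‖δ‖ * S.R + |⟪δ, C⟫ + β| + 1 with hM0def
  have hRn : 0 ≤ S.R := S.R_nonneg
  have hM0 : 0 < M0 := by positivity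
  set c1 : ℝ := 4 * M0 / S.r with hc1def
  have hc1 : 0 < c1 := by positivity
  set η : ℝ := c0 / (6 * c1) with hηdef
  have hη : 0 < η := by positivity
  -- the small slab has small volume
  obtain ⟨ε1, hε1, hslab⟩ : ∃ ε1 : ℝ, 0 < ε1 ∧ ∀ ε, 0 < ε → ε < ε1 →
      volume.real {x : E | x ∈ S.K1 ∧ S.h u - ε * M0 ≤ ⟪u, x⟫} -
        volume.real {x : E | x ∈ S.K1 ∧ S.h u ≤ ⟪u, x⟫} < η := by
    have h1 := S.half_cont hu0 (S.h u)
    have h2 : ContinuousAt (fun ε : ℝ => (S.h u - ε * M0, u)) 0 := by fun_prop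
    have h3 : ContinuousAt (fun ε : ℝ =>
        volume.real {x : E | x ∈ S.K1 ∧ S.h u - ε * M0 ≤ ⟪u, x⟫}) 0 := by
      refine ContinuousAt.comp (f := fun ε : ℝ => (S.h u - ε * M0, u)) (x := 0) (g := fun p : ℝ × E => volume.real {x : E | x ∈ S.K1 ∧ p.1 ≤ ⟪p.2, x⟫}) ?_ h2
      simpa using h1
    rw [Metric.continuousAt_iff] at h3
    obtain ⟨ε1, hε1, h4⟩ := h3 η hη
    refine ⟨ε1, hε1, fun ε he1 he2 => ?_⟩
    have h5 := h4 (x := ε) (by rw [Real.dist_eq, sub_zero, abs_of_pos he1]; exact he2)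
    rw [Real.dist_eq] at h5
    simp only [zero_mul, sub_zero] at h5
    exact (abs_lt.1 h5).2
  refine ⟨c0 / 2, min ε1 (min 1 (1 / (2 * c1))), by positivity, by positivity, ?_⟩
  intro ε hε hεlt
  have hεa : ε < ε1 := lt_of_lt_of_le hεlt (min_le_left _ _)
  have hεb : ε < 1 := lt_of_lt_of_le hεlt ((min_le_right _ _).trans (min_le_left _ _))
  have hεc : ε < 1 / (2 * c1) := lt_of_lt_of_le hεlt ((min_le_right _ _).trans (min_le_right _ _))
  have hc1ε : c1 * ε ≤ 1 / 2 := by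
    have : c1 * ε ≤ c1 * (1 / (2 * c1)) := by gcongr
    calc c1 * ε ≤ c1 * (1 / (2 * c1)) := this
      _ = 1 / 2 := by field_simp
  set l : ℝ := 1 - c1 * ε with hldef
  have hl0 : 1 / 2 ≤ l := by rw [hldef]; linarith
  have hl1 : l ≤ 1 := by rw [hldef]; linarith [mul_pos hc1 hε]
  -- the sets
  set β' : ℝ := ⟪δ, C⟫ + β with hβ'
  set G : Set E := {x | x ∈ S.K1 ∧ ⟪u, x⟫ < S.h u ∧ S.h u + ε * β' ≤ ⟪u, x⟫ + ε * ⟪δ, x⟫} with hG
  set O : Set E := {x | x ∈ S.K1 ∧ S.h u ≤ ⟪u, x⟫} with hO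
  set L : Set E := {x | x ∈ S.K1 ∧ S.h u ≤ ⟪u, x⟫ ∧ ⟪u, x⟫ + ε * ⟪δ, x⟫ < S.h u + ε * β'} with hL
  set φG : Set E := (fun x => C - l • (x - C)) '' G with hφG
  set M : Set E := (fun y => C + sq u ε y) '' M1 with hM
  have hKfin : volume S.K1 ≠ ⊤ := S.K1_compact.measure_lt_top.ne
  have hfin : ∀ A : Set E, A ⊆ S.K1 → volume A ≠ ⊤ := fun A hA =>
    ne_top_of_le_ne_top hKfin (measure_mono hA)
  have hGfin : volume G ≠ ⊤ := hfin G fun x hx => hx.1
  have hOfin : volume O ≠ ⊤ := hfin O fun x hx => hx.1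
  have hLfin : volume L ≠ ⊤ := hfin L fun x hx => hx.1
  have hKm : MeasurableSet S.K1 := S.K1_compact.isClosed.measurableSet
  have hcu : Continuous fun x : E => ⟪u, x⟫ := continuous_const.inner continuous_id
  have hcd : Continuous fun x : E => ⟪δ, x⟫ := continuous_const.inner continuous_id
  have hLm : MeasurableSet L := by
    have h1 : IsClosed {x : E | S.h u ≤ ⟪u, x⟫} := isClosed_le continuous_const hcu
    have h2 : IsOpen {x : E | ⟪u, x⟫ + ε * ⟪δ, x⟫ < S.h u + ε * β'} :=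
      isOpen_lt (hcu.add (continuous_const.mul hcd)) continuous_const
    exact hKm.inter (h1.measurableSet.inter h2.measurableSet)
  -- cap (u + εδ) ⊆ G ∪ (O \ L)
  have hsub : {x : E | x ∈ S.K1 ∧ S.h (u + ε • δ) ≤ ⟪u + ε • δ, x⟫} ⊆ G ∪ (O \ L) := by
    rintro x ⟨hxK, hx⟩
    have h1 : S.h u + ε * β' ≤ ⟪u, x⟫ + ε * ⟪δ, x⟫ := by
      have h2 := S.h_le (u + ε • δ) (C + κ) hκF.1
      have h3 : ⟪u, C + κ⟫ = S.h u := hκF.2
      rw [inner_add_left, real_inner_smul_left, h3, inner_add_right] at h2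
      rw [inner_add_left, real_inner_smul_left] at hx
      exact h2.trans hx
    by_cases h4 : ⟪u, x⟫ < S.h u
    · exact Or.inl ⟨hxK, h4, h1⟩
    · exact Or.inr ⟨⟨hxK, not_lt.1 h4⟩, fun h5 => absurd h5.2.2 (not_lt.2 h1)⟩
  have hcap1 : S.cap (u + ε • δ) ≤ volume.real G + volume.real (O \ L) := by
    calc S.cap (u + ε • δ) ≤ volume.real (G ∪ (O \ L)) := by
          exact measureReal_mono hsub
            (hfin _ (union_subset (fun x hx => hx.1) (fun x hx => hx.1.1)))
      _ ≤ _ := measureReal_union_le _ _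
  have hLO : L ⊆ O := fun x hx => ⟨hx.1, hx.2.1⟩
  have hdiff : volume.real (O \ L) = volume.real O - volume.real L :=
    measureReal_sdiff hLO hLm hOfin
  -- points of G
  have hGx : ∀ x ∈ G, 0 < S.h u - ⟪u, x⟫ ∧ S.h u - ⟪u, x⟫ ≤ ε * M0 ∧
      ε * β + (S.h u - ⟪u, x⟫) ≤ ε * ⟪δ, x - C⟫ := by
    rintro x ⟨hxK, hx1, hx2⟩
    refine ⟨by linarith, ?_, ?_⟩
    · have h1 : ⟪δ, x⟫ ≤ ‖δ‖ * S.R :=
        (real_inner_le_norm _ _).trans (mul_le_mul_of_nonneg_left (S.K1_bdd x hxK) (norm_nonneg _))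
      have h2 : -β' ≤ |β'| := neg_le_abs _
      have h3 : ε * (⟪δ, x⟫ - β') ≤ ε * M0 := by
        apply mul_le_mul_of_nonneg_left _ hε.le
        rw [hM0def]; linarith
      rw [mul_sub] at h3
      linarith
    · rw [hβ', mul_add] at hx2
      rw [inner_sub_right, mul_sub]
      linarith
  have hφL : φG ⊆ L := by
    rintro _ ⟨x, hx, rfl⟩
    obtain ⟨h1, h2, h3⟩ := hGx x hx
    set s : ℝ := S.h u - ⟪u, x⟫ with hs
    have hmem : C - l • (x - C) ∈ S.K1 := by
      apply S.reflect_mem hu hx.1 h1 (by rw [hs]; ring) (by linarith)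
      have h4 : c1 * (S.r / 2) = 2 * M0 := by rw [hc1def]; field_simp; ring
      have h5 : s ≤ ε * M0 := h2
      have h6 : l * (S.r / 2 + 2 * s) ≤ l * (S.r / 2 + 2 * (ε * M0)) := by
        apply mul_le_mul_of_nonneg_left _ (by linarith)
        linarith
      have h7 : 2 * (ε * M0) = ε * (c1 * (S.r / 2)) := by rw [h4]; ring
      rw [h7] at h6
      have h8 : l * (S.r / 2 + ε * (c1 * (S.r / 2))) = (1 - (c1 * ε) ^ 2) * (S.r / 2) := by
        rw [hldef]; ring
      rw [h8] at h6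
      have h9 : 0 ≤ (c1 * ε) ^ 2 * (S.r / 2) := by positivity
      linarith
    have huφ : ⟪u, C - l • (x - C)⟫ = S.h u + l * s := by
      rw [inner_sub_right, inner_smul_right, inner_sub_right, hCh, hs]; ring
    have hdφ : ⟪δ, C - l • (x - C)⟫ = ⟪δ, C⟫ - l * ⟪δ, x - C⟫ := by
      rw [inner_sub_right, inner_smul_right]
    refine ⟨hmem, ?_, ?_⟩
    · rw [huφ]
      have h9 : 0 ≤ l * s := mul_nonneg (by linarith) h1.le
      linarith
    · rw [huφ, hdφ, hβ']
      have h9 : 0 < ε * β := by positivity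
      have h10 : l * (ε * β + s) ≤ l * (ε * ⟪δ, x - C⟫) := mul_le_mul_of_nonneg_left h3 (by linarith)
      have h11 : 0 ≤ l * (ε * β) := mul_nonneg (by linarith) h9.le
      linarith
  have hML : M ⊆ L := by
    rintro _ ⟨y, hy, rfl⟩
    obtain ⟨h1, h2, h3⟩ := hM1y y hy
    have hsq : sq u ε y = y + ((ε - 1) * ⟪u, y⟫) • u := sq_apply u ε y
    have hnorm : ‖sq u ε y‖ ≤ 3 * r1 := by
      have h4 : ‖sq u ε y‖ ^ 2 ≤ ‖y‖ ^ 2 := by
        have e1 : ‖sq u ε y‖ ^ 2 = ‖y‖ ^ 2 - (1 - ε ^ 2) * ⟪u, y⟫ ^ 2 := by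
          rw [hsq, norm_add_sq_real, norm_smul, hu, inner_smul_right, real_inner_comm]
          simp only [Real.norm_eq_abs, mul_one, sq_abs]
          ring
        rw [e1]
        have e2 : 0 ≤ (1 - ε ^ 2) := by
          have e4 : 0 ≤ (1 - ε) * (1 + ε) := mul_nonneg (by linarith) (by linarith)
          linarith
        have e3 := mul_nonneg e2 (sq_nonneg ⟪u, y⟫)
        linarith
      have h5 : ‖sq u ε y‖ ≤ ‖y‖ := (sq_le_sq₀ (norm_nonneg _) (norm_nonneg _)).1 h4
      linarith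
    have husq : ⟪u, sq u ε y⟫ = ε * ⟪u, y⟫ := by
      rw [hsq, inner_add_right, inner_smul_right, huu]; ring
    have hdsq : ⟪δ, sq u ε y⟫ = ⟪δ, y⟫ := by
      rw [hsq, inner_add_right, inner_smul_right, hδu']; ring
    have hdy : ⟪δ, y⟫ ≤ ‖δ‖ * (3 * r1) :=
      (real_inner_le_norm _ _).trans (mul_le_mul_of_nonneg_left h1 (norm_nonneg _))
    refine ⟨?_, ?_, ?_⟩
    · apply S.C_ball hu0
      rw [mem_closedBall, dist_eq_norm, add_sub_cancel_left]
      exact hnorm.trans hr1a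
    · rw [inner_add_right, hCh, husq]
      have h4 : 0 ≤ ε * ⟪u, y⟫ := mul_nonneg hε.le (by linarith)
      linarith
    · simp only [inner_add_right]
      rw [hCh, husq, hdsq, hβ']
      have h4 : ε * (⟪u, y⟫ + ⟪δ, y⟫) < ε * β := by
        apply mul_lt_mul_of_pos_left _ hε
        have h5 : 3 * r1 * (1 + ‖δ‖) = 3 * r1 + ‖δ‖ * (3 * r1) := by ring
        linarith
      linarith
  have hdisj : Disjoint φG M := by
    rw [Set.disjoint_left]
    rintro _ ⟨x, hx, rfl⟩ ⟨y, hy, hxy⟩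
    obtain ⟨h1, h2, h3⟩ := hM1y y hy
    obtain ⟨h4, h5, h6⟩ := hGx x hx
    have hdsq : ⟪δ, sq u ε y⟫ = ⟪δ, y⟫ := by
      rw [sq_apply, inner_add_right, inner_smul_right, hδu']; ring
    have h7 : ⟪δ, C + sq u ε y⟫ = ⟪δ, C - l • (x - C)⟫ := by
      simp only at hxy
      rw [hxy]
    rw [inner_add_right, hdsq, inner_sub_right, inner_smul_right] at h7
    have h8 : -(‖δ‖ * (3 * r1)) ≤ ⟪δ, y⟫ := by
      have := abs_real_inner_le_norm δ y
      have h9 : ‖δ‖ * ‖y‖ ≤ ‖δ‖ * (3 * r1) := mul_le_mul_of_nonneg_left h1 (norm_nonneg _)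
      linarith [(abs_le.1 (this.trans h9)).1]
    have h10 : β < ⟪δ, x - C⟫ := by
      have : ε * β < ε * ⟪δ, x - C⟫ := by linarith
      exact lt_of_mul_lt_mul_left this hε.le
    have h11 : l * β < l * ⟪δ, x - C⟫ := mul_lt_mul_of_pos_left h10 (by linarith)
    have h12 : 1 / 2 * β ≤ l * β := mul_le_mul_of_nonneg_right hl0 hβ.le
    have h5' : 3 * r1 * (1 + ‖δ‖) = 3 * r1 + ‖δ‖ * (3 * r1) := by ring
    linarith
  have hMm : MeasurableSet M := by
    have hc : Continuous fun y => C + sq u ε y :=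
      continuous_const.add (LinearMap.continuous_of_finiteDimensional _)
    exact ((isCompact_closedBall _ _).image hc).isClosed.measurableSet
  have hLlow : volume.real φG + volume.real M ≤ volume.real L := by
    rw [← measureReal_union hdisj hMm (hfin _ (fun x hx => (hφL hx).1)) (hfin _ (fun x hx => (hML hx).1))]
    exact measureReal_mono (union_subset hφL hML) hLfin
  have hvφ : volume.real φG = l ^ 3 * volume.real G := vol_reflect C (by linarith) G
  have hvM : volume.real M = ε * c0 := vol_sq hu hε.le C M1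
  have hGη : volume.real G < η := by
    have h1 : G ⊆ {x : E | x ∈ S.K1 ∧ S.h u - ε * M0 ≤ ⟪u, x⟫} \ O := by
      intro x hx
      obtain ⟨h4, h5, h6⟩ := hGx x hx
      exact ⟨⟨hx.1, by linarith⟩, fun h => absurd h.2 (by linarith)⟩
    have h2 : O ⊆ {x : E | x ∈ S.K1 ∧ S.h u - ε * M0 ≤ ⟪u, x⟫} := by
      intro x hx
      exact ⟨hx.1, by have := hx.2; linarith [mul_pos hε hM0]⟩
    have h3 := measureReal_sdiff h2 (S.measurableSet_half _ _) (hfin _ (fun x hx => hx.1))
    have h4 := hslab ε hε hεa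
    rw [← h3] at h4
    refine lt_of_le_of_lt (measureReal_mono h1 ?_) h4
    exact hfin _ (fun x hx => hx.1.1)
  have hG0 : 0 ≤ volume.real G := measureReal_nonneg
  have hcapO : S.cap u = volume.real O := rfl
  rw [hcapO]
  have hmain : S.cap (u + ε • δ) ≤ volume.real O + (1 - l ^ 3) * volume.real G - ε * c0 := by
    rw [hvφ, hvM] at hLlow
    rw [hdiff] at hcap1
    linarith
  have hl3 : 1 - l ^ 3 ≤ 3 * (c1 * ε) := by
    have ht : 0 ≤ c1 * ε := by positivity
    have e1 : 1 - l ^ 3 = 3 * (c1 * ε) - (c1 * ε) ^ 2 * (3 - c1 * ε) := by rw [hldef]; ring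
    have e2 : 0 ≤ (c1 * ε) ^ 2 * (3 - c1 * ε) := mul_nonneg (sq_nonneg _) (by linarith)
    linarith
  have hfinal : (1 - l ^ 3) * volume.real G ≤ ε * c0 / 2 := by
    calc (1 - l ^ 3) * volume.real G ≤ 3 * (c1 * ε) * volume.real G :=
          mul_le_mul_of_nonneg_right hl3 hG0
      _ ≤ 3 * (c1 * ε) * η := by gcongr
      _ = ε * c0 / 2 := by rw [hηdef]; field_simp; ring
  linarith

end Setting
end Pool.Agent.Helper18.BL
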