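import Mathlib
import Pool.Agent.Helper18.BL.T1
import Pool.Agent.Helper18.BL.T2
import Pool.Agent.Helper37.BL.Move

set_option autoImplicit false

open Set MeasureTheory Filter Topology Metric
open scoped RealInnerProductSpace

namespace Pool.Agent.Helper18.BL
namespace Setting
variable (S : Setting)

/-- local Lipschitz continuity of `(v, n) ↦ lsup v n` -/
theorem lsup_lip {v0 : E} (hv0 : v0 ≠ 0) : ∃ ρ : ℝ, 0 < ρ ∧ ∃ L : NNReal,
    LipschitzOnWith L (fun p : E × E => S.lsup p.1 p.2) (ball v0 ρ ×ˢ ball 0 2) := by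
  obtain ⟨L, hL, hmove⟩ := S.Sp_move_q hv0
  have h0 : 0 < ‖v0‖ := norm_pos_iff.2 hv0
  have hR := S.R_nonneg
  refine ⟨‖v0‖ / 2, by positivity, ⟨2 * S.R + 2 * L, by positivity⟩, ?_⟩
  have key : ∀ p ∈ ball v0 (‖v0‖ / 2) ×ˢ ball (0 : E) 2, ∀ q ∈ ball v0 (‖v0‖ / 2) ×ˢ ball (0 : E) 2,
      S.lsup p.1 p.2 ≤ S.lsup q.1 q.2 + (2 * S.R + 2 * L) * dist p q := by
    rintro ⟨u, n⟩ ⟨hu, hn⟩ ⟨v, m⟩ ⟨hv, hm⟩
    simp only at hu hn hv hm ⊢
    have hu0 : u ≠ 0 := ball_half_ne_q hv0 hu
    have hv0' : v ≠ 0 := ball_half_ne_q hv0 hv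
    obtain ⟨w, hw, he, -⟩ := S.lsup_att_q hu0 n
    obtain ⟨w', hw', hww⟩ := hmove u hu v hv w hw
    have h1 := S.le_lsup_q (n := m) hw'
    have h2 : ⟪n, w⟫ = ⟪m, w'⟫ + ⟪n - m, w⟫ + ⟪m, w - w'⟫ := by
      rw [inner_sub_left, inner_sub_right]; ring
    have h3 : ⟪n - m, w⟫ ≤ dist (u, n) (v, m) * (2 * S.R) := by
      calc ⟪n - m, w⟫ ≤ ‖n - m‖ * ‖w‖ := real_inner_le_norm _ _
        _ ≤ dist (u, n) (v, m) * (2 * S.R) := by
          apply mul_le_mul _ (S.Sp_norm hu0 hw) (norm_nonneg _) dist_nonneg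
          rw [Prod.dist_eq, ← dist_eq_norm]
          exact le_max_right _ _
    have h4 : ⟪m, w - w'⟫ ≤ 2 * (L * dist (u, n) (v, m)) := by
      have hm2 : ‖m‖ ≤ 2 := by
        rw [mem_ball_zero_iff] at hm; exact hm.le
      calc ⟪m, w - w'⟫ ≤ ‖m‖ * ‖w - w'‖ := real_inner_le_norm _ _
        _ ≤ 2 * (L * dist (u, n) (v, m)) := by
          apply mul_le_mul hm2 _ (norm_nonneg _) (by norm_num)
          refine hww.trans ?_
          apply mul_le_mul_of_nonneg_left _ hL.le
          rw [Prod.dist_eq, ← dist_eq_norm]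
          exact le_max_left _ _
    rw [he, h2]
    linarith
  apply LipschitzOnWith.of_dist_le_mul
  intro p hp q hq
  have h1 := key p hp q hq
  have h2 := key q hq p hp
  rw [dist_comm q p] at h2
  rw [Real.dist_eq, abs_le]
  constructor
  · show -((2 * S.R + 2 * L) * dist p q) ≤ _
    linarith
  · show _ ≤ (2 * S.R + 2 * L) * dist p q
    linarith

/-- the derivative of `h` at a differentiability point -/
theorem fderiv_h_q {v κ : E} (hh : DifferentiableAt ℝ S.h v) (hκ : S.C v + κ ∈ S.F v) (δ : E) :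
    fderiv ℝ S.h v δ = ⟪δ, S.C v + κ⟫ := by
  have hd : HasFDerivAt (fun v' => ⟪v', S.C v + κ⟫ - S.h v')
      ((innerSL ℝ (S.C v + κ)) - fderiv ℝ S.h v) v := by
    apply HasFDerivAt.sub _ hh.hasFDerivAt
    have := (innerSL ℝ (S.C v + κ)).hasFDerivAt (x := v)
    apply this.congr_of_eventuallyEq
    filter_upwards with v'
    rw [innerSL_apply_apply, real_inner_comm]
  have hmax : IsLocalMax (fun v' => ⟪v', S.C v + κ⟫ - S.h v') v := by
    filter_upwards with v'
    have h1 := S.h_le v' _ hκ.1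
    have h2 := hκ.2
    linarith
  have h0 := hmax.hasFDerivAt_eq_zero hd
  have h1 := congrArg (fun L : E →L[ℝ] ℝ => L δ) h0
  simp only [ContinuousLinearMap.sub_apply, innerSL_apply_apply,
    ContinuousLinearMap.zero_apply] at h1
  rw [real_inner_comm]
  linarith

/-- Proof text §1. `h(v;n) = ⟪n, C v⟫ + lsup v n`; for `N = n - t v` supporting `K1` at
`p = C v + w`, the function `v' ↦ h(v'; n + t (v' - v)) - t h v' = h(v'; N)` has a maximum at `v`,
so `D_v h(v;n) = -t (p - k)`; same for `-n`, `t'`; subtract. -/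
theorem pair_of_diff_n {v n κ : E} (hv : v ≠ 0) (hC : DifferentiableAt ℝ S.C v)
    (hh : DifferentiableAt ℝ S.h v) (hκ : S.C v + κ ∈ S.F v)
    (hl : DifferentiableAt ℝ (fun p : E × E => S.lsup p.1 p.2) (v, n)) :
    ∃ (w : E) (t t' : ℝ), S.Pair v w n t t' ∧
      Rel (ContinuousLinearMap.adjoint (fderiv ℝ S.C v)) κ w n t t' := by
  obtain ⟨w, hw, hle, hmax⟩ := S.lsup_att_q hv n
  obtain ⟨t, t', hP⟩ := S.pair_exists_n hv hw hmax
  refine ⟨w, t, t', hP, ?_⟩
  set Dl := fderiv ℝ (fun p : E × E => S.lsup p.1 p.2) (v, n) with hDl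
  set DC := fderiv ℝ S.C v with hDC
  -- derivative of `lsup` in `n`
  have hn : ∀ η : E, Dl (0, η) = ⟪η, w⟫ := by
    intro η
    have hd : HasFDerivAt (fun m => ⟪m, w⟫ - S.lsup v m)
        ((innerSL ℝ w) - Dl.comp (ContinuousLinearMap.inr ℝ E E)) n := by
      apply HasFDerivAt.sub
      · have := (innerSL ℝ w).hasFDerivAt (x := n)
        apply this.congr_of_eventuallyEq
        filter_upwards with v'
        rw [innerSL_apply_apply, real_inner_comm]
      · have h1 : HasFDerivAt (fun m : E => (v, m)) (ContinuousLinearMap.inr ℝ E E) n :=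
          hasFDerivAt_prodMk_right v n
        exact hl.hasFDerivAt.comp n h1
    have hmx : IsLocalMax (fun m => ⟪m, w⟫ - S.lsup v m) n := by
      filter_upwards with m
      have h1 := S.le_lsup_q (n := m) hw
      linarith
    have h0 := hmx.hasFDerivAt_eq_zero hd
    have h1 := congrArg (fun L : E →L[ℝ] ℝ => L η) h0
    simp only [ContinuousLinearMap.sub_apply, innerSL_apply_apply,
      ContinuousLinearMap.zero_apply, ContinuousLinearMap.comp_apply,
      ContinuousLinearMap.inr_apply] at h1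
    rw [real_inner_comm]
    linarith
  have hne : ∀ᶠ v' in 𝓝 v, v' ≠ 0 := isOpen_ne.mem_nhds hv
  -- first relation
  have r1 : ∀ δ : E, ⟪n, DC δ⟫ + Dl (δ, 0) = t * ⟪δ, κ⟫ - t * ⟪δ, w⟫ := by
    intro δ
    have hf : HasFDerivAt (fun v' : E => ⟪n + t • (v' - v), S.C v'⟫ +
        S.lsup v' (n + t • (v' - v)) - t * S.h v')
        ((fderivInnerCLM ℝ (n + t • (v - v), S.C v)).comp
          ((t • ContinuousLinearMap.id ℝ E).prod DC) +
          Dl.comp ((ContinuousLinearMap.id ℝ E).prod (t • ContinuousLinearMap.id ℝ E)) -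
          t • fderiv ℝ S.h v) v := by
      have hlin : HasFDerivAt (fun v' : E => n + t • (v' - v)) (t • ContinuousLinearMap.id ℝ E) v := by
        have := ((hasFDerivAt_id (𝕜 := ℝ) v).sub_const v).const_smul t
        exact this.const_add n
      apply HasFDerivAt.sub
      · apply HasFDerivAt.add
        · exact hlin.inner ℝ hC.hasFDerivAt
        · have h1 : HasFDerivAt (fun v' : E => (v', n + t • (v' - v)))
              ((ContinuousLinearMap.id ℝ E).prod (t • ContinuousLinearMap.id ℝ E)) v :=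
            (hasFDerivAt_id v).prodMk hlin
          have h2 : HasFDerivAt (fun p : E × E => S.lsup p.1 p.2) Dl (v, n + t • (v - v)) := by
            rw [sub_self, smul_zero, add_zero]; exact hl.hasFDerivAt
          exact h2.comp v h1
      · exact hh.hasFDerivAt.const_mul t
    have hmx : IsLocalMax (fun v' : E => ⟪n + t • (v' - v), S.C v'⟫ +
        S.lsup v' (n + t • (v' - v)) - t * S.h v') v := by
      filter_upwards [hne] with v' hv'
      obtain ⟨w1, hw1, he1, -⟩ := S.lsup_att_q hv' (n + t • (v' - v))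
      have h1 := hP.2.1 _ hw1.2
      have h2 := S.mem_Sp_h_q hv' hw1
      have h3 := S.mem_Sp_h_q hv hw
      rw [he1, sub_self, smul_zero, add_zero, hle]
      rw [← h2, ← h3]
      simp only [inner_add_left, inner_add_right, inner_sub_left, inner_sub_right,
        inner_smul_left, conj_trivial] at h1 ⊢
      linarith
    have h0 := hmx.hasFDerivAt_eq_zero hf
    have h1 := congrArg (fun L : E →L[ℝ] ℝ => L δ) h0
    simp only [ContinuousLinearMap.sub_apply, ContinuousLinearMap.add_apply,
      ContinuousLinearMap.zero_apply, ContinuousLinearMap.comp_apply,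
      ContinuousLinearMap.prod_apply, ContinuousLinearMap.smul_apply,
      ContinuousLinearMap.id_apply, fderivInnerCLM_apply, sub_self, smul_zero, add_zero,
      S.fderiv_h_q hh hκ, smul_eq_mul, inner_smul_left, conj_trivial] at h1
    have h2 : Dl (δ, t • δ) = Dl (δ, 0) + t * ⟪δ, w⟫ := by
      have : ((δ, t • δ) : E × E) = (δ, 0) + t • ((0 : E), δ) := by
        ext <;> simp
      rw [this, map_add, map_smul, hn, smul_eq_mul]
    rw [h2, inner_add_right] at h1
    linarith
  -- second relation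
  have r2 : ∀ δ : E, -⟪n, DC δ⟫ + Dl (δ, 0) = t' * ⟪δ, κ⟫ + t' * ⟪δ, w⟫ := by
    intro δ
    have hf : HasFDerivAt (fun v' : E => ⟪-n + t' • (v' - v), S.C v'⟫ +
        S.lsup v' (n - t' • (v' - v)) - t' * S.h v')
        ((fderivInnerCLM ℝ (-n + t' • (v - v), S.C v)).comp
          ((t' • ContinuousLinearMap.id ℝ E).prod DC) +
          Dl.comp ((ContinuousLinearMap.id ℝ E).prod (-(t' • ContinuousLinearMap.id ℝ E))) -
          t' • fderiv ℝ S.h v) v := by
      have hlin : HasFDerivAt (fun v' : E => -n + t' • (v' - v))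
          (t' • ContinuousLinearMap.id ℝ E) v := by
        have := ((hasFDerivAt_id (𝕜 := ℝ) v).sub_const v).const_smul t'
        exact this.const_add (-n)
      have hlin2 : HasFDerivAt (fun v' : E => n - t' • (v' - v))
          (-(t' • ContinuousLinearMap.id ℝ E)) v := by
        have := ((hasFDerivAt_id (𝕜 := ℝ) v).sub_const v).const_smul t'
        exact this.const_sub n
      apply HasFDerivAt.sub
      · apply HasFDerivAt.add
        · exact hlin.inner ℝ hC.hasFDerivAt
        · have h1 : HasFDerivAt (fun v' : E => (v', n - t' • (v' - v)))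
              ((ContinuousLinearMap.id ℝ E).prod (-(t' • ContinuousLinearMap.id ℝ E))) v :=
            (hasFDerivAt_id v).prodMk hlin2
          have h2 : HasFDerivAt (fun p : E × E => S.lsup p.1 p.2) Dl (v, n - t' • (v - v)) := by
            rw [sub_self, smul_zero, sub_zero]; exact hl.hasFDerivAt
          exact h2.comp v h1
      · exact hh.hasFDerivAt.const_mul t'
    have hmx : IsLocalMax (fun v' : E => ⟪-n + t' • (v' - v), S.C v'⟫ +
        S.lsup v' (n - t' • (v' - v)) - t' * S.h v') v := by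
      filter_upwards [hne] with v' hv'
      obtain ⟨w1, hw1, he1, -⟩ := S.lsup_att_q hv' (-n + t' • (v' - v))
      have h1 := hP.2.2 _ hw1.2
      have h2 := S.mem_Sp_h_q hv' hw1
      have h3 := S.mem_Sp_h_q hv hw
      have h4 : S.lsup v' (n - t' • (v' - v)) = S.lsup v' (-n + t' • (v' - v)) := by
        rw [← S.lsup_neg_q hv']
        congr 1
        abel
      have h5 : S.h v = ⟪v, S.C v - w⟫ := by
        rw [inner_sub_right, hw.1, sub_zero, S.C_h v hv]
      rw [h4, he1, sub_self, smul_zero, add_zero, sub_zero, hle]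
      rw [← h2, h5]
      simp only [inner_add_left, inner_add_right, inner_sub_left, inner_sub_right,
        inner_smul_left, conj_trivial, inner_neg_left] at h1 ⊢
      linarith
    have h0 := hmx.hasFDerivAt_eq_zero hf
    have h1 := congrArg (fun L : E →L[ℝ] ℝ => L δ) h0
    simp only [ContinuousLinearMap.sub_apply, ContinuousLinearMap.add_apply,
      ContinuousLinearMap.zero_apply, ContinuousLinearMap.comp_apply,
      ContinuousLinearMap.prod_apply, ContinuousLinearMap.smul_apply,
      ContinuousLinearMap.neg_apply,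
      ContinuousLinearMap.id_apply, fderivInnerCLM_apply, sub_self, smul_zero, add_zero,
      S.fderiv_h_q hh hκ, smul_eq_mul, inner_smul_left, conj_trivial, inner_neg_left] at h1
    have h2 : Dl (δ, -(t' • δ)) = Dl (δ, 0) - t' * ⟪δ, w⟫ := by
      have : ((δ, -(t' • δ)) : E × E) = (δ, 0) + (-t') • ((0 : E), δ) := by
        ext <;> simp
      rw [this, map_add, map_smul, hn, smul_eq_mul]
      ring
    rw [h2, inner_add_right] at h1
    linarith
  show (2 : ℝ) • _ = _
  apply ext_inner_left ℝ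
  intro δ
  rw [inner_smul_right, ContinuousLinearMap.adjoint_inner_right, inner_add_right,
    inner_smul_right, inner_smul_right, real_inner_comm]
  have h1 := r1 δ
  have h2 := r2 δ
  linarith

end Setting
end Pool.Agent.Helper18.BL
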