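import Mathlib
import Pool.Agent.Helper18.BL.T1
import Pool.Agent.Helper18.BL.T2
import Pool.Agent.Helper37.BL.Move

set_option autoImplicit false

open Set MeasureTheory Filter Topology Metric
open scoped RealInnerProductSpace

namespace Pool.Agent.Helper18.BL

theorem inner_lift_q (v e : E) : ⟪v, lift v v e⟫ = 0 := by
  unfold lift
  rw [inner_sub_right, inner_smul_right]
  by_cases hv : v = 0
  · subst hv; simp
  · have : ⟪v, v⟫ ≠ 0 := by
      rw [real_inner_self_eq_norm_sq]; positivity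
    rw [div_mul_cancel₀ _ this, sub_self]

theorem lift_self_q {v w : E} (hw : ⟪v, w⟫ = 0) : lift v v w = w := by
  unfold lift
  rw [hw, zero_div, zero_smul, sub_zero]

theorem lift_add_q (v x y : E) : lift v v (x + y) = lift v v x + lift v v y :=
  (liftL v v).map_add x y

theorem lift_smul_q (v x : E) (c : ℝ) : lift v v (c • x) = c • lift v v x :=
  (liftL v v).map_smul c x

theorem norm_lift_le_q (v e : E) : ‖lift v v e‖ ≤ ‖e‖ := by
  have h1 : ‖e‖ ^ 2 = ‖lift v v e‖ ^ 2 + ‖(⟪v, e⟫ / ⟪v, v⟫) • v‖ ^ 2 := by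
    have h2 : e = lift v v e + (⟪v, e⟫ / ⟪v, v⟫) • v := by
      unfold lift; abel
    have h3 : ⟪lift v v e, (⟪v, e⟫ / ⟪v, v⟫) • v⟫ = 0 := by
      have h4 : ⟪lift v v e, v⟫ = 0 := by
        rw [real_inner_comm]; exact inner_lift_q v e
      rw [inner_smul_right, h4, mul_zero]
    conv_lhs => rw [h2]
    rw [@norm_add_sq_real, h3]; ring
  have h4 : ‖lift v v e‖ ^ 2 ≤ ‖e‖ ^ 2 := by
    rw [h1]; linarith [sq_nonneg ‖(⟪v, e⟫ / ⟪v, v⟫) • v‖]
  exact (sq_le_sq₀ (norm_nonneg _) (norm_nonneg _)).1 h4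

theorem lift_unit_q {v : E} (hv : v ≠ 0) (e : E) :
    lift v v e = e - ⟪(‖v‖⁻¹ : ℝ) • v, e⟫ • ((‖v‖⁻¹ : ℝ) • v) := by
  unfold lift
  have : ‖v‖ ≠ 0 := norm_ne_zero_iff.2 hv
  rw [inner_smul_left, conj_trivial, real_inner_self_eq_norm_sq, smul_smul]
  congr 2
  field_simp

theorem norm_lift_sub_le_q {u v : E} (hu : u ≠ 0) (hv : v ≠ 0) (e : E) :
    ‖lift v v e - lift u u e‖ ≤ 4 * ‖u - v‖ / ‖u‖ * ‖e‖ := by
  have hu' : 0 < ‖u‖ := norm_pos_iff.2 hu
  have hv' : 0 < ‖v‖ := norm_pos_iff.2 hv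
  rw [lift_unit_q hv, lift_unit_q hu]
  have h1 := norm_dir_sub_le_q hu hv
  set a := (‖u‖⁻¹ : ℝ) • u with ha
  set b := (‖v‖⁻¹ : ℝ) • v with hb
  have na : ‖a‖ = 1 := by
    rw [ha, norm_smul, norm_inv, norm_norm, inv_mul_cancel₀ hu'.ne']
  have nb : ‖b‖ = 1 := by
    rw [hb, norm_smul, norm_inv, norm_norm, inv_mul_cancel₀ hv'.ne']
  have e1 : e - ⟪b, e⟫ • b - (e - ⟪a, e⟫ • a) = ⟪a - b, e⟫ • a + ⟪b, e⟫ • (a - b) := by
    rw [inner_sub_left, sub_smul, smul_sub]; abel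
  rw [e1]
  have h2 : ‖⟪a - b, e⟫ • a‖ ≤ ‖a - b‖ * ‖e‖ := by
    rw [norm_smul, na, mul_one]; exact norm_inner_le_norm _ _
  have h3 : ‖⟪b, e⟫ • (a - b)‖ ≤ ‖a - b‖ * ‖e‖ := by
    rw [norm_smul, mul_comm]
    apply mul_le_mul_of_nonneg_left _ (norm_nonneg _)
    have := norm_inner_le_norm (𝕜 := ℝ) b e
    rwa [nb, one_mul] at this
  calc ‖⟪a - b, e⟫ • a + ⟪b, e⟫ • (a - b)‖ ≤ ‖a - b‖ * ‖e‖ + ‖a - b‖ * ‖e‖ :=
        (norm_add_le _ _).trans (add_le_add h2 h3)
    _ = 2 * ‖a - b‖ * ‖e‖ := by ring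
    _ ≤ 2 * (2 * ‖u - v‖ / ‖u‖) * ‖e‖ := by gcongr
    _ = 4 * ‖u - v‖ / ‖u‖ * ‖e‖ := by ring

namespace Setting
variable (S : Setting)

/-- the cylinder set whose gauge is `gam` -/
def Gs_q (v : E) : Set E := {x : E | S.C v + lift v v x ∈ S.K1}

theorem mem_Gs_q {v x : E} : x ∈ S.Gs_q v ↔ lift v v x ∈ S.Sp v :=
  ⟨fun h => ⟨inner_lift_q v x, h⟩, fun h => h.2⟩

theorem Gs_convex_q (v : E) : Convex ℝ (S.Gs_q v) := by
  intro x hx y hy a b ha hb hab
  rw [mem_Gs_q] at hx hy ⊢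
  rw [lift_add_q, lift_smul_q, lift_smul_q]
  exact S.Sp_convex v hx hy ha hb hab

theorem continuous_lift_q (v : E) : Continuous (lift v v) := by
  unfold lift
  fun_prop

theorem Gs_closed_q (v : E) : IsClosed (S.Gs_q v) :=
  S.K1_compact.isClosed.preimage (continuous_const.add (continuous_lift_q v))

theorem Gs_ball_q {v : E} (hv : v ≠ 0) : closedBall (0 : E) (S.r / 2) ⊆ S.Gs_q v := by
  intro x hx
  rw [mem_closedBall_zero_iff] at hx
  rw [mem_Gs_q]
  exact S.Sp_ball hv (inner_lift_q v x) ((norm_lift_le_q v x).trans hx)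

theorem Gs_nhds_q {v : E} (hv : v ≠ 0) : S.Gs_q v ∈ 𝓝 (0 : E) :=
  mem_of_superset (closedBall_mem_nhds _ (half_pos S.r_pos)) (S.Gs_ball_q hv)

theorem gam_le_one_q {v x : E} (hv : v ≠ 0) : S.gam v x ≤ 1 ↔ lift v v x ∈ S.Sp v := by
  rw [← mem_Gs_q]
  have := gauge_le_one_iff_mem_closure (x := x) (S.Gs_convex_q v) (S.Gs_nhds_q hv)
  rwa [(S.Gs_closed_q v).closure_eq] at this

theorem gam_smul_q (v x : E) {c : ℝ} (hc : 0 ≤ c) : S.gam v (c • x) = c * S.gam v x := by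
  have := gauge_smul_of_nonneg (s := S.Gs_q v) hc x
  rwa [smul_eq_mul] at this

theorem gam_le_iff_q {v x : E} (hv : v ≠ 0) {c : ℝ} (hc : 0 < c) :
    S.gam v x ≤ c ↔ c⁻¹ • lift v v x ∈ S.Sp v := by
  rw [← lift_smul_q, ← S.gam_le_one_q hv, S.gam_smul_q _ _ (inv_nonneg.2 hc.le),
    inv_mul_le_iff₀ hc, mul_one]

theorem gam_nonneg_q (v x : E) : 0 ≤ S.gam v x := gauge_nonneg x

theorem gam_add_le_q {v : E} (hv : v ≠ 0) (x y : E) :
    S.gam v (x + y) ≤ S.gam v x + S.gam v y :=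
  gauge_add_le (S.Gs_convex_q v) (absorbent_nhds_zero (S.Gs_nhds_q hv)) x y

theorem gam_le_norm_q {v : E} (hv : v ≠ 0) (x : E) : S.gam v x ≤ 2 / S.r * ‖x‖ := by
  have hr := S.r_pos
  apply le_of_forall_pos_le_add
  intro ε hε
  rw [S.gam_le_iff_q hv (by positivity)]
  apply S.Sp_ball hv
  · rw [inner_smul_right, inner_lift_q, mul_zero]
  · rw [norm_smul, norm_inv, Real.norm_of_nonneg (by positivity), inv_mul_le_iff₀ (by positivity)]
    refine (norm_lift_le_q v x).trans ?_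
    have : (2 / S.r * ‖x‖ + ε) * (S.r / 2) = ‖x‖ + ε * (S.r / 2) := by
      field_simp
    rw [this]
    have : 0 < ε * (S.r / 2) := by positivity
    linarith

theorem gam_lift_q {v : E} (hv : v ≠ 0) (x : E) : S.gam v (lift v v x) = S.gam v x := by
  have key : ∀ c : ℝ, 0 < c → (S.gam v (lift v v x) ≤ c ↔ S.gam v x ≤ c) := by
    intro c hc
    rw [S.gam_le_iff_q hv hc, S.gam_le_iff_q hv hc, lift_self_q (inner_lift_q v x)]
  apply le_antisymm
  · apply le_of_forall_pos_le_add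
    intro ε hε
    rw [key _ (by linarith [S.gam_nonneg_q v x])]
    linarith
  · apply le_of_forall_pos_le_add
    intro ε hε
    rw [← key _ (by linarith [S.gam_nonneg_q v (lift v v x)])]
    linarith

theorem gam_of_mem_q {v w : E} (hv : v ≠ 0) (hw : w ∈ S.Sp v) : S.gam v w ≤ 1 := by
  rw [S.gam_le_one_q hv, lift_self_q hw.1]; exact hw

/-- local Lipschitz continuity of `(v, e) ↦ gam v e` -/
theorem gam_lip {v0 : E} (hv0 : v0 ≠ 0) : ∃ ρ : ℝ, 0 < ρ ∧ ∃ L : NNReal,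
    LipschitzOnWith L (fun p : E × E => S.gam p.1 p.2) (ball v0 ρ ×ˢ ball 0 2) := by
  obtain ⟨L, hL, hmove⟩ := S.Sp_move_q hv0
  have h0 : 0 < ‖v0‖ := norm_pos_iff.2 hv0
  have hr := S.r_pos
  set M : ℝ := 2 / S.r * (16 / ‖v0‖ + (4 / S.r + 1) * L) with hM
  have hM0 : 0 < M := by positivity
  refine ⟨‖v0‖ / 2, by positivity, ⟨M + 2 / S.r, by positivity⟩, ?_⟩
  -- variation of `v`
  have kv : ∀ u ∈ ball v0 (‖v0‖ / 2), ∀ v ∈ ball v0 (‖v0‖ / 2), ∀ e ∈ ball (0 : E) 2,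
      S.gam v e ≤ S.gam u e + M * ‖u - v‖ := by
    intro u hu v hv e he
    have hu0 : u ≠ 0 := ball_half_ne_q hv0 hu
    have hv0' : v ≠ 0 := ball_half_ne_q hv0 hv
    have hun : 0 < ‖u‖ := norm_pos_iff.2 hu0
    have he2 : ‖e‖ ≤ 2 := by
      rw [mem_ball_zero_iff] at he; exact he.le
    have hg4 : S.gam u e ≤ 4 / S.r := by
      refine (S.gam_le_norm_q hu0 e).trans ?_
      calc 2 / S.r * ‖e‖ ≤ 2 / S.r * 2 := by gcongr
        _ = 4 / S.r := by ring
    have key : ∀ ε : ℝ, 0 < ε → ε ≤ 1 → S.gam v e ≤ S.gam u e + M * ‖u - v‖ + ε := by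
      intro ε hε hε1
      set g := S.gam u e + ε with hg
      have hgp : 0 < g := by linarith [S.gam_nonneg_q u e]
      have hgl : g ≤ 4 / S.r + 1 := by linarith
      have hw : g⁻¹ • lift u u e ∈ S.Sp u := by
        rw [← S.gam_le_iff_q hu0 hgp]; linarith
      obtain ⟨w', hw', hww⟩ := hmove u hu v hv _ hw
      set z := lift v v e - g • w' with hz
      have hzn : ‖z‖ ≤ 16 / ‖v0‖ * ‖u - v‖ + g * (L * ‖u - v‖) := by
        have e1 : z = (lift v v e - lift u u e) + g • (g⁻¹ • lift u u e - w') := by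
          rw [hz, smul_sub, smul_smul, mul_inv_cancel₀ hgp.ne', one_smul]; abel
        rw [e1]
        refine (norm_add_le _ _).trans (add_le_add ?_ ?_)
        · refine (norm_lift_sub_le_q hu0 hv0' e).trans ?_
          have h4 := ball_half_q hu
          have h5 : 4 * ‖u - v‖ / ‖u‖ ≤ 8 / ‖v0‖ * ‖u - v‖ := by
            rw [div_mul_eq_mul_div, div_le_div_iff₀ hun h0]
            nlinarith [norm_nonneg (u - v)]
          calc 4 * ‖u - v‖ / ‖u‖ * ‖e‖ ≤ (8 / ‖v0‖ * ‖u - v‖) * 2 := by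
                apply mul_le_mul h5 he2 (norm_nonneg _) (by positivity)
            _ = 16 / ‖v0‖ * ‖u - v‖ := by ring
        · rw [norm_smul, Real.norm_of_nonneg hgp.le]
          gcongr
      have h1 : S.gam v e ≤ g + 2 / S.r * ‖z‖ := by
        rw [← S.gam_lift_q hv0']
        have e2 : lift v v e = g • w' + z := by rw [hz]; abel
        rw [e2]
        refine (S.gam_add_le_q hv0' _ _).trans (add_le_add ?_ (S.gam_le_norm_q hv0' z))
        rw [S.gam_smul_q _ _ hgp.le]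
        have := S.gam_of_mem_q hv0' hw'
        nlinarith
      have h2 : 2 / S.r * ‖z‖ ≤ M * ‖u - v‖ := by
        calc 2 / S.r * ‖z‖ ≤ 2 / S.r * (16 / ‖v0‖ * ‖u - v‖ + g * (L * ‖u - v‖)) := by gcongr
          _ ≤ 2 / S.r * (16 / ‖v0‖ * ‖u - v‖ + (4 / S.r + 1) * (L * ‖u - v‖)) := by gcongr
          _ = M * ‖u - v‖ := by rw [hM]; ring
      linarith
    apply le_of_forall_pos_le_add
    intro ε hε
    have h1 := key (min ε 1) (lt_min hε one_pos) (min_le_right _ _)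
    have h2 := min_le_left ε 1
    linarith
  have key : ∀ p ∈ ball v0 (‖v0‖ / 2) ×ˢ ball (0 : E) 2, ∀ q ∈ ball v0 (‖v0‖ / 2) ×ˢ ball (0 : E) 2,
      S.gam p.1 p.2 ≤ S.gam q.1 q.2 + (M + 2 / S.r) * dist p q := by
    rintro ⟨u, e⟩ ⟨hu, he⟩ ⟨v, f⟩ ⟨hv, hf⟩
    simp only at hu he hv hf ⊢
    have hu0 : u ≠ 0 := ball_half_ne_q hv0 hu
    have h1 := kv v hv u hu f hf
    have h2 : S.gam u e ≤ S.gam u f + 2 / S.r * ‖e - f‖ := by
      have := S.gam_add_le_q hu0 f (e - f)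
      rw [add_sub_cancel] at this
      exact this.trans (add_le_add le_rfl (S.gam_le_norm_q hu0 _))
    have h3 : ‖v - u‖ ≤ dist (u, e) (v, f) := by
      rw [norm_sub_rev, Prod.dist_eq, ← dist_eq_norm]; exact le_max_left _ _
    have h4 : ‖e - f‖ ≤ dist (u, e) (v, f) := by
      rw [Prod.dist_eq, ← dist_eq_norm]; exact le_max_right _ _
    have h5 : M * ‖v - u‖ ≤ M * dist (u, e) (v, f) := by gcongr
    have h6 : 2 / S.r * ‖e - f‖ ≤ 2 / S.r * dist (u, e) (v, f) := by gcongr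
    rw [add_mul]
    linarith
  apply LipschitzOnWith.of_dist_le_mul
  intro p hp q hq
  have h1 := key p hp q hq
  have h2 := key q hq p hp
  rw [dist_comm q p] at h2
  rw [Real.dist_eq, abs_le]
  constructor
  · show -((M + 2 / S.r) * dist p q) ≤ _
    linarith
  · show _ ≤ (M + 2 / S.r) * dist p q
    linarith

/-- `w = lift v v e / gam v e` -/
theorem gam_bd {v e : E} (hv : v ≠ 0) (he : lift v v e ≠ 0) :
    0 < S.gam v e ∧ (S.gam v e)⁻¹ • lift v v e ∈ S.bd v := by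
  have hpos : 0 < S.gam v e := by
    rcases (S.gam_nonneg_q v e).lt_or_eq with h | h
    · exact h
    · exfalso
      have h1 : ∀ c : ℝ, 0 < c → c • lift v v e ∈ S.Sp v := by
        intro c hc
        rw [← lift_smul_q, ← S.gam_le_one_q hv, S.gam_smul_q _ _ hc.le, ← h, mul_zero]
        exact zero_le_one
      have hn : 0 < ‖lift v v e‖ := norm_pos_iff.2 he
      have hR := S.R_nonneg
      have h2 := S.Sp_norm hv (h1 ((2 * S.R + 1) / ‖lift v v e‖) (by positivity))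
      rw [norm_smul, Real.norm_of_nonneg (by positivity), div_mul_cancel₀ _ hn.ne'] at h2
      linarith
  refine ⟨hpos, ?_, ?_⟩
  · rw [← S.gam_le_iff_q hv hpos]
  · intro c hc hmem
    rw [smul_smul, ← lift_smul_q, ← S.gam_le_one_q hv,
      S.gam_smul_q _ _ (by positivity), mul_assoc, inv_mul_cancel₀ hpos.ne', mul_one] at hmem
    linarith

/-- Proof text §1. For `N` supporting `K1` at `C v + w`, `w = lift v v e / gam v e`, the function
`(v', e') ↦ ⟪N, C v' + lift v' v' e' / gam v' e'⟫` has a maximum at `(v, e)`. -/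
theorem pair_of_diff_w {v e κ : E} (hv : v ≠ 0) (he : lift v v e ≠ 0)
    (hC : DifferentiableAt ℝ S.C v)
    (hh : DifferentiableAt ℝ S.h v) (hκ : S.C v + κ ∈ S.F v)
    (hl : DifferentiableAt ℝ (fun p : E × E => S.gam p.1 p.2) (v, e)) :
    ∃ (n : E) (t t' : ℝ), ⟪v, n⟫ = 0 ∧ ⟪n, (S.gam v e)⁻¹ • lift v v e⟫ = 1 ∧
      S.Pair v ((S.gam v e)⁻¹ • lift v v e) n t t' ∧
      Rel (ContinuousLinearMap.adjoint (fderiv ℝ S.C v)) κ ((S.gam v e)⁻¹ • lift v v e) n t t' := by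
  obtain ⟨hg, hbd⟩ := S.gam_bd hv he
  obtain ⟨n, t, t', hn0, hn1, hP⟩ := S.pair_exists_w hv hbd
  refine ⟨n, t, t', hn0, hn1, hP, ?_⟩
  set w := (S.gam v e)⁻¹ • lift v v e with hw
  set DC := fderiv ℝ S.C v with hDC
  -- the moving boundary point
  have hgd : DifferentiableAt ℝ (fun v' => S.gam v' e) v := by
    have h1 : HasFDerivAt (fun v' : E => (v', e)) (ContinuousLinearMap.inl ℝ E E) v :=
      hasFDerivAt_prodMk_left v e
    exact (hl.hasFDerivAt.comp v h1).differentiableAt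
  have hvv : ⟪v, v⟫ ≠ 0 := by
    rw [real_inner_self_eq_norm_sq]
    have := norm_pos_iff.2 hv
    positivity
  have hld : DifferentiableAt ℝ (fun v' : E => lift v' v' e) v := by
    unfold lift
    have d1 : DifferentiableAt ℝ (fun v' : E => ⟪v', e⟫) v :=
      differentiableAt_id.inner ℝ (differentiableAt_const e)
    have d2 : DifferentiableAt ℝ (fun v' : E => ⟪v', v'⟫) v :=
      differentiableAt_id.inner ℝ differentiableAt_id
    have d3 : DifferentiableAt ℝ (fun v' : E => ⟪v', e⟫ / ⟪v', v'⟫) v := by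
      simp only [div_eq_mul_inv]
      exact d1.mul (d2.inv hvv)
    have d4 : DifferentiableAt ℝ (fun v' : E => v') v := differentiableAt_id
    exact (differentiableAt_const e).sub (d3.smul d4)
  have hWd : DifferentiableAt ℝ (fun v' : E => (S.gam v' e)⁻¹ • lift v' v' e) v :=
    (hgd.inv hg.ne').smul hld
  obtain ⟨DW, hDW⟩ : ∃ D, HasFDerivAt (fun v' : E => (S.gam v' e)⁻¹ • lift v' v' e) D v :=
    ⟨_, hWd.hasFDerivAt⟩
  -- orthogonality
  have o1 : ∀ δ : E, ⟪v, DW δ⟫ = -⟪δ, w⟫ := by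
    intro δ
    have hf : HasFDerivAt (fun v' : E => ⟪v', (S.gam v' e)⁻¹ • lift v' v' e⟫)
        ((fderivInnerCLM ℝ (v, (S.gam v e)⁻¹ • lift v v e)).comp
          ((ContinuousLinearMap.id ℝ E).prod DW)) v :=
      (hasFDerivAt_id v).inner ℝ hDW
    have h0 : (fun v' : E => ⟪v', (S.gam v' e)⁻¹ • lift v' v' e⟫) = fun _ => (0 : ℝ) := by
      funext v'
      rw [inner_smul_right, inner_lift_q, mul_zero]
    rw [h0] at hf
    have h1 := hf.unique (hasFDerivAt_const (0 : ℝ) v)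
    have h2 := congrArg (fun L : E →L[ℝ] ℝ => L δ) h1
    simp only [ContinuousLinearMap.comp_apply, ContinuousLinearMap.prod_apply,
      ContinuousLinearMap.id_apply, fderivInnerCLM_apply, zero_apply] at h2
    rw [hw]
    linarith
  have o2 : ∀ δ : E, ⟪v, DC δ⟫ = ⟪δ, κ⟫ := by
    intro δ
    have hf : HasFDerivAt (fun v' : E => ⟪v', S.C v'⟫)
        ((fderivInnerCLM ℝ (v, S.C v)).comp ((ContinuousLinearMap.id ℝ E).prod DC)) v :=
      (hasFDerivAt_id v).inner ℝ hC.hasFDerivAt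
    have hf2 : HasFDerivAt S.h
        ((fderivInnerCLM ℝ (v, S.C v)).comp ((ContinuousLinearMap.id ℝ E).prod DC)) v := by
      apply hf.congr_of_eventuallyEq
      filter_upwards [isOpen_ne.mem_nhds hv] with v' hv'
      exact (S.C_h v' hv').symm
    have h1 := hf2.unique hh.hasFDerivAt
    have h2 := congrArg (fun L : E →L[ℝ] ℝ => L δ) h1
    have h3 : fderiv ℝ S.h v δ = ⟪δ, S.C v + κ⟫ := by
      have hd : HasFDerivAt (fun v' => ⟪v', S.C v + κ⟫ - S.h v')
          ((innerSL ℝ (S.C v + κ)) - fderiv ℝ S.h v) v := by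
        apply HasFDerivAt.sub _ hh.hasFDerivAt
        have := (innerSL ℝ (S.C v + κ)).hasFDerivAt (x := v)
        apply this.congr_of_eventuallyEq
        filter_upwards with v'
        rw [innerSL_apply_apply, real_inner_comm]
      have hmax : IsLocalMax (fun v' => ⟪v', S.C v + κ⟫ - S.h v') v := by
        filter_upwards with v'
        have h1 := S.h_le v' _ hκ.1
        have h2 := hκ.2
        linarith
      have h0 := hmax.hasFDerivAt_eq_zero hd
      have h1 := congrArg (fun L : E →L[ℝ] ℝ => L δ) h0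
      simp only [sub_apply, innerSL_apply_apply, zero_apply] at h1
      rw [real_inner_comm]
      linarith
    simp only [ContinuousLinearMap.comp_apply, ContinuousLinearMap.prod_apply,
      ContinuousLinearMap.id_apply, fderivInnerCLM_apply, h3] at h2
    rw [inner_add_right] at h2
    linarith
  have hlne : ∀ᶠ v' in 𝓝 v, lift v' v' e ≠ 0 := hld.continuousAt.eventually_ne he
  have r1 : ∀ δ : E, ⟪n - t • v, DC δ⟫ + ⟪n - t • v, DW δ⟫ = 0 := by
    intro δ
    have hf : HasFDerivAt (fun v' : E => ⟪n - t • v, S.C v' + (S.gam v' e)⁻¹ • lift v' v' e⟫)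
        ((innerSL ℝ (n - t • v)).comp (DC + DW)) v :=
      (innerSL ℝ (n - t • v)).hasFDerivAt.comp v (hC.hasFDerivAt.add hDW)
    have hmx : IsLocalMax (fun v' : E =>
        ⟪n - t • v, S.C v' + (S.gam v' e)⁻¹ • lift v' v' e⟫) v := by
      filter_upwards [hlne, isOpen_ne.mem_nhds hv] with v' h1 h2
      exact hP.2.1 _ (S.gam_bd h2 h1).2.1.2
    have h1 := congrArg (fun L : E →L[ℝ] ℝ => L δ) (hmx.hasFDerivAt_eq_zero hf)
    simp only [ContinuousLinearMap.comp_apply, innerSL_apply_apply, add_apply,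
      zero_apply, inner_add_right] at h1
    exact h1
  have r2 : ∀ δ : E, ⟪-n - t' • v, DC δ⟫ - ⟪-n - t' • v, DW δ⟫ = 0 := by
    intro δ
    have hf : HasFDerivAt (fun v' : E => ⟪-n - t' • v, S.C v' - (S.gam v' e)⁻¹ • lift v' v' e⟫)
        ((innerSL ℝ (-n - t' • v)).comp (DC - DW)) v :=
      (innerSL ℝ (-n - t' • v)).hasFDerivAt.comp v (hC.hasFDerivAt.sub hDW)
    have hmx : IsLocalMax (fun v' : E =>
        ⟪-n - t' • v, S.C v' - (S.gam v' e)⁻¹ • lift v' v' e⟫) v := by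
      filter_upwards [hlne, isOpen_ne.mem_nhds hv] with v' h1 h2
      have h3 := (S.Sp_neg h2 (S.gam_bd h2 h1).2.1).2
      rw [← sub_eq_add_neg] at h3
      exact hP.2.2 _ h3
    have h1 := congrArg (fun L : E →L[ℝ] ℝ => L δ) (hmx.hasFDerivAt_eq_zero hf)
    simp only [ContinuousLinearMap.comp_apply, innerSL_apply_apply, sub_apply,
      zero_apply, inner_sub_right] at h1
    exact h1
  show (2 : ℝ) • _ = _
  apply ext_inner_left ℝ
  intro δ
  rw [inner_smul_right, ContinuousLinearMap.adjoint_inner_right, inner_add_right,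
    inner_smul_right δ w, inner_smul_right δ κ, real_inner_comm n]
  have h1 := r1 δ
  have h2 := r2 δ
  have h3 := o1 δ
  have h4 := o2 δ
  rw [inner_sub_left, inner_sub_left, inner_smul_left, inner_smul_left, conj_trivial, h3, h4] at h1
  rw [inner_sub_left, inner_sub_left, inner_smul_left, inner_smul_left, conj_trivial,
    inner_neg_left, inner_neg_left, h3, h4] at h2
  linarith

end Setting
end Pool.Agent.Helper18.BL
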