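import Mathlib
import Pool.Agent.Helper18.BL.T3a
import Pool.Agent.Helper18.BL.T3b

set_option autoImplicit false

open Set MeasureTheory Filter Topology Metric
open scoped RealInnerProductSpace

namespace Pool.Agent.Helper18.BL
namespace Setting
variable (S : Setting)

theorem rel_limit_q {A : E →L[ℝ] E} {κ : E} {w n : ℕ → E} {t t' : ℕ → ℝ} {w0 n0 : E}
    {t0 t0' : ℝ} (h : ∀ j, Rel A κ (w j) (n j) (t j) (t' j))
    (hw : Tendsto w atTop (𝓝 w0)) (hn : Tendsto n atTop (𝓝 n0)) (ht : Tendsto t atTop (𝓝 t0))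
    (ht' : Tendsto t' atTop (𝓝 t0')) : Rel A κ w0 n0 t0 t0' := by
  unfold Rel at h ⊢
  have h1 : Tendsto (fun j => (2 : ℝ) • A (n j)) atTop (𝓝 ((2 : ℝ) • A n0)) :=
    ((A.continuous.tendsto n0).comp hn).const_smul 2
  have h2 : Tendsto (fun j => -(t j + t' j) • w j + (t j - t' j) • κ) atTop
      (𝓝 (-(t0 + t0') • w0 + (t0 - t0') • κ)) :=
    (((ht.add ht').neg).smul hw).add ((ht.sub ht').smul_const κ)
  apply tendsto_nhds_unique h1
  have h3 : (fun j => (2 : ℝ) • A (n j)) = fun j => -(t j + t' j) • w j + (t j - t' j) • κ := by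
    funext j; exact h j
  rw [h3]; exact h2

theorem pair_subseq_q {A : E →L[ℝ] E} {κ v : E} (hv : v ≠ 0) {w n : ℕ → E} {t t' : ℕ → ℝ} {n0 : E}
    (h : ∀ j, S.Pair v (w j) (n j) (t j) (t' j))
    (hR : ∀ j, Rel A κ (w j) (n j) (t j) (t' j)) (hn : Tendsto n atTop (𝓝 n0)) :
    ∃ (φ : ℕ → ℕ) (w0 : E) (t0 t0' : ℝ), StrictMono φ ∧ Tendsto (w ∘ φ) atTop (𝓝 w0) ∧
      S.Pair v w0 n0 t0 t0' ∧ Rel A κ w0 n0 t0 t0' := by
  have hvn : 0 < ‖v‖ := norm_pos_iff.2 hv
  have hr := S.r_pos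
  have hRR := S.R_nonneg
  obtain ⟨B, hB⟩ : ∃ B, ∀ j, ‖n j‖ ≤ B := by
    obtain ⟨B, hB⟩ := (hn.norm).bddAbove_range
    exact ⟨B, fun j => hB ⟨j, rfl⟩⟩
  have hB0 : 0 ≤ B := (norm_nonneg _).trans (hB 0)
  set M : ℝ := (1 + 4 * S.R / S.r) * B / ‖v‖ with hM
  have ht : ∀ j, |t j| ≤ M := by
    intro j
    have h1 := (S.pair_bound hv (h j)).1
    have h2 : |t j| * ‖v‖ ≤ ‖n j‖ + ‖n j - t j • v‖ := by
      rw [← Real.norm_eq_abs, ← norm_smul]
      have : t j • v = n j - (n j - t j • v) := by abel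
      conv_lhs => rw [this]
      exact norm_sub_le _ _
    rw [hM, le_div_iff₀ hvn]
    calc |t j| * ‖v‖ ≤ ‖n j‖ + 4 * S.R / S.r * ‖n j‖ := h2.trans (by linarith)
      _ = (1 + 4 * S.R / S.r) * ‖n j‖ := by ring
      _ ≤ (1 + 4 * S.R / S.r) * B := by
        apply mul_le_mul_of_nonneg_left (hB j) (by positivity)
  have ht' : ∀ j, |t' j| ≤ M := by
    intro j
    have h1 := (S.pair_bound hv (h j)).2
    have h2 : |t' j| * ‖v‖ ≤ ‖n j‖ + ‖n j + t' j • v‖ := by
      rw [← Real.norm_eq_abs, ← norm_smul]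
      have : t' j • v = (n j + t' j • v) - n j := by abel
      conv_lhs => rw [this]
      rw [add_comm ‖n j‖]
      exact norm_sub_le (n j + t' j • v) (n j)
    rw [hM, le_div_iff₀ hvn]
    calc |t' j| * ‖v‖ ≤ ‖n j‖ + 4 * S.R / S.r * ‖n j‖ := h2.trans (by linarith)
      _ = (1 + 4 * S.R / S.r) * ‖n j‖ := by ring
      _ ≤ (1 + 4 * S.R / S.r) * B := by
        apply mul_le_mul_of_nonneg_left (hB j) (by positivity)
  have hcpt : IsCompact (closedBall (0 : E) (2 * S.R) ×ˢ (Icc (-M) M ×ˢ Icc (-M) M)) :=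
    (isCompact_closedBall _ _).prod (isCompact_Icc.prod isCompact_Icc)
  obtain ⟨⟨w0, t0, t0'⟩, -, φ, hφ, hlim⟩ := hcpt.tendsto_subseq
    (x := fun j => (w j, t j, t' j)) (fun j => ⟨by
      rw [mem_closedBall_zero_iff]; exact S.Sp_norm hv (h j).1,
      abs_le.1 (ht j), abs_le.1 (ht' j)⟩)
  have l1 : Tendsto (w ∘ φ) atTop (𝓝 w0) := (continuous_fst.tendsto _).comp hlim
  have l2 : Tendsto (t ∘ φ) atTop (𝓝 t0) :=
    ((continuous_fst.comp continuous_snd).tendsto _).comp hlim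
  have l3 : Tendsto (t' ∘ φ) atTop (𝓝 t0') :=
    ((continuous_snd.comp continuous_snd).tendsto _).comp hlim
  have l4 : Tendsto (n ∘ φ) atTop (𝓝 n0) := hn.comp hφ.tendsto_atTop
  refine ⟨φ, w0, t0, t0', hφ, l1, ?_, ?_⟩
  · exact S.pair_closed hv (fun j => h (φ j)) tendsto_const_nhds l1 l4 l2 l3
  · exact rel_limit_q (fun j => hR (φ j)) l1 l4 l2 l3

theorem gam_continuous_q {v : E} (hv : v ≠ 0) : Continuous (S.gam v) := by
  have hr := S.r_pos
  have : LipschitzWith ⟨2 / S.r, by positivity⟩ (S.gam v) := by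
    apply LipschitzWith.of_dist_le_mul
    intro x y
    have h1 := S.gam_add_le_q hv y (x - y)
    have h2 := S.gam_add_le_q hv x (y - x)
    rw [add_sub_cancel] at h1 h2
    have h3 := S.gam_le_norm_q hv (x - y)
    have h4 := S.gam_le_norm_q hv (y - x)
    rw [norm_sub_rev] at h4
    rw [Real.dist_eq, dist_eq_norm]
    show _ ≤ 2 / S.r * ‖x - y‖
    rw [abs_le]
    constructor <;> linarith
  exact this.continuous

theorem gam_eq_one_q {v w : E} (hv : v ≠ 0) (hw : w ∈ S.bd v) : S.gam v w = 1 := by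
  apply le_antisymm (S.gam_of_mem_q hv hw.1)
  by_contra hlt
  push Not at hlt
  rcases (S.gam_nonneg_q v w).lt_or_eq with hpos | h0
  · have h1 : 1 < (S.gam v w)⁻¹ := (one_lt_inv₀ hpos).2 hlt
    apply hw.2 _ h1
    rw [← lift_self_q (v := v) (w := (S.gam v w)⁻¹ • w)
      (by rw [inner_smul_right, hw.1.1, mul_zero]), ← S.gam_le_one_q hv,
      S.gam_smul_q _ _ (by positivity), inv_mul_cancel₀ hpos.ne']
  · apply hw.2 2 one_lt_two
    rw [← lift_self_q (v := v) (w := (2 : ℝ) • w)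
      (by rw [inner_smul_right, hw.1.1, mul_zero]), ← S.gam_le_one_q hv,
      S.gam_smul_q _ _ (by positivity), ← h0, mul_zero]
    exact zero_le_one

/-! ### T3: data are dense (Rademacher). See the proof text, §1. -/
theorem dat_dense {v0 : E} (hv0 : v0 ≠ 0) {ε : ℝ} (hε : 0 < ε) :
    ∃ (v : E) (A : E →L[ℝ] E) (κ : E), ‖v - v0‖ < ε ∧ v ≠ 0 ∧ S.Dat univ v A κ := by
  obtain ⟨ρ1, hρ1, L1, hL1⟩ := S.lsup_lip hv0
  obtain ⟨ρ2, hρ2, L2, hL2⟩ := S.gam_lip hv0
  obtain ⟨L3, hL3, hCm⟩ := S.C_move_q hv0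
  have h0 : 0 < ‖v0‖ := norm_pos_iff.2 hv0
  set ρ : ℝ := min (min ρ1 ρ2) (min (‖v0‖ / 2) ε) with hρ
  have hρpos : 0 < ρ := lt_min (lt_min hρ1 hρ2) (lt_min (by positivity) hε)
  have hρ_1 : ρ ≤ ρ1 := (min_le_left _ _).trans (min_le_left _ _)
  have hρ_2 : ρ ≤ ρ2 := (min_le_left _ _).trans (min_le_right _ _)
  have hρ_3 : ρ ≤ ‖v0‖ / 2 := (min_le_right _ _).trans (min_le_left _ _)
  have hρ_4 : ρ ≤ ε := (min_le_right _ _).trans (min_le_right _ _)
  -- Lipschitz functions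
  have lipC : LipschitzOnWith ⟨L3, hL3.le⟩ S.C (ball v0 ρ) := by
    apply LipschitzOnWith.of_dist_le_mul
    intro x hx y hy
    rw [dist_eq_norm, dist_eq_norm]
    exact hCm x (ball_subset_ball hρ_3 hx) y (ball_subset_ball hρ_3 hy)
  have liph : LipschitzWith ⟨S.R, S.R_nonneg⟩ S.h := by
    apply LipschitzWith.of_dist_le_mul
    intro x y
    rw [Real.dist_eq, dist_eq_norm]
    exact S.h_lip x y
  have aC : ∀ᵐ v ∂(volume : Measure E), v ∈ ball v0 ρ → DifferentiableAt ℝ S.C v := by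
    filter_upwards [lipC.ae_differentiableWithinAt_of_mem (μ := (volume : Measure E))] with v hv hm
    exact (hv hm).differentiableAt (isOpen_ball.mem_nhds hm)
  have ah : ∀ᵐ v ∂(volume : Measure E), DifferentiableAt ℝ S.h v := liph.ae_differentiableAt
  have al : ∀ᵐ p ∂((volume : Measure E).prod (volume : Measure E)),
      p ∈ ball v0 ρ ×ˢ ball (0 : E) 2 →
      DifferentiableAt ℝ (fun p : E × E => S.lsup p.1 p.2) p := by
    have hlip : LipschitzOnWith L1 (fun p : E × E => S.lsup p.1 p.2) (ball v0 ρ ×ˢ ball 0 2) :=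
      hL1.mono (prod_mono (ball_subset_ball hρ_1) subset_rfl)
    filter_upwards [hlip.ae_differentiableWithinAt_of_mem
      (μ := (volume : Measure E).prod (volume : Measure E))] with v hv hm
    exact (hv hm).differentiableAt ((isOpen_ball.prod isOpen_ball).mem_nhds hm)
  have ag : ∀ᵐ p ∂((volume : Measure E).prod (volume : Measure E)),
      p ∈ ball v0 ρ ×ˢ ball (0 : E) 2 →
      DifferentiableAt ℝ (fun p : E × E => S.gam p.1 p.2) p := by
    have hlip : LipschitzOnWith L2 (fun p : E × E => S.gam p.1 p.2) (ball v0 ρ ×ˢ ball 0 2) :=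
      hL2.mono (prod_mono (ball_subset_ball hρ_2) subset_rfl)
    filter_upwards [hlip.ae_differentiableWithinAt_of_mem
      (μ := (volume : Measure E).prod (volume : Measure E))] with v hv hm
    exact (hv hm).differentiableAt ((isOpen_ball.prod isOpen_ball).mem_nhds hm)
  have al' := Measure.ae_ae_of_ae_prod al
  have ag' := Measure.ae_ae_of_ae_prod ag
  have hall := (aC.and ah).and (al'.and ag')
  obtain ⟨v, hvU, ⟨hvC, hvh⟩, hvl, hvg⟩ := (Measure.dense_of_ae hall).inter_open_nonempty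
    (ball v0 ρ) isOpen_ball ⟨v0, mem_ball_self hρpos⟩
  have hCv := hvC hvU
  have hv : v ≠ 0 := ball_half_ne_q hv0 (ball_subset_ball hρ_3 hvU)
  obtain ⟨k, hkK, hkh⟩ := S.h_att v
  set κ := k - S.C v with hκdef
  have hκ : S.C v + κ ∈ S.F v := by
    rw [hκdef, add_sub_cancel]; exact ⟨hkK, hkh⟩
  set A := ContinuousLinearMap.adjoint (fderiv ℝ S.C v) with hA
  refine ⟨v, A, κ, ?_, hv, hκ, ?_, ?_⟩
  · rw [mem_ball, dist_eq_norm] at hvU
    exact hvU.trans_le hρ_4
  · -- all `n`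
    -- points of the ball
    have key : ∀ n ∈ ball (0 : E) 2, ∃ (w : E) (t t' : ℝ), S.Pair v w n t t' ∧ Rel A κ w n t t' := by
      intro n hn
      have hcl := (Measure.dense_of_ae hvl).open_subset_closure_inter
        (isOpen_ball (x := (0 : E)) (ε := 2)) hn
      obtain ⟨x, hx, hxlim⟩ := mem_closure_iff_seq_limit.1 hcl
      have hx' : ∀ j, ∃ (w : E) (t t' : ℝ), S.Pair v w (x j) t t' ∧ Rel A κ w (x j) t t' := by
        intro j
        exact S.pair_of_diff_n hv hCv hvh hκ ((hx j).2 ⟨hvU, (hx j).1⟩)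
      choose w t t' hP hRel using hx'
      obtain ⟨φ, w0, t0, t0', -, -, h1, h2⟩ := S.pair_subseq_q hv hP hRel hxlim
      exact ⟨w0, t0, t0', h1, h2⟩
    intro n
    obtain ⟨w, t, t', hP, hRel⟩ := key ((‖n‖ + 1)⁻¹ • n) (by
      rw [mem_ball_zero_iff, norm_smul, norm_inv, Real.norm_of_nonneg (by positivity)]
      have h1 : 0 < ‖n‖ + 1 := by positivity
      rw [inv_mul_lt_iff₀ h1]
      linarith [norm_nonneg n])
    have hc : 0 < ‖n‖ + 1 := by positivity
    have hP' := S.pair_nsmul hc.le hP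
    rw [smul_smul, mul_inv_cancel₀ hc.ne', one_smul] at hP'
    refine ⟨w, _, _, hP', ?_, mem_univ _⟩
    unfold Rel at hRel ⊢
    have e1 : (2 : ℝ) • A n = (‖n‖ + 1) • ((2 : ℝ) • A ((‖n‖ + 1)⁻¹ • n)) := by
      rw [map_smul, smul_comm (2 : ℝ), smul_smul, mul_inv_cancel₀ hc.ne', one_smul]
    rw [e1, hRel, smul_add, smul_smul, smul_smul]
    congr 2 <;> ring
  · -- all boundary points
    intro w hw
    have hw0 : w ≠ 0 := by
      intro h
      apply hw.2 2 one_lt_two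
      rw [h, smul_zero]
      exact S.zero_mem_Sp_q hv
    have hwn : 0 < ‖w‖ := norm_pos_iff.2 hw0
    set e0 : E := ‖w‖⁻¹ • w with he0
    have he0n : ‖e0‖ = 1 := by
      rw [he0, norm_smul, norm_inv, norm_norm, inv_mul_cancel₀ hwn.ne']
    have he0orth : ⟪v, e0⟫ = 0 := by
      rw [he0, inner_smul_right, hw.1.1, mul_zero]
    have he0lift : lift v v e0 = e0 := lift_self_q he0orth
    have he0ne : e0 ≠ 0 := by
      intro h; rw [h, norm_zero] at he0n; exact zero_ne_one he0n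
    have hopen : IsOpen (ball (0 : E) 2 ∩ {x | lift v v x ≠ 0}) :=
      isOpen_ball.inter (isOpen_ne_fun (continuous_lift_q v) continuous_const)
    have hmem : e0 ∈ ball (0 : E) 2 ∩ {x | lift v v x ≠ 0} := by
      refine ⟨?_, ?_⟩
      · rw [mem_ball_zero_iff, he0n]; norm_num
      · show lift v v e0 ≠ 0
        rw [he0lift]; exact he0ne
    have hcl := (Measure.dense_of_ae hvg).open_subset_closure_inter hopen hmem
    obtain ⟨x, hx, hxlim⟩ := mem_closure_iff_seq_limit.1 hcl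
    have hx' : ∀ j, ∃ (n : E) (t t' : ℝ), ⟪v, n⟫ = 0 ∧
        ⟪n, (S.gam v (x j))⁻¹ • lift v v (x j)⟫ = 1 ∧
        S.Pair v ((S.gam v (x j))⁻¹ • lift v v (x j)) n t t' ∧
        Rel A κ ((S.gam v (x j))⁻¹ • lift v v (x j)) n t t' := by
      intro j
      exact S.pair_of_diff_w hv (hx j).1.2 hCv hvh hκ ((hx j).2 ⟨hvU, (hx j).1.1⟩)
    choose n t t' hn0 hn1 hP hRel using hx'
    set wj : ℕ → E := fun j => (S.gam v (x j))⁻¹ • lift v v (x j) with hwj
    have hr := S.r_pos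
    have hnb : ∀ j, ‖n j‖ ≤ 2 / S.r := by
      intro j
      rcases (norm_nonneg (n j)).lt_or_eq with hpos | hz
      · have h1 : (S.r / 2 / ‖n j‖) • n j ∈ S.Sp v := by
          apply S.Sp_ball hv
          · rw [inner_smul_right, hn0, mul_zero]
          · rw [norm_smul, Real.norm_of_nonneg (by positivity), div_mul_cancel₀ _ hpos.ne']
        have h2 := S.pair_max hv (hP j) _ h1
        rw [hn1 j, inner_smul_right, real_inner_self_eq_norm_sq] at h2
        have h3 : S.r / 2 / ‖n j‖ * ‖n j‖ ^ 2 = S.r / 2 * ‖n j‖ := by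
          field_simp
        rw [h3] at h2
        rw [le_div_iff₀ hr]
        linarith
      · rw [← hz]; positivity
    obtain ⟨n0, -, φ, hφ, hnlim⟩ := (isCompact_closedBall (0 : E) (2 / S.r)).tendsto_subseq
      (x := n) (fun j => by rw [mem_closedBall_zero_iff]; exact hnb j)
    obtain ⟨ψ, w0, t0, t0', hψ, hwlim, hP0, hR0⟩ := S.pair_subseq_q hv
      (w := wj ∘ φ) (n := n ∘ φ) (t := t ∘ φ) (t' := t' ∘ φ)
      (fun j => hP (φ j)) (fun j => hRel (φ j)) hnlim
    -- the limit of `wj` is `w`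
    have hwl : Tendsto wj atTop (𝓝 w) := by
      have hg0 : S.gam v e0 = ‖w‖⁻¹ := by
        rw [he0, S.gam_smul_q _ _ (inv_nonneg.2 hwn.le), S.gam_eq_one_q hv hw, mul_one]
      have l1 : Tendsto (fun j => (S.gam v (x j))⁻¹) atTop (𝓝 (S.gam v e0)⁻¹) :=
        (((S.gam_continuous_q hv).tendsto e0).comp hxlim).inv₀ (by rw [hg0]; positivity)
      have l2 : Tendsto (fun j => lift v v (x j)) atTop (𝓝 (lift v v e0)) :=
        ((continuous_lift_q v).tendsto e0).comp hxlim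
      have l3 := l1.smul l2
      rw [hg0, he0lift, inv_inv, he0, smul_smul, mul_inv_cancel₀ hwn.ne', one_smul] at l3
      exact l3
    have hw0eq : w0 = w := by
      apply tendsto_nhds_unique hwlim
      exact (hwl.comp hφ.tendsto_atTop).comp hψ.tendsto_atTop
    subst hw0eq
    refine ⟨n0, t0, t0', ?_, hP0, hR0, mem_univ _⟩
    have l4 : Tendsto (fun j => ⟪n (φ j), wj (φ j)⟫) atTop (𝓝 ⟪n0, w0⟫) :=
      hnlim.inner (hwl.comp hφ.tendsto_atTop)
    have l5 : (fun j => ⟪n (φ j), wj (φ j)⟫) = fun _ => (1 : ℝ) := by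
      funext j; exact hn1 (φ j)
    rw [l5] at l4
    exact tendsto_nhds_unique l4 tendsto_const_nhds

end Setting
end Pool.Agent.Helper18.BL
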