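import Mathlib
import Pool.Agent.Helper18.BL.PlanarDefs

set_option autoImplicit false

open Set MeasureTheory Filter Topology Metric

namespace Pool.Agent.Helper18.BL

/-! ### PB1: polar bodies -/

private lemma IsBody.nhds {B : Set (ℝ × ℝ)} (hB : IsBody B) : B ∈ 𝓝 (0 : ℝ × ℝ) :=
  mem_interior_iff_mem_nhds.1 hB.zero_int

theorem IsBody.mem_iff_gauge {B : Set (ℝ × ℝ)} (hB : IsBody B) (z : ℝ × ℝ) :
    z ∈ B ↔ gauge B z ≤ 1 := by
  rw [gauge_le_one_iff_mem_closure hB.convex hB.nhds, hB.compact.isClosed.closure_eq]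

theorem IsBody.gauge_pos {B : Set (ℝ × ℝ)} (hB : IsBody B) {z : ℝ × ℝ} (hz : z ≠ 0) :
    0 < gauge B z :=
  (_root_.gauge_pos (absorbent_nhds_zero hB.nhds)
    (NormedSpace.isVonNBounded_of_isBounded ℝ hB.compact.isBounded)).2 hz

theorem IsBody.gauge_neg {B : Set (ℝ × ℝ)} (hB : IsBody B) (z : ℝ × ℝ) :
    gauge B (-z) = gauge B z := _root_.gauge_neg hB.symm z

theorem IsBody.gauge_cont {B : Set (ℝ × ℝ)} (hB : IsBody B) : Continuous (gauge B) :=
  continuous_gauge hB.convex hB.nhds

theorem IsBody.gauge_add {B : Set (ℝ × ℝ)} (hB : IsBody B) (x y : ℝ × ℝ) :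
    gauge B (x + y) ≤ gauge B x + gauge B y :=
  gauge_add_le hB.convex (absorbent_nhds_zero hB.nhds) x y

theorem IsBody.gauge_smul {B : Set (ℝ × ℝ)} (hB : IsBody B) (c : ℝ) (x : ℝ × ℝ) :
    gauge B (c • x) = |c| * gauge B x := by
  rcases le_total 0 c with h | h
  · rw [gauge_smul_of_nonneg h, abs_of_nonneg h, smul_eq_mul]
  · have h1 : c • x = -((-c) • x) := by simp
    rw [h1, hB.gauge_neg, gauge_smul_of_nonneg (by linarith : 0 ≤ -c), abs_of_nonpos h, smul_eq_mul]

private lemma pr_smul_left (c : ℝ) (n z : ℝ × ℝ) : pr (c • n) z = c * pr n z := by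
  simp [pr]; ring

private lemma pr_smul_right (c : ℝ) (n z : ℝ × ℝ) : pr n (c • z) = c * pr n z := by
  simp [pr]; ring

private lemma pr_comm' (n z : ℝ × ℝ) : pr n z = pr z n := by
  simp [pr]; ring

private lemma pr_cont_right (n : ℝ × ℝ) : Continuous (fun z => pr n z) := by
  unfold pr; fun_prop

private lemma pr_cont_left (z : ℝ × ℝ) : Continuous (fun n => pr n z) := by
  unfold pr; fun_prop

theorem IsBody.plr {B : Set (ℝ × ℝ)} (hB : IsBody B) : IsBody (plr B) := by
  obtain ⟨r, hr, hball⟩ := Metric.mem_nhds_iff.1 hB.nhds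
  obtain ⟨M, hM⟩ := hB.compact.isBounded.exists_norm_le
  have hclosed : IsClosed (Pool.Agent.Helper18.BL.plr B) := by
    have : Pool.Agent.Helper18.BL.plr B = ⋂ z ∈ B, {n | pr n z ≤ 1} := by
      ext n; simp [Pool.Agent.Helper18.BL.plr]
    rw [this]
    exact isClosed_biInter fun z _ => isClosed_le (pr_cont_left z) continuous_const
  have hbdd : Bornology.IsBounded (Pool.Agent.Helper18.BL.plr B) := by
    rw [isBounded_iff_forall_norm_le]
    refine ⟨2 / r, fun n hn => ?_⟩
    have hmem : ∀ z : ℝ × ℝ, ‖z‖ < r → z ∈ B := fun z hz => hball (by simpa using hz)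
    have h1 : |n.1| * (r / 2) ≤ 1 := by
      rcases le_total 0 n.1 with h | h
      · have := hn ((r / 2, 0) : ℝ × ℝ) (hmem _ (by
          rw [Prod.norm_def]; simp [abs_of_pos hr]; linarith))
        simp only [pr] at this
        rw [abs_of_nonneg h]; linarith
      · have := hn ((-(r / 2), 0) : ℝ × ℝ) (hmem _ (by
          rw [Prod.norm_def]; simp [abs_of_pos hr]; linarith))
        simp only [pr] at this
        rw [abs_of_nonpos h]; linarith
    have h2 : |n.2| * (r / 2) ≤ 1 := by
      rcases le_total 0 n.2 with h | h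
      · have := hn ((0, r / 2) : ℝ × ℝ) (hmem _ (by
          rw [Prod.norm_def]; simp [abs_of_pos hr]; linarith))
        simp only [pr] at this
        rw [abs_of_nonneg h]; linarith
      · have := hn ((0, -(r / 2)) : ℝ × ℝ) (hmem _ (by
          rw [Prod.norm_def]; simp [abs_of_pos hr]; linarith))
        simp only [pr] at this
        rw [abs_of_nonpos h]; linarith
    rw [Prod.norm_def]
    apply max_le
    · rw [Real.norm_eq_abs, le_div_iff₀ hr]; linarith
    · rw [Real.norm_eq_abs, le_div_iff₀ hr]; linarith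
  refine ⟨?_, Metric.isCompact_of_isClosed_isBounded hclosed hbdd, ?_, ?_⟩
  · intro n hn m hm a b ha hb hab z hz
    have h1 := hn z hz
    have h2 := hm z hz
    have : pr (a • n + b • m) z = a * pr n z + b * pr m z := by simp [pr]; ring
    rw [this]
    nlinarith
  · intro n hn z hz
    have := hn (-z) (hB.symm z hz)
    simp only [pr] at this ⊢
    simp only [Prod.fst_neg, Prod.snd_neg] at this ⊢
    linarith
  · rw [mem_interior_iff_mem_nhds, Metric.mem_nhds_iff]
    have hM0 : 0 ≤ M := (norm_nonneg _).trans (hM 0 (interior_subset hB.zero_int))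
    refine ⟨1 / (2 * (M + 1)), by positivity, fun n hn z hz => ?_⟩
    rw [mem_ball_zero_iff, Prod.norm_def] at hn
    have hz1 := hM z hz
    rw [Prod.norm_def] at hz1
    have a1 : |n.1| ≤ 1 / (2 * (M + 1)) := ((le_max_left _ _).trans_lt hn).le
    have a2 : |n.2| ≤ 1 / (2 * (M + 1)) := ((le_max_right _ _).trans_lt hn).le
    have b1 : |z.1| ≤ M := (le_max_left _ _).trans hz1
    have b2 : |z.2| ≤ M := (le_max_right _ _).trans hz1
    have c1 : n.1 * z.1 ≤ 1 / (2 * (M + 1)) * M := by
      calc n.1 * z.1 ≤ |n.1 * z.1| := le_abs_self _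
        _ = |n.1| * |z.1| := abs_mul _ _
        _ ≤ _ := mul_le_mul a1 b1 (abs_nonneg _) (by positivity)
    have c2 : n.2 * z.2 ≤ 1 / (2 * (M + 1)) * M := by
      calc n.2 * z.2 ≤ |n.2 * z.2| := le_abs_self _
        _ = |n.2| * |z.2| := abs_mul _ _
        _ ≤ _ := mul_le_mul a2 b2 (abs_nonneg _) (by positivity)
    have c3 : 1 / (2 * (M + 1)) * M ≤ 1 / 2 := by
      rw [div_mul_eq_mul_div, div_le_div_iff₀ (by positivity) (by norm_num)]; linarith
    unfold pr
    linarith

theorem IsBody.plr_plr {B : Set (ℝ × ℝ)} (hB : IsBody B) : Pool.Agent.Helper18.BL.plr (Pool.Agent.Helper18.BL.plr B) = B := by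
  apply Subset.antisymm
  · intro z hz
    by_contra hzB
    obtain ⟨f, c, h1, h2⟩ := geometric_hahn_banach_closed_point hB.convex hB.compact.isClosed hzB
    have hf : ∀ x : ℝ × ℝ, f x = pr (f (1, 0), f (0, 1)) x := by
      intro x
      have hx : x = x.1 • ((1, 0) : ℝ × ℝ) + x.2 • ((0, 1) : ℝ × ℝ) := by ext <;> simp
      conv_lhs => rw [hx]
      rw [map_add, map_smul, map_smul]
      simp [pr]; ring
    have h0 : 0 < c := by
      have := h1 0 (interior_subset hB.zero_int)
      simpa using this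
    have hn : (c⁻¹ • ((f (1, 0), f (0, 1)) : ℝ × ℝ)) ∈ Pool.Agent.Helper18.BL.plr B := by
      intro x hx
      rw [pr_smul_left, ← hf, inv_mul_le_iff₀ h0]
      linarith [h1 x hx]
    have h3 := hz _ hn
    rw [pr_comm', pr_smul_left, ← hf, inv_mul_le_iff₀ h0] at h3
    linarith
  · intro z hz n hn
    rw [pr_comm']
    exact hn z hz

/-- the gauge of the polar is the support function -/
theorem IsBody.gauge_plr {B : Set (ℝ × ℝ)} (hB : IsBody B) (n : ℝ × ℝ) :
    IsGreatest ((fun z => pr n z) '' B) (gauge (Pool.Agent.Helper18.BL.plr B) n) := by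
  have hne : B.Nonempty := ⟨0, interior_subset hB.zero_int⟩
  obtain ⟨z0, hz0, hmax⟩ := hB.compact.exists_isMaxOn hne (pr_cont_right n).continuousOn
  have hle : ∀ z ∈ B, pr n z ≤ pr n z0 := fun z hz => hmax hz
  have hM0 : 0 ≤ pr n z0 := by
    have := hle 0 (interior_subset hB.zero_int)
    simpa [pr] using this
  have hub : ∀ z ∈ B, pr n z ≤ gauge (Pool.Agent.Helper18.BL.plr B) n := by
    intro z hz
    by_cases hn : n = 0
    · subst hn; simp [pr]
    · have hg := hB.plr.gauge_pos hn
      have h1 : ((gauge (Pool.Agent.Helper18.BL.plr B) n)⁻¹ • n) ∈ Pool.Agent.Helper18.BL.plr B := by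
        rw [hB.plr.mem_iff_gauge, hB.plr.gauge_smul, abs_of_pos (inv_pos.2 hg),
          inv_mul_cancel₀ hg.ne']
      have h2 := h1 z hz
      rw [pr_smul_left, inv_mul_le_iff₀ hg] at h2
      linarith
  have hlb : gauge (Pool.Agent.Helper18.BL.plr B) n ≤ pr n z0 := by
    rcases hM0.eq_or_lt with h | h
    · -- n = 0
      have hn : n = 0 := by
        by_contra hn
        have hg := hB.plr.gauge_pos hn
        -- choose small multiple of n in B
        obtain ⟨r, hr, hball⟩ := Metric.mem_nhds_iff.1 hB.nhds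
        have hnn : 0 < ‖n‖ := norm_pos_iff.2 hn
        have hmem : ((r / (2 * ‖n‖)) • n) ∈ B := by
          apply hball
          rw [mem_ball_zero_iff, norm_smul, Real.norm_eq_abs, abs_of_pos (by positivity)]
          rw [div_mul_eq_mul_div, div_lt_iff₀ (by positivity)]
          nlinarith
        have h1 := hle _ hmem
        rw [pr_smul_right, ← h] at h1
        have h2 : 0 < pr n n := by
          unfold pr
          have : n.1 ≠ 0 ∨ n.2 ≠ 0 := by
            by_contra hh
            push Not at hh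
            exact hn (Prod.ext hh.1 hh.2)
          rcases this with h3 | h3
          · have := mul_self_pos.2 h3
            have := mul_self_nonneg n.2
            linarith
          · have := mul_self_pos.2 h3
            have := mul_self_nonneg n.1
            linarith
        have : 0 < r / (2 * ‖n‖) * pr n n := by positivity
        linarith
      subst hn
      rw [gauge_zero]; exact hM0
    · have h1 : ((pr n z0)⁻¹ • n) ∈ Pool.Agent.Helper18.BL.plr B := by
        intro z hz
        rw [pr_smul_left, inv_mul_le_iff₀ h]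
        linarith [hle z hz]
      rw [hB.plr.mem_iff_gauge, hB.plr.gauge_smul, abs_of_pos (inv_pos.2 h),
        inv_mul_le_iff₀ h] at h1
      linarith
  refine ⟨⟨z0, hz0, le_antisymm (hub z0 hz0) hlb⟩, ?_⟩
  rintro _ ⟨z, hz, rfl⟩
  exact hub z hz

/-- the gauge is the support function of the polar -/
theorem IsBody.gauge_eq {B : Set (ℝ × ℝ)} (hB : IsBody B) (z : ℝ × ℝ) :
    IsGreatest ((fun n => pr n z) '' Pool.Agent.Helper18.BL.plr B) (gauge B z) := by
  have h := hB.plr.gauge_plr z
  rw [hB.plr_plr] at h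
  have : (fun n => pr n z) = fun n => pr z n := by funext n; exact pr_comm' n z
  rw [this]
  exact h

end Pool.Agent.Helper18.BL
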