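import Mathlib
import Pool.Agent.Helper18.BL.P1

set_option autoImplicit false

open Set MeasureTheory Filter Topology Metric

namespace Pool.Agent.Helper18.BL

/-! ### PB2: linear invariance -/
theorem IsBody.image {B : Set (ℝ × ℝ)} (hB : IsBody B) (T : (ℝ × ℝ) ≃ₗ[ℝ] (ℝ × ℝ)) :
    IsBody (T '' B) := by
  have hc : Continuous T := T.toLinearMap.continuous_of_finiteDimensional
  refine ⟨hB.convex.linear_image T.toLinearMap, hB.compact.image hc, ?_, ?_⟩
  · rintro _ ⟨z, hz, rfl⟩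
    exact ⟨-z, hB.symm z hz, by simp⟩
  · have hT : IsOpenMap T := T.toContinuousLinearEquiv.toHomeomorph.isOpenMap
    have h := hT.image_interior_subset B
    exact h ⟨0, hB.zero_int, by simp⟩

/-- the transpose -/
private noncomputable def tr (T : (ℝ × ℝ) →ₗ[ℝ] (ℝ × ℝ)) : (ℝ × ℝ) →ₗ[ℝ] (ℝ × ℝ) where
  toFun n := (pr n (T (1, 0)), pr n (T (0, 1)))
  map_add' x y := by ext <;> simp [pr] <;> ring
  map_smul' c x := by ext <;> simp [pr] <;> ring

private lemma pr_tr (T : (ℝ × ℝ) →ₗ[ℝ] (ℝ × ℝ)) (n z : ℝ × ℝ) : pr (tr T n) z = pr n (T z) := by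
  have hz : z = z.1 • ((1, 0) : ℝ × ℝ) + z.2 • ((0, 1) : ℝ × ℝ) := by ext <;> simp
  conv_rhs => rw [hz]
  rw [map_add, map_smul, map_smul]
  simp [tr, pr]; ring

private lemma det_eq (T : (ℝ × ℝ) →ₗ[ℝ] (ℝ × ℝ)) :
    LinearMap.det T = (T (1, 0)).1 * (T (0, 1)).2 - (T (0, 1)).1 * (T (1, 0)).2 := by
  rw [← LinearMap.det_toMatrix (Module.Basis.finTwoProd ℝ), Matrix.det_fin_two]
  simp [LinearMap.toMatrix_apply, Module.Basis.coe_finTwoProd_repr]

private lemma det_tr (T : (ℝ × ℝ) →ₗ[ℝ] (ℝ × ℝ)) : LinearMap.det (tr T) = LinearMap.det T := by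
  rw [det_eq, det_eq]
  simp [tr, pr]
  ring

private lemma plr_image (B : Set (ℝ × ℝ)) (T : (ℝ × ℝ) →ₗ[ℝ] (ℝ × ℝ)) :
    plr (T '' B) = (tr T) ⁻¹' (plr B) := by
  ext n
  simp only [plr, mem_setOf_eq, mem_preimage, forall_mem_image, pr_tr]

theorem MV_image {B : Set (ℝ × ℝ)} (hB : IsBody B) (T : (ℝ × ℝ) ≃ₗ[ℝ] (ℝ × ℝ)) :
    MV (T '' B) = MV B := by
  have hd : LinearMap.det (T : (ℝ × ℝ) →ₗ[ℝ] (ℝ × ℝ)) ≠ 0 := (LinearEquiv.isUnit_det' T).ne_zero
  have h1 : volume (T '' B) = ENNReal.ofReal |LinearMap.det (T : (ℝ × ℝ) →ₗ[ℝ] (ℝ × ℝ))| * volume B :=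
    Measure.addHaar_image_linearMap volume (T : (ℝ × ℝ) →ₗ[ℝ] (ℝ × ℝ)) B
  have h2 : volume (plr (T '' B)) =
      ENNReal.ofReal |(LinearMap.det (T : (ℝ × ℝ) →ₗ[ℝ] (ℝ × ℝ)))⁻¹| * volume (plr B) := by
    have h3 := plr_image B (T : (ℝ × ℝ) →ₗ[ℝ] (ℝ × ℝ))
    have h4 : (T '' B) = ((T : (ℝ × ℝ) →ₗ[ℝ] (ℝ × ℝ)) '' B) := rfl
    rw [h4, h3, Measure.addHaar_preimage_linearMap volume (by rw [det_tr]; exact hd), det_tr]
  unfold MV
  rw [h1, h2, ENNReal.toReal_mul, ENNReal.toReal_mul, ENNReal.toReal_ofReal (abs_nonneg _),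
    ENNReal.toReal_ofReal (abs_nonneg _), abs_inv]
  have hd' : |LinearMap.det (T : (ℝ × ℝ) →ₗ[ℝ] (ℝ × ℝ))| ≠ 0 := abs_ne_zero.2 hd
  field_simp

private lemma pr_cont_left' (z : ℝ × ℝ) : Continuous (fun n => pr n z) := by
  unfold pr; fun_prop

theorem Qf_image {B : Set (ℝ × ℝ)} (hB : IsBody B) (T : (ℝ × ℝ) ≃ₗ[ℝ] (ℝ × ℝ))
    (x y : ℝ × ℝ) : Qf (T '' B) (T x) (T y) = Qf B x y := by
  set T' : (ℝ × ℝ) →ₗ[ℝ] (ℝ × ℝ) := (T : (ℝ × ℝ) →ₗ[ℝ] (ℝ × ℝ)) with hT'
  have hd : LinearMap.det T' ≠ 0 := (LinearEquiv.isUnit_det' T).ne_zero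
  have hd2 : LinearMap.det (tr T') ≠ 0 := by rw [det_tr]; exact hd
  have h4 : (T '' B) = (T' '' B) := rfl
  have h2 : volume (plr (T '' B)) = ENNReal.ofReal |(LinearMap.det T')⁻¹| * volume (plr B) := by
    rw [h4, plr_image, Measure.addHaar_preimage_linearMap volume hd2, det_tr]
  have hmeas : MeasurableSet (plr B) := hB.plr.compact.isClosed.measurableSet
  have hcont : Continuous (fun m : ℝ × ℝ => pr m x * pr m y) :=
    (pr_cont_left' x).mul (pr_cont_left' y)
  have htc : Continuous (tr T') := (tr T').continuous_of_finiteDimensional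
  have h5 : ∫ n in plr (T '' B), pr n (T x) * pr n (T y) =
      |(LinearMap.det T')⁻¹| * ∫ m in plr B, pr m x * pr m y := by
    have h6 := Measure.map_linearMap_addHaar_eq_smul_addHaar (μ := (volume : Measure (ℝ × ℝ))) hd2
    have h7 : ∫ m in plr B, pr m x * pr m y ∂(Measure.map (tr T') volume) =
        ∫ n in (tr T') ⁻¹' (plr B), pr (tr T' n) x * pr (tr T' n) y := by
      rw [setIntegral_map hmeas hcont.aestronglyMeasurable htc.aemeasurable]
    rw [h4, plr_image]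
    have h8 : ∫ n in (tr T') ⁻¹' (plr B), pr n (T x) * pr n (T y) =
        ∫ n in (tr T') ⁻¹' (plr B), pr (tr T' n) x * pr (tr T' n) y := by
      congr 1
      funext n
      rw [pr_tr, pr_tr]; rfl
    rw [h8, ← h7, h6, Measure.restrict_smul, integral_smul_measure, det_tr, smul_eq_mul,
      ENNReal.toReal_ofReal (abs_nonneg _)]
  unfold Qf
  rw [h5, h2, ENNReal.toReal_mul, ENNReal.toReal_ofReal (abs_nonneg _)]
  have hd' : |(LinearMap.det T')⁻¹| ≠ 0 := abs_ne_zero.2 (inv_ne_zero hd)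
  rw [mul_div_mul_left _ _ hd']

private lemma IsBody.vol_pos {B : Set (ℝ × ℝ)} (hB : IsBody B) : 0 < (volume B).toReal := by
  apply ENNReal.toReal_pos
  · have h1 : 0 < volume (interior B) := isOpen_interior.measure_pos volume ⟨0, hB.zero_int⟩
    exact (h1.trans_le (measure_mono interior_subset)).ne'
  · exact hB.compact.measure_lt_top.ne

theorem IsBody.MV_pos {B : Set (ℝ × ℝ)} (hB : IsBody B) : 0 < MV B :=
  mul_pos hB.vol_pos hB.plr.vol_pos

theorem IsBody.Qf_pos {B : Set (ℝ × ℝ)} (hB : IsBody B) {x : ℝ × ℝ} (hx : x ≠ 0) :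
    0 < Qf B x x := by
  unfold Qf
  apply div_pos _ hB.plr.vol_pos
  have hcont : Continuous (fun m : ℝ × ℝ => pr m x * pr m x) :=
    (pr_cont_left' x).mul (pr_cont_left' x)
  have hint : IntegrableOn (fun m : ℝ × ℝ => pr m x * pr m x) (Pool.Agent.Helper18.BL.plr B) :=
    hcont.continuousOn.integrableOn_compact hB.plr.compact
  rw [integral_pos_iff_support_of_nonneg (fun m => mul_self_nonneg _) hint]
  have hmeas : MeasurableSet (Pool.Agent.Helper18.BL.plr B) := hB.plr.compact.isClosed.measurableSet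
  have hopen : IsOpen (interior (Pool.Agent.Helper18.BL.plr B) ∩ {m | pr m x ≠ 0}) :=
    isOpen_interior.inter (isOpen_ne_fun (pr_cont_left' x) continuous_const)
  have hne : (interior (Pool.Agent.Helper18.BL.plr B) ∩ {m | pr m x ≠ 0}).Nonempty := by
    obtain ⟨r, hr, hball⟩ := Metric.isOpen_iff.1 isOpen_interior 0 hB.plr.zero_int
    have hnn : 0 < ‖x‖ := norm_pos_iff.2 hx
    refine ⟨(r / (2 * ‖x‖)) • x, hball ?_, ?_⟩
    · rw [mem_ball_zero_iff, norm_smul, Real.norm_eq_abs, abs_of_pos (by positivity)]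
      rw [div_mul_eq_mul_div, div_lt_iff₀ (by positivity)]
      nlinarith
    · have h2 : 0 < pr x x := by
        unfold pr
        have : x.1 ≠ 0 ∨ x.2 ≠ 0 := by
          by_contra hh
          push Not at hh
          exact hx (Prod.ext hh.1 hh.2)
        rcases this with h3 | h3
        · have := mul_self_pos.2 h3
          have := mul_self_nonneg x.2
          linarith
        · have := mul_self_pos.2 h3
          have := mul_self_nonneg x.1
          linarith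
      have h3 : pr ((r / (2 * ‖x‖)) • x) x = r / (2 * ‖x‖) * pr x x := by
        simp [pr]; ring
      show pr ((r / (2 * ‖x‖)) • x) x ≠ 0
      rw [h3]
      positivity
  have hpos := hopen.measure_pos volume hne
  refine hpos.trans_le ?_
  rw [Measure.restrict_apply' hmeas]
  apply measure_mono
  rintro m ⟨h1, h2⟩
  exact ⟨mul_self_ne_zero.2 h2, interior_subset h1⟩

theorem IsBody.Qf_comm (B : Set (ℝ × ℝ)) (x y : ℝ × ℝ) : Qf B x y = Qf B y x := by
  unfold Qf
  congr 2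
  funext n
  ring

theorem IsBody.Qf_add_left {B : Set (ℝ × ℝ)} (hB : IsBody B) (x y z : ℝ × ℝ) :
    Qf B (x + y) z = Qf B x z + Qf B y z := by
  unfold Qf
  rw [← add_div, ← integral_add]
  · congr 2
    funext n
    simp [pr]; ring
  · exact ((pr_cont_left' x).mul (pr_cont_left' z)).continuousOn.integrableOn_compact hB.plr.compact
  · exact ((pr_cont_left' y).mul (pr_cont_left' z)).continuousOn.integrableOn_compact hB.plr.compact

theorem IsBody.Qf_smul_left {B : Set (ℝ × ℝ)} (hB : IsBody B) (c : ℝ) (x y : ℝ × ℝ) :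
    Qf B (c • x) y = c * Qf B x y := by
  unfold Qf
  rw [← mul_div_assoc, ← integral_const_mul]
  congr 2
  funext n
  simp [pr]; ring

end Pool.Agent.Helper18.BL
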