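import Mathlib
import Pool.Agent.Helper18.BL.P1

set_option autoImplicit false

open Set MeasureTheory Filter Topology Metric

namespace Pool.Agent.Helper18.BL

/-! ### PB3: slope formulas.
Proof: `(x, y) = (a * y, y)`, i.e. for fixed `y ≠ 0` substitute `x = a * y`, then Fubini;
`∫_{|y| ≤ 1/g} |y| dy = g⁻²`, `∫_{|y| ≤ 1/g} |y|³ dy = g⁻⁴ / 2`. -/

private theorem lintegral_slope (f : ℝ × ℝ → ENNReal) (hf : Measurable f) :
    ∫⁻ z, f z = ∫⁻ p : ℝ × ℝ, ENNReal.ofReal |p.2| * f (p.1 * p.2, p.2) := by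
  have hm : Measurable (fun p : ℝ × ℝ => ((p.1 * p.2, p.2) : ℝ × ℝ)) := by fun_prop
  have hm2 : Measurable (fun p : ℝ × ℝ => ENNReal.ofReal |p.2| * f (p.1 * p.2, p.2)) :=
    (by fun_prop : Measurable fun p : ℝ × ℝ => ENNReal.ofReal |p.2|).mul (hf.comp hm)
  rw [Measure.volume_eq_prod, lintegral_prod_symm _ hf.aemeasurable,
    lintegral_prod_symm _ hm2.aemeasurable]
  refine lintegral_congr_ae ?_
  have h0 : ∀ᵐ y : ℝ, y ≠ 0 := by
    simp [ae_iff]
  filter_upwards [h0] with y hy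
  have h1 := Real.smul_map_volume_mul_right hy
  conv_lhs => rw [← h1]
  have hfy : Measurable (fun x => f (x, y)) := hf.comp (by fun_prop)
  have hfy' : Measurable (fun x : ℝ => f (x * y, y)) := hf.comp (by fun_prop)
  rw [lintegral_smul_measure, lintegral_map hfy (by fun_prop), smul_eq_mul,
    lintegral_const_mul _ hfy']

private theorem map_slope :
    Measure.map (fun p : ℝ × ℝ => ((p.1 * p.2, p.2) : ℝ × ℝ))
      ((volume : Measure (ℝ × ℝ)).withDensity (fun p => ENNReal.ofReal |p.2|)) = volume := by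
  have hm : Measurable (fun p : ℝ × ℝ => ((p.1 * p.2, p.2) : ℝ × ℝ)) := by fun_prop
  ext s hs
  rw [Measure.map_apply hm hs, withDensity_apply _ (hm hs),
    ← lintegral_indicator (hm hs)]
  have := lintegral_slope (s.indicator 1) (measurable_one.indicator hs)
  rw [lintegral_indicator_one hs] at this
  rw [this]
  refine lintegral_congr fun p => ?_
  by_cases hp : (p.1 * p.2, p.2) ∈ s
  · have hp' : p ∈ (fun p : ℝ × ℝ => ((p.1 * p.2, p.2) : ℝ × ℝ)) ⁻¹' s := hp
    rw [Set.indicator_of_mem hp', Set.indicator_of_mem hp]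
    simp
  · have hp' : p ∉ (fun p : ℝ × ℝ => ((p.1 * p.2, p.2) : ℝ × ℝ)) ⁻¹' s := hp
    rw [Set.indicator_of_notMem hp', Set.indicator_of_notMem hp]
    simp

private theorem integral_slope (f : ℝ × ℝ → ℝ) (hf : Integrable f) :
    Integrable (fun p : ℝ × ℝ => |p.2| * f (p.1 * p.2, p.2)) ∧
      ∫ z, f z = ∫ p : ℝ × ℝ, |p.2| * f (p.1 * p.2, p.2) := by
  have hm : Measurable (fun p : ℝ × ℝ => ((p.1 * p.2, p.2) : ℝ × ℝ)) := by fun_prop
  have hd : Measurable (fun p : ℝ × ℝ => Real.toNNReal |p.2|) := by fun_prop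
  have h1 : Integrable f (Measure.map (fun p : ℝ × ℝ => ((p.1 * p.2, p.2) : ℝ × ℝ))
      ((volume : Measure (ℝ × ℝ)).withDensity (fun p => ENNReal.ofReal |p.2|))) := by
    rw [map_slope]; exact hf
  have h2 := (integrable_map_measure h1.aestronglyMeasurable hm.aemeasurable).1 h1
  have h3 : Integrable (fun p : ℝ × ℝ => Real.toNNReal |p.2| • f (p.1 * p.2, p.2)) :=
    (integrable_withDensity_iff_integrable_smul hd).1 h2
  have e : ∀ p : ℝ × ℝ, Real.toNNReal |p.2| • f (p.1 * p.2, p.2) =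
      |p.2| * f (p.1 * p.2, p.2) := by
    intro p
    rw [NNReal.smul_def, Real.coe_toNNReal _ (abs_nonneg _), smul_eq_mul]
  refine ⟨by simpa only [e] using h3, ?_⟩
  conv_lhs => rw [← map_slope]
  rw [integral_map hm.aemeasurable h1.aestronglyMeasurable]
  have h4 : ∫ p : ℝ × ℝ, f (p.1 * p.2, p.2)
      ∂((volume : Measure (ℝ × ℝ)).withDensity (fun p => ENNReal.ofReal |p.2|)) =
      ∫ p : ℝ × ℝ, Real.toNNReal |p.2| • f (p.1 * p.2, p.2) :=
    integral_withDensity_eq_integral_smul hd _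
  rw [h4]
  exact integral_congr_ae (Eventually.of_forall e)

private theorem abs_integral (k : ℕ) (hk : Even k) {r : ℝ} (hr : 0 ≤ r) :
    ∫ y in (-r)..r, |y| * y ^ k = 2 / (k + 2) * r ^ (k + 2) := by
  have hI : ∀ a b : ℝ, IntervalIntegrable (fun y : ℝ => |y| * y ^ k) volume a b := fun a b =>
    (by fun_prop : Continuous fun y : ℝ => |y| * y ^ k).intervalIntegrable a b
  rw [← intervalIntegral.integral_add_adjacent_intervals (hI (-r) 0) (hI 0 r)]
  have h1 : ∫ y in (0 : ℝ)..r, |y| * y ^ k = r ^ (k + 2) / (k + 2) := by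
    have : ∫ y in (0 : ℝ)..r, |y| * y ^ k = ∫ y in (0 : ℝ)..r, y ^ (k + 1) := by
      apply intervalIntegral.integral_congr
      intro y hy
      rw [uIcc_of_le hr] at hy
      simp only
      rw [abs_of_nonneg hy.1]; ring
    rw [this, integral_pow]
    push_cast
    simp
    ring
  have h2 : ∫ y in (-r)..0, |y| * y ^ k = r ^ (k + 2) / (k + 2) := by
    rw [← h1]
    have := intervalIntegral.integral_comp_neg (a := -r) (b := 0) (fun y : ℝ => |y| * y ^ k)
    simp only [abs_neg, hk.neg_pow, neg_neg, neg_zero] at this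
    exact this
  rw [h1, h2]
  ring

private theorem slope_general {B : Set (ℝ × ℝ)} (hB : IsBody B) (k : ℕ) (hk : Even k)
    (h : ℝ × ℝ → ℝ) (hc : Continuous h) (hh : ∀ (c : ℝ) (z : ℝ × ℝ), h (c • z) = c ^ k * h z) :
    Integrable (fun a : ℝ => h (a, 1) * (2 / (k + 2) * (gauge B (a, 1))⁻¹ ^ (k + 2))) ∧
      ∫ z in B, h z = ∫ a : ℝ, h (a, 1) * (2 / (k + 2) * (gauge B (a, 1))⁻¹ ^ (k + 2)) := by
  have hBm : MeasurableSet B := hB.compact.measurableSet
  have hint : Integrable (B.indicator h) :=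
    (integrable_indicator_iff hBm).2 (hc.continuousOn.integrableOn_compact hB.compact)
  obtain ⟨h1, h2⟩ := integral_slope _ hint
  have hg : ∀ a : ℝ, 0 < gauge B (a, 1) := fun a => hB.gauge_pos (by
    intro h0; simpa using congrArg Prod.snd h0)
  have hinner : ∀ a : ℝ, ∫ y : ℝ, |y| * B.indicator h (a * y, y) =
      h (a, 1) * (2 / (k + 2) * (gauge B (a, 1))⁻¹ ^ (k + 2)) := by
    intro a
    set r := (gauge B (a, 1))⁻¹ with hr
    have hr0 : 0 < r := inv_pos.2 (hg a)
    have hmem : ∀ y : ℝ, (a * y, y) ∈ B ↔ y ∈ Icc (-r) r := by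
      intro y
      have e : ((a * y, y) : ℝ × ℝ) = y • ((a, 1) : ℝ × ℝ) := by
        ext <;> simp [mul_comm]
      rw [hB.mem_iff_gauge, e, hB.gauge_smul, mem_Icc, ← abs_le, hr, ← one_div,
        le_div_iff₀ (hg a)]
    have e1 : ∀ y : ℝ, |y| * B.indicator h (a * y, y) =
        (Icc (-r) r).indicator (fun y => h (a, 1) * (|y| * y ^ k)) y := by
      intro y
      by_cases hy : y ∈ Icc (-r) r
      · rw [indicator_of_mem hy, indicator_of_mem ((hmem y).2 hy)]
        have e : ((a * y, y) : ℝ × ℝ) = y • ((a, 1) : ℝ × ℝ) := by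
          ext <;> simp [mul_comm]
        rw [e, hh]; ring
      · rw [indicator_of_notMem hy, indicator_of_notMem (fun h' => hy ((hmem y).1 h'))]
        simp
    rw [integral_congr_ae (Eventually.of_forall e1), integral_indicator measurableSet_Icc,
      integral_Icc_eq_integral_Ioc, ← intervalIntegral.integral_of_le (by linarith),
      intervalIntegral.integral_const_mul, abs_integral k hk hr0.le]
  rw [Measure.volume_eq_prod] at h1
  have h3 := h1.integral_prod_left
  simp only [hinner] at h3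
  refine ⟨h3, ?_⟩
  rw [← integral_indicator hBm, h2, Measure.volume_eq_prod, integral_prod _ h1]
  exact integral_congr_ae (Eventually.of_forall hinner)

theorem vol_slope {B : Set (ℝ × ℝ)} (hB : IsBody B) :
    Integrable (fun a : ℝ => (gauge B (a, 1))⁻¹ ^ 2) ∧
      (volume B).toReal = ∫ a : ℝ, (gauge B (a, 1))⁻¹ ^ 2 := by
  obtain ⟨h1, h2⟩ := slope_general hB 0 (by simp) (fun _ => 1) continuous_const (by simp)
  have e : ∀ a : ℝ, (1 : ℝ) * (2 / ((0 : ℕ) + 2) * (gauge B (a, 1))⁻¹ ^ (0 + 2)) =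
      (gauge B (a, 1))⁻¹ ^ 2 := by
    intro a; norm_num
  simp only [e] at h1 h2
  refine ⟨h1, ?_⟩
  rw [← h2]
  simp [Measure.real]

theorem int_slope {B : Set (ℝ × ℝ)} (hB : IsBody B) (x y : ℝ × ℝ) :
    Integrable (fun a : ℝ => pr (a, 1) x * pr (a, 1) y * (gauge B (a, 1))⁻¹ ^ 4) ∧
      ∫ z in B, pr z x * pr z y =
        1 / 2 * ∫ a : ℝ, pr (a, 1) x * pr (a, 1) y * (gauge B (a, 1))⁻¹ ^ 4 := by
  obtain ⟨h1, h2⟩ := slope_general hB 2 (by simp) (fun z => pr z x * pr z y)
    (by unfold pr; fun_prop) (by intro c z; simp [pr]; ring)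
  have e : ∀ a : ℝ, pr (a, 1) x * pr (a, 1) y *
      (2 / ((2 : ℕ) + 2) * (gauge B (a, 1))⁻¹ ^ (2 + 2)) =
      1 / 2 * (pr (a, 1) x * pr (a, 1) y * (gauge B (a, 1))⁻¹ ^ 4) := by
    intro a; norm_num; ring
  simp only [e] at h1 h2
  refine ⟨?_, ?_⟩
  · have := h1.const_mul 2
    refine this.congr (Eventually.of_forall fun a => ?_)
    simp only
    ring
  · rw [h2, integral_const_mul]

end Pool.Agent.Helper18.BL
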