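import Mathlib
import Pool.Agent.Helper76.BL.Body

set_option autoImplicit false

open Set MeasureTheory Filter Topology Metric

namespace Pool.Agent.Helper18.BL

open Pool.Agent.Helper76.BL

/-- the linear map `z ↦ (⟨n, z⟩, z₂)` -/
private noncomputable def sh (n : ℝ × ℝ) (hn : n.1 ≠ 0) : (ℝ × ℝ) ≃ₗ[ℝ] (ℝ × ℝ) where
  toFun z := (pr n z, z.2)
  map_add' x y := by ext <;> simp [pr]; ring
  map_smul' c x := by ext <;> simp [pr]; ring
  invFun z := ((z.1 - n.2 * z.2) / n.1, z.2)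
  left_inv z := by
    ext
    · simp [pr]; field_simp
    · simp
  right_inv z := by
    ext
    · simp [pr]; field_simp; ring
    · simp

private lemma sh_apply (n : ℝ × ℝ) (hn : n.1 ≠ 0) (z : ℝ × ℝ) : sh n hn z = (pr n z, z.2) := rfl

/-- a tip frame -/
private lemma tip_frame {B : Set (ℝ × ℝ)} (hB : IsBody B) :
    ∃ (n : ℝ × ℝ) (hn : n.1 ≠ 0), ((1 : ℝ), (0 : ℝ)) ∈ sh n hn '' B ∧
      ∀ z ∈ sh n hn '' B, |z.1| ≤ 1 := by
  have h10 : ((1 : ℝ), (0 : ℝ)) ≠ 0 := by simp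
  have hg := hB.gauge_pos h10
  set c := (gauge B (1, 0))⁻¹ with hc
  have hcpos : 0 < c := inv_pos.2 hg
  have hb : gauge B (c, 0) = 1 := by
    have e : ((c, (0 : ℝ)) : ℝ × ℝ) = c • ((1 : ℝ), (0 : ℝ)) := by ext <;> simp
    rw [e, hB.gauge_smul, abs_of_pos hcpos, hc, inv_mul_cancel₀ hg.ne']
  obtain ⟨n, hn, hn1⟩ := (hB.gauge_eq (c, 0)).1
  rw [hb] at hn1
  simp only [pr, mul_zero, add_zero] at hn1
  have hn0 : n.1 ≠ 0 := by
    intro h
    rw [h, zero_mul] at hn1
    norm_num at hn1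
  refine ⟨n, hn0, ⟨(c, 0), (hB.mem_iff_gauge _).2 hb.le, ?_⟩, ?_⟩
  · rw [sh_apply]
    simp only [pr, mul_zero, add_zero, hn1]
  · rintro _ ⟨z, hz, rfl⟩
    rw [sh_apply]
    have h1 := hn z hz
    have h2 := hn (-z) (hB.symm z hz)
    simp only [pr, Prod.fst_neg, Prod.snd_neg, mul_neg] at h1 h2
    rw [abs_le]
    simp only [pr]
    constructor <;> linarith

private lemma MV_slope {B : Set (ℝ × ℝ)} (hB : IsBody B) :
    MV B = (∫ a, (gauge B (a, 1) ^ 2)⁻¹) * ∫ a, (gauge (plr B) (a, 1) ^ 2)⁻¹ := by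
  unfold MV
  rw [(vol_slope hB).2, (vol_slope hB.plr).2]
  simp only [inv_pow]

theorem MV_le {B : Set (ℝ × ℝ)} (hB : IsBody B) : MV B ≤ Real.pi ^ 2 := by
  obtain ⟨n, hn, h1, h2⟩ := tip_frame hB
  rw [← MV_image hB (sh n hn), MV_slope (hB.image _)]
  exact (vl_of_body (hB.image _) h1 h2).mv_le

/-- the Euclidean disc -/
private def dsc : Set (ℝ × ℝ) := {z | z.1 ^ 2 + z.2 ^ 2 ≤ 1}

private lemma plr_dsc : plr dsc = dsc := by
  ext n
  constructor
  · intro h
    rcases eq_or_lt_of_le (add_nonneg (sq_nonneg n.1) (sq_nonneg n.2)) with h0 | h0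
    · change n.1 ^ 2 + n.2 ^ 2 ≤ 1
      rw [← h0]; norm_num
    · set r := √(n.1 ^ 2 + n.2 ^ 2) with hr
      have hr2 : r ^ 2 = n.1 ^ 2 + n.2 ^ 2 := Real.sq_sqrt h0.le
      have hrpos : 0 < r := Real.sqrt_pos.2 h0
      have h1 := h (n.1 / r, n.2 / r) (by
        change (n.1 / r) ^ 2 + (n.2 / r) ^ 2 ≤ 1
        rw [div_pow, div_pow, ← add_div, ← hr2, div_self (by positivity)])
      simp only [pr] at h1
      have e : n.1 * (n.1 / r) + n.2 * (n.2 / r) = r := by
        have : n.1 * (n.1 / r) + n.2 * (n.2 / r) = (n.1 ^ 2 + n.2 ^ 2) / r := by ring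
        rw [this, ← hr2]; field_simp
      rw [e] at h1
      change n.1 ^ 2 + n.2 ^ 2 ≤ 1
      rw [← hr2]
      nlinarith
  · intro h z hz
    change n.1 ^ 2 + n.2 ^ 2 ≤ 1 at h
    change z.1 ^ 2 + z.2 ^ 2 ≤ 1 at hz
    simp only [pr]
    nlinarith [sq_nonneg (n.1 - z.1), sq_nonneg (n.2 - z.2)]

private lemma vol_dsc : (volume dsc).toReal = Real.pi := by
  have h1 : dsc = Complex.measurableEquivRealProd.symm ⁻¹' (closedBall (0 : ℂ) 1) := by
    ext z
    simp only [dsc, mem_preimage, mem_closedBall, dist_zero_right]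
    have : ‖Complex.measurableEquivRealProd.symm z‖ = √(z.1 ^ 2 + z.2 ^ 2) := by
      rw [Complex.norm_def, Complex.normSq_apply]
      simp [Complex.measurableEquivRealProd, sq]
    rw [this]
    constructor
    · intro hz
      exact Real.sqrt_le_one.2 hz
    · intro hz
      exact Real.sqrt_le_one.1 hz
  rw [h1, Complex.volume_preserving_equiv_real_prod.symm.measure_preimage
    measurableSet_closedBall.nullMeasurableSet, Complex.volume_closedBall]
  simp

private lemma MV_dsc : MV dsc = Real.pi ^ 2 := by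
  unfold MV
  rw [plr_dsc, vol_dsc]
  ring

/-- the linear map which maps an ellipse to the disc -/
private noncomputable def el (a b c : ℝ) (ha : 0 < a) (hc : 0 < a * c - b ^ 2) :
    (ℝ × ℝ) ≃ₗ[ℝ] (ℝ × ℝ) where
  toFun z := (√a * z.1 + b / √a * z.2, √((a * c - b ^ 2) / a) * z.2)
  map_add' x y := by ext <;> simp <;> ring
  map_smul' c x := by ext <;> simp <;> ring
  invFun z := ((z.1 - b / √a * (z.2 / √((a * c - b ^ 2) / a))) / √a,
    z.2 / √((a * c - b ^ 2) / a))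
  left_inv z := by
    have h1 : 0 < √a := Real.sqrt_pos.2 ha
    have h2 : 0 < √((a * c - b ^ 2) / a) := Real.sqrt_pos.2 (by positivity)
    ext
    · simp only
      field_simp
      ring
    · simp only
      field_simp
  right_inv z := by
    have h1 : 0 < √a := Real.sqrt_pos.2 ha
    have h2 : 0 < √((a * c - b ^ 2) / a) := Real.sqrt_pos.2 (by positivity)
    ext
    · simp only
      field_simp
      ring
    · simp only
      field_simp

private lemma el_image (a b c : ℝ) (ha : 0 < a) (hc : 0 < a * c - b ^ 2) :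
    el a b c ha hc '' {z : ℝ × ℝ | a * z.1 ^ 2 + 2 * b * (z.1 * z.2) + c * z.2 ^ 2 ≤ 1} = dsc := by
  have h1 : √a ^ 2 = a := Real.sq_sqrt ha.le
  have h2 : √((a * c - b ^ 2) / a) ^ 2 = (a * c - b ^ 2) / a := Real.sq_sqrt (by positivity)
  have h3 : 0 < √a := Real.sqrt_pos.2 ha
  have key : ∀ z : ℝ × ℝ, (el a b c ha hc z).1 ^ 2 + (el a b c ha hc z).2 ^ 2 =
      a * z.1 ^ 2 + 2 * b * (z.1 * z.2) + c * z.2 ^ 2 := by
    intro z
    change (√a * z.1 + b / √a * z.2) ^ 2 + (√((a * c - b ^ 2) / a) * z.2) ^ 2 = _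
    have e1 : (√a * z.1 + b / √a * z.2) ^ 2 =
        √a ^ 2 * z.1 ^ 2 + 2 * b * (z.1 * z.2) + b ^ 2 / √a ^ 2 * z.2 ^ 2 := by
      field_simp
      ring
    rw [e1, mul_pow, h1, h2]
    field_simp
    ring
  ext w
  constructor
  · rintro ⟨z, hz, rfl⟩
    change (el a b c ha hc z).1 ^ 2 + (el a b c ha hc z).2 ^ 2 ≤ 1
    rw [key z]
    exact hz
  · intro hw
    refine ⟨(el a b c ha hc).symm w, ?_, by simp⟩
    have := key ((el a b c ha hc).symm w)
    rw [LinearEquiv.apply_symm_apply] at this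
    change _ ≤ (1 : ℝ)
    rw [← this]
    exact hw

theorem MV_eq_iff {B : Set (ℝ × ℝ)} (hB : IsBody B) : MV B = Real.pi ^ 2 ↔ IsEll2 B := by
  constructor
  · intro hM
    obtain ⟨n, hn, h1, h2⟩ := tip_frame hB
    rw [← MV_image hB (sh n hn), MV_slope (hB.image _)] at hM
    obtain ⟨r, hr, hvr⟩ := (vl_of_body (hB.image _) h1 h2).mv_eq hM
    set B' := sh n hn '' B with hB'
    have hB'b : IsBody B' := hB.image _
    have hgauge : ∀ z : ℝ × ℝ, gauge B' z ^ 2 = z.1 ^ 2 + r * z.2 ^ 2 := by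
      intro z
      rcases eq_or_ne z.2 0 with h0 | h0
      · have e : z = z.1 • ((1 : ℝ), (0 : ℝ)) := by ext <;> simp [h0]
        have e1 : gauge B' ((1 : ℝ), (0 : ℝ)) = 1 := by
          apply le_antisymm ((hB'b.mem_iff_gauge _).1 h1)
          have := fst_le_gauge hB'b h2 ((1 : ℝ), (0 : ℝ))
          simpa using this
        rw [e, hB'b.gauge_smul, e1, mul_one, sq_abs]
        simp
      · have e : z = z.2 • ((z.1 / z.2, (1 : ℝ)) : ℝ × ℝ) := by
          ext
          · simp; field_simp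
          · simp
        have e1 : gauge B' z = |z.2| * gauge B' (z.1 / z.2, 1) := by
          conv_lhs => rw [e]
          rw [hB'b.gauge_smul]
        have e2 := hvr (z.1 / z.2)
        rw [e1, mul_pow, sq_abs, e2]
        field_simp
    refine ⟨n.1 ^ 2, n.1 * n.2, n.2 ^ 2 + r, by positivity, ?_, ?_⟩
    · have : n.1 ^ 2 * (n.2 ^ 2 + r) - (n.1 * n.2) ^ 2 = n.1 ^ 2 * r := by ring
      rw [this]
      positivity
    · ext z
      have h3 : z ∈ B ↔ sh n hn z ∈ B' :=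
        ((sh n hn).injective.mem_set_image).symm
      rw [h3, hB'b.mem_iff_gauge]
      have h4 : gauge B' (sh n hn z) ≤ 1 ↔ gauge B' (sh n hn z) ^ 2 ≤ 1 := by
        have h5 : 0 ≤ gauge B' (sh n hn z) := gauge_nonneg _
        constructor
        · intro h; exact pow_le_one₀ h5 h
        · intro h
          by_contra hcon
          push Not at hcon
          nlinarith
      rw [h4, hgauge, sh_apply]
      change pr n z ^ 2 + r * z.2 ^ 2 ≤ 1 ↔
        n.1 ^ 2 * z.1 ^ 2 + 2 * (n.1 * n.2) * (z.1 * z.2) + (n.2 ^ 2 + r) * z.2 ^ 2 ≤ 1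
      have e : pr n z ^ 2 + r * z.2 ^ 2 =
        n.1 ^ 2 * z.1 ^ 2 + 2 * (n.1 * n.2) * (z.1 * z.2) + (n.2 ^ 2 + r) * z.2 ^ 2 := by
        simp only [pr]; ring
      rw [e]
  · rintro ⟨a, b, c, ha, hc, hE⟩
    rw [← MV_image hB (el a b c ha hc), hE, el_image, MV_dsc]

end Pool.Agent.Helper18.BL
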