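import Mathlib
import Pool.Agent.Helper18.BL.P1

set_option autoImplicit false

open Set MeasureTheory Filter Topology Metric

namespace Pool.Agent.Helper18.BL

/-! ### PB7: planar ellipse lemma.
`det (w, A n) = pr n (D w)` for a linear `D ≠ 0`, so `gauge B (z + t D z) ≥ pr n (z + t D z) =
gauge B z`. Comparing volumes, `det (1 + t D) ≥ 1` for small `t`, so `D` has trace `0` and
`det D ≥ 0`. If `det D = 0` then `D² = 0` and `gauge B (z + t D z) = gauge B z`, which is absurd.
After scaling `D² = -1`; `gauge B (cos θ z + sin θ D z) ≥ cos (θ/m)^m gauge B z`, so the gauge is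
invariant under the rotations `cos θ + sin θ D`. -/

namespace P7

/-- the linear map with the given matrix -/
noncomputable def lin (p q r s : ℝ) : (ℝ × ℝ) →ₗ[ℝ] (ℝ × ℝ) :=
  Matrix.toLin (Module.Basis.finTwoProd ℝ) (Module.Basis.finTwoProd ℝ) !![p, q; r, s]

theorem lin_apply (p q r s : ℝ) (z : ℝ × ℝ) :
    lin p q r s z = (p * z.1 + q * z.2, r * z.1 + s * z.2) := by
  simp [lin, Matrix.toLin_finTwoProd_apply]

theorem det_lin (p q r s : ℝ) : LinearMap.det (lin p q r s) = p * s - q * r := by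
  rw [lin, LinearMap.det_toLin, Matrix.det_fin_two_of]

variable {B : Set (ℝ × ℝ)}

theorem volume_pos (hB : IsBody B) : volume B ≠ 0 := by
  intro h0
  have h1 : volume (interior B) = 0 := measure_mono_null interior_subset h0
  rw [isOpen_interior.measure_eq_zero_iff volume] at h1
  have := hB.zero_int
  rw [h1] at this
  exact this

/-- comparison of volumes -/
theorem one_le_det (hB : IsBody B) {p q r s : ℝ}
    (h : ∀ z, gauge B z ≤ gauge B (lin p q r s z)) (hd : p * s - q * r ≠ 0) :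
    1 ≤ |p * s - q * r| := by
  have hsub : (lin p q r s) ⁻¹' B ⊆ B := by
    intro z hz
    rw [hB.mem_iff_gauge]
    exact (h z).trans ((hB.mem_iff_gauge _).1 hz)
  have h1 := measure_mono (μ := volume) hsub
  rw [Measure.addHaar_preimage_linearMap volume (by rwa [det_lin]), det_lin] at h1
  have hfin : volume B ≠ ⊤ := hB.compact.measure_lt_top.ne
  have h0 := volume_pos hB
  by_contra hlt
  push Not at hlt
  have h2 : 1 < |(p * s - q * r)⁻¹| := by
    rw [abs_inv]
    exact (one_lt_inv₀ (abs_pos.2 hd)).2 hlt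
  have h3 : (1 : ENNReal) < ENNReal.ofReal |(p * s - q * r)⁻¹| := by
    rw [← ENNReal.ofReal_one]
    exact (ENNReal.ofReal_lt_ofReal_iff (by linarith)).2 h2
  have h4 : volume B < ENNReal.ofReal |(p * s - q * r)⁻¹| * volume B := by
    calc volume B = 1 * volume B := (one_mul _).symm
      _ < _ := (ENNReal.mul_lt_mul_iff_left h0 hfin).2 h3
  exact absurd (h4.trans_le h1) (lt_irrefl _)

theorem trace_zero (hB : IsBody B) {p q r s : ℝ}
    (h : ∀ z, ∀ t : ℝ, gauge B z ≤ gauge B (z + t • lin p q r s z)) :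
    p + s = 0 ∧ 0 ≤ p * s - q * r := by
  have key : ∀ t : ℝ, 1 + t * (p + s) + t ^ 2 * (p * s - q * r) ≠ 0 →
      1 ≤ |1 + t * (p + s) + t ^ 2 * (p * s - q * r)| := by
    intro t ht
    have e : (1 + t * p) * (1 + t * s) - (t * q) * (t * r) =
        1 + t * (p + s) + t ^ 2 * (p * s - q * r) := by ring
    rw [← e]
    apply one_le_det hB
    · intro z
      have := h z t
      have e2 : z + t • lin p q r s z = lin (1 + t * p) (t * q) (t * r) (1 + t * s) z := by
        rw [lin_apply, lin_apply]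
        ext <;> simp <;> ring
      rwa [e2] at this
    · rwa [e]
  set τ := p + s with hτ
  set d := p * s - q * r with hd
  have hτ0 : τ = 0 := by
    by_contra hne
    have hτ2 : 0 < τ ^ 2 := by positivity
    -- t = - ε τ with ε small
    set ε : ℝ := 1 / (2 * (1 + τ ^ 2 + |d|)) with hε
    have hpos : 0 < 1 + τ ^ 2 + |d| := by positivity
    have hε0 : 0 < ε := by positivity
    have e1 : ε * (1 + τ ^ 2 + |d|) = 1 / 2 := by
      rw [hε]; field_simp
    have hk := key (-ε * τ)
    have e2 : 1 + (-ε * τ) * τ + (-ε * τ) ^ 2 * d = 1 - ε * τ ^ 2 * (1 - ε * d) := by ring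
    rw [e2] at hk
    have h3 : |ε * d| ≤ 1 / 2 := by
      rw [abs_mul, abs_of_pos hε0]
      nlinarith [abs_nonneg d]
    have h4 := abs_le.1 h3
    have h5 : ε * τ ^ 2 < 1 / 2 := by nlinarith [abs_nonneg d]
    have h6 : 0 < ε * τ ^ 2 := by positivity
    have h7 : 0 < ε * τ ^ 2 * (1 - ε * d) := by
      apply mul_pos h6; linarith
    have h8 : ε * τ ^ 2 * (1 - ε * d) < 1 := by nlinarith
    have h9 := hk (by linarith)
    rw [abs_of_pos (by linarith)] at h9
    linarith
  refine ⟨hτ0, ?_⟩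
  by_contra hlt
  push Not at hlt
  rw [hτ0] at key
  have hk := key (Real.sqrt (1 / (2 * (-d))))
  have hpos : 0 < -d := by linarith
  rw [Real.sq_sqrt (by positivity)] at hk
  have hdne : d ≠ 0 := hlt.ne
  have e3 : 1 + Real.sqrt (1 / (2 * (-d))) * 0 + 1 / (2 * (-d)) * d = 1 / 2 := by
    field_simp
    norm_num
  rw [e3] at hk
  have := hk (by norm_num)
  norm_num [abs_of_pos] at this

/-- invariance of the gauge under the rotations -/
theorem rot_le (hB : IsBody B) (D : (ℝ × ℝ) →ₗ[ℝ] (ℝ × ℝ)) (hD : ∀ z, D (D z) = -z)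
    (h : ∀ z, ∀ t : ℝ, gauge B z ≤ gauge B (z + t • D z)) (θ : ℝ) (z : ℝ × ℝ) :
    gauge B z ≤ gauge B (Real.cos θ • z + Real.sin θ • D z) := by
  -- one step
  have step : ∀ θ z, 0 < Real.cos θ →
      Real.cos θ * gauge B z ≤ gauge B (Real.cos θ • z + Real.sin θ • D z) := by
    intro θ z hc
    have h1 := h z (Real.sin θ / Real.cos θ)
    have h2 : Real.cos θ • z + Real.sin θ • D z =
        Real.cos θ • (z + (Real.sin θ / Real.cos θ) • D z) := by
      rw [smul_add, smul_smul, mul_div_cancel₀ _ hc.ne']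
    rw [h2, hB.gauge_smul, abs_of_pos hc]
    exact mul_le_mul_of_nonneg_left h1 hc.le
  -- iteration
  have iter : ∀ (m : ℕ) (φ : ℝ) (z : ℝ × ℝ), 0 < Real.cos φ →
      Real.cos φ ^ m * gauge B z ≤
        gauge B (Real.cos (m * φ) • z + Real.sin (m * φ) • D z) := by
    intro m φ
    induction m with
    | zero => intro z _; simp
    | succ m ih =>
      intro z hc
      have h1 := ih (Real.cos φ • z + Real.sin φ • D z) hc
      have h2 := step φ z hc
      have e : Real.cos (m * φ) • (Real.cos φ • z + Real.sin φ • D z) +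
          Real.sin (m * φ) • D (Real.cos φ • z + Real.sin φ • D z) =
          Real.cos ((m + 1 : ℕ) * φ) • z + Real.sin ((m + 1 : ℕ) * φ) • D z := by
        have e1 : ((m + 1 : ℕ) : ℝ) * φ = m * φ + φ := by push_cast; ring
        rw [e1, Real.cos_add, Real.sin_add, map_add, map_smul, map_smul, hD]
        simp only [smul_add, smul_smul, smul_neg, sub_smul, add_smul]
        module
      rw [e] at h1
      calc Real.cos φ ^ (m + 1) * gauge B z = Real.cos φ ^ m * (Real.cos φ * gauge B z) := by ring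
        _ ≤ Real.cos φ ^ m * gauge B (Real.cos φ • z + Real.sin φ • D z) :=
            mul_le_mul_of_nonneg_left h2 (pow_nonneg hc.le _)
        _ ≤ _ := h1
  -- the limit
  have hlim : ∀ m : ℕ, θ ^ 2 < m → (1 - θ ^ 2 / 2 / m) * gauge B z ≤
      gauge B (Real.cos θ • z + Real.sin θ • D z) := by
    intro m hm
    have hm0 : (0 : ℝ) < m := lt_of_le_of_lt (sq_nonneg θ) hm
    have hm1 : (1 : ℝ) ≤ m := by
      have : 0 < m := by exact_mod_cast hm0
      exact_mod_cast this
    have h1 : 1 - (θ / m) ^ 2 / 2 ≤ Real.cos (θ / m) := Real.one_sub_sq_div_two_le_cos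
    have h2 : (θ / m) ^ 2 < 1 := by
      rw [div_pow, div_lt_one (by positivity)]
      nlinarith
    have hc : 0 < Real.cos (θ / m) := by linarith
    have h3 := iter m (θ / m) z hc
    rw [mul_div_cancel₀ _ hm0.ne'] at h3
    refine le_trans ?_ h3
    apply mul_le_mul_of_nonneg_right _ (gauge_nonneg _)
    have h4 : 1 + (m : ℝ) * (-((θ / m) ^ 2 / 2)) ≤ (1 + (-((θ / m) ^ 2 / 2))) ^ m := by
      apply one_add_mul_le_pow
      linarith
    have h5 : (1 + (-((θ / m) ^ 2 / 2))) ^ m ≤ Real.cos (θ / m) ^ m := by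
      apply pow_le_pow_left₀
      · linarith
      · linarith
    have h6 : 1 - θ ^ 2 / 2 / m = 1 + (m : ℝ) * (-((θ / m) ^ 2 / 2)) := by
      field_simp
      ring
    rw [h6]; exact h4.trans h5
  have t1 : Tendsto (fun m : ℕ => (1 - θ ^ 2 / 2 / (m : ℝ)) * gauge B z) atTop
      (𝓝 ((1 - 0) * gauge B z)) := by
    apply Tendsto.mul_const
    apply Tendsto.const_sub
    exact tendsto_const_div_atTop_nhds_zero_nat _
  rw [sub_zero, one_mul] at t1
  apply le_of_tendsto t1
  filter_upwards [(tendsto_natCast_atTop_atTop (R := ℝ)).eventually_gt_atTop (θ ^ 2)] with m hm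
  exact hlim m hm

theorem rot_eq (hB : IsBody B) (D : (ℝ × ℝ) →ₗ[ℝ] (ℝ × ℝ)) (hD : ∀ z, D (D z) = -z)
    (h : ∀ z, ∀ t : ℝ, gauge B z ≤ gauge B (z + t • D z)) (θ : ℝ) (z : ℝ × ℝ) :
    gauge B (Real.cos θ • z + Real.sin θ • D z) = gauge B z := by
  apply le_antisymm _ (rot_le hB D hD h θ z)
  have h1 := rot_le hB D hD h (-θ) (Real.cos θ • z + Real.sin θ • D z)
  have e : Real.cos (-θ) • (Real.cos θ • z + Real.sin θ • D z) +
      Real.sin (-θ) • D (Real.cos θ • z + Real.sin θ • D z) = z := by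
    rw [Real.cos_neg, Real.sin_neg, map_add, map_smul, map_smul, hD]
    have : (Real.cos θ * Real.cos θ + Real.sin θ * Real.sin θ) = 1 := by
      have := Real.cos_sq_add_sin_sq θ
      nlinarith
    calc _ = (Real.cos θ * Real.cos θ + Real.sin θ * Real.sin θ) • z := by module
      _ = z := by rw [this, one_smul]
  rw [e] at h1
  exact h1

/-- the case `D² = -1` -/
theorem ell_of_sq (hB : IsBody B) {p q r : ℝ} (hpq : p ^ 2 + q * r = -1)
    (h : ∀ z, ∀ t : ℝ, gauge B z ≤ gauge B (z + t • lin p q r (-p) z)) : IsEll2 B := by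
  have hr : r ≠ 0 := by
    rintro rfl
    nlinarith
  have hD : ∀ z, lin p q r (-p) (lin p q r (-p) z) = -z := by
    intro z
    rw [lin_apply, lin_apply]
    ext
    · simp
      linear_combination z.1 * hpq
    · simp
      linear_combination z.2 * hpq
  have hrot := rot_eq hB _ hD h
  have hg0 : 0 < gauge B ((1 : ℝ), (0 : ℝ)) := hB.gauge_pos (by simp [Prod.ext_iff])
  set g0 := gauge B ((1 : ℝ), (0 : ℝ)) with hg0def
  have hval : ∀ z : ℝ × ℝ, gauge B z =
      Real.sqrt ((z.1 - p / r * z.2) ^ 2 + (z.2 / r) ^ 2) * g0 := by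
    intro z
    set x := z.1 - p / r * z.2 with hx
    set y := z.2 / r with hy
    set w : ℂ := ⟨x, y⟩ with hw
    have hz : z = ‖w‖ • (Real.cos w.arg • ((1 : ℝ), (0 : ℝ)) +
        Real.sin w.arg • lin p q r (-p) ((1 : ℝ), (0 : ℝ))) := by
      have hx' : ‖w‖ * Real.cos w.arg = x := Complex.norm_mul_cos_arg w
      have hy' : ‖w‖ * Real.sin w.arg = y := Complex.norm_mul_sin_arg w
      rw [smul_add, smul_smul, smul_smul, hx', hy', lin_apply]
      ext
      · simp [hx, hy]
        field_simp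
        ring
      · simp [hy]
        field_simp
    have hn : ‖w‖ = Real.sqrt (x ^ 2 + y ^ 2) := by
      rw [Complex.norm_eq_sqrt_sq_add_sq]
    conv_lhs => rw [hz]
    rw [hB.gauge_smul, hrot, abs_of_nonneg (norm_nonneg _), hn]
  refine ⟨g0 ^ 2, -g0 ^ 2 * p / r, g0 ^ 2 * (p ^ 2 + 1) / r ^ 2, by positivity, ?_, ?_⟩
  · have : g0 ^ 2 * (g0 ^ 2 * (p ^ 2 + 1) / r ^ 2) - (-g0 ^ 2 * p / r) ^ 2 = g0 ^ 4 / r ^ 2 := by
      field_simp
      ring
    rw [this]
    positivity
  · ext z
    rw [hB.mem_iff_gauge, hval, Set.mem_ofPred_eq]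
    have hS : 0 ≤ (z.1 - p / r * z.2) ^ 2 + (z.2 / r) ^ 2 := by positivity
    have e : g0 ^ 2 * z.1 ^ 2 + 2 * (-g0 ^ 2 * p / r) * (z.1 * z.2) +
        g0 ^ 2 * (p ^ 2 + 1) / r ^ 2 * z.2 ^ 2 =
        (Real.sqrt ((z.1 - p / r * z.2) ^ 2 + (z.2 / r) ^ 2) * g0) ^ 2 := by
      rw [mul_pow, Real.sq_sqrt hS]
      field_simp
      ring
    rw [e]
    rw [sq_le_one_iff₀ (by positivity)]

/-- the case of a general `D ≠ 0` -/
theorem ell_of_lin (hB : IsBody B) {p q r s : ℝ} (hne : ¬ (p = 0 ∧ q = 0 ∧ r = 0 ∧ s = 0))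
    (h : ∀ z, ∀ t : ℝ, gauge B z ≤ gauge B (z + t • lin p q r s z)) : IsEll2 B := by
  obtain ⟨htr, hdet⟩ := trace_zero hB h
  have hs : s = -p := by linarith
  subst hs
  rcases hdet.eq_or_lt with h0 | hpos
  · -- `D² = 0`
    exfalso
    have hD : ∀ z, lin p q r (-p) (lin p q r (-p) z) = 0 := by
      intro z
      rw [lin_apply, lin_apply]
      ext
      · simp
        linear_combination z.1 * h0
      · simp
        linear_combination z.2 * h0
    have heq : ∀ z, ∀ t : ℝ, gauge B (z + t • lin p q r (-p) z) = gauge B z := by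
      intro z t
      apply le_antisymm _ (h z t)
      have h1 := h (z + t • lin p q r (-p) z) (-t)
      have e : z + t • lin p q r (-p) z + (-t) • lin p q r (-p) (z + t • lin p q r (-p) z) = z := by
        rw [map_add, map_smul, hD]
        module
      rwa [e] at h1
    -- a vector with `D z ≠ 0`
    obtain ⟨z, hz⟩ : ∃ z, lin p q r (-p) z ≠ 0 := by
      by_contra hall
      push Not at hall
      have h1 := hall (1, 0)
      have h2 := hall (0, 1)
      rw [lin_apply] at h1 h2
      simp [Prod.ext_iff] at h1 h2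
      apply hne
      refine ⟨h1.1, h2.1, h1.2, ?_⟩
      linarith [h1.1]
    have hg : 0 < gauge B (lin p q r (-p) z) := hB.gauge_pos hz
    set t : ℝ := (2 * gauge B z + 1) / gauge B (lin p q r (-p) z) with ht
    have h0z : 0 ≤ gauge B z := gauge_nonneg _
    have ht0 : 0 < t := by positivity
    have h1 := hB.gauge_add (z + t • lin p q r (-p) z) (-z)
    rw [heq, hB.gauge_neg] at h1
    have e : z + t • lin p q r (-p) z + -z = t • lin p q r (-p) z := by abel
    rw [e, hB.gauge_smul, abs_of_pos ht0] at h1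
    have e2 : t * gauge B (lin p q r (-p) z) = 2 * gauge B z + 1 := by
      rw [ht]; field_simp
    linarith
  · set ω := Real.sqrt (p * -p - q * r) with hω
    have hω0 : 0 < ω := Real.sqrt_pos.2 hpos
    have hω2 : ω ^ 2 = p * -p - q * r := Real.sq_sqrt hpos.le
    apply ell_of_sq hB (p := p / ω) (q := q / ω) (r := r / ω)
    · have e1 : (p / ω) ^ 2 + q / ω * (r / ω) = (p ^ 2 + q * r) / ω ^ 2 := by
        field_simp
      rw [e1, div_eq_iff (by positivity), hω2]
      ring
    · intro z t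
      have h1 := h z (t / ω)
      have e : z + (t / ω) • lin p q r (-p) z =
          z + t • lin (p / ω) (q / ω) (r / ω) (-(p / ω)) z := by
        rw [lin_apply, lin_apply]
        ext <;> simp <;> ring
      rwa [e] at h1

end P7

theorem ell_lemma2 {B : Set (ℝ × ℝ)} (hB : IsBody B) (A : (ℝ × ℝ) →ₗ[ℝ] (ℝ × ℝ)) (hA : A ≠ 0)
    (h : ∀ w, gauge B w = 1 → ∃ n ∈ plr B, pr n w = 1 ∧ ∃ t : ℝ, A n = t • w) : IsEll2 B := by
  set a := A (1, 0) with ha
  set b := A (0, 1) with hb
  have hAn : ∀ n : ℝ × ℝ, A n = (n.1 * a.1 + n.2 * b.1, n.1 * a.2 + n.2 * b.2) := by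
    intro n
    have : n = n.1 • ((1 : ℝ), (0 : ℝ)) + n.2 • ((0 : ℝ), (1 : ℝ)) := by
      ext <;> simp
    conv_lhs => rw [this]
    rw [map_add, map_smul, map_smul, ← ha, ← hb]
    ext <;> simp
  apply P7.ell_of_lin hB (p := -a.2) (q := a.1) (r := -b.2) (s := b.1)
  · rintro ⟨h1, h2, h3, h4⟩
    apply hA
    ext
    · simp [← ha, h2]
    · simp [← ha]; linarith
    · simp [← hb, h4]
    · simp [← hb]; linarith
  · intro z t
    by_cases hz : z = 0
    · subst hz
      simp
    have hg : 0 < gauge B z := hB.gauge_pos hz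
    set w := (gauge B z)⁻¹ • z with hw
    have hgw : gauge B w = 1 := by
      rw [hw, hB.gauge_smul, abs_of_pos (inv_pos.2 hg), inv_mul_cancel₀ hg.ne']
    obtain ⟨n, hn, hnw, c, hc⟩ := h w hgw
    have hz' : z = gauge B z • w := by
      rw [hw, smul_smul, mul_inv_cancel₀ hg.ne', one_smul]
    rw [hAn] at hc
    have hc1 : n.1 * a.1 + n.2 * b.1 = c * w.1 := by
      have := congrArg Prod.fst hc; simpa using this
    have hc2 : n.1 * a.2 + n.2 * b.2 = c * w.2 := by
      have := congrArg Prod.snd hc; simpa using this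
    have hz1 : z.1 = gauge B z * w.1 := by
      have := congrArg Prod.fst hz'; simpa using this
    have hz2 : z.2 = gauge B z * w.2 := by
      have := congrArg Prod.snd hz'; simpa using this
    have hnw' : n.1 * w.1 + n.2 * w.2 = 1 := hnw
    have hval : pr n (z + t • P7.lin (-a.2) a.1 (-b.2) b.1 z) = gauge B z := by
      rw [P7.lin_apply]
      simp only [pr, Prod.fst_add, Prod.snd_add, Prod.smul_fst, Prod.smul_snd, smul_eq_mul]
      rw [hz1, hz2]
      linear_combination gauge B z * hnw' + t * gauge B z * w.2 * hc1 -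
        t * gauge B z * w.1 * hc2
    have hle := (hB.gauge_eq (z + t • P7.lin (-a.2) a.1 (-b.2) b.1 z)).2 ⟨n, hn, rfl⟩
    simp only [] at hle
    rw [hval] at hle
    exact hle

end Pool.Agent.Helper18.BL
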