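import Mathlib
import Pool.Agent.Helper18.BL.T1
import Pool.Agent.Helper18.BL.T2

set_option autoImplicit false

open Set MeasureTheory Filter Topology Metric
open scoped RealInnerProductSpace

namespace Pool.Agent.Helper18.BL
namespace Setting
variable (S : Setting)

/-! ### T4: compactness of data -/

private lemma C_norm {v : E} (hv : v ≠ 0) : ‖S.C v‖ ≤ S.R := S.K1_bdd _ (S.C_mem hv)

private lemma kappa_norm {v κ : E} (hv : v ≠ 0) (h : S.C v + κ ∈ S.F v) : ‖κ‖ ≤ 2 * S.R := by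
  have h1 : ‖S.C v + κ‖ ≤ S.R := S.K1_bdd _ (S.K_sub h.1)
  have h2 := S.C_norm hv
  have h3 : κ = (S.C v + κ) - S.C v := by abel
  rw [h3]
  calc ‖(S.C v + κ) - S.C v‖ ≤ ‖S.C v + κ‖ + ‖S.C v‖ := norm_sub_le _ _
    _ ≤ 2 * S.R := by linarith

/-- `|t| ‖v‖, |t'| ‖v‖ ≤ (1 + 4 R / r) ‖n‖` -/
private lemma tt_bound {v w n : E} {t t' : ℝ} (hv : v ≠ 0) (h : S.Pair v w n t t') :
    |t| * ‖v‖ ≤ (1 + 4 * S.R / S.r) * ‖n‖ ∧ |t'| * ‖v‖ ≤ (1 + 4 * S.R / S.r) * ‖n‖ := by
  obtain ⟨h1, h2⟩ := S.pair_bound hv h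
  constructor
  · have h3 : |t| * ‖v‖ = ‖n - (n - t • v)‖ := by
      rw [sub_sub_cancel, norm_smul, Real.norm_eq_abs]
    rw [h3]
    calc ‖n - (n - t • v)‖ ≤ ‖n‖ + ‖n - t • v‖ := norm_sub_le _ _
      _ ≤ (1 + 4 * S.R / S.r) * ‖n‖ := by linarith
  · have h3 : |t'| * ‖v‖ = ‖(n + t' • v) - n‖ := by
      rw [add_sub_cancel_left, norm_smul, Real.norm_eq_abs]
    rw [h3]
    calc ‖(n + t' • v) - n‖ ≤ ‖n + t' • v‖ + ‖n‖ := norm_sub_le _ _
      _ ≤ (1 + 4 * S.R / S.r) * ‖n‖ := by linarith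

private lemma cst_nonneg : 0 ≤ 1 + 4 * S.R / S.r := by
  have := S.R_nonneg
  have := S.r_pos
  positivity

theorem dat_bound {P : Set ℝ} {v : E} {A : E →L[ℝ] E} {κ : E} (hv : v ≠ 0)
    (h : S.Dat P v A κ) : ‖A‖ ≤ 4 * S.R * (1 + 4 * S.R / S.r) / ‖v‖ := by
  have hR := S.R_nonneg
  have hc := S.cst_nonneg
  have hv' : 0 < ‖v‖ := norm_pos_iff.mpr hv
  refine ContinuousLinearMap.opNorm_le_bound _ (by positivity) ?_
  intro n
  obtain ⟨w, t, t', hp, hrel, -⟩ := h.2.1 n
  obtain ⟨h1, h2⟩ := S.tt_bound hv hp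
  have hw : ‖w‖ ≤ 2 * S.R := S.Sp_norm hv hp.1
  have hκ : ‖κ‖ ≤ 2 * S.R := S.kappa_norm hv h.1
  unfold Rel at hrel
  have h3 : ‖(2 : ℝ) • A n‖ ≤ (|t| + |t'|) * (4 * S.R) := by
    rw [hrel]
    calc ‖-(t + t') • w + (t - t') • κ‖ ≤ ‖-(t + t') • w‖ + ‖(t - t') • κ‖ := norm_add_le _ _
      _ = |t + t'| * ‖w‖ + |t - t'| * ‖κ‖ := by
          rw [norm_smul, norm_smul, Real.norm_eq_abs, Real.norm_eq_abs, abs_neg]
      _ ≤ (|t| + |t'|) * (2 * S.R) + (|t| + |t'|) * (2 * S.R) := by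
          apply add_le_add
          · exact mul_le_mul (abs_add_le _ _) hw (norm_nonneg _) (by positivity)
          · exact mul_le_mul (abs_sub _ _) hκ (norm_nonneg _) (by positivity)
      _ = (|t| + |t'|) * (4 * S.R) := by ring
  rw [norm_smul, Real.norm_eq_abs, abs_of_pos (by norm_num : (0 : ℝ) < 2)] at h3
  have h4 : (|t| + |t'|) ≤ 2 * ((1 + 4 * S.R / S.r) * ‖n‖) / ‖v‖ := by
    rw [le_div_iff₀ hv']
    linarith
  have h5 : (|t| + |t'|) * (4 * S.R) ≤ 2 * ((1 + 4 * S.R / S.r) * ‖n‖) / ‖v‖ * (4 * S.R) :=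
    mul_le_mul_of_nonneg_right h4 (by positivity)
  have h6 : 2 * ((1 + 4 * S.R / S.r) * ‖n‖) / ‖v‖ * (4 * S.R)
      = 2 * (4 * S.R * (1 + 4 * S.R / S.r) / ‖v‖ * ‖n‖) := by ring
  rw [h6] at h5
  linarith

private lemma ball_aux {v N w : E} (hv : v ≠ 0)
    (h : ∀ x ∈ S.K1, ⟪N, x⟫ ≤ ⟪N, S.C v + w⟫) : S.r / 2 * ‖N‖ ≤ ⟪N, w⟫ := by
  by_cases hN : N = 0
  · rw [hN]; simp
  · have hN' : 0 < ‖N‖ := norm_pos_iff.mpr hN
    have hr := S.r_pos
    have hx : S.C v + (S.r / 2 / ‖N‖) • N ∈ S.K1 := by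
      apply S.C_ball hv
      rw [mem_closedBall, dist_eq_norm, add_sub_cancel_left, norm_smul, Real.norm_eq_abs,
        abs_of_pos (by positivity), div_mul_cancel₀ _ hN'.ne']
    have h1 := h _ hx
    rw [inner_add_right, inner_add_right, inner_smul_right, real_inner_self_eq_norm_sq] at h1
    have h2 : S.r / 2 / ‖N‖ * ‖N‖ ^ 2 = S.r / 2 * ‖N‖ := by
      field_simp
    linarith

private lemma pair_ball {v w n : E} {t t' : ℝ} (hv : v ≠ 0) (h : S.Pair v w n t t') :
    S.r / 2 * ‖n - t • v‖ ≤ ⟪n, w⟫ ∧ S.r / 2 * ‖n + t' • v‖ ≤ ⟪n, w⟫ := by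
  have h0 : ⟪v, w⟫ = 0 := h.1.1
  constructor
  · have h1 := S.ball_aux hv h.2.1
    rw [inner_sub_left, inner_smul_left, h0] at h1
    simpa using h1
  · have h1 := S.ball_aux (N := -n - t' • v) (w := -w) hv (by
      intro x hx
      have := h.2.2 x hx
      rwa [sub_eq_add_neg (S.C v) w] at this)
    have h2 : -n - t' • v = -(n + t' • v) := by abel
    rw [h2, norm_neg, inner_neg_neg, inner_add_left, inner_smul_left, h0] at h1
    simpa using h1

/-- `A v = κ` -/
private lemma dat_v {P : Set ℝ} {v : E} {A : E →L[ℝ] E} {κ : E} (hv : v ≠ 0)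
    (h : S.Dat P v A κ) : A v = κ := by
  obtain ⟨w, t, t', hp, hr, -⟩ := h.2.1 v
  obtain ⟨h1, h2⟩ := S.pair_ball hv hp
  have h0 : ⟪v, w⟫ = 0 := hp.1.1
  have hr' := S.r_pos
  rw [h0] at h1 h2
  have e1 : v - t • v = 0 := by
    have : ‖v - t • v‖ ≤ 0 := by
      by_contra hcon
      push Not at hcon
      have := mul_pos (half_pos hr') hcon
      linarith
    exact norm_le_zero_iff.mp this
  have e2 : v + t' • v = 0 := by
    have : ‖v + t' • v‖ ≤ 0 := by
      by_contra hcon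
      push Not at hcon
      have := mul_pos (half_pos hr') hcon
      linarith
    exact norm_le_zero_iff.mp this
  have ht : t = 1 := by
    have : (1 - t) • v = 0 := by rw [sub_smul, one_smul]; exact e1
    rcases smul_eq_zero.mp this with h3 | h3
    · linarith
    · exact absurd h3 hv
  have ht' : t' = -1 := by
    have : (1 + t') • v = 0 := by rw [add_smul, one_smul]; exact e2
    rcases smul_eq_zero.mp this with h3 | h3
    · linarith
    · exact absurd h3 hv
  unfold Rel at hr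
  rw [ht, ht'] at hr
  have h3 : (2 : ℝ) • A v = (2 : ℝ) • κ := by
    rw [hr]
    norm_num
  exact smul_right_injective E (by norm_num : (2 : ℝ) ≠ 0) h3

/-- normalised boundary data -/
private lemma dat_bd {P : Set ℝ} {v : E} {A : E →L[ℝ] E} {κ w : E} (hv : v ≠ 0)
    (h : S.Dat P v A κ) (hw : w ∈ S.bd v) : ∃ (n : E) (t t' : ℝ), ⟪v, n⟫ = 0 ∧ ⟪n, w⟫ = 1 ∧
      S.Pair v w n t t' ∧ Rel A κ w n t t' ∧ t + t' ∈ P := by
  obtain ⟨n, t, t', hn, hp, hr, hP⟩ := h.2.2 w hw
  set s : ℝ := -(⟪v, n⟫ / ‖v‖ ^ 2) with hs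
  have hv' : ‖v‖ ^ 2 ≠ 0 := by
    have := norm_pos_iff.mpr hv
    positivity
  refine ⟨n + s • v, t + s, t' - s, ?_, ?_, S.pair_shift hv hp, ?_, ?_⟩
  · rw [inner_add_right, inner_smul_right, real_inner_self_eq_norm_sq, hs]
    field_simp
    ring
  · have h0 : ⟪v, w⟫ = 0 := hw.1.1
    rw [inner_add_left, inner_smul_left, h0, hn]
    simp
  · unfold Rel at hr ⊢
    rw [map_add, map_smul, S.dat_v hv h, smul_add, hr]
    module
  · have : t + s + (t' - s) = t + t' := by ring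
    rw [this]; exact hP

private lemma closed_aux {P : Set ℝ} (hP : IsClosed P) {v : ℕ → E} {A : ℕ → E →L[ℝ] E}
    {κ : ℕ → E} {v0 : E} {A0 : E →L[ℝ] E} {κ0 : E} (hv0 : v0 ≠ 0)
    (h : ∀ j, S.Dat P (v j) (A j) (κ j))
    (hv : Tendsto v atTop (𝓝 v0)) (hA : Tendsto A atTop (𝓝 A0)) (hκ : Tendsto κ atTop (𝓝 κ0))
    (hb : ∀ j, ‖v0‖ / 2 ≤ ‖v j‖) : S.Dat P v0 A0 κ0 := by
  have hv0' : 0 < ‖v0‖ := norm_pos_iff.mpr hv0
  have hvj : ∀ j, v j ≠ 0 := by
    intro j hj
    have := hb j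
    rw [hj, norm_zero] at this
    linarith
  have hR := S.R_nonneg
  have hr := S.r_pos
  have hc := S.cst_nonneg
  have hCv : Tendsto (fun j => S.C (v j)) atTop (𝓝 (S.C v0)) := (S.C_cont hv0).tendsto.comp hv
  refine ⟨⟨?_, ?_⟩, ?_, ?_⟩
  · exact S.K_compact.isClosed.mem_of_tendsto (hCv.add hκ)
      (Eventually.of_forall fun j => (h j).1.1)
  · have h1 : Tendsto (fun j => ⟪v j, S.C (v j) + κ j⟫) atTop (𝓝 ⟪v0, S.C v0 + κ0⟫) :=
      hv.inner (hCv.add hκ)
    have h2 : Tendsto (fun j => S.h (v j)) atTop (𝓝 (S.h v0)) :=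
      S.h_cont.continuousAt.tendsto.comp hv
    have h3 : (fun j => ⟪v j, S.C (v j) + κ j⟫) = fun j => S.h (v j) := by
      funext j
      exact (h j).1.2
    rw [h3] at h1
    exact tendsto_nhds_unique h1 h2
  · intro n
    have hn := fun j => (h j).2.1 n
    choose w t t' hp hrel htt using hn
    set B : ℝ := (1 + 4 * S.R / S.r) * ‖n‖ / (‖v0‖ / 2) with hB
    have hbt : ∀ j, |t j| ≤ B ∧ |t' j| ≤ B := by
      intro j
      obtain ⟨h1, h2⟩ := S.tt_bound (hvj j) (hp j)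
      have h3 := hb j
      constructor
      · rw [hB, le_div_iff₀ (by linarith)]
        exact (mul_le_mul_of_nonneg_left h3 (abs_nonneg _)).trans h1
      · rw [hB, le_div_iff₀ (by linarith)]
        exact (mul_le_mul_of_nonneg_left h3 (abs_nonneg _)).trans h2
    have hcomp : IsCompact ((closedBall (0 : E) (2 * S.R)) ×ˢ ((Icc (-B) B) ×ˢ (Icc (-B) B))) :=
      (isCompact_closedBall _ _).prod (isCompact_Icc.prod isCompact_Icc)
    obtain ⟨⟨w0, t0, t0'⟩, -, φ, hφ, hlim⟩ := hcomp.tendsto_subseq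
      (x := fun j => (w j, t j, t' j)) (by
        intro j
        refine ⟨?_, ?_, ?_⟩
        · rw [mem_closedBall_zero_iff]
          exact S.Sp_norm (hvj j) (hp j).1
        · exact abs_le.mp (hbt j).1
        · exact abs_le.mp (hbt j).2)
    have hw0 : Tendsto (fun j => w (φ j)) atTop (𝓝 w0) :=
      (continuous_fst.tendsto _).comp hlim
    have ht0 : Tendsto (fun j => t (φ j)) atTop (𝓝 t0) :=
      ((continuous_fst.comp continuous_snd).tendsto _).comp hlim
    have ht0' : Tendsto (fun j => t' (φ j)) atTop (𝓝 t0') :=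
      ((continuous_snd.comp continuous_snd).tendsto _).comp hlim
    have hφv := hv.comp hφ.tendsto_atTop
    have hφA := hA.comp hφ.tendsto_atTop
    have hφκ := hκ.comp hφ.tendsto_atTop
    refine ⟨w0, t0, t0', S.pair_closed hv0 (fun j => hp (φ j)) hφv hw0 tendsto_const_nhds ht0
      ht0', ?_, ?_⟩
    · unfold Rel
      have h1 : Tendsto (fun j => (2 : ℝ) • (A (φ j)) n) atTop (𝓝 ((2 : ℝ) • A0 n)) :=
        (((ContinuousLinearMap.apply ℝ E n).continuous.tendsto A0).comp hφA).const_smul 2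
      have h2 : Tendsto (fun j => -(t (φ j) + t' (φ j)) • w (φ j) +
          (t (φ j) - t' (φ j)) • κ (φ j)) atTop
          (𝓝 (-(t0 + t0') • w0 + (t0 - t0') • κ0)) :=
        ((ht0.add ht0').neg.smul hw0).add ((ht0.sub ht0').smul hφκ)
      have h3 : (fun j => (2 : ℝ) • (A (φ j)) n) = fun j => -(t (φ j) + t' (φ j)) • w (φ j) +
          (t (φ j) - t' (φ j)) • κ (φ j) := by
        funext j
        exact hrel (φ j)
      rw [h3] at h1
      exact tendsto_nhds_unique h1 h2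
    · exact hP.mem_of_tendsto (ht0.add ht0') (Eventually.of_forall fun j => htt (φ j))
  · intro w hw
    have hw1 : ⟪v0, w⟫ = 0 := hw.1.1
    have hwK : S.C v0 + w ∈ S.K1 := hw.1.2
    have hwne : w ≠ 0 := by
      rintro rfl
      refine hw.2 2 (by norm_num) ?_
      rw [smul_zero]; exact hw.1
    have hwpos : 0 < ‖w‖ := norm_pos_iff.mpr hwne
    -- projections
    let e : ℕ → E := fun j => w - (⟪v j, w⟫ / ‖v j‖ ^ 2) • v j
    have he_orth : ∀ j, ⟪v j, e j⟫ = 0 := by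
      intro j
      have : ‖v j‖ ^ 2 ≠ 0 := pow_ne_zero 2 (norm_ne_zero_iff.mpr (hvj j))
      simp only [e]
      rw [inner_sub_right, inner_smul_right, real_inner_self_eq_norm_sq,
        div_mul_cancel₀ _ this, sub_self]
    have he : Tendsto e atTop (𝓝 w) := by
      have h1 : Tendsto (fun j => ⟪v j, w⟫ / ‖v j‖ ^ 2) atTop (𝓝 (⟪v0, w⟫ / ‖v0‖ ^ 2)) :=
        (hv.inner tendsto_const_nhds).div ((hv.norm).pow 2) (by positivity)
      rw [hw1, zero_div] at h1
      have h2 := (tendsto_const_nhds (x := w)).sub (h1.smul hv)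
      simpa using h2
    obtain ⟨N, hN⟩ : ∃ N, ∀ j ≥ N, ‖w‖ / 2 < ‖e j‖ :=
      eventually_atTop.mp (he.norm.eventually (lt_mem_nhds (by linarith : ‖w‖ / 2 < ‖w‖)))
    have hdat : ∀ j, ∃ (c : ℝ) (n : E) (t t' : ℝ), 0 < c ∧ c • e (j + N) ∈ S.bd (v (j + N)) ∧
        ⟪v (j + N), n⟫ = 0 ∧ ⟪n, c • e (j + N)⟫ = 1 ∧
        S.Pair (v (j + N)) (c • e (j + N)) n t t' ∧
        Rel (A (j + N)) (κ (j + N)) (c • e (j + N)) n t t' ∧ t + t' ∈ P := by
      intro j
      have h1 := hN (j + N) (Nat.le_add_left _ _)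
      have h2 : e (j + N) ≠ 0 := by
        intro h3
        rw [h3, norm_zero] at h1
        linarith
      obtain ⟨c, hc, hbd⟩ := S.exists_bd (hvj (j + N)) h2 (he_orth (j + N))
      obtain ⟨n, t, t', h4, h5, h6, h7, h8⟩ := S.dat_bd (hvj (j + N)) (h (j + N)) hbd
      exact ⟨c, n, t, t', hc, hbd, h4, h5, h6, h7, h8⟩
    choose c n t t' hc0 hbd hvn hn hp hrel htt using hdat
    have hcB : ∀ j, c j ∈ Icc (0 : ℝ) (2 * S.R / (‖w‖ / 2)) := by
      intro j
      refine ⟨(hc0 j).le, ?_⟩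
      have h1 := hN (j + N) (Nat.le_add_left _ _)
      have h2 := S.Sp_norm (hvj (j + N)) (hbd j).1
      rw [norm_smul, Real.norm_eq_abs, abs_of_pos (hc0 j)] at h2
      rw [le_div_iff₀ (by linarith)]
      exact (mul_le_mul_of_nonneg_left h1.le (hc0 j).le).trans h2
    have hNn : ∀ j, ‖n j - t j • v (j + N)‖ ≤ 2 / S.r ∧ ‖n j + t' j • v (j + N)‖ ≤ 2 / S.r := by
      intro j
      obtain ⟨h1, h2⟩ := S.pair_ball (hvj (j + N)) (hp j)
      rw [hn j] at h1 h2
      constructor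
      · rw [le_div_iff₀ hr]; linarith
      · rw [le_div_iff₀ hr]; linarith
    have hnB : ∀ j, ‖n j‖ ≤ 2 / S.r := by
      intro j
      refine le_trans ?_ (hNn j).1
      by_cases h0 : n j = 0
      · rw [h0, norm_zero]; exact norm_nonneg _
      · have h0' : 0 < ‖n j‖ := norm_pos_iff.mpr h0
        have h1 : ‖n j‖ * ‖n j‖ ≤ ‖n j‖ * ‖n j - t j • v (j + N)‖ := by
          calc ‖n j‖ * ‖n j‖ = ⟪n j, n j - t j • v (j + N)⟫ := by
                rw [inner_sub_right, inner_smul_right, real_inner_comm (v (j + N)) (n j), hvn j,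
                  real_inner_self_eq_norm_mul_norm]
                ring
            _ ≤ ‖n j‖ * ‖n j - t j • v (j + N)‖ := real_inner_le_norm _ _
        exact le_of_mul_le_mul_left h1 h0'
    set B : ℝ := (4 / S.r) / (‖v0‖ / 2) with hB
    have hbt : ∀ j, |t j| ≤ B ∧ |t' j| ≤ B := by
      intro j
      have h1 := hnB j
      obtain ⟨h2, h3⟩ := hNn j
      have h4 := hb (j + N)
      have h42 : 4 / S.r = 2 / S.r + 2 / S.r := by ring
      constructor
      · rw [hB, le_div_iff₀ (by linarith)]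
        refine (mul_le_mul_of_nonneg_left h4 (abs_nonneg _)).trans ?_
        have h5 : |t j| * ‖v (j + N)‖ = ‖n j - (n j - t j • v (j + N))‖ := by
          rw [sub_sub_cancel, norm_smul, Real.norm_eq_abs]
        rw [h5]
        refine (norm_sub_le _ _).trans ?_
        linarith
      · rw [hB, le_div_iff₀ (by linarith)]
        refine (mul_le_mul_of_nonneg_left h4 (abs_nonneg _)).trans ?_
        have h5 : |t' j| * ‖v (j + N)‖ = ‖(n j + t' j • v (j + N)) - n j‖ := by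
          rw [add_sub_cancel_left, norm_smul, Real.norm_eq_abs]
        rw [h5]
        refine (norm_sub_le _ _).trans ?_
        linarith
    have hcomp : IsCompact ((Icc (0 : ℝ) (2 * S.R / (‖w‖ / 2))) ×ˢ
        ((closedBall (0 : E) (2 / S.r)) ×ˢ ((Icc (-B) B) ×ˢ (Icc (-B) B)))) :=
      isCompact_Icc.prod ((isCompact_closedBall _ _).prod (isCompact_Icc.prod isCompact_Icc))
    obtain ⟨⟨c0, n0, t0, t0'⟩, -, φ, hφ, hlim⟩ := hcomp.tendsto_subseq
      (x := fun j => (c j, n j, t j, t' j)) (by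
        intro j
        refine ⟨hcB j, ?_, ?_, ?_⟩
        · rw [mem_closedBall_zero_iff]
          exact hnB j
        · exact abs_le.mp (hbt j).1
        · exact abs_le.mp (hbt j).2)
    have hc1 : Tendsto (fun j => c (φ j)) atTop (𝓝 c0) :=
      (continuous_fst.tendsto _).comp hlim
    have hn1 : Tendsto (fun j => n (φ j)) atTop (𝓝 n0) :=
      ((continuous_fst.comp continuous_snd).tendsto _).comp hlim
    have ht1 : Tendsto (fun j => t (φ j)) atTop (𝓝 t0) :=
      ((continuous_fst.comp (continuous_snd.comp continuous_snd)).tendsto _).comp hlim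
    have ht1' : Tendsto (fun j => t' (φ j)) atTop (𝓝 t0') :=
      ((continuous_snd.comp (continuous_snd.comp continuous_snd)).tendsto _).comp hlim
    have hshift : Tendsto (fun j => φ j + N) atTop atTop :=
      (tendsto_add_atTop_nat N).comp hφ.tendsto_atTop
    have hφv : Tendsto (fun j => v (φ j + N)) atTop (𝓝 v0) := hv.comp hshift
    have hφA : Tendsto (fun j => A (φ j + N)) atTop (𝓝 A0) := hA.comp hshift
    have hφκ : Tendsto (fun j => κ (φ j + N)) atTop (𝓝 κ0) := hκ.comp hshift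
    have hφe : Tendsto (fun j => e (φ j + N)) atTop (𝓝 w) := he.comp hshift
    have hφC : Tendsto (fun j => S.C (v (φ j + N))) atTop (𝓝 (S.C v0)) := hCv.comp hshift
    have hwlim : Tendsto (fun j => c (φ j) • e (φ j + N)) atTop (𝓝 (c0 • w)) := hc1.smul hφe
    have hpair : S.Pair v0 (c0 • w) n0 t0 t0' :=
      S.pair_closed hv0 (fun j => hp (φ j)) hφv hwlim hn1 ht1 ht1'
    -- `c0 = 1`
    have hc01 : c0 = 1 := by
      apply le_antisymm
      · by_contra hcon
        push Not at hcon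
        exact hw.2 c0 hcon hpair.1
      · by_contra hcon
        push Not at hcon
        have hc0n : 0 ≤ c0 := ge_of_tendsto' hc1 (fun j => (hc0 (φ j)).le)
        obtain ⟨d, hd1, hd2⟩ := exists_between hcon
        have hd0 : 0 < d := lt_of_le_of_lt hc0n hd1
        have h1d : 0 < 1 - d := by linarith
        -- a ball around `C v0 + d w`
        have hball : closedBall (S.C v0 + d • w) ((1 - d) * (S.r / 2)) ⊆ S.K1 := by
          intro y hy
          set z := y - (S.C v0 + d • w) with hz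
          have hzn : ‖z‖ ≤ (1 - d) * (S.r / 2) := by
            rw [mem_closedBall, dist_eq_norm] at hy
            exact hy
          have h3 : S.C v0 + (1 / (1 - d)) • z ∈ S.K1 := by
            apply S.C_ball hv0
            rw [mem_closedBall, dist_eq_norm, add_sub_cancel_left, norm_smul, Real.norm_eq_abs,
              abs_of_pos (by positivity)]
            rw [one_div, inv_mul_le_iff₀ h1d]
            exact hzn
          have h4 := S.K1_convex hwK h3 hd0.le h1d.le (by ring)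
          have h5 : d • (S.C v0 + w) + (1 - d) • (S.C v0 + (1 / (1 - d)) • z) = y := by
            rw [smul_add, smul_add, smul_smul, mul_one_div_cancel h1d.ne', one_smul, hz]
            module
          rw [h5] at h4
          exact h4
        have hev1 : ∀ᶠ j in atTop, S.C (v (φ j + N)) + d • e (φ j + N) ∈ S.K1 := by
          have h3 : Tendsto (fun j => S.C (v (φ j + N)) + d • e (φ j + N)) atTop
              (𝓝 (S.C v0 + d • w)) := hφC.add (hφe.const_smul d)
          have h4 := h3.eventually (closedBall_mem_nhds _ (by positivity :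
            0 < (1 - d) * (S.r / 2)))
          exact h4.mono fun j hj => hball hj
        have hev2 : ∀ᶠ j in atTop, c (φ j) < d := hc1.eventually (gt_mem_nhds hd1)
        obtain ⟨j, hj1, hj2⟩ := (hev1.and hev2).exists
        refine (hbd (φ j)).2 (d / c (φ j)) ?_ ?_
        · rw [lt_div_iff₀ (hc0 _), one_mul]; exact hj2
        · rw [smul_smul, div_mul_cancel₀ _ (hc0 _).ne']
          refine ⟨?_, hj1⟩
          rw [inner_smul_right, he_orth, mul_zero]
    rw [hc01, one_smul] at hpair hwlim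
    refine ⟨n0, t0, t0', ?_, hpair, ?_, ?_⟩
    · have h1 : Tendsto (fun j => ⟪n (φ j), c (φ j) • e (φ j + N)⟫) atTop (𝓝 ⟪n0, w⟫) :=
        hn1.inner hwlim
      have h2 : (fun j => ⟪n (φ j), c (φ j) • e (φ j + N)⟫) = fun _ => (1 : ℝ) := by
        funext j
        exact hn (φ j)
      rw [h2] at h1
      exact tendsto_nhds_unique h1 tendsto_const_nhds
    · unfold Rel
      have h1 : Tendsto (fun j => (2 : ℝ) • (A (φ j + N)) (n (φ j))) atTop
          (𝓝 ((2 : ℝ) • A0 n0)) :=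
        Tendsto.const_smul ((isBoundedBilinearMap_apply.continuous.tendsto (A0, n0)).comp
          (hφA.prodMk_nhds hn1)) 2
      have h2 : Tendsto (fun j => -(t (φ j) + t' (φ j)) • (c (φ j) • e (φ j + N)) +
          (t (φ j) - t' (φ j)) • κ (φ j + N)) atTop
          (𝓝 (-(t0 + t0') • w + (t0 - t0') • κ0)) :=
        ((ht1.add ht1').neg.smul hwlim).add ((ht1.sub ht1').smul hφκ)
      have h3 : (fun j => (2 : ℝ) • (A (φ j + N)) (n (φ j))) =
          fun j => -(t (φ j) + t' (φ j)) • (c (φ j) • e (φ j + N)) +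
          (t (φ j) - t' (φ j)) • κ (φ j + N) := by
        funext j
        exact hrel (φ j)
      rw [h3] at h1
      exact tendsto_nhds_unique h1 h2
    · exact hP.mem_of_tendsto (ht1.add ht1') (Eventually.of_forall fun j => htt (φ j))

theorem dat_closed {P : Set ℝ} (hP : IsClosed P) {v : ℕ → E} {A : ℕ → E →L[ℝ] E} {κ : ℕ → E}
    {v0 : E} {A0 : E →L[ℝ] E} {κ0 : E} (hv0 : v0 ≠ 0) (h : ∀ j, S.Dat P (v j) (A j) (κ j))
    (hv : Tendsto v atTop (𝓝 v0)) (hA : Tendsto A atTop (𝓝 A0)) (hκ : Tendsto κ atTop (𝓝 κ0)) :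
    S.Dat P v0 A0 κ0 := by
  have hv0' : 0 < ‖v0‖ := norm_pos_iff.mpr hv0
  obtain ⟨N, hN⟩ : ∃ N, ∀ j ≥ N, ‖v0‖ / 2 < ‖v j‖ :=
    eventually_atTop.mp (hv.norm.eventually (lt_mem_nhds (by linarith : ‖v0‖ / 2 < ‖v0‖)))
  have hs : Tendsto (fun j : ℕ => j + N) atTop atTop := tendsto_add_atTop_nat N
  exact S.closed_aux hP hv0 (v := fun j => v (j + N)) (A := fun j => A (j + N))
    (κ := fun j => κ (j + N)) (fun j => h _) (hv.comp hs) (hA.comp hs) (hκ.comp hs)
    (fun j => (hN _ (Nat.le_add_left _ _)).le)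

theorem dat_compact {P : Set ℝ} (hP : IsClosed P) {v : ℕ → E} {A : ℕ → E →L[ℝ] E} {κ : ℕ → E}
    {v0 : E} (hv0 : v0 ≠ 0) (h : ∀ j, S.Dat P (v j) (A j) (κ j))
    (hv : Tendsto v atTop (𝓝 v0)) :
    ∃ (φ : ℕ → ℕ) (A0 : E →L[ℝ] E) (κ0 : E), StrictMono φ ∧
      Tendsto (A ∘ φ) atTop (𝓝 A0) ∧ Tendsto (κ ∘ φ) atTop (𝓝 κ0) ∧ S.Dat P v0 A0 κ0 := by
  have hv0' : 0 < ‖v0‖ := norm_pos_iff.mpr hv0
  have hR := S.R_nonneg
  have hc := S.cst_nonneg
  obtain ⟨N, hN⟩ : ∃ N, ∀ j ≥ N, ‖v0‖ / 2 < ‖v j‖ :=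
    eventually_atTop.mp (hv.norm.eventually (lt_mem_nhds (by linarith : ‖v0‖ / 2 < ‖v0‖)))
  have hNv : ∀ j, v (j + N) ≠ 0 := by
    intro j hj
    have := hN (j + N) (Nat.le_add_left _ _)
    rw [hj, norm_zero] at this
    linarith
  have hcomp : IsCompact ((closedBall (0 : E →L[ℝ] E)
      (4 * S.R * (1 + 4 * S.R / S.r) / (‖v0‖ / 2))) ×ˢ (closedBall (0 : E) (2 * S.R))) := by
    have : ProperSpace (E →L[ℝ] E) := FiniteDimensional.proper ℝ _
    exact (isCompact_closedBall _ _).prod (isCompact_closedBall _ _)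
  obtain ⟨⟨A0, κ0⟩, -, φ, hφ, hlim⟩ := hcomp.tendsto_subseq
    (x := fun j => (A (j + N), κ (j + N))) (by
      intro j
      refine ⟨?_, ?_⟩
      · rw [mem_closedBall_zero_iff]
        refine (S.dat_bound (hNv j) (h _)).trans ?_
        apply div_le_div_of_nonneg_left (by positivity) (by linarith)
        exact (hN _ (Nat.le_add_left _ _)).le
      · rw [mem_closedBall_zero_iff]
        exact S.kappa_norm (hNv j) (h _).1)
  have hA1 : Tendsto (fun j => A (φ j + N)) atTop (𝓝 A0) :=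
    (continuous_fst.tendsto _).comp hlim
  have hκ1 : Tendsto (fun j => κ (φ j + N)) atTop (𝓝 κ0) :=
    (continuous_snd.tendsto _).comp hlim
  have hshift : Tendsto (fun j => φ j + N) atTop atTop :=
    (tendsto_add_atTop_nat N).comp hφ.tendsto_atTop
  refine ⟨fun j => φ j + N, A0, κ0, fun i j hij => Nat.add_lt_add_right (hφ hij) N, hA1, hκ1, ?_⟩
  exact S.dat_closed hP hv0 (fun j => h (φ j + N)) (hv.comp hshift) hA1 hκ1

/-- scaling of `v` -/
theorem dat_smul {P : Set ℝ} {v : E} {A : E →L[ℝ] E} {κ : E} {c : ℝ} (hc : 0 < c) (hv : v ≠ 0)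
    (hP : ∀ t ∈ P, t / c ∈ P) (h : S.Dat P v A κ) : S.Dat P (c • v) ((1 / c) • A) κ := by
  have hC : S.C (c • v) = S.C v := S.C_smul hc hv
  have hh : S.h (c • v) = c * S.h v := S.h_smul hc.le v
  have hrel : ∀ (w n : E) (t t' : ℝ), Rel A κ w n t t' →
      Rel ((1 / c) • A) κ w n (t / c) (t' / c) := by
    intro w n t t' h1
    unfold Rel at h1 ⊢
    have : (2 : ℝ) • ((1 / c) • A) n = (1 / c) • ((2 : ℝ) • A n) := by
      rw [smul_apply, smul_comm]
    rw [this, h1, smul_add, smul_smul, smul_smul]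
    congr 2
    · ring
    · ring
  have hSp : S.Sp (c • v) = S.Sp v := by
    ext w
    simp only [Sp, mem_ofPred_eq, hC, inner_smul_left, RCLike.conj_to_real, mul_eq_zero, hc.ne',
      false_or]
  refine ⟨?_, ?_, ?_⟩
  · rw [hC]
    refine ⟨h.1.1, ?_⟩
    rw [hh, inner_smul_left, h.1.2]
    simp
  · intro n
    obtain ⟨w, t, t', hp, hr, htt⟩ := h.2.1 n
    refine ⟨w, t / c, t' / c, S.pair_smul hv hc hp, hrel _ _ _ _ hr, ?_⟩
    rw [← add_div]
    exact hP _ htt
  · intro w hw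
    have hw' : w ∈ S.bd v := by
      refine ⟨by rw [← hSp]; exact hw.1, ?_⟩
      rw [← hSp]
      exact hw.2
    obtain ⟨n, t, t', hn, hp, hr, htt⟩ := h.2.2 w hw'
    refine ⟨n, t / c, t' / c, hn, S.pair_smul hv hc hp, hrel _ _ _ _ hr, ?_⟩
    rw [← add_div]
    exact hP _ htt

end Setting
end Pool.Agent.Helper18.BL
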