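import Mathlib
import Pool.Agent.Helper18.BL.T4

set_option autoImplicit false

open Set MeasureTheory Filter Topology Metric
open scoped RealInnerProductSpace

namespace Pool.Agent.Helper18.BL
namespace Setting
variable (S : Setting)

/-- four mutually orthogonal vectors in `E` cannot be all nonzero -/
private lemma orth4 {v κ c n : E} (hv : v ≠ 0) (hκ : κ ≠ 0) (hc : c ≠ 0) (h1 : ⟪v, κ⟫ = 0)
    (h2 : ⟪v, c⟫ = 0) (h3 : ⟪κ, c⟫ = 0) (e1 : ⟪v, n⟫ = 0) (e2 : ⟪κ, n⟫ = 0) (e3 : ⟪c, n⟫ = 0) :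
    n = 0 := by
  by_contra hn
  have hli : LinearIndependent ℝ ![v, κ, c, n] := by
    apply linearIndependent_of_ne_zero_of_inner_eq_zero (𝕜 := ℝ)
    · intro i
      fin_cases i <;> simpa
    · intro i j hij
      fin_cases i <;> fin_cases j <;>
        first
          | exact absurd rfl hij
          | simpa using h1
          | simpa using h2
          | simpa using h3
          | simpa using e1
          | simpa using e2
          | simpa using e3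
          | (rw [real_inner_comm]; simpa using h1)
          | (rw [real_inner_comm]; simpa using h2)
          | (rw [real_inner_comm]; simpa using h3)
          | (rw [real_inner_comm]; simpa using e1)
          | (rw [real_inner_comm]; simpa using e2)
          | (rw [real_inner_comm]; simpa using e3)
  have := hli.fintype_card_le_finrank
  simp at this

/-- decomposition in an orthogonal basis -/
private lemma decomp {v κ c : E} (hv : v ≠ 0) (hκ : κ ≠ 0) (hc : c ≠ 0) (h1 : ⟪v, κ⟫ = 0)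
    (h2 : ⟪v, c⟫ = 0) (h3 : ⟪κ, c⟫ = 0) (n : E) :
    n = (⟪v, n⟫ / ⟪v, v⟫) • v + (⟪κ, n⟫ / ⟪κ, κ⟫) • κ + (⟪c, n⟫ / ⟪c, c⟫) • c := by
  have hvv : ⟪v, v⟫ ≠ 0 := inner_self_ne_zero.mpr hv
  have hkk : ⟪κ, κ⟫ ≠ 0 := inner_self_ne_zero.mpr hκ
  have hcc : ⟪c, c⟫ ≠ 0 := inner_self_ne_zero.mpr hc
  have h1' : ⟪κ, v⟫ = 0 := by rw [real_inner_comm]; exact h1
  have h2' : ⟪c, v⟫ = 0 := by rw [real_inner_comm]; exact h2
  have h3' : ⟪c, κ⟫ = 0 := by rw [real_inner_comm]; exact h3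
  rw [← sub_eq_zero]
  apply orth4 hv hκ hc h1 h2 h3
  · simp only [inner_sub_right, inner_add_right, inner_smul_right, h1, h2, mul_zero, add_zero]
    field_simp
    ring
  · simp only [inner_sub_right, inner_add_right, inner_smul_right, h1', h3, mul_zero, add_zero,
      zero_add]
    field_simp
    ring
  · simp only [inner_sub_right, inner_add_right, inner_smul_right, h2', h3', mul_zero, add_zero,
      zero_add]
    field_simp
    ring

private lemma pair_vw {v w n : E} {t t' : ℝ} (h : S.Pair v w n t t') : ⟪v, w⟫ = 0 := h.1.1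

/-- points above and below -/
private lemma up_down {v : E} (hv : v ≠ 0) : ∃ s : ℝ, 0 < s ∧ S.C v + s • v ∈ S.K1 ∧
    S.C v - s • v ∈ S.K1 := by
  have hnv : 0 < ‖v‖ := norm_pos_iff.mpr hv
  have hr := S.r_pos
  refine ⟨S.r / (2 * ‖v‖), by positivity, ?_, ?_⟩
  · apply S.C_ball hv
    rw [mem_closedBall, dist_eq_norm, add_sub_cancel_left, norm_smul, Real.norm_eq_abs,
      abs_of_pos (by positivity)]
    apply le_of_eq
    field_simp
  · apply S.C_ball hv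
    rw [mem_closedBall, dist_eq_norm, sub_sub_cancel_left, norm_neg, norm_smul, Real.norm_eq_abs,
      abs_of_pos (by positivity)]
    apply le_of_eq
    field_simp

/-- `n = v` in the datum gives `A v = κ` -/
theorem dat_Av {P : Set ℝ} {v κ : E} {A : E →L[ℝ] E} (hv : v ≠ 0) (h : S.Dat P v A κ) :
    A v = κ := by
  obtain ⟨w, t, t', hp, hrel, -⟩ := h.2.1 v
  obtain ⟨s, hs, hu, hd⟩ := S.up_down hv
  have hvv : 0 < ⟪v, v⟫ := real_inner_self_pos.mpr hv
  have hvw : ⟪v, w⟫ = 0 := hp.1.1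
  have a1 := hp.2.1 _ hu
  have a2 := hp.2.1 _ hd
  have b1 := hp.2.2 _ hu
  have b2 := hp.2.2 _ hd
  simp only [inner_sub_left, inner_sub_right, inner_add_right, inner_smul_left, inner_smul_right,
    inner_neg_left, hvw, conj_trivial] at a1 a2 b1 b2
  have hsv : 0 < s * ⟪v, v⟫ := mul_pos hs hvv
  have ht : t = 1 := by
    have e1 : (1 - t) * (s * ⟪v, v⟫) ≤ 0 := by linarith
    have e2 : 0 ≤ (1 - t) * (s * ⟪v, v⟫) := by linarith
    have e3 : (1 - t) * (s * ⟪v, v⟫) = 0 := le_antisymm e1 e2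
    rcases mul_eq_zero.mp e3 with h | h
    · linarith
    · exact absurd h hsv.ne'
  have ht' : t' = -1 := by
    have e1 : (1 + t') * (s * ⟪v, v⟫) ≤ 0 := by linarith
    have e2 : 0 ≤ (1 + t') * (s * ⟪v, v⟫) := by linarith
    have e3 : (1 + t') * (s * ⟪v, v⟫) = 0 := le_antisymm e1 e2
    rcases mul_eq_zero.mp e3 with h | h
    · linarith
    · exact absurd h hsv.ne'
  unfold Rel at hrel
  rw [ht, ht'] at hrel
  have h2 : (2 : ℝ) • A v = (2 : ℝ) • κ := by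
    rw [hrel]
    norm_num
  exact smul_right_injective E (two_ne_zero) h2

/-- inner product of `Rel` with `c ⟂ κ` -/
private lemma rel_c {κ w n c : E} {t t' : ℝ} {A : E →L[ℝ] E} (hr : Rel A κ w n t t')
    (hcκ : ⟪κ, c⟫ = 0) : 2 * ⟪A n, c⟫ = -(t + t') * ⟪w, c⟫ := by
  unfold Rel at hr
  have := congrArg (fun z => ⟪z, c⟫) hr
  simp only [inner_add_left, inner_smul_left, hcκ, conj_trivial] at this
  linarith

/-- `L := Aᵀ c` has `⟪L, c⟫ = 0`, so `L ∥ κ`; the tip `b = κ/k` has a normal `n` with `⟪n,L⟫ = 0`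
(`Rel` at `w = b`), hence `L = 0`. -/
theorem zero_of_rho {v κ c : E} {A : E →L[ℝ] E} (hv : v ≠ 0) (hκ : κ ≠ 0)
    (h : S.Dat univ v A κ) (hc : c ≠ 0) (hcv : ⟪v, c⟫ = 0) (hcκ : ⟪κ, c⟫ = 0)
    (h0 : ⟪A c, c⟫ = 0) : ∀ n, ⟪A n, c⟫ = 0 := by
  have hvκ : ⟪v, κ⟫ = 0 := S.F_orth hv h.1
  have hAv := S.dat_Av hv h
  obtain ⟨c0, hc0, hb⟩ := S.exists_bd hv hκ hvκ
  obtain ⟨n, t, t', hn1, hp, hrel, -⟩ := h.2.2 _ hb
  have hkk : ⟪κ, κ⟫ ≠ 0 := inner_self_ne_zero.mpr hκ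
  have hLn : ⟪A n, c⟫ = 0 := by
    have := rel_c hrel hcκ
    rw [inner_smul_left, hcκ] at this
    linarith
  have key : ∀ m, ⟪A m, c⟫ = (⟪κ, m⟫ / ⟪κ, κ⟫) * ⟪A κ, c⟫ := by
    intro m
    have hd := decomp hv hκ hc hvκ hcv hcκ m
    have := congrArg (fun z => ⟪A z, c⟫) hd
    simp only [map_add, map_smul, inner_add_left, inner_smul_left, conj_trivial, hAv, hcκ, h0,
      mul_zero, zero_add, add_zero] at this
    exact this
  have hκn : ⟪κ, n⟫ ≠ 0 := by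
    intro h'
    rw [inner_smul_right, real_inner_comm, h'] at hn1
    simp at hn1
  have hLκ : ⟪A κ, c⟫ = 0 := by
    have := key n
    rw [hLn] at this
    rcases mul_eq_zero.mp this.symm with h' | h'
    · exact absurd h' (div_ne_zero hκn hkk)
    · exact h'
  intro m
  rw [key m, hLκ, mul_zero]

private lemma zero_mem_Sp {v : E} (hv : v ≠ 0) : (0 : E) ∈ S.Sp v := by
  refine ⟨inner_zero_right _, ?_⟩
  rw [add_zero]
  exact S.C_mem hv

/-- proof text §2: `t + t' = 0`, `t = ⟪n, q⟫` for `w ∦ κ`, where `⟪n,q⟫ = ⟪A n, κ⟫/‖κ‖²`. -/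
theorem cyl_of_zero {v κ c : E} {A : E →L[ℝ] E} (hv : v ≠ 0) (hκ : κ ≠ 0)
    (h : S.Dat univ v A κ) (hc : c ≠ 0) (hcv : ⟪v, c⟫ = 0) (hcκ : ⟪κ, c⟫ = 0)
    (h0 : ∀ n, ⟪A n, c⟫ = 0) : ∃ q, S.Cyl v q := by
  have hvκ : ⟪v, κ⟫ = 0 := S.F_orth hv h.1
  have hAv := S.dat_Av hv h
  have hkk : ⟪κ, κ⟫ ≠ 0 := inner_self_ne_zero.mpr hκ
  have hvC := S.C_h v hv
  set q : E := (1 / ⟪κ, κ⟫) • (ContinuousLinearMap.adjoint A) κ with hq
  have hnq : ∀ n, ⟪n, q⟫ = ⟪A n, κ⟫ / ⟪κ, κ⟫ := by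
    intro n
    rw [hq, inner_smul_right, ContinuousLinearMap.adjoint_inner_right]
    ring
  have hvq : ⟪v, q⟫ = 1 := by
    rw [hnq, hAv, div_self hkk]
  -- the map z
  set z : E → E := fun x => x - (⟪v, x⟫ - S.h v) • q - S.C v with hz
  have hvz : ∀ x, ⟪v, z x⟫ = 0 := by
    intro x
    simp only [hz, inner_sub_right, inner_smul_right, hvq, hvC]
    ring
  have main : ∀ x ∈ S.K1, ⟪z x, c⟫ ≠ 0 → z x ∈ S.Sp v := by
    intro x hx hzc
    have hz0 : z x ≠ 0 := by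
      intro h'
      rw [h', inner_zero_left] at hzc
      exact hzc rfl
    obtain ⟨s, hs, hb⟩ := S.exists_bd hv hz0 (hvz x)
    obtain ⟨n, t, t', hn1, hp, hrel, -⟩ := h.2.2 _ hb
    have hrc := rel_c hrel hcκ
    rw [h0 n, inner_smul_left, conj_trivial] at hrc
    have hsum : t + t' = 0 := by
      have : (t + t') * (s * ⟪z x, c⟫) = 0 := by linarith
      rcases mul_eq_zero.mp this with h' | h'
      · exact h'
      · exact absurd h' (mul_ne_zero hs.ne' hzc)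
    have ht' : t' = -t := by linarith
    have hAn : A n = t • κ := by
      unfold Rel at hrel
      rw [hsum, ht'] at hrel
      have h2 : (2 : ℝ) • A n = (2 : ℝ) • (t • κ) := by
        rw [hrel]
        module
      exact smul_right_injective E (two_ne_zero) h2
    have htq : ⟪n, q⟫ = t := by
      rw [hnq, hAn, inner_smul_left, conj_trivial]
      field_simp
    have hle := hp.2.1 x hx
    have hnz : ⟪n, z x⟫ ≤ 1 := by
      simp only [inner_sub_left, inner_add_right, inner_smul_left, conj_trivial, hn1, hvC,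
        hb.1.1] at hle
      simp only [hz, inner_sub_right, inner_smul_right, htq]
      linarith
    have hs1 : 1 ≤ s := by
      rw [inner_smul_right] at hn1
      nlinarith
    have hconv := S.Sp_convex v
    have hmem := hconv hb.1 (S.zero_mem_Sp hv) (a := 1 / s) (b := 1 - 1 / s) (by positivity)
      (by
        rw [sub_nonneg, div_le_one hs]
        exact hs1) (by ring)
    rw [smul_zero, add_zero, smul_smul, one_div, inv_mul_cancel₀ hs.ne', one_smul] at hmem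
    exact hmem
  have hclosed : IsClosed (S.Sp v) := (S.Sp_compact v).isClosed
  have hnc : 0 < ‖c‖ := norm_pos_iff.mpr hc
  have hcc : 0 < ⟪c, c⟫ := real_inner_self_pos.mpr hc
  have hr := S.r_pos
  set δ : ℝ := S.r / (2 * ‖c‖) with hδ
  have hδ0 : 0 < δ := by positivity
  have hCδ : S.C v + δ • c ∈ S.K1 := by
    apply S.C_ball hv
    rw [mem_closedBall, dist_eq_norm, add_sub_cancel_left, norm_smul, Real.norm_eq_abs,
      abs_of_pos hδ0, hδ]
    apply le_of_eq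
    field_simp
  have hall : ∀ x ∈ S.K1, z x ∈ S.Sp v := by
    intro x hx
    by_cases hzc : ⟪z x, c⟫ = 0
    swap
    · exact main x hx hzc
    have hstep : ∀ j : ℕ, (1 - 1 / ((j : ℝ) + 1)) • z x + (1 / ((j : ℝ) + 1)) • (δ • c) ∈
        S.Sp v := by
      intro j
      have hj : (0 : ℝ) < (j : ℝ) + 1 := by positivity
      have hj1 : 1 / ((j : ℝ) + 1) ≤ 1 := by
        rw [div_le_one hj]
        have : (0 : ℝ) ≤ (j : ℝ) := Nat.cast_nonneg j
        linarith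
      have hxj : (1 - 1 / ((j : ℝ) + 1)) • x + (1 / ((j : ℝ) + 1)) • (S.C v + δ • c) ∈ S.K1 :=
        S.K1_convex hx hCδ (by linarith) (by positivity) (by ring)
      have hzj : z ((1 - 1 / ((j : ℝ) + 1)) • x + (1 / ((j : ℝ) + 1)) • (S.C v + δ • c)) =
          (1 - 1 / ((j : ℝ) + 1)) • z x + (1 / ((j : ℝ) + 1)) • (δ • c) := by
        simp only [hz, inner_add_right, inner_smul_right, hvC, hcv]
        module
      rw [← hzj]
      apply main _ hxj
      rw [hzj, inner_add_left, inner_smul_left, inner_smul_left, inner_smul_left, hzc]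
      simp only [conj_trivial, mul_zero, zero_add]
      positivity
    have hlim : Tendsto (fun j : ℕ => (1 - 1 / ((j : ℝ) + 1)) • z x +
        (1 / ((j : ℝ) + 1)) • (δ • c)) atTop (𝓝 ((1 - (0 : ℝ)) • z x + (0 : ℝ) • (δ • c))) := by
      have h1 : Tendsto (fun j : ℕ => 1 / ((j : ℝ) + 1)) atTop (𝓝 0) :=
        tendsto_one_div_add_atTop_nhds_zero_nat
      exact ((tendsto_const_nhds.sub h1).smul_const _).add (h1.smul_const _)
    rw [sub_zero, one_smul, zero_smul, add_zero] at hlim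
    exact hclosed.mem_of_tendsto hlim (Eventually.of_forall hstep)
  refine ⟨q, hvq, fun x hx => ?_⟩
  have := (hall x hx).2
  have he : S.C v + z x = x - (⟪v, x⟫ - S.h v) • q := by
    simp only [hz]
    abel
  rwa [he] at this

/-- a cylinder gives pairs with `t = ⟪n,q⟫`, `t' = -⟪n,q⟫` -/
private lemma cyl_pair {v q w n : E} (hv : v ≠ 0) (hq : S.Cyl v q) (hw : w ∈ S.Sp v)
    (hmax : ∀ w' ∈ S.Sp v, ⟪n, w'⟫ ≤ ⟪n, w⟫) : S.Pair v w n ⟪n, q⟫ (-⟪n, q⟫) := by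
  have hvC := S.C_h v hv
  have hvw : ⟪v, w⟫ = 0 := hw.1
  have hy : ∀ x ∈ S.K1, x - (⟪v, x⟫ - S.h v) • q - S.C v ∈ S.Sp v := by
    intro x hx
    refine ⟨?_, ?_⟩
    · simp only [inner_sub_right, inner_smul_right, hq.1, hvC]
      ring
    · have := hq.2 x hx
      rwa [add_sub_cancel]
  refine ⟨hw, fun x hx => ?_, fun x hx => ?_⟩
  · have h1 := hmax _ (hy x hx)
    simp only [inner_sub_right, inner_smul_right] at h1
    simp only [inner_sub_left, inner_add_right, inner_smul_left, conj_trivial, hvC, hvw]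
    linarith
  · have h1 := hmax _ (S.Sp_neg hv (hy x hx))
    simp only [inner_neg_right, inner_sub_right, inner_smul_right] at h1
    simp only [inner_sub_left, inner_sub_right, inner_neg_left, inner_smul_left, conj_trivial,
      hvC, hvw]
    linarith

/-- with `t = ⟪n,q⟫`, `t' = -⟪n,q⟫` -/
theorem dat_of_cyl {v q κ : E} (hv : v ≠ 0) (hq : S.Cyl v q) (hκ : S.C v + κ ∈ S.F v) :
    S.Dat (Iic 0) v ((innerSL ℝ q).smulRight κ) κ := by
  have hrel : ∀ w n : E, Rel ((innerSL ℝ q).smulRight κ) κ w n ⟪n, q⟫ (-⟪n, q⟫) := by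
    intro w n
    unfold Rel
    simp only [ContinuousLinearMap.smulRight_apply, innerSL_apply_apply]
    rw [real_inner_comm n q]
    module
  refine ⟨hκ, fun n => ?_, fun w hw => ?_⟩
  · obtain ⟨w, hw, hmax⟩ := (S.Sp_compact v).exists_isMaxOn ⟨0, S.zero_mem_Sp hv⟩
      (f := fun w => ⟪n, w⟫) (by fun_prop)
    refine ⟨w, ⟪n, q⟫, -⟪n, q⟫, S.cyl_pair hv hq hw (fun w' hw' => hmax hw'), hrel w n, ?_⟩
    simp
  · obtain ⟨n, t, t', -, hn1, hp⟩ := S.pair_exists_w hv hw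
    refine ⟨n, ⟪n, q⟫, -⟪n, q⟫, hn1, S.cyl_pair hv hq hw.1 (S.pair_max hv hp), hrel w n, ?_⟩
    simp

private lemma R_pos' {v : E} (hv : v ≠ 0) : 0 < S.R := by
  obtain ⟨s, hs, hu, hd⟩ := S.up_down hv
  have h1 := S.K1_bdd _ hu
  have h2 := S.K1_bdd _ hd
  have h3 : ‖(S.C v + s • v) - (S.C v - s • v)‖ ≤ S.R + S.R :=
    (norm_sub_le _ _).trans (add_le_add h1 h2)
  have h4 : (S.C v + s • v) - (S.C v - s • v) = (2 * s) • v := by module
  rw [h4, norm_smul, Real.norm_eq_abs, abs_of_pos (by positivity)] at h3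
  have : 0 < 2 * s * ‖v‖ := by
    have := norm_pos_iff.mpr hv
    positivity
  linarith

/-- tip frame, general form (no condition on `⟪A c, c⟫`, and `k` bounded away from `1`) -/
theorem frame0 {P : Set ℝ} {v κ c : E} {A : E →L[ℝ] E} (hv : v ≠ 0) (hκ : κ ≠ 0)
    (h : S.Dat P v A κ) (hc : c ≠ 0) (hcv : ⟪v, c⟫ = 0) (hcκ : ⟪κ, c⟫ = 0) :
    ∃ (k : ℝ) (nb : E), 0 < k ∧ k < 1 ∧ k ≤ 1 / (1 + S.r / (2 * S.R)) ∧ (1 / k) • κ ∈ S.bd v ∧
      ⟪v, nb⟫ = 0 ∧ ⟪nb, κ⟫ = k ∧ ⟪A nb, c⟫ = 0 ∧ (∀ w ∈ S.Sp v, |⟪nb, w⟫| ≤ 1) ∧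
      ∀ (w n : E) (t t' : ℝ), S.Pair v w n t t' → Rel A κ w n t t' → ⟪n, w⟫ = 1 → ⟪v, n⟫ = 0 →
        |⟪n, κ⟫ / k| ≤ 1 ∧ -(t + t') * ⟪w, c⟫ ^ 2 = 2 * ⟪A c, c⟫ * (1 - ⟪nb, w⟫ * (⟪n, κ⟫ / k)) := by
  have hvκ : ⟪v, κ⟫ = 0 := S.F_orth hv h.1
  have hAv := S.dat_Av hv h
  have hvv : ⟪v, v⟫ ≠ 0 := inner_self_ne_zero.mpr hv
  have hR := S.R_pos' hv
  have hr := S.r_pos
  obtain ⟨c1, hc1, hc1m⟩ := S.F_inside hv h.1
  obtain ⟨c0, hc0, hb⟩ := S.exists_bd hv hκ hvκ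
  have hrR : 0 < S.r / (2 * S.R) := by positivity
  have hc10 : c1 ≤ c0 := by
    by_contra hle
    push Not at hle
    apply hb.2 (c1 / c0) (by
      rw [lt_div_iff₀ hc0]
      linarith)
    rw [smul_smul, div_mul_cancel₀ _ hc0.ne']
    exact hc1m
  have hc01 : 1 < c0 := by linarith
  obtain ⟨n0, t0, t0', hn1, hp, hrel, -⟩ := h.2.2 _ hb
  set s0 : ℝ := ⟪v, n0⟫ / ⟪v, v⟫ with hs0
  set nb : E := n0 - s0 • v with hnb
  have hn0κ : ⟪n0, κ⟫ = 1 / c0 := by
    rw [inner_smul_right] at hn1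
    rw [eq_div_iff hc0.ne']
    linarith
  have hvnb : ⟪v, nb⟫ = 0 := by
    rw [hnb, inner_sub_right, inner_smul_right, hs0]
    field_simp
    ring
  have hnbκ : ⟪nb, κ⟫ = 1 / c0 := by
    rw [hnb, inner_sub_left, inner_smul_left, hvκ, hn0κ]
    simp
  have hAnb : ⟪A nb, c⟫ = 0 := by
    have h1 := rel_c hrel hcκ
    rw [inner_smul_left, hcκ] at h1
    rw [hnb, map_sub, map_smul, hAv, inner_sub_left, inner_smul_left, hcκ]
    simp only [mul_zero] at h1 ⊢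
    linarith
  have hnbw : ∀ w ∈ S.Sp v, ⟪nb, w⟫ ≤ 1 := by
    intro w hw
    have h1 := S.pair_max hv hp w hw
    rw [hn1] at h1
    rw [hnb, inner_sub_left, inner_smul_left, hw.1]
    simpa using h1
  have hnbw' : ∀ w ∈ S.Sp v, |⟪nb, w⟫| ≤ 1 := by
    intro w hw
    rw [abs_le]
    refine ⟨?_, hnbw w hw⟩
    have := hnbw _ (S.Sp_neg hv hw)
    rw [inner_neg_right] at this
    linarith
  refine ⟨1 / c0, nb, by positivity, by
      rw [div_lt_one hc0]
      exact hc01, one_div_le_one_div_of_le (by positivity) (by linarith),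
      by rwa [one_div_one_div], hvnb, hnbκ, hAnb, hnbw', ?_⟩
  intro w n t t' hpw hrw hnw hvn
  have hX : ⟪n, κ⟫ / (1 / c0) = ⟪n, c0 • κ⟫ := by
    rw [inner_smul_right]
    field_simp
  rw [hX]
  refine ⟨?_, ?_⟩
  · rw [abs_le]
    constructor
    · have := S.pair_max hv hpw _ (S.Sp_neg hv hb.1)
      rw [inner_neg_right, hnw] at this
      linarith
    · have := S.pair_max hv hpw _ hb.1
      rw [hnw] at this
      exact this
  · set X : ℝ := ⟪n, c0 • κ⟫ with hXd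
    set m : E := n - X • nb with hm
    have hm1 : ⟪v, m⟫ = 0 := by
      rw [hm, inner_sub_right, inner_smul_right, hvn, hvnb]
      ring
    have hm2 : ⟪κ, m⟫ = 0 := by
      rw [hm, inner_sub_right, inner_smul_right, real_inner_comm nb κ, hnbκ, real_inner_comm n κ,
        hXd, inner_smul_right]
      field_simp
      ring
    have hmd := decomp hv hκ hc hvκ hcv hcκ m
    rw [hm1, hm2, zero_div, zero_smul, zero_div, zero_smul, zero_add, zero_add] at hmd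
    set γ : ℝ := ⟪c, m⟫ / ⟪c, c⟫ with hγ
    have hn : n = X • nb + γ • c := by
      rw [← hmd, hm]
      abel
    have e1 : ⟪A n, c⟫ = γ * ⟪A c, c⟫ := by
      rw [hn, map_add, map_smul, map_smul, inner_add_left, inner_smul_left, inner_smul_left, hAnb]
      simp
    have e2 : (1 : ℝ) = X * ⟪nb, w⟫ + γ * ⟪w, c⟫ := by
      rw [← hnw]
      conv_lhs => rw [hn]
      rw [inner_add_left, inner_smul_left, inner_smul_left, real_inner_comm w c]
      simp
    have e3 := rel_c hrw hcκ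
    have e4 : 1 - ⟪nb, w⟫ * X = γ * ⟪w, c⟫ := by linarith
    rw [e4]
    calc -(t + t') * ⟪w, c⟫ ^ 2 = (-(t + t') * ⟪w, c⟫) * ⟪w, c⟫ := by ring
      _ = (2 * ⟪A n, c⟫) * ⟪w, c⟫ := by rw [e3]
      _ = 2 * ⟪A c, c⟫ * (γ * ⟪w, c⟫) := by rw [e1]; ring

/-- tip frame: `b = κ/k`, `nb` the tip conormal. With `x = ⟪nb,w⟫`, `X = ⟪n,κ⟫/k`,
`y = ⟪w,c⟫/ρ`, `Y = ⟪A n, c⟫ = -(t+t')/2 * ⟪w,c⟫`, `x X + y Y = 1`. -/
theorem frame {v κ c : E} {A : E →L[ℝ] E} (hv : v ≠ 0) (hκ : κ ≠ 0)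
    (h : S.Dat univ v A κ) (hcv : ⟪v, c⟫ = 0) (hcκ : ⟪κ, c⟫ = 0)
    (hρ : ⟪A c, c⟫ ≠ 0) : ∃ (k : ℝ) (nb : E), 0 < k ∧ k < 1 ∧ (1 / k) • κ ∈ S.bd v ∧
      ⟪v, nb⟫ = 0 ∧ ⟪nb, κ⟫ = k ∧ ⟪A nb, c⟫ = 0 ∧ (∀ w ∈ S.Sp v, |⟪nb, w⟫| ≤ 1) ∧
      ∀ (w n : E) (t t' : ℝ), S.Pair v w n t t' → Rel A κ w n t t' → ⟪n, w⟫ = 1 → ⟪v, n⟫ = 0 →
        |⟪n, κ⟫ / k| ≤ 1 ∧ -(t + t') * ⟪w, c⟫ ^ 2 = 2 * ⟪A c, c⟫ * (1 - ⟪nb, w⟫ * (⟪n, κ⟫ / k)) := by
  have hc : c ≠ 0 := by
    rintro rfl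
    simp at hρ
  obtain ⟨k, nb, h0, h1, -, h2⟩ := S.frame0 hv hκ h hc hcv hcκ
  exact ⟨k, nb, h0, h1, h2⟩

/-- the sign of `t + t'` -/
private lemma sign_A {σ : ℝ} {v κ c : E} {A : E →L[ℝ] E} (hv : v ≠ 0) (hκ : κ ≠ 0)
    (h : S.Dat univ v A κ) (hcv : ⟪v, c⟫ = 0) (hcκ : ⟪κ, c⟫ = 0)
    (hρ : 0 < σ * ⟪A c, c⟫) {w n : E} {t t' : ℝ} (hp : S.Pair v w n t t')
    (hr : Rel A κ w n t t') (hwc : ⟪w, c⟫ ≠ 0) : σ * (t + t') ≤ 0 := by
  have hvv : ⟪v, v⟫ ≠ 0 := inner_self_ne_zero.mpr hv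
  have hAv := S.dat_Av hv h
  -- first for `n ⟂ v`
  have key : ∀ (n : E) (t t' : ℝ), S.Pair v w n t t' → Rel A κ w n t t' → ⟪v, n⟫ = 0 →
      σ * (t + t') ≤ 0 := by
    intro n t t' hp hr hvn
    by_cases hn : n = 0
    · have := rel_c hr hcκ
      rw [hn, map_zero, inner_zero_left, mul_zero] at this
      have h2 : (t + t') * ⟪w, c⟫ = 0 := by linarith
      rcases mul_eq_zero.mp h2 with h3 | h3
      · rw [h3, mul_zero]
      · exact absurd h3 hwc
    · have hnn : 0 < ‖n‖ := norm_pos_iff.mpr hn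
      have hrp := S.r_pos
      have hpos : 0 < ⟪n, w⟫ := by
        have hmem : (S.r / (2 * ‖n‖)) • n ∈ S.Sp v := by
          apply S.Sp_ball hv
          · rw [inner_smul_right, hvn, mul_zero]
          · rw [norm_smul, Real.norm_eq_abs, abs_of_pos (by positivity)]
            apply le_of_eq
            field_simp
        have h1 := S.pair_max hv hp _ hmem
        rw [inner_smul_right] at h1
        have h2 : 0 < ⟪n, n⟫ := real_inner_self_pos.mpr hn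
        have h3 : 0 < S.r / (2 * ‖n‖) * ⟪n, n⟫ := by positivity
        linarith
      set μ : ℝ := 1 / ⟪n, w⟫ with hμ
      have hμ0 : 0 < μ := by positivity
      have hp' := S.pair_nsmul hμ0.le hp
      have hr' : Rel A κ w (μ • n) (μ * t) (μ * t') := by
        unfold Rel at hr ⊢
        have := congrArg (fun z => μ • z) hr
        rw [map_smul, smul_comm, this]
        module
      have hnw' : ⟪μ • n, w⟫ = 1 := by
        rw [inner_smul_left, conj_trivial, hμ]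
        field_simp
      have hvn' : ⟪v, μ • n⟫ = 0 := by rw [inner_smul_right, hvn, mul_zero]
      have hρ0 : ⟪A c, c⟫ ≠ 0 := by
        intro h'
        rw [h', mul_zero] at hρ
        exact lt_irrefl _ hρ
      obtain ⟨k, nb, hk0, hk1, hb, hvnb, hnbκ, hAnb, hnbw, hfr⟩ := S.frame hv hκ h hcv hcκ hρ0
      obtain ⟨hX, heq⟩ := hfr w (μ • n) (μ * t) (μ * t') hp' hr' hnw' hvn'
      have hx := hnbw w hp.1
      have hxX : ⟪nb, w⟫ * (⟪μ • n, κ⟫ / k) ≤ 1 := by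
        have h1 : |⟪nb, w⟫ * (⟪μ • n, κ⟫ / k)| ≤ 1 := by
          rw [abs_mul]
          exact mul_le_one₀ hx (abs_nonneg _) hX
        exact (le_abs_self _).trans h1
      have h1 : 0 ≤ σ * (-(μ * t + μ * t') * ⟪w, c⟫ ^ 2) := by
        rw [heq]
        have : σ * (2 * ⟪A c, c⟫ * (1 - ⟪nb, w⟫ * (⟪μ • n, κ⟫ / k))) =
          2 * (σ * ⟪A c, c⟫) * (1 - ⟪nb, w⟫ * (⟪μ • n, κ⟫ / k)) := by ring
        rw [this]
        have h2 : 0 ≤ 1 - ⟪nb, w⟫ * (⟪μ • n, κ⟫ / k) := by linarith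
        positivity
      have h2 : σ * (-(μ * t + μ * t') * ⟪w, c⟫ ^ 2) = -(σ * (t + t')) * (μ * ⟪w, c⟫ ^ 2) := by
        ring
      rw [h2] at h1
      have h3 : 0 < μ * ⟪w, c⟫ ^ 2 := by positivity
      have h4 := nonneg_of_mul_nonneg_left h1 h3
      linarith
  set s : ℝ := ⟪v, n⟫ / ⟪v, v⟫ with hs
  have hp' := S.pair_shift (s := -s) hv hp
  have hr' : Rel A κ w (n + (-s) • v) (t + -s) (t' - -s) := by
    unfold Rel at hr ⊢
    rw [map_add, map_smul, hAv, smul_add, hr]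
    module
  have := key _ _ _ hp' hr' (by
    rw [inner_add_right, inner_smul_right, hs]
    field_simp
    ring)
  have he : t + -s + (t' - -s) = t + t' := by ring
  rwa [he] at this

private lemma dat_sign {σ : ℝ} {v κ c : E} {A : E →L[ℝ] E} (hv : v ≠ 0) (hκ : κ ≠ 0)
    (h : S.Dat univ v A κ) (hcv : ⟪v, c⟫ = 0) (hcκ : ⟪κ, c⟫ = 0)
    (hρ : 0 < σ * ⟪A c, c⟫) : S.Dat {s | σ * s ≤ 0} v A κ := by
  have hρ0 : ⟪A c, c⟫ ≠ 0 := by
    intro h'
    rw [h', mul_zero] at hρ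
    exact lt_irrefl _ hρ
  have hc : c ≠ 0 := by
    rintro rfl
    simp at hρ0
  have hvκ : ⟪v, κ⟫ = 0 := S.F_orth hv h.1
  have hnv : 0 < ‖v‖ := norm_pos_iff.mpr hv
  have hrp := S.r_pos
  have hRp := S.R_pos' hv
  -- clause 2 when `⟪A n, c⟫ ≠ 0`
  have c2a : ∀ n : E, ⟪A n, c⟫ ≠ 0 → ∃ (w : E) (t t' : ℝ), S.Pair v w n t t' ∧
      Rel A κ w n t t' ∧ σ * (t + t') ≤ 0 := by
    intro n hn
    obtain ⟨w, t, t', hp, hr, -⟩ := h.2.1 n
    refine ⟨w, t, t', hp, hr, S.sign_A hv hκ h hcv hcκ hρ hp hr ?_⟩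
    intro h'
    have := rel_c hr hcκ
    rw [h', mul_zero] at this
    apply hn
    linarith
  have c2 : ∀ n : E, ∃ (w : E) (t t' : ℝ), S.Pair v w n t t' ∧
      Rel A κ w n t t' ∧ σ * (t + t') ≤ 0 := by
    intro n
    by_cases hn : ⟪A n, c⟫ = 0
    swap
    · exact c2a n hn
    have hj : ∀ j : ℕ, ⟪A (n + (1 / ((j : ℝ) + 1)) • c), c⟫ ≠ 0 := by
      intro j
      rw [map_add, map_smul, inner_add_left, inner_smul_left, hn, zero_add, conj_trivial]
      have : (0 : ℝ) < (j : ℝ) + 1 := by positivity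
      exact mul_ne_zero (by positivity) hρ0
    choose w t t' hp hr hs using fun j => c2a _ (hj j)
    -- bounds
    have hnb : ∀ j : ℕ, ‖n + (1 / ((j : ℝ) + 1)) • c‖ ≤ ‖n‖ + ‖c‖ := by
      intro j
      refine (norm_add_le _ _).trans (add_le_add le_rfl ?_)
      rw [norm_smul, Real.norm_eq_abs, abs_of_pos (by positivity)]
      have : 1 / ((j : ℝ) + 1) ≤ 1 := by
        rw [div_le_one (by positivity)]
        have : (0 : ℝ) ≤ (j : ℝ) := Nat.cast_nonneg j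
        linarith
      calc 1 / ((j : ℝ) + 1) * ‖c‖ ≤ 1 * ‖c‖ := by gcongr
        _ = ‖c‖ := one_mul _
    set M : ℝ := (4 * S.R / S.r * (‖n‖ + ‖c‖) + (‖n‖ + ‖c‖)) / ‖v‖ with hM
    have htb : ∀ j, t j ∈ Icc (-M) M := by
      intro j
      rw [mem_Icc, ← abs_le, hM, le_div_iff₀ hnv, ← Real.norm_eq_abs, ← norm_smul]
      have h1 := (S.pair_bound hv (hp j)).1
      have h2 : t j • v = (n + (1 / ((j : ℝ) + 1)) • c) -
        ((n + (1 / ((j : ℝ) + 1)) • c) - t j • v) := by abel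
      rw [h2]
      refine (norm_sub_le _ _).trans ?_
      have h3 : 4 * S.R / S.r * ‖n + (1 / ((j : ℝ) + 1)) • c‖ ≤
          4 * S.R / S.r * (‖n‖ + ‖c‖) := by
        gcongr
        exact hnb j
      have h4 := hnb j
      linarith
    have htb' : ∀ j, t' j ∈ Icc (-M) M := by
      intro j
      rw [mem_Icc, ← abs_le, hM, le_div_iff₀ hnv, ← Real.norm_eq_abs, ← norm_smul]
      have h1 := (S.pair_bound hv (hp j)).2
      have h2 : t' j • v = ((n + (1 / ((j : ℝ) + 1)) • c) + t' j • v) -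
        (n + (1 / ((j : ℝ) + 1)) • c) := by abel
      rw [h2]
      refine (norm_sub_le _ _).trans ?_
      have h3 : 4 * S.R / S.r * ‖n + (1 / ((j : ℝ) + 1)) • c‖ ≤
          4 * S.R / S.r * (‖n‖ + ‖c‖) := by
        gcongr
        exact hnb j
      have h4 := hnb j
      linarith
    have hcomp : IsCompact (S.Sp v ×ˢ (Icc (-M) M ×ˢ Icc (-M) M)) :=
      (S.Sp_compact v).prod (isCompact_Icc.prod isCompact_Icc)
    obtain ⟨⟨w0, t0, t0'⟩, -, φ, hφ, hlim⟩ := hcomp.tendsto_subseq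
      (x := fun j => (w j, t j, t' j)) (fun j => ⟨(hp j).1, htb j, htb' j⟩)
    rw [nhds_prod_eq, nhds_prod_eq] at hlim
    have hw : Tendsto (fun j => w (φ j)) atTop (𝓝 w0) :=
      (tendsto_fst.comp hlim)
    have ht : Tendsto (fun j => t (φ j)) atTop (𝓝 t0) :=
      (tendsto_fst.comp (tendsto_snd.comp hlim))
    have ht' : Tendsto (fun j => t' (φ j)) atTop (𝓝 t0') :=
      (tendsto_snd.comp (tendsto_snd.comp hlim))
    have hnlim : Tendsto (fun j => n + (1 / (((φ j : ℕ) : ℝ) + 1)) • c) atTop (𝓝 n) := by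
      have h1 : Tendsto (fun j : ℕ => 1 / ((j : ℝ) + 1)) atTop (𝓝 0) :=
        tendsto_one_div_add_atTop_nhds_zero_nat
      have h2 : Tendsto (fun j : ℕ => n + (1 / ((j : ℝ) + 1)) • c) atTop
          (𝓝 (n + (0 : ℝ) • c)) := tendsto_const_nhds.add (h1.smul_const _)
      rw [zero_smul, add_zero] at h2
      exact h2.comp hφ.tendsto_atTop
    refine ⟨w0, t0, t0', ?_, ?_, ?_⟩
    · exact S.pair_closed hv (fun j => hp (φ j)) tendsto_const_nhds hw hnlim ht ht'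
    · unfold Rel
      have hl : Tendsto (fun j => (2 : ℝ) • A (n + (1 / (((φ j : ℕ) : ℝ) + 1)) • c)) atTop
          (𝓝 ((2 : ℝ) • A n)) := (((A.continuous.tendsto n).comp hnlim).const_smul 2)
      have hrr : Tendsto (fun j => -(t (φ j) + t' (φ j)) • w (φ j) + (t (φ j) - t' (φ j)) • κ)
          atTop (𝓝 (-(t0 + t0') • w0 + (t0 - t0') • κ)) :=
        (((ht.add ht').neg).smul hw).add ((ht.sub ht').smul_const κ)
      refine tendsto_nhds_unique hl (hrr.congr (fun j => ?_))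
      exact (hr (φ j)).symm
    · have hl : Tendsto (fun j => σ * (t (φ j) + t' (φ j))) atTop (𝓝 (σ * (t0 + t0'))) :=
        (ht.add ht').const_mul σ
      exact le_of_tendsto' hl (fun j => hs (φ j))
  refine ⟨h.1, c2, fun w hw => ?_⟩
  obtain ⟨n, t, t', hn1, hp, hr, -⟩ := h.2.2 w hw
  by_cases hwc : ⟪w, c⟫ = 0
  swap
  · exact ⟨n, t, t', hn1, hp, hr, S.sign_A hv hκ h hcv hcκ hρ hp hr hwc⟩
  obtain ⟨w1, t1, t1', hp1, hr1, hs1⟩ := c2 n
  have hn1' : ⟪n, w1⟫ = 1 := by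
    have h1 := S.pair_max hv hp1 _ hp.1
    have h2 := S.pair_max hv hp _ hp1.1
    linarith
  have hLn : ⟪A n, c⟫ = 0 := by
    have := rel_c hr hcκ
    rw [hwc, mul_zero] at this
    linarith
  have h3 := rel_c hr1 hcκ
  rw [hLn, mul_zero] at h3
  have h4 : (t1 + t1') * ⟪w1, c⟫ = 0 := by linarith
  rcases mul_eq_zero.mp h4 with h5 | h5
  · refine ⟨n, t1, t1', hn1, ⟨hp.1, fun x hx => ?_, fun x hx => ?_⟩, ?_, hs1⟩
    · have h6 := hp1.2.1 x hx
      rw [inner_add_right] at h6 ⊢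
      have h7 : ⟪n - t1 • v, w1⟫ = ⟪n - t1 • v, w⟫ := by
        rw [inner_sub_left, inner_sub_left, inner_smul_left, inner_smul_left, hn1, hn1',
          hp.1.1, hp1.1.1]
      linarith
    · have h6 := hp1.2.2 x hx
      rw [inner_sub_right] at h6 ⊢
      have h7 : ⟪-n - t1' • v, w1⟫ = ⟪-n - t1' • v, w⟫ := by
        rw [inner_sub_left, inner_sub_left, inner_smul_left, inner_smul_left, inner_neg_left,
          inner_neg_left, hn1, hn1', hp.1.1, hp1.1.1]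
      linarith
    · unfold Rel at hr1 ⊢
      rw [h5] at hr1 ⊢
      rw [hr1]
      simp
  · have hd := decomp hv hκ hc hvκ hcv hcκ w
    have hd1 := decomp hv hκ hc hvκ hcv hcκ w1
    rw [hp.1.1, real_inner_comm w c, hwc, zero_div, zero_smul, zero_div, zero_smul, zero_add,
      add_zero] at hd
    rw [hp1.1.1, real_inner_comm w1 c, h5, zero_div, zero_smul, zero_div, zero_smul, zero_add,
      add_zero] at hd1
    have hww : w1 = w := by
      have e1 : (⟪κ, w⟫ / ⟪κ, κ⟫) * ⟪n, κ⟫ = 1 := by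
        rw [← inner_smul_right, ← hd]
        exact hn1
      have e2 : (⟪κ, w1⟫ / ⟪κ, κ⟫) * ⟪n, κ⟫ = 1 := by
        rw [← inner_smul_right, ← hd1]
        exact hn1'
      have e3 : ⟪n, κ⟫ ≠ 0 := by
        intro h'
        rw [h', mul_zero] at e1
        exact zero_ne_one e1
      have e4 : ⟪κ, w1⟫ / ⟪κ, κ⟫ = ⟪κ, w⟫ / ⟪κ, κ⟫ :=
        mul_right_cancel₀ e3 (e2.trans e1.symm)
      rw [hd, hd1, e4, ← hd]
    rw [hww] at hp1 hr1
    exact ⟨n, t1, t1', hn1, hp1, hr1, hs1⟩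

theorem dat_le_of_rho_pos {v κ c : E} {A : E →L[ℝ] E} (hv : v ≠ 0) (hκ : κ ≠ 0)
    (h : S.Dat univ v A κ) (hcv : ⟪v, c⟫ = 0) (hcκ : ⟪κ, c⟫ = 0)
    (hρ : 0 < ⟪A c, c⟫) : S.Dat (Iic 0) v A κ := by
  have := S.dat_sign (σ := 1) hv hκ h hcv hcκ (by rwa [one_mul])
  have he : {s : ℝ | 1 * s ≤ 0} = Iic 0 := by
    ext s
    simp
  rwa [he] at this

theorem dat_ge_of_rho_neg {v κ c : E} {A : E →L[ℝ] E} (hv : v ≠ 0) (hκ : κ ≠ 0)
    (h : S.Dat univ v A κ) (hcv : ⟪v, c⟫ = 0) (hcκ : ⟪κ, c⟫ = 0)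
    (hρ : ⟪A c, c⟫ < 0) : S.Dat (Ici 0) v A κ := by
  have := S.dat_sign (σ := -1) hv hκ h hcv hcκ (by linarith)
  have he : {s : ℝ | -1 * s ≤ 0} = Ici 0 := by
    ext s
    simp
  rwa [he] at this

theorem dat_ge_of_rhoNeg {v κ : E} {A : E →L[ℝ] E} (hv : v ≠ 0)
    (h : S.Dat univ v A κ) (hρ : RhoNeg v A κ) : S.Dat (Ici 0) v A κ := by
  obtain ⟨hκ, c, hcv, hcκ, hneg⟩ := hρ
  exact S.dat_ge_of_rho_neg hv hκ h hcv hcκ hneg

end Setting
end Pool.Agent.Helper18.BL
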