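import Mathlib
import Pool.Agent.Helper18.BL.P1
import Pool.Agent.Helper18.BL.P2

set_option autoImplicit false

open Set MeasureTheory Filter Topology Metric

namespace Pool.Agent.Helper18.BL

/-! ### PB8: square lemma.
If `b, w` are linearly dependent then `w = b`. Otherwise use the coordinates
`(p, r) = (pr n b, pr n w)` on the polar `D`; `D` is contained in the square `[-1,1]²` and contains
`(1,1)`.  If `(p, -r) ∈ D` with `p, r > 0` then `(p, r) ∈ D` (segment from `(-p, r)` to `(1,1)`),
so the volume preserving reflection `(p, r) ↦ (p, -r)` maps `D ∩ {p r < 0}` into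
`D ∩ {p r > 0}`. -/
theorem square_lemma {B : Set (ℝ × ℝ)} (hB : IsBody B) {b w n : ℝ × ℝ} (hb : b ∈ B) (hw : w ∈ B)
    (hn : n ∈ plr B) (h1 : pr n b = 1) (h2 : pr n w = 1) : 0 ≤ Qf B b w := by
  have hD := hB.plr
  by_cases hΔ : b.1 * w.2 - b.2 * w.1 = 0
  · -- dependent case
    have hwb : w = b := by
      have e1 : n.1 * b.1 + n.2 * b.2 = 1 := h1
      have e2 : n.1 * w.1 + n.2 * w.2 = 1 := h2
      ext
      · linear_combination w.1 * (-e1) + b.1 * e2 + n.2 * (-hΔ)
      · linear_combination w.2 * (-e1) + b.2 * e2 + n.1 * hΔ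
    rw [hwb, Qf]
    apply div_nonneg _ ENNReal.toReal_nonneg
    exact integral_nonneg fun m => mul_self_nonneg _
  -- independent case: the reflection
  set Δ := b.1 * w.2 - b.2 * w.1 with hΔdef
  let R : (ℝ × ℝ) →ₗ[ℝ] (ℝ × ℝ) :=
    { toFun := fun m => ((pr m b * w.2 + pr m w * b.2) / Δ, (-(pr m b * w.1) - pr m w * b.1) / Δ)
      map_add' := by
        intro x y
        ext <;> simp only [pr, Prod.fst_add, Prod.snd_add] <;> field_simp <;> ring
      map_smul' := by
        intro c x
        ext <;> simp only [pr, Prod.smul_fst, Prod.smul_snd, smul_eq_mul, RingHom.id_apply] <;>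
          field_simp }
  have hR : ∀ m, R m = ((pr m b * w.2 + pr m w * b.2) / Δ,
      (-(pr m b * w.1) - pr m w * b.1) / Δ) := fun m => rfl
  have hRb : ∀ m, pr (R m) b = pr m b := by
    intro m
    rw [hR]
    simp only [pr]
    field_simp
    rw [hΔdef]
    ring
  have hRw : ∀ m, pr (R m) w = - pr m w := by
    intro m
    rw [hR]
    simp only [pr]
    field_simp
    rw [hΔdef]
    ring
  have hinj : ∀ m m' : ℝ × ℝ, pr m b = pr m' b → pr m w = pr m' w → m = m' := by
    intro m m' e1 e2
    simp only [pr] at e1 e2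
    have f1 : Δ * m.1 = Δ * m'.1 := by
      rw [hΔdef]; linear_combination w.2 * e1 - b.2 * e2
    have f2 : Δ * m.2 = Δ * m'.2 := by
      rw [hΔdef]; linear_combination (-w.1) * e1 + b.1 * e2
    exact Prod.ext (mul_left_cancel₀ hΔ f1) (mul_left_cancel₀ hΔ f2)
  have hRR : ∀ m, R (R m) = m := by
    intro m
    apply hinj
    · rw [hRb, hRb]
    · rw [hRw, hRw, neg_neg]
  have hRcomp : R ∘ₗ R = LinearMap.id := LinearMap.ext hRR
  have hdet : |LinearMap.det R| = 1 := by
    have h := congrArg LinearMap.det hRcomp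
    rw [LinearMap.det_comp, LinearMap.det_id] at h
    have : |LinearMap.det R| * |LinearMap.det R| = 1 := by rw [← abs_mul, h, abs_one]
    nlinarith [abs_nonneg (LinearMap.det R)]
  have hdet0 : LinearMap.det R ≠ 0 := by
    intro h0
    rw [h0, abs_zero] at hdet
    exact one_ne_zero hdet.symm
  have hmp : MeasurePreserving (R : ℝ × ℝ → ℝ × ℝ) volume volume := by
    refine ⟨(LinearMap.continuous_of_finiteDimensional R).measurable, ?_⟩
    rw [Measure.map_linearMap_addHaar_eq_smul_addHaar volume hdet0, abs_inv, hdet]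
    simp
  -- the key inclusion
  have hkey : ∀ m ∈ plr B, pr m b * pr m w < 0 → R m ∈ plr B := by
    intro m hm hneg
    set P := pr m b with hP
    set Q := pr m w with hQ
    have hP1 : |P| ≤ 1 := by
      have e1 := hm _ hb
      have e2 := hm _ (hB.symm _ hb)
      simp only [pr, Prod.fst_neg, Prod.snd_neg] at e1 e2 hP
      rw [abs_le]
      constructor <;> rw [hP] <;> linarith
    have hQ1 : |Q| ≤ 1 := by
      have e1 := hm _ hw
      have e2 := hm _ (hB.symm _ hw)
      simp only [pr, Prod.fst_neg, Prod.snd_neg] at e1 e2 hQ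
      rw [abs_le]
      constructor <;> rw [hQ] <;> linarith
    have hPQ : P - Q ≠ 0 := by
      intro h
      have : P = Q := by linarith
      rw [this] at hneg
      nlinarith [mul_self_nonneg Q]
    have hsum : |(P + Q) / (P - Q)| + |(-(2 * P * Q)) / (P - Q)| ≤ 1 := by
      rw [abs_div, abs_div, ← add_div, div_le_one (abs_pos.2 hPQ)]
      rcases mul_neg_iff.1 hneg with ⟨hp, hq⟩ | ⟨hp, hq⟩
      · rw [abs_of_pos hp] at hP1
        rw [abs_of_neg hq] at hQ1
        rw [abs_of_pos (by linarith : 0 < P - Q),
          abs_of_pos (by nlinarith : 0 < -(2 * P * Q))]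
        rcases abs_cases (P + Q) with ⟨h, _⟩ | ⟨h, _⟩ <;> rw [h] <;> nlinarith
      · rw [abs_of_neg hp] at hP1
        rw [abs_of_pos hq] at hQ1
        rw [abs_of_neg (by linarith : P - Q < 0),
          abs_of_pos (by nlinarith : 0 < -(2 * P * Q))]
        rcases abs_cases (P + Q) with ⟨h, _⟩ | ⟨h, _⟩ <;> rw [h] <;> nlinarith
    have hRm : R m = ((P + Q) / (P - Q)) • m + ((-(2 * P * Q)) / (P - Q)) • n := by
      have hprs : ∀ (s t : ℝ) (x y z : ℝ × ℝ), pr (s • x + t • y) z = s * pr x z + t * pr y z := by
        intro s t x y z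
        simp only [pr, Prod.fst_add, Prod.snd_add, Prod.smul_fst, Prod.smul_snd, smul_eq_mul]
        ring
      apply hinj
      · rw [hRb, hprs, h1, ← hP]
        field_simp
        ring
      · rw [hRw, hprs, h2, ← hQ]
        field_simp
        ring
    intro z hz
    have hmz : |pr m z| ≤ 1 := by
      have e1 := hm _ hz
      have e2 := hm _ (hB.symm _ hz)
      simp only [pr, Prod.fst_neg, Prod.snd_neg] at e1 e2 ⊢
      rw [abs_le]
      constructor <;> linarith
    have hnz : |pr n z| ≤ 1 := by
      have e1 := hn _ hz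
      have e2 := hn _ (hB.symm _ hz)
      simp only [pr, Prod.fst_neg, Prod.snd_neg] at e1 e2 ⊢
      rw [abs_le]
      constructor <;> linarith
    rw [hRm]
    have hprs : pr (((P + Q) / (P - Q)) • m + ((-(2 * P * Q)) / (P - Q)) • n) z
        = ((P + Q) / (P - Q)) * pr m z + ((-(2 * P * Q)) / (P - Q)) * pr n z := by
      simp only [pr, Prod.fst_add, Prod.snd_add, Prod.smul_fst, Prod.smul_snd, smul_eq_mul]
      ring
    rw [hprs]
    calc _ ≤ |((P + Q) / (P - Q)) * pr m z| + |((-(2 * P * Q)) / (P - Q)) * pr n z| :=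
          add_le_add (le_abs_self _) (le_abs_self _)
      _ ≤ |(P + Q) / (P - Q)| * 1 + |(-(2 * P * Q)) / (P - Q)| * 1 := by
          rw [abs_mul, abs_mul]
          exact add_le_add (mul_le_mul_of_nonneg_left hmz (abs_nonneg _))
            (mul_le_mul_of_nonneg_left hnz (abs_nonneg _))
      _ ≤ 1 := by linarith
  -- the integral
  rw [Qf]
  apply div_nonneg _ ENNReal.toReal_nonneg
  have hDm : MeasurableSet (plr B) := hD.compact.measurableSet
  set f : ℝ × ℝ → ℝ := fun m => (plr B).indicator (fun m => pr m b * pr m w) m with hf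
  have hfI : Integrable f := by
    refine (integrable_indicator_iff hDm).2 (ContinuousOn.integrableOn_compact hD.compact ?_)
    unfold pr
    fun_prop
  have hfint : ∫ m in plr B, pr m b * pr m w = ∫ m, f m := by
    rw [integral_indicator hDm]
  have hcomp : ∫ m, f (R m) = ∫ m, f m := by
    have hcont := LinearMap.continuous_of_finiteDimensional R
    have h := integral_map (μ := volume) hcont.measurable.aemeasurable
      (f := f) (by rw [hmp.map_eq]; exact hfI.aestronglyMeasurable)
    rw [hmp.map_eq] at h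
    exact h.symm
  have hfRI : Integrable (fun m => f (R m)) :=
    hmp.integrable_comp_of_integrable hfI
  have hpt : ∀ m, 0 ≤ f m + f (R m) := by
    intro m
    simp only [hf]
    by_cases hm : m ∈ plr B
    · rw [indicator_of_mem hm]
      by_cases hRm : R m ∈ plr B
      · rw [indicator_of_mem hRm, hRb, hRw]
        apply le_of_eq
        ring
      · rw [indicator_of_notMem hRm, add_zero]
        by_contra hlt
        exact hRm (hkey m hm (not_le.1 hlt))
    · rw [indicator_of_notMem hm, zero_add]
      by_cases hRm : R m ∈ plr B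
      · rw [indicator_of_mem hRm]
        by_contra hlt
        have := hkey (R m) hRm (not_le.1 hlt)
        rw [hRR] at this
        exact hm this
      · rw [indicator_of_notMem hRm]
  have hsum : 0 ≤ ∫ m, (f m + f (R m)) := integral_nonneg hpt
  rw [integral_add hfI hfRI, hcomp] at hsum
  rw [hfint]
  linarith

end Pool.Agent.Helper18.BL
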