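import Mathlib
import Pool.Agent.Helper18.BL.P1
import Pool.Agent.Helper18.BL.P3

set_option autoImplicit false

open Set MeasureTheory Filter Topology Metric

namespace Pool.Agent.Helper18.BL

/-! ### PB9: continuity -/

private theorem pr_smul_right (n z : ℝ × ℝ) (c : ℝ) : pr n (c • z) = c * pr n z := by
  simp [pr]; ring

private theorem conv_plr {B : Set (ℝ × ℝ)} (hB : IsBody B) {Bj : ℕ → Set (ℝ × ℝ)}
    (hj : ∀ j, IsBody (Bj j))
    (h : ∀ ε > 0, ∀ᶠ j in atTop, ∀ z, |gauge (Bj j) z - gauge B z| ≤ ε * gauge B z) :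
    ∀ ε > 0, ∀ᶠ j in atTop, ∀ n,
      |gauge (plr (Bj j)) n - gauge (plr B) n| ≤ ε * gauge (plr B) n := by
  intro ε hε
  set δ : ℝ := min (1 / 2) (ε / 2) with hδ
  have hδ0 : 0 < δ := by positivity
  have hδ1 : δ ≤ 1 / 2 := min_le_left _ _
  have hδ2 : δ ≤ ε / 2 := min_le_right _ _
  filter_upwards [h δ hδ0] with j hjz n
  have hg0 : 0 ≤ gauge (plr B) n := gauge_nonneg _
  have hg0' : 0 ≤ gauge (plr (Bj j)) n := gauge_nonneg _
  -- upper bound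
  have h1 : (1 - δ) * gauge (plr (Bj j)) n ≤ gauge (plr B) n := by
    obtain ⟨z, hz, hzn⟩ := ((hj j).gauge_plr n).1
    simp only at hzn
    rw [← hzn, ← pr_smul_right]
    refine (hB.gauge_plr n).2 ⟨_, ?_, rfl⟩
    rw [hB.mem_iff_gauge, hB.gauge_smul, abs_of_nonneg (by linarith)]
    have h2 := (abs_le.1 (hjz z)).1
    have h3 := ((hj j).mem_iff_gauge z).1 hz
    nlinarith
  have h2 : gauge (plr B) n ≤ (1 + δ) * gauge (plr (Bj j)) n := by
    obtain ⟨z, hz, hzn⟩ := (hB.gauge_plr n).1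
    simp only at hzn
    have h3 : pr n ((1 + δ)⁻¹ • z) ≤ gauge (plr (Bj j)) n := by
      refine ((hj j).gauge_plr n).2 ⟨_, ?_, rfl⟩
      rw [(hj j).mem_iff_gauge, (hj j).gauge_smul, abs_of_nonneg (by positivity)]
      have h2 := (abs_le.1 (hjz z)).2
      have h3 := (hB.mem_iff_gauge z).1 hz
      rw [inv_mul_le_iff₀ (by positivity)]
      nlinarith
    rw [pr_smul_right, inv_mul_le_iff₀ (by positivity), hzn] at h3
    exact h3
  rw [abs_le]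
  constructor
  · -- g - gj <= δ gj <= ...
    have h4 : gauge (plr (Bj j)) n ≤ 2 * gauge (plr B) n := by nlinarith
    nlinarith
  · have h4 : gauge (plr (Bj j)) n ≤ 2 * gauge (plr B) n := by nlinarith
    nlinarith

private theorem pt_ne (a : ℝ) : ((a, 1) : ℝ × ℝ) ≠ 0 := by
  intro h0; simpa using congrArg Prod.snd h0

private theorem gauge_pt_tendsto {B : Set (ℝ × ℝ)} (hB : IsBody B) {Bj : ℕ → Set (ℝ × ℝ)}
    (h : ∀ ε > 0, ∀ᶠ j in atTop, ∀ z, |gauge (Bj j) z - gauge B z| ≤ ε * gauge B z)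
    (z : ℝ × ℝ) (hz : z ≠ 0) :
    Tendsto (fun j => (gauge (Bj j) z)⁻¹) atTop (𝓝 (gauge B z)⁻¹) := by
  have hg := hB.gauge_pos hz
  refine Tendsto.inv₀ ?_ hg.ne'
  rw [Metric.tendsto_atTop']
  intro ε hε
  obtain ⟨N, hN⟩ := eventually_atTop.1 (h (ε / (2 * gauge B z)) (by positivity))
  refine ⟨N, fun j hj => ?_⟩
  rw [Real.dist_eq]
  refine (hN j hj.le z).trans_lt ?_
  rw [div_mul_eq_mul_div, div_lt_iff₀ (by positivity)]
  nlinarith [mul_pos hε hg]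

private theorem inv_le {B : Set (ℝ × ℝ)} (hB : IsBody B) {Bj : ℕ → Set (ℝ × ℝ)}
    (h : ∀ ε > 0, ∀ᶠ j in atTop, ∀ z, |gauge (Bj j) z - gauge B z| ≤ ε * gauge B z) :
    ∀ᶠ j in atTop, ∀ z, z ≠ 0 → 0 ≤ (gauge (Bj j) z)⁻¹ ∧
      (gauge (Bj j) z)⁻¹ ≤ 2 * (gauge B z)⁻¹ := by
  filter_upwards [h (1 / 2) (by norm_num)] with j hj z hz
  have hg := hB.gauge_pos hz
  have h1 := (abs_le.1 (hj z)).1
  refine ⟨inv_nonneg.2 (gauge_nonneg _), ?_⟩
  have h2 : gauge B z / 2 ≤ gauge (Bj j) z := by linarith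
  calc (gauge (Bj j) z)⁻¹ ≤ (gauge B z / 2)⁻¹ := inv_anti₀ (by positivity) h2
    _ = 2 * (gauge B z)⁻¹ := by rw [inv_div]; ring

private theorem vol_tendsto {B : Set (ℝ × ℝ)} (hB : IsBody B) {Bj : ℕ → Set (ℝ × ℝ)}
    (hj : ∀ j, IsBody (Bj j))
    (h : ∀ ε > 0, ∀ᶠ j in atTop, ∀ z, |gauge (Bj j) z - gauge B z| ≤ ε * gauge B z) :
    Tendsto (fun j => (volume (Bj j)).toReal) atTop (𝓝 (volume B).toReal) := by
  rw [(vol_slope hB).2]
  have e : (fun j => (volume (Bj j)).toReal) = fun j => ∫ a : ℝ, (gauge (Bj j) (a, 1))⁻¹ ^ 2 :=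
    funext fun j => (vol_slope (hj j)).2
  rw [e]
  refine tendsto_integral_filter_of_dominated_convergence
    (fun a : ℝ => 4 * (gauge B (a, 1))⁻¹ ^ 2) ?_ ?_ ?_ ?_
  · exact Eventually.of_forall fun j => (vol_slope (hj j)).1.aestronglyMeasurable
  · filter_upwards [inv_le hB h] with j hj'
    refine Eventually.of_forall fun a => ?_
    obtain ⟨h1, h2⟩ := hj' (a, 1) (pt_ne a)
    rw [Real.norm_of_nonneg (by positivity)]
    calc (gauge (Bj j) (a, 1))⁻¹ ^ 2 ≤ (2 * (gauge B (a, 1))⁻¹) ^ 2 := by gcongr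
      _ = 4 * (gauge B (a, 1))⁻¹ ^ 2 := by ring
  · exact (vol_slope hB).1.const_mul 4
  · exact Eventually.of_forall fun a => (gauge_pt_tendsto hB h _ (pt_ne a)).pow 2

theorem MV_tendsto {B : Set (ℝ × ℝ)} (hB : IsBody B) {Bj : ℕ → Set (ℝ × ℝ)}
    (hj : ∀ j, IsBody (Bj j))
    (h : ∀ ε > 0, ∀ᶠ j in atTop, ∀ z, |gauge (Bj j) z - gauge B z| ≤ ε * gauge B z) :
    Tendsto (fun j => MV (Bj j)) atTop (𝓝 (MV B)) :=
  (vol_tendsto hB hj h).mul (vol_tendsto hB.plr (fun j => (hj j).plr) (conv_plr hB hj h))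

private theorem mom_tendsto {B : Set (ℝ × ℝ)} (hB : IsBody B) {Bj : ℕ → Set (ℝ × ℝ)}
    (hj : ∀ j, IsBody (Bj j))
    (h : ∀ ε > 0, ∀ᶠ j in atTop, ∀ z, |gauge (Bj j) z - gauge B z| ≤ ε * gauge B z)
    {x y : ℕ → ℝ × ℝ} {x0 y0 : ℝ × ℝ} (hx : Tendsto x atTop (𝓝 x0))
    (hy : Tendsto y atTop (𝓝 y0)) :
    Tendsto (fun j => ∫ z in Bj j, pr z (x j) * pr z (y j)) atTop
      (𝓝 (∫ z in B, pr z x0 * pr z y0)) := by
  rw [(int_slope hB x0 y0).2]
  have e : (fun j => ∫ z in Bj j, pr z (x j) * pr z (y j)) = fun j => 1 / 2 * ∫ a : ℝ,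
      pr (a, 1) (x j) * pr (a, 1) (y j) * (gauge (Bj j) (a, 1))⁻¹ ^ 4 :=
    funext fun j => (int_slope (hj j) _ _).2
  rw [e]
  refine Tendsto.const_mul _ ?_
  -- bounds
  obtain ⟨C, hC0, hC⟩ : ∃ C : ℝ, 0 ≤ C ∧ ∀ᶠ j in atTop, |(x j).1| ≤ C ∧ |(x j).2| ≤ C ∧
      |(y j).1| ≤ C ∧ |(y j).2| ≤ C := by
    refine ⟨‖x0‖ + ‖y0‖ + 1, by positivity, ?_⟩
    have h1 : ∀ᶠ j in atTop, ‖x j‖ < ‖x0‖ + 1 := hx.norm.eventually_lt_const (by linarith)
    have h2 : ∀ᶠ j in atTop, ‖y j‖ < ‖y0‖ + 1 := hy.norm.eventually_lt_const (by linarith)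
    filter_upwards [h1, h2] with j h1 h2
    have a1 := norm_fst_le (x j)
    have a2 := norm_snd_le (x j)
    have a3 := norm_fst_le (y j)
    have a4 := norm_snd_le (y j)
    rw [Real.norm_eq_abs] at a1 a2 a3 a4
    have := norm_nonneg x0
    have := norm_nonneg y0
    exact ⟨by linarith, by linarith, by linarith, by linarith⟩
  have i1 := (int_slope hB (1, 0) (1, 0)).1
  have i2 := (int_slope hB (0, 1) (0, 1)).1
  refine tendsto_integral_filter_of_dominated_convergence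
    (fun a : ℝ => 32 * C ^ 2 * (pr (a, 1) (1, 0) * pr (a, 1) (1, 0) * (gauge B (a, 1))⁻¹ ^ 4) +
      32 * C ^ 2 * (pr (a, 1) (0, 1) * pr (a, 1) (0, 1) * (gauge B (a, 1))⁻¹ ^ 4)) ?_ ?_ ?_ ?_
  · exact Eventually.of_forall fun j => (int_slope (hj j) _ _).1.aestronglyMeasurable
  · filter_upwards [inv_le hB h, hC] with j hj' hC'
    refine Eventually.of_forall fun a => ?_
    obtain ⟨h1, h2⟩ := hj' (a, 1) (pt_ne a)
    obtain ⟨c1, c2, c3, c4⟩ := hC'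
    have b1 : |pr (a, 1) (x j)| ≤ C * (|a| + 1) := by
      unfold pr
      calc |(a, (1 : ℝ)).1 * (x j).1 + (a, (1 : ℝ)).2 * (x j).2|
          ≤ |a * (x j).1| + |1 * (x j).2| := abs_add_le _ _
        _ = |a| * |(x j).1| + |(x j).2| := by rw [abs_mul, one_mul]
        _ ≤ C * (|a| + 1) := by nlinarith [abs_nonneg a]
    have b2 : |pr (a, 1) (y j)| ≤ C * (|a| + 1) := by
      unfold pr
      calc |(a, (1 : ℝ)).1 * (y j).1 + (a, (1 : ℝ)).2 * (y j).2|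
          ≤ |a * (y j).1| + |1 * (y j).2| := abs_add_le _ _
        _ = |a| * |(y j).1| + |(y j).2| := by rw [abs_mul, one_mul]
        _ ≤ C * (|a| + 1) := by nlinarith [abs_nonneg a]
    have b3 : (gauge (Bj j) (a, 1))⁻¹ ^ 4 ≤ (2 * (gauge B (a, 1))⁻¹) ^ 4 := by gcongr
    have g0 : 0 ≤ (gauge B (a, 1))⁻¹ := inv_nonneg.2 (gauge_nonneg _)
    rw [norm_mul, norm_mul, Real.norm_eq_abs, Real.norm_eq_abs,
      Real.norm_of_nonneg (by positivity : 0 ≤ (gauge (Bj j) (a, 1))⁻¹ ^ 4)]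
    calc |pr (a, 1) (x j)| * |pr (a, 1) (y j)| * (gauge (Bj j) (a, 1))⁻¹ ^ 4
        ≤ (C * (|a| + 1)) * (C * (|a| + 1)) * (2 * (gauge B (a, 1))⁻¹) ^ 4 := by
          gcongr
      _ = C ^ 2 * (|a| + 1) ^ 2 * (16 * (gauge B (a, 1))⁻¹ ^ 4) := by ring
      _ ≤ C ^ 2 * (2 * a ^ 2 + 2) * (16 * (gauge B (a, 1))⁻¹ ^ 4) := by
          gcongr
          nlinarith [sq_nonneg (|a| - 1), sq_abs a]
      _ = _ := by simp [pr]; ring
  · exact (i1.const_mul _).add (i2.const_mul _)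
  · refine Eventually.of_forall fun a => ?_
    refine Tendsto.mul (Tendsto.mul ?_ ?_) ((gauge_pt_tendsto hB h _ (pt_ne a)).pow 4)
    · unfold pr
      exact (((continuous_fst.tendsto x0).comp hx).const_mul _).add
        (((continuous_snd.tendsto x0).comp hx).const_mul _)
    · unfold pr
      exact (((continuous_fst.tendsto y0).comp hy).const_mul _).add
        (((continuous_snd.tendsto y0).comp hy).const_mul _)

theorem Qf_tendsto {B : Set (ℝ × ℝ)} (hB : IsBody B) {Bj : ℕ → Set (ℝ × ℝ)}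
    (hj : ∀ j, IsBody (Bj j))
    (h : ∀ ε > 0, ∀ᶠ j in atTop, ∀ z, |gauge (Bj j) z - gauge B z| ≤ ε * gauge B z)
    {x y : ℕ → ℝ × ℝ} {x0 y0 : ℝ × ℝ} (hx : Tendsto x atTop (𝓝 x0))
    (hy : Tendsto y atTop (𝓝 y0)) :
    Tendsto (fun j => Qf (Bj j) (x j) (y j)) atTop (𝓝 (Qf B x0 y0)) := by
  have h' := conv_plr hB hj h
  have hv := vol_tendsto hB.plr (fun j => (hj j).plr) h'
  have hm := mom_tendsto hB.plr (fun j => (hj j).plr) h' hx hy
  refine hm.div hv ?_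
  have hpos : 0 < volume (plr B) :=
    lt_of_lt_of_le (isOpen_interior.measure_pos volume ⟨0, hB.plr.zero_int⟩)
      (measure_mono interior_subset)
  exact (ENNReal.toReal_pos hpos.ne' hB.plr.compact.measure_lt_top.ne).ne'

end Pool.Agent.Helper18.BL
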