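import Mathlib
import Pool.Agent.Helper18.BL.T1
import Pool.Agent.Helper18.BL.P2
import Pool.Agent.Helper18.BL.P4c
import Pool.Agent.Helper18.BL.P8
import Pool.Agent.Helper18.BL.P9

set_option autoImplicit false

open Set MeasureTheory Filter Topology Metric
open scoped RealInnerProductSpace

namespace Pool.Agent.Helper18.BL

/-! ### parametrisations of `v^⊥` -/

theorem Par.surj {v : E} (hv : v ≠ 0) {T : (ℝ × ℝ) →ₗ[ℝ] E} (hT : Par v T) {x : E}
    (hx : ⟪v, x⟫ = 0) : ∃ a, T a = x := by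
  have hfin : Module.finrank ℝ (ℝ ∙ v)ᗮ = 2 := by
    have : Fact (Module.finrank ℝ E = 2 + 1) := ⟨by simp⟩
    exact Submodule.finrank_orthogonal_span_singleton hv
  have hle : LinearMap.range T ≤ (ℝ ∙ v)ᗮ := by
    rintro y ⟨a, rfl⟩
    rw [Submodule.mem_orthogonal_singleton_iff_inner_right]
    exact hT.2 a
  have heq : LinearMap.range T = (ℝ ∙ v)ᗮ := by
    apply Submodule.eq_of_le_of_finrank_eq hle
    rw [hfin, LinearMap.finrank_range_of_inj hT.1]
    simp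
  have : x ∈ LinearMap.range T := by
    rw [heq, Submodule.mem_orthogonal_singleton_iff_inner_right]
    exact hx
  exact this

theorem Par.equiv {v : E} (hv : v ≠ 0) {T T' : (ℝ × ℝ) →ₗ[ℝ] E} (hT : Par v T)
    (hT' : Par v T') : ∃ e : (ℝ × ℝ) ≃ₗ[ℝ] (ℝ × ℝ), ∀ a, T (e a) = T' a := by
  obtain ⟨L, hL⟩ := LinearMap.exists_leftInverse_of_injective T (LinearMap.ker_eq_bot.2 hT.1)
  have h1 : ∀ a, L (T a) = a := fun a => by
    have := LinearMap.congr_fun hL a
    simpa using this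
  have h2 : ∀ a, T (L (T' a)) = T' a := by
    intro a
    obtain ⟨b, hb⟩ := hT.surj hv (hT'.2 a)
    rw [← hb, h1]
  have hinj : Function.Injective (L.comp T') := by
    intro a b hab
    apply hT'.1
    rw [← h2 a, ← h2 b]
    simp only [LinearMap.comp_apply] at hab
    rw [hab]
  refine ⟨LinearEquiv.ofInjectiveEndo (L.comp T') hinj, fun a => ?_⟩
  exact h2 a

theorem Par.lift {u v : E} (hu : u ≠ 0) (hvu : ⟪v, u⟫ ≠ 0) {T : (ℝ × ℝ) →ₗ[ℝ] E}
    (hT : Par u T) : Par v ((liftL v u).comp T) := by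
  refine ⟨?_, fun z => ?_⟩
  · rw [← LinearMap.ker_eq_bot, LinearMap.ker_eq_bot']
    intro z hz
    simp only [LinearMap.comp_apply] at hz
    have h0 : T z - (⟪v, T z⟫ / ⟪v, u⟫) • u = 0 := hz
    have h1 : T z = (⟪v, T z⟫ / ⟪v, u⟫) • u := sub_eq_zero.1 h0
    have h2 : ⟪u, T z⟫ = 0 := hT.2 z
    rw [h1, inner_smul_right, real_inner_self_eq_norm_sq] at h2
    have hu2 : ‖u‖ ^ 2 ≠ 0 := by positivity
    have h3 : ⟪v, T z⟫ / ⟪v, u⟫ = 0 := by
      rcases mul_eq_zero.1 h2 with h | h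
      · exact h
      · exact absurd h hu2
    rw [h3, zero_smul] at h1
    apply hT.1
    rw [h1, map_zero]
  · change ⟪v, T z - (⟪v, T z⟫ / ⟪v, u⟫) • u⟫ = 0
    rw [inner_sub_right, inner_smul_right]
    field_simp
    ring

theorem Par.smul {v : E} {T : (ℝ × ℝ) →ₗ[ℝ] E} (hT : Par v T) (c : ℝ) : Par (c • v) T := by
  refine ⟨hT.1, fun z => ?_⟩
  rw [real_inner_smul_left, hT.2 z, mul_zero]

namespace Setting
variable (S : Setting)

/-! ### T6: link with the planar notions -/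
theorem body_isBody {v : E} (hv : v ≠ 0) {T : (ℝ × ℝ) →ₗ[ℝ] E} (hT : Par v T) :
    IsBody (S.body v T) := by
  have hcont : Continuous fun z : ℝ × ℝ => S.C v + T z :=
    continuous_const.add T.continuous_of_finiteDimensional
  refine ⟨?_, ?_, ?_, ?_⟩
  · intro x hx y hy a b ha hb hab
    have h := S.K1_convex hx hy ha hb hab
    change S.C v + T (a • x + b • y) ∈ S.K1
    have he : S.C v + T (a • x + b • y) = a • (S.C v + T x) + b • (S.C v + T y) := by
      rw [map_add, map_smul, map_smul, smul_add, smul_add]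
      have : S.C v = a • S.C v + b • S.C v := by rw [← add_smul, hab, one_smul]
      nth_rewrite 1 [this]
      abel
    rw [he]
    exact h
  · have hemb : Topology.IsClosedEmbedding T :=
      LinearMap.isClosedEmbedding_of_injective (LinearMap.ker_eq_bot.2 hT.1)
    have hemb2 : Topology.IsClosedEmbedding fun z : ℝ × ℝ => S.C v + T z :=
      (Homeomorph.addLeft (S.C v)).isClosedEmbedding.comp hemb
    exact hemb2.isCompact_preimage S.K1_compact
  · intro z hz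
    have h := S.C_symm v hv _ hz (by rw [inner_add_right, hT.2 z, add_zero, S.C_h v hv])
    change S.C v + T (-z) ∈ S.K1
    have he : S.C v + T (-z) = (2 : ℝ) • S.C v - (S.C v + T z) := by
      rw [map_neg, two_smul]; abel
    rw [he]; exact h
  · rw [mem_interior_iff_mem_nhds]
    have h1 : closedBall (S.C v) (S.r / 2) ∈ 𝓝 (S.C v + T 0) := by
      rw [map_zero, add_zero]
      exact closedBall_mem_nhds _ (by have := S.r_pos; positivity)
    exact mem_of_superset (hcont.continuousAt.preimage_mem_nhds h1)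
      (preimage_mono (S.C_ball hv))

theorem body_equiv {v : E} {T T' : (ℝ × ℝ) →ₗ[ℝ] E} {e : (ℝ × ℝ) ≃ₗ[ℝ] (ℝ × ℝ)}
    (he : ∀ a, T (e a) = T' a) : S.body v T = e '' S.body v T' := by
  ext z
  constructor
  · intro hz
    refine ⟨e.symm z, ?_, by simp⟩
    change S.C v + T' (e.symm z) ∈ S.K1
    rw [← he, e.apply_symm_apply]
    exact hz
  · rintro ⟨z, hz, rfl⟩
    change S.C v + T (e z) ∈ S.K1
    rw [he]
    exact hz

theorem P_eq {v : E} (hv : v ≠ 0) {T : (ℝ × ℝ) →ₗ[ℝ] E} (hT : Par v T) :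
    S.P v = MV (S.body v T) := by
  obtain ⟨e, he⟩ := hT.equiv hv (par_spec hv)
  rw [S.body_equiv he, MV_image (S.body_isBody hv (par_spec hv))]
  rfl

theorem Q_eq {v : E} (hv : v ≠ 0) {T : (ℝ × ℝ) →ₗ[ℝ] E} (hT : Par v T) (a b : ℝ × ℝ) :
    S.Q v (T a) (T b) = Qf (S.body v T) a b := by
  obtain ⟨e, he⟩ := (par_spec hv).equiv hv hT
  have hinv : ∀ a, Function.invFun (par v) (T a) = e a := by
    intro a
    rw [← he]
    exact Function.leftInverse_invFun (par_spec hv).1 _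
  unfold Q
  rw [hinv, hinv, S.body_equiv he, Qf_image (S.body_isBody hv hT)]

theorem P_le {v : E} (hv : v ≠ 0) : S.P v ≤ Real.pi ^ 2 :=
  MV_le (S.body_isBody hv (par_spec hv))

theorem P_pos {v : E} (hv : v ≠ 0) : 0 < S.P v :=
  (S.body_isBody hv (par_spec hv)).MV_pos

theorem mem_Sp_iff {v : E} {T : (ℝ × ℝ) →ₗ[ℝ] E} (hT : Par v T) (a : ℝ × ℝ) :
    T a ∈ S.Sp v ↔ a ∈ S.body v T :=
  ⟨fun h => h.2, fun h => ⟨hT.2 a, h⟩⟩

theorem body_smul {v : E} (hv : v ≠ 0) {c : ℝ} (hc : 0 < c) (T : (ℝ × ℝ) →ₗ[ℝ] E) :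
    S.body (c • v) T = S.body v T := by
  unfold body
  rw [S.C_smul hc hv]

theorem P_smul {v : E} (hv : v ≠ 0) {c : ℝ} (hc : 0 < c) : S.P (c • v) = S.P v := by
  rw [S.P_eq (smul_ne_zero hc.ne' hv) ((par_spec hv).smul c), S.body_smul hv hc,
    ← S.P_eq hv (par_spec hv)]

theorem Q_smul {v : E} (hv : v ≠ 0) {c : ℝ} (hc : 0 < c) (x y : E) (hx : ⟪v, x⟫ = 0)
    (hy : ⟪v, y⟫ = 0) : S.Q (c • v) x y = S.Q v x y := by
  obtain ⟨a, rfl⟩ := (par_spec hv).surj hv hx
  obtain ⟨b, rfl⟩ := (par_spec hv).surj hv hy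
  rw [S.Q_eq (smul_ne_zero hc.ne' hv) ((par_spec hv).smul c), S.body_smul hv hc,
    ← S.Q_eq hv (par_spec hv)]

/-- `IsEll2` and `Ell` -/
theorem isEll2_iff {v : E} (hv : v ≠ 0) {T : (ℝ × ℝ) →ₗ[ℝ] E} (hT : Par v T) :
    IsEll2 (S.body v T) ↔ S.Ell v := by
  have hdec : ∀ z : ℝ × ℝ, T z = z.1 • T (1, 0) + z.2 • T (0, 1) := by
    intro z
    rw [← map_smul, ← map_smul, ← map_add]
    congr 1
    ext <;> simp
  constructor
  · rintro ⟨a, b, c, ha, hd, hB⟩
    obtain ⟨L, hL⟩ := LinearMap.exists_leftInverse_of_injective T (LinearMap.ker_eq_bot.2 hT.1)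
    have h1 : ∀ a, L (T a) = a := fun a => by
      have := LinearMap.congr_fun hL a
      simpa using this
    let f : E →ₗ[ℝ] ℝ := (LinearMap.fst ℝ ℝ ℝ).comp L
    let g : E →ₗ[ℝ] ℝ := (LinearMap.snd ℝ ℝ ℝ).comp L
    let F : E →L[ℝ] ℝ := LinearMap.toContinuousLinearMap f
    let G : E →L[ℝ] ℝ := LinearMap.toContinuousLinearMap g
    have hF : ∀ x, F x = (L x).1 := fun x => rfl
    have hG : ∀ x, G x = (L x).2 := fun x => rfl
    refine ⟨F.smulRight (a • F + b • G) + G.smulRight (b • F + c • G), ?_, ?_, ?_⟩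
    · intro x y
      simp only [_root_.add_apply, ContinuousLinearMap.smulRight_apply,
        _root_.smul_apply, smul_eq_mul]
      ring
    · intro x hx hx0
      obtain ⟨z, rfl⟩ := hT.surj hv hx
      simp only [_root_.add_apply, ContinuousLinearMap.smulRight_apply,
        _root_.smul_apply, smul_eq_mul, hF, hG, h1]
      have hz : z ≠ 0 := fun h => hx0 (by rw [h, map_zero])
      have key : a * (z.1 * (a * z.1 + b * z.2) + z.2 * (b * z.1 + c * z.2)) =
          (a * z.1 + b * z.2) ^ 2 + (a * c - b ^ 2) * z.2 ^ 2 := by ring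
      have hpos : 0 < (a * z.1 + b * z.2) ^ 2 + (a * c - b ^ 2) * z.2 ^ 2 := by
        by_cases hz2 : z.2 = 0
        · have hz1 : z.1 ≠ 0 := fun h => hz (Prod.ext h hz2)
          rw [hz2]
          have : a * z.1 ≠ 0 := mul_ne_zero ha.ne' hz1
          have h2 : 0 < (a * z.1) ^ 2 := by positivity
          simpa using h2
        · have h2 : 0 < (a * c - b ^ 2) * z.2 ^ 2 := by positivity
          nlinarith [sq_nonneg (a * z.1 + b * z.2)]
      rw [← key] at hpos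
      exact (pos_iff_pos_of_mul_pos hpos).1 ha
    · ext w
      constructor
      · intro hw
        refine ⟨hw.1, ?_⟩
        obtain ⟨z, rfl⟩ := hT.surj hv hw.1
        have hz : z ∈ S.body v T := (S.mem_Sp_iff hT z).1 hw
        rw [hB] at hz
        simp only [_root_.add_apply, ContinuousLinearMap.smulRight_apply,
          _root_.smul_apply, smul_eq_mul, hF, hG, h1]
        have hz' : a * z.1 ^ 2 + 2 * b * (z.1 * z.2) + c * z.2 ^ 2 ≤ 1 := hz
        linarith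
      · rintro ⟨hw, hle⟩
        obtain ⟨z, rfl⟩ := hT.surj hv hw
        rw [S.mem_Sp_iff hT, hB]
        simp only [_root_.add_apply, ContinuousLinearMap.smulRight_apply,
          _root_.smul_apply, smul_eq_mul, hF, hG, h1] at hle
        change a * z.1 ^ 2 + 2 * b * (z.1 * z.2) + c * z.2 ^ 2 ≤ 1
        linarith
  · rintro ⟨B, hsymm, hpos, hSp⟩
    have hexp : ∀ z : ℝ × ℝ, B (T z) (T z) = B (T (1, 0)) (T (1, 0)) * z.1 ^ 2 +
        2 * B (T (1, 0)) (T (0, 1)) * (z.1 * z.2) + B (T (0, 1)) (T (0, 1)) * z.2 ^ 2 := by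
      intro z
      rw [hdec z]
      simp only [map_add, map_smul, _root_.add_apply,
        _root_.smul_apply, smul_eq_mul]
      rw [hsymm (T (0, 1)) (T (1, 0))]
      ring
    have hposT : ∀ z : ℝ × ℝ, z ≠ 0 → 0 < B (T z) (T z) := fun z hz =>
      hpos _ (hT.2 z) (fun h => hz (hT.1 (by rw [h, map_zero])))
    have ha := hposT (1, 0) (by simp)
    refine ⟨B (T (1, 0)) (T (1, 0)), B (T (1, 0)) (T (0, 1)), B (T (0, 1)) (T (0, 1)), ha, ?_, ?_⟩
    · have h := hposT (B (T (1, 0)) (T (0, 1)), -B (T (1, 0)) (T (1, 0)))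
        (fun h => ha.ne' (by simpa using congrArg Prod.snd h))
      rw [hexp] at h
      simp only at h
      have h2 : 0 < B (T (1, 0)) (T (1, 0)) *
          (B (T (1, 0)) (T (1, 0)) * B (T (0, 1)) (T (0, 1)) - B (T (1, 0)) (T (0, 1)) ^ 2) := by
        nlinarith
      exact (pos_iff_pos_of_mul_pos h2).1 ha
    · ext z
      rw [← S.mem_Sp_iff hT, hSp]
      simp only [mem_ofPred_eq, hT.2 z, true_and]
      rw [hexp]

theorem P_eq_iff {v : E} (hv : v ≠ 0) : S.P v = Real.pi ^ 2 ↔ S.Ell v := by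
  rw [← S.isEll2_iff hv (par_spec hv), ← MV_eq_iff (S.body_isBody hv (par_spec hv))]
  rfl

/-- `Q v` is an inner product on `v^⊥`; `w ∈ S'_v` has `Q v w w ≤ 1` -/
theorem Q_form {v : E} (hv : v ≠ 0) :
    (∀ x y, ⟪v, x⟫ = 0 → ⟪v, y⟫ = 0 → S.Q v x y = S.Q v y x) ∧
    (∀ x y z, ⟪v, x⟫ = 0 → ⟪v, y⟫ = 0 → ⟪v, z⟫ = 0 → S.Q v (x + y) z = S.Q v x z + S.Q v y z) ∧
    (∀ (c : ℝ) x y, ⟪v, x⟫ = 0 → ⟪v, y⟫ = 0 → S.Q v (c • x) y = c * S.Q v x y) ∧
    (∀ x, ⟪v, x⟫ = 0 → x ≠ 0 → 0 < S.Q v x x) ∧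
    (∀ w ∈ S.Sp v, S.Q v w w ≤ 1) := by
  have hT := par_spec hv
  have hB := S.body_isBody hv hT
  refine ⟨?_, ?_, ?_, ?_, ?_⟩
  · intro x y hx hy
    obtain ⟨a, rfl⟩ := hT.surj hv hx
    obtain ⟨b, rfl⟩ := hT.surj hv hy
    rw [S.Q_eq hv hT, S.Q_eq hv hT, IsBody.Qf_comm]
  · intro x y z hx hy hz
    obtain ⟨a, rfl⟩ := hT.surj hv hx
    obtain ⟨b, rfl⟩ := hT.surj hv hy
    obtain ⟨c, rfl⟩ := hT.surj hv hz
    rw [← map_add, S.Q_eq hv hT, S.Q_eq hv hT, S.Q_eq hv hT, hB.Qf_add_left]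
  · intro c x y hx hy
    obtain ⟨a, rfl⟩ := hT.surj hv hx
    obtain ⟨b, rfl⟩ := hT.surj hv hy
    rw [← map_smul, S.Q_eq hv hT, S.Q_eq hv hT, hB.Qf_smul_left]
  · intro x hx hx0
    obtain ⟨a, rfl⟩ := hT.surj hv hx
    rw [S.Q_eq hv hT]
    exact hB.Qf_pos (fun h => hx0 (by rw [h, map_zero]))
  · intro w hw
    obtain ⟨a, rfl⟩ := hT.surj hv hw.1
    rw [S.Q_eq hv hT]
    have ha : a ∈ S.body v (par v) := (S.mem_Sp_iff hT a).1 hw
    have hpl := hB.plr
    have hne : (volume (plr (S.body v (par v)))).toReal ≠ 0 := by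
      intro h0
      have := hB.MV_pos
      unfold MV at this
      rw [h0, mul_zero] at this
      exact lt_irrefl _ this
    have hfin : volume (plr (S.body v (par v))) ≠ ⊤ := hpl.compact.measure_lt_top.ne
    have hpos : 0 < (volume (plr (S.body v (par v)))).toReal :=
      lt_of_le_of_ne ENNReal.toReal_nonneg hne.symm
    unfold Qf
    rw [div_le_one hpos]
    have hcont : Continuous fun n : ℝ × ℝ => pr n a * pr n a := by
      unfold pr; fun_prop
    have hle : ∀ n ∈ plr (S.body v (par v)), pr n a * pr n a ≤ 1 := by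
      intro n hn
      have h1 : pr n a ≤ 1 := hn a ha
      have h2 : pr n (-a) ≤ 1 := hn _ (hB.symm a ha)
      have h3 : pr n (-a) = -pr n a := by simp only [pr, Prod.fst_neg, Prod.snd_neg]; ring
      rw [h3] at h2
      nlinarith
    calc ∫ n in plr (S.body v (par v)), pr n a * pr n a
        ≤ ∫ n in plr (S.body v (par v)), (1 : ℝ) := by
          apply setIntegral_mono_on
          · exact hcont.continuousOn.integrableOn_compact hpl.compact
          · exact continuous_const.continuousOn.integrableOn_compact hpl.compact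
          · exact hpl.compact.isClosed.measurableSet
          · exact hle
      _ = (volume (plr (S.body v (par v)))).toReal := by
          simp [Measure.real]

/-- the square lemma in space -/
theorem square_lemma_space {v b w n : E} (hv : v ≠ 0) (hb : b ∈ S.Sp v) (hw : w ∈ S.Sp v)
    (hn : ∀ x ∈ S.Sp v, ⟪n, x⟫ ≤ 1) (h1 : ⟪n, b⟫ = 1) (h2 : ⟪n, w⟫ = 1) : 0 ≤ S.Q v b w := by
  have hT := par_spec hv
  have hB := S.body_isBody hv hT
  obtain ⟨b, rfl⟩ := hT.surj hv hb.1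
  obtain ⟨w, rfl⟩ := hT.surj hv hw.1
  have hdec : ∀ z : ℝ × ℝ, par v z = z.1 • par v (1, 0) + z.2 • par v (0, 1) := by
    intro z
    rw [← map_smul, ← map_smul, ← map_add]
    congr 1
    ext <;> simp
  have hpr : ∀ z : ℝ × ℝ, ⟪n, par v z⟫ = pr (⟪n, par v (1, 0)⟫, ⟪n, par v (0, 1)⟫) z := by
    intro z
    rw [hdec z, inner_add_right, inner_smul_right, inner_smul_right]
    unfold pr
    ring
  rw [S.Q_eq hv hT]
  refine square_lemma hB ((S.mem_Sp_iff hT b).1 hb) ((S.mem_Sp_iff hT w).1 hw)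
    (n := (⟪n, par v (1, 0)⟫, ⟪n, par v (0, 1)⟫)) ?_ ?_ ?_
  · intro z hz
    rw [← hpr]
    exact hn _ ((S.mem_Sp_iff hT z).2 hz)
  · rw [← hpr]; exact h1
  · rw [← hpr]; exact h2

/-! ### comparison of nearby sections -/

theorem gauge_body_le {u v : E} (hu : u ≠ 0) (hv : v ≠ 0) {T T' : (ℝ × ℝ) →ₗ[ℝ] E}
    (hT : Par u T) (hT' : Par v T') {e : ℝ} (he : 0 < e)
    (h : ∀ z ∈ S.body u T, ‖(S.C v + T' z) - (S.C u + T z)‖ ≤ e * (S.r / 2)) (z : ℝ × ℝ) :
    gauge (S.body v T') z ≤ (1 + e) * gauge (S.body u T) z := by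
  have hB := S.body_isBody hu hT
  have hB' := S.body_isBody hv hT'
  by_cases hz : z = 0
  · rw [hz, gauge_zero, gauge_zero, mul_zero]
  have hg : 0 < gauge (S.body u T) z := hB.gauge_pos hz
  set g := gauge (S.body u T) z with hgdef
  have h1 : g⁻¹ • z ∈ S.body u T := by
    rw [hB.mem_iff_gauge, hB.gauge_smul, abs_of_pos (inv_pos.2 hg), ← hgdef,
      inv_mul_cancel₀ hg.ne']
  have h2 := h _ h1
  have he1 : 0 < 1 + e := by positivity
  have h3 : S.C v + e⁻¹ • ((S.C v + T' (g⁻¹ • z)) - (S.C u + T (g⁻¹ • z))) ∈ S.K1 := by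
    apply S.C_ball hv
    rw [mem_closedBall, dist_eq_norm, add_sub_cancel_left, norm_smul, Real.norm_eq_abs,
      abs_of_pos (inv_pos.2 he), inv_mul_le_iff₀ he]
    exact h2
  have h4 : (1 + e)⁻¹ • (g⁻¹ • z) ∈ S.body v T' := by
    have h5 := S.K1_convex h3 h1 (a := e / (1 + e)) (b := 1 / (1 + e)) (by positivity)
      (by positivity) (by field_simp; ring)
    change S.C v + T' ((1 + e)⁻¹ • (g⁻¹ • z)) ∈ S.K1
    convert h5 using 1
    rw [map_smul T' (1 + e)⁻¹]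
    set a := T' (g⁻¹ • z)
    set b := T (g⁻¹ • z)
    rw [smul_add, smul_smul, show e / (1 + e) * e⁻¹ = 1 / (1 + e) by field_simp,
      smul_sub, smul_add, add_assoc, sub_add_cancel, ← add_assoc, ← add_smul,
      show e / (1 + e) + 1 / (1 + e) = 1 by field_simp; ring, one_smul, one_div]
  rw [hB'.mem_iff_gauge, hB'.gauge_smul, hB'.gauge_smul, abs_of_pos (inv_pos.2 hg),
    abs_of_pos (inv_pos.2 he1), inv_mul_le_iff₀ he1, inv_mul_le_iff₀ hg] at h4
  linarith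

theorem lift_diff {u v : E} {T : (ℝ × ℝ) →ₗ[ℝ] E} (hT : Par u T) (z : ℝ × ℝ) :
    (liftL v u).comp T z - T z = -(⟪v - u, T z⟫ / ⟪v, u⟫) • u := by
  change (T z - (⟪v, T z⟫ / ⟪v, u⟫) • u) - T z = _
  rw [inner_sub_left, hT.2 z, sub_zero, neg_smul]
  abel

theorem norm_le_lift {u v : E} {T : (ℝ × ℝ) →ₗ[ℝ] E} (hT : Par u T) (z : ℝ × ℝ) :
    ‖T z‖ ≤ ‖(liftL v u).comp T z‖ := by
  have h1 : (liftL v u).comp T z = T z + (-(⟪v, T z⟫ / ⟪v, u⟫)) • u := by
    change (T z - (⟪v, T z⟫ / ⟪v, u⟫) • u) = _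
    rw [neg_smul]; abel
  rw [h1]
  set c := -(⟪v, T z⟫ / ⟪v, u⟫)
  have h2 : ‖T z + c • u‖ ^ 2 = ‖T z‖ ^ 2 + ‖c • u‖ ^ 2 := by
    have h3 : ⟪c • u, T z⟫ = 0 := by rw [real_inner_smul_left, hT.2 z, mul_zero]
    rw [norm_add_sq_real, real_inner_comm, h3]
    ring
  exact le_of_sq_le_sq (by rw [h2]; nlinarith [sq_nonneg ‖c • u‖]) (norm_nonneg _)

theorem chart_bound {u v : E} (hu : u ≠ 0) (hv : v ≠ 0) (hvu : ⟪v, u⟫ ≠ 0)
    {T : (ℝ × ℝ) →ₗ[ℝ] E} (hT : Par u T) {e : ℝ} (he : 0 < e) (he1 : e ≤ 1)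
    (h : ‖S.C v - S.C u‖ + ‖v - u‖ * (2 * S.R) / |⟪v, u⟫| * ‖u‖ ≤ e * (S.r / 2)) (z : ℝ × ℝ) :
    |gauge (S.body v ((liftL v u).comp T)) z - gauge (S.body u T) z| ≤
      2 * e * gauge (S.body u T) z := by
  have hT' : Par v ((liftL v u).comp T) := hT.lift hu hvu
  have hdiff : ∀ z, ‖T z‖ ≤ 2 * S.R → ‖(liftL v u).comp T z - T z‖ ≤
      ‖v - u‖ * (2 * S.R) / |⟪v, u⟫| * ‖u‖ := by
    intro z hz
    rw [lift_diff hT, norm_smul, norm_neg, Real.norm_eq_abs, abs_div]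
    have h1 : |⟪v - u, T z⟫| ≤ ‖v - u‖ * (2 * S.R) :=
      (abs_real_inner_le_norm _ _).trans (mul_le_mul_of_nonneg_left hz (norm_nonneg _))
    gcongr
  have hA : ∀ z, gauge (S.body v ((liftL v u).comp T)) z ≤ (1 + e) * gauge (S.body u T) z := by
    apply S.gauge_body_le hu hv hT hT' he
    intro z hz
    have hz' := S.Sp_norm hu ((S.mem_Sp_iff hT z).2 hz)
    calc ‖(S.C v + (liftL v u).comp T z) - (S.C u + T z)‖
        = ‖(S.C v - S.C u) + ((liftL v u).comp T z - T z)‖ := by congr 1; abel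
      _ ≤ _ := (norm_add_le _ _).trans (add_le_add_right (hdiff z hz') _)
      _ ≤ _ := h
  have hB : ∀ z, gauge (S.body u T) z ≤ (1 + e) * gauge (S.body v ((liftL v u).comp T)) z := by
    apply S.gauge_body_le hv hu hT' hT he
    intro z hz
    have hz' := (norm_le_lift (v := v) hT z).trans (S.Sp_norm hv ((S.mem_Sp_iff hT' z).2 hz))
    calc ‖(S.C u + T z) - (S.C v + (liftL v u).comp T z)‖
        = ‖(S.C v - S.C u) + ((liftL v u).comp T z - T z)‖ := by rw [norm_sub_rev]; congr 1; abel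
      _ ≤ _ := (norm_add_le _ _).trans (add_le_add_right (hdiff z hz') _)
      _ ≤ _ := h
  have h1 := hA z
  have h2 := hB z
  have h3 : 0 ≤ gauge (S.body u T) z := gauge_nonneg _
  have h4 : e * gauge (S.body v ((liftL v u).comp T)) z ≤ e * ((1 + e) * gauge (S.body u T) z) :=
    mul_le_mul_of_nonneg_left h1 he.le
  have h5 : e * (e * gauge (S.body u T) z) ≤ e * (1 * gauge (S.body u T) z) :=
    mul_le_mul_of_nonneg_left (mul_le_mul_of_nonneg_right he1 h3) he.le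
  rw [abs_le]
  constructor
  · nlinarith
  · nlinarith

theorem chart_tendsto {u : E} (hu : u ≠ 0) {T : (ℝ × ℝ) →ₗ[ℝ] E} (hT : Par u T) {v : ℕ → E}
    (hv : Tendsto v atTop (𝓝 u)) : (∀ᶠ j in atTop, v j ≠ 0 ∧ ⟪v j, u⟫ ≠ 0) ∧
      ∀ ε > 0, ∀ᶠ j in atTop, ∀ z, |gauge (S.body (v j) ((liftL (v j) u).comp T)) z -
        gauge (S.body u T) z| ≤ ε * gauge (S.body u T) z := by
  have huu : ⟪u, u⟫ ≠ 0 := by
    rw [real_inner_self_eq_norm_sq]
    have : ‖u‖ ≠ 0 := norm_ne_zero_iff.2 hu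
    positivity
  have hin : Tendsto (fun j => ⟪v j, u⟫) atTop (𝓝 ⟪u, u⟫) := hv.inner tendsto_const_nhds
  have h1 : ∀ᶠ j in atTop, v j ≠ 0 ∧ ⟪v j, u⟫ ≠ 0 :=
    (hv.eventually_ne hu).and (hin.eventually_ne huu)
  refine ⟨h1, fun ε hε => ?_⟩
  have hlim : Tendsto (fun j => ‖S.C (v j) - S.C u‖ +
      ‖v j - u‖ * (2 * S.R) / |⟪v j, u⟫| * ‖u‖) atTop
      (𝓝 (‖S.C u - S.C u‖ + ‖u - u‖ * (2 * S.R) / |⟪u, u⟫| * ‖u‖)) := by
    have hC : Tendsto (fun j => S.C (v j)) atTop (𝓝 (S.C u)) := (S.C_cont hu).tendsto.comp hv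
    exact (hC.sub tendsto_const_nhds).norm.add
      ((((hv.sub tendsto_const_nhds).norm.mul tendsto_const_nhds).div hin.abs
        (abs_ne_zero.2 huu)).mul tendsto_const_nhds)
  rw [sub_self, sub_self, norm_zero, zero_mul, zero_div, zero_mul, add_zero] at hlim
  have he : 0 < min 1 (ε / 2) := by positivity
  have hpos : 0 < min 1 (ε / 2) * (S.r / 2) := by have := S.r_pos; positivity
  filter_upwards [h1, hlim.eventually_lt_const hpos] with j hj1 hj2 z
  refine (S.chart_bound hu hj1.1 hj1.2 hT he (min_le_left _ _) hj2.le z).trans ?_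
  have : 2 * min 1 (ε / 2) ≤ ε := by
    have := min_le_right 1 (ε / 2)
    linarith
  exact mul_le_mul_of_nonneg_right this (gauge_nonneg _)

/-- continuity: for `v` near `u` use `T_v z = lift v u (T z)`; the bodies converge. -/
theorem P_cont {v : E} (hv : v ≠ 0) : ContinuousAt S.P v := by
  have hT := par_spec hv
  change Tendsto S.P (𝓝 v) (𝓝 (S.P v))
  rw [tendsto_iff_seq_tendsto]
  intro w hw
  obtain ⟨h1, h2⟩ := S.chart_tendsto hv hT hw
  classical
  let B : ℕ → Set (ℝ × ℝ) := fun j => if w j ≠ 0 ∧ ⟪w j, v⟫ ≠ 0 then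
    S.body (w j) ((liftL (w j) v).comp (par v)) else S.body v (par v)
  have hB : ∀ j, IsBody (B j) := by
    intro j
    by_cases h : w j ≠ 0 ∧ ⟪w j, v⟫ ≠ 0
    · simp only [B, if_pos h]
      exact S.body_isBody h.1 (hT.lift hv h.2)
    · simp only [B, if_neg h]
      exact S.body_isBody hv hT
  have h3 := MV_tendsto (S.body_isBody hv hT) hB (by
    intro ε hε
    filter_upwards [h1, h2 ε hε] with j hj hj2 z
    simp only [B, if_pos hj]
    exact hj2 z)
  refine h3.congr' ?_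
  filter_upwards [h1] with j hj
  simp only [B, if_pos hj, Function.comp_apply]
  rw [S.P_eq hj.1 (hT.lift hv hj.2)]

theorem Q_tendsto {v x y : ℕ → E} {v0 x0 y0 : E} (hv0 : v0 ≠ 0) (hv : Tendsto v atTop (𝓝 v0))
    (hx : Tendsto x atTop (𝓝 x0)) (hy : Tendsto y atTop (𝓝 y0)) (h1 : ∀ j, ⟪v j, x j⟫ = 0)
    (h2 : ∀ j, ⟪v j, y j⟫ = 0) :
    Tendsto (fun j => S.Q (v j) (x j) (y j)) atTop (𝓝 (S.Q v0 x0 y0)) := by
  have hT := par_spec hv0
  set T := par v0 with hTdef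
  obtain ⟨L, hL⟩ := LinearMap.exists_leftInverse_of_injective T (LinearMap.ker_eq_bot.2 hT.1)
  have hLT : ∀ a, L (T a) = a := fun a => by
    have := LinearMap.congr_fun hL a
    simpa using this
  have hLc : Continuous L := L.continuous_of_finiteDimensional
  obtain ⟨hev, hch⟩ := S.chart_tendsto hv0 hT hv
  have hvv : ⟪v0, v0⟫ ≠ 0 := by
    rw [real_inner_self_eq_norm_sq]
    have : ‖v0‖ ≠ 0 := norm_ne_zero_iff.2 hv0
    positivity
  -- coordinates of a vector `e` in the chart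
  let co : E → ℝ × ℝ := fun e => L (e - (⟪v0, e⟫ / ⟪v0, v0⟫) • v0)
  have hcoc : Continuous co := by
    have h : Continuous fun e : E => e - (⟪v0, e⟫ / ⟪v0, v0⟫) • v0 := by fun_prop
    exact hLc.comp h
  have hco0 : ∀ e, ⟪v0, e⟫ = 0 → T (co e) = e := by
    intro e he
    obtain ⟨a, rfl⟩ := hT.surj hv0 he
    simp only [co, he, zero_div, zero_smul, sub_zero, hLT]
  have hco : ∀ j, (v j ≠ 0 ∧ ⟪v j, v0⟫ ≠ 0) → ∀ e, ⟪v j, e⟫ = 0 →
      (liftL (v j) v0).comp T (co e) = e := by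
    intro j hj e he
    have hT' := hT.lift hv0 hj.2
    obtain ⟨a, rfl⟩ := hT'.surj hj.1 he
    congr 1
    have h3 : (liftL (v j) v0).comp T a = T a - (⟪v j, T a⟫ / ⟪v j, v0⟫) • v0 := rfl
    simp only [co]
    rw [h3, inner_sub_right, inner_smul_right, hT.2 a, zero_sub, neg_div,
      mul_div_assoc, div_self hvv, mul_one, neg_smul, sub_neg_eq_add, sub_add_cancel, hLT]
  have hx0 : ⟪v0, x0⟫ = 0 :=
    tendsto_nhds_unique (hv.inner hx) (by simp only [h1]; exact tendsto_const_nhds)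
  have hy0 : ⟪v0, y0⟫ = 0 :=
    tendsto_nhds_unique (hv.inner hy) (by simp only [h2]; exact tendsto_const_nhds)
  classical
  let B : ℕ → Set (ℝ × ℝ) := fun j => if v j ≠ 0 ∧ ⟪v j, v0⟫ ≠ 0 then
    S.body (v j) ((liftL (v j) v0).comp T) else S.body v0 T
  have hB : ∀ j, IsBody (B j) := by
    intro j
    by_cases h : v j ≠ 0 ∧ ⟪v j, v0⟫ ≠ 0
    · simp only [B, if_pos h]
      exact S.body_isBody h.1 (hT.lift hv0 h.2)
    · simp only [B, if_neg h]
      exact S.body_isBody hv0 hT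
  have h3 := Qf_tendsto (S.body_isBody hv0 hT) hB (by
    intro ε hε
    filter_upwards [hev, hch ε hε] with j hj hj2 z
    simp only [B, if_pos hj]
    exact hj2 z) ((hcoc.tendsto x0).comp hx) ((hcoc.tendsto y0).comp hy)
  rw [← S.Q_eq hv0 hT, hco0 x0 hx0, hco0 y0 hy0] at h3
  refine h3.congr' ?_
  filter_upwards [hev] with j hj
  simp only [B, if_pos hj, Function.comp_apply]
  rw [← S.Q_eq hj.1 (hT.lift hv0 hj.2), hco j hj _ (h1 j), hco j hj _ (h2 j)]

end Setting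
end Pool.Agent.Helper18.BL
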