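import Mathlib
import Pool.Agent.Helper18.BL.T5
import Pool.Agent.Helper18.BL.T6
import Pool.Agent.Helper18.BL.P7
import Pool.Agent.Helper18.BL.P4c

set_option autoImplicit false

open Set MeasureTheory Filter Topology Metric
open scoped RealInnerProductSpace

namespace Pool.Agent.Helper18.BL
namespace Setting
variable (S : Setting)

/-- two linear conditions have a nontrivial common solution -/
lemma exists_two_perp (a b : E) : ∃ e : E, e ≠ 0 ∧ ⟪a, e⟫ = 0 ∧ ⟪b, e⟫ = 0 := by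
  let L : E →ₗ[ℝ] ℝ × ℝ := ((innerSL ℝ a).toLinearMap).prod ((innerSL ℝ b).toLinearMap)
  have h1 : LinearMap.ker L ≠ ⊥ := by
    apply LinearMap.ker_ne_bot_of_finrank_lt
    simp
  obtain ⟨e, he, he0⟩ := Submodule.exists_mem_ne_zero_of_ne_bot h1
  rw [LinearMap.mem_ker] at he
  have h2 : (⟪a, e⟫, ⟪b, e⟫) = ((0, 0) : ℝ × ℝ) := he
  exact ⟨e, he0, (Prod.mk.inj h2).1, (Prod.mk.inj h2).2⟩

/-- a datum with `t + t' ≤ 0` everywhere is not of negative type -/
theorem not_rhoNeg_of_dat_le {v κ : E} {A : E →L[ℝ] E} (hv : v ≠ 0)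
    (h : S.Dat (Iic 0) v A κ) : ¬ RhoNeg v A κ := by
  rintro ⟨hκ, c, hcv, hcκ, hρ⟩
  have hU : S.Dat univ v A κ := by
    refine ⟨h.1, fun n => ?_, fun w hw => ?_⟩
    · obtain ⟨w, t, t', h1, h2, -⟩ := h.2.1 n
      exact ⟨w, t, t', h1, h2, mem_univ _⟩
    · obtain ⟨n, t, t', h0, h1, h2, -⟩ := h.2.2 w hw
      exact ⟨n, t, t', h0, h1, h2, mem_univ _⟩
  obtain ⟨k, nb, hk0, hk1, -, -, -, -, -, hframe⟩ := S.frame hv hκ hU hcv hcκ hρ.ne
  obtain ⟨e, he0, hev, hen⟩ := exists_two_perp v nb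
  obtain ⟨s, hs, hsb⟩ := S.exists_bd hv he0 hev
  obtain ⟨n, t, t', hnw, hp, hr, ht⟩ := h.2.2 _ hsb
  have hv2 : 0 < ⟪v, v⟫ := by rw [real_inner_self_eq_norm_sq]; positivity
  set σ := -(⟪v, n⟫ / ⟪v, v⟫) with hσ
  have hp' := S.pair_shift (s := σ) hv hp
  have hAv := S.dat_Av hv hU
  have hr' : Rel A κ (s • e) (n + σ • v) (t + σ) (t' - σ) := by
    have h1 : (2 : ℝ) • A n = -(t + t') • (s • e) + (t - t') • κ := hr
    show (2 : ℝ) • A (n + σ • v) = -((t + σ) + (t' - σ)) • (s • e) + ((t + σ) - (t' - σ)) • κ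
    rw [map_add, map_smul, hAv, smul_add, h1]
    module
  have hvn : ⟪v, n + σ • v⟫ = 0 := by
    rw [inner_add_right, inner_smul_right, hσ]; field_simp; ring
  have hnw' : ⟪n + σ • v, s • e⟫ = 1 := by
    rw [inner_add_left, hnw, inner_smul_left, inner_smul_right, hev]; simp
  have h5 := (hframe _ _ _ _ hp' hr' hnw' hvn).2
  rw [inner_smul_right nb, hen, mul_zero, zero_mul, sub_zero, mul_one] at h5
  have h6 : t + t' ≤ 0 := ht
  have h7 : 0 ≤ -(t + σ + (t' - σ)) * ⟪s • e, c⟫ ^ 2 :=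
    mul_nonneg (by linarith) (sq_nonneg _)
  linarith

lemma range_par {v : E} (hv : v ≠ 0) {T : (ℝ × ℝ) →ₗ[ℝ] E} (hT : Par v T) {x : E}
    (hx : ⟪v, x⟫ = 0) : ∃ z, T z = x := by
  have hfin : Module.finrank ℝ (ℝ ∙ v)ᗮ = 2 := by
    have : Fact (Module.finrank ℝ E = 2 + 1) := ⟨by simp⟩
    exact Submodule.finrank_orthogonal_span_singleton hv
  have hle : LinearMap.range T ≤ (ℝ ∙ v)ᗮ := by
    rintro _ ⟨z, rfl⟩
    rw [Submodule.mem_orthogonal_singleton_iff_inner_right]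
    exact hT.2 z
  have hr : Module.finrank ℝ (LinearMap.range T) = 2 := by
    rw [LinearMap.finrank_range_of_inj hT.1]; simp
  have heq := Submodule.eq_of_le_of_finrank_eq hle (by rw [hr, hfin])
  have : x ∈ LinearMap.range T := by
    rw [heq, Submodule.mem_orthogonal_singleton_iff_inner_right]; exact hx
  exact this

/-- ellipse lemma in space (uses the planar `ell_lemma2`) -/
theorem ell_lemma {v : E} {A : E →L[ℝ] E} {P : Set ℝ} (hv : v ≠ 0) (hE : ¬ S.Ell v)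
    (h : S.Dat P v A 0) : A = 0 := by
  by_contra hA
  apply hE
  obtain ⟨T, hT⟩ : ∃ T, Par v T := ⟨par v, par_spec hv⟩
  rw [← S.P_eq_iff hv, S.P_eq hv hT, MV_eq_iff (S.body_isBody hv hT)]
  have hB := S.body_isBody hv hT
  -- the dual map
  let Ta : E →ₗ[ℝ] ℝ × ℝ := ((innerSL ℝ (T (1, 0))).toLinearMap).prod
    ((innerSL ℝ (T (0, 1))).toLinearMap)
  have hTa : ∀ n z, pr (Ta n) z = ⟪n, T z⟫ := by
    intro n z
    have hz : z = z.1 • ((1 : ℝ), (0 : ℝ)) + z.2 • ((0 : ℝ), (1 : ℝ)) := by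
      ext <;> simp
    have h1 : Ta n = (⟪T (1, 0), n⟫, ⟪T (0, 1), n⟫) := rfl
    rw [pr, h1]
    conv_rhs => rw [hz, map_add, map_smul, map_smul, inner_add_right, inner_smul_right,
      inner_smul_right, ← real_inner_comm n, ← real_inner_comm n]
    ring
  have hv2 : 0 < ⟪v, v⟫ := by rw [real_inner_self_eq_norm_sq]; positivity
  -- kernel of Ta
  have hker : ∀ n, Ta n = 0 → ∃ c : ℝ, n = c • v := by
    intro n hn
    refine ⟨⟪v, n⟫ / ⟪v, v⟫, ?_⟩
    have h1 : ⟪v, n - (⟪v, n⟫ / ⟪v, v⟫) • v⟫ = 0 := by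
      rw [inner_sub_right, inner_smul_right]; field_simp; ring
    obtain ⟨z, hz⟩ := range_par hv hT h1
    have h2 : ⟪n, T z⟫ = 0 := by rw [← hTa, hn]; simp [pr]
    have h3 : ⟪n - (⟪v, n⟫ / ⟪v, v⟫) • v, n - (⟪v, n⟫ / ⟪v, v⟫) • v⟫ = 0 := by
      conv_lhs => rw [inner_sub_left, inner_smul_left, h1, mul_zero, sub_zero, ← hz, h2]
    exact sub_eq_zero.1 (inner_self_eq_zero.1 h3)
  have hsurj : Function.Surjective Ta := by
    rw [← LinearMap.range_eq_top]
    have h1 := LinearMap.finrank_range_add_finrank_ker Ta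
    have h2 : Module.finrank ℝ (LinearMap.ker Ta) ≤ 1 := by
      have h3 : LinearMap.ker Ta ≤ (ℝ ∙ v) := by
        intro n hn
        obtain ⟨c, hc⟩ := hker n (LinearMap.mem_ker.1 hn)
        rw [hc]; exact Submodule.smul_mem _ _ (Submodule.mem_span_singleton_self v)
      exact (Submodule.finrank_mono h3).trans (finrank_span_singleton hv).le
    apply Submodule.eq_top_of_finrank_eq
    have h4 : Module.finrank ℝ E = 3 := by simp
    have h5 : Module.finrank ℝ (ℝ × ℝ) = 2 := by simp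
    have h6 := Submodule.finrank_le (LinearMap.range Ta)
    omega
  obtain ⟨J, hJ⟩ := LinearMap.exists_rightInverse_of_surjective Ta (LinearMap.range_eq_top.2 hsurj)
  obtain ⟨Tl, hTl⟩ := LinearMap.exists_leftInverse_of_injective T (LinearMap.ker_eq_bot.2 hT.1)
  have hJ' : ∀ m, Ta (J m) = m := fun m => by
    have := LinearMap.congr_fun hJ m; simpa using this
  have hTl' : ∀ z, Tl (T z) = z := fun z => by
    have := LinearMap.congr_fun hTl z; simpa using this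
  -- `A` vanishes on `v`
  have hU : S.Dat univ v A 0 := by
    refine ⟨h.1, fun n => ?_, fun w hw => ?_⟩
    · obtain ⟨w, t, t', h1, h2, -⟩ := h.2.1 n
      exact ⟨w, t, t', h1, h2, mem_univ _⟩
    · obtain ⟨n, t, t', h0, h1, h2, -⟩ := h.2.2 w hw
      exact ⟨n, t, t', h0, h1, h2, mem_univ _⟩
  have hAv : A v = 0 := S.dat_Av hv hU
  have hAJ : ∀ n, A (J (Ta n)) = A n := by
    intro n
    have h1 : Ta (n - J (Ta n)) = 0 := by rw [map_sub, hJ', sub_self]
    obtain ⟨c, hc⟩ := hker _ h1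
    have h2 : A (n - J (Ta n)) = 0 := by rw [hc, map_smul, hAv, smul_zero]
    rw [map_sub] at h2
    exact (sub_eq_zero.1 h2).symm
  have hAperp : ∀ n, ⟪v, A n⟫ = 0 := by
    intro n
    obtain ⟨w, t, t', h1, h2, -⟩ := h.2.1 n
    have h3 : (2 : ℝ) • A n = -(t + t') • w + (t - t') • (0 : E) := h2
    have h4 : ⟪v, (2 : ℝ) • A n⟫ = 0 := by
      rw [h3, smul_zero, add_zero, inner_smul_right, h1.1.1, mul_zero]
    rw [inner_smul_right] at h4
    linarith
  refine ell_lemma2 hB (Tl.comp (A.toLinearMap.comp J)) ?_ ?_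
  · intro h0
    apply hA
    ext1 n
    obtain ⟨z, hz⟩ := range_par hv hT (hAperp n)
    have h1 : Tl (A (J (Ta n))) = 0 := by
      have := LinearMap.congr_fun h0 (Ta n); simpa using this
    rw [hAJ, ← hz, hTl'] at h1
    rw [← hz, h1, map_zero]; rfl
  · intro z hz
    have hzB : z ∈ S.body v T := (hB.mem_iff_gauge z).2 hz.le
    have hbd : T z ∈ S.bd v := by
      refine ⟨⟨hT.2 z, hzB⟩, fun c hc hmem => ?_⟩
      have h1 : c • z ∈ S.body v T := by
        show S.C v + T (c • z) ∈ S.K1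
        rw [map_smul]; exact hmem.2
      have h2 := (hB.mem_iff_gauge _).1 h1
      rw [hB.gauge_smul, hz, mul_one, abs_of_pos (by linarith)] at h2
      linarith
    obtain ⟨n, t, t', hnw, hp, hr, -⟩ := h.2.2 _ hbd
    refine ⟨Ta n, ?_, ?_, -(t + t') / 2, ?_⟩
    · intro z' hz'
      rw [hTa, ← hnw]
      exact S.pair_max hv hp _ ⟨hT.2 z', hz'⟩
    · rw [hTa, hnw]
    · have h1 : (2 : ℝ) • A n = -(t + t') • T z + (t - t') • (0 : E) := hr
      have h2 : A n = (-(t + t') / 2) • T z := by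
        have : A n = (2 : ℝ)⁻¹ • ((2 : ℝ) • A n) := by rw [smul_smul]; norm_num
        rw [this, h1, smul_zero, add_zero, smul_smul]; congr 1; ring
      show Tl (A (J (Ta n))) = _
      rw [hAJ, h2, map_smul, hTl']

/-- hence `t + t' = 0` in all pairs -/
theorem dat_zero {v : E} {A : E →L[ℝ] E} (hv : v ≠ 0) (hE : ¬ S.Ell v)
    (h : S.Dat univ v A 0) : S.Dat {0} v 0 0 := by
  have hA := S.ell_lemma hv hE h
  subst hA
  have key : ∀ w n t t', S.Pair v w n t t' → Rel 0 0 w n t t' → t + t' ∈ ({0} : Set ℝ) := by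
    intro w n t t' hp hr
    have h1 : (2 : ℝ) • (0 : E →L[ℝ] E) n = -(t + t') • w + (t - t') • (0 : E) := hr
    rw [zero_apply, smul_zero, smul_zero, add_zero] at h1
    rcases smul_eq_zero.1 h1.symm with h2 | h2
    · simp only [mem_singleton_iff]; linarith
    · -- `w = 0`
      subst h2
      have hball := S.C_ball hv
      have hr2 : 0 < S.r / 2 := half_pos S.r_pos
      have hz : ∀ m : E, (∀ x ∈ S.K1, ⟪m, x⟫ ≤ ⟪m, S.C v⟫) → m = 0 := by
        intro m hm
        by_contra hm0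
        have hmn : 0 < ‖m‖ := norm_pos_iff.2 hm0
        have h3 := hm (S.C v + (S.r / 2 / ‖m‖) • m) (hball (by
          rw [mem_closedBall, dist_eq_norm, add_sub_cancel_left, norm_smul,
            Real.norm_of_nonneg (by positivity), div_mul_cancel₀ _ hmn.ne']))
        rw [inner_add_right, inner_smul_right, real_inner_self_eq_norm_sq] at h3
        have : 0 < S.r / 2 / ‖m‖ * ‖m‖ ^ 2 := by positivity
        linarith
      have h3 : n - t • v = 0 := hz _ (by simpa using hp.2.1)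
      have h4 : -n - t' • v = 0 := hz _ (by simpa using hp.2.2)
      have h5 : (t + t') • v = 0 := by
        have : (t + t') • v = -((n - t • v) + (-n - t' • v)) := by module
        rw [this, h3, h4]; simp
      rcases smul_eq_zero.1 h5 with h6 | h6
      · exact h6
      · exact absurd h6 hv
  refine ⟨h.1, fun n => ?_, fun w hw => ?_⟩
  · obtain ⟨w, t, t', h1, h2, -⟩ := h.2.1 n
    exact ⟨w, t, t', h1, h2, key _ _ _ _ h1 h2⟩
  · obtain ⟨n, t, t', h0, h1, h2, -⟩ := h.2.2 w hw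
    exact ⟨n, t, t', h0, h1, h2, key _ _ _ _ h1 h2⟩

/-- trichotomy -/
theorem dat_le_of_not_rhoNeg {v κ : E} {A : E →L[ℝ] E} (hv : v ≠ 0) (hE : ¬ S.Ell v)
    (h : S.Dat univ v A κ) (hρ : ¬ RhoNeg v A κ) : ∃ A' : E →L[ℝ] E, S.Dat (Iic 0) v A' κ := by
  by_cases hκ : κ = 0
  · subst hκ
    have h1 := S.dat_zero hv hE h
    refine ⟨0, h1.1, fun n => ?_, fun w hw => ?_⟩
    · obtain ⟨w, t, t', h1, h2, h3⟩ := h1.2.1 n
      exact ⟨w, t, t', h1, h2, le_of_eq h3⟩
    · obtain ⟨n, t, t', h0, h1, h2, h3⟩ := h1.2.2 w hw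
      exact ⟨n, t, t', h0, h1, h2, le_of_eq h3⟩
  · obtain ⟨c, hc0, hcv, hcκ⟩ := exists_two_perp v κ
    have h1 : 0 ≤ ⟪A c, c⟫ := by
      by_contra h2
      exact hρ ⟨hκ, c, hcv, hcκ, not_le.1 h2⟩
    rcases h1.lt_or_eq with h2 | h2
    · exact ⟨A, S.dat_le_of_rho_pos hv hκ h hcv hcκ h2⟩
    · obtain ⟨q, hq⟩ := S.cyl_of_zero hv hκ h hc0 hcv hcκ (S.zero_of_rho hv hκ h hc0 hcv hcκ h2.symm)
      exact ⟨_, S.dat_of_cyl hv hq h.1⟩

end Setting
end Pool.Agent.Helper18.BL
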