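import Mathlib
import Pool.Agent.Helper18.BL.T4

set_option autoImplicit false

open Set MeasureTheory Filter Topology Metric
open scoped RealInnerProductSpace

namespace Pool.Agent.Helper18.BL
namespace Setting
variable (S : Setting)

theorem t7_pair_flip {v w n : E} {t t' : ℝ} (hv : v ≠ 0) (h : S.Pair v w n t t') :
    S.Pair v (-w) (-n) t' t := by
  obtain ⟨h1, h2, h3⟩ := h
  refine ⟨S.Sp_neg hv h1, ?_, ?_⟩
  · simpa [sub_eq_add_neg] using h3
  · simpa [sub_eq_add_neg] using h2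

/-- the derivative of `h` -/
theorem t7_h_deriv {u δ κ : E} {v δj : ℕ → E} {ε : ℕ → ℝ}
    (hε : ∀ j, 0 < ε j) (hε0 : Tendsto ε atTop (𝓝 0))
    (hδ : Tendsto δj atTop (𝓝 δ)) (hv : ∀ j, v j = u + ε j • δj j)
    (hκ : S.C u + κ ∈ S.F u) (hκm : ∀ κ', S.C u + κ' ∈ S.F u → ⟪κ', δ⟫ ≤ ⟪κ, δ⟫) :
    Tendsto (fun j => (S.h (v j) - S.h u) / ε j) atTop (𝓝 ⟪S.C u + κ, δ⟫) := by
  have hvt : Tendsto v atTop (𝓝 u) := by
    have : Tendsto (fun j => u + ε j • δj j) atTop (𝓝 (u + (0 : ℝ) • δ)) :=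
      tendsto_const_nhds.add (hε0.smul hδ)
    simpa [← hv] using this
  choose x hxK hx using fun j => S.h_att (v j)
  have hlow : ∀ j, ⟪δj j, S.C u + κ⟫ ≤ (S.h (v j) - S.h u) / ε j := by
    intro j
    rw [le_div_iff₀ (hε j)]
    have h1 := S.h_le (v j) _ hκ.1
    have h2 := hκ.2
    rw [hv j, inner_add_left, inner_smul_left, h2] at h1
    rw [hv j]
    simp only [RCLike.conj_to_real] at h1
    linarith
  have hup : ∀ j, (S.h (v j) - S.h u) / ε j ≤ ⟪δj j, x j⟫ := by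
    intro j
    rw [div_le_iff₀ (hε j)]
    have h1 := S.h_le u _ (hxK j)
    have h2 := hx j
    have h3 : ⟪v j, x j⟫ = ⟪u, x j⟫ + ε j * ⟪δj j, x j⟫ := by
      rw [hv j, inner_add_left, inner_smul_left]
      simp
    linarith
  apply tendsto_of_subseq_tendsto
  intro ns hns
  obtain ⟨x0, hx0K, φ, hφ, hφx⟩ := S.K_compact.tendsto_subseq (fun n => hxK (ns n))
  refine ⟨φ, ?_⟩
  have hns' : Tendsto (fun n => ns (φ n)) atTop atTop := hns.comp hφ.tendsto_atTop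
  have hx0F : ⟪u, x0⟫ = S.h u := by
    have h1 : Tendsto (fun n => ⟪v (ns (φ n)), x (ns (φ n))⟫) atTop (𝓝 ⟪u, x0⟫) :=
      (hvt.comp hns').inner hφx
    have h2 : Tendsto (fun n => S.h (v (ns (φ n)))) atTop (𝓝 (S.h u)) :=
      ((S.h_cont.tendsto u).comp hvt).comp hns'
    simp only [hx] at h1
    exact tendsto_nhds_unique h1 h2
  have h1 : Tendsto (fun n => ⟪δj (ns (φ n)), S.C u + κ⟫) atTop (𝓝 ⟪δ, S.C u + κ⟫) :=
    (hδ.comp hns').inner tendsto_const_nhds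
  have h2 : Tendsto (fun n => ⟪δj (ns (φ n)), x (ns (φ n))⟫) atTop (𝓝 ⟪δ, x0⟫) :=
    (hδ.comp hns').inner hφx
  have h3 : ⟪δ, x0⟫ = ⟪δ, S.C u + κ⟫ := by
    apply le_antisymm
    · have := hκm (x0 - S.C u) (by
        rw [add_sub_cancel]
        exact ⟨hx0K, hx0F⟩)
      rw [inner_sub_left, real_inner_comm δ x0, real_inner_comm δ (S.C u)] at this
      rw [inner_add_right, real_inner_comm κ δ]
      linarith
    · exact le_of_tendsto_of_tendsto' h1 h2 (fun n => (hlow _).trans (hup _))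
  rw [h3] at h2
  rw [real_inner_comm]
  exact tendsto_of_tendsto_of_tendsto_of_le_of_le h1 h2 (fun n => hlow _) (fun n => hup _)

theorem t7_v_tendsto {u δ : E} {v δj : ℕ → E} {ε : ℕ → ℝ} (hε0 : Tendsto ε atTop (𝓝 0))
    (hδ : Tendsto δj atTop (𝓝 δ)) (hv : ∀ j, v j = u + ε j • δj j) : Tendsto v atTop (𝓝 u) := by
  have : Tendsto (fun j => u + ε j • δj j) atTop (𝓝 (u + (0 : ℝ) • δ)) :=
    tendsto_const_nhds.add (hε0.smul hδ)
  simpa [← hv] using this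

/-- one-sided derivative of `h` and limit contact points -/
theorem blowup_h {u δ : E} {v δj κj : ℕ → E} {ε : ℕ → ℝ} {κ : E}
    (hu : u ≠ 0) (hε : ∀ j, 0 < ε j) (hε0 : Tendsto ε atTop (𝓝 0))
    (hδ : Tendsto δj atTop (𝓝 δ)) (hv : ∀ j, v j = u + ε j • δj j) (hvj : ∀ j, v j ≠ 0)
    (hF : ∀ j, S.C (v j) + κj j ∈ S.F (v j)) (hκ : Tendsto κj atTop (𝓝 κ)) :
    S.C u + κ ∈ S.F u ∧ (∀ κ', S.C u + κ' ∈ S.F u → ⟪κ', δ⟫ ≤ ⟪κ, δ⟫) ∧
      Tendsto (fun j => (S.h (v j) - S.h u) / ε j) atTop (𝓝 ⟪S.C u + κ, δ⟫) := by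
  have hvt := t7_v_tendsto hε0 hδ hv
  have hC : Tendsto (fun j => S.C (v j) + κj j) atTop (𝓝 (S.C u + κ)) :=
    ((S.C_cont hu).tendsto.comp hvt).add hκ
  have h1 : S.C u + κ ∈ S.F u := by
    refine ⟨S.K_compact.isClosed.mem_of_tendsto hC (Eventually.of_forall fun j => (hF j).1), ?_⟩
    have h2 : Tendsto (fun j => ⟪v j, S.C (v j) + κj j⟫) atTop (𝓝 ⟪u, S.C u + κ⟫) :=
      hvt.inner hC
    have h3 : Tendsto (fun j => S.h (v j)) atTop (𝓝 (S.h u)) := (S.h_cont.tendsto u).comp hvt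
    simp only [fun j => (hF j).2] at h2
    exact tendsto_nhds_unique h2 h3
  have h2 : ∀ κ', S.C u + κ' ∈ S.F u → ⟪κ', δ⟫ ≤ ⟪κ, δ⟫ := by
    intro κ' hκ'
    have hj : ∀ j, ⟪δj j, S.C u + κ'⟫ ≤ ⟪δj j, S.C (v j) + κj j⟫ := by
      intro j
      have e1 := S.h_le (v j) _ hκ'.1
      have e2 := S.h_le u _ (hF j).1
      have e3 := (hF j).2
      have e4 := hκ'.2
      have e5 : ∀ x, ⟪v j, x⟫ = ⟪u, x⟫ + ε j * ⟪δj j, x⟫ := by
        intro x
        rw [hv j, inner_add_left, inner_smul_left]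
        simp
      rw [e5] at e1 e3
      have : ε j * ⟪δj j, S.C u + κ'⟫ ≤ ε j * ⟪δj j, S.C (v j) + κj j⟫ := by linarith
      exact le_of_mul_le_mul_left this (hε j)
    have h4 := le_of_tendsto_of_tendsto' (hδ.inner tendsto_const_nhds) (hδ.inner hC) hj
    rw [inner_add_right, inner_add_right, real_inner_comm κ' δ, real_inner_comm κ δ] at h4
    linarith
  exact ⟨h1, h2, S.t7_h_deriv hε hε0 hδ hv h1 h2⟩

/-- bound for the slopes -/
theorem t7_slope_bound {v w n : E} {t t' a b : ℝ} (ha : 0 < a) (hv : a ≤ ‖v‖) (hn : ‖n‖ ≤ b)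
    (h : S.Pair v w n t t') : |t| ≤ (4 * S.R / S.r * b + b) / a := by
  have hv0 : v ≠ 0 := by
    rintro rfl
    simp at hv
    linarith
  have h1 := (S.pair_bound hv0 h).1
  have hR := S.R_nonneg
  have hr := S.r_pos
  have h2 : ‖t • v‖ ≤ ‖n - t • v‖ + ‖n‖ := by
    have : t • v = -(n - t • v) + n := by abel
    calc ‖t • v‖ = ‖-(n - t • v) + n‖ := by rw [← this]
      _ ≤ ‖-(n - t • v)‖ + ‖n‖ := norm_add_le _ _
      _ = ‖n - t • v‖ + ‖n‖ := by rw [norm_neg]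
  rw [norm_smul, Real.norm_eq_abs] at h2
  rw [le_div_iff₀ ha]
  have h3 : |t| * a ≤ |t| * ‖v‖ := mul_le_mul_of_nonneg_left hv (abs_nonneg t)
  have h4 : 4 * S.R / S.r * ‖n‖ ≤ 4 * S.R / S.r * b := mul_le_mul_of_nonneg_left hn (by positivity)
  linarith

/-- the core of the monotonicity of slopes -/
theorem t7_mono_core {u δ w n κ : E} {v δj wj nj : ℕ → E} {ε t t' : ℕ → ℝ} {s s' : ℝ}
    (hu : ‖u‖ = 1) (hε : ∀ j, 0 < ε j) (hε0 : Tendsto ε atTop (𝓝 0))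
    (hδ : Tendsto δj atTop (𝓝 δ)) (hv : ∀ j, v j = u + ε j • δj j)
    (hvj : ∀ j, 1 ≤ ‖v j‖)
    (hκ : S.C u + κ ∈ S.F u) (hκm : ∀ κ', S.C u + κ' ∈ S.F u → ⟪κ', δ⟫ ≤ ⟪κ, δ⟫)
    (hw : Tendsto wj atTop (𝓝 w)) (hp : ∀ j, S.Pair (v j) (wj j) (nj j) (t j) (t' j))
    (hn : Tendsto nj atTop (𝓝 n)) (hs : S.Pair u w n s s')
    (hnw : Tendsto (fun j => ⟪nj j - n, (S.C (v j) + wj j) - (S.C u + w)⟫ / ε j) atTop (𝓝 0)) :
    ∀ η > 0, ∀ᶠ j in atTop, -η ≤ (t j - s) * (⟪w, δ⟫ - ⟪κ, δ⟫) := by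
  have hu0 : u ≠ 0 := by
    rintro rfl
    simp at hu
  have hvt := t7_v_tendsto hε0 hδ hv
  have hvj0 : ∀ j, v j ≠ 0 := by
    intro j h0
    have := hvj j
    rw [h0, norm_zero] at this
    linarith
  have hder := S.t7_h_deriv hε hε0 hδ hv hκ hκm
  have hpt : Tendsto (fun j => (S.C (v j) + wj j) - (S.C u + w)) atTop (𝓝 0) := by
    have := (((S.C_cont hu0).tendsto.comp hvt).add hw).sub_const (S.C u + w)
    simpa using this
  -- the error terms
  have e1 : Tendsto (fun j => (S.h (v j) - S.h u) / ε j - ⟪S.C u + κ, δ⟫) atTop (𝓝 0) := by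
    simpa using hder.sub_const ⟪S.C u + κ, δ⟫
  have e2 : Tendsto (fun j => ⟪δj j, S.C u + w⟫ - ⟪δ, S.C u + w⟫) atTop (𝓝 0) := by
    have h0 : Tendsto (fun j => ⟪δj j, S.C u + w⟫) atTop (𝓝 ⟪δ, S.C u + w⟫) :=
      hδ.inner tendsto_const_nhds
    simpa using h0.sub_const ⟪δ, S.C u + w⟫
  have e3 : Tendsto (fun j => s * ⟪δj j, (S.C (v j) + wj j) - (S.C u + w)⟫) atTop (𝓝 0) := by
    simpa using (hδ.inner hpt).const_mul s
  -- boundedness of the slopes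
  obtain ⟨b, hb⟩ : ∃ b, ∀ j, ‖nj j‖ ≤ b := by
    obtain ⟨b, hb⟩ := (hn.norm.bddAbove_range)
    exact ⟨b, fun j => hb ⟨j, rfl⟩⟩
  set T := (4 * S.R / S.r * b + b) / 1 + |s| with hT
  have htb : ∀ j, |t j - s| ≤ T := by
    intro j
    have := S.t7_slope_bound one_pos (hvj j) (hb j) (hp j)
    calc |t j - s| ≤ |t j| + |s| := abs_sub _ _
      _ ≤ T := by rw [hT]; linarith
  -- the inequality
  have key : ∀ j, ⟪nj j - n, (S.C (v j) + wj j) - (S.C u + w)⟫ / ε j -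
      (t j - s) * (((S.h (v j) - S.h u) / ε j - ⟪S.C u + κ, δ⟫) -
        (⟪δj j, S.C u + w⟫ - ⟪δ, S.C u + w⟫)) -
      s * ⟪δj j, (S.C (v j) + wj j) - (S.C u + w)⟫ ≥ -((t j - s) * (⟪w, δ⟫ - ⟪κ, δ⟫)) := by
    intro j
    have h1 := S.pair_mono hs (hp j)
    have h2 : ⟪v j, (S.C (v j) + wj j) - (S.C u + w)⟫ =
        S.h (v j) - S.h u - ε j * ⟪δj j, S.C u + w⟫ := by
      have a1 := S.C_h (v j) (hvj0 j)
      have a2 := (hp j).1.1
      have a3 := S.C_h u hu0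
      have a4 := hs.1.1
      rw [inner_sub_right, inner_add_right, a1, a2]
      have a5 : ⟪v j, S.C u + w⟫ = S.h u + ε j * ⟪δj j, S.C u + w⟫ := by
        rw [hv j, inner_add_left, inner_smul_left, inner_add_right, a3, a4]
        simp
      rw [a5]
      ring
    have h3 : (nj j - t j • v j) - (n - s • u) =
        (nj j - n) - (t j - s) • v j - (s * ε j) • δj j := by
      rw [hv j]
      module
    rw [h3, inner_sub_left, inner_sub_left, inner_smul_left, inner_smul_left, h2] at h1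
    simp only [RCLike.conj_to_real] at h1
    have hεj := hε j
    have h4 : 0 ≤ (⟪nj j - n, (S.C (v j) + wj j) - (S.C u + w)⟫ -
        (t j - s) * (S.h (v j) - S.h u - ε j * ⟪δj j, S.C u + w⟫) -
        s * ε j * ⟪δj j, (S.C (v j) + wj j) - (S.C u + w)⟫) / ε j := by
      apply div_nonneg _ hεj.le
      linarith
    have h5 : (⟪nj j - n, (S.C (v j) + wj j) - (S.C u + w)⟫ -
        (t j - s) * (S.h (v j) - S.h u - ε j * ⟪δj j, S.C u + w⟫) -
        s * ε j * ⟪δj j, (S.C (v j) + wj j) - (S.C u + w)⟫) / ε j =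
        ⟪nj j - n, (S.C (v j) + wj j) - (S.C u + w)⟫ / ε j -
        (t j - s) * ((S.h (v j) - S.h u) / ε j - ⟪δj j, S.C u + w⟫) -
        s * ⟪δj j, (S.C (v j) + wj j) - (S.C u + w)⟫ := by
      field_simp
    rw [h5] at h4
    have h6 : ⟪w, δ⟫ - ⟪κ, δ⟫ = ⟪δ, S.C u + w⟫ - ⟪S.C u + κ, δ⟫ := by
      rw [inner_add_right, inner_add_left, real_inner_comm w δ, real_inner_comm (S.C u) δ]
      ring
    rw [h6]
    nlinarith [h4]
  have hbd : Tendsto (fun j => (t j - s) * (((S.h (v j) - S.h u) / ε j - ⟪S.C u + κ, δ⟫) -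
        (⟪δj j, S.C u + w⟫ - ⟪δ, S.C u + w⟫))) atTop (𝓝 0) := by
    have h0 := (e1.sub e2)
    rw [sub_zero] at h0
    apply squeeze_zero_norm (a := fun j => T * ‖((S.h (v j) - S.h u) / ε j - ⟪S.C u + κ, δ⟫) -
        (⟪δj j, S.C u + w⟫ - ⟪δ, S.C u + w⟫)‖)
    · intro j
      rw [norm_mul]
      exact mul_le_mul_of_nonneg_right (by simpa using htb j) (norm_nonneg _)
    · simpa using h0.norm.const_mul T
  have htot := (hnw.sub hbd).sub e3
  rw [sub_zero, sub_zero] at htot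
  intro η hη
  have := htot.eventually (gt_mem_nhds hη)
  filter_upwards [this] with j hj
  have := key j
  linarith

theorem t7_norm_ge {u : E} (hu : ‖u‖ = 1) {δ : E} {ε : ℝ} (h : ⟪u, δ⟫ = 0) :
    1 ≤ ‖u + ε • δ‖ := by
  have h1 : ‖u + ε • δ‖ ^ 2 = 1 + ‖ε • δ‖ ^ 2 := by
    rw [norm_add_sq_real, hu, inner_smul_right, h]
    ring
  have h2 : 0 ≤ ‖u + ε • δ‖ := norm_nonneg _
  nlinarith [sq_nonneg ‖ε • δ‖]

/-- monotonicity of slopes, `n` fixed -/
theorem blowup_n {u δ w n κ : E} {v δj wj : ℕ → E} {ε t t' : ℕ → ℝ} {s s' : ℝ}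
    (hu : ‖u‖ = 1) (hε : ∀ j, 0 < ε j) (hε0 : Tendsto ε atTop (𝓝 0))
    (hδu : ∀ j, ⟪u, δj j⟫ = 0) (hδ : Tendsto δj atTop (𝓝 δ)) (hv : ∀ j, v j = u + ε j • δj j)
    (hκ : S.C u + κ ∈ S.F u) (hκm : ∀ κ', S.C u + κ' ∈ S.F u → ⟪κ', δ⟫ ≤ ⟪κ, δ⟫)
    (hw : Tendsto wj atTop (𝓝 w)) (hp : ∀ j, S.Pair (v j) (wj j) n (t j) (t' j))
    (hs : S.Pair u w n s s') :
    (∀ η > 0, ∀ᶠ j in atTop, -η ≤ (t j - s) * (⟪w, δ⟫ - ⟪κ, δ⟫)) ∧
    (∀ η > 0, ∀ᶠ j in atTop, -η ≤ (t' j - s') * (-⟪w, δ⟫ - ⟪κ, δ⟫)) := by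
  have hu0 : u ≠ 0 := by
    rintro rfl
    simp at hu
  have hv1 : ∀ j, 1 ≤ ‖v j‖ := fun j => by
    rw [hv j]
    exact t7_norm_ge hu (hδu j)
  have hv0 : ∀ j, v j ≠ 0 := by
    intro j h0
    have := hv1 j
    rw [h0, norm_zero] at this
    linarith
  constructor
  · exact S.t7_mono_core hu hε hε0 hδ hv hv1 hκ hκm hw hp tendsto_const_nhds hs (by simp)
  · have := S.t7_mono_core hu hε hε0 hδ hv hv1 hκ hκm hw.neg
      (fun j => S.t7_pair_flip (hv0 j) (hp j)) tendsto_const_nhds (S.t7_pair_flip hu0 hs) (by simp)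
    simpa only [inner_neg_left] using this

/-! ### Lipschitz dependence of the sections -/

theorem t7_unit {u v : E} (hu : ‖u‖ = 1) (hv : v ≠ 0) :
    ‖‖v‖⁻¹ • v‖ = 1 ∧ ‖u - ‖v‖⁻¹ • v‖ ≤ 2 * ‖u - v‖ := by
  have hn : 0 < ‖v‖ := norm_pos_iff.2 hv
  constructor
  · rw [norm_smul, norm_inv, norm_norm, inv_mul_cancel₀ hn.ne']
  · have h1 : ‖v - ‖v‖⁻¹ • v‖ = |‖v‖ - 1| := by
      have : v - ‖v‖⁻¹ • v = (1 - ‖v‖⁻¹) • v := by module
      rw [this, norm_smul, Real.norm_eq_abs]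
      rw [← abs_of_pos hn, ← abs_mul, abs_of_pos hn]
      congr 1
      field_simp
    have h2 : |‖v‖ - 1| ≤ ‖u - v‖ := by
      rw [← hu, abs_sub_comm]
      exact abs_norm_sub_norm_le u v
    calc ‖u - ‖v‖⁻¹ • v‖ = ‖(u - v) + (v - ‖v‖⁻¹ • v)‖ := by congr 1; abel
      _ ≤ ‖u - v‖ + ‖v - ‖v‖⁻¹ • v‖ := norm_add_le _ _
      _ ≤ 2 * ‖u - v‖ := by rw [h1]; linarith

theorem t7_sec_lip : ∃ L : ℝ, 0 < L ∧ ∀ u v : E, ‖u‖ = 1 → v ≠ 0 →
    ‖S.C u - S.C v‖ ≤ L * ‖u - v‖ ∧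
    (∀ x ∈ S.K1, ⟪u, x⟫ = S.h u → ∃ y ∈ S.K1, ⟪v, y⟫ = S.h v ∧ ‖x - y‖ ≤ L * ‖u - v‖) ∧
    (∀ x ∈ S.K1, ⟪v, x⟫ = S.h v → ∃ y ∈ S.K1, ⟪u, y⟫ = S.h u ∧ ‖x - y‖ ≤ L * ‖u - v‖) := by
  obtain ⟨L1, hL1, h1⟩ := S.section_lip
  obtain ⟨L2, hL2, h2⟩ := S.C_lip
  refine ⟨2 * (L1 + L2), by positivity, fun u v hu hv => ?_⟩
  have hn : 0 < ‖v‖ := norm_pos_iff.2 hv
  obtain ⟨hv1, huv⟩ := t7_unit hu hv
  set v' := ‖v‖⁻¹ • v with hv'
  have hC : S.C v' = S.C v := S.C_smul (inv_pos.2 hn) hv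
  have hh : S.h v' = ‖v‖⁻¹ * S.h v := S.h_smul (inv_nonneg.2 hn.le) v
  have hiff : ∀ x, ⟪v', x⟫ = S.h v' ↔ ⟪v, x⟫ = S.h v := by
    intro x
    rw [hh, hv', inner_smul_left]
    simp only [RCLike.conj_to_real]
    constructor
    · intro h
      exact mul_left_cancel₀ (inv_ne_zero hn.ne') h
    · intro h
      rw [h]
  have hd := norm_nonneg (u - v)
  refine ⟨?_, ?_, ?_⟩
  · have := h2 u v' hu hv1
    rw [hC] at this
    nlinarith
  · intro x hx hxu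
    obtain ⟨y, hy, hyv, hxy⟩ := h1 u v' hu hv1 x hx hxu
    exact ⟨y, hy, (hiff y).1 hyv, by nlinarith⟩
  · intro x hx hxv
    obtain ⟨y, hy, hyu, hxy⟩ := h1 v' u hv1 hu x hx ((hiff x).2 hxv)
    rw [norm_sub_rev v' u] at hxy
    exact ⟨y, hy, hyu, by nlinarith⟩

/-- a vector close to the section becomes an element after shrinking -/
theorem t7_shrink {v z e : E} {η : ℝ} (hv : v ≠ 0) (hz : z ∈ S.Sp v) (he : ⟪v, e⟫ = 0)
    (hη : ‖e - z‖ ≤ η) : (1 / (1 + 2 * η / S.r)) • e ∈ S.Sp v := by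
  have hr := S.r_pos
  have hη0 : 0 ≤ η := (norm_nonneg _).trans hη
  rcases hη0.eq_or_lt with h0 | h0
  · rw [← h0] at hη ⊢
    have : e = z := by
      rw [← sub_eq_zero, ← norm_eq_zero]
      exact le_antisymm hη (norm_nonneg _)
    rw [this]
    simpa using hz
  · set μ := 2 * η / S.r with hμ
    have hμ0 : 0 < μ := by positivity
    have hd : (1 / μ) • (e - z) ∈ S.Sp v := by
      apply S.Sp_ball hv
      · rw [inner_smul_right, inner_sub_right, he, hz.1]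
        simp
      · rw [norm_smul, Real.norm_eq_abs, abs_of_pos (by positivity)]
        calc 1 / μ * ‖e - z‖ ≤ 1 / μ * η := mul_le_mul_of_nonneg_left hη (by positivity)
          _ = S.r / 2 := by
            rw [hμ]
            field_simp
    have := S.Sp_convex v hz hd (a := 1 / (1 + μ)) (b := μ / (1 + μ)) (by positivity)
      (by positivity) (by field_simp)
    convert this using 1
    rw [smul_smul, ← sub_eq_zero]
    have e1 : μ / (1 + μ) * (1 / μ) = 1 / (1 + μ) := by field_simp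
    rw [e1]
    module

theorem t7_lift {u δ w : E} {ε : ℝ} (hu : ‖u‖ = 1) (hδ : ⟪u, δ⟫ = 0) (hw : ⟪u, w⟫ = 0) :
    lift (u + ε • δ) u w = w - (ε * ⟪δ, w⟫) • u := by
  have h1 : ⟪u + ε • δ, u⟫ = 1 := by
    rw [inner_add_left, inner_smul_left, real_inner_self_eq_norm_sq, hu, real_inner_comm, hδ]
    simp
  have h2 : ⟪u + ε • δ, w⟫ = ε * ⟪δ, w⟫ := by
    rw [inner_add_left, inner_smul_left, hw]
    simp
  rw [lift, h1, h2, div_one]

theorem t7_bd_ne_zero {v w : E} (hw : w ∈ S.bd v) : w ≠ 0 := by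
  rintro rfl
  exact hw.2 2 (by norm_num) (by simpa using hw.1)

theorem t7_c_lip {u δ w : E} {v δj wj : ℕ → E} {ε c : ℕ → ℝ}
    (hu : ‖u‖ = 1) (hε : ∀ j, 0 < ε j)
    (hδu : ∀ j, ⟪u, δj j⟫ = 0) (hδ : Tendsto δj atTop (𝓝 δ)) (hv : ∀ j, v j = u + ε j • δj j)
    (hw : w ∈ S.bd u) (hc : ∀ j, wj j = c j • lift (v j) u w) (hwj : ∀ j, wj j ∈ S.bd (v j))
    (hc0 : ∀ j, 0 < c j) :
    ∃ M : ℝ, 0 ≤ M ∧ ∀ j, |c j - 1| ≤ M * ε j ∧ ‖wj j - w‖ ≤ M * ε j ∧
      ‖S.C (v j) - S.C u‖ ≤ M * ε j := by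
  obtain ⟨L, hL, hlip⟩ := S.t7_sec_lip
  obtain ⟨D, hD⟩ := hδ.norm.bddAbove_range
  have hD : ∀ j, ‖δj j‖ ≤ D := fun j => hD ⟨j, rfl⟩
  have hD0 : 0 ≤ D := (norm_nonneg _).trans (hD 0)
  have hr := S.r_pos
  have hR := S.R_nonneg
  have hu0 : u ≠ 0 := by
    rintro rfl
    simp at hu
  have hv0 : ∀ j, v j ≠ 0 := by
    intro j h0
    have := t7_norm_ge (ε := ε j) hu (hδu j)
    rw [← hv j, h0, norm_zero] at this
    linarith
  have hw0 : 0 < ‖w‖ := norm_pos_iff.2 (S.t7_bd_ne_zero hw)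
  have hwu : ⟪u, w⟫ = 0 := hw.1.1
  have hdist : ∀ j, ‖u - v j‖ ≤ D * ε j := by
    intro j
    have h1 : u - v j = -(ε j • δj j) := by rw [hv j]; abel
    rw [h1, norm_neg, norm_smul, Real.norm_eq_abs, abs_of_pos (hε j), mul_comm]
    exact mul_le_mul_of_nonneg_right (hD j) (hε j).le
  have hCd : ∀ j, ‖S.C u - S.C (v j)‖ ≤ L * D * ε j := by
    intro j
    have h1 := (hlip u (v j) hu (hv0 j)).1
    have h2 := mul_le_mul_of_nonneg_left (hdist j) hL.le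
    linarith
  set e : ℕ → E := fun j => lift (v j) u w with he
  have hej : ∀ j, e j = w - (ε j * ⟪δj j, w⟫) • u := by
    intro j
    rw [he]
    simp only
    rw [hv j, t7_lift hu (hδu j) hwu]
  have hewj : ∀ j, ‖e j - w‖ ≤ D * ‖w‖ * ε j := by
    intro j
    have h1 : e j - w = -((ε j * ⟪δj j, w⟫) • u) := by rw [hej]; abel
    rw [h1, norm_neg, norm_smul, hu, mul_one, Real.norm_eq_abs, abs_mul, abs_of_pos (hε j)]
    have h2 : |⟪δj j, w⟫| ≤ D * ‖w‖ :=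
      (abs_real_inner_le_norm _ _).trans (mul_le_mul_of_nonneg_right (hD j) hw0.le)
    have h3 := mul_le_mul_of_nonneg_left h2 (hε j).le
    linarith
  have hev : ∀ j, ⟪v j, e j⟫ = 0 := by
    intro j
    have h1 := (hwj j).1.1
    rw [hc j, inner_smul_right] at h1
    exact (mul_eq_zero.1 h1).resolve_left (hc0 j).ne'
  have hcb : ∀ j, c j * ‖w‖ ≤ 2 * S.R := by
    intro j
    have h1 : ⟪wj j, w⟫ = c j * ‖w‖ ^ 2 := by
      rw [hc j, inner_smul_left]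
      have h2 : ⟪lift (v j) u w, w⟫ = ‖w‖ ^ 2 := by
        have := hej j
        rw [he] at this
        simp only at this
        rw [this, inner_sub_left, inner_smul_left, hwu, real_inner_self_eq_norm_sq]
        simp
      rw [h2]
      simp
    have h3 : ⟪wj j, w⟫ ≤ 2 * S.R * ‖w‖ :=
      (real_inner_le_norm _ _).trans
        (mul_le_mul_of_nonneg_right (S.Sp_norm (hv0 j) (hwj j).1) hw0.le)
    rw [h1] at h3
    have h4 : (c j * ‖w‖) * ‖w‖ ≤ (2 * S.R) * ‖w‖ := by nlinarith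
    exact le_of_mul_le_mul_right h4 hw0
  -- lower bound
  set M1 := D * ‖w‖ + 2 * (L * D) with hM1
  have hM1' : 0 ≤ M1 := by positivity
  have hlow : ∀ j, 1 / (1 + 2 * (M1 * ε j) / S.r) ≤ c j := by
    intro j
    have hεj := hε j
    obtain ⟨y, hy, hyv, hxy⟩ := (hlip u (v j) hu (hv0 j)).2.1 (S.C u + w) hw.1.2
      (by rw [inner_add_right, hwu, S.C_h u hu0, add_zero])
    have hz : y - S.C (v j) ∈ S.Sp (v j) := by
      refine ⟨?_, by rwa [add_sub_cancel]⟩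
      rw [inner_sub_right, hyv, S.C_h _ (hv0 j), sub_self]
    have hd : ‖e j - (y - S.C (v j))‖ ≤ M1 * ε j := by
      have h1 : e j - (y - S.C (v j)) = (e j - w) + ((S.C u + w) - y) - (S.C u - S.C (v j)) := by
        abel
      rw [h1]
      have h2 := norm_sub_le ((e j - w) + ((S.C u + w) - y)) (S.C u - S.C (v j))
      have h3 := norm_add_le (e j - w) ((S.C u + w) - y)
      have h4 := hewj j
      have h5 := hCd j
      have h6 := mul_le_mul_of_nonneg_left (hdist j) hL.le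
      rw [hM1]
      linarith
    have hmem := S.t7_shrink (hv0 j) hz (hev j) hd
    by_contra hlt
    push Not at hlt
    have hpos : 0 < 1 / (1 + 2 * (M1 * ε j) / S.r) := by positivity
    apply (hwj j).2 (1 / (1 + 2 * (M1 * ε j) / S.r) / c j)
    · rw [lt_div_iff₀ (hc0 j)]
      linarith
    · rw [hc j, smul_smul, div_mul_cancel₀ _ (hc0 j).ne']
      exact hmem
  -- upper bound
  set M2 := 2 * S.R * D + 2 * (L * D) with hM2
  have hM2' : 0 ≤ M2 := by positivity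
  have hup : ∀ j, c j ≤ 1 + 2 * (M2 * ε j) / S.r := by
    intro j
    have hεj := hε j
    obtain ⟨y, hy, hyv, hxy⟩ := (hlip u (v j) hu (hv0 j)).2.2 (S.C (v j) + wj j) (hwj j).1.2
      (by rw [inner_add_right, (hwj j).1.1, S.C_h _ (hv0 j), add_zero])
    have hz : y - S.C u ∈ S.Sp u := by
      refine ⟨?_, by rwa [add_sub_cancel]⟩
      rw [inner_sub_right, hyv, S.C_h _ hu0, sub_self]
    have hd : ‖c j • w - (y - S.C u)‖ ≤ M2 * ε j := by
      have h1 : c j • w - (y - S.C u) = (c j • (w - e j)) + ((S.C (v j) + wj j) - y) +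
          (S.C u - S.C (v j)) := by
        rw [hc j, he]
        module
      rw [h1]
      have h2 := norm_add_le ((c j • (w - e j)) + ((S.C (v j) + wj j) - y)) (S.C u - S.C (v j))
      have h3 := norm_add_le (c j • (w - e j)) ((S.C (v j) + wj j) - y)
      have h4 : ‖c j • (w - e j)‖ ≤ 2 * S.R * D * ε j := by
        rw [norm_smul, Real.norm_eq_abs, abs_of_pos (hc0 j), norm_sub_rev]
        have h5 := mul_le_mul_of_nonneg_left (hewj j) (hc0 j).le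
        have h6 := mul_le_mul_of_nonneg_right (hcb j) (mul_nonneg hD0 hεj.le)
        linarith
      have h5 := hCd j
      have h6 := mul_le_mul_of_nonneg_left (hdist j) hL.le
      rw [hM2]
      linarith
    have hmem := S.t7_shrink hu0 hz (by rw [inner_smul_right, hwu, mul_zero]) hd
    rw [smul_smul] at hmem
    by_contra hlt
    push Not at hlt
    apply hw.2 (1 / (1 + 2 * (M2 * ε j) / S.r) * c j) _ hmem
    have hpos : 0 < 1 + 2 * (M2 * ε j) / S.r := by positivity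
    rw [one_div, ← div_eq_inv_mul, lt_div_iff₀ hpos]
    linarith
  have hcl : ∀ j, |c j - 1| ≤ (2 * M1 / S.r + 2 * M2 / S.r) * ε j := by
    intro j
    have hεj := hε j
    rw [abs_le]
    constructor
    · have h1 := hlow j
      have h2 : 1 - 2 * (M1 * ε j) / S.r ≤ 1 / (1 + 2 * (M1 * ε j) / S.r) := by
        rw [le_div_iff₀ (by positivity)]
        nlinarith [sq_nonneg (2 * (M1 * ε j) / S.r)]
      have h3 : 0 ≤ 2 * M2 / S.r * ε j := by positivity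
      have h4 : 2 * (M1 * ε j) / S.r = 2 * M1 / S.r * ε j := by ring
      rw [h4] at h2 h1
      linarith
    · have h1 := hup j
      have h3 : 0 ≤ 2 * M1 / S.r * ε j := by positivity
      have h4 : 2 * (M2 * ε j) / S.r = 2 * M2 / S.r * ε j := by ring
      rw [h4] at h1
      linarith
  set M3 := 2 * M1 / S.r + 2 * M2 / S.r with hM3
  have hM3' : 0 ≤ M3 := by positivity
  refine ⟨M3 + (2 * S.R * D + M3 * ‖w‖) + L * D, by positivity, fun j => ?_⟩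
  have hεj := (hε j).le
  have p1 : 0 ≤ M3 * ε j := by positivity
  have p2 : 0 ≤ (2 * S.R * D + M3 * ‖w‖) * ε j := by positivity
  have p3 : 0 ≤ L * D * ε j := by positivity
  refine ⟨?_, ?_, ?_⟩
  · have := hcl j
    linarith
  · have h1 : wj j - w = c j • (e j - w) + (c j - 1) • w := by
      rw [hc j, he]
      module
    rw [h1]
    have h2 := norm_add_le (c j • (e j - w)) ((c j - 1) • w)
    have h4 : ‖c j • (e j - w)‖ ≤ 2 * S.R * D * ε j := by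
      rw [norm_smul, Real.norm_eq_abs, abs_of_pos (hc0 j)]
      have h5 := mul_le_mul_of_nonneg_left (hewj j) (hc0 j).le
      have h6 := mul_le_mul_of_nonneg_right (hcb j) (mul_nonneg hD0 hεj)
      linarith
    have h5 : ‖(c j - 1) • w‖ ≤ M3 * ‖w‖ * ε j := by
      rw [norm_smul, Real.norm_eq_abs]
      have := mul_le_mul_of_nonneg_right (hcl j) hw0.le
      linarith
    linarith
  · rw [norm_sub_rev]
    have := hCd j
    linarith

/-- monotonicity of slopes, `w` fixed: `w j` is the boundary point of `S'_{v j}` with the direction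
`lift (v j) u w` -/
theorem blowup_w {u δ w n κ : E} {v δj wj nj : ℕ → E} {ε t t' : ℕ → ℝ} {s s' : ℝ} {c : ℕ → ℝ}
    (hu : ‖u‖ = 1) (hε : ∀ j, 0 < ε j) (hε0 : Tendsto ε atTop (𝓝 0))
    (hδu : ∀ j, ⟪u, δj j⟫ = 0) (hδ : Tendsto δj atTop (𝓝 δ)) (hv : ∀ j, v j = u + ε j • δj j)
    (hκ : S.C u + κ ∈ S.F u) (hκm : ∀ κ', S.C u + κ' ∈ S.F u → ⟪κ', δ⟫ ≤ ⟪κ, δ⟫)
    (hw : w ∈ S.bd u) (hc : ∀ j, wj j = c j • lift (v j) u w) (hwj : ∀ j, wj j ∈ S.bd (v j))
    (hc0 : ∀ j, 0 < c j)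
    (hn : Tendsto nj atTop (𝓝 n)) (hp : ∀ j, S.Pair (v j) (wj j) (nj j) (t j) (t' j))
    (hs : S.Pair u w n s s') :
    (∃ Cst : ℝ, ∀ᶠ j in atTop, |c j - 1| ≤ Cst * ε j) ∧
    (∀ η > 0, ∀ᶠ j in atTop, -η ≤ (t j - s) * (⟪w, δ⟫ - ⟪κ, δ⟫)) ∧
    (∀ η > 0, ∀ᶠ j in atTop, -η ≤ (t' j - s') * (-⟪w, δ⟫ - ⟪κ, δ⟫)) := by
  obtain ⟨M, hM, hb⟩ := S.t7_c_lip hu hε hδu hδ hv hw hc hwj hc0
  have hu0 : u ≠ 0 := by
    rintro rfl
    simp at hu
  have hv1 : ∀ j, 1 ≤ ‖v j‖ := fun j => by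
    rw [hv j]
    exact t7_norm_ge hu (hδu j)
  have hv0 : ∀ j, v j ≠ 0 := by
    intro j h0
    have := hv1 j
    rw [h0, norm_zero] at this
    linarith
  have hwt : Tendsto wj atTop (𝓝 w) := by
    rw [tendsto_iff_norm_sub_tendsto_zero]
    apply squeeze_zero (fun j => norm_nonneg _) (fun j => (hb j).2.1)
    simpa using hε0.const_mul M
  have aux : ∀ (x : ℕ → E) (m : ℕ → E), (∀ j, ‖x j‖ ≤ 2 * M * ε j) → Tendsto m atTop (𝓝 0) →
      Tendsto (fun j => ⟪m j, x j⟫ / ε j) atTop (𝓝 0) := by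
    intro x m hx hm
    apply squeeze_zero_norm (a := fun j => ‖m j‖ * (2 * M))
    · intro j
      rw [norm_div, Real.norm_eq_abs (ε j), abs_of_pos (hε j), div_le_iff₀ (hε j)]
      calc ‖⟪m j, x j⟫‖ ≤ ‖m j‖ * ‖x j‖ := norm_inner_le_norm _ _
        _ ≤ ‖m j‖ * (2 * M * ε j) := mul_le_mul_of_nonneg_left (hx j) (norm_nonneg _)
        _ = ‖m j‖ * (2 * M) * ε j := by ring
    · simpa using hm.norm.mul_const (2 * M)
  have hn0 : Tendsto (fun j => nj j - n) atTop (𝓝 0) := by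
    simpa using hn.sub_const n
  refine ⟨⟨M, Eventually.of_forall fun j => (hb j).1⟩, ?_, ?_⟩
  · refine S.t7_mono_core hu hε hε0 hδ hv hv1 hκ hκm hwt hp hn hs
      (aux (fun j => (S.C (v j) + wj j) - (S.C u + w)) _ (fun j => ?_) hn0)
    have h1 : (S.C (v j) + wj j) - (S.C u + w) = (S.C (v j) - S.C u) + (wj j - w) := by abel
    rw [h1]
    have := norm_add_le (S.C (v j) - S.C u) (wj j - w)
    have h2 := (hb j).2.1
    have h3 := (hb j).2.2
    linarith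
  · have := S.t7_mono_core hu hε hε0 hδ hv hv1 hκ hκm hwt.neg
      (fun j => S.t7_pair_flip (hv0 j) (hp j)) hn.neg (S.t7_pair_flip hu0 hs)
      (aux (fun j => (S.C (v j) + -wj j) - (S.C u + -w)) (fun j => -nj j - -n) (fun j => ?_)
        (by
          have := hn0.neg
          rw [neg_zero] at this
          refine this.congr fun j => ?_
          abel))
    · simpa only [inner_neg_left] using this
    · have h1 : (S.C (v j) + -wj j) - (S.C u + -w) = (S.C (v j) - S.C u) - (wj j - w) := by abel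
      rw [h1]
      have := norm_sub_le (S.C (v j) - S.C u) (wj j - w)
      have h2 := (hb j).2.1
      have h3 := (hb j).2.2
      linarith

end Setting
end Pool.Agent.Helper18.BL
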