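import Mathlib
import Pool.Agent.Helper18.BL.T3
import Pool.Agent.Helper18.BL.T5b
import Pool.Agent.Helper18.BL.T7a

set_option autoImplicit false

open Set MeasureTheory Filter Topology Metric
open scoped RealInnerProductSpace Pointwise

namespace Pool.Agent.Helper18.BL
namespace Setting
variable (S : Setting)

/-! ### Generic boundary points -/

theorem t7_R_pos : 0 < S.R := by
  obtain ⟨x, hx⟩ := S.K_int
  have hxK := interior_subset hx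
  obtain ⟨e, he⟩ : ∃ e : E, ‖e‖ = 1 := ⟨EuclideanSpace.single 0 1, by simp⟩
  have hr := S.r_pos
  have h1 := S.K1_bdd (x + S.r • e) (S.ball_sub x hxK (by
    rw [mem_closedBall, dist_eq_norm, add_sub_cancel_left, norm_smul, he, mul_one,
      Real.norm_eq_abs, abs_of_pos hr]))
  have h2 := S.K1_bdd (x - S.r • e) (S.ball_sub x hxK (by
    rw [mem_closedBall, dist_eq_norm, sub_sub_cancel_left, norm_neg, norm_smul, he, mul_one,
      Real.norm_eq_abs, abs_of_pos hr]))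
  have h3 : (2 : ℝ) • (S.r • e) = (x + S.r • e) - (x - S.r • e) := by module
  have h4 : ‖(2 : ℝ) • (S.r • e)‖ = 2 * S.r := by
    rw [norm_smul, norm_smul, he, Real.norm_eq_abs, Real.norm_eq_abs, abs_of_pos hr]
    norm_num
  rw [h3] at h4
  have := norm_sub_le (x + S.r • e) (x - S.r • e)
  linarith

theorem t7_lift_perp {u : E} (hu : ‖u‖ = 1) (x : E) : ⟪u, lift u u x⟫ = 0 := by
  have h1 : ⟪u, u⟫ = 1 := by rw [real_inner_self_eq_norm_sq, hu]; norm_num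
  rw [lift, inner_sub_right, inner_smul_right, h1]
  ring

theorem t7_inner_lift {u n : E} (hn : ⟪u, n⟫ = 0) (x : E) : ⟪n, lift u u x⟫ = ⟪n, x⟫ := by
  rw [lift, inner_sub_right, inner_smul_right, real_inner_comm u n, hn]
  ring

theorem t7_lift_self {u x : E} (h : ⟪u, x⟫ = 0) : lift u u x = x := by
  rw [lift, h]
  simp

theorem t7_norm_lift {u : E} (hu : ‖u‖ = 1) (x : E) : ‖lift u u x‖ ≤ ‖x‖ := by
  have h1 : ⟪u, u⟫ = 1 := by rw [real_inner_self_eq_norm_sq, hu]; norm_num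
  have h2 : x = lift u u x + ⟪u, x⟫ • u := by
    rw [lift, h1, div_one]
    abel
  have h3 : ‖x‖ ^ 2 = ‖lift u u x‖ ^ 2 + ⟪u, x⟫ ^ 2 := by
    conv_lhs => rw [h2]
    rw [norm_add_sq_real, inner_smul_right, real_inner_comm u (lift u u x), t7_lift_perp hu,
      norm_smul, hu, mul_one, Real.norm_eq_abs, sq_abs]
    ring
  have h4 : ‖lift u u x‖ ^ 2 ≤ ‖x‖ ^ 2 := by nlinarith [sq_nonneg ⟪u, x⟫]
  exact le_of_sq_le_sq h4 (norm_nonneg x) |> fun h => h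

/-- the cylinder over the section -/
def t7D (u : E) : Set E := {x | lift u u x ∈ S.Sp u}

theorem t7D_convex (u : E) : Convex ℝ (S.t7D u) :=
  (S.Sp_convex u).linear_preimage (liftL u u)

theorem t7D_ball {u : E} (hu : ‖u‖ = 1) : closedBall 0 (S.r / 2) ⊆ S.t7D u := by
  intro x hx
  rw [mem_closedBall, dist_zero_right] at hx
  have hu0 : u ≠ 0 := by
    rintro rfl
    simp at hu
  exact S.Sp_ball hu0 (t7_lift_perp hu x) ((t7_norm_lift hu x).trans hx)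

theorem t7D_nhds {u : E} (hu : ‖u‖ = 1) : S.t7D u ∈ 𝓝 (0 : E) :=
  mem_of_superset (closedBall_mem_nhds 0 (by have := S.r_pos; positivity)) (S.t7D_ball hu)

/-- the gauge of the cylinder -/
noncomputable def t7G (u : E) : E → ℝ := gauge (S.t7D u)

theorem t7G_cont {u : E} (hu : ‖u‖ = 1) : Continuous (S.t7G u) :=
  continuous_gauge (S.t7D_convex u) (S.t7D_nhds hu)

theorem t7G_dense {u : E} (hu : ‖u‖ = 1) : Dense {e | DifferentiableAt ℝ (S.t7G u) e} := by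
  obtain ⟨L, hL⟩ := (S.t7D_convex u).lipschitz_gauge (S.t7D_nhds hu)
  exact Measure.dense_of_ae (hL.ae_differentiableAt (μ := volume))

/-- normals are below the gauge -/
theorem t7_normal_le {u n : E} (hu : ‖u‖ = 1) (hn : ⟪u, n⟫ = 0) (h : ∀ x ∈ S.Sp u, ⟪n, x⟫ ≤ 1)
    (x : E) : ⟪n, x⟫ ≤ S.t7G u x := by
  apply le_of_forall_gt
  intro a ha
  obtain ⟨b, hb0, hba, hx⟩ := exists_lt_of_gauge_lt (absorbent_nhds_zero (S.t7D_nhds hu)) ha
  obtain ⟨y, hy, rfl⟩ := hx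
  have h1 : ⟪n, y⟫ ≤ 1 := by
    rw [← t7_inner_lift hn]
    exact h _ hy
  simp only [inner_smul_right]
  nlinarith

theorem t7G_bd {u w : E} (hu : ‖u‖ = 1) (hw : w ∈ S.bd u) : S.t7G u w = 1 := by
  have hwu : ⟪u, w⟫ = 0 := hw.1.1
  apply le_antisymm
  · apply gauge_le_one_of_mem
    change lift u u w ∈ S.Sp u
    rw [t7_lift_self hwu]
    exact hw.1
  · by_contra hlt
    push Not at hlt
    obtain ⟨b, hb0, hb1, hx⟩ := exists_lt_of_gauge_lt (absorbent_nhds_zero (S.t7D_nhds hu)) hlt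
    obtain ⟨y, hy, hyw⟩ := hx
    apply hw.2 b⁻¹ ((one_lt_inv₀ hb0).2 hb1)
    rw [← hyw]
    simp only
    rw [inv_smul_smul₀ hb0.ne']
    have hyu : ⟪u, y⟫ = 0 := by
      rw [← hyw, inner_smul_right] at hwu
      exact (mul_eq_zero.1 hwu).resolve_left hb0.ne'
    change lift u u y ∈ S.Sp u at hy
    rwa [t7_lift_self hyu] at hy

theorem t7G_lift {u : E} (hu : ‖u‖ = 1) (x : E) : S.t7G u (lift u u x) = S.t7G u x := by
  have key : ∀ b : ℝ, 0 < b → (lift u u x ∈ b • S.t7D u ↔ x ∈ b • S.t7D u) := by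
    intro b hb
    rw [mem_smul_set_iff_inv_smul_mem₀ hb.ne', mem_smul_set_iff_inv_smul_mem₀ hb.ne']
    change lift u u _ ∈ S.Sp u ↔ lift u u _ ∈ S.Sp u
    have h1 : lift u u (b⁻¹ • lift u u x) = b⁻¹ • lift u u x := by
      apply t7_lift_self
      rw [inner_smul_right, t7_lift_perp hu, mul_zero]
    have h2 : lift u u (b⁻¹ • x) = b⁻¹ • lift u u x := (liftL u u).map_smul b⁻¹ x
    rw [h1, h2]
  unfold t7G gauge
  congr 1
  ext b
  simp only [mem_ofPred_eq]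
  constructor
  · rintro ⟨h1, h2⟩
    exact ⟨h1, (key b h1).1 h2⟩
  · rintro ⟨h1, h2⟩
    exact ⟨h1, (key b h1).2 h2⟩

/-- the boundary point in the direction `e` -/
theorem t7_bdpt {u e : E} (hu : ‖u‖ = 1) (he : lift u u e ≠ 0) :
    0 < S.t7G u e ∧ (S.t7G u e)⁻¹ • lift u u e ∈ S.bd u := by
  have hu0 : u ≠ 0 := by
    rintro rfl
    simp at hu
  obtain ⟨c, hc, hcb⟩ := S.exists_bd hu0 he (t7_lift_perp hu e)
  have h1 := S.t7G_bd hu hcb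
  have h2 : S.t7G u (c • lift u u e) = c * S.t7G u e := by
    rw [← S.t7G_lift hu e]
    exact gauge_smul_of_nonneg hc.le _
  rw [h2] at h1
  have h3 : c = (S.t7G u e)⁻¹ := eq_inv_of_mul_eq_one_left h1
  have h4 : 0 < S.t7G u e := by
    by_contra h0
    push Not at h0
    nlinarith
  rw [h3] at hcb
  exact ⟨h4, hcb⟩

theorem t7_exists_perp (a b : E) : ∃ c : E, ‖c‖ = 1 ∧ ⟪a, c⟫ = 0 ∧ ⟪b, c⟫ = 0 := by
  have h1 : Module.finrank ℝ (Submodule.span ℝ ({a, b} : Set E)) ≤ 2 := by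
    have := finrank_span_le_card (R := ℝ) ({a, b} : Set E)
    refine this.trans ?_
    rw [toFinset_insert, toFinset_singleton]
    exact Finset.card_le_two
  have h2 := Submodule.finrank_add_finrank_orthogonal (Submodule.span ℝ ({a, b} : Set E))
  have h3 : Module.finrank ℝ E = 3 := by simp
  have h4 : 0 < Module.finrank ℝ (Submodule.span ℝ ({a, b} : Set E))ᗮ := by omega
  have : Nontrivial (Submodule.span ℝ ({a, b} : Set E))ᗮ := Module.finrank_pos_iff.1 h4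
  obtain ⟨x, hx⟩ := exists_ne (0 : (Submodule.span ℝ ({a, b} : Set E))ᗮ)
  have hx0 : (x : E) ≠ 0 := fun h => hx (Subtype.ext h)
  have hxm := (Submodule.mem_orthogonal _ _).1 x.2
  have ha := hxm a (Submodule.subset_span (by simp))
  have hb := hxm b (Submodule.subset_span (by simp))
  refine ⟨‖(x : E)‖⁻¹ • (x : E), ?_, ?_, ?_⟩
  · rw [norm_smul, norm_inv, norm_norm, inv_mul_cancel₀ (norm_ne_zero_iff.2 hx0)]
  · rw [inner_smul_right, ha, mul_zero]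
  · rw [inner_smul_right, hb, mul_zero]

theorem t7_pert {U : Set E} (hU : IsOpen U) {e : E} (he : e ∈ U) (m : E) :
    ∃ s : ℝ, 0 < s ∧ e + s • m ∈ U := by
  have h1 : Tendsto (fun s : ℝ => e + s • m) (𝓝[>] 0) (𝓝 e) := by
    have : Tendsto (fun s : ℝ => e + s • m) (𝓝 0) (𝓝 (e + (0 : ℝ) • m)) :=
      (by fun_prop : Continuous fun s : ℝ => e + s • m).tendsto 0
    rw [zero_smul, add_zero] at this
    exact this.mono_left nhdsWithin_le_nhds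
  have h2 := (h1.eventually (hU.mem_nhds he)).and self_mem_nhdsWithin
  obtain ⟨s, hs, hs0⟩ := h2.exists
  exact ⟨s, hs0, hs⟩

theorem t7_dense_inner {c : E} (hc : c ≠ 0) :
    IsOpen {e : E | ⟪c, e⟫ ≠ 0} ∧ Dense {e : E | ⟪c, e⟫ ≠ 0} := by
  constructor
  · exact isOpen_ne_fun (by fun_prop) continuous_const
  · rw [dense_iff_inter_open]
    rintro U hU ⟨e, he⟩
    by_cases h : ⟪c, e⟫ = 0
    · obtain ⟨s, hs, hse⟩ := t7_pert hU he c
      refine ⟨e + s • c, hse, ?_⟩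
      change ⟪c, e + s • c⟫ ≠ 0
      rw [inner_add_right, inner_smul_right, h, real_inner_self_eq_norm_sq, zero_add]
      have : 0 < ‖c‖ := norm_pos_iff.2 hc
      positivity
    · exact ⟨e, he, h⟩

theorem t7_dense_ne {u δ : E} {g : ℝ} (hu : ‖u‖ = 1) (hδ : δ ≠ 0) (hδu : ⟪u, δ⟫ = 0)
    (hg : ∀ n, ⟪u, n⟫ = 0 → (∀ x ∈ S.Sp u, ⟪n, x⟫ ≤ 1) → g • n ≠ δ) :
    IsOpen {e : E | ⟪δ, e⟫ ≠ g * S.t7G u e} ∧ Dense {e : E | ⟪δ, e⟫ ≠ g * S.t7G u e} := by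
  have hu0 : u ≠ 0 := by
    rintro rfl
    simp at hu
  have hcont := S.t7G_cont hu
  constructor
  · exact isOpen_ne_fun (by fun_prop) (by fun_prop)
  · rw [dense_iff_inter_open]
    intro U hU hUn
    by_contra hcon
    have hall : ∀ e ∈ U, ⟪δ, e⟫ = g * S.t7G u e := by
      intro e he
      by_contra h
      exact hcon ⟨e, he, h⟩
    obtain ⟨e, heU, he⟩ := (t7_dense_inner hδ).2.inter_open_nonempty U hU hUn
    change ⟪δ, e⟫ ≠ 0 at he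
    have hle : lift u u e ≠ 0 := by
      intro h0
      apply he
      rw [← t7_inner_lift hδu, h0, inner_zero_right]
    obtain ⟨hG, hw⟩ := S.t7_bdpt hu hle
    obtain ⟨n, t, t', hnu, hnw, hp⟩ := S.pair_exists_w hu0 hw
    have hn1 : ∀ x ∈ S.Sp u, ⟪n, x⟫ ≤ 1 := fun x hx => by
      rw [← hnw]
      exact S.pair_max hu0 hp x hx
    have hne : ⟪n, e⟫ = S.t7G u e := by
      rw [inner_smul_right, t7_inner_lift hnu] at hnw
      field_simp at hnw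
      exact hnw
    have hg0 : g ≠ 0 := by
      rintro rfl
      apply he
      rw [hall e heU, zero_mul]
    set m := g⁻¹ • δ - n with hm
    obtain ⟨s, hs, hse⟩ := t7_pert hU heU (-m)
    have h1 := hall _ hse
    have h2 := S.t7_normal_le hu hnu hn1 (e + s • -m)
    have h3 := hall e heU
    have h4 : ⟪m, e + s • -m⟫ = -(s * ‖m‖ ^ 2) := by
      rw [inner_add_right, inner_smul_right, inner_neg_right, real_inner_self_eq_norm_sq]
      have : ⟪m, e⟫ = 0 := by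
        rw [hm, inner_sub_left, inner_smul_left, h3, hne]
        simp only [RCLike.conj_to_real]
        field_simp
        ring
      rw [this]
      ring
    have h5 : ⟪m, e + s • -m⟫ = S.t7G u (e + s • -m) - ⟪n, e + s • -m⟫ := by
      rw [hm, inner_sub_left, inner_smul_left, ← hm, h1]
      simp only [RCLike.conj_to_real]
      field_simp
    have h6 : ‖m‖ = 0 := by
      have h7 : 0 ≤ -(s * ‖m‖ ^ 2) := by rw [← h4, h5]; linarith
      have h8 : s * ‖m‖ ^ 2 = 0 := le_antisymm (by linarith) (by positivity)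
      simpa [hs.ne'] using h8
    apply hg n hnu hn1
    have h9 : m = 0 := norm_eq_zero.1 h6
    rw [hm, sub_eq_zero] at h9
    rw [← h9, smul_inv_smul₀ hg0]

/-- the normal at `w` is unique -/
def t7U (u w : E) : Prop := ∀ n n' : E, ⟪u, n⟫ = 0 → ⟪u, n'⟫ = 0 → ⟪n, w⟫ = 1 → ⟪n', w⟫ = 1 →
  (∀ x ∈ S.Sp u, ⟪n, x⟫ ≤ 1) → (∀ x ∈ S.Sp u, ⟪n', x⟫ ≤ 1) → n = n'

/-- existence of generic boundary points -/
theorem t7_generic {u δ c1 c2 nb κ : E} (hu : ‖u‖ = 1) (hδu : ⟪u, δ⟫ = 0) (hδ : δ ≠ 0)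
    (hκ : S.C u + κ ∈ S.F u) (hc1 : c1 ≠ 0) (hc1u : ⟪u, c1⟫ = 0) (hc2 : c2 ≠ 0)
    (hc2u : ⟪u, c2⟫ = 0) (hnb : ⟪u, nb⟫ = 0) :
    ∃ w ∈ S.bd u, ⟪w, δ⟫ ≠ ⟪κ, δ⟫ ∧ -⟪w, δ⟫ ≠ ⟪κ, δ⟫ ∧ ⟪w, c1⟫ ≠ 0 ∧ ⟪w, c2⟫ ≠ 0 ∧
      |⟪nb, w⟫| < 1 ∧ S.t7U u w := by
  have hu0 : u ≠ 0 := by
    rintro rfl
    simp at hu
  have hcont := S.t7G_cont hu
  -- the contact point is inside
  obtain ⟨c, hc, hcκ⟩ := S.F_inside hu0 hκ
  have hc1' : 1 < c := by
    have h1 := S.r_pos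
    have h2 := S.t7_R_pos
    have : 0 < S.r / (2 * S.R) := by positivity
    linarith
  have hA1 := S.t7_dense_ne (g := ⟪κ, δ⟫) hu hδ hδu (by
    intro n hn hn1 h
    have h1 := hn1 _ hcκ
    rw [inner_smul_right] at h1
    by_cases hg : ⟪κ, δ⟫ = 0
    · rw [hg, zero_smul] at h
      exact hδ h.symm
    · have h2 : ⟪κ, δ⟫ = ⟪κ, δ⟫ * ⟪n, κ⟫ := by
        conv_lhs => rw [← h, inner_smul_right, real_inner_comm n κ]
      have h3 : ⟪n, κ⟫ = 1 := by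
        have : ⟪κ, δ⟫ * 1 = ⟪κ, δ⟫ * ⟪n, κ⟫ := by rw [mul_one]; exact h2
        exact (mul_left_cancel₀ hg this).symm
      rw [h3] at h1
      linarith)
  have hA2 := S.t7_dense_ne (g := -⟪κ, δ⟫) hu hδ hδu (by
    intro n hn hn1 h
    have h1 := hn1 _ (S.Sp_neg hu0 hcκ)
    rw [inner_neg_right, inner_smul_right] at h1
    by_cases hg : ⟪κ, δ⟫ = 0
    · rw [hg, neg_zero, zero_smul] at h
      exact hδ h.symm
    · have h2 : ⟪κ, δ⟫ = -⟪κ, δ⟫ * ⟪n, κ⟫ := by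
        conv_lhs => rw [← h, inner_smul_right, real_inner_comm n κ]
      have h3 : ⟪n, κ⟫ = -1 := by
        have : ⟪κ, δ⟫ * ⟪n, κ⟫ = ⟪κ, δ⟫ * -1 := by linarith
        exact mul_left_cancel₀ hg this
      rw [h3] at h1
      linarith)
  have hA3 := t7_dense_inner hc1
  have hA4 := t7_dense_inner hc2
  have hV : IsOpen {e : E | |⟪nb, e⟫| < S.t7G u e} := isOpen_lt (by fun_prop) hcont
  have hVn : {e : E | |⟪nb, e⟫| < S.t7G u e}.Nonempty := by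
    obtain ⟨e, he1, heu, hen⟩ := t7_exists_perp u nb
    refine ⟨e, ?_⟩
    change |⟪nb, e⟫| < S.t7G u e
    rw [hen, abs_zero]
    apply (S.t7_bdpt hu _).1
    rw [t7_lift_self heu]
    rintro rfl
    simp at he1
  have hO : IsOpen ({e : E | |⟪nb, e⟫| < S.t7G u e} ∩ ({e : E | ⟪δ, e⟫ ≠ ⟪κ, δ⟫ * S.t7G u e} ∩
      ({e : E | ⟪δ, e⟫ ≠ -⟪κ, δ⟫ * S.t7G u e} ∩ ({e : E | ⟪c1, e⟫ ≠ 0} ∩ {e : E | ⟪c2, e⟫ ≠ 0})))) :=
    hV.inter (hA1.1.inter (hA2.1.inter (hA3.1.inter hA4.1)))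
  have hOn : ({e : E | |⟪nb, e⟫| < S.t7G u e} ∩ ({e : E | ⟪δ, e⟫ ≠ ⟪κ, δ⟫ * S.t7G u e} ∩
      ({e : E | ⟪δ, e⟫ ≠ -⟪κ, δ⟫ * S.t7G u e} ∩
        ({e : E | ⟪c1, e⟫ ≠ 0} ∩ {e : E | ⟪c2, e⟫ ≠ 0})))).Nonempty := by
    apply Dense.inter_open_nonempty _ _ hV hVn
    apply hA1.2.inter_of_isOpen_left _ hA1.1
    apply hA2.2.inter_of_isOpen_left _ hA2.1
    exact hA3.2.inter_of_isOpen_left hA4.2 hA3.1
  obtain ⟨e, ⟨he5, he1, he2, he3, he4⟩, hdiff⟩ :=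
    (S.t7G_dense hu).inter_open_nonempty _ hO hOn
  simp only [mem_ofPred_eq] at he1 he2 he3 he4 he5 hdiff
  have hle : lift u u e ≠ 0 := by
    intro h0
    apply he3
    rw [← t7_inner_lift hc1u, h0, inner_zero_right]
  obtain ⟨hG, hw⟩ := S.t7_bdpt hu hle
  have hin : ∀ x, ⟪u, x⟫ = 0 → ⟪(S.t7G u e)⁻¹ • lift u u e, x⟫ = (S.t7G u e)⁻¹ * ⟪x, e⟫ := by
    intro x hx
    rw [inner_smul_left, real_inner_comm, t7_inner_lift hx]
    simp
  refine ⟨(S.t7G u e)⁻¹ • lift u u e, hw, ?_, ?_, ?_, ?_, ?_, ?_⟩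
  · rw [hin δ hδu]
    intro h
    apply he1
    rw [← h]
    field_simp
  · rw [hin δ hδu]
    intro h
    apply he2
    rw [← h]
    field_simp
  · rw [hin c1 hc1u]
    exact mul_ne_zero (inv_ne_zero hG.ne') he3
  · rw [hin c2 hc2u]
    exact mul_ne_zero (inv_ne_zero hG.ne') he4
  · rw [real_inner_comm, hin nb hnb, abs_mul, abs_of_pos (inv_pos.2 hG), inv_mul_lt_iff₀ hG,
      mul_one]
    exact he5
  · intro n n' hn hn' hnw hnw' h1 h1'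
    have key : ∀ m : E, ⟪u, m⟫ = 0 → ⟪m, (S.t7G u e)⁻¹ • lift u u e⟫ = 1 →
        (∀ x ∈ S.Sp u, ⟪m, x⟫ ≤ 1) → fderiv ℝ (S.t7G u) e = innerSL ℝ m := by
      intro m hm hmw hm1
      have e1 : ⟪m, e⟫ = S.t7G u e := by
        rw [real_inner_comm, hin m hm] at hmw
        field_simp at hmw
        exact hmw
      have e2 : IsLocalMin (fun x => S.t7G u x - innerSL ℝ m x) e := by
        apply Eventually.of_forall
        intro x
        simp only [innerSL_apply_apply]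
        rw [e1, sub_self]
        have := S.t7_normal_le hu hm hm1 x
        linarith
      have e3 : HasFDerivAt (fun x => S.t7G u x - innerSL ℝ m x)
          (fderiv ℝ (S.t7G u) e - innerSL ℝ m) e :=
        hdiff.hasFDerivAt.sub (innerSL ℝ m).hasFDerivAt
      exact sub_eq_zero.1 (e2.hasFDerivAt_eq_zero e3)
    have h2 := (key n hn hnw h1).symm.trans (key n' hn' hnw' h1')
    have h3 := congrArg (fun f => f (n - n')) h2
    simp only [innerSL_apply_apply] at h3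
    rw [← sub_eq_zero, ← inner_sub_left, inner_self_eq_zero, sub_eq_zero] at h3
    exact h3

/-! ### Limit data -/

/-- limits of data along sequences converging to `u` in the direction `δ` -/
def t7LD (u δ : E) (A : E →L[ℝ] E) (κ : E) : Prop :=
  ∃ (ε : ℕ → ℝ) (δj κj : ℕ → E) (Aj : ℕ → E →L[ℝ] E), (∀ j, 0 < ε j) ∧
    Tendsto ε atTop (𝓝 0) ∧ (∀ j, ⟪u, δj j⟫ = 0) ∧ Tendsto δj atTop (𝓝 δ) ∧
    (∀ j, S.Dat univ (u + ε j • δj j) (Aj j) (κj j)) ∧ Tendsto Aj atTop (𝓝 A) ∧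
    Tendsto κj atTop (𝓝 κ)

theorem t7LD_dat {u δ κ : E} {A : E →L[ℝ] E} (hu : ‖u‖ = 1) (h : S.t7LD u δ A κ) :
    S.Dat univ u A κ := by
  obtain ⟨ε, δj, κj, Aj, hε, hε0, hδu, hδ, hD, hA, hκ⟩ := h
  have hu0 : u ≠ 0 := by
    rintro rfl
    simp at hu
  exact S.dat_closed isClosed_univ hu0 hD (t7_v_tendsto hε0 hδ (fun _ => rfl)) hA hκ

theorem t7LD_F {u δ κ : E} {A : E →L[ℝ] E} (hu : ‖u‖ = 1) (h : S.t7LD u δ A κ) :
    S.C u + κ ∈ S.F u ∧ (∀ κ', S.C u + κ' ∈ S.F u → ⟪κ', δ⟫ ≤ ⟪κ, δ⟫) := by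
  obtain ⟨ε, δj, κj, Aj, hε, hε0, hδu, hδ, hD, hA, hκ⟩ := h
  have hu0 : u ≠ 0 := by
    rintro rfl
    simp at hu
  have hv0 : ∀ j, u + ε j • δj j ≠ 0 := by
    intro j h0
    have := t7_norm_ge (ε := ε j) hu (hδu j)
    rw [h0, norm_zero] at this
    linarith
  have := S.blowup_h hu0 hε hε0 hδ (fun _ => rfl) hv0 (fun j => (hD j).1) hκ
  exact ⟨this.1, this.2.1⟩

theorem t7_rel_shift {P : Set ℝ} {v κ w n : E} {A : E →L[ℝ] E} {t t' s : ℝ} (hv : v ≠ 0)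
    (h : S.Dat P v A κ) (hr : Rel A κ w n t t') : Rel A κ w (n + s • v) (t + s) (t' - s) := by
  unfold Rel at hr ⊢
  rw [map_add, map_smul, S.dat_Av hv h, smul_add, hr]
  module

/-- the limit pairs -/
theorem t7_key {u δ κ w : E} {A : E →L[ℝ] E} (hu : ‖u‖ = 1) (h : S.t7LD u δ A κ)
    (hw : w ∈ S.bd u) : ∃ (n : E) (t t' : ℝ), ⟪u, n⟫ = 0 ∧ ⟪n, w⟫ = 1 ∧ S.Pair u w n t t' ∧
      Rel A κ w n t t' ∧ ∀ s s', S.Pair u w n s s' →
        0 ≤ (t - s) * (⟪w, δ⟫ - ⟪κ, δ⟫) ∧ 0 ≤ (t' - s') * (-⟪w, δ⟫ - ⟪κ, δ⟫) := by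
  obtain ⟨hF, hmax⟩ := S.t7LD_F hu h
  obtain ⟨ε, δj, κj, Aj, hε, hε0, hδu, hδ, hD, hA, hκ⟩ := h
  have hu0 : u ≠ 0 := by
    rintro rfl
    simp at hu
  set v : ℕ → E := fun j => u + ε j • δj j with hvdef
  have hv : ∀ j, v j = u + ε j • δj j := fun _ => rfl
  have hv1 : ∀ j, 1 ≤ ‖v j‖ := fun j => t7_norm_ge hu (hδu j)
  have hv0 : ∀ j, v j ≠ 0 := by
    intro j h0
    have := hv1 j
    rw [h0, norm_zero] at this
    linarith
  have hvt : Tendsto v atTop (𝓝 u) := t7_v_tendsto hε0 hδ hv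
  have hwu : ⟪u, w⟫ = 0 := hw.1.1
  have hw0 : w ≠ 0 := S.t7_bd_ne_zero hw
  -- the boundary points
  have hex : ∀ j, ∃ c : ℝ, 0 < c ∧ c • lift (v j) u w ∈ S.bd (v j) := by
    intro j
    have hvu : ⟪v j, u⟫ = 1 := by
      rw [hv j, inner_add_left, inner_smul_left, real_inner_self_eq_norm_sq, hu,
        real_inner_comm, hδu j]
      simp
    apply S.exists_bd (hv0 j)
    · intro h0
      have h1 : ⟪lift (v j) u w, w⟫ = ‖w‖ ^ 2 := by
        rw [lift, inner_sub_left, inner_smul_left, hwu, real_inner_self_eq_norm_sq]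
        simp
      rw [h0, inner_zero_left] at h1
      have : 0 < ‖w‖ := norm_pos_iff.2 hw0
      nlinarith
    · rw [lift, inner_sub_right, inner_smul_right, hvu]
      ring
  choose c hc0 hcb using hex
  set wj : ℕ → E := fun j => c j • lift (v j) u w with hwj
  obtain ⟨M, hM, hb⟩ := S.t7_c_lip hu hε hδu hδ hv hw (fun _ => rfl) hcb hc0
  have hwt : Tendsto wj atTop (𝓝 w) := by
    rw [tendsto_iff_norm_sub_tendsto_zero]
    apply squeeze_zero (fun j => norm_nonneg _) (fun j => (hb j).2.1)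
    simpa using hε0.const_mul M
  -- the pairs
  have hpairs : ∀ j, ∃ (n : E) (t t' : ℝ), ⟪v j, n⟫ = 0 ∧ ⟪n, wj j⟫ = 1 ∧
      S.Pair (v j) (wj j) n t t' ∧ Rel (Aj j) (κj j) (wj j) n t t' := by
    intro j
    obtain ⟨n, t, t', h1, h2, h3, -⟩ := (hD j).2.2 (wj j) (hcb j)
    set s := -(⟪v j, n⟫ / ‖v j‖ ^ 2) with hs
    have hvn : (‖v j‖ : ℝ) ^ 2 ≠ 0 := by
      have := hv1 j
      positivity
    refine ⟨n + s • v j, t + s, t' - s, ?_, ?_, S.pair_shift (hv0 j) h2,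
      S.t7_rel_shift (hv0 j) (hD j) h3⟩
    · rw [inner_add_right, inner_smul_right, real_inner_self_eq_norm_sq, hs, neg_mul,
        div_mul_cancel₀ _ hvn, add_neg_cancel]
    · rw [inner_add_left, inner_smul_left, (hcb j).1.1, h1]
      simp
  choose n t t' hn0 hnw hp hrel using hpairs
  -- bounds
  have hr := S.r_pos
  have hnb : ∀ j, ‖n j‖ ≤ 2 / S.r := by
    intro j
    by_cases h0 : n j = 0
    · rw [h0, norm_zero]
      positivity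
    · have hnp : 0 < ‖n j‖ := norm_pos_iff.2 h0
      have h1 : (S.r / 2 / ‖n j‖) • n j ∈ S.Sp (v j) := by
        apply S.Sp_ball (hv0 j)
        · rw [inner_smul_right, hn0 j, mul_zero]
        · rw [norm_smul, Real.norm_eq_abs, abs_of_pos (by positivity), div_mul_cancel₀ _ hnp.ne']
      have h2 := S.pair_max (hv0 j) (hp j) _ h1
      rw [hnw j, inner_smul_right, real_inner_self_eq_norm_sq] at h2
      rw [le_div_iff₀ hr]
      have h3 : S.r / 2 / ‖n j‖ * ‖n j‖ ^ 2 = S.r / 2 * ‖n j‖ := by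
        field_simp
      rw [h3] at h2
      linarith
  set T := (4 * S.R / S.r * (2 / S.r) + 2 / S.r) / 1 with hT
  have htb : ∀ j, |t j| ≤ T := fun j => S.t7_slope_bound one_pos (hv1 j) (hnb j) (hp j)
  have htb' : ∀ j, |t' j| ≤ T := fun j =>
    S.t7_slope_bound one_pos (hv1 j) (by rw [norm_neg]; exact hnb j)
      (S.t7_pair_flip (hv0 j) (hp j))
  -- a convergent subsequence
  have hcomp : IsCompact (closedBall (0 : E) (2 / S.r) ×ˢ (Icc (-T) T ×ˢ Icc (-T) T)) :=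
    (isCompact_closedBall _ _).prod (isCompact_Icc.prod isCompact_Icc)
  obtain ⟨⟨n0, t0, t0'⟩, -, φ, hφ, hlim⟩ := hcomp.tendsto_subseq
    (x := fun j => (n j, t j, t' j)) (fun j => by
      refine ⟨?_, ?_, ?_⟩
      · rw [mem_closedBall, dist_zero_right]
        exact hnb j
      · exact abs_le.1 (htb j)
      · exact abs_le.1 (htb' j))
  have hln : Tendsto (fun j => n (φ j)) atTop (𝓝 n0) :=
    (continuous_fst.tendsto _).comp hlim
  have hlt : Tendsto (fun j => t (φ j)) atTop (𝓝 t0) :=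
    ((continuous_fst.comp continuous_snd).tendsto _).comp hlim
  have hlt' : Tendsto (fun j => t' (φ j)) atTop (𝓝 t0') :=
    ((continuous_snd.comp continuous_snd).tendsto _).comp hlim
  have hφt := hφ.tendsto_atTop
  have hvφ : Tendsto (fun j => v (φ j)) atTop (𝓝 u) := hvt.comp hφt
  have hwφ : Tendsto (fun j => wj (φ j)) atTop (𝓝 w) := hwt.comp hφt
  have hpair0 : S.Pair u w n0 t0 t0' := S.pair_closed hu0 (fun j => hp (φ j)) hvφ hwφ hln hlt hlt'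
  refine ⟨n0, t0, t0', ?_, ?_, hpair0, ?_, ?_⟩
  · have h1 : Tendsto (fun j => ⟪v (φ j), n (φ j)⟫) atTop (𝓝 ⟪u, n0⟫) := hvφ.inner hln
    simp only [hn0] at h1
    exact (tendsto_nhds_unique h1 tendsto_const_nhds)
  · have h1 : Tendsto (fun j => ⟪n (φ j), wj (φ j)⟫) atTop (𝓝 ⟪n0, w⟫) := hln.inner hwφ
    simp only [hnw] at h1
    exact (tendsto_nhds_unique h1 tendsto_const_nhds)
  · have h1 : Tendsto (fun j => (2 : ℝ) • Aj (φ j) (n (φ j))) atTop (𝓝 ((2 : ℝ) • A n0)) := by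
      apply Tendsto.const_smul
      exact ((isBoundedBilinearMap_apply (𝕜 := ℝ) (E := E) (F := E)).continuous.tendsto
        (A, n0)).comp ((hA.comp hφt).prodMk_nhds hln)
    have h2 : Tendsto (fun j => -(t (φ j) + t' (φ j)) • wj (φ j) +
        (t (φ j) - t' (φ j)) • κj (φ j)) atTop (𝓝 (-(t0 + t0') • w + (t0 - t0') • κ)) :=
      ((hlt.add hlt').neg.smul hwφ).add ((hlt.sub hlt').smul (hκ.comp hφt))
    have h3 : ∀ j, (2 : ℝ) • Aj (φ j) (n (φ j)) = -(t (φ j) + t' (φ j)) • wj (φ j) +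
        (t (φ j) - t' (φ j)) • κj (φ j) := fun j => hrel (φ j)
    simp only [h3] at h1
    exact tendsto_nhds_unique h1 h2
  · intro s s' hs
    have hmono := S.blowup_w (v := fun j => v (φ j)) (δj := fun j => δj (φ j))
      (wj := fun j => wj (φ j)) (nj := fun j => n (φ j)) (ε := fun j => ε (φ j))
      (t := fun j => t (φ j)) (t' := fun j => t' (φ j)) (c := fun j => c (φ j)) hu
      (fun j => hε (φ j)) (hε0.comp hφt) (fun j => hδu (φ j)) (hδ.comp hφt)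
      (fun j => hv (φ j)) hF hmax hw (fun j => rfl) (fun j => hcb (φ j)) (fun j => hc0 (φ j))
      hln (fun j => hp (φ j)) hs
    constructor
    · have h1 : Tendsto (fun j => (t (φ j) - s) * (⟪w, δ⟫ - ⟪κ, δ⟫)) atTop
          (𝓝 ((t0 - s) * (⟪w, δ⟫ - ⟪κ, δ⟫))) := (hlt.sub_const s).mul_const _
      apply le_of_forall_pos_le_add
      intro η hη
      have := ge_of_tendsto h1 (hmono.2.1 η hη)
      linarith
    · have h1 : Tendsto (fun j => (t' (φ j) - s') * (-⟪w, δ⟫ - ⟪κ, δ⟫)) atTop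
          (𝓝 ((t0' - s') * (-⟪w, δ⟫ - ⟪κ, δ⟫))) := (hlt'.sub_const s').mul_const _
      apply le_of_forall_pos_le_add
      intro η hη
      have := ge_of_tendsto h1 (hmono.2.2 η hη)
      linarith

/-- strict sign for data of negative type -/
theorem t7_strict {u κ : E} {A : E →L[ℝ] E} (hu : ‖u‖ = 1) (h : S.Dat univ u A κ)
    (hρ : RhoNeg u A κ) : ∃ c nb : E, ‖c‖ = 1 ∧ ⟪u, c⟫ = 0 ∧ ⟪u, nb⟫ = 0 ∧ ‖nb‖ ≤ 2 / S.r ∧
      ∀ (w n : E) (t t' : ℝ), S.Pair u w n t t' → Rel A κ w n t t' → ⟪n, w⟫ = 1 → ⟪u, n⟫ = 0 →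
        ⟪w, c⟫ ≠ 0 → |⟪nb, w⟫| < 1 → 0 < t + t' := by
  have hu0 : u ≠ 0 := by
    rintro rfl
    simp at hu
  have hr := S.r_pos
  obtain ⟨hκ, c, hcu, hcκ, hρ⟩ := hρ
  have hc0 : c ≠ 0 := by
    rintro rfl
    simp at hρ
  have hcn : 0 < ‖c‖ := norm_pos_iff.2 hc0
  obtain ⟨k, nb, hk0, hk1, -, hnbu, -, -, hnb1, hfr⟩ := S.frame hu0 hκ h hcu hcκ hρ.ne
  refine ⟨‖c‖⁻¹ • c, nb, ?_, ?_, hnbu, ?_, ?_⟩
  · rw [norm_smul, norm_inv, norm_norm, inv_mul_cancel₀ hcn.ne']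
  · rw [inner_smul_right, hcu, mul_zero]
  · by_cases h0 : nb = 0
    · rw [h0, norm_zero]
      positivity
    · have hnp : 0 < ‖nb‖ := norm_pos_iff.2 h0
      have h1 : (S.r / 2 / ‖nb‖) • nb ∈ S.Sp u := by
        apply S.Sp_ball hu0
        · rw [inner_smul_right, hnbu, mul_zero]
        · rw [norm_smul, Real.norm_eq_abs, abs_of_pos (by positivity), div_mul_cancel₀ _ hnp.ne']
      have h2 := (abs_le.1 (hnb1 _ h1)).2
      rw [inner_smul_right, real_inner_self_eq_norm_sq] at h2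
      rw [le_div_iff₀ hr]
      have h3 : S.r / 2 / ‖nb‖ * ‖nb‖ ^ 2 = S.r / 2 * ‖nb‖ := by
        field_simp
      rw [h3] at h2
      linarith
  · intro w n t t' hp hrel hnw hun hwc hnbw
    obtain ⟨h1, h2⟩ := hfr w n t t' hp hrel hnw hun
    have hwc' : ⟪w, c⟫ ≠ 0 := by
      intro h0
      apply hwc
      rw [inner_smul_right, h0, mul_zero]
    have h3 : ⟪nb, w⟫ * (⟪n, κ⟫ / k) < 1 := by
      have h4 : |⟪nb, w⟫ * (⟪n, κ⟫ / k)| < 1 := by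
        rw [abs_mul]
        calc |⟪nb, w⟫| * |⟪n, κ⟫ / k| ≤ |⟪nb, w⟫| * 1 :=
              mul_le_mul_of_nonneg_left h1 (abs_nonneg _)
          _ < 1 := by rw [mul_one]; exact hnbw
      exact (le_abs_self _).trans_lt h4
    have h5 : 0 < ⟪w, c⟫ ^ 2 := by positivity
    have h6 : 2 * ⟪A c, c⟫ * (1 - ⟪nb, w⟫ * (⟪n, κ⟫ / k)) < 0 :=
      mul_neg_of_neg_of_pos (by linarith) (by linarith)
    rw [← h2] at h6
    by_contra h7
    push Not at h7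
    nlinarith

/-- weak sign for the other data -/
theorem t7_weak {u κ : E} {A : E →L[ℝ] E} (hu : ‖u‖ = 1) (hE : ¬ S.Ell u)
    (hZ : ¬ ∃ q, S.Cyl u q) (h : S.Dat univ u A κ)
    (hρ : ¬ RhoNeg u A κ) : ∃ c : E, ‖c‖ = 1 ∧ ⟪u, c⟫ = 0 ∧
      ∀ (w n : E) (t t' : ℝ), S.Pair u w n t t' → Rel A κ w n t t' → ⟪n, w⟫ = 1 → ⟪u, n⟫ = 0 →
        ⟪w, c⟫ ≠ 0 → t + t' ≤ 0 := by
  have hu0 : u ≠ 0 := by
    rintro rfl
    simp at hu
  obtain ⟨c, hc1, hcu, hcκ⟩ := t7_exists_perp u κ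
  have hc0 : c ≠ 0 := by
    rintro rfl
    simp at hc1
  refine ⟨c, hc1, hcu, ?_⟩
  intro w n t t' hp hrel hnw hun hwc
  by_cases hκ : κ = 0
  · subst hκ
    have hA := S.ell_lemma hu0 hE h
    subst hA
    unfold Rel at hrel
    have h1 : (t + t') • w = 0 := by
      have h2 : (2 : ℝ) • (0 : E →L[ℝ] E) n = 0 := by simp
      rw [h2, smul_zero, add_zero, neg_smul] at hrel
      rw [← neg_eq_zero]
      exact hrel.symm
    have hw0 : w ≠ 0 := by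
      rintro rfl
      simp at hnw
    exact ((smul_eq_zero.1 h1).resolve_right hw0).le
  · have hρ0 : 0 < ⟪A c, c⟫ := by
      rcases lt_trichotomy ⟪A c, c⟫ 0 with h1 | h1 | h1
      · exact absurd ⟨hκ, c, hcu, hcκ, h1⟩ hρ
      · exact absurd (S.cyl_of_zero hu0 hκ h hc0 hcu hcκ (S.zero_of_rho hu0 hκ h hc0 hcu hcκ h1)) hZ
      · exact h1
    obtain ⟨k, nb, hk0, hk1, -, hnbu, -, -, hnb1, hfr⟩ := S.frame hu0 hκ h hcu hcκ hρ0.ne'
    obtain ⟨h1, h2⟩ := hfr w n t t' hp hrel hnw hun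
    have h3 : ⟪nb, w⟫ * (⟪n, κ⟫ / k) ≤ 1 := by
      have h4 : |⟪nb, w⟫ * (⟪n, κ⟫ / k)| ≤ 1 := by
        rw [abs_mul]
        exact mul_le_one₀ (hnb1 w hp.1) (abs_nonneg _) h1
      exact (le_abs_self _).trans h4
    have h5 : 0 < ⟪w, c⟫ ^ 2 := by positivity
    have h6 : 0 ≤ 2 * ⟪A c, c⟫ * (1 - ⟪nb, w⟫ * (⟪n, κ⟫ / k)) :=
      mul_nonneg (by linarith) (by linarith)
    rw [← h2] at h6
    by_contra h7
    push Not at h7
    nlinarith

/-- local constancy of the limit pairs at generic points -/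
theorem t7_const {u δ κ c1 c2 nb : E} {A : E →L[ℝ] E} {δj κj : ℕ → E} {Aj : ℕ → E →L[ℝ] E}
    (hu : ‖u‖ = 1) (hδu : ⟪u, δ⟫ = 0) (hδ0 : δ ≠ 0) (h : S.t7LD u δ A κ)
    (hj : ∀ j, S.t7LD u (δj j) (Aj j) (κj j)) (hδ : Tendsto δj atTop (𝓝 δ))
    (hc1 : c1 ≠ 0) (hc1u : ⟪u, c1⟫ = 0) (hc2 : c2 ≠ 0) (hc2u : ⟪u, c2⟫ = 0)
    (hnb : ⟪u, nb⟫ = 0) :
    ∃ (w n : E) (t t' : ℝ), ⟪n, w⟫ = 1 ∧ ⟪u, n⟫ = 0 ∧ S.Pair u w n t t' ∧ Rel A κ w n t t' ∧
      ⟪w, c1⟫ ≠ 0 ∧ ⟪w, c2⟫ ≠ 0 ∧ |⟪nb, w⟫| < 1 ∧ ∀ᶠ j in atTop, Rel (Aj j) (κj j) w n t t' := by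
  have hu0 : u ≠ 0 := by
    rintro rfl
    simp at hu
  obtain ⟨hF, hmax⟩ := S.t7LD_F hu h
  obtain ⟨w, hw, hw1, hw2, hw3, hw4, hw5, hw6⟩ :=
    S.t7_generic hu hδu hδ0 hF hc1 hc1u hc2 hc2u hnb
  obtain ⟨n, t, t', hun, hnw, hp, hrel, hmono⟩ := S.t7_key hu h hw
  refine ⟨w, n, t, t', hnw, hun, hp, hrel, hw3, hw4, hw5, ?_⟩
  -- convergence of the support function of `F'`
  have hκlim : Tendsto (fun j => ⟪κj j, δj j⟫) atTop (𝓝 ⟪κ, δ⟫) := by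
    have hb : ∀ j, ‖κj j‖ ≤ 2 * S.R := by
      intro j
      have h1 := S.K1_bdd _ (S.K_sub (S.t7LD_F hu (hj j)).1.1)
      have h2 := S.K1_bdd _ (S.C_mem hu0)
      have h3 : κj j = (S.C u + κj j) - S.C u := by abel
      rw [h3]
      have := norm_sub_le (S.C u + κj j) (S.C u)
      linarith
    have hlow : Tendsto (fun j => ⟪κ, δj j⟫) atTop (𝓝 ⟪κ, δ⟫) := tendsto_const_nhds.inner hδ
    have hup : Tendsto (fun j => ⟪κ, δ⟫ + 2 * S.R * ‖δj j - δ‖) atTop (𝓝 ⟪κ, δ⟫) := by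
      have h1 : Tendsto (fun j => ‖δj j - δ‖) atTop (𝓝 0) := by
        rw [← tendsto_iff_norm_sub_tendsto_zero]
        exact hδ
      simpa using (h1.const_mul (2 * S.R)).const_add ⟪κ, δ⟫
    apply tendsto_of_tendsto_of_tendsto_of_le_of_le hlow hup
    · intro j
      exact (S.t7LD_F hu (hj j)).2 κ hF
    · intro j
      have h1 := hmax (κj j) (S.t7LD_F hu (hj j)).1
      have h2 : ⟪κj j, δj j⟫ = ⟪κj j, δ⟫ + ⟪κj j, δj j - δ⟫ := by
        rw [inner_sub_right]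
        ring
      have h3 : ⟪κj j, δj j - δ⟫ ≤ ‖κj j‖ * ‖δj j - δ‖ := real_inner_le_norm _ _
      have h4 : ‖κj j‖ * ‖δj j - δ‖ ≤ 2 * S.R * ‖δj j - δ‖ :=
        mul_le_mul_of_nonneg_right (hb j) (norm_nonneg _)
      simp only
      linarith
  have hd1 : Tendsto (fun j => (⟪w, δj j⟫ - ⟪κj j, δj j⟫) * (⟪w, δ⟫ - ⟪κ, δ⟫)) atTop
      (𝓝 ((⟪w, δ⟫ - ⟪κ, δ⟫) * (⟪w, δ⟫ - ⟪κ, δ⟫))) :=
    ((tendsto_const_nhds.inner hδ).sub hκlim).mul_const _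
  have hd2 : Tendsto (fun j => (-⟪w, δj j⟫ - ⟪κj j, δj j⟫) * (-⟪w, δ⟫ - ⟪κ, δ⟫)) atTop
      (𝓝 ((-⟪w, δ⟫ - ⟪κ, δ⟫) * (-⟪w, δ⟫ - ⟪κ, δ⟫))) :=
    ((tendsto_const_nhds.inner hδ).neg.sub hκlim).mul_const _
  have hs1 : 0 < (⟪w, δ⟫ - ⟪κ, δ⟫) * (⟪w, δ⟫ - ⟪κ, δ⟫) :=
    mul_self_pos.2 (sub_ne_zero.2 hw1)
  have hs2 : 0 < (-⟪w, δ⟫ - ⟪κ, δ⟫) * (-⟪w, δ⟫ - ⟪κ, δ⟫) :=
    mul_self_pos.2 (sub_ne_zero.2 hw2)
  filter_upwards [hd1.eventually (lt_mem_nhds hs1), hd2.eventually (lt_mem_nhds hs2)] with j e1 e2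
  obtain ⟨n', s, s', hun', hnw', hp', hrel', hmono'⟩ := S.t7_key hu (hj j) hw
  have hn1 : ∀ x ∈ S.Sp u, ⟪n, x⟫ ≤ 1 := fun x hx => by
    rw [← hnw]
    exact S.pair_max hu0 hp x hx
  have hn1' : ∀ x ∈ S.Sp u, ⟪n', x⟫ ≤ 1 := fun x hx => by
    rw [← hnw']
    exact S.pair_max hu0 hp' x hx
  obtain rfl := hw6 n n' hun hun' hnw hnw' hn1 hn1'
  obtain ⟨a1, a2⟩ := hmono s s' hp'
  obtain ⟨b1, b2⟩ := hmono' t t' hp
  have aux : ∀ x a b : ℝ, 0 < b * a → 0 ≤ x * a → 0 ≤ -x * b → x = 0 := by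
    intro x a b h1 h2 h3
    have h4 : 0 ≤ x * a * (b * a) := mul_nonneg h2 h1.le
    have h5 : 0 ≤ -x * b * (a * a) := mul_nonneg h3 (mul_self_nonneg a)
    have h6 : x * a * (b * a) = 0 := by nlinarith
    rcases mul_eq_zero.1 h6 with h7 | h7
    · rcases mul_eq_zero.1 h7 with h8 | h8
      · exact h8
      · rw [h8, mul_zero] at h1
        exact absurd h1 (lt_irrefl _)
    · rw [h7] at h1
      exact absurd h1 (lt_irrefl _)
  have h1 : t - s = 0 := aux _ _ _ e1 a1 (by rw [neg_sub]; exact b1)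
  have h2 : t' - s' = 0 := aux _ _ _ e2 a2 (by rw [neg_sub]; exact b2)
  rw [sub_eq_zero] at h1 h2
  rw [h1, h2]
  exact hrel'

theorem t7_LC1 {u δ κ : E} {A : E →L[ℝ] E} {δj κj : ℕ → E} {Aj : ℕ → E →L[ℝ] E}
    (hu : ‖u‖ = 1) (hE : ¬ S.Ell u) (hZ : ¬ ∃ q, S.Cyl u q) (hδu : ⟪u, δ⟫ = 0) (hδ0 : δ ≠ 0)
    (h : S.t7LD u δ A κ) (hρ : RhoNeg u A κ)
    (hj : ∀ j, S.t7LD u (δj j) (Aj j) (κj j)) (hρj : ∀ j, ¬ RhoNeg u (Aj j) (κj j))
    (hδ : Tendsto δj atTop (𝓝 δ)) : False := by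
  obtain ⟨c, nb, hc1, hcu, hnbu, -, hstr⟩ := S.t7_strict hu (S.t7LD_dat hu h) hρ
  choose cj hcj1 hcju hweak using fun j => S.t7_weak hu hE hZ (S.t7LD_dat hu (hj j)) (hρj j)
  obtain ⟨c', hc', φ, hφ, hlim⟩ := (isCompact_sphere (0 : E) 1).tendsto_subseq
    (x := cj) (fun j => by rw [mem_sphere, dist_zero_right]; exact hcj1 j)
  rw [mem_sphere, dist_zero_right] at hc'
  have hcu' : ⟪u, c'⟫ = 0 := by
    have h1 : Tendsto (fun j => ⟪u, cj (φ j)⟫) atTop (𝓝 ⟪u, c'⟫) := tendsto_const_nhds.inner hlim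
    simp only [hcju] at h1
    exact (tendsto_nhds_unique h1 tendsto_const_nhds)
  have hc0 : c ≠ 0 := by
    rintro rfl
    simp at hc1
  have hc0' : c' ≠ 0 := by
    rintro rfl
    simp at hc'
  obtain ⟨w, n, t, t', hnw, hun, hp, hrel, hw1, hw2, hw3, hev⟩ := S.t7_const hu hδu hδ0 h
    (fun j => hj (φ j)) (hδ.comp hφ.tendsto_atTop) hc0 hcu hc0' hcu' hnbu
  have h1 := hstr w n t t' hp hrel hnw hun hw1 hw3
  have h2 : Tendsto (fun j => ⟪w, cj (φ j)⟫) atTop (𝓝 ⟪w, c'⟫) := tendsto_const_nhds.inner hlim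
  obtain ⟨j, hj1, hj2⟩ := (hev.and (h2.eventually_ne hw2)).exists
  have h3 := hweak (φ j) w n t t' hp hj1 hnw hun hj2
  linarith

theorem t7_LC2 {u δ κ : E} {A : E →L[ℝ] E} {δj κj : ℕ → E} {Aj : ℕ → E →L[ℝ] E}
    (hu : ‖u‖ = 1) (hE : ¬ S.Ell u) (hZ : ¬ ∃ q, S.Cyl u q) (hδu : ⟪u, δ⟫ = 0) (hδ0 : δ ≠ 0)
    (h : S.t7LD u δ A κ) (hρ : ¬ RhoNeg u A κ)
    (hj : ∀ j, S.t7LD u (δj j) (Aj j) (κj j)) (hρj : ∀ j, RhoNeg u (Aj j) (κj j))
    (hδ : Tendsto δj atTop (𝓝 δ)) : False := by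
  obtain ⟨c, hc1, hcu, hweak⟩ := S.t7_weak hu hE hZ (S.t7LD_dat hu h) hρ
  choose cj nbj hcj1 hcju hnbj hnbr hstr using
    fun j => S.t7_strict hu (S.t7LD_dat hu (hj j)) (hρj j)
  obtain ⟨⟨c', nb'⟩, hc', φ, hφ, hlim⟩ :=
    ((isCompact_sphere (0 : E) 1).prod (isCompact_closedBall (0 : E) (2 / S.r))).tendsto_subseq
    (x := fun j => (cj j, nbj j)) (fun j => by
      refine ⟨?_, ?_⟩
      · rw [mem_sphere, dist_zero_right]; exact hcj1 j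
      · rw [mem_closedBall, dist_zero_right]; exact hnbr j)
  have hc'1 := hc'.1
  simp only [mem_sphere, dist_zero_right] at hc'1
  have hlc : Tendsto (fun j => cj (φ j)) atTop (𝓝 c') := (continuous_fst.tendsto _).comp hlim
  have hln : Tendsto (fun j => nbj (φ j)) atTop (𝓝 nb') := (continuous_snd.tendsto _).comp hlim
  have hcu' : ⟪u, c'⟫ = 0 := by
    have h1 : Tendsto (fun j => ⟪u, cj (φ j)⟫) atTop (𝓝 ⟪u, c'⟫) := tendsto_const_nhds.inner hlc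
    simp only [hcju] at h1
    exact (tendsto_nhds_unique h1 tendsto_const_nhds)
  have hnu' : ⟪u, nb'⟫ = 0 := by
    have h1 : Tendsto (fun j => ⟪u, nbj (φ j)⟫) atTop (𝓝 ⟪u, nb'⟫) := tendsto_const_nhds.inner hln
    simp only [hnbj] at h1
    exact (tendsto_nhds_unique h1 tendsto_const_nhds)
  have hc0 : c ≠ 0 := by
    rintro rfl
    simp at hc1
  have hc0' : c' ≠ 0 := by
    rintro rfl
    simp at hc'1
  obtain ⟨w, n, t, t', hnw, hun, hp, hrel, hw1, hw2, hw3, hev⟩ := S.t7_const hu hδu hδ0 h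
    (fun j => hj (φ j)) (hδ.comp hφ.tendsto_atTop) hc0 hcu hc0' hcu' hnu'
  have h1 := hweak w n t t' hp hrel hnw hun hw1
  have h2 : Tendsto (fun j => ⟪w, cj (φ j)⟫) atTop (𝓝 ⟪w, c'⟫) := tendsto_const_nhds.inner hlc
  have h3 : Tendsto (fun j => |⟪nbj (φ j), w⟫|) atTop (𝓝 |⟪nb', w⟫|) :=
    (hln.inner tendsto_const_nhds).abs
  obtain ⟨j, hj1, hj2, hj3⟩ :=
    (hev.and ((h2.eventually_ne hw2).and (h3.eventually (gt_mem_nhds hw3)))).exists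
  have h4 := hstr (φ j) w n t t' hp hj1 hnw hun hj2 hj3
  linarith

/-- limit data exist in all directions -/
theorem t7LD_exists {u δ : E} (hu : ‖u‖ = 1) (hδu : ⟪u, δ⟫ = 0) : ∃ A κ, S.t7LD u δ A κ := by
  have hu0 : u ≠ 0 := by
    rintro rfl
    simp at hu
  set ε : ℕ → ℝ := fun j => 1 / ((j : ℝ) + 1) with hεdef
  have hε : ∀ j, 0 < ε j := fun j => by positivity
  have hε1 : ∀ j, ε j ≤ 1 := fun j => by
    rw [hεdef]
    simp only
    rw [div_le_one (by positivity)]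
    have : (0 : ℝ) ≤ j := Nat.cast_nonneg j
    linarith
  have hε0 : Tendsto ε atTop (𝓝 0) := tendsto_one_div_add_atTop_nhds_zero_nat
  have hv0 : ∀ j, u + ε j • δ ≠ 0 := by
    intro j h0
    have := t7_norm_ge (ε := ε j) hu hδu
    rw [h0, norm_zero] at this
    linarith
  choose v A κ hvd hvn hD using fun j => S.dat_dense (hv0 j) (ε := ε j ^ 2 / 2)
    (by have := hε j; positivity)
  set a : ℕ → ℝ := fun j => ⟪u, v j⟫ with ha
  have ha1 : ∀ j, |a j - 1| ≤ ε j ^ 2 / 2 := by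
    intro j
    have h1 : a j - 1 = ⟪u, v j - (u + ε j • δ)⟫ := by
      rw [inner_sub_right, inner_add_right, inner_smul_right, hδu, real_inner_self_eq_norm_sq, hu]
      ring
    rw [h1]
    have h2 := abs_real_inner_le_norm u (v j - (u + ε j • δ))
    rw [hu, one_mul] at h2
    exact h2.trans (hvd j).le
  have hsq : ∀ j, ε j ^ 2 ≤ 1 := fun j => by
    have h1 := hε j
    have h2 := hε1 j
    nlinarith
  have ha2 : ∀ j, 1 / 2 ≤ a j := by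
    intro j
    have h1 := (abs_le.1 (ha1 j)).1
    have h2 := hsq j
    linarith
  have ha0 : ∀ j, 0 < a j := fun j => by have := ha2 j; linarith
  set v' : ℕ → E := fun j => (a j)⁻¹ • v j with hv'
  have hD' : ∀ j, S.Dat univ (v' j) ((1 / (a j)⁻¹) • A j) (κ j) := fun j =>
    S.dat_smul (inv_pos.2 (ha0 j)) (hvn j) (fun _ _ => mem_univ _) (hD j)
  set δj : ℕ → E := fun j => (ε j)⁻¹ • (v' j - u) with hδj
  have hvδ : ∀ j, v' j = u + ε j • δj j := by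
    intro j
    rw [hδj]
    simp only
    rw [smul_inv_smul₀ (hε j).ne', add_sub_cancel]
  have hδju : ∀ j, ⟪u, δj j⟫ = 0 := by
    intro j
    rw [hδj, hv']
    simp only
    rw [inner_smul_right, inner_sub_right, inner_smul_right, real_inner_self_eq_norm_sq, hu]
    change (ε j)⁻¹ * ((a j)⁻¹ * a j - 1 ^ 2) = 0
    rw [inv_mul_cancel₀ (ha0 j).ne']
    ring
  have hδt : Tendsto δj atTop (𝓝 δ) := by
    rw [tendsto_iff_norm_sub_tendsto_zero]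
    apply squeeze_zero (g := fun j => (3 + ‖δ‖) * ε j) (fun j => norm_nonneg _)
    · intro j
      have h1 : δj j - δ = (ε j)⁻¹ • (((a j)⁻¹ - 1) • v j + (v j - (u + ε j • δ))) := by
        rw [hδj, hv']
        simp only
        have : δ = (ε j)⁻¹ • (ε j • δ) := by rw [inv_smul_smul₀ (hε j).ne']
        conv_lhs => rw [this]
        rw [← smul_sub]
        congr 1
        module
      have h2 : ‖((a j)⁻¹ - 1) • v j‖ ≤ ε j ^ 2 * (2 + ‖δ‖) := by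
        rw [norm_smul, Real.norm_eq_abs]
        have h3 : |(a j)⁻¹ - 1| ≤ ε j ^ 2 := by
          have h4 : (a j)⁻¹ - 1 = -(a j - 1) / a j := by
            have := (ha0 j).ne'
            field_simp
            ring
          rw [h4, abs_div, abs_neg, abs_of_pos (ha0 j), div_le_iff₀ (ha0 j)]
          have h5 := ha1 j
          have h6 := ha2 j
          nlinarith [sq_nonneg (ε j)]
        have h4 : ‖v j‖ ≤ 2 + ‖δ‖ := by
          have h5 : v j = u + ε j • δ + (v j - (u + ε j • δ)) := by abel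
          rw [h5]
          have h6 := norm_add_le (u + ε j • δ) (v j - (u + ε j • δ))
          have h7 := norm_add_le u (ε j • δ)
          have h8 : ‖ε j • δ‖ ≤ ‖δ‖ := by
            rw [norm_smul, Real.norm_eq_abs, abs_of_pos (hε j)]
            have := mul_le_mul_of_nonneg_right (hε1 j) (norm_nonneg δ)
            linarith
          have h9 := hvd j
          have h10 := hsq j
          rw [hu] at h7
          linarith
        exact mul_le_mul h3 h4 (norm_nonneg _) (sq_nonneg _)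
      rw [h1, norm_smul, norm_inv, Real.norm_eq_abs, abs_of_pos (hε j), inv_mul_le_iff₀ (hε j)]
      have h3 := norm_add_le (((a j)⁻¹ - 1) • v j) (v j - (u + ε j • δ))
      have h4 := hvd j
      have h5 := sq_nonneg (ε j)
      nlinarith [norm_nonneg δ]
    · simpa using hε0.const_mul (3 + ‖δ‖)
  have hv't : Tendsto v' atTop (𝓝 u) := t7_v_tendsto hε0 hδt hvδ
  obtain ⟨φ, A0, κ0, hφ, hA0, hκ0, -⟩ := S.dat_compact isClosed_univ hu0 hD' hv't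
  refine ⟨A0, κ0, fun j => ε (φ j), fun j => δj (φ j), fun j => κ (φ j),
    fun j => (1 / (a (φ j))⁻¹) • A (φ j), fun j => hε _, hε0.comp hφ.tendsto_atTop,
    fun j => hδju _, hδt.comp hφ.tendsto_atTop, fun j => ?_, hA0, hκ0⟩
  rw [← hvδ]
  exact hD' (φ j)

theorem t7_line {a b c c' : E} (ha : a ≠ 0) (hb : b ≠ 0) (hab : ⟪a, b⟫ = 0) (hc : c ≠ 0)
    (hac : ⟪a, c⟫ = 0) (hbc : ⟪b, c⟫ = 0) (hac' : ⟪a, c'⟫ = 0) (hbc' : ⟪b, c'⟫ = 0) :
    ∃ l : ℝ, c' = l • c := by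
  refine ⟨⟪c, c'⟫ / ‖c‖ ^ 2, ?_⟩
  by_contra hne
  set d := c' - (⟪c, c'⟫ / ‖c‖ ^ 2) • c with hd
  have hd0 : d ≠ 0 := sub_ne_zero.2 hne
  have hcn : ‖c‖ ^ 2 ≠ 0 := by
    have : 0 < ‖c‖ := norm_pos_iff.2 hc
    positivity
  have h1 : ⟪a, d⟫ = 0 := by
    rw [hd, inner_sub_right, inner_smul_right, hac, hac']
    ring
  have h2 : ⟪b, d⟫ = 0 := by
    rw [hd, inner_sub_right, inner_smul_right, hbc, hbc']
    ring
  have h3 : ⟪c, d⟫ = 0 := by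
    rw [hd, inner_sub_right, inner_smul_right, real_inner_self_eq_norm_sq,
      div_mul_cancel₀ _ hcn, sub_self]
  have hli : LinearIndependent ℝ ![a, b, c, d] := by
    apply linearIndependent_of_ne_zero_of_inner_eq_zero
    · intro i
      fin_cases i <;> simp [ha, hb, hc, hd0]
    · intro i j hij
      have e1 := real_inner_comm a b
      have e2 := real_inner_comm a c
      have e3 := real_inner_comm a d
      have e4 := real_inner_comm b c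
      have e5 := real_inner_comm b d
      have e6 := real_inner_comm c d
      fin_cases i <;> fin_cases j <;> simp_all
  have := hli.fintype_card_le_finrank
  simp at this

/-- the limit of data of negative type, if `κ ≠ 0` -/
theorem t7_lim_neg {u κ : E} {A : E →L[ℝ] E} {v κj : ℕ → E} {Aj : ℕ → E →L[ℝ] E}
    (hu : ‖u‖ = 1) (hZ : ¬ ∃ q, S.Cyl u q) (hv : Tendsto v atTop (𝓝 u))
    (hA : Tendsto Aj atTop (𝓝 A)) (hκ : Tendsto κj atTop (𝓝 κ)) (hD : S.Dat univ u A κ)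
    (hκ0 : κ ≠ 0) (hρ : ∀ j, RhoNeg (v j) (Aj j) (κj j)) : RhoNeg u A κ := by
  have hu0 : u ≠ 0 := by
    rintro rfl
    simp at hu
  have hex : ∀ j, ∃ c : E, ‖c‖ = 1 ∧ ⟪v j, c⟫ = 0 ∧ ⟪κj j, c⟫ = 0 ∧ ⟪Aj j c, c⟫ ≤ 0 := by
    intro j
    obtain ⟨-, c, h1, h2, h3⟩ := hρ j
    have hc0 : c ≠ 0 := by
      rintro rfl
      simp at h3
    have hcn : 0 < ‖c‖ := norm_pos_iff.2 hc0
    refine ⟨‖c‖⁻¹ • c, ?_, ?_, ?_, ?_⟩
    · rw [norm_smul, norm_inv, norm_norm, inv_mul_cancel₀ hcn.ne']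
    · rw [inner_smul_right, h1, mul_zero]
    · rw [inner_smul_right, h2, mul_zero]
    · rw [map_smul, inner_smul_left, inner_smul_right]
      simp only [RCLike.conj_to_real]
      have h4 : 0 < ‖c‖⁻¹ := inv_pos.2 hcn
      have h5 : ‖c‖⁻¹ * (‖c‖⁻¹ * ⟪Aj j c, c⟫) = ‖c‖⁻¹ * ‖c‖⁻¹ * ⟪Aj j c, c⟫ := by ring
      rw [h5]
      exact mul_nonpos_of_nonneg_of_nonpos (by positivity) h3.le
  choose cj h1 h2 h3 h4 using hex
  obtain ⟨c, hc, φ, hφ, hlim⟩ := (isCompact_sphere (0 : E) 1).tendsto_subseq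
    (x := cj) (fun j => by rw [mem_sphere, dist_zero_right]; exact h1 j)
  rw [mem_sphere, dist_zero_right] at hc
  have hφt := hφ.tendsto_atTop
  have hcu : ⟪u, c⟫ = 0 := by
    have h5 : Tendsto (fun j => ⟪v (φ j), cj (φ j)⟫) atTop (𝓝 ⟪u, c⟫) :=
      (hv.comp hφt).inner hlim
    simp only [h2] at h5
    exact (tendsto_nhds_unique h5 tendsto_const_nhds)
  have hcκ : ⟪κ, c⟫ = 0 := by
    have h5 : Tendsto (fun j => ⟪κj (φ j), cj (φ j)⟫) atTop (𝓝 ⟪κ, c⟫) :=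
      (hκ.comp hφt).inner hlim
    simp only [h3] at h5
    exact (tendsto_nhds_unique h5 tendsto_const_nhds)
  have hc0 : c ≠ 0 := by
    rintro rfl
    simp at hc
  have hAc : Tendsto (fun j => Aj (φ j) (cj (φ j))) atTop (𝓝 (A c)) :=
    ((isBoundedBilinearMap_apply (𝕜 := ℝ) (E := E) (F := E)).continuous.tendsto
        (A, c)).comp ((hA.comp hφt).prodMk_nhds hlim)
  have hle : ⟪A c, c⟫ ≤ 0 := le_of_tendsto' (hAc.inner hlim) (fun j => h4 (φ j))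
  refine ⟨hκ0, c, hcu, hcκ, lt_of_le_of_ne hle ?_⟩
  intro h0
  exact hZ (S.cyl_of_zero hu0 hκ0 hD hc0 hcu hcκ (S.zero_of_rho hu0 hκ0 hD hc0 hcu hcκ h0))

/-- the limit of data not of negative type -/
theorem t7_lim_nonneg {u κ : E} {A : E →L[ℝ] E} {v κj : ℕ → E} {Aj : ℕ → E →L[ℝ] E}
    (hu : ‖u‖ = 1) (hv : Tendsto v atTop (𝓝 u))
    (hA : Tendsto Aj atTop (𝓝 A)) (hκ : Tendsto κj atTop (𝓝 κ)) (hD : S.Dat univ u A κ)
    (hρ : ∀ j, ¬ RhoNeg (v j) (Aj j) (κj j)) : ¬ RhoNeg u A κ := by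
  have hu0 : u ≠ 0 := by
    rintro rfl
    simp at hu
  rintro ⟨hκ0, c, hcu, hcκ, hneg⟩
  have hc0 : c ≠ 0 := by
    rintro rfl
    simp at hneg
  choose cj h1 h2 h3 using fun j => t7_exists_perp (v j) (κj j)
  obtain ⟨c', hc', φ, hφ, hlim⟩ := (isCompact_sphere (0 : E) 1).tendsto_subseq
    (x := cj) (fun j => by rw [mem_sphere, dist_zero_right]; exact h1 j)
  rw [mem_sphere, dist_zero_right] at hc'
  have hφt := hφ.tendsto_atTop
  have hcu' : ⟪u, c'⟫ = 0 := by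
    have h5 : Tendsto (fun j => ⟪v (φ j), cj (φ j)⟫) atTop (𝓝 ⟪u, c'⟫) :=
      (hv.comp hφt).inner hlim
    simp only [h2] at h5
    exact (tendsto_nhds_unique h5 tendsto_const_nhds)
  have hcκ' : ⟪κ, c'⟫ = 0 := by
    have h5 : Tendsto (fun j => ⟪κj (φ j), cj (φ j)⟫) atTop (𝓝 ⟪κ, c'⟫) :=
      (hκ.comp hφt).inner hlim
    simp only [h3] at h5
    exact (tendsto_nhds_unique h5 tendsto_const_nhds)
  obtain ⟨l, rfl⟩ := t7_line hu0 hκ0 (S.F_orth hu0 hD.1) hc0 hcu hcκ hcu' hcκ'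
  have hl : l ≠ 0 := by
    rintro rfl
    simp at hc'
  have hAc : Tendsto (fun j => Aj (φ j) (cj (φ j))) atTop (𝓝 (A (l • c))) :=
    ((isBoundedBilinearMap_apply (𝕜 := ℝ) (E := E) (F := E)).continuous.tendsto
        (A, l • c)).comp ((hA.comp hφt).prodMk_nhds hlim)
  have hlt : ⟪A (l • c), l • c⟫ < 0 := by
    rw [map_smul, inner_smul_left, inner_smul_right]
    simp only [RCLike.conj_to_real]
    have h5 : 0 < l * l := mul_self_pos.2 hl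
    nlinarith
  obtain ⟨j, hj1, hj2⟩ := (((hAc.inner hlim).eventually (gt_mem_nhds hlt)).and
    ((hκ.comp hφt).eventually_ne hκ0)).exists
  exact hρ (φ j) ⟨hj2, cj (φ j), h2 _, h3 _, hj1⟩

/-- convergent subsequences of data -/
theorem t7_sub {u : E} {δ1 κ1 : ℕ → E} {ε1 : ℕ → ℝ} {A1 : ℕ → E →L[ℝ] E} (hu : ‖u‖ = 1)
    (hε : ∀ j, 0 < ε1 j) (hε0 : Tendsto ε1 atTop (𝓝 0)) (hδu : ∀ j, ⟪u, δ1 j⟫ = 0)
    (hδ1 : ∀ j, ‖δ1 j‖ = 1) (hD : ∀ j, S.Dat univ (u + ε1 j • δ1 j) (A1 j) (κ1 j)) :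
    ∃ (φ : ℕ → ℕ) (δ κ : E) (A : E →L[ℝ] E), StrictMono φ ∧ ‖δ‖ = 1 ∧ ⟪u, δ⟫ = 0 ∧
      S.t7LD u δ A κ ∧ Tendsto (fun j => u + ε1 (φ j) • δ1 (φ j)) atTop (𝓝 u) ∧
      Tendsto (fun j => A1 (φ j)) atTop (𝓝 A) ∧ Tendsto (fun j => κ1 (φ j)) atTop (𝓝 κ) := by
  have hu0 : u ≠ 0 := by
    rintro rfl
    simp at hu
  obtain ⟨δ, hδ, φ, hφ, hlim⟩ := (isCompact_sphere (0 : E) 1).tendsto_subseq
    (x := δ1) (fun j => by rw [mem_sphere, dist_zero_right]; exact hδ1 j)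
  rw [mem_sphere, dist_zero_right] at hδ
  have hφt := hφ.tendsto_atTop
  have hδu' : ⟪u, δ⟫ = 0 := by
    have h5 : Tendsto (fun j => ⟪u, δ1 (φ j)⟫) atTop (𝓝 ⟪u, δ⟫) :=
      tendsto_const_nhds.inner hlim
    simp only [hδu] at h5
    exact (tendsto_nhds_unique h5 tendsto_const_nhds)
  have hvt : Tendsto (fun j => u + ε1 (φ j) • δ1 (φ j)) atTop (𝓝 u) :=
    t7_v_tendsto (hε0.comp hφt) hlim (fun _ => rfl)
  obtain ⟨ψ, A, κ, hψ, hA, hκ, -⟩ := S.dat_compact isClosed_univ hu0 (fun j => hD (φ j)) hvt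
  have hψt := hψ.tendsto_atTop
  refine ⟨φ ∘ ψ, δ, κ, A, hφ.comp hψ, hδ, hδu', ?_, hvt.comp hψt, hA, hκ⟩
  exact ⟨fun j => ε1 (φ (ψ j)), fun j => δ1 (φ (ψ j)), fun j => κ1 (φ (ψ j)),
    fun j => A1 (φ (ψ j)), fun j => hε _, hε0.comp (hφt.comp hψt), fun j => hδu _,
    hlim.comp hψt, fun j => hD _, hA, hκ⟩

/-- sign propagation -/
theorem sign_prop {u : E} (hu : ‖u‖ = 1) (hE : ¬ S.Ell u) (hZ : ¬ ∃ q, S.Cyl u q)
    {δ1 κ1 : ℕ → E} {ε1 : ℕ → ℝ} {A1 : ℕ → E →L[ℝ] E}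
    (h1 : ∀ j, 0 < ε1 j ∧ ⟪u, δ1 j⟫ = 0 ∧ ‖δ1 j‖ = 1 ∧
      S.Dat univ (u + ε1 j • δ1 j) (A1 j) (κ1 j) ∧ ¬ RhoNeg (u + ε1 j • δ1 j) (A1 j) (κ1 j))
    (h10 : Tendsto ε1 atTop (𝓝 0))
    {δ2 κ2 : ℕ → E} {ε2 : ℕ → ℝ} {A2 : ℕ → E →L[ℝ] E} {κ : E}
    (h2 : ∀ j, 0 < ε2 j ∧ ⟪u, δ2 j⟫ = 0 ∧ ‖δ2 j‖ = 1 ∧
      S.Dat univ (u + ε2 j • δ2 j) (A2 j) (κ2 j) ∧ RhoNeg (u + ε2 j • δ2 j) (A2 j) (κ2 j))
    (h20 : Tendsto ε2 atTop (𝓝 0)) (hκ : Tendsto κ2 atTop (𝓝 κ)) (hκ0 : κ ≠ 0) : False := by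
  have hu0 : u ≠ 0 := by
    rintro rfl
    simp at hu
  set Z : Set E := {δ | ‖δ‖ = 1 ∧ ⟪u, δ⟫ = 0} with hZdef
  have hZ0 : ∀ δ ∈ Z, δ ≠ 0 := by
    rintro δ hδ rfl
    simp [hZdef] at hδ
  have hZcl : IsClosed Z :=
    (isClosed_eq (by fun_prop) continuous_const).inter (isClosed_eq (by fun_prop) continuous_const)
  set Pn : Set E := {δ | δ ∈ Z ∧ ∃ A κ, S.t7LD u δ A κ ∧ RhoNeg u A κ} with hPn
  set Nn' : Set E := {δ | δ ∈ Z ∧ ∃ A κ, S.t7LD u δ A κ ∧ ¬ RhoNeg u A κ} with hNn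
  have hPcl : IsClosed Pn := by
    apply IsSeqClosed.isClosed
    intro x δ hx hxδ
    have hδZ : δ ∈ Z := hZcl.mem_of_tendsto hxδ (Eventually.of_forall fun j => (hx j).1)
    obtain ⟨A, κ, hLD⟩ := S.t7LD_exists hu hδZ.2
    by_cases hρ : RhoNeg u A κ
    · exact ⟨hδZ, A, κ, hLD, hρ⟩
    · choose Aj κj hLDj hρj using fun j => (hx j).2
      exact (S.t7_LC2 hu hE hZ hδZ.2 (hZ0 δ hδZ) hLD hρ hLDj hρj hxδ).elim
  have hNcl : IsClosed Nn' := by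
    apply IsSeqClosed.isClosed
    intro x δ hx hxδ
    have hδZ : δ ∈ Z := hZcl.mem_of_tendsto hxδ (Eventually.of_forall fun j => (hx j).1)
    obtain ⟨A, κ, hLD⟩ := S.t7LD_exists hu hδZ.2
    by_cases hρ : RhoNeg u A κ
    · choose Aj κj hLDj hρj using fun j => (hx j).2
      exact (S.t7_LC1 hu hE hZ hδZ.2 (hZ0 δ hδZ) hLD hρ hLDj hρj hxδ).elim
    · exact ⟨hδZ, A, κ, hLD, hρ⟩
  have hcov : Z ⊆ Pn ∪ Nn' := by
    intro δ hδ
    obtain ⟨A, κ, hLD⟩ := S.t7LD_exists hu hδ.2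
    by_cases hρ : RhoNeg u A κ
    · exact Or.inl ⟨hδ, A, κ, hLD, hρ⟩
    · exact Or.inr ⟨hδ, A, κ, hLD, hρ⟩
  have hconn : IsPreconnected Z := by
    have hfin : Module.finrank ℝ (ℝ ∙ u)ᗮ = 2 := by
      have : Fact (Module.finrank ℝ E = 2 + 1) := ⟨by simp⟩
      exact Submodule.finrank_orthogonal_span_singleton hu0
    have hrank : 1 < Module.rank ℝ (ℝ ∙ u)ᗮ := by
      rw [← Module.finrank_eq_rank, hfin]
      norm_num
    have h3 := isPreconnected_sphere hrank (0 : (ℝ ∙ u)ᗮ) 1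
    have h4 := h3.image (fun x : (ℝ ∙ u)ᗮ => (x : E)) continuous_subtype_val.continuousOn
    convert h4 using 1
    ext δ
    simp only [hZdef, mem_ofPred_eq, mem_image, mem_sphere, dist_zero_right, Subtype.exists,
      Submodule.mem_orthogonal_singleton_iff_inner_right, Submodule.coe_norm]
    constructor
    · rintro ⟨ha, hb⟩
      exact ⟨δ, hb, ha, rfl⟩
    · rintro ⟨x, hb, ha, rfl⟩
      exact ⟨ha, hb⟩
  obtain ⟨φ1, d1, k1, B1, hφ1, hd1, hd1u, hLD1, hv1, hB1, hk1⟩ := S.t7_sub hu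
    (fun j => (h1 j).1) h10 (fun j => (h1 j).2.1) (fun j => (h1 j).2.2.1)
    (fun j => (h1 j).2.2.2.1)
  obtain ⟨φ2, d2, k2, B2, hφ2, hd2, hd2u, hLD2, hv2, hB2, hk2⟩ := S.t7_sub hu
    (fun j => (h2 j).1) h20 (fun j => (h2 j).2.1) (fun j => (h2 j).2.2.1)
    (fun j => (h2 j).2.2.2.1)
  have hk2κ : k2 = κ := tendsto_nhds_unique hk2 (hκ.comp hφ2.tendsto_atTop)
  have hρ2 : RhoNeg u B2 k2 := S.t7_lim_neg hu hZ hv2 hB2 hk2 (S.t7LD_dat hu hLD2)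
    (hk2κ ▸ hκ0) (fun j => (h2 (φ2 j)).2.2.2.2)
  have hρ1 : ¬ RhoNeg u B1 k1 := S.t7_lim_nonneg hu hv1 hB1 hk1 (S.t7LD_dat hu hLD1)
    (fun j => (h1 (φ1 j)).2.2.2.2)
  obtain ⟨δ, hδZ, ⟨-, A, κ', hLD, hρ⟩, ⟨-, A', κ'', hLD', hρ'⟩⟩ :=
    isPreconnected_closed_iff.1 hconn Pn Nn' hPcl hNcl hcov
      ⟨d2, ⟨hd2, hd2u⟩, ⟨hd2, hd2u⟩, B2, k2, hLD2, hρ2⟩
      ⟨d1, ⟨hd1, hd1u⟩, ⟨hd1, hd1u⟩, B1, k1, hLD1, hρ1⟩
  exact S.t7_LC1 hu hE hZ hδZ.2 (hZ0 δ hδZ) hLD hρ (fun _ : ℕ => hLD') (fun _ => hρ')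
    tendsto_const_nhds

end Setting
end Pool.Agent.Helper18.BL
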