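import Mathlib
import Pool.Agent.Helper18.BL.T7

set_option autoImplicit false

open Set MeasureTheory Filter Topology Metric
open scoped RealInnerProductSpace

namespace Pool.Agent.Helper18.BL

/-- a nonzero vector orthogonal to two given vectors -/
theorem T8.exists_orth (a b : E) : ∃ e : E, e ≠ 0 ∧ ⟪a, e⟫ = 0 ∧ ⟪b, e⟫ = 0 := by
  let f : E →ₗ[ℝ] (ℝ × ℝ) := ((innerSL ℝ a).toLinearMap).prod ((innerSL ℝ b).toLinearMap)
  have hlt : Module.finrank ℝ (ℝ × ℝ) < Module.finrank ℝ E := by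
    simp
  have hker := LinearMap.ker_ne_bot_of_finrank_lt (f := f) hlt
  obtain ⟨e, he, he0⟩ := Submodule.exists_mem_ne_zero_of_ne_bot hker
  rw [LinearMap.mem_ker] at he
  have h1 := congrArg Prod.fst he
  have h2 := congrArg Prod.snd he
  exact ⟨e, he0, by simpa [f] using h1, by simpa [f] using h2⟩

namespace Setting
variable (S : Setting)

theorem T8.bd_neg {v w : E} (hv : v ≠ 0) (hw : w ∈ S.bd v) : -w ∈ S.bd v := by
  refine ⟨S.Sp_neg hv hw.1, fun c hc h => hw.2 c hc ?_⟩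
  have := S.Sp_neg hv h
  rwa [smul_neg, neg_neg] at this

/-- in the cylinder case, boundary points `w` of the section at `v` with `C v ± w` above `H_u`
have `|⟪nb, w⟫| = 1` if `ρ < 0` -/
theorem T8.tip_one {P : Set ℝ} {u v q κ c nb : E} {A : E →L[ℝ] E} {k : ℝ} (hv : v ≠ 0)
    (hD : S.Dat P v A κ) (hq : S.Cyl u q) (hvq : 0 < ⟪v, q⟫) (hρ : ⟪A c, c⟫ < 0)
    (hnb : ∀ w ∈ S.Sp v, |⟪nb, w⟫| ≤ 1)
    (hfr : ∀ (w n : E) (t t' : ℝ), S.Pair v w n t t' → Rel A κ w n t t' → ⟪n, w⟫ = 1 →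
      ⟪v, n⟫ = 0 → |⟪n, κ⟫ / k| ≤ 1 ∧
        -(t + t') * ⟪w, c⟫ ^ 2 = 2 * ⟪A c, c⟫ * (1 - ⟪nb, w⟫ * (⟪n, κ⟫ / k)))
    {w : E} (hw : w ∈ S.bd v) (h1 : S.h u < ⟪u, S.C v + w⟫) (h2 : S.h u < ⟪u, S.C v - w⟫) :
    |⟪nb, w⟫| = 1 := by
  obtain ⟨n, t, t', hnw, hp, hrel, -⟩ := hD.2.2 w hw
  have hAv : A v = κ := S.dat_Av hv hD
  have hvv : ⟪v, v⟫ ≠ 0 := by
    rw [real_inner_self_eq_norm_sq]; exact pow_ne_zero _ (norm_ne_zero_iff.2 hv)
  -- shift
  set s : ℝ := -⟪v, n⟫ / ⟪v, v⟫ with hs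
  have hp' := S.pair_shift (s := s) hv hp
  have hrel' : Rel A κ w (n + s • v) (t + s) (t' - s) := by
    unfold Rel at hrel ⊢
    rw [map_add, map_smul, hAv, smul_add, hrel]
    module
  have hvn : ⟪v, n + s • v⟫ = 0 := by
    rw [inner_add_right, inner_smul_right, hs]
    field_simp
    ring
  have hvw : ⟪v, w⟫ = 0 := hw.1.1
  have hnw' : ⟪n + s • v, w⟫ = 1 := by
    rw [inner_add_left, inner_smul_left, hvw, hnw]; simp
  obtain ⟨hX, hrho⟩ := hfr w _ _ _ hp' hrel' hnw' hvn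
  -- the cylinder
  have hCw : S.C v + w ∈ S.K1 := hw.1.2
  have hCw' : S.C v - w ∈ S.K1 := by
    have := (S.Sp_neg hv hw.1).2
    rwa [← sub_eq_add_neg] at this
  have hc1 := hp'.2.1 _ (hq.2 _ hCw)
  have hc2 := hp'.2.2 _ (hq.2 _ hCw')
  rw [inner_sub_right, inner_smul_right] at hc1 hc2
  have hd1 : 0 ≤ ⟪n + s • v - (t + s) • v, q⟫ := by
    have hpos : 0 < ⟪u, S.C v + w⟫ - S.h u := by linarith
    by_contra hneg
    push Not at hneg
    nlinarith
  have hd2 : 0 ≤ ⟪-(n + s • v) - (t' - s) • v, q⟫ := by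
    have hpos : 0 < ⟪u, S.C v - w⟫ - S.h u := by linarith
    by_contra hneg
    push Not at hneg
    nlinarith
  have hsum : (t + s + (t' - s)) * ⟪v, q⟫ ≤ 0 := by
    have e : ⟪n + s • v - (t + s) • v, q⟫ + ⟪-(n + s • v) - (t' - s) • v, q⟫ =
        -((t + s + (t' - s)) * ⟪v, q⟫) := by
      rw [← inner_add_left]
      have : (n + s • v - (t + s) • v) + (-(n + s • v) - (t' - s) • v) =
          (-(t + s + (t' - s))) • v := by module
      rw [this, inner_smul_left, conj_trivial]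
      ring
    linarith
  have htt : t + s + (t' - s) ≤ 0 := by
    by_contra hneg
    push Not at hneg
    nlinarith [mul_pos hneg hvq]
  have hx := hnb w hw.1
  have hx' := abs_le.1 hx
  have hX' := abs_le.1 hX
  have hprod : ⟪nb, w⟫ * (⟪n + s • v, κ⟫ / k) ≤ 1 := by
    have := abs_mul ⟪nb, w⟫ (⟪n + s • v, κ⟫ / k)
    have h3 : |⟪nb, w⟫| * |⟪n + s • v, κ⟫ / k| ≤ 1 :=
      mul_le_one₀ hx (abs_nonneg _) hX
    exact (le_abs_self _).trans (this.trans_le h3)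
  have hlhs : 0 ≤ -(t + s + (t' - s)) * ⟪w, c⟫ ^ 2 :=
    mul_nonneg (by linarith) (sq_nonneg _)
  have heq : ⟪nb, w⟫ * (⟪n + s • v, κ⟫ / k) = 1 := by
    by_contra hne
    have hlt : 0 < 1 - ⟪nb, w⟫ * (⟪n + s • v, κ⟫ / k) := by
      have := lt_of_le_of_ne hprod hne
      linarith
    nlinarith [mul_neg_of_neg_of_pos hρ hlt]
  have habs : |⟪nb, w⟫| * |⟪n + s • v, κ⟫ / k| = 1 := by
    rw [← abs_mul, heq, abs_one]
  apply le_antisymm hx
  by_contra hlt
  push Not at hlt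
  nlinarith [abs_nonneg ⟪nb, w⟫, abs_nonneg (⟪n + s • v, κ⟫ / k)]

/-! ### T8: sector claim (proof text §4) -/
theorem sector {u κ δ : E} (hu : ‖u‖ = 1) (hE : ¬ S.Ell u) (hκF : S.C u + κ ∈ S.F u)
    (hκ : κ ≠ 0) (hmax : ∀ κ', S.C u + κ' ∈ S.F u → S.Q u κ' κ' ≤ S.Q u κ κ)
    (hδu : ⟪u, δ⟫ = 0) (hδ : ∀ x, ⟪u, x⟫ = 0 → ⟪δ, x⟫ = S.Q u κ x)
    (hW : (∃ q, S.Cyl u q) ∨ ∃ (δ1 κ1 : ℕ → E) (ε1 : ℕ → ℝ) (A1 : ℕ → E →L[ℝ] E),
      (∀ j, 0 < ε1 j ∧ ⟪u, δ1 j⟫ = 0 ∧ ‖δ1 j‖ = 1 ∧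
        S.Dat univ (u + ε1 j • δ1 j) (A1 j) (κ1 j) ∧ ¬ RhoNeg (u + ε1 j • δ1 j) (A1 j) (κ1 j)) ∧
      Tendsto ε1 atTop (𝓝 0)) :
    ∃ ρ0 : ℝ, 0 < ρ0 ∧ ∀ (ε : ℝ) (δ' : E), 0 < ε → ε < ρ0 → ⟪u, δ'⟫ = 0 → ‖δ' - δ‖ < ρ0 →
      ∀ (A : E →L[ℝ] E) (κ' : E), S.Dat univ (u + ε • δ') A κ' →
        ¬ RhoNeg (u + ε • δ') A κ' := by
  have hu0 : u ≠ 0 := by
    intro h; rw [h, norm_zero] at hu; exact zero_ne_one hu
  obtain ⟨Qsymm, Qadd, Qsmul, Qpos, Qle⟩ := S.Q_form hu0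
  have hκu : ⟪u, κ⟫ = 0 := S.F_orth hu0 hκF
  have hψ : 0 < S.Q u κ κ := Qpos κ hκu hκ
  have hδκ : ⟪δ, κ⟫ = S.Q u κ κ := hδ κ hκu
  have hδ0 : δ ≠ 0 := by
    rintro rfl
    rw [inner_zero_left] at hδκ
    linarith
  -- uniqueness of the maximiser
  have huniq : ∀ κ0, S.C u + κ0 ∈ S.F u → ⟪κ, δ⟫ ≤ ⟪κ0, δ⟫ → κ0 = κ := by
    intro κ0 h0 hle
    have h0u : ⟪u, κ0⟫ = 0 := S.F_orth hu0 h0
    by_contra hne
    have hd : κ0 - κ ≠ 0 := sub_ne_zero.2 hne
    have hdu : ⟪u, κ0 - κ⟫ = 0 := by rw [inner_sub_right, h0u, hκu, sub_zero]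
    have hpos := Qpos _ hdu hd
    have hnu : ⟪u, (-1 : ℝ) • κ⟫ = 0 := by rw [inner_smul_right, hκu, mul_zero]
    have e1 : κ0 - κ = κ0 + (-1 : ℝ) • κ := by module
    have e2 : S.Q u (κ0 - κ) (κ0 - κ) = S.Q u κ0 κ0 - 2 * S.Q u κ κ0 + S.Q u κ κ := by
      have a0 : ∀ x, ⟪u, x⟫ = 0 → S.Q u (κ0 - κ) x = S.Q u κ0 x + (-1) * S.Q u κ x := by
        intro x hx
        rw [e1, Qadd κ0 _ _ h0u hnu hx, Qsmul _ _ _ hκu hx]
      rw [a0 _ hdu, Qsymm _ _ h0u hdu, Qsymm _ _ hκu hdu, a0 _ h0u, a0 _ hκu,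
        Qsymm _ _ h0u hκu]
      ring
    have h3 : ⟪κ0, δ⟫ = S.Q u κ κ0 := by rw [real_inner_comm, hδ κ0 h0u]
    have h4 : ⟪κ, δ⟫ = S.Q u κ κ := by rw [real_inner_comm, hδκ]
    have h5 := hmax κ0 h0
    linarith
  by_contra hcon
  push Not at hcon
  have hseq : ∀ j : ℕ, ∃ (ε : ℝ) (δ' : E) (A : E →L[ℝ] E) (κ' : E), 0 < ε ∧
      ε < 1 / ((j : ℝ) + 1) ∧ ⟪u, δ'⟫ = 0 ∧ ‖δ' - δ‖ < 1 / ((j : ℝ) + 1) ∧ δ' ≠ 0 ∧
      S.Dat univ (u + ε • δ') A κ' ∧ RhoNeg (u + ε • δ') A κ' := by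
    intro j
    have hpos : 0 < min (1 / ((j : ℝ) + 1)) ‖δ‖ := by
      apply lt_min (by positivity) (norm_pos_iff.2 hδ0)
    obtain ⟨ε, δ', h1, h2, h3, h4, A, κ', h5, h6⟩ := hcon _ hpos
    refine ⟨ε, δ', A, κ', h1, h2.trans_le (min_le_left _ _), h3,
      h4.trans_le (min_le_left _ _), ?_, h5, h6⟩
    rintro rfl
    rw [zero_sub, norm_neg] at h4
    exact absurd (h4.trans_le (min_le_right _ _)) (lt_irrefl _)
  choose ε δj A κj hε hε1 hδju hδj1 hδj0 hD hρ using hseq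
  have htend1 : Tendsto (fun j : ℕ => 1 / ((j : ℝ) + 1)) atTop (𝓝 0) :=
    tendsto_one_div_add_atTop_nhds_zero_nat
  have hε0 : Tendsto ε atTop (𝓝 0) :=
    squeeze_zero (fun j => (hε j).le) (fun j => (hε1 j).le) htend1
  have hδt : Tendsto δj atTop (𝓝 δ) := by
    rw [tendsto_iff_norm_sub_tendsto_zero]
    exact squeeze_zero (fun j => norm_nonneg _) (fun j => (hδj1 j).le) htend1
  have hvt : Tendsto (fun j => u + ε j • δj j) atTop (𝓝 u) := by
    have := (hε0.smul hδt).const_add u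
    simpa using this
  obtain ⟨φ, A0, κ0, hφ, hA0, hκ0, hD0⟩ := S.dat_compact isClosed_univ hu0 hD hvt
  -- pass to the subsequence
  have hφt := hφ.tendsto_atTop
  set ε' : ℕ → ℝ := ε ∘ φ with hε'
  set δ' : ℕ → E := δj ∘ φ with hδ'
  set κ' : ℕ → E := κj ∘ φ with hκ'
  set A' : ℕ → E →L[ℝ] E := A ∘ φ with hA'
  have hε'0 : Tendsto ε' atTop (𝓝 0) := hε0.comp hφt
  have hδ't : Tendsto δ' atTop (𝓝 δ) := hδt.comp hφt
  have hε'p : ∀ j, 0 < ε' j := fun j => hε _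
  have hδ'u : ∀ j, ⟪u, δ' j⟫ = 0 := fun j => hδju _
  have hD' : ∀ j, S.Dat univ (u + ε' j • δ' j) (A' j) (κ' j) := fun j => hD _
  have hρ' : ∀ j, RhoNeg (u + ε' j • δ' j) (A' j) (κ' j) := fun j => hρ _
  have hv'0 : ∀ j, u + ε' j • δ' j ≠ 0 := by
    intro j h0
    have : ⟪u, u + ε' j • δ' j⟫ = 1 := by
      rw [inner_add_right, inner_smul_right, hδ'u, mul_zero, add_zero,
        real_inner_self_eq_norm_sq, hu, one_pow]
    rw [h0, inner_zero_right] at this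
    exact zero_ne_one this
  have hv't : Tendsto (fun j => u + ε' j • δ' j) atTop (𝓝 u) := hvt.comp hφt
  obtain ⟨hκ0F, hκ0max, hderiv⟩ := S.blowup_h hu0 hε'p hε'0 hδ't (fun j => rfl) hv'0
    (fun j => (hD' j).1) hκ0
  have hκ0κ : κ0 = κ := huniq κ0 hκ0F (hκ0max κ hκF)
  subst hκ0κ
  by_cases hZ : ∃ q, S.Cyl u q
  · -- cylinder case
    obtain ⟨q, hq⟩ := hZ
    choose hκ'0 c hc0 hcκ hcρ using hρ'
    have hfr := fun j => S.frame (hv'0 j) (hκ'0 j) (hD' j) (hc0 j) (hcκ j) (hcρ j).ne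
    choose k nb hk0 hk1 hbbd hnbv hnbκ hAnb hnb hrel using hfr
    -- `v j`
    set v : ℕ → E := fun j => u + ε' j • δ' j with hv
    have hvq : Tendsto (fun j => ⟪v j, q⟫) atTop (𝓝 ⟪u, q⟫) := hv't.inner tendsto_const_nhds
    rw [hq.1] at hvq
    have hR : 0 ≤ S.R := S.R_nonneg
    -- the height of `C v`
    have hC : Tendsto (fun j => S.C (v j)) atTop (𝓝 (S.C u)) := (S.C_cont hu0).tendsto.comp hv't
    have hheight : Tendsto (fun j => (S.h (v j) - S.h u) / ε' j - ⟪S.C (v j), δ' j⟫) atTop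
        (𝓝 (⟪S.C u + κ0, δ⟫ - ⟪S.C u, δ⟫)) := hderiv.sub (hC.inner hδ't)
    have hψe : ⟪S.C u + κ0, δ⟫ - ⟪S.C u, δ⟫ = S.Q u κ0 κ0 := by
      rw [inner_add_left, add_sub_cancel_left, real_inner_comm, hδκ]
    rw [hψe] at hheight
    set ψ := S.Q u κ0 κ0 with hψdef
    -- boundary points with small `⟪w, δ' j⟫`
    have key : ∀ᶠ j in atTop, ∀ w ∈ S.bd (v j), |⟪w, δ' j⟫| < ψ / 2 → |⟪nb j, w⟫| = 1 := by
      filter_upwards [hheight.eventually_const_lt (show ψ / 2 < ψ by linarith),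
        hvq.eventually_const_lt (show (0 : ℝ) < 1 by norm_num)] with j hj1 hj2 w hw hwδ
      have hε'j := hε'p j
      have hup : ∀ x, ⟪v j, x⟫ = S.h (v j) →
          ⟪u, x⟫ - S.h u = ε' j * ((S.h (v j) - S.h u) / ε' j - ⟪x, δ' j⟫) := by
        intro x hx
        have e1 : ⟪u, x⟫ = S.h (v j) - ε' j * ⟪x, δ' j⟫ := by
          rw [← hx]
          simp only [hv]
          rw [inner_add_left, inner_smul_left, real_inner_comm x (δ' j)]
          simp
        rw [e1]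
        field_simp
        ring
      have hvw : ⟪v j, w⟫ = 0 := hw.1.1
      have hvC : ⟪v j, S.C (v j)⟫ = S.h (v j) := S.C_h _ (hv'0 j)
      have hw1 := abs_lt.1 hwδ
      have g1 : S.h u < ⟪u, S.C (v j) + w⟫ := by
        have e := hup (S.C (v j) + w) (by rw [inner_add_right, hvw, hvC, add_zero])
        have : 0 < (S.h (v j) - S.h u) / ε' j - ⟪S.C (v j) + w, δ' j⟫ := by
          rw [inner_add_left]; linarith
        have := mul_pos hε'j this
        linarith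
      have g2 : S.h u < ⟪u, S.C (v j) - w⟫ := by
        have e := hup (S.C (v j) - w) (by rw [inner_sub_right, hvw, hvC, sub_zero])
        have : 0 < (S.h (v j) - S.h u) / ε' j - ⟪S.C (v j) - w, δ' j⟫ := by
          rw [inner_sub_left]; linarith
        have := mul_pos hε'j this
        linarith
      exact T8.tip_one S (hv'0 j) (hD' j) hq hj2 (hcρ j) (hnb j) (hrel j) hw g1 g2
    -- points `w0 j ∈ bd`, orthogonal to `δ' j`
    have hw0 : ∀ j, ∃ w ∈ S.bd (v j), ⟪w, δ' j⟫ = 0 ∧ 0 ≤ ⟪nb j, w⟫ := by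
      intro j
      obtain ⟨e, he, he1, he2⟩ := T8.exists_orth (v j) (δ' j)
      obtain ⟨a, ha, hae⟩ := S.exists_bd (hv'0 j) he he1
      have hz : ⟪a • e, δ' j⟫ = 0 := by rw [inner_smul_left, real_inner_comm, he2]; simp
      rcases le_total 0 ⟪nb j, a • e⟫ with h | h
      · exact ⟨_, hae, hz, h⟩
      · refine ⟨_, T8.bd_neg S (hv'0 j) hae, ?_, ?_⟩
        · rw [inner_neg_left, hz, neg_zero]
        · rw [inner_neg_right]; linarith
    choose w0 hw0bd hw0δ hw0nb using hw0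
    -- a convergent subsequence of `w0`
    have hw0b : ∀ j, w0 j ∈ closedBall (0 : E) (2 * S.R) := by
      intro j
      rw [mem_closedBall_zero_iff]
      exact S.Sp_norm (hv'0 j) (hw0bd j).1
    obtain ⟨ws, -, θ, hθ, hws⟩ := (isCompact_closedBall (0 : E) (2 * S.R)).tendsto_subseq hw0b
    have hθt := hθ.tendsto_atTop
    have hwsu : ⟪u, ws⟫ = 0 := by
      have h1 : Tendsto (fun j => ⟪v (θ j), w0 (θ j)⟫) atTop (𝓝 ⟪u, ws⟫) :=
        (hv't.comp hθt).inner hws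
      have h2 : (fun j => ⟪v (θ j), w0 (θ j)⟫) = fun _ => (0 : ℝ) := by
        funext j; exact (hw0bd (θ j)).1.1
      rw [h2] at h1
      exact tendsto_nhds_unique h1 tendsto_const_nhds |>.symm ▸ rfl
    have hwsδ : ⟪δ, ws⟫ = 0 := by
      have h1 : Tendsto (fun j => ⟪w0 (θ j), δ' (θ j)⟫) atTop (𝓝 ⟪ws, δ⟫) :=
        hws.inner (hδ't.comp hθt)
      have h2 : (fun j => ⟪w0 (θ j), δ' (θ j)⟫) = fun _ => (0 : ℝ) := by
        funext j; exact hw0δ (θ j)
      rw [h2] at h1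
      rw [real_inner_comm]
      exact tendsto_nhds_unique h1 tendsto_const_nhds |>.symm ▸ rfl
    have hQ1 : Tendsto (fun j => S.Q (v (θ j)) (κ' (θ j)) (w0 (θ j))) atTop (𝓝 0) := by
      have := S.Q_tendsto hu0 (hv't.comp hθt) (hκ0.comp hθt) hws
        (fun j => S.F_orth (hv'0 (θ j)) (hD' (θ j)).1) (fun j => (hw0bd (θ j)).1.1)
      rw [← hδ ws hwsu, hwsδ] at this
      exact this
    have hQ2 : Tendsto (fun j => S.Q (v (θ j)) (κ' (θ j)) (κ' (θ j))) atTop (𝓝 ψ) :=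
      S.Q_tendsto hu0 (hv't.comp hθt) (hκ0.comp hθt) (hκ0.comp hθt)
        (fun j => S.F_orth (hv'0 (θ j)) (hD' (θ j)).1)
        (fun j => S.F_orth (hv'0 (θ j)) (hD' (θ j)).1)
    -- lower bound for `k`
    have hκn : Tendsto (fun j => ‖κ' (θ j)‖) atTop (𝓝 ‖κ0‖) := (hκ0.comp hθt).norm
    have hκ0n : 0 < ‖κ0‖ := norm_pos_iff.2 hκ
    have hRpos : 0 < S.R := by
      rcases hR.eq_or_lt with h | h
      · exfalso
        have h1 := S.Sp_norm (hv'0 0) (hbbd 0).1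
        rw [← h, mul_zero, norm_smul] at h1
        have h2 : 0 < ‖1 / k 0‖ * ‖κ' 0‖ := by
          apply mul_pos
          · rw [norm_pos_iff]; exact (one_div_pos.2 (hk0 0)).ne'
          · exact norm_pos_iff.2 (hκ'0 0)
        linarith
      · exact h
    have hkb : ∀ j, ‖κ' j‖ ≤ 2 * S.R * k j := by
      intro j
      have h1 := S.Sp_norm (hv'0 j) (hbbd j).1
      rw [norm_smul, Real.norm_eq_abs, abs_of_pos (one_div_pos.2 (hk0 j))] at h1
      have h2 : 1 / k j * ‖κ' j‖ * k j ≤ 2 * S.R * k j :=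
        mul_le_mul_of_nonneg_right h1 (hk0 j).le
      have h3 : 1 / k j * ‖κ' j‖ * k j = ‖κ' j‖ := by
        have := (hk0 j).ne'
        field_simp
      linarith
    set km : ℝ := ‖κ0‖ / (4 * S.R) with hkm
    have hkm0 : 0 < km := by positivity
    have hδκt : Tendsto (fun j => ⟪κ' (θ j), δ' (θ j)⟫) atTop (𝓝 ψ) := by
      have h1 : Tendsto (fun j => ⟪κ' (θ j), δ' (θ j)⟫) atTop (𝓝 ⟪κ0, δ⟫) :=
        (hκ0.comp hθt).inner (hδ't.comp hθt)
      rwa [real_inner_comm, hδκ] at h1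
    set η : ℝ := min (1 / 2) (km / 16) with hη
    have hη0 : 0 < η := lt_min (by norm_num) (by positivity)
    have hη1 : η ≤ 1 / 2 := min_le_left _ _
    have hη2 : η ≤ km / 16 := min_le_right _ _
    have ev1 := hθt.eventually key
    have ev2 := hκn.eventually_const_lt (show ‖κ0‖ / 2 < ‖κ0‖ by linarith)
    have ev3 := hδκt.eventually_lt_const (show ψ < 2 * ψ by linarith)
    have ev4 := hδκt.eventually_const_lt (show 0 < ψ by linarith)
    have ev5 := hQ2.eventually_const_lt (show ψ / 2 < ψ by linarith)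
    have ev6 := hQ1.eventually_lt_const (show 0 < η * (ψ / 2) by positivity)
    have hlast : ∀ᶠ j : ℕ in atTop, False := by
      filter_upwards [ev1, ev2, ev3, ev4, ev5, ev6] with j hj1 hj2 hj3 hj4 hj5 hj6
      set i := θ j with hi
      have hki : km < k i := by
        have h1 := hkb i
        rw [hkm, div_lt_iff₀ (by positivity)]
        nlinarith
      have hk0i := hk0 i
      have hk1i := hk1 i
      -- `nb` at `w0`
      have hnb0 : ⟪nb i, w0 i⟫ = 1 := by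
        have := hj1 (w0 i) (hw0bd i) (by rw [hw0δ, abs_zero]; linarith)
        rwa [abs_of_nonneg (hw0nb i)] at this
      set b : E := (1 / k i) • κ' i with hb
      have hnbb : ⟪nb i, b⟫ = 1 := by
        rw [hb, inner_smul_right, hnbκ]
        field_simp
      set e : E := w0 i - η • b with he
      have hnbe : ⟪nb i, e⟫ = 1 - η := by
        rw [he, inner_sub_right, inner_smul_right, hnb0, hnbb, mul_one]
      have hve : ⟪v i, e⟫ = 0 := by
        rw [he, inner_sub_right, inner_smul_right, (hw0bd i).1.1, (hbbd i).1.1]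
        simp
      have he0 : e ≠ 0 := by
        intro h0
        rw [h0, inner_zero_right] at hnbe
        linarith
      obtain ⟨a, ha0, ha⟩ := S.exists_bd (hv'0 i) he0 hve
      have hnba : ⟪nb i, a • e⟫ = a * (1 - η) := by rw [inner_smul_right, hnbe]
      have hale : a * (1 - η) ≤ 1 := by
        have := hnb i _ ha.1
        rw [hnba] at this
        exact (le_abs_self _).trans this
      have ha2 : a ≤ 2 := by nlinarith
      have hδa : ⟪a • e, δ' i⟫ = -(a * η * (⟪κ' i, δ' i⟫ / k i)) := by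
        rw [he, hb, inner_smul_left, inner_sub_left, inner_smul_left, inner_smul_left, hw0δ]
        simp only [conj_trivial]
        ring
      have hsmall : |⟪a • e, δ' i⟫| < ψ / 2 := by
        rw [hδa, abs_neg, abs_of_pos (by positivity)]
        have h1 : ⟪κ' i, δ' i⟫ / k i < 2 * ψ / km := by
          rw [div_lt_div_iff₀ hk0i hkm0]
          have : ⟪κ' i, δ' i⟫ * km < 2 * ψ * km := mul_lt_mul_of_pos_right hj3 hkm0
          nlinarith
        have h2 : a * η ≤ 2 * (km / 16) := by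
          apply mul_le_mul ha2 hη2 hη0.le (by norm_num)
        calc a * η * (⟪κ' i, δ' i⟫ / k i) < a * η * (2 * ψ / km) := by
              apply mul_lt_mul_of_pos_left h1 (by positivity)
          _ ≤ 2 * (km / 16) * (2 * ψ / km) := by
              apply mul_le_mul_of_nonneg_right h2 (by positivity)
          _ = ψ / 4 := by field_simp; ring
          _ < ψ / 2 := by linarith
      have hnb1 : ⟪nb i, a • e⟫ = 1 := by
        have := hj1 _ ha hsmall
        rw [abs_of_pos] at this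
        · exact this
        · rw [hnba]; apply mul_pos ha0; linarith
      -- the square lemma at `v i`
      have hsq := S.square_lemma_space (n := nb i) (hv'0 i) (hbbd i).1 ha.1
        (fun x hx => (le_abs_self _).trans (hnb i x hx)) hnbb hnb1
      obtain ⟨Qsymm', Qadd', Qsmul', Qpos', Qle'⟩ := S.Q_form (hv'0 i)
      have hκv : ⟪v i, κ' i⟫ = 0 := S.F_orth (hv'0 i) (hD' i).1
      have hw0v : ⟪v i, w0 i⟫ = 0 := (hw0bd i).1.1
      have hbv : ⟪v i, b⟫ = 0 := (hbbd i).1.1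
      have haev : ⟪v i, a • e⟫ = 0 := ha.1.1
      have hnbv' : ⟪v i, (-η) • b⟫ = 0 := by rw [inner_smul_right, hbv, mul_zero]
      have q1 : S.Q (v i) b (a • e) = 1 / k i * S.Q (v i) (κ' i) (a • e) := by
        rw [hb, Qsmul' _ _ _ hκv haev]
      have q2 : S.Q (v i) (κ' i) (a • e) =
          a * (S.Q (v i) (κ' i) (w0 i) - η * (1 / k i * S.Q (v i) (κ' i) (κ' i))) := by
        rw [Qsymm' _ _ hκv haev, Qsmul' _ _ _ hve hκv]
        congr 1
        have e1 : e = w0 i + (-η) • b := by rw [he]; module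
        rw [e1, Qadd' _ _ _ hw0v hnbv' hκv, Qsmul' _ _ _ hbv hκv, hb, Qsmul' _ _ _ hκv hκv,
          Qsymm' _ _ hw0v hκv]
        ring
      rw [q1, q2] at hsq
      have h1k : 1 < 1 / k i := by rw [lt_div_iff₀ hk0i]; linarith
      have q3 : S.Q (v i) (κ' i) (w0 i) - η * (1 / k i * S.Q (v i) (κ' i) (κ' i)) < 0 := by
        have : ψ / 2 < 1 / k i * S.Q (v i) (κ' i) (κ' i) := by nlinarith
        have := mul_lt_mul_of_pos_left this hη0
        linarith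
      have q4 : 1 / k i * (a * (S.Q (v i) (κ' i) (w0 i) -
          η * (1 / k i * S.Q (v i) (κ' i) (κ' i)))) < 0 := by
        apply mul_neg_of_pos_of_neg (by linarith)
        exact mul_neg_of_pos_of_neg ha0 q3
      linarith
    exact (hlast.exists).choose_spec
  · -- sign propagation
    rcases hW with hW | ⟨δ1, κ1, ε1, A1, h1, h10⟩
    · exact hZ hW
    · have hnδ : ∀ j, 0 < ‖δ' j‖ := fun j => norm_pos_iff.2 (hδj0 _)
      have hv2 : ∀ j, u + (ε' j * ‖δ' j‖) • ((‖δ' j‖)⁻¹ • δ' j) = u + ε' j • δ' j := by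
        intro j
        rw [smul_smul, mul_assoc, mul_inv_cancel₀ (hnδ j).ne', mul_one]
      apply S.sign_prop hu hE hZ (δ1 := δ1) (κ1 := κ1) (ε1 := ε1) (A1 := A1) h1 h10
        (δ2 := fun j => (‖δ' j‖)⁻¹ • δ' j) (κ2 := κ') (ε2 := fun j => ε' j * ‖δ' j‖) (A2 := A')
        (κ := κ0) _ _ hκ0 hκ
      · intro j
        refine ⟨mul_pos (hε'p j) (hnδ j), ?_, ?_, ?_, ?_⟩
        · rw [inner_smul_right, hδ'u, mul_zero]
        · rw [norm_smul, norm_inv, norm_norm, inv_mul_cancel₀ (hnδ j).ne']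
        · rw [hv2]; exact hD' j
        · rw [hv2]; exact hρ' j
      · have := hε'0.mul hδ't.norm
        simpa using this

end Setting
end Pool.Agent.Helper18.BL
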