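import Mathlib
import Pool.Agent.Helper76.BL.Body

set_option autoImplicit false

open Set MeasureTheory Filter Topology Metric

namespace Pool.Agent.Helper18.BL

open Pool.Agent.Helper76.BL

/-- final form of the planar inequality -/
theorem planar_ineq {B : Set (ℝ × ℝ)} (hB : IsBody B) (h10 : ((1 : ℝ), (0 : ℝ)) ∈ B)
    (hx : ∀ z ∈ B, |z.1| ≤ 1) (Cs : ℝ)
    (ha : ∀ᵐ a : ℝ, ∀ n ∈ plr B, pr n (a, 1) = gauge B (a, 1) → n.2 * gauge B (a, 1) ≤ Cs)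
    (hα : ∀ᵐ α : ℝ, ∀ w ∈ B, pr (α, 1) w = gauge (plr B) (α, 1) →
      1 ≤ Cs * w.2 * gauge (plr B) (α, 1)) (k : ℝ) (hk0 : 0 ≤ k) (hk1 : k ≤ 1) :
    let v : ℝ → ℝ := fun a => gauge B (a, 1)
    let V : ℝ → ℝ := fun α => gauge (plr B) (α, 1)
    let A := ∫ a, (v a)⁻¹ ^ 2
    let Ap := ∫ α, (V α)⁻¹ ^ 2
    let E1 := 2 / A * ∫ a, (v a - a * deriv v a) * (a ^ 2 - k ^ 2 * (v a) ^ 2) / (v a) ^ 3
    let E2 := 2 / Ap * ∫ α, ((deriv V α) ^ 2 - k ^ 2) / ((V α) ^ 3 * (V α - α * deriv V α))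
    let W := 1 / Ap * ∫ α, 1 / ((V α) ^ 3 * (V α - α * deriv V α))
    Integrable (fun a => (v a - a * deriv v a) * (a ^ 2 - k ^ 2 * (v a) ^ 2) / (v a) ^ 3) ∧
    Integrable (fun α => ((deriv V α) ^ 2 - k ^ 2) / ((V α) ^ 3 * (V α - α * deriv V α))) ∧
    Integrable (fun α => 1 / ((V α) ^ 3 * (V α - α * deriv V α))) ∧
    0 ≤ W ∧
    W * (1 - k ^ 2) * (Real.pi - Real.sqrt (A * Ap)) ^ 2 ≤
      (E2 - E1) * ((Real.pi - Real.sqrt (A * Ap)) ^ 2 + 16 + A * Ap) := by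
  have h := vlc_of_body hB h10 hx Cs ha hα
  intro v V
  change VLC v V Cs at h
  have hv : ∀ᵐ a : ℝ, deriv v a = rd v a := by
    filter_upwards [h.cv.lipWith.ae_differentiableAt_real] with a ha
    exact (h.rd_eq ha.hasDerivAt).symm
  have hV : ∀ᵐ a : ℝ, deriv V a = rd V a := by
    filter_upwards [h.cl.lipWith.ae_differentiableAt_real] with a ha
    exact ((ha.hasDerivAt.hasDerivWithinAt (s := Ioi a)).derivWithin
      (uniqueDiffWithinAt_Ioi a)).symm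
  obtain ⟨q1, q2, q3, q4, q5⟩ := h.planar k hk0 hk1
  have f1 : (fun a => (v a - a * rd v a) * (a ^ 2 - k ^ 2 * v a ^ 2) / v a ^ 3) =ᵐ[volume]
      fun a => (v a - a * deriv v a) * (a ^ 2 - k ^ 2 * (v a) ^ 2) / (v a) ^ 3 := by
    filter_upwards [hv] with a ha
    rw [ha]
  have f2 : (fun p => (rd V p ^ 2 - k ^ 2) / (V p ^ 3 * (V p - p * rd V p))) =ᵐ[volume]
      fun α => ((deriv V α) ^ 2 - k ^ 2) / ((V α) ^ 3 * (V α - α * deriv V α)) := by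
    filter_upwards [hV] with a ha
    rw [ha]
  have f3 : (fun p => 1 / (V p ^ 3 * (V p - p * rd V p))) =ᵐ[volume]
      fun α => 1 / ((V α) ^ 3 * (V α - α * deriv V α)) := by
    filter_upwards [hV] with a ha
    rw [ha]
  have e1 : ∫ a, (v a)⁻¹ ^ 2 = ∫ a, (v a ^ 2)⁻¹ := by simp only [inv_pow]
  have e2 : ∫ a, (V a)⁻¹ ^ 2 = ∫ a, (V a ^ 2)⁻¹ := by simp only [inv_pow]
  rw [e1, e2, ← integral_congr_ae f1, ← integral_congr_ae f2, ← integral_congr_ae f3]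
  exact ⟨q1.congr f1, q2.congr f2, q3.congr f3, q4, q5⟩

end Pool.Agent.Helper18.BL
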