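import Mathlib
import Pool.Agent.Helper18.BL.P1
import Pool.Agent.Helper18.BL.P2
import Pool.Agent.Helper18.BL.P3

set_option autoImplicit false

open Set MeasureTheory Filter Topology Metric

namespace Pool.Agent.Helper18.BL

/-- composition of a difference quotient along a sequence with a differentiable function -/
private theorem seq_deriv {f : ℝ → ℝ} {f' x D : ℝ} (hf : HasDerivAt f f' x) {xj ε : ℕ → ℝ}
    (hx : Tendsto xj atTop (𝓝 x)) (hD : Tendsto (fun j => (xj j - x) / ε j) atTop (𝓝 D)) :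
    Tendsto (fun j => (f (xj j) - f x) / ε j) atTop (𝓝 (f' * D)) := by
  have h1 : ContinuousAt (dslope f x) x := continuousAt_dslope_same.2 hf.differentiableAt
  have h2 : Tendsto (fun j => dslope f x (xj j)) atTop (𝓝 f') := by
    have := h1.tendsto.comp hx
    rwa [dslope_same, hf.deriv] at this
  have h3 := h2.mul hD
  refine h3.congr fun j => ?_
  have := sub_smul_dslope f x (xj j)
  rw [smul_eq_mul] at this
  rw [← this]
  ring

private theorem seq_to_zero {x D : ℝ} {xj ε : ℕ → ℝ} (hε : ∀ j, 0 < ε j)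
    (hε0 : Tendsto ε atTop (𝓝 0))
    (hD : Tendsto (fun j => (xj j - x) / ε j) atTop (𝓝 D)) :
    Tendsto xj atTop (𝓝 x) := by
  have h := hD.mul hε0
  rw [mul_zero] at h
  have h2 : Tendsto (fun j => xj j - x) atTop (𝓝 0) := by
    refine h.congr fun j => ?_
    field_simp [(hε j).ne']
  have h3 := h2.add_const x
  simpa using h3

/-- dominated convergence for a difference quotient -/
private theorem key {m : ℝ → ℝ} (hm : Integrable m) {u : ℕ → ℝ → ℝ} (hu : ∀ j, Measurable (u j))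
    {ε : ℕ → ℝ} (hε : ∀ j, 0 < ε j) (hε0 : Tendsto ε atTop (𝓝 0)) {C : ℝ}
    (hb : ∀ᶠ j in atTop, ∀ a, |u j a - 1| ≤ C * ε j) {τ : ℝ → ℝ}
    (hτ : ∀ᵐ a : ℝ, Tendsto (fun j => (u j a - 1) / ε j) atTop (𝓝 (τ a)))
    {f : ℝ → ℝ} {f' : ℝ} (hf : Measurable f) (hf1 : HasDerivAt f f' 1) (h1 : f 1 = 1) :
    Integrable (fun a => τ a * m a) ∧
    Tendsto (fun j => ((∫ a, m a * f (u j a)) - ∫ a, m a) / ε j) atTop
      (𝓝 (f' * ∫ a, τ a * m a)) := by
  have hcont : ContinuousAt (dslope f 1) 1 := continuousAt_dslope_same.2 hf1.differentiableAt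
  obtain ⟨δ, hδ, hδb⟩ : ∃ δ > 0, ∀ x, |x - 1| < δ → |dslope f 1 x| ≤ |f'| + 1 := by
    have := Metric.continuousAt_iff.1 hcont 1 one_pos
    obtain ⟨δ, hδ, h⟩ := this
    refine ⟨δ, hδ, fun x hx => ?_⟩
    have h2 := h (x := x) (by rwa [Real.dist_eq])
    rw [dslope_same, hf1.deriv, Real.dist_eq] at h2
    have h3 := abs_sub_abs_le_abs_sub (dslope f 1 x) f'
    linarith
  have hev : ∀ᶠ j in atTop, ∀ a, |u j a - 1| ≤ C * ε j ∧ |u j a - 1| < δ := by
    have h0 : Tendsto (fun j => C * ε j) atTop (𝓝 0) := by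
      simpa using hε0.const_mul C
    filter_upwards [hb, h0.eventually (gt_mem_nhds hδ)] with j hj1 hj2 a
    exact ⟨hj1 a, (hj1 a).trans_lt hj2⟩
  have hfu : ∀ j a, f (u j a) = 1 + (u j a - 1) * dslope f 1 (u j a) := by
    intro j a
    have := sub_smul_dslope f 1 (u j a)
    rw [smul_eq_mul, h1] at this
    rw [this]; ring
  have hCev : ∀ᶠ j in atTop, ∀ a, |(f (u j a) - 1) / ε j| ≤ (|f'| + 1) * C := by
    filter_upwards [hev] with j hj a
    rw [hfu j a, add_sub_cancel_left, abs_div, abs_mul, abs_of_pos (hε j), div_le_iff₀ (hε j)]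
    have h3 := hδb _ (hj a).2
    have h4 := (hj a).1
    calc |u j a - 1| * |dslope f 1 (u j a)| ≤ (C * ε j) * (|f'| + 1) :=
          mul_le_mul h4 h3 (abs_nonneg _) ((abs_nonneg _).trans h4)
      _ = (|f'| + 1) * C * ε j := by ring
  have hlim : ∀ᵐ a : ℝ, Tendsto (fun j => (f (u j a) - 1) / ε j) atTop (𝓝 (f' * τ a)) := by
    filter_upwards [hτ] with a ha
    have := seq_deriv hf1 (seq_to_zero hε hε0 ha) ha
    rwa [h1] at this
  have hmeas : ∀ j, AEStronglyMeasurable (fun a => m a * ((f (u j a) - 1) / ε j)) volume := by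
    intro j
    exact hm.aestronglyMeasurable.mul
      (((hf.comp (hu j)).sub_const 1).div_const _).aestronglyMeasurable
  have hbd : ∀ᶠ j in atTop, ∀ᵐ a : ℝ, ‖m a * ((f (u j a) - 1) / ε j)‖ ≤
      ‖m a‖ * ((|f'| + 1) * C) := by
    filter_upwards [hCev] with j hj
    filter_upwards with a
    rw [norm_mul]
    exact mul_le_mul_of_nonneg_left (hj a) (norm_nonneg _)
  have hbi : Integrable (fun a => ‖m a‖ * ((|f'| + 1) * C)) := hm.norm.mul_const _
  have hlim2 : ∀ᵐ a : ℝ, Tendsto (fun j => m a * ((f (u j a) - 1) / ε j)) atTop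
      (𝓝 (m a * (f' * τ a))) := by
    filter_upwards [hlim] with a ha
    exact ha.const_mul _
  refine ⟨?_, ?_⟩
  · -- integrability of the limit, by the difference quotients of `u` themselves
    have hlim3 : ∀ᵐ a : ℝ, Tendsto (fun j => (u j a - 1) / ε j * m a) atTop
        (𝓝 (τ a * m a)) := by
      filter_upwards [hτ] with a ha
      exact ha.mul_const _
    obtain ⟨N, hN⟩ := eventually_atTop.1 hb
    refine ⟨?_, ?_⟩
    · refine aestronglyMeasurable_of_tendsto_ae atTop (f := fun j a => (u j a - 1) / ε j * m a)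
        (fun j => ?_) hlim3
      exact (((hu j).sub_const 1).div_const _).aestronglyMeasurable.mul hm.aestronglyMeasurable
    · refine hasFiniteIntegral_of_dominated_convergence
        (F := fun j a => (u (j + N) a - 1) / ε (j + N) * m a)
        (bound := fun a => C * ‖m a‖) (hm.norm.const_mul C).2 ?_ ?_
      · intro j
        filter_upwards with a
        rw [norm_mul]
        refine mul_le_mul_of_nonneg_right ?_ (norm_nonneg _)
        rw [Real.norm_eq_abs, abs_div, abs_of_pos (hε _), div_le_iff₀ (hε _)]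
        exact hN (j + N) (by omega) a
      · filter_upwards [hlim3] with a ha
        exact (tendsto_add_atTop_iff_nat N).2 ha
  · have hmain := tendsto_integral_filter_of_dominated_convergence
      (fun a => ‖m a‖ * ((|f'| + 1) * C)) (Eventually.of_forall hmeas) hbd hbi hlim2
    have heq : ∫ a, m a * (f' * τ a) = f' * ∫ a, τ a * m a := by
      rw [← integral_const_mul]
      congr 1
      ext a; ring
    rw [heq] at hmain
    refine hmain.congr' ?_
    filter_upwards [hCev, hbd] with j hj hj2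
    have hint : Integrable (fun a => m a * ((f (u j a) - 1) / ε j)) :=
      Integrable.mono' hbi (hmeas j) hj2
    have hint2 : Integrable (fun a => m a * f (u j a)) := by
      have : (fun a => m a * f (u j a)) =
          fun a => ε j * (m a * ((f (u j a) - 1) / ε j)) + m a := by
        ext a
        field_simp [(hε j).ne']
        ring
      rw [this]
      exact (hint.const_mul _).add hm
    rw [← integral_sub hint2 hm, ← integral_div]
    congr 1
    ext a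
    ring

private theorem hasDeriv_invpow (p : ℕ) : HasDerivAt (fun x : ℝ => x⁻¹ ^ p) (-(p : ℝ)) 1 := by
  have h := (hasDerivAt_inv (one_ne_zero (α := ℝ))).fun_pow p
  have e : (p : ℝ) * (1 : ℝ)⁻¹ ^ (p - 1) * -((1 : ℝ) ^ 2)⁻¹ = -(p : ℝ) := by simp
  rw [e] at h
  exact h

private theorem ratio_facts {B : Set (ℝ × ℝ)} (hB : IsBody B) {Bj : ℕ → Set (ℝ × ℝ)}
    (hj : ∀ j, IsBody (Bj j)) {ε : ℕ → ℝ} {C : ℝ}
    (hb : ∀ᶠ j in atTop, ∀ z, |gauge (Bj j) z - gauge B z| ≤ C * ε j * gauge B z)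
    {τ : ℝ → ℝ}
    (hτ : ∀ᵐ a : ℝ, Tendsto (fun j => (gauge (Bj j) (a, 1) - gauge B (a, 1)) / ε j) atTop
      (𝓝 (gauge B (a, 1) * τ a))) :
    (∀ j, Measurable (fun a : ℝ => gauge (Bj j) (a, 1) / gauge B (a, 1))) ∧
    (∀ᶠ j in atTop, ∀ a : ℝ, |gauge (Bj j) (a, 1) / gauge B (a, 1) - 1| ≤ C * ε j) ∧
    (∀ᵐ a : ℝ, Tendsto (fun j => (gauge (Bj j) (a, 1) / gauge B (a, 1) - 1) / ε j) atTop
      (𝓝 (τ a))) := by
  have hpos : ∀ a : ℝ, 0 < gauge B (a, 1) := fun a => hB.gauge_pos (by simp)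
  refine ⟨fun j => ?_, ?_, ?_⟩
  · have h1 : Continuous (fun a : ℝ => gauge (Bj j) (a, 1)) :=
      (hj j).gauge_cont.comp (by fun_prop)
    have h2 : Continuous (fun a : ℝ => gauge B (a, 1)) := hB.gauge_cont.comp (by fun_prop)
    exact (h1.div h2 fun a => (hpos a).ne').measurable
  · filter_upwards [hb] with j hj a
    have h := hj (a, 1)
    have e : gauge (Bj j) (a, 1) / gauge B (a, 1) - 1 =
        (gauge (Bj j) (a, 1) - gauge B (a, 1)) / gauge B (a, 1) := by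
      rw [sub_div, div_self (hpos a).ne']
    rw [e, abs_div, abs_of_pos (hpos a), div_le_iff₀ (hpos a)]
    exact h
  · filter_upwards [hτ] with a ha
    have h := ha.div_const (gauge B (a, 1))
    rw [mul_div_cancel_left₀ _ (hpos a).ne'] at h
    refine h.congr fun j => ?_
    have := (hpos a).ne'
    field_simp

/-- PB6a. Derivative of `log vol`: `vol B = ∫ g(a,1)⁻² da` (`vol_slope`) and dominated convergence
(`|g_j⁻² - g⁻²| / ε ≤ const * g⁻²`). -/
theorem log_vol_deriv {B : Set (ℝ × ℝ)} (hB : IsBody B) {Bj : ℕ → Set (ℝ × ℝ)}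
    (hj : ∀ j, IsBody (Bj j)) {ε : ℕ → ℝ} (hε : ∀ j, 0 < ε j) (hε0 : Tendsto ε atTop (𝓝 0))
    {Ct : ℝ} (hb : ∀ᶠ j in atTop, ∀ z, |gauge (Bj j) z - gauge B z| ≤ Ct * ε j * gauge B z)
    {τ : ℝ → ℝ}
    (hτ : ∀ᵐ a : ℝ, Tendsto (fun j => (gauge (Bj j) (a, 1) - gauge B (a, 1)) / ε j) atTop
      (𝓝 (gauge B (a, 1) * τ a))) :
    Integrable (fun a => τ a * (gauge B (a, 1))⁻¹ ^ 2) ∧
    Tendsto (fun j => (Real.log (volume (Bj j)).toReal - Real.log (volume B).toReal) / ε j) atTop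
      (𝓝 (-2 * (∫ a, τ a * (gauge B (a, 1))⁻¹ ^ 2) / ∫ a, (gauge B (a, 1))⁻¹ ^ 2)) := by
  obtain ⟨hm1, hm2, hm3⟩ := ratio_facts hB hj hb hτ
  have hpos : ∀ a : ℝ, 0 < gauge B (a, 1) := fun a => hB.gauge_pos (by simp)
  obtain ⟨k1, k2⟩ := key (vol_slope hB).1 hm1 hε hε0 hm2 hm3
    (f := fun x : ℝ => x⁻¹ ^ 2) (f' := -((2 : ℕ) : ℝ)) (by fun_prop) (hasDeriv_invpow 2) (by simp)
  refine ⟨k1, ?_⟩
  have hvol : ∀ j, ∫ a : ℝ, (gauge B (a, 1))⁻¹ ^ 2 *
      (gauge (Bj j) (a, 1) / gauge B (a, 1))⁻¹ ^ 2 = (volume (Bj j)).toReal := by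
    intro j
    rw [(vol_slope (hj j)).2]
    congr 1
    ext a
    have := (hpos a).ne'
    rw [inv_div]
    field_simp
  simp only [hvol] at k2
  rw [← (vol_slope hB).2] at k2 ⊢
  have hVpos : 0 < (volume B).toReal := by
    have := hB.MV_pos
    unfold MV at this
    by_contra h
    have h0 : (volume B).toReal = 0 := le_antisymm (not_lt.1 h) ENNReal.toReal_nonneg
    rw [h0, zero_mul] at this
    exact lt_irrefl _ this
  have h3 := seq_deriv (Real.hasDerivAt_log hVpos.ne') (seq_to_zero hε hε0 k2) k2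
  convert h3 using 2
  push_cast
  field_simp

/-- transfer of the uniform estimate to the polar bodies -/
theorem polar_gauge_bound_86 {B B' : Set (ℝ × ℝ)} (hB : IsBody B) (hB' : IsBody B') {c : ℝ}
    (hc : c ≤ 1 / 2) (h : ∀ z, |gauge B' z - gauge B z| ≤ c * gauge B z) (n : ℝ × ℝ) :
    |gauge (plr B') n - gauge (plr B) n| ≤ 2 * c * gauge (plr B) n := by
  have hc0 : 0 ≤ c := by
    have h1 := h (1, 0)
    have h2 : 0 < gauge B (1, 0) := hB.gauge_pos (by simp)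
    by_contra hneg
    have : c * gauge B (1, 0) < 0 := mul_neg_of_neg_of_pos (not_le.1 hneg) h2
    linarith [abs_nonneg (gauge B' (1, 0) - gauge B (1, 0))]
  have hG0 : 0 ≤ gauge (plr B) n := gauge_nonneg _
  -- upper bound
  have hup : gauge (plr B') n ≤ (1 + 2 * c) * gauge (plr B) n := by
    obtain ⟨⟨z, hz, hzn⟩, -⟩ := hB'.gauge_plr n
    simp only at hzn
    have hz1 : gauge B' z ≤ 1 := (hB'.mem_iff_gauge z).1 hz
    have hz2 : (1 - c) * gauge B z ≤ 1 := by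
      have := (abs_le.1 (h z)).1
      linarith
    have hmem : (1 - c) • z ∈ B := by
      rw [hB.mem_iff_gauge, hB.gauge_smul, abs_of_nonneg (by linarith)]
      exact hz2
    have h3 : pr n ((1 - c) • z) ≤ gauge (plr B) n := (hB.gauge_plr n).2 ⟨_, hmem, rfl⟩
    have h4 : pr n ((1 - c) • z) = (1 - c) * pr n z := by
      simp only [pr, Prod.smul_fst, Prod.smul_snd, smul_eq_mul]; ring
    rw [h4, hzn] at h3
    have h5 : 0 ≤ gauge (plr B') n := gauge_nonneg _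
    have h6 : 1 ≤ (1 + 2 * c) * (1 - c) := by nlinarith
    nlinarith
  have hlo : (1 - 2 * c) * gauge (plr B) n ≤ gauge (plr B') n := by
    obtain ⟨⟨z, hz, hzn⟩, -⟩ := hB.gauge_plr n
    simp only at hzn
    have hz1 : gauge B z ≤ 1 := (hB.mem_iff_gauge z).1 hz
    have hmem : (1 + c)⁻¹ • z ∈ B' := by
      rw [hB'.mem_iff_gauge, hB'.gauge_smul, abs_of_nonneg (by positivity),
        inv_mul_le_iff₀ (by positivity)]
      have := (abs_le.1 (h z)).2
      nlinarith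
    have h3 : pr n ((1 + c)⁻¹ • z) ≤ gauge (plr B') n := (hB'.gauge_plr n).2 ⟨_, hmem, rfl⟩
    have h4 : pr n ((1 + c)⁻¹ • z) = (1 + c)⁻¹ * pr n z := by
      simp only [pr, Prod.smul_fst, Prod.smul_snd, smul_eq_mul]; ring
    rw [h4, hzn] at h3
    have h5 : (1 - 2 * c) ≤ (1 + c)⁻¹ := by
      rw [← one_div, le_div_iff₀ (by positivity)]
      nlinarith
    exact (mul_le_mul_of_nonneg_right h5 hG0).trans h3
  rw [abs_le]
  constructor <;> linarith

/-- PB6b. Derivative of `log Qf x x` (`int_slope` for the polar bodies). -/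
theorem log_Qf_deriv {B : Set (ℝ × ℝ)} (hB : IsBody B) {Bj : ℕ → Set (ℝ × ℝ)}
    (hj : ∀ j, IsBody (Bj j)) {ε : ℕ → ℝ} (hε : ∀ j, 0 < ε j) (hε0 : Tendsto ε atTop (𝓝 0))
    {Ct : ℝ} (hb : ∀ᶠ j in atTop, ∀ z, |gauge (Bj j) z - gauge B z| ≤ Ct * ε j * gauge B z)
    {τ : ℝ → ℝ}
    (hτ : ∀ᵐ α : ℝ, Tendsto (fun j => (gauge (plr (Bj j)) (α, 1) - gauge (plr B) (α, 1)) / ε j)
      atTop (𝓝 (gauge (plr B) (α, 1) * τ α))) {x : ℝ × ℝ} (hx : x ≠ 0) :
    Integrable (fun α => τ α * (pr (α, 1) x) ^ 2 * (gauge (plr B) (α, 1))⁻¹ ^ 4) ∧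
    Tendsto (fun j => (Real.log (Qf (Bj j) x x) - Real.log (Qf B x x)) / ε j) atTop
      (𝓝 (-4 * (∫ α, τ α * (pr (α, 1) x) ^ 2 * (gauge (plr B) (α, 1))⁻¹ ^ 4) /
            (∫ α, (pr (α, 1) x) ^ 2 * (gauge (plr B) (α, 1))⁻¹ ^ 4) +
          2 * (∫ α, τ α * (gauge (plr B) (α, 1))⁻¹ ^ 2) /
            ∫ α, (gauge (plr B) (α, 1))⁻¹ ^ 2)) := by
  have hB' := hB.plr
  have hj' : ∀ j, IsBody (plr (Bj j)) := fun j => (hj j).plr
  have hb' : ∀ᶠ j in atTop, ∀ z, |gauge (plr (Bj j)) z - gauge (plr B) z| ≤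
      (2 * Ct) * ε j * gauge (plr B) z := by
    have h0 : Tendsto (fun j => Ct * ε j) atTop (𝓝 0) := by simpa using hε0.const_mul Ct
    filter_upwards [hb, h0.eventually (ge_mem_nhds (by norm_num : (0 : ℝ) < 1 / 2))] with j h1 h2 z
    have := polar_gauge_bound_86 hB (hj j) h2 h1 z
    calc _ ≤ 2 * (Ct * ε j) * gauge (plr B) z := this
      _ = _ := by ring
  obtain ⟨hm1, hm2, hm3⟩ := ratio_facts hB' hj' hb' hτ
  have hpos : ∀ a : ℝ, 0 < gauge (plr B) (a, 1) := fun a => hB'.gauge_pos (by simp)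
  -- the weight for the second moment
  have hw := (int_slope hB' x x).1
  have hw' : Integrable (fun a : ℝ => (pr (a, 1) x) ^ 2 * (gauge (plr B) (a, 1))⁻¹ ^ 4) := by
    refine hw.congr (Eventually.of_forall fun a => ?_)
    simp only
    ring
  obtain ⟨k1, k2⟩ := key hw' hm1 hε hε0 hm2 hm3
    (f := fun x : ℝ => x⁻¹ ^ 4) (f' := -((4 : ℕ) : ℝ)) (by fun_prop) (hasDeriv_invpow 4) (by simp)
  obtain ⟨l1, l2⟩ := log_vol_deriv hB' hj' hε hε0 hb' hτ
  have k1' : Integrable (fun α => τ α * (pr (α, 1) x) ^ 2 * (gauge (plr B) (α, 1))⁻¹ ^ 4) := by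
    refine k1.congr (Eventually.of_forall fun a => ?_)
    simp only
    ring
  refine ⟨k1', ?_⟩
  have hQint : ∀ {D : Set (ℝ × ℝ)}, IsBody D → 
      ∫ n in plr D, pr n x * pr n x = 
        1 / 2 * ∫ a : ℝ, (pr (a, 1) x) ^ 2 * (gauge (plr D) (a, 1))⁻¹ ^ 4 := by
    intro D hD
    rw [(int_slope hD.plr x x).2]
    congr 1
    congr 1
    ext a
    ring
  have hvpos : ∀ {D : Set (ℝ × ℝ)}, IsBody D → 0 < (volume (plr D)).toReal := by
    intro D hD
    have := hD.MV_pos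
    unfold MV at this
    exact (mul_pos_iff_of_pos_left (by
      by_contra h
      have h0 : (volume D).toReal = 0 := le_antisymm (not_lt.1 h) ENNReal.toReal_nonneg
      rw [h0, zero_mul] at this
      exact lt_irrefl _ this)).1 this
  have hMpos : ∀ {D : Set (ℝ × ℝ)}, IsBody D →
      0 < ∫ a : ℝ, (pr (a, 1) x) ^ 2 * (gauge (plr D) (a, 1))⁻¹ ^ 4 := by
    intro D hD
    have h1 := hD.Qf_pos hx
    unfold Qf at h1
    rw [hQint hD] at h1
    have h2 := hvpos hD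
    have h3 : 0 < 1 / 2 * ∫ a : ℝ, (pr (a, 1) x) ^ 2 * (gauge (plr D) (a, 1))⁻¹ ^ 4 := by
      rcases (div_pos_iff.1 h1) with h | h
      · exact h.1
      · exact absurd h.2 (not_lt.2 h2.le)
    linarith
  have hlogQ : ∀ {D : Set (ℝ × ℝ)}, IsBody D → Real.log (Qf D x x) =
      Real.log (1 / 2) + Real.log (∫ a : ℝ, (pr (a, 1) x) ^ 2 * (gauge (plr D) (a, 1))⁻¹ ^ 4) -
        Real.log (volume (plr D)).toReal := by
    intro D hD
    unfold Qf
    rw [hQint hD, Real.log_div (mul_pos (by norm_num) (hMpos hD)).ne' (hvpos hD).ne',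
      Real.log_mul (by norm_num) (hMpos hD).ne']
  have hvol : ∀ j, ∫ a : ℝ, (pr (a, 1) x) ^ 2 * (gauge (plr B) (a, 1))⁻¹ ^ 4 *
      (gauge (plr (Bj j)) (a, 1) / gauge (plr B) (a, 1))⁻¹ ^ 4 =
        ∫ a : ℝ, (pr (a, 1) x) ^ 2 * (gauge (plr (Bj j)) (a, 1))⁻¹ ^ 4 := by
    intro j
    congr 1
    ext a
    have := (hpos a).ne'
    rw [inv_div]
    field_simp
  simp only [hvol] at k2
  have h3 := seq_deriv (Real.hasDerivAt_log (hMpos hB).ne') (seq_to_zero hε hε0 k2) k2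
  have h4 := h3.sub l2
  have e1 : ∫ a : ℝ, τ a * (pr (a, 1) x ^ 2 * (gauge (plr B) (a, 1))⁻¹ ^ 4) =
      ∫ α, τ α * (pr (α, 1) x) ^ 2 * (gauge (plr B) (α, 1))⁻¹ ^ 4 := by
    congr 1
    ext a
    ring
  rw [e1] at h4
  have h6 : (∫ (a : ℝ), pr (a, 1) x ^ 2 * (gauge (plr B) (a, 1))⁻¹ ^ 4)⁻¹ *
      (-((4 : ℕ) : ℝ) * ∫ (α : ℝ), τ α * pr (α, 1) x ^ 2 * (gauge (plr B) (α, 1))⁻¹ ^ 4) -
        (-2 * ∫ (a : ℝ), τ a * (gauge (plr B) (a, 1))⁻¹ ^ 2) /
          ∫ (a : ℝ), (gauge (plr B) (a, 1))⁻¹ ^ 2 =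
      (-4 * (∫ α, τ α * (pr (α, 1) x) ^ 2 * (gauge (plr B) (α, 1))⁻¹ ^ 4) /
            (∫ α, (pr (α, 1) x) ^ 2 * (gauge (plr B) (α, 1))⁻¹ ^ 4) +
          2 * (∫ α, τ α * (gauge (plr B) (α, 1))⁻¹ ^ 2) /
            ∫ α, (gauge (plr B) (α, 1))⁻¹ ^ 2) := by
    push_cast
    ring
  rw [h6] at h4
  refine h4.congr fun j => ?_
  rw [hlogQ (hj j), hlogQ hB]
  ring

end Pool.Agent.Helper18.BL
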