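import Mathlib
import Pool.Agent.Helper18.BL.P1
import Pool.Agent.Helper18.BL.P2

set_option autoImplicit false

open Set MeasureTheory Filter Topology Metric

namespace Pool.Agent.Helper18.BL

private theorem pr_cont : Continuous (fun p : (ℝ × ℝ) × (ℝ × ℝ) => pr p.1 p.2) := by
  unfold pr
  fun_prop

private theorem pr_comm' (x y : ℝ × ℝ) : pr x y = pr y x := by
  simp only [pr]; ring

private theorem pr_add_right' (n x y : ℝ × ℝ) : pr n (x + y) = pr n x + pr n y := by
  simp only [pr, Prod.fst_add, Prod.snd_add]; ring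

private theorem pr_add_left' (n m x : ℝ × ℝ) : pr (n + m) x = pr n x + pr m x := by
  simp only [pr, Prod.fst_add, Prod.snd_add]; ring

private theorem pr_smul_right' (c : ℝ) (n x : ℝ × ℝ) : pr n (c • x) = c * pr n x := by
  simp only [pr, Prod.smul_fst, Prod.smul_snd, smul_eq_mul]; ring

private theorem pr_smul_left' (c : ℝ) (n x : ℝ × ℝ) : pr (c • n) x = c * pr n x := by
  simp only [pr, Prod.smul_fst, Prod.smul_snd, smul_eq_mul]; ring

private theorem pr_sub_right' (n x y : ℝ × ℝ) : pr n (x - y) = pr n x - pr n y := by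
  simp only [pr, Prod.fst_sub, Prod.snd_sub]; ring

/-- functionals in the polar are below the gauge -/
private theorem pr_le_gauge {B : Set (ℝ × ℝ)} (hB : IsBody B) {n : ℝ × ℝ} (hn : n ∈ plr B)
    (z : ℝ × ℝ) : pr n z ≤ gauge B z :=
  (hB.gauge_eq z).2 ⟨n, hn, rfl⟩

private theorem mem_plr_of_le {B : Set (ℝ × ℝ)} (hB : IsBody B) {n : ℝ × ℝ}
    (hn : ∀ z, pr n z ≤ gauge B z) : n ∈ plr B := fun z hz =>
  (hn z).trans ((hB.mem_iff_gauge z).1 hz)

/-- almost maximisers are near the unique maximiser -/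
private theorem near_unique {A : Set (ℝ × ℝ)} (hA : IsBody A) {x n : ℝ × ℝ} (_hn : n ∈ plr A)
    (huniq : ∀ n' ∈ plr A, pr n' x = gauge A x → n' = n) {η : ℝ} (_hη : 0 < η) :
    ∃ ρ > 0, ∀ m ∈ plr A, gauge A x - ρ < pr m x → dist m n < η := by
  by_cases hne : (plr A ∩ {m | η ≤ dist m n}).Nonempty
  · have hcomp : IsCompact (plr A ∩ {m | η ≤ dist m n}) :=
      hA.plr.compact.inter_right (isClosed_le continuous_const (continuous_id.dist continuous_const))
    have hc : Continuous (fun m : ℝ × ℝ => pr m x) := by unfold pr; fun_prop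
    obtain ⟨m₀, hm₀, hmax⟩ := hcomp.exists_isMaxOn hne hc.continuousOn
    have hlt : pr m₀ x < gauge A x := by
      refine lt_of_le_of_ne (pr_le_gauge hA hm₀.1 x) fun h => ?_
      have := huniq m₀ hm₀.1 h
      have h2 : η ≤ dist m₀ n := hm₀.2
      rw [this, dist_self] at h2
      linarith
    refine ⟨gauge A x - pr m₀ x, by linarith, fun m hm hlt' => ?_⟩
    by_contra hge
    have := hmax ⟨hm, not_lt.1 hge⟩
    simp only [mem_ofPred_eq] at this
    linarith
  · refine ⟨1, one_pos, fun m hm _ => ?_⟩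
    by_contra hge
    exact hne ⟨m, hm, not_lt.1 hge⟩

/-- the derivative of the gauges along a moving point -/
private theorem gauge_moving {A : Set (ℝ × ℝ)} (hA : IsBody A) {Aj : ℕ → Set (ℝ × ℝ)}
    (hj : ∀ j, IsBody (Aj j)) {ε : ℕ → ℝ} (hε : ∀ j, 0 < ε j) (hε0 : Tendsto ε atTop (𝓝 0))
    {Ct : ℝ} (hb : ∀ᶠ j in atTop, ∀ z, |gauge (Aj j) z - gauge A z| ≤ Ct * ε j * gauge A z)
    {x n v : ℝ × ℝ} (hn : n ∈ plr A) (huniq : ∀ n' ∈ plr A, pr n' x = gauge A x → n' = n)
    {y vj : ℕ → ℝ × ℝ} (hy : ∀ᶠ j in atTop, y j = x + ε j • vj j)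
    (hv : Tendsto vj atTop (𝓝 v)) {c : ℝ}
    (hc : Tendsto (fun j => (gauge (Aj j) x - gauge A x) / ε j) atTop (𝓝 c)) :
    Tendsto (fun j => (gauge (Aj j) (y j) - gauge A x) / ε j) atTop (𝓝 (c + pr n v)) := by
  -- maximisers
  have hex : ∀ j z, ∃ m ∈ plr (Aj j), pr m z = gauge (Aj j) z := fun j z => by
    obtain ⟨m, hm, h⟩ := ((hj j).gauge_eq z).1
    exact ⟨m, hm, h⟩
  choose N hN hNeq using hex
  have hCε : Tendsto (fun j => Ct * ε j) atTop (𝓝 0) := by simpa using hε0.const_mul Ct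
  have hy0 : Tendsto y atTop (𝓝 x) := by
    have h1 : Tendsto (fun j => x + ε j • vj j) atTop (𝓝 (x + (0 : ℝ) • v)) :=
      tendsto_const_nhds.add (hε0.smul hv)
    rw [zero_smul, add_zero] at h1
    exact h1.congr' (hy.mono fun j hj => hj.symm)
  -- convergence of gauges at convergent points
  have hgconv : ∀ z : ℕ → ℝ × ℝ, Tendsto z atTop (𝓝 x) →
      Tendsto (fun j => gauge (Aj j) (z j)) atTop (𝓝 (gauge A x)) := by
    intro z hz
    have h1 : Tendsto (fun j => gauge A (z j)) atTop (𝓝 (gauge A x)) :=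
      (hA.gauge_cont.tendsto x).comp hz
    have h2 : Tendsto (fun j => Ct * ε j * gauge A (z j)) atTop (𝓝 0) := by
      simpa using hCε.mul h1
    have h3 : Tendsto (fun j => gauge (Aj j) (z j) - gauge A (z j)) atTop (𝓝 0) := by
      refine squeeze_zero_norm' ?_ h2
      filter_upwards [hb] with j hj
      exact hj (z j)
    have h4 := h3.add h1
    simpa using h4
  -- maximisers at convergent points converge to `n`
  have hNconv : ∀ z : ℕ → ℝ × ℝ, Tendsto z atTop (𝓝 x) →
      Tendsto (fun j => N j (z j)) atTop (𝓝 n) := by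
    intro z hz
    have hs : Tendsto (fun j => (1 + Ct * ε j)⁻¹) atTop (𝓝 1) := by
      have := (tendsto_const_nhds (x := (1 : ℝ))).add hCε
      rw [add_zero] at this
      simpa using this.inv₀ one_ne_zero
    have hpos : ∀ᶠ j in atTop, 0 < 1 + Ct * ε j := by
      have := (tendsto_const_nhds (x := (1 : ℝ))).add hCε
      rw [add_zero] at this
      exact this.eventually (lt_mem_nhds one_pos)
    set M : ℕ → ℝ × ℝ := fun j => (1 + Ct * ε j)⁻¹ • N j (z j) with hM
    have hMmem : ∀ᶠ j in atTop, M j ∈ plr A := by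
      filter_upwards [hpos, hb] with j hp hbj
      apply mem_plr_of_le hA
      intro t
      rw [hM]
      simp only
      rw [pr_smul_left', inv_mul_le_iff₀ hp]
      have h1 := pr_le_gauge (hj j) (hN j (z j)) t
      have h2 := (abs_le.1 (hbj t)).2
      linarith
    have hMx : Tendsto (fun j => pr (M j) x) atTop (𝓝 (gauge A x)) := by
      have hbd : ∀ᶠ j in atTop, ‖M j‖ ≤ (hA.plr.compact.isBounded.exists_norm_le).choose := by
        filter_upwards [hMmem] with j hj
        exact (hA.plr.compact.isBounded.exists_norm_le).choose_spec _ hj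
      have h1 : Tendsto (fun j => pr (M j) (z j)) atTop (𝓝 (gauge A x)) := by
        have h2 : ∀ j, pr (M j) (z j) = (1 + Ct * ε j)⁻¹ * gauge (Aj j) (z j) := fun j => by
          rw [hM]
          simp only
          rw [pr_smul_left', hNeq]
        simp_rw [h2]
        simpa using hs.mul (hgconv z hz)
      have h3 : Tendsto (fun j => pr (M j) (x - z j)) atTop (𝓝 0) := by
        have hz0 : Tendsto (fun j => ‖x - z j‖) atTop (𝓝 0) := by
          have := (tendsto_const_nhds (x := x)).sub hz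
          rw [sub_self] at this
          simpa using this.norm
        set Cn := (hA.plr.compact.isBounded.exists_norm_le).choose
        have h4 : Tendsto (fun j => 2 * Cn * ‖x - z j‖) atTop (𝓝 0) := by
          simpa using hz0.const_mul (2 * Cn)
        refine squeeze_zero_norm' ?_ h4
        filter_upwards [hbd] with j hj
        rw [Real.norm_eq_abs]
        have e1 : |(M j).1| ≤ Cn := (norm_fst_le (M j)).trans hj
        have e2 : |(M j).2| ≤ Cn := (norm_snd_le (M j)).trans hj
        have e3 : |(x - z j).1| ≤ ‖x - z j‖ := norm_fst_le (x - z j)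
        have e4 : |(x - z j).2| ≤ ‖x - z j‖ := norm_snd_le (x - z j)
        calc |pr (M j) (x - z j)| ≤ |(M j).1 * (x - z j).1| + |(M j).2 * (x - z j).2| :=
              abs_add_le _ _
          _ ≤ Cn * ‖x - z j‖ + Cn * ‖x - z j‖ := by
              rw [abs_mul, abs_mul]
              exact add_le_add
                (mul_le_mul e1 e3 (abs_nonneg _) ((abs_nonneg _).trans e1))
                (mul_le_mul e2 e4 (abs_nonneg _) ((abs_nonneg _).trans e2))
          _ = 2 * Cn * ‖x - z j‖ := by ring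
      have h5 := h3.add h1
      rw [zero_add] at h5
      refine h5.congr fun j => ?_
      rw [pr_sub_right']
      ring
    have hMn : Tendsto M atTop (𝓝 n) := by
      rw [Metric.tendsto_nhds]
      intro η hη
      obtain ⟨ρ, hρ, hρ2⟩ := near_unique hA hn huniq hη
      filter_upwards [hMmem, hMx.eventually (lt_mem_nhds (by linarith : gauge A x - ρ < gauge A x))]
        with j h1 h2
      exact hρ2 _ h1 h2
    have h6 : Tendsto (fun j => (1 + Ct * ε j) • M j) atTop (𝓝 n) := by
      have := (tendsto_const_nhds (x := (1 : ℝ))).add hCε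
      rw [add_zero] at this
      simpa using this.smul hMn
    refine h6.congr' ?_
    filter_upwards [hpos] with j hp
    rw [hM]
    simp only
    rw [smul_smul, mul_inv_cancel₀ hp.ne', one_smul]
  -- the increments
  have hlow : Tendsto (fun j => pr (N j x) (vj j)) atTop (𝓝 (pr n v)) :=
    (pr_cont.tendsto (n, v)).comp ((hNconv (fun _ => x) tendsto_const_nhds).prodMk_nhds hv)
  have hupp : Tendsto (fun j => pr (N j (y j)) (vj j)) atTop (𝓝 (pr n v)) :=
    (pr_cont.tendsto (n, v)).comp ((hNconv y hy0).prodMk_nhds hv)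
  have hmid : Tendsto (fun j => (gauge (Aj j) (y j) - gauge (Aj j) x) / ε j) atTop
      (𝓝 (pr n v)) := by
    refine tendsto_of_tendsto_of_tendsto_of_le_of_le' hlow hupp ?_ ?_
    · filter_upwards [hy] with j hyj
      rw [le_div_iff₀ (hε j)]
      have h1 := pr_le_gauge (hj j) (hN j x) (y j)
      have h2 := hNeq j x
      rw [hyj, pr_add_right', pr_smul_right', h2] at h1
      rw [hyj]
      linarith
    · filter_upwards [hy] with j hyj
      rw [div_le_iff₀ (hε j)]
      have h1 := pr_le_gauge (hj j) (hN j (y j)) x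
      have h2 := hNeq j (y j)
      have h3 : x = y j - ε j • vj j := by rw [hyj]; simp
      have h4 : pr (N j (y j)) x = gauge (Aj j) (y j) - ε j * pr (N j (y j)) (vj j) := by
        conv_lhs => rw [h3]
        rw [pr_sub_right', pr_smul_right', h2]
      rw [h4] at h1
      linarith
  have := hc.add hmid
  refine this.congr fun j => ?_
  rw [← add_div]
  congr 1
  ring

/-- bound for the polar gauges -/
private theorem polar_bound {A : Set (ℝ × ℝ)} (hA : IsBody A) {Aj : ℕ → Set (ℝ × ℝ)}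
    (hj : ∀ j, IsBody (Aj j)) {ε : ℕ → ℝ} (hε : ∀ j, 0 < ε j) (hε0 : Tendsto ε atTop (𝓝 0))
    {Ct : ℝ} (hb : ∀ᶠ j in atTop, ∀ z, |gauge (Aj j) z - gauge A z| ≤ Ct * ε j * gauge A z) :
    ∀ᶠ j in atTop, ∀ z,
      |gauge (plr (Aj j)) z - gauge (plr A) z| ≤ (2 * |Ct|) * ε j * gauge (plr A) z := by
  have hCε : Tendsto (fun j => |Ct| * ε j) atTop (𝓝 0) := by simpa using hε0.const_mul |Ct|
  filter_upwards [hb, hCε.eventually (gt_mem_nhds (by norm_num : (0 : ℝ) < 1 / 2))]
    with j hbj hsm n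
  have hs0 : 0 ≤ |Ct| * ε j := mul_nonneg (abs_nonneg _) (hε j).le
  set s := |Ct| * ε j with hs
  have hb' : ∀ z, |gauge (Aj j) z - gauge A z| ≤ s * gauge A z := fun z =>
    (hbj z).trans (by
      rw [hs]
      have h1 : Ct ≤ |Ct| := le_abs_self _
      have h2 : 0 ≤ ε j * gauge A z := mul_nonneg (hε j).le (gauge_nonneg z)
      nlinarith)
  have hg0 : 0 ≤ gauge (plr A) n := gauge_nonneg n
  obtain ⟨⟨z1, hz1, hz1e⟩, hmax⟩ := hA.gauge_plr n
  obtain ⟨⟨z2, hz2, hz2e⟩, hmaxj⟩ := (hj j).gauge_plr n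
  simp only at hz1e hz2e
  -- scaling between the bodies
  have hup : gauge (plr (Aj j)) n ≤ (1 + 2 * s) * gauge (plr A) n := by
    have h1 := (hb' z2)
    have h2 := ((hj j).mem_iff_gauge z2).1 hz2
    have h3 := (abs_le.1 h1).1
    have h4 : (1 - s) * gauge A z2 ≤ 1 := by linarith
    have hm : (1 - s) • z2 ∈ A := by
      rw [hA.mem_iff_gauge, hA.gauge_smul, abs_of_pos (by linarith)]
      exact h4
    have h5 := hmax ⟨_, hm, rfl⟩
    simp only [pr_smul_right'] at h5
    rw [hz2e] at h5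
    have h6 : 0 ≤ gauge (plr (Aj j)) n := gauge_nonneg n
    have h7 := mul_le_mul_of_nonneg_left h5 (by linarith : (0 : ℝ) ≤ 1 + 2 * s)
    have h8 : 0 ≤ s * (1 - 2 * s) * gauge (plr (Aj j)) n :=
      mul_nonneg (mul_nonneg hs0 (by linarith)) h6
    nlinarith
  have hlo : gauge (plr A) n ≤ (1 + s) * gauge (plr (Aj j)) n := by
    have h1 := (hb' z1)
    have h2 := (hA.mem_iff_gauge z1).1 hz1
    have h3 := (abs_le.1 h1).2
    have hg1 : 0 ≤ gauge A z1 := gauge_nonneg z1
    have h4 : gauge (Aj j) z1 ≤ 1 + s := by nlinarith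
    have hp : 0 < 1 + s := by linarith
    have hm : (1 + s)⁻¹ • z1 ∈ Aj j := by
      rw [(hj j).mem_iff_gauge, (hj j).gauge_smul, abs_of_pos (inv_pos.2 hp),
        inv_mul_le_iff₀ hp, mul_one]
      exact h4
    have h5 := hmaxj ⟨_, hm, rfl⟩
    simp only [pr_smul_right'] at h5
    rw [hz1e, inv_mul_le_iff₀ hp] at h5
    exact h5
  rw [abs_le]
  have hfin : 2 * |Ct| * ε j = 2 * s := by rw [hs]; ring
  rw [hfin]
  constructor
  · have h7 : 0 ≤ gauge (plr (Aj j)) n := gauge_nonneg n
    nlinarith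
  · nlinarith

/-- the gauge of an image -/
private theorem gauge_image (T : (ℝ × ℝ) ≃ₗ[ℝ] (ℝ × ℝ)) (B : Set (ℝ × ℝ)) (z : ℝ × ℝ) :
    gauge (T '' B) z = gauge B (T.symm z) := by
  unfold gauge
  congr 1
  ext r
  constructor
  · rintro ⟨hr, y, hy, hyz⟩
    obtain ⟨x, hx, rfl⟩ := hy
    refine ⟨hr, x, hx, ?_⟩
    simp only at hyz ⊢
    rw [← hyz]
    simp
  · rintro ⟨hr, y, hy, hyz⟩
    refine ⟨hr, T y, ⟨y, hy, rfl⟩, ?_⟩
    simp only at hyz ⊢
    rw [← map_smul, hyz]
    simp

/-- `gauge B (L z) ≤ M gauge B z` -/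
private theorem exists_op_bound {B : Set (ℝ × ℝ)} (hB : IsBody B) (L : (ℝ × ℝ) →ₗ[ℝ] (ℝ × ℝ)) :
    ∃ M : ℝ, 0 ≤ M ∧ ∀ z, gauge B (L z) ≤ M * gauge B z := by
  have hLc : Continuous L := LinearMap.continuous_of_finiteDimensional L
  obtain ⟨M, hM⟩ := (hB.compact.image (hB.gauge_cont.comp hLc)).isBounded.exists_norm_le
  have hM0 : 0 ≤ M := (norm_nonneg _).trans (hM _ ⟨0, interior_subset hB.zero_int, rfl⟩)
  refine ⟨M, hM0, fun z => ?_⟩
  by_cases hz : z = 0
  · simp [hz]
  have hg := hB.gauge_pos hz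
  have hmem : (gauge B z)⁻¹ • z ∈ B := by
    rw [hB.mem_iff_gauge, hB.gauge_smul, abs_of_pos (inv_pos.2 hg), inv_mul_cancel₀ hg.ne']
  have h1 := hM _ ⟨_, hmem, rfl⟩
  simp only [Function.comp] at h1
  rw [Real.norm_eq_abs, abs_of_nonneg (gauge_nonneg _), map_smul, hB.gauge_smul,
    abs_of_pos (inv_pos.2 hg), inv_mul_le_iff₀ hg] at h1
  linarith

/-- PB6c. Near-identity linear changes. `T j = id + ε j • L`. -/
theorem gauge_lin_deriv {B : Set (ℝ × ℝ)} (hB : IsBody B) {Bj : ℕ → Set (ℝ × ℝ)}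
    (hj : ∀ j, IsBody (Bj j)) {ε : ℕ → ℝ} (hε : ∀ j, 0 < ε j) (hε0 : Tendsto ε atTop (𝓝 0))
    {Ct : ℝ} (hb : ∀ᶠ j in atTop, ∀ z, |gauge (Bj j) z - gauge B z| ≤ Ct * ε j * gauge B z)
    (L : (ℝ × ℝ) →ₗ[ℝ] (ℝ × ℝ)) (T : ℕ → (ℝ × ℝ) ≃ₗ[ℝ] (ℝ × ℝ))
    (hT : ∀ᶠ j in atTop, ∀ z, T j z = z + ε j • L z) :
    (∃ Ct' : ℝ, ∀ᶠ j in atTop, ∀ z,
      |gauge (T j '' Bj j) z - gauge B z| ≤ Ct' * ε j * gauge B z) ∧
    (∀ a : ℝ, ∀ c : ℝ, ∀ n ∈ plr B, (∀ n' ∈ plr B, pr n' (a, 1) = gauge B (a, 1) → n' = n) →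
      Tendsto (fun j => (gauge (Bj j) (a, 1) - gauge B (a, 1)) / ε j) atTop (𝓝 c) →
      Tendsto (fun j => (gauge (T j '' Bj j) (a, 1) - gauge B (a, 1)) / ε j) atTop
        (𝓝 (c - pr n (L (a, 1))))) ∧
    (∀ n : ℝ × ℝ, ∀ c : ℝ, ∀ w ∈ B, (∀ w' ∈ B, pr n w' = gauge (plr B) n → w' = w) →
      Tendsto (fun j => (gauge (plr (Bj j)) n - gauge (plr B) n) / ε j) atTop (𝓝 c) →
      Tendsto (fun j => (gauge (plr (T j '' Bj j)) n - gauge (plr B) n) / ε j) atTop
        (𝓝 (c + pr n (L w)))) := by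
  obtain ⟨M, hM0, hM⟩ := exists_op_bound hB L
  have hMε : Tendsto (fun j => M * ε j) atTop (𝓝 0) := by simpa using hε0.const_mul M
  -- control of the preimages
  have hpre : ∀ᶠ j in atTop, ∀ z, gauge B ((T j).symm z) ≤ 2 * gauge B z := by
    filter_upwards [hT, hMε.eventually (gt_mem_nhds (by norm_num : (0 : ℝ) < 1 / 2))]
      with j hTj hsm z
    set y := (T j).symm z with hy
    have hz : z = y + ε j • L y := by
      rw [← hTj y, hy]; simp
    have h1 : gauge B y ≤ gauge B z + gauge B (-(ε j • L y)) := by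
      have : y = z + -(ε j • L y) := by rw [hz]; abel
      calc gauge B y = gauge B (z + -(ε j • L y)) := by rw [← this]
        _ ≤ _ := hB.gauge_add _ _
    rw [hB.gauge_neg, hB.gauge_smul, abs_of_pos (hε j)] at h1
    have h2 := mul_le_mul_of_nonneg_left (hM y) (hε j).le
    have h3 : 0 ≤ gauge B y := gauge_nonneg y
    nlinarith
  refine ⟨⟨2 * |Ct| + 2 * M, ?_⟩, ?_, ?_⟩
  · filter_upwards [hT, hpre, hb] with j hTj hpj hbj z
    rw [gauge_image]
    set y := (T j).symm z with hy
    have hz : z = y + ε j • L y := by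
      rw [← hTj y, hy]; simp
    have h0 : gauge B y ≤ 2 * gauge B z := hpj z
    have hgy : 0 ≤ gauge B y := gauge_nonneg y
    have hgz : 0 ≤ gauge B z := gauge_nonneg z
    have h1 : gauge B z ≤ gauge B y + ε j * (M * gauge B y) := by
      have h := hB.gauge_add y (ε j • L y)
      rw [← hz, hB.gauge_smul, abs_of_pos (hε j)] at h
      exact h.trans (add_le_add le_rfl (mul_le_mul_of_nonneg_left (hM y) (hε j).le))
    have h2 : gauge B y ≤ gauge B z + ε j * (M * gauge B y) := by
      have h := hB.gauge_add z (-(ε j • L y))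
      have e : z + -(ε j • L y) = y := by rw [hz]; abel
      rw [e, hB.gauge_neg, hB.gauge_smul, abs_of_pos (hε j)] at h
      exact h.trans (add_le_add le_rfl (mul_le_mul_of_nonneg_left (hM y) (hε j).le))
    have h3 := abs_le.1 (hbj y)
    have h4 : Ct * ε j * gauge B y ≤ 2 * |Ct| * ε j * gauge B z := by
      have e1 : Ct * (ε j * gauge B y) ≤ |Ct| * (ε j * gauge B y) :=
        mul_le_mul_of_nonneg_right (le_abs_self _) (mul_nonneg (hε j).le hgy)
      have e2 : |Ct| * (ε j * gauge B y) ≤ |Ct| * (ε j * (2 * gauge B z)) :=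
        mul_le_mul_of_nonneg_left (mul_le_mul_of_nonneg_left h0 (hε j).le) (abs_nonneg _)
      nlinarith
    have h5 : ε j * (M * gauge B y) ≤ 2 * M * ε j * gauge B z := by
      have e3 : M * gauge B y ≤ M * (2 * gauge B z) := mul_le_mul_of_nonneg_left h0 hM0
      have e4 := mul_le_mul_of_nonneg_left e3 (hε j).le
      nlinarith
    rw [abs_le]
    constructor <;> nlinarith [h3.1, h3.2]
  · intro a c n hn huniq hc
    have hsym : ∀ᶠ j in atTop, (T j).symm (a, 1)
        = (a, 1) + ε j • (-(L ((T j).symm (a, 1)))) := by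
      filter_upwards [hT] with j hTj
      have h := hTj ((T j).symm (a, 1))
      simp only [LinearEquiv.apply_symm_apply] at h
      rw [smul_neg, ← sub_eq_add_neg, eq_sub_iff_add_eq]
      exact h.symm
    have hlim : Tendsto (fun j => (T j).symm (a, (1 : ℝ))) atTop (𝓝 (a, 1)) := by
      -- boundedness of the preimages and smallness of ε
      have hbdd : ∃ R : ℝ, ∀ z, gauge B z ≤ 2 * gauge B (a, 1) → ‖L z‖ ≤ R := by
        have hLc : Continuous L := LinearMap.continuous_of_finiteDimensional L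
        set r := 2 * gauge B (a, (1 : ℝ)) + 1 with hr
        have hg0 : 0 ≤ gauge B (a, (1 : ℝ)) := gauge_nonneg _
        have hr0 : 0 < r := by linarith
        have hcomp : IsCompact ((fun z : ℝ × ℝ => r • z) '' B) :=
          hB.compact.image (continuous_const_smul r)
        obtain ⟨R, hR⟩ := (hcomp.image hLc).isBounded.exists_norm_le
        refine ⟨R, fun z hz => hR _ ⟨z, ⟨r⁻¹ • z, ?_, ?_⟩, rfl⟩⟩
        · rw [hB.mem_iff_gauge, hB.gauge_smul, abs_of_pos (inv_pos.2 hr0),
            inv_mul_le_iff₀ hr0]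
          linarith
        · simp only
          rw [smul_smul, mul_inv_cancel₀ hr0.ne', one_smul]
      obtain ⟨R, hR⟩ := hbdd
      rw [tendsto_iff_norm_sub_tendsto_zero]
      have h1 : Tendsto (fun j => ε j * R) atTop (𝓝 0) := by simpa using hε0.mul_const R
      refine squeeze_zero' (Eventually.of_forall fun j => norm_nonneg _) ?_ h1
      filter_upwards [hsym, hpre] with j hs hp
      have h2 : (T j).symm (a, (1 : ℝ)) - (a, 1) = ε j • (-(L ((T j).symm (a, 1)))) := by
        conv_lhs => rw [hs]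
        simp
      rw [h2, norm_smul, norm_neg, Real.norm_eq_abs, abs_of_pos (hε j)]
      exact mul_le_mul_of_nonneg_left (hR _ (hp _)) (hε j).le
    have hLc : Continuous L := LinearMap.continuous_of_finiteDimensional L
    have hv : Tendsto (fun j => -(L ((T j).symm (a, (1 : ℝ))))) atTop (𝓝 (-(L (a, 1)))) :=
      ((hLc.tendsto _).comp hlim).neg
    have h := gauge_moving hB hj hε hε0 hb hn huniq hsym hv hc
    have e : c + pr n (-(L (a, 1))) = c - pr n (L (a, 1)) := by
      simp only [pr, Prod.fst_neg, Prod.snd_neg]; ring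
    rw [e] at h
    refine h.congr fun j => ?_
    rw [gauge_image]
  · intro n c w hw huniq hc
    set Ls : ℝ × ℝ := (pr n (L (1, 0)), pr n (L (0, 1))) with hLs
    have hadj : ∀ z, pr Ls z = pr n (L z) := by
      intro z
      have hz : z = z.1 • ((1 : ℝ), (0 : ℝ)) + z.2 • ((0 : ℝ), (1 : ℝ)) := by
        ext <;> simp
      conv_rhs => rw [hz]
      rw [map_add, map_smul, map_smul, pr_add_right', pr_smul_right', pr_smul_right']
      simp only [pr, hLs]
      ring
    have hpl : ∀ᶠ j in atTop, gauge (plr (T j '' Bj j)) n = gauge (plr (Bj j)) (n + ε j • Ls) := by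
      filter_upwards [hT] with j hTj
      have h1 := ((hj j).image (T j)).gauge_plr n
      have h2 := (hj j).gauge_plr (n + ε j • Ls)
      have hset : (fun z => pr n z) '' (T j '' Bj j) = (fun z => pr (n + ε j • Ls) z) '' Bj j := by
        rw [image_image]
        apply image_congr
        intro z _
        rw [hTj, pr_add_right', pr_smul_right', pr_add_left', pr_smul_left', hadj]
      rw [hset] at h1
      exact h1.unique h2
    have hw' : w ∈ plr (plr B) := by rw [hB.plr_plr]; exact hw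
    have huniq' : ∀ w' ∈ plr (plr B), pr w' n = gauge (plr B) n → w' = w := by
      intro w' hw2 he
      rw [hB.plr_plr] at hw2
      exact huniq w' hw2 (by rw [pr_comm']; exact he)
    have hbp := polar_bound hB hj hε hε0 hb
    have h := gauge_moving (v := Ls) (vj := fun _ => Ls) (y := fun j => n + ε j • Ls) hB.plr
      (fun j => (hj j).plr) hε hε0 hbp hw' huniq' (Eventually.of_forall fun j => rfl)
      tendsto_const_nhds hc
    have e : pr w Ls = pr n (L w) := by rw [pr_comm', hadj]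
    rw [e] at h
    refine h.congr' ?_
    filter_upwards [hpl] with j hpj
    rw [hpj]

end Pool.Agent.Helper18.BL
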