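import Mathlib
import Pool.Agent.Helper18.BL.P1

set_option autoImplicit false

open Set MeasureTheory Filter Topology Metric

namespace Pool.Agent.Helper18.BL

/-- PB6d. For all but countably many slopes the supporting point / normal is unique. -/
theorem ae_unique {B : Set (ℝ × ℝ)} (hB : IsBody B) :
    (∀ᵐ a : ℝ, DifferentiableAt ℝ (fun s : ℝ => gauge B (s, 1)) a ∧ ∀ n ∈ plr B,
      pr n (a, 1) = gauge B (a, 1) →
      n = (deriv (fun s : ℝ => gauge B (s, 1)) a,
        gauge B (a, 1) - a * deriv (fun s : ℝ => gauge B (s, 1)) a)) := by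
  set g : ℝ → ℝ := fun s => gauge B (s, 1) with hg
  have hLip : LipschitzWith (Real.toNNReal (gauge B (1, 0))) g := by
    apply LipschitzWith.of_dist_le_mul
    intro s s'
    have h10 : (0 : ℝ) ≤ gauge B (1, 0) := gauge_nonneg _
    rw [Real.coe_toNNReal _ h10, Real.dist_eq, Real.dist_eq]
    have key : ∀ s s' : ℝ, g s - g s' ≤ gauge B (1, 0) * |s - s'| := by
      intro s s'
      have h1 := hB.gauge_add (s', 1) ((s - s') • ((1, 0) : ℝ × ℝ))
      rw [hB.gauge_smul] at h1
      have h2 : ((s', 1) : ℝ × ℝ) + (s - s') • ((1, 0) : ℝ × ℝ) = (s, 1) := by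
        ext <;> simp
      rw [h2] at h1
      simp only [hg]
      linarith
    rw [abs_le]
    constructor
    · have := key s' s
      rw [abs_sub_comm] at this
      linarith
    · exact key s s'
  filter_upwards [hLip.ae_differentiableAt_real] with a ha
  refine ⟨ha, fun n hn hpr => ?_⟩
  have hmin : IsLocalMin (fun s => g s - (n.1 * s + n.2)) a := by
    apply Filter.Eventually.of_forall
    intro s
    have h1 : pr n (s, 1) ≤ gauge B (s, 1) := (hB.gauge_eq (s, 1)).2 ⟨n, hn, rfl⟩
    have h2 : g a - (n.1 * a + n.2) = 0 := by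
      simp only [hg, ← hpr, pr]; ring
    simp only [pr] at h1
    show g a - (n.1 * a + n.2) ≤ g s - (n.1 * s + n.2)
    rw [h2]
    simp only [hg]
    linarith
  have hd : HasDerivAt (fun s => g s - (n.1 * s + n.2)) (deriv g a - n.1) a := by
    have h1 : HasDerivAt (fun s : ℝ => n.1 * s + n.2) (n.1) a := by
      simpa using ((hasDerivAt_id a).const_mul n.1).add_const n.2
    exact ha.hasDerivAt.sub h1
  have h0 := hmin.hasDerivAt_eq_zero hd
  have h1 : n.1 = deriv g a := by linarith
  have h2 : n.2 = g a - a * deriv g a := by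
    rw [← h1]
    simp only [hg, ← hpr, pr]; ring
  exact Prod.ext h1 h2

end Pool.Agent.Helper18.BL
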