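import Mathlib
import Pool.Agent.Helper18.BL.P1
import Pool.Agent.Helper18.BL.P2

set_option autoImplicit false

open Set MeasureTheory Filter Topology Metric

namespace Pool.Agent.Helper18.BL

/-- PB6e. Lower bound for the variance of the polar body. (Use the maps `z ↦ ½(±e) + ½ z` of the
polar body into itself, where `e = (1,0)` belongs to the polar body.) -/
theorem Qf_lower {B : Set (ℝ × ℝ)} (hB : IsBody B) (h10 : ((1 : ℝ), (0 : ℝ)) ∈ B)
    (hx : ∀ z ∈ B, |z.1| ≤ 1) :
    1 / 16 ≤ Qf B (1, 0) (1, 0) ∧ Qf B (1, 0) (1, 0) ≤ 1 := by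
  have hD := hB.plr
  set D := plr B with hDdef
  have hDm : MeasurableSet D := hD.compact.measurableSet
  have hDfin : volume D < ⊤ := hD.compact.measure_lt_top
  have hDpos : 0 < volume D :=
    lt_of_lt_of_le (isOpen_interior.measure_pos volume ⟨0, hD.zero_int⟩)
      (measure_mono interior_subset)
  have hV : 0 < (volume D).toReal := ENNReal.toReal_pos hDpos.ne' hDfin.ne
  have hpr : ∀ n : ℝ × ℝ, pr n (1, 0) = n.1 := fun n => by simp [pr]
  have he : ((1 : ℝ), (0 : ℝ)) ∈ D := by
    intro z hz
    have := (abs_le.1 (hx z hz)).2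
    simpa [pr] using this
  have hle1 : ∀ n ∈ D, |n.1| ≤ 1 := by
    intro n hn
    have h1 := hn _ h10
    have h2 := hn _ (hB.symm _ h10)
    simp only [pr, Prod.fst_neg, Prod.snd_neg] at h1 h2
    rw [abs_le]
    constructor <;> linarith
  have hint : ∀ f : ℝ × ℝ → ℝ, Continuous f → IntegrableOn f D := fun f hf =>
    hf.continuousOn.integrableOn_compact hD.compact
  have hQ : Qf B (1, 0) (1, 0) = (∫ n in D, n.1 ^ 2) / (volume D).toReal := by
    simp only [Qf, hpr, ← hDdef, pow_two]
  have hvol : ∫ _ in D, (1 : ℝ) = (volume D).toReal := by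
    simp [Measure.real]
  -- the first moment vanishes
  have hodd : ∫ n in D, n.1 = 0 := by
    have h1 : ∫ n in D, n.1 = ∫ n, D.indicator (fun n => n.1) n := by
      rw [integral_indicator hDm]
    have h2 : ∫ n, D.indicator (fun n : ℝ × ℝ => n.1) (-n) = ∫ n, D.indicator (fun n => n.1) n :=
      integral_neg_eq_self (fun n => D.indicator (fun n : ℝ × ℝ => n.1) n) volume
    have h3 : ∀ n : ℝ × ℝ, D.indicator (fun n : ℝ × ℝ => n.1) (-n)
        = - D.indicator (fun n : ℝ × ℝ => n.1) n := by
      intro n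
      by_cases hn : n ∈ D
      · rw [indicator_of_mem hn, indicator_of_mem (hD.symm _ hn)]
        rfl
      · have : -n ∉ D := fun h => hn (by simpa using hD.symm _ h)
        rw [indicator_of_notMem hn, indicator_of_notMem this, neg_zero]
    simp_rw [h3] at h2
    rw [integral_neg] at h2
    rw [h1]
    linarith
  constructor
  · rw [hQ, le_div_iff₀ hV]
    -- the image of `D` under `z ↦ (z + e) / 2`
    set G : ℝ × ℝ → ℝ := fun n =>
      D.indicator (fun z : ℝ × ℝ => ((z.1 + 1) / 2) ^ 2) ((2 : ℝ) • n - ((1 : ℝ), (0 : ℝ))) with hG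
    have hGle : ∀ n, G n ≤ D.indicator (fun n : ℝ × ℝ => n.1 ^ 2) n := by
      intro n
      simp only [hG]
      by_cases h : (2 : ℝ) • n - ((1 : ℝ), (0 : ℝ)) ∈ D
      · have hn : n ∈ D := by
          have := hD.convex h he (a := 1 / 2) (b := 1 / 2) (by norm_num) (by norm_num)
            (by norm_num)
          convert this using 1
          ext <;> simp <;> ring
        rw [indicator_of_mem h, indicator_of_mem hn]
        simp only [Prod.fst_sub, Prod.smul_fst, smul_eq_mul]
        apply le_of_eq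
        ring
      · rw [indicator_of_notMem h]
        apply indicator_nonneg
        intro z _
        positivity
    have hGint : ∫ n, G n = (1 / 4) * ∫ z in D, ((z.1 + 1) / 2) ^ 2 := by
      have h1 : ∀ n, G n = (fun m : ℝ × ℝ => D.indicator (fun z : ℝ × ℝ => ((z.1 + 1) / 2) ^ 2)
          (m - ((1 : ℝ), (0 : ℝ)))) ((2 : ℝ) • n) := fun n => rfl
      simp_rw [h1]
      rw [Measure.integral_comp_smul volume
        (fun m : ℝ × ℝ => D.indicator (fun z : ℝ × ℝ => ((z.1 + 1) / 2) ^ 2)
          (m - ((1 : ℝ), (0 : ℝ)))) 2]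
      rw [integral_sub_right_eq_self (fun m : ℝ × ℝ =>
        D.indicator (fun z : ℝ × ℝ => ((z.1 + 1) / 2) ^ 2) m) ((1 : ℝ), (0 : ℝ))]
      rw [integral_indicator hDm]
      simp
      norm_num
    have hGI : Integrable G := by
      have h0 : Integrable (D.indicator (fun z : ℝ × ℝ => ((z.1 + 1) / 2) ^ 2)) :=
        (integrable_indicator_iff hDm).2 (hint _ (by fun_prop))
      have h1 := (h0.comp_sub_right ((1 : ℝ), (0 : ℝ)))
      exact h1.comp_smul (R := (2 : ℝ)) two_ne_zero
    have h2 : ∫ n, G n ≤ ∫ n in D, n.1 ^ 2 := by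
      rw [← integral_indicator hDm]
      exact integral_mono hGI ((integrable_indicator_iff hDm).2 (hint _ (by fun_prop))) hGle
    have h3 : ∫ z in D, ((z.1 + 1) / 2) ^ 2
        = (1 / 4) * ((∫ z in D, z.1 ^ 2) + (volume D).toReal) := by
      have e1 : ∀ z : ℝ × ℝ, ((z.1 + 1) / 2) ^ 2
          = (1 / 4) * (z.1 ^ 2 + (2 * z.1 + 1)) := fun z => by ring
      simp_rw [e1]
      rw [integral_const_mul, integral_add (hint _ (by fun_prop)) (hint _ (by fun_prop)),
        integral_add (hint _ (by fun_prop)) (hint _ (by fun_prop)), integral_const_mul, hodd, hvol]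
      ring
    have h4 : 0 ≤ ∫ z in D, z.1 ^ 2 := integral_nonneg fun z => by positivity
    rw [hGint, h3] at h2
    linarith
  · rw [hQ, div_le_one hV, ← hvol]
    refine setIntegral_mono_on (hint _ (by fun_prop)) (hint _ (by fun_prop)) hDm ?_
    intro n hn
    have := hle1 n hn
    have h5 : n.1 ^ 2 = |n.1| ^ 2 := (sq_abs _).symm
    rw [h5]
    nlinarith [abs_nonneg n.1]

end Pool.Agent.Helper18.BL
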