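import Mathlib
import Pool.Agent.Helper18.BL.P5
import Pool.Agent.Helper18.BL.P6a
import Pool.Agent.Helper18.BL.P6b
import Pool.Agent.Helper18.BL.P6c
import Pool.Agent.Helper18.BL.P6d
import Pool.Agent.Helper18.BL.P4c
import Pool.Agent.Helper18.BL.P9

set_option autoImplicit false

open Set MeasureTheory Filter Topology Metric

namespace Pool.Agent.Helper18.BL

/-- composition of a difference quotient along a sequence with a differentiable function -/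
private theorem seq_deriv {f : ℝ → ℝ} {f' x D : ℝ} (hf : HasDerivAt f f' x) {xj ε : ℕ → ℝ}
    (hx : Tendsto xj atTop (𝓝 x)) (hD : Tendsto (fun j => (xj j - x) / ε j) atTop (𝓝 D)) :
    Tendsto (fun j => (f (xj j) - f x) / ε j) atTop (𝓝 (f' * D)) := by
  have h1 : ContinuousAt (dslope f x) x := continuousAt_dslope_same.2 hf.differentiableAt
  have h2 : Tendsto (fun j => dslope f x (xj j)) atTop (𝓝 f') := by
    have := h1.tendsto.comp hx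
    rwa [dslope_same, hf.deriv] at this
  have h3 := h2.mul hD
  refine h3.congr fun j => ?_
  have := sub_smul_dslope f x (xj j)
  rw [smul_eq_mul] at this
  rw [← this]
  ring

private theorem seq_to_zero {x D : ℝ} {xj ε : ℕ → ℝ} (hε : ∀ j, 0 < ε j)
    (hε0 : Tendsto ε atTop (𝓝 0))
    (hD : Tendsto (fun j => (xj j - x) / ε j) atTop (𝓝 D)) :
    Tendsto xj atTop (𝓝 x) := by
  have h := hD.mul hε0
  rw [mul_zero] at h
  have h2 : Tendsto (fun j => xj j - x) atTop (𝓝 0) := by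
    refine h.congr fun j => ?_
    field_simp [(hε j).ne']
  have h3 := h2.add_const x
  simpa using h3

private theorem pr_add (n x y : ℝ × ℝ) : pr n (x + y) = pr n x + pr n y := by
  simp only [pr, Prod.fst_add, Prod.snd_add]; ring

private theorem pr_smul (n x : ℝ × ℝ) (c : ℝ) : pr n (c • x) = c * pr n x := by
  simp only [pr, Prod.smul_fst, Prod.smul_snd, smul_eq_mul]; ring

private theorem pr_comm (n x : ℝ × ℝ) : pr n x = pr x n := by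
  simp only [pr]; ring

/-- near-identity linear equivalences -/
private theorem exists_T (L : (ℝ × ℝ) →ₗ[ℝ] (ℝ × ℝ)) {ε : ℕ → ℝ} (hε0 : Tendsto ε atTop (𝓝 0)) :
    ∃ T : ℕ → (ℝ × ℝ) ≃ₗ[ℝ] (ℝ × ℝ), ∀ᶠ j in atTop, ∀ z, T j z = z + ε j • L z := by
  classical
  let f : ℕ → (ℝ × ℝ) →ₗ[ℝ] (ℝ × ℝ) := fun j => LinearMap.id + ε j • L
  refine ⟨fun j => if h : Function.Injective (f j) then LinearEquiv.ofInjectiveEndo (f j) h
    else LinearEquiv.refl ℝ _, ?_⟩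
  have hc : Continuous L := L.continuous_of_finiteDimensional
  obtain ⟨M, hM0, hM⟩ : ∃ M : ℝ, 0 < M ∧ ∀ z, ‖L z‖ ≤ M * ‖z‖ :=
    ContinuousLinearMap.bound (⟨L, hc⟩ : (ℝ × ℝ) →L[ℝ] (ℝ × ℝ))
  have h0 : Tendsto (fun j => |ε j| * M) atTop (𝓝 0) := by
    simpa using (hε0.abs).mul_const M
  filter_upwards [h0.eventually (gt_mem_nhds one_pos)] with j hj z
  have hinj : Function.Injective (f j) := by
    rw [← LinearMap.ker_eq_bot, LinearMap.ker_eq_bot']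
    intro z hz
    have hz' : z + ε j • L z = 0 := hz
    by_contra hne
    have hn : 0 < ‖z‖ := norm_pos_iff.2 hne
    have h1 : ‖z‖ = ‖ε j • L z‖ := by
      have h3 : z = -(ε j • L z) := eq_neg_of_add_eq_zero_left hz'
      calc ‖z‖ = ‖-(ε j • L z)‖ := congrArg norm h3
        _ = _ := norm_neg _
    rw [norm_smul, Real.norm_eq_abs] at h1
    have h2 := mul_le_mul_of_nonneg_left (hM z) (abs_nonneg (ε j))
    nlinarith
  rw [dif_pos hinj]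
  rfl

private theorem vol_pos {B : Set (ℝ × ℝ)} (hB : IsBody B) :
    0 < (volume B).toReal ∧ 0 < (volume (plr B)).toReal := by
  have h := hB.MV_pos
  unfold MV at h
  have h1 : 0 ≤ (volume B).toReal := ENNReal.toReal_nonneg
  have h2 : 0 ≤ (volume (plr B)).toReal := ENNReal.toReal_nonneg
  rcases h1.eq_or_lt with h3 | h3
  · rw [← h3, zero_mul] at h; exact absurd h (lt_irrefl _)
  · rcases h2.eq_or_lt with h4 | h4
    · rw [← h4, mul_zero] at h; exact absurd h (lt_irrefl _)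
    · exact ⟨h3, h4⟩

private theorem abs_pr_le {B : Set (ℝ × ℝ)} (hB : IsBody B) {n w : ℝ × ℝ} (hn : n ∈ plr B)
    (hw : w ∈ B) : |pr n w| ≤ 1 := by
  rw [abs_le]
  have h1 := hn w hw
  have h2 := hn (-w) (hB.symm w hw)
  have h3 : pr n (-w) = - pr n w := by simp only [pr, Prod.fst_neg, Prod.snd_neg]; ring
  constructor <;> linarith

private theorem Qf_le_one {B : Set (ℝ × ℝ)} (hB : IsBody B) {w : ℝ × ℝ} (hw : w ∈ B) :
    Qf B w w ≤ 1 := by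
  unfold Qf
  have hv := (vol_pos hB).2
  rw [div_le_one hv]
  have hc := hB.plr.compact
  have hfin : volume (plr B) ≠ ⊤ := hc.measure_lt_top.ne
  have h1 : ∫ n in plr B, pr n w * pr n w ≤ ∫ n in plr B, (1 : ℝ) := by
    refine setIntegral_mono_on ?_ ?_ hc.measurableSet ?_
    · refine ContinuousOn.integrableOn_compact hc ?_
      unfold pr
      fun_prop
    · exact integrableOn_const hfin
    · intro n hn
      have := abs_pr_le hB hn hw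
      have h2 := abs_mul_abs_self (pr n w)
      nlinarith [abs_nonneg (pr n w)]
  refine h1.trans ?_
  rw [setIntegral_const]
  simp [Measure.real]

private theorem Qf_quad {B : Set (ℝ × ℝ)} (hB : IsBody B) (κ x : ℝ × ℝ) (c : ℝ) :
    Qf B (κ + c • x) (κ + c • x) = Qf B κ κ + c * (2 * Qf B κ x + c * Qf B x x) := by
  rw [hB.Qf_add_left, hB.Qf_smul_left, IsBody.Qf_comm _ κ (κ + _),
      IsBody.Qf_comm _ x (κ + _), hB.Qf_add_left, hB.Qf_smul_left,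
      hB.Qf_add_left, hB.Qf_smul_left, IsBody.Qf_comm _ x κ]
  ring

private theorem Qf_cs {B : Set (ℝ × ℝ)} (hB : IsBody B) {x : ℝ × ℝ} (hx : x ≠ 0) (w : ℝ × ℝ) :
    (Qf B x w) ^ 2 ≤ Qf B x x * Qf B w w := by
  have ha := hB.Qf_pos hx
  have hnn : ∀ y, 0 ≤ Qf B y y := by
    intro y
    by_cases hy : y = 0
    · subst hy
      have := hB.Qf_smul_left 0 (0 : ℝ × ℝ) (0 : ℝ × ℝ)
      simp at this
      rw [this]
    · exact (hB.Qf_pos hy).le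
  have h := hnn (w + (-(Qf B x w / Qf B x x)) • x)
  have e : Qf B (w + (-(Qf B x w / Qf B x x)) • x) (w + (-(Qf B x w / Qf B x x)) • x) =
      Qf B w w - (Qf B x w) ^ 2 / Qf B x x := by
    rw [hB.Qf_add_left, hB.Qf_smul_left, IsBody.Qf_comm B w, IsBody.Qf_comm B x (w + _),
      hB.Qf_add_left, hB.Qf_smul_left, hB.Qf_add_left, hB.Qf_smul_left, IsBody.Qf_comm B w x]
    field_simp
    ring
  rw [e] at h
  have h2 : (Qf B x w) ^ 2 / Qf B x x ≤ Qf B w w := by linarith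
  rw [div_le_iff₀ ha] at h2
  linarith

private theorem hb_plr {B : Set (ℝ × ℝ)} (hB : IsBody B) {Bj : ℕ → Set (ℝ × ℝ)}
    (hj : ∀ j, IsBody (Bj j)) {ε : ℕ → ℝ} (hε0 : Tendsto ε atTop (𝓝 0))
    {Ct : ℝ} (hb : ∀ᶠ j in atTop, ∀ z, |gauge (Bj j) z - gauge B z| ≤ Ct * ε j * gauge B z) :
    ∀ᶠ j in atTop, ∀ z, |gauge (plr (Bj j)) z - gauge (plr B) z| ≤
      (2 * Ct) * ε j * gauge (plr B) z := by
  have h0 : Tendsto (fun j => Ct * ε j) atTop (𝓝 0) := by simpa using hε0.const_mul Ct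
  filter_upwards [hb, h0.eventually (ge_mem_nhds (by norm_num : (0 : ℝ) < 1 / 2))] with j h1 h2 z
  have := polar_gauge_bound_86 hB (hj j) h2 h1 z
  calc _ ≤ 2 * (Ct * ε j) * gauge (plr B) z := this
    _ = _ := by ring

/-- the derivative of `log MV` -/
private theorem MV_lim {B : Set (ℝ × ℝ)} (hB : IsBody B) {Bj D : ℕ → Set (ℝ × ℝ)}
    (hD : ∀ j, IsBody (D j)) (hMV : ∀ j, MV (D j) = MV (Bj j))
    {ε : ℕ → ℝ} (hε : ∀ j, 0 < ε j) (hε0 : Tendsto ε atTop (𝓝 0))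
    {Ct : ℝ} (hb : ∀ᶠ j in atTop, ∀ z, |gauge (D j) z - gauge B z| ≤ Ct * ε j * gauge B z)
    {τ1 τ2 : ℝ → ℝ}
    (h1 : ∀ᵐ a : ℝ, Tendsto (fun j => (gauge (D j) (a, 1) - gauge B (a, 1)) / ε j) atTop
      (𝓝 (gauge B (a, 1) * τ1 a)))
    (h2 : ∀ᵐ α : ℝ, Tendsto (fun j => (gauge (plr (D j)) (α, 1) - gauge (plr B) (α, 1)) / ε j)
      atTop (𝓝 (gauge (plr B) (α, 1) * τ2 α))) :
    Integrable (fun a => τ1 a * (gauge B (a, 1))⁻¹ ^ 2) ∧
    Integrable (fun α => τ2 α * (gauge (plr B) (α, 1))⁻¹ ^ 2) ∧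
    Tendsto (fun j => (Real.log (MV B) - Real.log (MV (Bj j))) / ε j) atTop
      (𝓝 (2 * (∫ a, τ1 a * (gauge B (a, 1))⁻¹ ^ 2) / (∫ a, (gauge B (a, 1))⁻¹ ^ 2) +
        2 * (∫ α, τ2 α * (gauge (plr B) (α, 1))⁻¹ ^ 2) / ∫ α, (gauge (plr B) (α, 1))⁻¹ ^ 2)) := by
  obtain ⟨a1, a2⟩ := log_vol_deriv hB hD hε hε0 hb h1
  obtain ⟨b1, b2⟩ := log_vol_deriv hB.plr (fun j => (hD j).plr) hε hε0 (hb_plr hB hD hε0 hb) h2
  refine ⟨a1, b1, ?_⟩
  have h := (a2.add b2).neg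
  have e : -((-2 * (∫ a, τ1 a * (gauge B (a, 1))⁻¹ ^ 2) / ∫ a, (gauge B (a, 1))⁻¹ ^ 2) +
      (-2 * (∫ α, τ2 α * (gauge (plr B) (α, 1))⁻¹ ^ 2) /
        ∫ α, (gauge (plr B) (α, 1))⁻¹ ^ 2)) =
      (2 * (∫ a, τ1 a * (gauge B (a, 1))⁻¹ ^ 2) / (∫ a, (gauge B (a, 1))⁻¹ ^ 2) +
        2 * (∫ α, τ2 α * (gauge (plr B) (α, 1))⁻¹ ^ 2) /
          ∫ α, (gauge (plr B) (α, 1))⁻¹ ^ 2) := by ring
  rw [e] at h
  refine h.congr fun j => ?_
  rw [← hMV j]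
  unfold MV
  rw [Real.log_mul (vol_pos hB).1.ne' (vol_pos hB).2.ne',
    Real.log_mul (vol_pos (hD j)).1.ne' (vol_pos (hD j)).2.ne']
  ring

/-- the derivative of `log Qf κ κ`, using the linear map `w ↦ (pr δ w) q` -/
private theorem Q_lim {B : Set (ℝ × ℝ)} (hB : IsBody B) {Bj : ℕ → Set (ℝ × ℝ)}
    (hj : ∀ j, IsBody (Bj j)) {ε : ℕ → ℝ} (hε : ∀ j, 0 < ε j) (hε0 : Tendsto ε atTop (𝓝 0))
    {κ δ q : ℝ × ℝ} (hκ : κ ≠ 0) (hδ : ∀ x, pr δ x = Qf B κ x)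
    (T : ℕ → (ℝ × ℝ) ≃ₗ[ℝ] (ℝ × ℝ)) (hT : ∀ᶠ j in atTop, ∀ z, T j z = z + ε j • (pr δ z • q))
    {Ct : ℝ} (hb : ∀ᶠ j in atTop, ∀ z, |gauge (T j '' Bj j) z - gauge B z| ≤
      Ct * ε j * gauge B z) {τ : ℝ → ℝ}
    (h2 : ∀ᵐ α : ℝ, Tendsto (fun j => (gauge (plr (T j '' Bj j)) (α, 1) -
      gauge (plr B) (α, 1)) / ε j) atTop (𝓝 (gauge (plr B) (α, 1) * τ α))) :
    Integrable (fun α => τ α * (pr (α, 1) κ) ^ 2 * (gauge (plr B) (α, 1))⁻¹ ^ 4) ∧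
    Tendsto (fun j => (1 / 2 * (Real.log (Qf (Bj j) κ κ) - Real.log (Qf B κ κ))) / ε j) atTop
      (𝓝 (pr δ q + (-2 * (∫ α, τ α * (pr (α, 1) κ) ^ 2 * (gauge (plr B) (α, 1))⁻¹ ^ 4) /
            (∫ α, (pr (α, 1) κ) ^ 2 * (gauge (plr B) (α, 1))⁻¹ ^ 4) +
          (∫ α, τ α * (gauge (plr B) (α, 1))⁻¹ ^ 2) /
            ∫ α, (gauge (plr B) (α, 1))⁻¹ ^ 2))) := by
  have hD : ∀ j, IsBody (T j '' Bj j) := fun j => (hj j).image (T j)
  obtain ⟨a1, a2⟩ := log_Qf_deriv hB hD hε hε0 hb h2 hκ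
  refine ⟨a1, ?_⟩
  -- uniform convergence
  have hu : ∀ ε' > 0, ∀ᶠ j in atTop, ∀ z, |gauge (T j '' Bj j) z - gauge B z| ≤
      ε' * gauge B z := by
    intro ε' hε'
    have h0 : Tendsto (fun j => Ct * ε j) atTop (𝓝 0) := by simpa using hε0.const_mul Ct
    filter_upwards [hb, h0.eventually (ge_mem_nhds hε')] with j h1 h2 z
    exact (h1 z).trans (mul_le_mul_of_nonneg_right h2 (gauge_nonneg _))
  set x : ℝ × ℝ := (pr δ κ) • q with hx
  have hQκ : Tendsto (fun j => Qf (T j '' Bj j) κ κ) atTop (𝓝 (Qf B κ κ)) :=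
    Qf_tendsto hB hD hu tendsto_const_nhds tendsto_const_nhds
  have hQx : Tendsto (fun j => Qf (T j '' Bj j) κ x) atTop (𝓝 (Qf B κ x)) :=
    Qf_tendsto hB hD hu tendsto_const_nhds tendsto_const_nhds
  have hQxx : Tendsto (fun j => Qf (T j '' Bj j) x x) atTop (𝓝 (Qf B x x)) :=
    Qf_tendsto hB hD hu tendsto_const_nhds tendsto_const_nhds
  have hpos := hB.Qf_pos hκ
  -- the ratio
  let r : ℕ → ℝ := fun j => (2 * Qf (T j '' Bj j) κ x + ε j * Qf (T j '' Bj j) x x) /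
    Qf (T j '' Bj j) κ κ
  have hr : Tendsto r atTop (𝓝 (2 * pr δ q)) := by
    have h3 := ((hQx.const_mul 2).add (hε0.mul hQxx)).div hQκ hpos.ne'
    have e : (2 * Qf B κ x + 0 * Qf B x x) / Qf B κ κ = 2 * pr δ q := by
      rw [zero_mul, add_zero, ← hδ x, ← hδ κ, hx, pr_smul]
      have : pr δ κ ≠ 0 := by rw [hδ]; exact hpos.ne'
      field_simp
    rw [e] at h3
    exact h3
  have hlog : Tendsto (fun j => (Real.log (1 + ε j * r j) - Real.log 1) / ε j) atTop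
      (𝓝 (2 * pr δ q)) := by
    have h4 : Tendsto (fun j => ((1 + ε j * r j) - 1) / ε j) atTop (𝓝 (2 * pr δ q)) := by
      refine hr.congr fun j => ?_
      have := (hε j).ne'
      field_simp
      ring
    have h5 := seq_deriv (Real.hasDerivAt_log one_ne_zero) (seq_to_zero hε hε0 h4) h4
    simpa using h5
  have hsum := (hlog.add a2).const_mul (1 / 2)
  have e : 1 / 2 * (2 * pr δ q + (-4 * (∫ α, τ α * (pr (α, 1) κ) ^ 2 *
        (gauge (plr B) (α, 1))⁻¹ ^ 4) /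
            (∫ α, (pr (α, 1) κ) ^ 2 * (gauge (plr B) (α, 1))⁻¹ ^ 4) +
          2 * (∫ α, τ α * (gauge (plr B) (α, 1))⁻¹ ^ 2) /
            ∫ α, (gauge (plr B) (α, 1))⁻¹ ^ 2)) =
      (pr δ q + (-2 * (∫ α, τ α * (pr (α, 1) κ) ^ 2 * (gauge (plr B) (α, 1))⁻¹ ^ 4) /
            (∫ α, (pr (α, 1) κ) ^ 2 * (gauge (plr B) (α, 1))⁻¹ ^ 4) +
          (∫ α, τ α * (gauge (plr B) (α, 1))⁻¹ ^ 2) /
            ∫ α, (gauge (plr B) (α, 1))⁻¹ ^ 2)) := by ring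
  rw [e] at hsum
  refine hsum.congr' ?_
  filter_upwards [hT] with j hTj
  have hTκ : T j κ = κ + ε j • x := by rw [hTj κ]
  have hQj : Qf (Bj j) κ κ = Qf (T j '' Bj j) κ κ * (1 + ε j * r j) := by
    rw [← Qf_image (hj j) (T j) κ κ, hTκ]
    have hpj := (hD j).Qf_pos hκ
    rw [Qf_quad (hD j)]
    simp only [r]
    field_simp
  have hpj := (hD j).Qf_pos hκ
  have hpj2 := (hj j).Qf_pos hκ
  have hone : 0 < 1 + ε j * r j := by
    by_contra hneg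
    rw [hQj] at hpj2
    have := mul_nonpos_of_nonneg_of_nonpos hpj.le (not_lt.1 hneg)
    linarith
  rw [hQj, Real.log_mul hpj.ne' hone.ne', Real.log_one]
  ring

/-- the speeds after a linear change -/
private theorem lin_change {B : Set (ℝ × ℝ)} (hB : IsBody B) {Bj : ℕ → Set (ℝ × ℝ)}
    (hj : ∀ j, IsBody (Bj j)) {ε : ℕ → ℝ} (hε : ∀ j, 0 < ε j) (hε0 : Tendsto ε atTop (𝓝 0))
    {Ct : ℝ} (hb : ∀ᶠ j in atTop, ∀ z, |gauge (Bj j) z - gauge B z| ≤ Ct * ε j * gauge B z)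
    {k lam : ℝ} {m δ : ℝ × ℝ} {te1 te2 : ℝ → ℝ} {N W : ℝ → ℝ × ℝ}
    (hG : ∀ᵐ a : ℝ, ∃ s : ℝ, N a ∈ plr B ∧
        (∀ n' ∈ plr B, pr n' (a, 1) = gauge B (a, 1) → n' = N a) ∧
        pr (N a) ((gauge B (a, 1))⁻¹ • ((a, 1) : ℝ × ℝ)) = 1 ∧
        pr (N a) m = -te1 a * ((gauge B (a, 1))⁻¹ • ((a, 1) : ℝ × ℝ)).1 + s * k ∧
        lam * (N a).2 = -te1 a * ((gauge B (a, 1))⁻¹ • ((a, 1) : ℝ × ℝ)).2 ∧
        Tendsto (fun j => (gauge (Bj j) (a, 1) - gauge B (a, 1)) / ε j) atTop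
          (𝓝 (gauge B (a, 1) * (s * pr δ ((gauge B (a, 1))⁻¹ • ((a, 1) : ℝ × ℝ)) -
            te1 a * pr δ (k, 0)))))
    (hP : ∀ᵐ α : ℝ, ∃ s : ℝ, W α ∈ B ∧
        (∀ w' ∈ B, pr (α, 1) w' = gauge (plr B) (α, 1) → w' = W α) ∧
        pr ((gauge (plr B) (α, 1))⁻¹ • ((α, 1) : ℝ × ℝ)) (W α) = 1 ∧
        pr ((gauge (plr B) (α, 1))⁻¹ • ((α, 1) : ℝ × ℝ)) m = -te2 α * (W α).1 + s * k ∧
        lam * ((gauge (plr B) (α, 1))⁻¹ • ((α, 1) : ℝ × ℝ)).2 = -te2 α * (W α).2 ∧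
        Tendsto (fun j => (gauge (plr (Bj j)) (α, 1) - gauge (plr B) (α, 1)) / ε j) atTop
          (𝓝 (gauge (plr B) (α, 1) * (-s * pr δ (W α) + te2 α * pr δ (k, 0)))))
    (L : (ℝ × ℝ) →ₗ[ℝ] (ℝ × ℝ)) (ψ : ℝ × ℝ → ℝ)
    (hL : ∀ (n w : ℝ × ℝ) (te s : ℝ), pr n w = 1 → pr n m = -te * w.1 + s * k →
      lam * n.2 = -te * w.2 → pr n (L w) = s * pr δ w - te * ψ w)
    (T : ℕ → (ℝ × ℝ) ≃ₗ[ℝ] (ℝ × ℝ)) (hT : ∀ᶠ j in atTop, ∀ z, T j z = z + ε j • L z) :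
    (∃ Ct' : ℝ, ∀ᶠ j in atTop, ∀ z,
      |gauge (T j '' Bj j) z - gauge B z| ≤ Ct' * ε j * gauge B z) ∧
    (∀ᵐ a : ℝ, Tendsto (fun j => (gauge (T j '' Bj j) (a, 1) - gauge B (a, 1)) / ε j) atTop
      (𝓝 (gauge B (a, 1) * (te1 a * (ψ ((gauge B (a, 1))⁻¹ • ((a, 1) : ℝ × ℝ)) -
        pr δ (k, 0)))))) ∧
    (∀ᵐ α : ℝ, Tendsto (fun j => (gauge (plr (T j '' Bj j)) (α, 1) -
      gauge (plr B) (α, 1)) / ε j) atTop
      (𝓝 (gauge (plr B) (α, 1) * (-te2 α * (ψ (W α) - pr δ (k, 0)))))) := by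
  obtain ⟨g1, g2, g3⟩ := gauge_lin_deriv hB hj hε hε0 hb L T hT
  refine ⟨g1, ?_, ?_⟩
  · filter_upwards [hG] with a ⟨s, h1, h2, h3, h4, h5, h6⟩
    have hv : 0 < gauge B (a, 1) := hB.gauge_pos (by simp)
    have h := g2 a _ (N a) h1 h2 h6
    have e1 := hL _ _ _ _ h3 h4 h5
    have e2 : pr (N a) (L (a, 1)) =
        gauge B (a, 1) * pr (N a) (L ((gauge B (a, 1))⁻¹ • ((a, 1) : ℝ × ℝ))) := by
      rw [L.map_smul, pr_smul]
      field_simp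
    rw [e2, e1] at h
    convert h using 2
    ring
  · filter_upwards [hP] with α ⟨s, h1, h2, h3, h4, h5, h6⟩
    have hv : 0 < gauge (plr B) (α, 1) := hB.plr.gauge_pos (by simp)
    have h := g3 (α, 1) _ (W α) h1 h2 h6
    have e1 := hL _ _ _ _ h3 h4 h5
    have e2 : pr (α, 1) (L (W α)) = gauge (plr B) (α, 1) *
        pr ((gauge (plr B) (α, 1))⁻¹ • ((α, 1) : ℝ × ℝ)) (L (W α)) := by
      rw [pr_comm ((gauge (plr B) (α, 1))⁻¹ • ((α, 1) : ℝ × ℝ)), pr_smul, pr_comm (α, 1)]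
      field_simp
    rw [e2, e1] at h
    convert h using 2
    ring

private theorem finish {N c0 ℓ1 ℓ2 : ℝ} {f g ε : ℕ → ℝ} (hε : ∀ j, 0 < ε j)
    (h1 : Tendsto (fun j => f j / ε j) atTop (𝓝 ℓ1))
    (h2 : Tendsto (fun j => g j / ε j) atTop (𝓝 (c0 + ℓ2)))
    (h3 : 0 ≤ N * ℓ1 + ℓ2) {η : ℝ} (hη : 0 < η) :
    ∀ᶠ j in atTop, -η * ε j ≤ N * f j + g j - ε j * c0 := by
  have h := (h1.const_mul N).add h2
  have hlt : c0 - η < N * ℓ1 + (c0 + ℓ2) := by linarith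
  filter_upwards [h.eventually (lt_mem_nhds hlt)] with j hj
  have hp := hε j
  have h4 : N * (f j / ε j) + g j / ε j = (N * f j + g j) / ε j := by ring
  rw [h4, lt_div_iff₀ hp] at hj
  linarith

private theorem Y_eq {B : Set (ℝ × ℝ)} (hB : IsBody B) (κ : ℝ × ℝ) :
    ∫ α : ℝ, (pr (α, 1) κ) ^ 2 * (gauge (plr B) (α, 1))⁻¹ ^ 4 =
      2 * Qf B κ κ * ∫ α : ℝ, (gauge (plr B) (α, 1))⁻¹ ^ 2 := by
  unfold Qf
  rw [(int_slope hB.plr κ κ).2, ← (vol_slope hB.plr).2]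
  have := (vol_pos hB).2.ne'
  field_simp

/-- the linear functional `pr δ` -/
private def prL (δ : ℝ × ℝ) : (ℝ × ℝ) →ₗ[ℝ] ℝ where
  toFun := pr δ
  map_add' := pr_add δ
  map_smul' c x := pr_smul δ x c

/-- the second linear map -/
private noncomputable def mapL' (δ m : ℝ × ℝ) (k lam : ℝ) : (ℝ × ℝ) →ₗ[ℝ] (ℝ × ℝ) where
  toFun w := (pr δ w / k) • m - (0, lam * δ.2 * w.1 / k)
  map_add' x y := by
    ext
    · simp [pr_add]; ring
    · simp [pr_add]; ring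
  map_smul' c x := by
    ext
    · simp [pr_smul]; ring
    · simp [pr_smul]; ring

private theorem num1 {k Q d kmax : ℝ} (hk0 : 0 < k) (hkk : k ≤ kmax) (hk : kmax < 1)
    (hQl : 1 / 16 ≤ Q) (hQu : Q ≤ 1) (hd : d = k * Q) :
    0 < d ∧ k / 16 ≤ d ∧ d ≤ k ∧ 0 < k * d ∧ k * d ≤ 1 ∧ k ^ 2 / 8 ≤ 2 * (k * d) ∧
      k ^ 2 ≤ 1 := by
  have h1 : 0 < d := by rw [hd]; exact mul_pos hk0 (by linarith)
  have h2 : k / 16 ≤ d := by
    rw [hd]
    calc k / 16 = k * (1 / 16) := by ring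
      _ ≤ k * Q := mul_le_mul_of_nonneg_left hQl hk0.le
  have h3 : d ≤ k := by
    rw [hd]
    calc k * Q ≤ k * 1 := mul_le_mul_of_nonneg_left hQu hk0.le
      _ = k := mul_one k
  have h4 : k ≤ 1 := hkk.trans hk.le
  refine ⟨h1, h2, h3, mul_pos hk0 h1, ?_, ?_, ?_⟩
  · calc k * d ≤ 1 * 1 := mul_le_mul h4 (h3.trans h4) h1.le zero_le_one
      _ = 1 := one_mul 1
  · calc k ^ 2 / 8 = 2 * (k * (k / 16)) := by ring
      _ ≤ 2 * (k * d) := by gcongr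
  · calc k ^ 2 = k * k := by ring
      _ ≤ 1 * 1 := mul_le_mul h4 h4 hk0.le zero_le_one
      _ = 1 := one_mul 1

private theorem num2 {x y : ℝ} (hx : |x| ≤ 1) (hy : |y| ≤ 1) (h : x * y = 1) : |y| = 1 := by
  have h8 : |x| * |y| = 1 := by rw [← abs_mul, h, abs_one]
  nlinarith [abs_nonneg x, abs_nonneg y]

private theorem num_zero {X Z Ap Y k N : ℝ} (hAp : 0 < Ap) (hYpos : 0 < Y) (hZ0 : 0 ≤ Z)
    (hX : X ≤ k ^ 2 * Z) (hYlo : k ^ 2 * Ap / 8 ≤ Y) (hN : 8 ≤ N) :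
    0 ≤ N * (2 * Z / Ap) + (-2 * X / Y + Z / Ap) := by
  have hz : 0 ≤ Z / Ap := div_nonneg hZ0 hAp.le
  have hXY : X / Y ≤ 8 * (Z / Ap) := by
    rw [div_le_iff₀ hYpos]
    calc X ≤ k ^ 2 * Z := hX
      _ = 8 * (Z / Ap) * (k ^ 2 * Ap / 8) := by field_simp
      _ ≤ 8 * (Z / Ap) * Y := by gcongr
  have e1 : 2 * Z / Ap = 2 * (Z / Ap) := by ring
  have e2 : -2 * X / Y = -2 * (X / Y) := by ring
  rw [e1, e2]
  nlinarith

private theorem num_pos {X Z I Ap Y k lam d N E1 E2 A kmax P1 : ℝ} (hAp : 0 < Ap)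
    (hA : 0 < A) (hk0 : 0 < k) (hkk : k ≤ kmax) (hk : kmax < 1) (hP : P1 < Real.pi ^ 2)
    (hMV : A * Ap ≤ P1) (hl : 0 < lam) (hd : k / 16 ≤ d) (hYlo : k ^ 2 * Ap / 8 ≤ Y)
    (hX : X ≤ lam * k ^ 2 * I) (hZ : -(lam * I) ≤ Z) (hI : 0 ≤ 1 / Ap * I)
    (hineq : 1 / Ap * I * (1 - k ^ 2) * (Real.pi - Real.sqrt (A * Ap)) ^ 2 ≤
      (E2 - E1) * ((Real.pi - Real.sqrt (A * Ap)) ^ 2 + 16 + A * Ap))
    (hN : 272 * (2 * Real.pi ^ 2 + 16) / ((1 - kmax ^ 2) * (Real.pi - Real.sqrt P1) ^ 2) ≤ N) :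
    0 ≤ N * (lam * d / k * (E2 - E1)) + (-2 * X / Y + Z / Ap) := by
  have hYpos : 0 < Y := by
    have : 0 < k ^ 2 * Ap / 8 := by positivity
    linarith
  obtain ⟨W, hW⟩ : ∃ W, W = 1 / Ap * I := ⟨_, rfl⟩
  have hIW : I = W * Ap := by rw [hW]; field_simp
  rw [← hW] at hI hineq
  have hpi := Real.pi_pos
  have hs1 : Real.sqrt (A * Ap) ≤ Real.sqrt P1 := Real.sqrt_le_sqrt hMV
  have hs0 : Real.sqrt P1 < Real.pi := by
    rw [Real.sqrt_lt' hpi]; exact hP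
  obtain ⟨s1, hs1e⟩ : ∃ s1, s1 = Real.pi - Real.sqrt (A * Ap) := ⟨_, rfl⟩
  obtain ⟨s0, hs0e⟩ : ∃ s0, s0 = Real.pi - Real.sqrt P1 := ⟨_, rfl⟩
  rw [← hs1e] at hineq
  rw [← hs0e] at hN
  have h0 : 0 < s0 := by linarith
  have h01 : s0 ≤ s1 := by linarith
  have h1pi : s1 ≤ Real.pi := by linarith [Real.sqrt_nonneg (A * Ap)]
  have hkm : 0 < 1 - kmax ^ 2 := by nlinarith
  have hkk2 : 1 - kmax ^ 2 ≤ 1 - k ^ 2 := by nlinarith
  have hsq : s0 ^ 2 ≤ s1 ^ 2 := by nlinarith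
  have hc : 0 < (1 - kmax ^ 2) * s0 ^ 2 := by positivity
  have hD : s1 ^ 2 + 16 + A * Ap ≤ 2 * Real.pi ^ 2 + 16 := by nlinarith
  have hDpos : 0 < s1 ^ 2 + 16 + A * Ap := by positivity
  have hWc : W * ((1 - kmax ^ 2) * s0 ^ 2) ≤ W * (1 - k ^ 2) * s1 ^ 2 := by
    have : (1 - kmax ^ 2) * s0 ^ 2 ≤ (1 - k ^ 2) * s1 ^ 2 :=
      mul_le_mul hkk2 hsq (by positivity) (by linarith)
    calc _ ≤ W * ((1 - k ^ 2) * s1 ^ 2) := mul_le_mul_of_nonneg_left this hI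
      _ = _ := by ring
  have hE0 : 0 ≤ E2 - E1 := by
    by_contra hneg
    have h1 : (E2 - E1) * (s1 ^ 2 + 16 + A * Ap) < 0 :=
      mul_neg_of_neg_of_pos (not_le.1 hneg) hDpos
    have h2 : 0 ≤ W * ((1 - kmax ^ 2) * s0 ^ 2) := by positivity
    linarith
  have hE : W * ((1 - kmax ^ 2) * s0 ^ 2) ≤ (E2 - E1) * (2 * Real.pi ^ 2 + 16) :=
    calc _ ≤ (E2 - E1) * (s1 ^ 2 + 16 + A * Ap) := hWc.trans hineq
      _ ≤ _ := mul_le_mul_of_nonneg_left hD hE0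
  have hNE : 272 * W ≤ N * (E2 - E1) := by
    have h1 : 272 * (2 * Real.pi ^ 2 + 16) ≤ N * ((1 - kmax ^ 2) * s0 ^ 2) := by
      rwa [div_le_iff₀ hc] at hN
    have h2 : 272 * (2 * Real.pi ^ 2 + 16) * (E2 - E1) ≤
        N * ((1 - kmax ^ 2) * s0 ^ 2) * (E2 - E1) := mul_le_mul_of_nonneg_right h1 hE0
    have h3 : 272 * (W * ((1 - kmax ^ 2) * s0 ^ 2)) ≤
        N * ((1 - kmax ^ 2) * s0 ^ 2) * (E2 - E1) := by
      calc _ ≤ 272 * ((E2 - E1) * (2 * Real.pi ^ 2 + 16)) := by linarith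
        _ = 272 * (2 * Real.pi ^ 2 + 16) * (E2 - E1) := by ring
        _ ≤ _ := h2
    have h4 : (272 * W) * ((1 - kmax ^ 2) * s0 ^ 2) ≤
        (N * (E2 - E1)) * ((1 - kmax ^ 2) * s0 ^ 2) := by linarith
    exact le_of_mul_le_mul_right h4 hc
  have hfirst : 17 * lam * W ≤ N * (lam * d / k * (E2 - E1)) := by
    have h1 : 1 / 16 ≤ d / k := by
      rw [div_le_div_iff₀ (by norm_num) hk0]; linarith
    have h2 : 0 ≤ N * (E2 - E1) := by
      have : 0 ≤ 272 * W := by positivity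
      linarith
    calc 17 * lam * W = lam * (1 / 16) * (272 * W) := by ring
      _ ≤ lam * (d / k) * (N * (E2 - E1)) := by gcongr
      _ = _ := by ring
  have hXY : X / Y ≤ 8 * lam * W := by
    rw [div_le_iff₀ hYpos]
    calc X ≤ lam * k ^ 2 * I := hX
      _ = 8 * lam * W * (k ^ 2 * Ap / 8) := by rw [hIW]; ring
      _ ≤ 8 * lam * W * Y := by gcongr
  have hZA : -(lam * W) ≤ Z / Ap := by
    rw [le_div_iff₀ hAp]
    calc -(lam * W) * Ap = -(lam * I) := by rw [hIW]; ring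
      _ ≤ Z := hZ
  have e2 : -2 * X / Y = -2 * (X / Y) := by ring
  rw [e2]
  nlinarith

/-- PB6. The planar variation theorem.
Proof. Put `κ = (k,0)`, `pr δ κ = k δ₁ = Qf κ κ ≤ 1`, `δ₁ = k Qf e₁ e₁ ≥ k/16`,
`(pr δ w)² = (Qf κ w)² ≤ Qf κ κ` for `w ∈ B` (Cauchy–Schwarz, `Qf w w ≤ 1`).
(1) `q = (δ₁ m + (0, lam δ₂))/(k δ₁)`, `L w = (pr δ w) q`, `T j = id + ε j L`:
`Qf (Bj) κ κ = Qf (T j '' Bj) (T j κ) (T j κ)`, `T j κ = κ + ε j k δ₁ q`, whose derivative gives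
`2 pr δ q`, and this cancels `(δ₁ pr δ m + lam δ₂²)/pr δ κ = pr δ q` (after the factor 1/2).
For `T j '' Bj` the polar speed is `τZ = -te ((pr δ w)² - (k δ₁)²)/(k δ₁)`.
(2) `L' w = (pr δ w/k) m - (0, lam δ₂ w₁/k)`: for `(id + ε j L') '' Bj` the speed is
`te δ₁ (w₁² - k²)/k` (gauge), `- te δ₁ (w₁² - k²)/k` (polar), and `MV` is invariant. So the limit of
`(log MV B - log MV Bj)/ε j` is `(lam δ₁/k) (E2 - E1)` if `lam > 0` (notation of `planar_ineq`;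
`te = - lam n₂/w₂`, `n = (v', v - a v')`, `w = (V', V - α V')`).
(3) By `log_Qf_deriv` the other part is `-2 ∫ τZ F V⁻⁴/∫ F V⁻⁴ + ∫ τZ V⁻²/∫ V⁻²`,
`F = (pr (α,1) κ)² ≤ k² V²`, `∫ F V⁻⁴ = 2 Qf κ κ ∫ V⁻² ≥ (k²/8) ∫ V⁻²`; it is `≥ -17 lam W`.
`planar_ineq` gives the claim with `N0 = 272 (2π²+16)/((1-kmax²)(π-√P1)²)`.
If `lam = 0`: `te = 0` unless `w₂ = 0`, `τZ ≥ 0`, and with `id + ε j L` in both terms one gets
`2 N avg τZ - 16 avg τZ ≥ 0` for `N ≥ 8`. -/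
theorem PVT (kmax P1 : ℝ) (hk : kmax < 1) (hP : P1 < Real.pi ^ 2) :
    ∃ N0 : ℝ, ∀ N, N0 ≤ N →
      ∀ (B : Set (ℝ × ℝ)) (k lam Ct : ℝ) (m δ : ℝ × ℝ) (Bj : ℕ → Set (ℝ × ℝ)) (ε : ℕ → ℝ),
      IsBody B → MV B ≤ P1 → 0 < k → k ≤ kmax → ((1 : ℝ), (0 : ℝ)) ∈ B →
      (∀ z ∈ B, |z.1| ≤ 1) → 0 ≤ lam → (∀ x, pr δ x = Qf B (k, 0) x) →
      (∀ j, IsBody (Bj j)) → (∀ j, 0 < ε j) → Tendsto ε atTop (𝓝 0) →
      (∀ᶠ j in atTop, ∀ z, |gauge (Bj j) z - gauge B z| ≤ Ct * ε j * gauge B z) →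
      (∀ᵐ a : ℝ, ∃ (n w : ℝ × ℝ) (te s : ℝ), w = (gauge B (a, 1))⁻¹ • ((a, 1) : ℝ × ℝ) ∧
        n ∈ plr B ∧ pr n w = 1 ∧ te ≤ 0 ∧ |te| ≤ Ct ∧ pr n m = -te * w.1 + s * k ∧
        lam * n.2 = -te * w.2 ∧
        Tendsto (fun j => (gauge (Bj j) (a, 1) - gauge B (a, 1)) / ε j) atTop
          (𝓝 (gauge B (a, 1) * (s * pr δ w - te * pr δ (k, 0))))) →
      (∀ᵐ α : ℝ, ∃ (n w : ℝ × ℝ) (te s : ℝ), n = (gauge (plr B) (α, 1))⁻¹ • ((α, 1) : ℝ × ℝ) ∧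
        w ∈ B ∧ pr n w = 1 ∧ te ≤ 0 ∧ |te| ≤ Ct ∧ pr n m = -te * w.1 + s * k ∧
        lam * n.2 = -te * w.2 ∧
        Tendsto (fun j => (gauge (plr (Bj j)) (α, 1) - gauge (plr B) (α, 1)) / ε j) atTop
          (𝓝 (gauge (plr B) (α, 1) * (-s * pr δ w + te * pr δ (k, 0))))) →
      ∀ η > 0, ∀ᶠ j in atTop,
        -η * ε j ≤ N * (Real.log (MV B) - Real.log (MV (Bj j))) +
          1 / 2 * (Real.log (Qf (Bj j) (k, 0) (k, 0)) - Real.log (Qf B (k, 0) (k, 0))) -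
          ε j * (δ.1 * pr δ m + lam * δ.2 ^ 2) / pr δ (k, 0) := by
  refine ⟨max 8 (272 * (2 * Real.pi ^ 2 + 16) /
    ((1 - kmax ^ 2) * (Real.pi - Real.sqrt P1) ^ 2)), ?_⟩
  intro N hN B k lam Ct m δ Bj ε hB hMV hk0 hkk h10 hx hlam hδ hj hε hε0 hb hG hPo η hη
  have hN8 : 8 ≤ N := (le_max_left _ _).trans hN
  have hN2 := (le_max_right _ _).trans hN
  have hκ : ((k : ℝ), (0 : ℝ)) ≠ 0 := by
    intro h
    exact hk0.ne' (congrArg Prod.fst h)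
  have hκe : ((k : ℝ), (0 : ℝ)) = k • ((1 : ℝ), (0 : ℝ)) := by simp
  obtain ⟨hQl, hQu⟩ := Qf_lower hB h10 hx
  have hδ1 : δ.1 = k * Qf B (1, 0) (1, 0) := by
    have h1 := hδ (1, 0)
    rw [hκe, hB.Qf_smul_left] at h1
    rw [← h1]; simp [pr]
  have hδκ : pr δ (k, 0) = k * δ.1 := by simp [pr]; ring
  have hδκ2 : Qf B (k, 0) (k, 0) = k * δ.1 := by rw [← hδ, hδκ]
  obtain ⟨hδpos, hδlo, hδup, hkδ, hkδ1, hk8, hk1⟩ := num1 hk0 hkk hk hQl hQu hδ1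
  have hcs : ∀ w ∈ B, (pr δ w) ^ 2 ≤ k * δ.1 := by
    intro w hw
    have h1 := Qf_cs hB hκ w
    rw [hδκ2, ← hδ w] at h1
    have h2 := Qf_le_one hB hw
    calc _ ≤ k * δ.1 * Qf B w w := h1
      _ ≤ k * δ.1 * 1 := mul_le_mul_of_nonneg_left h2 hkδ.le
      _ = _ := mul_one _
  -- notation
  set v : ℝ → ℝ := fun a => gauge B (a, 1) with hv
  set V : ℝ → ℝ := fun α => gauge (plr B) (α, 1) with hV
  have hvpos : ∀ a, 0 < v a := fun a => hB.gauge_pos (by simp)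
  have hVpos : ∀ α, 0 < V α := fun α => hB.plr.gauge_pos (by simp)
  set Nf : ℝ → ℝ × ℝ := fun a => (deriv v a, v a - a * deriv v a) with hNf
  set W : ℝ → ℝ × ℝ := fun α => (deriv V α, V α - α * deriv V α) with hW
  have hu1 := ae_unique hB
  have hu2 := ae_unique hB.plr
  rw [hB.plr_plr] at hu2
  set te1 : ℝ → ℝ := fun a => -(lam * (Nf a).2 * v a) with hte1
  -- the gauge side
  have hG' : ∀ᵐ a : ℝ, (te1 a ≤ 0 ∧ |te1 a| ≤ Ct) ∧ ∃ s : ℝ, Nf a ∈ plr B ∧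
        (∀ n' ∈ plr B, pr n' (a, 1) = gauge B (a, 1) → n' = Nf a) ∧
        pr (Nf a) ((gauge B (a, 1))⁻¹ • ((a, 1) : ℝ × ℝ)) = 1 ∧
        pr (Nf a) m = -te1 a * ((gauge B (a, 1))⁻¹ • ((a, 1) : ℝ × ℝ)).1 + s * k ∧
        lam * (Nf a).2 = -te1 a * ((gauge B (a, 1))⁻¹ • ((a, 1) : ℝ × ℝ)).2 ∧
        Tendsto (fun j => (gauge (Bj j) (a, 1) - gauge B (a, 1)) / ε j) atTop
          (𝓝 (gauge B (a, 1) * (s * pr δ ((gauge B (a, 1))⁻¹ • ((a, 1) : ℝ × ℝ)) -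
            te1 a * pr δ (k, 0)))) := by
    filter_upwards [hG, hu1] with a ⟨n, w, te, s, hw, hn, hnw, hte, htb, hm, hl, hlim⟩ ⟨_, hu⟩
    have hva : gauge B (a, 1) ≠ 0 := (hvpos a).ne'
    have hprn : pr n (a, 1) = gauge B (a, 1) := by
      rw [hw, pr_smul] at hnw
      field_simp at hnw
      exact hnw
    have hnN : n = Nf a := hu n hn hprn
    have hte' : te = te1 a := by
      rw [hw] at hl
      simp only [Prod.smul_snd, smul_eq_mul, mul_one] at hl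
      rw [hte1]
      simp only
      rw [← hnN, hl]
      simp only [hv]
      field_simp
    rw [← hte', ← hnN, ← hw]
    refine ⟨⟨hte, htb⟩, s, hn, ?_, hnw, hm, hl, hlim⟩
    rw [hnN]
    exact hu
  -- the polar side
  have hP1 : ∀ᵐ α : ℝ, ∃ te : ℝ, (te ≤ 0 ∧ |te| ≤ Ct) ∧ ∃ s : ℝ, W α ∈ B ∧
        (∀ w' ∈ B, pr (α, 1) w' = gauge (plr B) (α, 1) → w' = W α) ∧
        pr ((gauge (plr B) (α, 1))⁻¹ • ((α, 1) : ℝ × ℝ)) (W α) = 1 ∧
        pr ((gauge (plr B) (α, 1))⁻¹ • ((α, 1) : ℝ × ℝ)) m = -te * (W α).1 + s * k ∧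
        lam * ((gauge (plr B) (α, 1))⁻¹ • ((α, 1) : ℝ × ℝ)).2 = -te * (W α).2 ∧
        Tendsto (fun j => (gauge (plr (Bj j)) (α, 1) - gauge (plr B) (α, 1)) / ε j) atTop
          (𝓝 (gauge (plr B) (α, 1) * (-s * pr δ (W α) + te * pr δ (k, 0)))) := by
    filter_upwards [hPo, hu2] with α ⟨n, w, te, s, hn, hw, hnw, hte, htb, hm, hl, hlim⟩ ⟨_, hu⟩
    have hva : gauge (plr B) (α, 1) ≠ 0 := (hVpos α).ne'
    have hprn : pr w (α, 1) = gauge (plr B) (α, 1) := by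
      rw [hn, pr_comm, pr_smul] at hnw
      field_simp at hnw
      exact hnw
    have hwW : w = W α := hu w hw hprn
    refine ⟨te, ⟨hte, htb⟩, s, ?_⟩
    rw [← hn, ← hwW]
    refine ⟨hw, ?_, hnw, hm, hl, hlim⟩
    intro w' hw' h'
    rw [hwW]
    exact hu w' hw' (by rw [pr_comm]; exact h')
  obtain ⟨te2, hP2⟩ := hP1.choice
  have hGa := hG'.mono fun a h => h.2
  have hPa := hP2.mono fun a h => h.2
  -- the first linear map
  set q : ℝ × ℝ := (1 / (k * δ.1)) • (δ.1 • m + ((0 : ℝ), lam * δ.2)) with hq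
  set L : (ℝ × ℝ) →ₗ[ℝ] (ℝ × ℝ) := (prL δ).smulRight q with hLdef
  have hLap : ∀ z, L z = pr δ z • q := fun z => rfl
  have hprq : ∀ n : ℝ × ℝ, pr n q = (δ.1 * pr n m + n.2 * (lam * δ.2)) / (k * δ.1) := by
    intro n
    rw [hq, pr_smul, pr_add, pr_smul]
    simp only [pr, mul_zero, zero_add]
    ring
  have hL : ∀ (n w : ℝ × ℝ) (te s : ℝ), pr n w = 1 → pr n m = -te * w.1 + s * k →
      lam * n.2 = -te * w.2 → pr n (L w) = s * pr δ w - te * ((pr δ w) ^ 2 / (k * δ.1)) := by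
    intro n w te s _ h2 h3
    rw [hLap, pr_smul, hprq, h2]
    have h4 : n.2 * (lam * δ.2) = -te * w.2 * δ.2 := by rw [← h3]; ring
    rw [h4]
    have h5 : δ.1 * (-te * w.1 + s * k) + -te * w.2 * δ.2 = -te * pr δ w + s * (k * δ.1) := by
      simp only [pr]; ring
    rw [h5]
    field_simp
    ring
  obtain ⟨T, hT⟩ := exists_T L hε0
  obtain ⟨⟨Ct', hb'⟩, sg, sp⟩ := lin_change hB hj hε hε0 hb hGa hPa L
    (fun w => (pr δ w) ^ 2 / (k * δ.1)) hL T hT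
  have hTq : ∀ᶠ j in atTop, ∀ z, T j z = z + ε j • (pr δ z • q) := hT
  obtain ⟨iX, limQ⟩ := Q_lim hB hj hε hε0 hκ hδ T hTq hb' sp
  have hc0 : pr δ q = (δ.1 * pr δ m + lam * δ.2 ^ 2) / pr δ (k, 0) := by
    rw [hprq, hδκ]
    ring
  rw [hc0] at limQ
  have hD : ∀ j, IsBody (T j '' Bj j) := fun j => (hj j).image (T j)
  have hMVD : ∀ j, MV (T j '' Bj j) = MV (Bj j) := fun j => MV_image (hj j) (T j)
  obtain ⟨ia, ib, limL⟩ := MV_lim hB hD hMVD hε hε0 hb' sg sp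
  -- integrals
  have hAp : 0 < ∫ α : ℝ, (gauge (plr B) (α, 1))⁻¹ ^ 2 := by
    rw [← (vol_slope hB.plr).2]; exact (vol_pos hB).2
  have hA : 0 < ∫ a : ℝ, (gauge B (a, 1))⁻¹ ^ 2 := by
    rw [← (vol_slope hB).2]; exact (vol_pos hB).1
  have hY := Y_eq hB (k, 0)
  rw [hδκ2] at hY
  have hYlo : k ^ 2 * (∫ α : ℝ, (gauge (plr B) (α, 1))⁻¹ ^ 2) / 8 ≤
      ∫ α : ℝ, (pr (α, 1) (k, 0)) ^ 2 * (gauge (plr B) (α, 1))⁻¹ ^ 4 := by
    rw [hY]
    calc _ = k ^ 2 / 8 * (∫ α : ℝ, (gauge (plr B) (α, 1))⁻¹ ^ 2) := by ring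
      _ ≤ _ := mul_le_mul_of_nonneg_right hk8 hAp.le
  have hYpos : 0 < ∫ α : ℝ, (pr (α, 1) (k, 0)) ^ 2 * (gauge (plr B) (α, 1))⁻¹ ^ 4 := by
    rw [hY]; positivity
  -- the weight
  have hFV : ∀ α : ℝ, 0 ≤ (pr (α, 1) (k, 0)) ^ 2 * (gauge (plr B) (α, 1))⁻¹ ^ 4 ∧
      (pr (α, 1) (k, 0)) ^ 2 * (gauge (plr B) (α, 1))⁻¹ ^ 4 ≤
        k ^ 2 * (gauge (plr B) (α, 1))⁻¹ ^ 2 := by
    intro α
    refine ⟨by positivity, ?_⟩
    have h1 : α ≤ V α := by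
      have := (hB.gauge_plr (α, 1)).2 ⟨_, h10, rfl⟩
      simpa [pr] using this
    have h2 : -α ≤ V α := by
      have := (hB.gauge_plr (α, 1)).2 ⟨_, hB.symm _ h10, rfl⟩
      simpa [pr] using this
    have h3 : α ^ 2 ≤ (V α) ^ 2 := by
      rw [sq_le_sq, abs_of_pos (hVpos α)]
      exact abs_le.2 ⟨by linarith, h1⟩
    have h4 : pr (α, 1) (k, 0) = α * k := by simp [pr]
    have h5 : (V α)⁻¹ ^ 4 * (V α) ^ 2 = (V α)⁻¹ ^ 2 := by
      have := (hVpos α).ne'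
      field_simp
    rw [h4]
    calc (α * k) ^ 2 * (V α)⁻¹ ^ 4 = k ^ 2 * ((V α)⁻¹ ^ 4 * α ^ 2) := by ring
      _ ≤ k ^ 2 * ((V α)⁻¹ ^ 4 * (V α) ^ 2) := by gcongr
      _ = k ^ 2 * (V α)⁻¹ ^ 2 := by rw [h5]
  rcases hlam.eq_or_lt with hl0 | hl0
  · -- lam = 0
    subst hl0
    have hte10 : ∀ a, te1 a = 0 := fun a => by simp [hte1]
    have hτ0 : ∀ᵐ α : ℝ, 0 ≤ -te2 α * ((pr δ (W α)) ^ 2 / (k * δ.1) - pr δ (k, 0)) := by
      filter_upwards [hP2] with α ⟨⟨h1, _⟩, s, h2, h3, h4, h5, h6, h7⟩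
      by_cases ht : te2 α = 0
      · simp [ht]
      · have hW2 : (W α).2 = 0 := by
          rw [zero_mul] at h6
          rcases mul_eq_zero.1 h6.symm with h | h
          · exact absurd (neg_eq_zero.1 h) ht
          · exact h
        have hW1 : |(W α).1| ≤ 1 := hx _ h2
        have hn1 : |(gauge (plr B) (α, 1))⁻¹ * α| ≤ 1 := by
          have hn : (gauge (plr B) (α, 1))⁻¹ • ((α, 1) : ℝ × ℝ) ∈ plr B := by
            rw [hB.plr.mem_iff_gauge, hB.plr.gauge_smul,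
              abs_of_pos (inv_pos.2 (hVpos α)), inv_mul_cancel₀ (hVpos α).ne']
          have := abs_pr_le hB hn h10
          simpa [pr] using this
        have hprod : (gauge (plr B) (α, 1))⁻¹ * α * (W α).1 = 1 := by
          have := h4
          simp only [pr, hW2, mul_zero, add_zero, Prod.smul_fst, smul_eq_mul] at this
          exact this
        have habs : |(W α).1| = 1 := num2 hn1 hW1 hprod
        have hsq : (pr δ (W α)) ^ 2 = δ.1 ^ 2 := by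
          have h9 : pr δ (W α) = δ.1 * (W α).1 := by simp [pr, hW2]
          rw [h9, mul_pow, ← sq_abs (W α).1, habs]
          ring
        have h10' : 0 ≤ (pr δ (W α)) ^ 2 / (k * δ.1) - pr δ (k, 0) := by
          rw [hsq, hδκ, sub_nonneg, le_div_iff₀ hkδ]
          have h11 := mul_le_mul_of_nonneg_right hk1 (sq_nonneg δ.1)
          calc k * δ.1 * (k * δ.1) = k ^ 2 * δ.1 ^ 2 := by ring
            _ ≤ 1 * δ.1 ^ 2 := h11
            _ = _ := one_mul _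
        exact mul_nonneg (by linarith) h10'
    have hZ0 : 0 ≤ ∫ α, -te2 α * ((pr δ (W α)) ^ 2 / (k * δ.1) - pr δ (k, 0)) *
        (gauge (plr B) (α, 1))⁻¹ ^ 2 := by
      refine integral_nonneg_of_ae ?_
      filter_upwards [hτ0] with α h
      exact mul_nonneg h (by positivity)
    have hXle : (∫ α, -te2 α * ((pr δ (W α)) ^ 2 / (k * δ.1) - pr δ (k, 0)) *
        (pr (α, 1) (k, 0)) ^ 2 * (gauge (plr B) (α, 1))⁻¹ ^ 4) ≤
        k ^ 2 * ∫ α, -te2 α * ((pr δ (W α)) ^ 2 / (k * δ.1) - pr δ (k, 0)) *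
        (gauge (plr B) (α, 1))⁻¹ ^ 2 := by
      rw [← integral_const_mul]
      refine integral_mono_ae iX (ib.const_mul _) ?_
      filter_upwards [hτ0] with α h
      calc _ = -te2 α * ((pr δ (W α)) ^ 2 / (k * δ.1) - pr δ (k, 0)) *
            ((pr (α, 1) (k, 0)) ^ 2 * (gauge (plr B) (α, 1))⁻¹ ^ 4) := by ring
        _ ≤ -te2 α * ((pr δ (W α)) ^ 2 / (k * δ.1) - pr δ (k, 0)) *
            (k ^ 2 * (gauge (plr B) (α, 1))⁻¹ ^ 2) := mul_le_mul_of_nonneg_left (hFV α).2 h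
        _ = _ := by ring
    have e0 : (∫ a, te1 a * ((pr δ ((gauge B (a, 1))⁻¹ • ((a, 1) : ℝ × ℝ))) ^ 2 / (k * δ.1) -
        pr δ (k, 0)) * (gauge B (a, 1))⁻¹ ^ 2) = 0 := by
      simp [hte10]
    rw [e0, mul_zero, zero_div, zero_add] at limL
    have hfin := finish hε limL limQ (N := N)
      (num_zero hAp hYpos hZ0 hXle hYlo hN8) hη
    filter_upwards [hfin] with j hj
    convert hj using 2
    ring
  · -- lam > 0
    have hdet1 : ∀ᵐ a : ℝ, lam * (Nf a).2 * v a ≤ Ct := by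
      filter_upwards [hG'] with a ⟨⟨h1, h2⟩, _⟩
      rw [abs_of_nonpos h1] at h2
      simpa [hte1] using h2
    have hdet2 : ∀ᵐ α : ℝ, 0 < (W α).2 ∧ -te2 α = lam / (V α * (W α).2) ∧
        lam ≤ Ct * (W α).2 * V α := by
      filter_upwards [hP2] with α ⟨⟨h1, hb1⟩, s, h2, h3, h4, h5, h6, h7⟩
      simp only [Prod.smul_snd, smul_eq_mul, mul_one] at h6
      have h8 : 0 < lam * (V α)⁻¹ := mul_pos hl0 (inv_pos.2 (hVpos α))
      have h9 : 0 < -te2 α * (W α).2 := by rw [← h6]; exact h8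
      have h10 : 0 < (W α).2 := by
        by_contra hneg
        have := mul_nonpos_of_nonneg_of_nonpos (neg_nonneg.2 h1) (not_lt.1 hneg)
        linarith
      have hVa := hVpos α
      refine ⟨h10, ?_, ?_⟩
      · rw [eq_div_iff (by positivity)]
        have : -te2 α * (V α * (W α).2) = V α * (-te2 α * (W α).2) := by ring
        rw [this, ← h6]
        simp only [hV]
        have := (hVpos α).ne'
        simp only [hV] at this
        field_simp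
      · rw [abs_of_nonpos h1] at hb1
        have h11 : lam * (V α)⁻¹ ≤ Ct * (W α).2 := by
          rw [show lam * (V α)⁻¹ = -te2 α * (W α).2 from h6]
          exact mul_le_mul_of_nonneg_right hb1 h10.le
        calc lam = lam * (V α)⁻¹ * V α := by field_simp
          _ ≤ Ct * (W α).2 * V α := mul_le_mul_of_nonneg_right h11 hVa.le
    have hpl := planar_ineq hB h10 hx (Ct / lam) (by
        filter_upwards [hdet1, hu1] with a h1 ⟨_, h2⟩ n hn hna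
        rw [h2 n hn hna, le_div_iff₀ hl0]
        calc _ = lam * (Nf a).2 * v a := by simp only [hNf, hv]; ring
          _ ≤ Ct := h1) (by
        filter_upwards [hdet2, hu2] with α ⟨h1, _, h3⟩ ⟨_, h2⟩ w hw hwa
        have hww : w = W α := h2 w hw (by rw [pr_comm]; exact hwa)
        rw [hww]
        calc (1 : ℝ) = lam / lam := (div_self hl0.ne').symm
          _ ≤ (Ct * (W α).2 * V α) / lam := by gcongr
          _ = _ := by simp only [hV]; ring) k hk0.le (hkk.trans hk.le)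
    obtain ⟨i1, i2, i3, hW0, hineq⟩ := hpl
    -- second linear map
    obtain ⟨T', hT'⟩ := exists_T (mapL' δ m k lam) hε0
    have hL' : ∀ (n w : ℝ × ℝ) (te s : ℝ), pr n w = 1 → pr n m = -te * w.1 + s * k →
        lam * n.2 = -te * w.2 →
        pr n (mapL' δ m k lam w) = s * pr δ w - te * (δ.1 * w.1 ^ 2 / k) := by
      intro n w te s _ h2 h3
      have e1 : pr n (mapL' δ m k lam w) =
          (pr δ w / k) * pr n m - (lam * n.2) * δ.2 * w.1 / k := by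
        simp only [mapL', pr, LinearMap.coe_mk, AddHom.coe_mk, Prod.fst_sub, Prod.snd_sub,
          Prod.smul_fst, Prod.smul_snd, smul_eq_mul]
        ring
      rw [e1, h2, h3]
      have hk' := hk0.ne'
      simp only [pr]
      field_simp
      ring
    obtain ⟨⟨Ct'', hb''⟩, sg', sp'⟩ := lin_change hB hj hε hε0 hb hGa hPa (mapL' δ m k lam)
      (fun w => δ.1 * w.1 ^ 2 / k) hL' T' hT'
    obtain ⟨_, _, limL'⟩ := MV_lim hB (fun j => (hj j).image (T' j))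
      (fun j => MV_image (hj j) (T' j)) hε hε0 hb'' sg' sp'
    have eE1 : (∫ a, te1 a * (δ.1 * ((gauge B (a, 1))⁻¹ • ((a, 1) : ℝ × ℝ)).1 ^ 2 / k -
        pr δ (k, 0)) * (gauge B (a, 1))⁻¹ ^ 2) =
        -(lam * δ.1 / k) * ∫ a, (v a - a * deriv v a) * (a ^ 2 - k ^ 2 * (v a) ^ 2) /
          (v a) ^ 3 := by
      rw [← integral_const_mul]
      congr 1
      ext a
      rw [hδκ]
      simp only [hte1, hNf, Prod.smul_fst, smul_eq_mul]
      have h1 : gauge B (a, 1) = v a := rfl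
      rw [h1]
      have h2 := (hvpos a).ne'
      have h3 := hk0.ne'
      field_simp
    have eE2 : (∫ α, -te2 α * (δ.1 * (W α).1 ^ 2 / k - pr δ (k, 0)) *
        (gauge (plr B) (α, 1))⁻¹ ^ 2) =
        (lam * δ.1 / k) * ∫ α, ((deriv V α) ^ 2 - k ^ 2) /
          ((V α) ^ 3 * (V α - α * deriv V α)) := by
      rw [← integral_const_mul]
      refine integral_congr_ae ?_
      filter_upwards [hdet2] with α ⟨h1, h2, _⟩
      rw [hδκ, h2]
      have h4 : gauge (plr B) (α, 1) = V α := rfl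
      have h5 : (W α).1 = deriv V α := rfl
      have h6 : (W α).2 = V α - α * deriv V α := rfl
      rw [h4, h5, ← h6]
      have h7 := (hVpos α).ne'
      have h8 := h1.ne'
      have h3 := hk0.ne'
      field_simp
    have hW2 : ∀ α, V α - α * deriv V α = (W α).2 := fun α => rfl
    have hX : (∫ α, -te2 α * ((pr δ (W α)) ^ 2 / (k * δ.1) - pr δ (k, 0)) *
        (pr (α, 1) (k, 0)) ^ 2 * (gauge (plr B) (α, 1))⁻¹ ^ 4) ≤
        lam * k ^ 2 * ∫ α, 1 / ((V α) ^ 3 * (V α - α * deriv V α)) := by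
      rw [← integral_const_mul]
      refine integral_mono_ae iX (i3.const_mul _) ?_
      filter_upwards [hP2, hdet2] with α ⟨⟨h1, _⟩, _, hWB, _⟩ ⟨h3, h4, _⟩
      have hg : (pr δ (W α)) ^ 2 / (k * δ.1) - pr δ (k, 0) ≤ 1 := by
        have h5 : (pr δ (W α)) ^ 2 / (k * δ.1) ≤ 1 := by
          rw [div_le_one hkδ]; exact hcs _ hWB
        rw [hδκ]; linarith
      have hVa := hVpos α
      have ht : 0 ≤ -te2 α := by linarith
      obtain ⟨hf0, hf1⟩ := hFV α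
      rw [hW2 α]
      calc _ = -te2 α * ((pr δ (W α)) ^ 2 / (k * δ.1) - pr δ (k, 0)) *
            ((pr (α, 1) (k, 0)) ^ 2 * (gauge (plr B) (α, 1))⁻¹ ^ 4) := by ring
        _ ≤ -te2 α * 1 * ((pr (α, 1) (k, 0)) ^ 2 * (gauge (plr B) (α, 1))⁻¹ ^ 4) :=
            mul_le_mul_of_nonneg_right (mul_le_mul_of_nonneg_left hg ht) hf0
        _ ≤ -te2 α * 1 * (k ^ 2 * (gauge (plr B) (α, 1))⁻¹ ^ 2) :=
            mul_le_mul_of_nonneg_left hf1 (by rw [mul_one]; exact ht)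
        _ = lam * k ^ 2 * (1 / ((V α) ^ 3 * (W α).2)) := by
            rw [h4]
            have h6 : gauge (plr B) (α, 1) = V α := rfl
            rw [h6]
            have h7 := h3.ne'
            field_simp
    have hZ : -(lam * ∫ α, 1 / ((V α) ^ 3 * (V α - α * deriv V α))) ≤
        ∫ α, -te2 α * ((pr δ (W α)) ^ 2 / (k * δ.1) - pr δ (k, 0)) *
          (gauge (plr B) (α, 1))⁻¹ ^ 2 := by
      rw [← integral_const_mul, ← integral_neg]
      refine integral_mono_ae (i3.const_mul _).neg ib ?_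
      filter_upwards [hP2, hdet2] with α ⟨⟨h1, _⟩, _, hWB, _⟩ ⟨h3, h4, _⟩
      have hg : -1 ≤ (pr δ (W α)) ^ 2 / (k * δ.1) - pr δ (k, 0) := by
        have h5 : 0 ≤ (pr δ (W α)) ^ 2 / (k * δ.1) := by positivity
        rw [hδκ]; linarith
      have hVa := hVpos α
      have ht : 0 ≤ -te2 α := by linarith
      rw [hW2 α]
      calc -(lam * (1 / ((V α) ^ 3 * (W α).2))) = -te2 α * (-1) * (gauge (plr B) (α, 1))⁻¹ ^ 2 := by
            rw [h4]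
            have h6 : gauge (plr B) (α, 1) = V α := rfl
            rw [h6]
            have h7 := h3.ne'
            field_simp
        _ ≤ -te2 α * ((pr δ (W α)) ^ 2 / (k * δ.1) - pr δ (k, 0)) *
            (gauge (plr B) (α, 1))⁻¹ ^ 2 :=
            mul_le_mul_of_nonneg_right (mul_le_mul_of_nonneg_left hg ht) (by positivity)
    have hMVA : (∫ a, (v a)⁻¹ ^ 2) * (∫ α, (V α)⁻¹ ^ 2) ≤ P1 := by
      rw [← (vol_slope hB).2, ← (vol_slope hB.plr).2]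
      exact hMV
    rw [eE1, eE2] at limL'
    have hfin := finish hε limL' limQ (N := N) ?_ hη
    · filter_upwards [hfin] with j hj
      convert hj using 2
      ring
    · have hnum := num_pos hAp hA hk0 hkk hk hP hMVA hl0 hδlo hYlo hX hZ hW0 hineq hN2
      convert hnum using 2
      ring

end Pool.Agent.Helper18.BL
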