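import Mathlib
import Pool.Agent.Helper18.BL.T5
import Pool.Agent.Helper18.BL.T7a

set_option autoImplicit false

open Set MeasureTheory Filter Topology Metric
open scoped RealInnerProductSpace

namespace Pool.Agent.Helper18.BL
namespace Setting
variable (S : Setting)

/-- static inequalities between two pairs with the same `n` -/
theorem t9a_ineq {v v1 w w1 n δ : E} {t t' s s' ε : ℝ} (hv : v ≠ 0) (hv1 : v1 ≠ 0)
    (hvv : v = v1 + ε • δ) (h : S.Pair v w n t t') (h1 : S.Pair v1 w1 n s s') :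
    (⟪n, S.C v + w⟫ ≤ ⟪n, S.C v1 + w1⟫ + s * ((S.h v - S.h v1) - ε * ⟪δ, S.C v + w⟫)) ∧
    (-⟪n, S.C v - w⟫ ≤ -⟪n, S.C v1 - w1⟫ + s' * ((S.h v - S.h v1) - ε * ⟪δ, S.C v - w⟫)) ∧
    (⟪n, S.C v1 + w1⟫ + t * ((S.h v - S.h v1) - ε * ⟪δ, S.C v1 + w1⟫) ≤ ⟪n, S.C v + w⟫) ∧
    (-⟪n, S.C v1 - w1⟫ + t' * ((S.h v - S.h v1) - ε * ⟪δ, S.C v1 - w1⟫) ≤ -⟪n, S.C v - w⟫) := by
  obtain ⟨hw, hp, hm⟩ := h
  obtain ⟨hw1, hp1, hm1⟩ := h1
  have hwn := S.Sp_neg hv hw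
  have hw1n := S.Sp_neg hv1 hw1
  have a1 : ⟪v, S.C v⟫ = S.h v := S.C_h v hv
  have a2 : ⟪v1, S.C v1⟫ = S.h v1 := S.C_h v1 hv1
  have b1 : ⟪v, w⟫ = 0 := hw.1
  have b2 : ⟪v1, w1⟫ = 0 := hw1.1
  have e1 := hp1 (S.C v + w) hw.2
  have e2 := hm1 (S.C v + -w) hwn.2
  have e3 := hp (S.C v1 + w1) hw1.2
  have e4 := hm (S.C v1 + -w1) hw1n.2
  have c1 : ⟪v, S.C v⟫ = ⟪v1, S.C v⟫ + ε * ⟪δ, S.C v⟫ := by
    rw [hvv, inner_add_left, inner_smul_left]; simp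
  have c2 : ⟪v, w⟫ = ⟪v1, w⟫ + ε * ⟪δ, w⟫ := by
    rw [hvv, inner_add_left, inner_smul_left]; simp
  have c3 : ⟪v, S.C v1⟫ = ⟪v1, S.C v1⟫ + ε * ⟪δ, S.C v1⟫ := by
    rw [hvv, inner_add_left, inner_smul_left]; simp
  have c4 : ⟪v, w1⟫ = ⟪v1, w1⟫ + ε * ⟪δ, w1⟫ := by
    rw [hvv, inner_add_left, inner_smul_left]; simp
  simp only [inner_sub_left, inner_add_right, inner_sub_right, inner_smul_left, inner_neg_left,
    inner_neg_right, conj_trivial] at e1 e2 e3 e4 ⊢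
  have d1 : ⟪v1, S.C v⟫ = S.h v - ε * ⟪δ, S.C v⟫ := by linarith
  have d2 : ⟪v1, w⟫ = - (ε * ⟪δ, w⟫) := by linarith
  have d3 : ⟪v, S.C v1⟫ = S.h v1 + ε * ⟪δ, S.C v1⟫ := by linarith
  have d4 : ⟪v, w1⟫ = ε * ⟪δ, w1⟫ := by linarith
  rw [d1, d2, a2, b2] at e1 e2
  rw [d3, d4, a1, b1] at e3 e4
  refine ⟨?_, ?_, ?_, ?_⟩ <;> nlinarith

theorem t9a_norm {u δ : E} {ε : ℝ} (hu : ‖u‖ = 1) (hδu : ⟪u, δ⟫ = 0) :
    1 ≤ ‖u + ε • δ‖ := by
  have h1 : ⟪u, u + ε • δ⟫ = 1 := by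
    rw [inner_add_right, inner_smul_right, hδu, real_inner_self_eq_norm_sq, hu]
    norm_num
  have h2 := real_inner_le_norm u (u + ε • δ)
  rw [h1, hu, one_mul] at h2
  exact h2

theorem t9a_bound {v w n : E} {t t' : ℝ} (hv : 1 ≤ ‖v‖) (h : S.Pair v w n t t') :
    ‖w‖ ≤ 2 * S.R ∧ |t| ≤ ‖n‖ + 4 * S.R / S.r * ‖n‖ ∧ |t'| ≤ ‖n‖ + 4 * S.R / S.r * ‖n‖ := by
  have hv0 : v ≠ 0 := by
    intro h0
    rw [h0, norm_zero] at hv
    linarith
  obtain ⟨h1, h2⟩ := S.pair_bound hv0 h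
  refine ⟨S.Sp_norm hv0 h.1, ?_, ?_⟩
  · have h3 : ‖t • v‖ ≤ ‖n‖ + ‖n - t • v‖ := by
      have : t • v = n - (n - t • v) := by abel
      calc ‖t • v‖ = ‖n - (n - t • v)‖ := by rw [← this]
        _ ≤ ‖n‖ + ‖n - t • v‖ := norm_sub_le _ _
    rw [norm_smul, Real.norm_eq_abs] at h3
    have h4 : |t| ≤ |t| * ‖v‖ := le_mul_of_one_le_right (abs_nonneg _) hv
    linarith
  · have h3 : ‖t' • v‖ ≤ ‖n‖ + ‖n + t' • v‖ := by
      have : t' • v = (n + t' • v) - n := by abel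
      calc ‖t' • v‖ = ‖(n + t' • v) - n‖ := by rw [← this]
        _ ≤ ‖n + t' • v‖ + ‖n‖ := norm_sub_le _ _
        _ = _ := add_comm _ _
    rw [norm_smul, Real.norm_eq_abs] at h3
    have h4 : |t'| ≤ |t'| * ‖v‖ := le_mul_of_one_le_right (abs_nonneg _) hv
    linarith

/-- extraction of a convergent subsequence of pairs -/
theorem t9a_extract {n u : E} {v w : ℕ → E} {t t' : ℕ → ℝ} (hu0 : u ≠ 0)
    (hv1 : ∀ j, 1 ≤ ‖v j‖) (hv : Tendsto v atTop (𝓝 u))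
    (h : ∀ j, S.Pair (v j) (w j) n (t j) (t' j)) :
    ∃ (φ : ℕ → ℕ) (w1 : E) (s s' : ℝ), StrictMono φ ∧ Tendsto (fun j => w (φ j)) atTop (𝓝 w1) ∧
      Tendsto (fun j => t (φ j)) atTop (𝓝 s) ∧ Tendsto (fun j => t' (φ j)) atTop (𝓝 s') ∧
      S.Pair u w1 n s s' := by
  set Cn := ‖n‖ + 4 * S.R / S.r * ‖n‖ with hCn
  have hcomp : IsCompact ((closedBall (0 : E) (2 * S.R)) ×ˢ ((Icc (-Cn) Cn) ×ˢ (Icc (-Cn) Cn))) :=
    (isCompact_closedBall _ _).prod (isCompact_Icc.prod isCompact_Icc)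
  obtain ⟨p, _, φ, hφ, hlim⟩ := hcomp.tendsto_subseq (x := fun j => (w j, t j, t' j)) (by
    intro j
    obtain ⟨b1, b2, b3⟩ := S.t9a_bound (hv1 j) (h j)
    refine ⟨?_, ?_, ?_⟩
    · simpa using b1
    · exact abs_le.mp b2
    · exact abs_le.mp b3)
  have l1 : Tendsto (fun j => w (φ j)) atTop (𝓝 p.1) :=
    (continuous_fst.tendsto p).comp hlim
  have l2 : Tendsto (fun j => t (φ j)) atTop (𝓝 p.2.1) :=
    ((continuous_fst.comp continuous_snd).tendsto p).comp hlim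
  have l3 : Tendsto (fun j => t' (φ j)) atTop (𝓝 p.2.2) :=
    ((continuous_snd.comp continuous_snd).tendsto p).comp hlim
  refine ⟨φ, p.1, p.2.1, p.2.2, hφ, l1, l2, l3, ?_⟩
  exact S.pair_closed hu0 (fun j => h (φ j)) (hv.comp hφ.tendsto_atTop) l1 tendsto_const_nhds l2 l3

/-- the two limits, along a sequence of pairs -/
theorem t9a_core {u δ κ n w1 : E} {s s' Cn : ℝ} {ε t t' : ℕ → ℝ} {w : ℕ → E} (hu : ‖u‖ = 1)
    (hδu : ⟪u, δ⟫ = 0) (hε : ∀ j, 0 < ε j)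
    (hC : Tendsto (fun j => S.C (u + ε j • δ)) atTop (𝓝 (S.C u)))
    (hh : Tendsto (fun j => (S.h (u + ε j • δ) - S.h u) / ε j) atTop (𝓝 ⟪S.C u + κ, δ⟫))
    (hw : Tendsto w atTop (𝓝 w1)) (hp : ∀ j, S.Pair (u + ε j • δ) (w j) n (t j) (t' j))
    (hp1 : S.Pair u w1 n s s') (hb : ∀ j, |t j| ≤ Cn) (hb' : ∀ j, |t' j| ≤ Cn)
    (ha : Tendsto (fun j => t j * (⟪w1, δ⟫ - ⟪κ, δ⟫)) atTop (𝓝 (s * (⟪w1, δ⟫ - ⟪κ, δ⟫))))
    (ha' : Tendsto (fun j => t' j * (⟪w1, δ⟫ + ⟪κ, δ⟫)) atTop (𝓝 (s' * (⟪w1, δ⟫ + ⟪κ, δ⟫)))) :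
    Tendsto (fun j => (⟪n, w j⟫ - ⟪n, w1⟫) / ε j) atTop
      (𝓝 (-((s - s') / 2) * ⟪w1, δ⟫ + ((s + s') / 2) * ⟪κ, δ⟫)) ∧
    Tendsto (fun j => ⟪n, S.C (u + ε j • δ) - S.C u⟫ / ε j) atTop
      (𝓝 (((s - s') / 2) * ⟪κ, δ⟫ - ((s + s') / 2) * ⟪w1, δ⟫)) := by
  have hu0 : u ≠ 0 := by
    intro h0
    rw [h0, norm_zero] at hu
    linarith
  have hv0 : ∀ j, u + ε j • δ ≠ 0 := by
    intro j h0
    have := t9a_norm (ε := ε j) hu hδu
    rw [h0, norm_zero] at this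
    linarith
  have hin := fun j => S.t9a_ineq (hv0 j) hu0 rfl (hp j) hp1
  -- quotients
  set X : ℕ → ℝ := fun j => (⟪n, S.C (u + ε j • δ) + w j⟫ - ⟪n, S.C u + w1⟫) / ε j with hX
  set Y : ℕ → ℝ := fun j => (-⟪n, S.C (u + ε j • δ) - w j⟫ + ⟪n, S.C u - w1⟫) / ε j with hY
  set D : ℕ → ℝ := fun j => (S.h (u + ε j • δ) - S.h u) / ε j with hD
  have hX1 : ∀ j, X j ≤ s * (D j - ⟪δ, S.C (u + ε j • δ) + w j⟫) := by
    intro j
    have h1 := (hin j).1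
    have h2 := hε j
    simp only [hX, hD]
    rw [div_le_iff₀ h2]
    have : s * ((S.h (u + ε j • δ) - S.h u) / ε j - ⟪δ, S.C (u + ε j • δ) + w j⟫) * ε j =
        s * ((S.h (u + ε j • δ) - S.h u) - ε j * ⟪δ, S.C (u + ε j • δ) + w j⟫) := by
      field_simp
    rw [this]
    linarith
  have hX2 : ∀ j, t j * (D j - ⟪δ, S.C u + w1⟫) ≤ X j := by
    intro j
    have h1 := (hin j).2.2.1
    have h2 := hε j
    simp only [hX, hD]
    rw [le_div_iff₀ h2]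
    have : t j * ((S.h (u + ε j • δ) - S.h u) / ε j - ⟪δ, S.C u + w1⟫) * ε j =
        t j * ((S.h (u + ε j • δ) - S.h u) - ε j * ⟪δ, S.C u + w1⟫) := by
      field_simp
    rw [this]
    linarith
  have hY1 : ∀ j, Y j ≤ s' * (D j - ⟪δ, S.C (u + ε j • δ) - w j⟫) := by
    intro j
    have h1 := (hin j).2.1
    have h2 := hε j
    simp only [hY, hD]
    rw [div_le_iff₀ h2]
    have : s' * ((S.h (u + ε j • δ) - S.h u) / ε j - ⟪δ, S.C (u + ε j • δ) - w j⟫) * ε j =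
        s' * ((S.h (u + ε j • δ) - S.h u) - ε j * ⟪δ, S.C (u + ε j • δ) - w j⟫) := by
      field_simp
    rw [this]
    linarith
  have hY2 : ∀ j, t' j * (D j - ⟪δ, S.C u - w1⟫) ≤ Y j := by
    intro j
    have h1 := (hin j).2.2.2
    have h2 := hε j
    simp only [hY, hD]
    rw [le_div_iff₀ h2]
    have : t' j * ((S.h (u + ε j • δ) - S.h u) / ε j - ⟪δ, S.C u - w1⟫) * ε j =
        t' j * ((S.h (u + ε j • δ) - S.h u) - ε j * ⟪δ, S.C u - w1⟫) := by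
      field_simp
    rw [this]
    linarith
  -- limits of the bounds
  have hinn : ∀ x : ℕ → E, ∀ x0 : E, Tendsto x atTop (𝓝 x0) →
      Tendsto (fun j => ⟪δ, x j⟫) atTop (𝓝 ⟪δ, x0⟫) := fun x x0 hx => tendsto_const_nhds.inner hx
  have e1 : ⟪S.C u + κ, δ⟫ - ⟪δ, S.C u + w1⟫ = -(⟪w1, δ⟫ - ⟪κ, δ⟫) := by
    rw [inner_add_left, inner_add_right, real_inner_comm δ (S.C u), real_inner_comm δ w1]
    ring
  have e2 : ⟪S.C u + κ, δ⟫ - ⟪δ, S.C u - w1⟫ = ⟪w1, δ⟫ + ⟪κ, δ⟫ := by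
    rw [inner_add_left, inner_sub_right, real_inner_comm δ (S.C u), real_inner_comm δ w1]
    ring
  have hXlim : Tendsto X atTop (𝓝 (-(s * (⟪w1, δ⟫ - ⟪κ, δ⟫)))) := by
    apply tendsto_of_tendsto_of_tendsto_of_le_of_le _ _ hX2 hX1
    · have h1 : Tendsto (fun j => D j - ⟪δ, S.C u + w1⟫ + (⟪w1, δ⟫ - ⟪κ, δ⟫)) atTop (𝓝 0) := by
        have := (hh.sub_const ⟪δ, S.C u + w1⟫).add_const (⟪w1, δ⟫ - ⟪κ, δ⟫)
        rw [e1, neg_add_cancel] at this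
        exact this
      have h2 : Tendsto (fun j => t j * (D j - ⟪δ, S.C u + w1⟫ + (⟪w1, δ⟫ - ⟪κ, δ⟫))) atTop
          (𝓝 0) := by
        apply squeeze_zero_norm (a := fun j => Cn * ‖D j - ⟪δ, S.C u + w1⟫ + (⟪w1, δ⟫ - ⟪κ, δ⟫)‖)
        · intro j
          rw [norm_mul, Real.norm_eq_abs (t j)]
          exact mul_le_mul_of_nonneg_right (hb j) (norm_nonneg _)
        · have := (h1.norm).const_mul Cn
          simpa using this
      have h3 := h2.sub ha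
      rw [zero_sub] at h3
      refine h3.congr (fun j => ?_)
      ring
    · have h1 := (hh.sub (hinn _ _ (hC.add hw))).const_mul s
      rw [e1] at h1
      have h2 : s * -(⟪w1, δ⟫ - ⟪κ, δ⟫) = -(s * (⟪w1, δ⟫ - ⟪κ, δ⟫)) := by ring
      rw [h2] at h1
      exact h1
  have hYlim : Tendsto Y atTop (𝓝 (s' * (⟪w1, δ⟫ + ⟪κ, δ⟫))) := by
    apply tendsto_of_tendsto_of_tendsto_of_le_of_le _ _ hY2 hY1
    · have h1 : Tendsto (fun j => D j - ⟪δ, S.C u - w1⟫ - (⟪w1, δ⟫ + ⟪κ, δ⟫)) atTop (𝓝 0) := by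
        have := (hh.sub_const ⟪δ, S.C u - w1⟫).sub_const (⟪w1, δ⟫ + ⟪κ, δ⟫)
        rw [e2, sub_self] at this
        exact this
      have h2 : Tendsto (fun j => t' j * (D j - ⟪δ, S.C u - w1⟫ - (⟪w1, δ⟫ + ⟪κ, δ⟫))) atTop
          (𝓝 0) := by
        apply squeeze_zero_norm (a := fun j => Cn * ‖D j - ⟪δ, S.C u - w1⟫ - (⟪w1, δ⟫ + ⟪κ, δ⟫)‖)
        · intro j
          rw [norm_mul, Real.norm_eq_abs (t' j)]
          exact mul_le_mul_of_nonneg_right (hb' j) (norm_nonneg _)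
        · have := (h1.norm).const_mul Cn
          simpa using this
      have h3 := h2.add ha'
      rw [zero_add] at h3
      refine h3.congr (fun j => ?_)
      ring
    · have h1 := (hh.sub (hinn _ _ (hC.sub hw))).const_mul s'
      rw [e2] at h1
      exact h1
  constructor
  · have h1 := (hXlim.add hYlim).div_const 2
    have e3 : (-(s * (⟪w1, δ⟫ - ⟪κ, δ⟫)) + s' * (⟪w1, δ⟫ + ⟪κ, δ⟫)) / 2 =
        -((s - s') / 2) * ⟪w1, δ⟫ + ((s + s') / 2) * ⟪κ, δ⟫ := by ring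
    rw [e3] at h1
    refine h1.congr (fun j => ?_)
    simp only [hX, hY, inner_add_right, inner_sub_right]
    field_simp
    ring
  · have h1 := (hXlim.sub hYlim).div_const 2
    have e3 : (-(s * (⟪w1, δ⟫ - ⟪κ, δ⟫)) - s' * (⟪w1, δ⟫ + ⟪κ, δ⟫)) / 2 =
        ((s - s') / 2) * ⟪κ, δ⟫ - ((s + s') / 2) * ⟪w1, δ⟫ := by ring
    rw [e3] at h1
    refine h1.congr (fun j => ?_)
    simp only [hX, hY, inner_add_right, inner_sub_right]
    field_simp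
    ring

theorem t9a_setup {P : Set ℝ} {u δ κ : E} {A0 : E →L[ℝ] E} {ε : ℕ → ℝ}
    {A : ℕ → E →L[ℝ] E} {κj : ℕ → E} (hu : ‖u‖ = 1) (hδu : ⟪u, δ⟫ = 0)
    (hε : ∀ j, 0 < ε j) (hε0 : Tendsto ε atTop (𝓝 0))
    (hD : ∀ j, S.Dat P (u + ε j • δ) (A j) (κj j))
    (hκ : Tendsto κj atTop (𝓝 κ)) :
    Tendsto (fun j => u + ε j • δ) atTop (𝓝 u) ∧
    Tendsto (fun j => S.C (u + ε j • δ)) atTop (𝓝 (S.C u)) ∧
    (S.C u + κ ∈ S.F u ∧ (∀ κ', S.C u + κ' ∈ S.F u → ⟪κ', δ⟫ ≤ ⟪κ, δ⟫) ∧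
      Tendsto (fun j => (S.h (u + ε j • δ) - S.h u) / ε j) atTop (𝓝 ⟪S.C u + κ, δ⟫)) := by
  have hu0 : u ≠ 0 := by
    intro h0
    rw [h0, norm_zero] at hu
    linarith
  have hv0 : ∀ j, u + ε j • δ ≠ 0 := by
    intro j h0
    have := t9a_norm (ε := ε j) hu hδu
    rw [h0, norm_zero] at this
    linarith
  have hv : Tendsto (fun j => u + ε j • δ) atTop (𝓝 u) := by
    have h1 : Tendsto (fun j => ε j • δ) atTop (𝓝 ((0 : ℝ) • δ)) := hε0.smul_const δ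
    have h2 := tendsto_const_nhds (x := u) (f := atTop (α := ℕ)) |>.add h1
    rw [zero_smul, add_zero] at h2
    exact h2
  refine ⟨hv, (S.C_cont hu0).tendsto.comp hv, ?_⟩
  exact S.blowup_h (δj := fun _ => δ) hu0 hε hε0 tendsto_const_nhds (fun j => rfl) hv0
    (fun j => (hD j).1) hκ

/-- first variation of the support function of the section, for `n` with a unique maximiser -/
theorem var_n {P : Set ℝ} (hP : IsClosed P) {u δ κ n w : E} {A0 : E →L[ℝ] E} {ε : ℕ → ℝ}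
    {A : ℕ → E →L[ℝ] E} {κj : ℕ → E} (hu : ‖u‖ = 1) (hδu : ⟪u, δ⟫ = 0)
    (hε : ∀ j, 0 < ε j) (hε0 : Tendsto ε atTop (𝓝 0))
    (hD : ∀ j, S.Dat P (u + ε j • δ) (A j) (κj j)) (hA : Tendsto A atTop (𝓝 A0))
    (hκ : Tendsto κj atTop (𝓝 κ)) (hpos : 0 < ⟪κ, δ⟫)
    (hn : ⟪u, n⟫ = 0) (hn0 : n ≠ 0) (hw : w ∈ S.Sp u) (hmax : ∀ w' ∈ S.Sp u, ⟪n, w'⟫ ≤ ⟪n, w⟫)
    (huniq : ∀ w' ∈ S.Sp u, ⟪n, w'⟫ = ⟪n, w⟫ → w' = w) :
    ∃ t t' : ℝ, S.Pair u w n t t' ∧ Rel A0 κ w n t t' ∧ t + t' ∈ P ∧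
      Tendsto (fun j => (S.lsup (u + ε j • δ) n - S.lsup u n) / ε j) atTop
        (𝓝 (-((t - t') / 2) * ⟪w, δ⟫ + ((t + t') / 2) * ⟪κ, δ⟫)) := by
  have hu0 : u ≠ 0 := by
    intro h0
    rw [h0, norm_zero] at hu
    linarith
  have hv1 : ∀ j, 1 ≤ ‖u + ε j • δ‖ := fun j => t9a_norm hu hδu
  have hv0 : ∀ j, u + ε j • δ ≠ 0 := by
    intro j h0
    have := hv1 j
    rw [h0, norm_zero] at this
    linarith
  obtain ⟨hv, hC, hF, hFm, hh⟩ := S.t9a_setup (A0 := A0) hu hδu hε hε0 hD hκ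
  choose wj tj tj' hp hrel htP using fun j => (hD j).2.1 n
  set Cn := ‖n‖ + 4 * S.R / S.r * ‖n‖ with hCn
  have hb : ∀ j, |tj j| ≤ Cn := fun j => (S.t9a_bound (hv1 j) (hp j)).2.1
  have hb' : ∀ j, |tj' j| ≤ Cn := fun j => (S.t9a_bound (hv1 j) (hp j)).2.2
  -- every limit point of the points `wj` is `w`
  have hlimw : ∀ w1 s s', S.Pair u w1 n s s' → w1 = w := by
    intro w1 s s' hpw
    apply huniq w1 hpw.1
    exact le_antisymm (hmax w1 hpw.1) (S.pair_max hu0 hpw w hw)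
  have hwj : Tendsto wj atTop (𝓝 w) := by
    apply tendsto_of_subseq_tendsto
    intro ns hns
    obtain ⟨φ, w1, s, s', hφ, l1, l2, l3, hpw⟩ := S.t9a_extract (n := n) (u := u)
      (v := fun j => u + ε (ns j) • δ) (w := fun j => wj (ns j)) (t := fun j => tj (ns j))
      (t' := fun j => tj' (ns j)) hu0 (fun j => hv1 (ns j)) (hv.comp hns) (fun j => hp (ns j))
    refine ⟨φ, ?_⟩
    rw [← hlimw w1 s s' hpw]
    exact l1
  -- choose a limit pair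
  obtain ⟨φ, w1, s, s', hφ, l1, l2, l3, hpw⟩ := S.t9a_extract (n := n) (u := u)
    (v := fun j => u + ε j • δ) (w := wj) (t := tj) (t' := tj') hu0 hv1 hv hp
  have hw1 := hlimw w1 s s' hpw
  subst hw1
  have hδc : Tendsto (fun _ : ℕ => δ) atTop (𝓝 δ) := tendsto_const_nhds
  have hbl := S.blowup_n (δj := fun _ => δ) hu hε hε0 (fun _ => hδu) hδc (fun j => rfl) hF hFm
    hwj hp hpw
  -- monotonicity gives uniqueness of the two products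
  have key : Tendsto (fun j => tj j * (⟪w1, δ⟫ - ⟪κ, δ⟫)) atTop (𝓝 (s * (⟪w1, δ⟫ - ⟪κ, δ⟫))) ∧
      Tendsto (fun j => tj' j * (⟪w1, δ⟫ + ⟪κ, δ⟫)) atTop (𝓝 (s' * (⟪w1, δ⟫ + ⟪κ, δ⟫))) := by
    have hboth : ∀ ns : ℕ → ℕ, Tendsto ns atTop atTop → ∃ ms : ℕ → ℕ,
        Tendsto (fun j => tj (ns (ms j)) * (⟪w1, δ⟫ - ⟪κ, δ⟫)) atTop
          (𝓝 (s * (⟪w1, δ⟫ - ⟪κ, δ⟫))) ∧
        Tendsto (fun j => tj' (ns (ms j)) * (⟪w1, δ⟫ + ⟪κ, δ⟫)) atTop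
          (𝓝 (s' * (⟪w1, δ⟫ + ⟪κ, δ⟫))) := by
      intro ns hns
      obtain ⟨ψ, w2, r, r', hψ, k1, k2, k3, hpr⟩ := S.t9a_extract (n := n) (u := u)
        (v := fun j => u + ε (ns j) • δ) (w := fun j => wj (ns j)) (t := fun j => tj (ns j))
        (t' := fun j => tj' (ns j)) hu0 (fun j => hv1 (ns j)) (hv.comp hns) (fun j => hp (ns j))
      have hw2 := hlimw w2 r r' hpr
      subst hw2
      have hbl2 := S.blowup_n (δj := fun _ => δ) hu hε hε0 (fun _ => hδu) hδc (fun j => rfl)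
        hF hFm hwj hp hpr
      have hns2 : Tendsto (fun j => ns (ψ j)) atTop atTop := hns.comp hψ.tendsto_atTop
      have c1 : 0 ≤ (r - s) * (⟪w2, δ⟫ - ⟪κ, δ⟫) := by
        apply le_of_forall_pos_le_add
        intro η hη
        have h1 := hns2.eventually (hbl.1 η hη)
        have h2 : Tendsto (fun j => (tj (ns (ψ j)) - s) * (⟪w2, δ⟫ - ⟪κ, δ⟫)) atTop
            (𝓝 ((r - s) * (⟪w2, δ⟫ - ⟪κ, δ⟫))) := (k2.sub_const s).mul_const _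
        have := ge_of_tendsto h2 h1
        linarith
      have c2 : 0 ≤ (s - r) * (⟪w2, δ⟫ - ⟪κ, δ⟫) := by
        apply le_of_forall_pos_le_add
        intro η hη
        have h1 := hφ.tendsto_atTop.eventually (hbl2.1 η hη)
        have h2 : Tendsto (fun j => (tj (φ j) - r) * (⟪w2, δ⟫ - ⟪κ, δ⟫)) atTop
            (𝓝 ((s - r) * (⟪w2, δ⟫ - ⟪κ, δ⟫))) := (l2.sub_const r).mul_const _
        have := ge_of_tendsto h2 h1
        linarith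
      have c3 : 0 ≤ (r' - s') * (-⟪w2, δ⟫ - ⟪κ, δ⟫) := by
        apply le_of_forall_pos_le_add
        intro η hη
        have h1 := hns2.eventually (hbl.2 η hη)
        have h2 : Tendsto (fun j => (tj' (ns (ψ j)) - s') * (-⟪w2, δ⟫ - ⟪κ, δ⟫)) atTop
            (𝓝 ((r' - s') * (-⟪w2, δ⟫ - ⟪κ, δ⟫))) := (k3.sub_const s').mul_const _
        have := ge_of_tendsto h2 h1
        linarith
      have c4 : 0 ≤ (s' - r') * (-⟪w2, δ⟫ - ⟪κ, δ⟫) := by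
        apply le_of_forall_pos_le_add
        intro η hη
        have h1 := hφ.tendsto_atTop.eventually (hbl2.2 η hη)
        have h2 : Tendsto (fun j => (tj' (φ j) - r') * (-⟪w2, δ⟫ - ⟪κ, δ⟫)) atTop
            (𝓝 ((s' - r') * (-⟪w2, δ⟫ - ⟪κ, δ⟫))) := (l3.sub_const r').mul_const _
        have := ge_of_tendsto h2 h1
        linarith
      have d1 : r * (⟪w2, δ⟫ - ⟪κ, δ⟫) = s * (⟪w2, δ⟫ - ⟪κ, δ⟫) := by nlinarith
      have d2 : r' * (⟪w2, δ⟫ + ⟪κ, δ⟫) = s' * (⟪w2, δ⟫ + ⟪κ, δ⟫) := by nlinarith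
      refine ⟨ψ, ?_, ?_⟩
      · rw [← d1]; exact k2.mul_const _
      · rw [← d2]; exact k3.mul_const _
    constructor
    · apply tendsto_of_subseq_tendsto
      intro ns hns
      obtain ⟨ms, h1, _⟩ := hboth ns hns
      exact ⟨ms, h1⟩
    · apply tendsto_of_subseq_tendsto
      intro ns hns
      obtain ⟨ms, _, h1⟩ := hboth ns hns
      exact ⟨ms, h1⟩
  have hcore := (S.t9a_core hu hδu hε hC hh hwj hp hpw hb hb' key.1 key.2).1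
  refine ⟨s, s', hpw, ?_, ?_, ?_⟩
  · -- limit of the relation
    unfold Rel
    have h1 : Tendsto (fun j => (2 : ℝ) • A (φ j) n) atTop (𝓝 ((2 : ℝ) • A0 n)) := by
      apply Tendsto.const_smul
      have h2 := hA.comp hφ.tendsto_atTop
      exact ((ContinuousLinearMap.apply ℝ E n).continuous.tendsto A0).comp h2
    have h2 : Tendsto (fun j => -(tj (φ j) + tj' (φ j)) • wj (φ j) +
        (tj (φ j) - tj' (φ j)) • κj (φ j)) atTop (𝓝 (-(s + s') • w1 + (s - s') • κ)) :=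
      ((l2.add l3).neg.smul l1).add ((l2.sub l3).smul (hκ.comp hφ.tendsto_atTop))
    have h3 : (fun j => (2 : ℝ) • A (φ j) n) = (fun j => -(tj (φ j) + tj' (φ j)) • wj (φ j) +
        (tj (φ j) - tj' (φ j)) • κj (φ j)) := by
      funext j
      exact hrel (φ j)
    rw [h3] at h1
    exact tendsto_nhds_unique h1 h2
  · exact hP.mem_of_tendsto (l2.add l3) (Eventually.of_forall (fun j => htP (φ j)))
  · have h1 : ∀ j, S.lsup (u + ε j • δ) n = ⟪n, wj j⟫ := by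
      intro j
      unfold lsup
      apply IsGreatest.csSup_eq
      refine ⟨⟨wj j, (hp j).1, rfl⟩, ?_⟩
      rintro y ⟨x, hx, rfl⟩
      exact S.pair_max (hv0 j) (hp j) x hx
    have h2 : S.lsup u n = ⟪n, w1⟫ := by
      unfold lsup
      apply IsGreatest.csSup_eq
      refine ⟨⟨w1, hpw.1, rfl⟩, ?_⟩
      rintro y ⟨x, hx, rfl⟩
      exact S.pair_max hu0 hpw x hx
    simp only [h1, h2]
    exact hcore

/-- first variation of the centre -/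
theorem var_C {u δ κ x : E} {A0 : E →L[ℝ] E} {ε : ℕ → ℝ}
    {A : ℕ → E →L[ℝ] E} {κj : ℕ → E} (hu : ‖u‖ = 1) (hδu : ⟪u, δ⟫ = 0)
    (hε : ∀ j, 0 < ε j) (hε0 : Tendsto ε atTop (𝓝 0))
    (hD : ∀ j, S.Dat univ (u + ε j • δ) (A j) (κj j)) (hA : Tendsto A atTop (𝓝 A0))
    (hκ : Tendsto κj atTop (𝓝 κ)) (hpos : 0 < ⟪κ, δ⟫) :
    Tendsto (fun j => ⟪x, S.C (u + ε j • δ) - S.C u⟫ / ε j) atTop (𝓝 ⟪A0 x, δ⟫) := by
  have hu0 : u ≠ 0 := by
    intro h0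
    rw [h0, norm_zero] at hu
    linarith
  have hv1 : ∀ j, 1 ≤ ‖u + ε j • δ‖ := fun j => t9a_norm hu hδu
  obtain ⟨hv, hC, hF, hFm, hh⟩ := S.t9a_setup (A0 := A0) hu hδu hε hε0 hD hκ
  choose wj tj tj' hp hrel htP using fun j => (hD j).2.1 x
  set Cn := ‖x‖ + 4 * S.R / S.r * ‖x‖ with hCn
  apply tendsto_of_subseq_tendsto
  intro ns hns
  obtain ⟨φ, w1, s, s', hφ, l1, l2, l3, hpw⟩ := S.t9a_extract (n := x) (u := u)
    (v := fun j => u + ε (ns j) • δ) (w := fun j => wj (ns j)) (t := fun j => tj (ns j))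
    (t' := fun j => tj' (ns j)) hu0 (fun j => hv1 (ns j)) (hv.comp hns) (fun j => hp (ns j))
  have hns2 : Tendsto (fun j => ns (φ j)) atTop atTop := hns.comp hφ.tendsto_atTop
  refine ⟨φ, ?_⟩
  have hcore := (S.t9a_core (ε := fun j => ε (ns (φ j))) (κ := κ) (Cn := Cn) hu hδu
    (fun j => hε _) (hC.comp hns2)
    (hh.comp hns2) l1 (fun j => hp (ns (φ j))) hpw
    (fun j => (S.t9a_bound (hv1 _) (hp _)).2.1) (fun j => (S.t9a_bound (hv1 _) (hp _)).2.2)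
    (l2.mul_const _) (l3.mul_const _)).2
  have hR : Rel A0 κ w1 x s s' := by
    unfold Rel
    have h1 : Tendsto (fun j => (2 : ℝ) • A (ns (φ j)) x) atTop (𝓝 ((2 : ℝ) • A0 x)) := by
      apply Tendsto.const_smul
      have h2 := hA.comp hns2
      exact ((ContinuousLinearMap.apply ℝ E x).continuous.tendsto A0).comp h2
    have h2 : Tendsto (fun j => -(tj (ns (φ j)) + tj' (ns (φ j))) • wj (ns (φ j)) +
        (tj (ns (φ j)) - tj' (ns (φ j))) • κj (ns (φ j))) atTop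
        (𝓝 (-(s + s') • w1 + (s - s') • κ)) :=
      ((l2.add l3).neg.smul l1).add ((l2.sub l3).smul (hκ.comp hns2))
    have h3 : (fun j => (2 : ℝ) • A (ns (φ j)) x) = (fun j =>
        -(tj (ns (φ j)) + tj' (ns (φ j))) • wj (ns (φ j)) +
        (tj (ns (φ j)) - tj' (ns (φ j))) • κj (ns (φ j))) := by
      funext j
      exact hrel _
    rw [h3] at h1
    exact tendsto_nhds_unique h1 h2
  have hval : ⟪A0 x, δ⟫ = ((s - s') / 2) * ⟪κ, δ⟫ - ((s + s') / 2) * ⟪w1, δ⟫ := by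
    have h1 : (2 : ℝ) * ⟪A0 x, δ⟫ = ⟪(2 : ℝ) • A0 x, δ⟫ := by
      rw [inner_smul_left]; simp
    rw [hR, inner_add_left, inner_smul_left, inner_smul_left] at h1
    simp only [conj_trivial] at h1
    linarith
  rw [hval]
  exact hcore

end Setting
end Pool.Agent.Helper18.BL
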