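import Mathlib
import Pool.Agent.Helper18.BL.T9a

set_option autoImplicit false

open Set MeasureTheory Filter Topology Metric
open scoped RealInnerProductSpace

namespace Pool.Agent.Helper18.BL
namespace Setting
variable (S : Setting)

/-- a supporting functional at a point over the section is bounded by its value -/
private theorem v9_sup_bound {v N w : E} (hv : v ≠ 0)
    (h : ∀ x ∈ S.K1, ⟪N, x⟫ ≤ ⟪N, S.C v + w⟫) : S.r / 2 * ‖N‖ ≤ ⟪N, w⟫ := by
  by_cases hN : N = 0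
  · simp [hN]
  have hN' : 0 < ‖N‖ := norm_pos_iff.mpr hN
  have hr := S.r_pos
  have hmem : S.C v + (S.r / 2 / ‖N‖) • N ∈ S.K1 := by
    apply S.C_ball hv
    rw [mem_closedBall, dist_eq_norm, add_sub_cancel_left, norm_smul, Real.norm_eq_abs,
      abs_of_pos (by positivity)]
    rw [div_mul_cancel₀ _ hN'.ne']
  have h1 := h _ hmem
  rw [inner_add_right, inner_add_right, inner_smul_right, real_inner_self_eq_norm_sq] at h1
  have h2 : S.r / 2 / ‖N‖ * ‖N‖ ^ 2 = S.r / 2 * ‖N‖ := by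
    field_simp
  rw [h2] at h1
  linarith

/-- a pair of a datum, normalised by `⟪u, n⟫ = 0` -/
private theorem v9_norm {P : Set ℝ} {v u κ w : E} {A : E →L[ℝ] E} (hv : v ≠ 0)
    (hvu : ⟪v, u⟫ = 1) (h : S.Dat P v A κ) (hw : w ∈ S.bd v) :
    ∃ (n : E) (t t' : ℝ), ⟪u, n⟫ = 0 ∧ ⟪n, w⟫ = 1 ∧ S.Pair v w n t t' ∧ Rel A κ w n t t' ∧
      t + t' ∈ P := by
  obtain ⟨n, t, t', h1, h2, h3, h4⟩ := h.2.2 w hw
  have hvw : ⟪v, w⟫ = 0 := hw.1.1
  have hAv := S.dat_Av hv h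
  refine ⟨n + (-⟪n, u⟫) • v, t + -⟪n, u⟫, t' - -⟪n, u⟫, ?_, ?_, S.pair_shift hv h2, ?_, ?_⟩
  · rw [inner_add_right, inner_smul_right, real_inner_comm v u, hvu, real_inner_comm n u]
    ring
  · rw [inner_add_left, inner_smul_left, hvw, h1]
    simp
  · unfold Rel at h3 ⊢
    rw [map_add, map_smul, hAv, smul_add, h3]
    module
  · have : t + -⟪n, u⟫ + (t' - -⟪n, u⟫) = t + t' := by ring
    rw [this]
    exact h4

private theorem v9_bdd {v u w n : E} {t t' : ℝ} (hv : v ≠ 0) (hu : ‖u‖ = 1)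
    (hvu : ⟪v, u⟫ = 1) (hnu : ⟪u, n⟫ = 0) (hnw : ⟪n, w⟫ = 1) (hp : S.Pair v w n t t') :
    |t| ≤ 2 / S.r ∧ |t'| ≤ 2 / S.r ∧ ‖n‖ ≤ 2 / S.r * (1 + ‖v‖) := by
  have hr := S.r_pos
  have hvw : ⟪v, w⟫ = 0 := hp.1.1
  have h1 := v9_sup_bound S hv hp.2.1
  have h2 : S.r / 2 * ‖-n - t' • v‖ ≤ ⟪-n - t' • v, -w⟫ := by
    apply v9_sup_bound S hv
    intro x hx
    have := hp.2.2 x hx
    rwa [← sub_eq_add_neg]
  have e1 : ⟪n - t • v, w⟫ = 1 := by
    rw [inner_sub_left, inner_smul_left, hvw, hnw]; simp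
  have e2 : ⟪-n - t' • v, -w⟫ = 1 := by
    rw [inner_neg_right, inner_sub_left, inner_smul_left, hvw, inner_neg_left, hnw]; simp
  rw [e1] at h1
  rw [e2] at h2
  have b1 : ‖n - t • v‖ ≤ 2 / S.r := by
    rw [le_div_iff₀ hr]; linarith
  have b2 : ‖-n - t' • v‖ ≤ 2 / S.r := by
    rw [le_div_iff₀ hr]; linarith
  have c1 : |t| ≤ ‖n - t • v‖ := by
    have h3 : ⟪n - t • v, u⟫ = -t := by
      rw [inner_sub_left, inner_smul_left, hvu, real_inner_comm, hnu]; simp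
    have h4 := abs_real_inner_le_norm (n - t • v) u
    rw [h3, hu, abs_neg, mul_one] at h4
    exact h4
  have c2 : |t'| ≤ ‖-n - t' • v‖ := by
    have h3 : ⟪-n - t' • v, u⟫ = -t' := by
      rw [inner_sub_left, inner_smul_left, hvu, inner_neg_left, real_inner_comm, hnu]; simp
    have h4 := abs_real_inner_le_norm (-n - t' • v) u
    rw [h3, hu, abs_neg, mul_one] at h4
    exact h4
  refine ⟨c1.trans b1, c2.trans b2, ?_⟩
  have h5 : n = (n - t • v) + t • v := by abel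
  calc ‖n‖ = ‖(n - t • v) + t • v‖ := by rw [← h5]
    _ ≤ ‖n - t • v‖ + ‖t • v‖ := norm_add_le _ _
    _ ≤ 2 / S.r + 2 / S.r * ‖v‖ := by
        rw [norm_smul, Real.norm_eq_abs]
        have := mul_le_mul_of_nonneg_right (c1.trans b1) (norm_nonneg v)
        linarith
    _ = _ := by ring

private theorem v9_lift {v u w δ : E} {e : ℝ} (hv : v = u + e • δ) (hu : ‖u‖ = 1)
    (hδu : ⟪u, δ⟫ = 0) (huw : ⟪u, w⟫ = 0) : ⟪v, u⟫ = 1 ∧ lift v u w = w - (e * ⟪δ, w⟫) • u := by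
  have h1 : ⟪v, u⟫ = 1 := by
    rw [hv, inner_add_left, inner_smul_left, real_inner_self_eq_norm_sq, hu, real_inner_comm, hδu]
    simp
  refine ⟨h1, ?_⟩
  have h2 : ⟪v, w⟫ = e * ⟪δ, w⟫ := by
    rw [hv, inner_add_left, inner_smul_left, huw]
    simp
  rw [lift, h1, h2, div_one]

private theorem v9_upper {v u w δ n : E} {e c t t' : ℝ} (hv0 : v ≠ 0) (hu0 : u ≠ 0)
    (hv : v = u + e • δ) (hu : ‖u‖ = 1)
    (he : 0 < e) (hδu : ⟪u, δ⟫ = 0) (hw : w ∈ S.Sp u) (hc : 0 < c)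
    (hnu : ⟪u, n⟫ = 0) (hnw : ⟪n, c • lift v u w⟫ = 1)
    (hp : S.Pair v (c • lift v u w) n t t') :
    2 * (c⁻¹ - 1) ≤ e * (t * (⟪δ, S.C u + w⟫ - (S.h v - S.h u) / e) +
      t' * (⟪δ, S.C u - w⟫ - (S.h v - S.h u) / e)) := by
  obtain ⟨hvu, hl⟩ := v9_lift hv hu hδu hw.1
  have hvl : ⟪v, c • lift v u w⟫ = 0 := hp.1.1
  have hnu' : ⟪n, u⟫ = 0 := by rw [real_inner_comm]; exact hnu
  have hcw : ⟪n, w⟫ = c⁻¹ := by
    have : c * ⟪n, w⟫ = 1 := by
      rw [← hnw, hl, inner_smul_right, inner_sub_right, inner_smul_right, hnu']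
      ring
    field_simp
    linarith
  have h1 := hp.2.1 (S.C u + w) hw.2
  have hneg := (S.Sp_neg hu0 hw).2
  rw [← sub_eq_add_neg] at hneg
  have h2 := hp.2.2 (S.C u - w) hneg
  have hCu := S.C_h u hu0
  have hCv := S.C_h v hv0
  have q1 : ⟪v, S.C u + w⟫ = S.h u + e * ⟪δ, S.C u + w⟫ := by
    rw [hv, inner_add_left, inner_smul_left, inner_add_right u, hCu, hw.1]
    simp
  have q2 : ⟪v, S.C u - w⟫ = S.h u + e * ⟪δ, S.C u - w⟫ := by
    rw [hv, inner_add_left, inner_smul_left, inner_sub_right u, hCu, hw.1]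
    simp
  have r1 : ⟪n - t • v, S.C u + w⟫ = ⟪n, S.C u⟫ + c⁻¹ - t * (S.h u + e * ⟪δ, S.C u + w⟫) := by
    rw [inner_sub_left, inner_smul_left, q1, inner_add_right n, hcw]; rfl
  have r2 : ⟪n - t • v, S.C v + c • lift v u w⟫ = ⟪n, S.C v⟫ + 1 - t * S.h v := by
    rw [inner_sub_left, inner_smul_left, inner_add_right n, inner_add_right v, hnw, hCv, hvl,
      add_zero]; rfl
  have r3 : ⟪-n - t' • v, S.C u - w⟫ =
      -⟪n, S.C u⟫ + c⁻¹ - t' * (S.h u + e * ⟪δ, S.C u - w⟫) := by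
    rw [inner_sub_left, inner_smul_left, q2, inner_neg_left, inner_sub_right n, hcw,
      conj_trivial]; ring
  have r4 : ⟪-n - t' • v, S.C v - c • lift v u w⟫ = -⟪n, S.C v⟫ + 1 - t' * S.h v := by
    rw [inner_sub_left, inner_smul_left, inner_neg_left, inner_sub_right n, inner_sub_right v,
      hnw, hCv, hvl, conj_trivial]; ring
  rw [r1, r2] at h1
  rw [r3, r4] at h2
  have q3 : e * ((S.h v - S.h u) / e) = S.h v - S.h u := by field_simp
  have q4 : e * (t * (⟪δ, S.C u + w⟫ - (S.h v - S.h u) / e) +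
      t' * (⟪δ, S.C u - w⟫ - (S.h v - S.h u) / e)) =
      t * (e * ⟪δ, S.C u + w⟫ - e * ((S.h v - S.h u) / e)) +
      t' * (e * ⟪δ, S.C u - w⟫ - e * ((S.h v - S.h u) / e)) := by ring
  rw [q4, q3]
  linarith [h1, h2]

private theorem v9_lower {v u w δ n : E} {e c s s' : ℝ} (hv0 : v ≠ 0) (hu0 : u ≠ 0)
    (hv : v = u + e • δ) (hu : ‖u‖ = 1)
    (he : 0 < e) (hδu : ⟪u, δ⟫ = 0) (hwl : c • lift v u w ∈ S.Sp v)
    (hnu : ⟪u, n⟫ = 0) (hnw : ⟪n, w⟫ = 1)
    (hp : S.Pair u w n s s') :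
    2 * (c - 1) ≤ e * (s * ((S.h v - S.h u) / e - ⟪δ, S.C v + c • lift v u w⟫) +
      s' * ((S.h v - S.h u) / e - ⟪δ, S.C v - c • lift v u w⟫)) := by
  have huw : ⟪u, w⟫ = 0 := hp.1.1
  obtain ⟨hvu, hl⟩ := v9_lift hv hu hδu huw
  have hnu' : ⟪n, u⟫ = 0 := by rw [real_inner_comm]; exact hnu
  have hcw : ⟪n, c • lift v u w⟫ = c := by
    rw [hl, inner_smul_right, inner_sub_right, inner_smul_right, hnu', hnw]
    ring
  have h1 := hp.2.1 (S.C v + c • lift v u w) hwl.2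
  have hneg := (S.Sp_neg hv0 hwl).2
  rw [← sub_eq_add_neg] at hneg
  have h2 := hp.2.2 (S.C v - c • lift v u w) hneg
  have hCu := S.C_h u hu0
  have hCv := S.C_h v hv0
  have q1 : ⟪u, S.C v + c • lift v u w⟫ = S.h v - e * ⟪δ, S.C v + c • lift v u w⟫ := by
    have h3 : ⟪v, S.C v + c • lift v u w⟫ = S.h v := by
      rw [inner_add_right, hCv, hwl.1, add_zero]
    have h4 : ⟪v, S.C v + c • lift v u w⟫ =
        ⟪u, S.C v + c • lift v u w⟫ + e * ⟪δ, S.C v + c • lift v u w⟫ := by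
      generalize S.C v + c • lift v u w = z
      rw [hv, inner_add_left, inner_smul_left]
      simp
    linarith
  have q2 : ⟪u, S.C v - c • lift v u w⟫ = S.h v - e * ⟪δ, S.C v - c • lift v u w⟫ := by
    have h3 : ⟪v, S.C v - c • lift v u w⟫ = S.h v := by
      rw [inner_sub_right, hCv, hwl.1, sub_zero]
    have h4 : ⟪v, S.C v - c • lift v u w⟫ =
        ⟪u, S.C v - c • lift v u w⟫ + e * ⟪δ, S.C v - c • lift v u w⟫ := by
      generalize S.C v - c • lift v u w = z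
      rw [hv, inner_add_left, inner_smul_left]
      simp
    linarith
  have r1 : ⟪n - s • u, S.C v + c • lift v u w⟫ =
      ⟪n, S.C v⟫ + c - s * (S.h v - e * ⟪δ, S.C v + c • lift v u w⟫) := by
    rw [inner_sub_left, inner_smul_left, q1, inner_add_right n, hcw]; rfl
  have r2 : ⟪n - s • u, S.C u + w⟫ = ⟪n, S.C u⟫ + 1 - s * S.h u := by
    rw [inner_sub_left, inner_smul_left, inner_add_right n, inner_add_right u, hnw, hCu, huw,
      add_zero]; rfl
  have r3 : ⟪-n - s' • u, S.C v - c • lift v u w⟫ =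
      -⟪n, S.C v⟫ + c - s' * (S.h v - e * ⟪δ, S.C v - c • lift v u w⟫) := by
    rw [inner_sub_left, inner_smul_left, q2, inner_neg_left, inner_sub_right n, hcw,
      conj_trivial]; ring
  have r4 : ⟪-n - s' • u, S.C u - w⟫ = -⟪n, S.C u⟫ + 1 - s' * S.h u := by
    rw [inner_sub_left, inner_smul_left, inner_neg_left, inner_sub_right n, inner_sub_right u,
      hnw, hCu, huw, conj_trivial]; ring
  rw [r1, r2] at h1
  rw [r3, r4] at h2
  have q3 : e * ((S.h v - S.h u) / e) = S.h v - S.h u := by field_simp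
  have q4 : e * (s * ((S.h v - S.h u) / e - ⟪δ, S.C v + c • lift v u w⟫) +
      s' * ((S.h v - S.h u) / e - ⟪δ, S.C v - c • lift v u w⟫)) =
      s * (e * ((S.h v - S.h u) / e) - e * ⟪δ, S.C v + c • lift v u w⟫) +
      s' * (e * ((S.h v - S.h u) / e) - e * ⟪δ, S.C v - c • lift v u w⟫) := by ring
  rw [q4, q3]
  linarith [h1, h2]

/-- first variation of the gauge of the section at a smooth boundary point `w` with normal `n`:
`1 / c j` is the gauge of `S'_{v j}` at `lift (v j) u w`. -/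
theorem var_w {P : Set ℝ} (hP : IsClosed P) {u δ κ n w : E} {A0 : E →L[ℝ] E} {ε c : ℕ → ℝ}
    {A : ℕ → E →L[ℝ] E} {κj : ℕ → E} (hu : ‖u‖ = 1) (hδu : ⟪u, δ⟫ = 0)
    (hε : ∀ j, 0 < ε j) (hε0 : Tendsto ε atTop (𝓝 0))
    (hD : ∀ j, S.Dat P (u + ε j • δ) (A j) (κj j)) (hA : Tendsto A atTop (𝓝 A0))
    (hκ : Tendsto κj atTop (𝓝 κ)) (hpos : 0 < ⟪κ, δ⟫)
    (hn : ⟪u, n⟫ = 0) (hw : w ∈ S.bd u) (hnw : ⟪n, w⟫ = 1) (hmax : ∀ w' ∈ S.Sp u, ⟪n, w'⟫ ≤ 1)
    (huniq : ∀ n', ⟪u, n'⟫ = 0 → ⟪n', w⟫ = 1 → (∀ w' ∈ S.Sp u, ⟪n', w'⟫ ≤ 1) → n' = n)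
    (hc : ∀ j, 0 < c j) (hcb : ∀ j, c j • lift (u + ε j • δ) u w ∈ S.bd (u + ε j • δ)) :
    ∃ t t' : ℝ, S.Pair u w n t t' ∧ Rel A0 κ w n t t' ∧ t + t' ∈ P ∧
      Tendsto (fun j => ((c j)⁻¹ - 1) / ε j) atTop
        (𝓝 (((t - t') / 2) * ⟪w, δ⟫ - ((t + t') / 2) * ⟪κ, δ⟫)) := by
  have hu0 : u ≠ 0 := by
    intro h; rw [h, norm_zero] at hu; exact zero_ne_one hu
  have huw : ⟪u, w⟫ = 0 := hw.1.1
  obtain ⟨v, hv⟩ : ∃ v : ℕ → E, ∀ j, v j = u + ε j • δ := ⟨_, fun _ => rfl⟩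
  have hvu : ∀ j, ⟪v j, u⟫ = 1 := fun j => (v9_lift (hv j) hu hδu huw).1
  have hvne : ∀ j, v j ≠ 0 := by
    intro j h; have := hvu j; rw [h, inner_zero_left] at this; exact zero_ne_one this
  simp only [← hv] at hD hcb
  have hvt : Tendsto v atTop (𝓝 u) := by
    have h1 : Tendsto (fun j => u + ε j • δ) atTop (𝓝 (u + (0 : ℝ) • δ)) :=
      tendsto_const_nhds.add (hε0.smul_const δ)
    rw [zero_smul, add_zero] at h1
    exact h1.congr fun j => (hv j).symm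
  obtain ⟨hF, -, hat⟩ := S.blowup_h (u := u) (δ := δ) (v := v) (δj := fun _ => δ) (κj := κj)
    (ε := ε) (κ := κ) hu0 hε hε0 tendsto_const_nhds hv hvne (fun j => (hD j).1) hκ
  obtain ⟨a, ha⟩ : ∃ a : ℕ → ℝ, ∀ j, a j = (S.h (v j) - S.h u) / ε j := ⟨_, fun _ => rfl⟩
  simp only [← ha] at hat
  have hat' : Tendsto a atTop (𝓝 ⟪S.C u + κ, δ⟫) := hat
  have hCt : Tendsto (fun j => S.C (v j)) atTop (𝓝 (S.C u)) := (S.C_cont hu0).tendsto.comp hvt
  -- pairs
  have hpair := fun j => v9_norm S (hvne j) (hvu j) (hD j) (hcb j)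
  choose nn t t' hnn hnnw hp hRel hPP using hpair
  have hbd := fun j => v9_bdd S (hvne j) hu (hvu j) (hnn j) (hnnw j) (hp j)
  have hup : ∀ j, 2 * ((c j)⁻¹ - 1) ≤ ε j * (t j * (⟪δ, S.C u + w⟫ - a j) +
      t' j * (⟪δ, S.C u - w⟫ - a j)) := by
    intro j
    rw [ha]
    exact v9_upper S (hvne j) hu0 (hv j) hu (hε j) hδu hw.1 (hc j) (hnn j) (hnnw j) (hp j)
  have hlo : ∀ s s' : ℝ, S.Pair u w n s s' → ∀ j,
      2 * (c j - 1) ≤ ε j * (s * (a j - ⟪δ, S.C (v j) + c j • lift (v j) u w⟫) +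
        s' * (a j - ⟪δ, S.C (v j) - c j • lift (v j) u w⟫)) := by
    intro s s' hs j
    rw [ha]
    exact v9_lower S (hvne j) hu0 (hv j) hu (hε j) hδu (hcb j).1 hn hnw hs
  -- bounded times infinitesimal
  have hbz : ∀ (b : ℕ → ℝ) (M : ℝ), (∀ j, |b j| ≤ M) → Tendsto (fun j => ε j * b j) atTop (𝓝 0) := by
    intro b M hb
    apply squeeze_zero_norm (a := fun j => ε j * M)
    · intro j
      rw [Real.norm_eq_abs, abs_mul, abs_of_pos (hε j)]
      exact mul_le_mul_of_nonneg_left (hb j) (hε j).le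
    · have := hε0.mul_const M
      rwa [zero_mul] at this
  have z1 := hbz t _ fun j => (hbd j).1
  have z2 := hbz t' _ fun j => (hbd j).2.1
  have z3 : Tendsto (fun j => ε j * ⟪δ, c j • lift (v j) u w⟫) atTop (𝓝 0) := by
    apply hbz _ (‖δ‖ * (2 * S.R))
    intro j
    exact (abs_real_inner_le_norm _ _).trans
      (mul_le_mul_of_nonneg_left (S.Sp_norm (hvne j) (hcb j).1) (norm_nonneg _))
  have hδC : Tendsto (fun j => ⟪δ, S.C (v j)⟫) atTop (𝓝 ⟪δ, S.C u⟫) :=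
    tendsto_const_nhds.inner hCt
  -- `c j → 1`
  obtain ⟨s0, s0', hs0⟩ := S.pair_exists_n hu0 hw.1 (n := n) (fun w' hw' => by
    rw [hnw]; exact hmax w' hw')
  have hc1i : Tendsto (fun j => (c j)⁻¹) atTop (𝓝 1) := by
    have e1 : Tendsto (fun j => 1 + (ε j * (t j * (⟪δ, S.C u + w⟫ - a j) +
        t' j * (⟪δ, S.C u - w⟫ - a j))) / 2) atTop (𝓝 1) := by
      have h1 := ((z1.mul ((tendsto_const_nhds (x := ⟪δ, S.C u + w⟫)).sub hat')).add
        (z2.mul ((tendsto_const_nhds (x := ⟪δ, S.C u - w⟫)).sub hat'))).div_const 2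
      have h2 := h1.const_add 1
      simp only [zero_mul, add_zero, zero_div] at h2
      refine h2.congr fun j => ?_
      ring
    have e2 : Tendsto (fun j => 1 + (ε j * (s0 * (a j - ⟪δ, S.C (v j) + c j • lift (v j) u w⟫) +
        s0' * (a j - ⟪δ, S.C (v j) - c j • lift (v j) u w⟫))) / 2) atTop (𝓝 1) := by
      have h1 := ((((hε0.mul hat').sub ((hε0.mul hδC).add z3)).const_mul s0).add
        (((hε0.mul hat').sub ((hε0.mul hδC).sub z3)).const_mul s0')).div_const 2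
      have h2 := h1.const_add 1
      simp only [zero_mul, add_zero, sub_zero, mul_zero, zero_div] at h2
      refine h2.congr fun j => ?_
      rw [inner_add_right, inner_sub_right]
      ring
    have e3 := e2.inv₀ one_ne_zero
    rw [inv_one] at e3
    refine tendsto_of_tendsto_of_tendsto_of_le_of_le e3 e1 ?_ ?_
    · intro j
      have h1 := hlo s0 s0' hs0 j
      apply inv_anti₀ (hc j)
      linarith
    · intro j
      have h1 := hup j
      simp only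
      linarith
  have hc1 : Tendsto c atTop (𝓝 1) := by
    have := hc1i.inv₀ one_ne_zero
    simp only [inv_inv, inv_one] at this
    exact this
  have hwl : Tendsto (fun j => c j • lift (v j) u w) atTop (𝓝 w) := by
    have h1 : Tendsto (fun j => c j • (w - (ε j * ⟪δ, w⟫) • u)) atTop
        (𝓝 ((1 : ℝ) • (w - ((0 : ℝ) * ⟪δ, w⟫) • u))) :=
      hc1.smul (tendsto_const_nhds.sub ((hε0.mul_const _).smul_const u))
    rw [zero_mul, zero_smul, sub_zero, one_smul] at h1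
    exact h1.congr fun j => by rw [(v9_lift (hv j) hu hδu huw).2]
  obtain ⟨x, hx⟩ : ∃ x : ℕ → ℝ, ∀ j, x j = ((c j)⁻¹ - 1) / ε j := ⟨_, fun _ => rfl⟩
  simp only [← hx]
  have eH : ⟪S.C u + κ, δ⟫ = ⟪δ, S.C u⟫ + ⟪κ, δ⟫ := by
    rw [inner_add_left, real_inner_comm]
  -- lower bound
  have hlow : ∀ s s' : ℝ, S.Pair u w n s s' → ∃ lo : ℕ → ℝ, (∀ j, lo j ≤ x j) ∧
      Tendsto lo atTop (𝓝 (((s - s') / 2) * ⟪w, δ⟫ - ((s + s') / 2) * ⟪κ, δ⟫)) := by
    intro s s' hs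
    refine ⟨fun j => -(s * (a j - ⟪δ, S.C (v j) + c j • lift (v j) u w⟫) +
        s' * (a j - ⟪δ, S.C (v j) - c j • lift (v j) u w⟫)) / (2 * c j), ?_, ?_⟩
    · intro j
      have h1 := hlo s s' hs j
      have h2 : 2 * (c j - 1) = -(2 * c j * (ε j * x j)) := by
        rw [hx]
        have := (hε j).ne'
        have := (hc j).ne'
        field_simp
        ring
      rw [h2] at h1
      have h3 : 0 < 2 * c j := by have := hc j; linarith
      simp only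
      rw [div_le_iff₀ h3]
      have h4 : ε j * -(2 * c j * x j) ≤ ε j * (s * (a j - ⟪δ, S.C (v j) + c j • lift (v j) u w⟫) +
        s' * (a j - ⟪δ, S.C (v j) - c j • lift (v j) u w⟫)) := by
        refine le_trans (le_of_eq ?_) h1
        ring
      have h5 := le_of_mul_le_mul_left h4 (hε j)
      linarith
    · have h1 := (((hat'.sub ((tendsto_const_nhds (x := δ)).inner (hCt.add hwl))).const_mul s).add
        ((hat'.sub ((tendsto_const_nhds (x := δ)).inner (hCt.sub hwl))).const_mul s')).neg.div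
        (hc1.const_mul 2) (by norm_num)
      refine h1.congr' ?_ |>.trans ?_
      · exact Eventually.of_forall fun j => rfl
      · apply le_of_eq
        congr 1
        rw [eH, inner_add_right, inner_sub_right, real_inner_comm w δ]
        ring
  -- subsequences
  have hsub : ∀ φ : ℕ → ℕ, Tendsto φ atTop atTop → ∃ ψ : ℕ → ℕ, StrictMono ψ ∧
      ∃ t t' : ℝ, S.Pair u w n t t' ∧ Rel A0 κ w n t t' ∧ t + t' ∈ P ∧
      Tendsto (fun j => x (φ (ψ j))) atTop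
        (𝓝 (((t - t') / 2) * ⟪w, δ⟫ - ((t + t') / 2) * ⟪κ, δ⟫)) := by
    intro φ hφ
    have hvb : ∃ M, ∀ j, ‖v j‖ ≤ M := by
      obtain ⟨M, hM⟩ := (Metric.isBounded_range_of_tendsto v hvt).exists_norm_le
      exact ⟨M, fun j => hM _ ⟨j, rfl⟩⟩
    obtain ⟨M, hM⟩ := hvb
    have hr := S.r_pos
    have hbnd : ∀ j, ((nn (φ j), t (φ j)), t' (φ j)) ∈
        (closedBall (0 : E) (2 / S.r * (1 + M)) ×ˢ closedBall (0 : ℝ) (2 / S.r)) ×ˢ
          closedBall (0 : ℝ) (2 / S.r) := by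
      intro j
      obtain ⟨h1, h2, h3⟩ := hbd (φ j)
      refine ⟨⟨?_, ?_⟩, ?_⟩
      · rw [mem_closedBall_zero_iff]
        refine h3.trans ?_
        apply mul_le_mul_of_nonneg_left _ (by positivity)
        linarith [hM (φ j)]
      · rw [mem_closedBall_zero_iff]; exact h1
      · rw [mem_closedBall_zero_iff]; exact h2
    have hcomp : IsCompact ((closedBall (0 : E) (2 / S.r * (1 + M)) ×ˢ
        closedBall (0 : ℝ) (2 / S.r)) ×ˢ closedBall (0 : ℝ) (2 / S.r)) :=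
      ((isCompact_closedBall _ _).prod (isCompact_closedBall _ _)).prod (isCompact_closedBall _ _)
    obtain ⟨⟨⟨n1, t1⟩, t1'⟩, -, ψ, hψ, hlim⟩ := hcomp.tendsto_subseq hbnd
    have hφψ : Tendsto (fun j => φ (ψ j)) atTop atTop := hφ.comp hψ.tendsto_atTop
    have ln : Tendsto (fun j => nn (φ (ψ j))) atTop (𝓝 n1) :=
      ((continuous_fst.comp continuous_fst).tendsto _).comp hlim
    have lt : Tendsto (fun j => t (φ (ψ j))) atTop (𝓝 t1) :=
      ((continuous_snd.comp continuous_fst).tendsto _).comp hlim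
    have lt' : Tendsto (fun j => t' (φ (ψ j))) atTop (𝓝 t1') :=
      (continuous_snd.tendsto _).comp hlim
    have hp1 : S.Pair u w n1 t1 t1' :=
      S.pair_closed (v := fun j => v (φ (ψ j))) (w := fun j => c (φ (ψ j)) •
        lift (v (φ (ψ j))) u w) hu0 (fun j => hp _) (hvt.comp hφψ) (hwl.comp hφψ) ln lt lt'
    have hn1u : ⟪u, n1⟫ = 0 := by
      have h1 : Tendsto (fun j => ⟪u, nn (φ (ψ j))⟫) atTop (𝓝 ⟪u, n1⟫) :=
        tendsto_const_nhds.inner ln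
      simp only [hnn] at h1
      exact (tendsto_nhds_unique h1 tendsto_const_nhds)
    have hn1w : ⟪n1, w⟫ = 1 := by
      have h1 : Tendsto (fun j => ⟪nn (φ (ψ j)), c (φ (ψ j)) • lift (v (φ (ψ j))) u w⟫) atTop
          (𝓝 ⟪n1, w⟫) := ln.inner (hwl.comp hφψ)
      simp only [hnnw] at h1
      exact (tendsto_nhds_unique h1 tendsto_const_nhds)
    have hn1 : n1 = n := by
      apply huniq n1 hn1u hn1w
      intro w' hw'
      rw [← hn1w]
      exact S.pair_max hu0 hp1 w' hw'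
    rw [hn1] at hp1
    have hR1 : Rel A0 κ w n t1 t1' := by
      unfold Rel
      have hA1 : Tendsto (fun j => A (φ (ψ j))) atTop (𝓝 A0) := hA.comp hφψ
      have h1 : Tendsto (fun j => (2 : ℝ) • A (φ (ψ j)) (nn (φ (ψ j)))) atTop
          (𝓝 ((2 : ℝ) • A0 n1)) := by
        apply Tendsto.const_smul
        exact (isBoundedBilinearMap_apply.continuous.tendsto (A0, n1)).comp
          (hA1.prodMk_nhds ln)
      have h2 : Tendsto (fun j => -(t (φ (ψ j)) + t' (φ (ψ j))) • (c (φ (ψ j)) •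
          lift (v (φ (ψ j))) u w) + (t (φ (ψ j)) - t' (φ (ψ j))) • κj (φ (ψ j))) atTop
          (𝓝 (-(t1 + t1') • w + (t1 - t1') • κ)) :=
        ((lt.add lt').neg.smul (hwl.comp hφψ)).add ((lt.sub lt').smul (hκ.comp hφψ))
      rw [hn1] at h1
      refine tendsto_nhds_unique h1 (h2.congr fun j => ?_)
      exact (hRel (φ (ψ j))).symm
    refine ⟨ψ, hψ, t1, t1', hp1, hR1, ?_, ?_⟩
    · exact hP.mem_of_tendsto (lt.add lt') (Eventually.of_forall fun j => hPP _)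
    · obtain ⟨lo, hlo1, hlo2⟩ := hlow t1 t1' hp1
      have hu1 : Tendsto (fun j => (t (φ (ψ j)) * (⟪δ, S.C u + w⟫ - a (φ (ψ j))) +
          t' (φ (ψ j)) * (⟪δ, S.C u - w⟫ - a (φ (ψ j)))) / 2) atTop
          (𝓝 (((t1 - t1') / 2) * ⟪w, δ⟫ - ((t1 + t1') / 2) * ⟪κ, δ⟫)) := by
        have h1 := ((lt.mul ((tendsto_const_nhds (x := ⟪δ, S.C u + w⟫)).sub
          (hat'.comp hφψ))).add (lt'.mul ((tendsto_const_nhds (x := ⟪δ, S.C u - w⟫)).sub
          (hat'.comp hφψ)))).div_const 2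
        refine h1.congr' ?_ |>.trans ?_
        · exact Eventually.of_forall fun j => rfl
        · apply le_of_eq
          congr 1
          rw [eH, inner_add_right, inner_sub_right, real_inner_comm w δ]
          ring
      refine tendsto_of_tendsto_of_tendsto_of_le_of_le (hlo2.comp hφψ) hu1 ?_ ?_
      · intro j; exact hlo1 _
      · intro j
        simp only
        have h1 := hup (φ (ψ j))
        have h2 := hε (φ (ψ j))
        rw [hx, div_le_iff₀ h2]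
        linarith
  obtain ⟨ψ, hψ, t0, t0', hp0, hR0, hP0, hlim0⟩ := hsub id tendsto_id
  refine ⟨t0, t0', hp0, hR0, hP0, ?_⟩
  apply tendsto_of_subseq_tendsto
  intro φ hφ
  obtain ⟨ψ1, hψ1, t1, t1', hp1, hR1, hP1, hlim1⟩ := hsub φ hφ
  refine ⟨ψ1, ?_⟩
  have hle1 : ((t0 - t0') / 2) * ⟪w, δ⟫ - ((t0 + t0') / 2) * ⟪κ, δ⟫ ≤
      ((t1 - t1') / 2) * ⟪w, δ⟫ - ((t1 + t1') / 2) * ⟪κ, δ⟫ := by
    obtain ⟨lo, hlo1, hlo2⟩ := hlow t0 t0' hp0
    exact le_of_tendsto_of_tendsto (hlo2.comp (hφ.comp hψ1.tendsto_atTop)) hlim1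
      (Eventually.of_forall fun j => hlo1 _)
  have hle2 : ((t1 - t1') / 2) * ⟪w, δ⟫ - ((t1 + t1') / 2) * ⟪κ, δ⟫ ≤
      ((t0 - t0') / 2) * ⟪w, δ⟫ - ((t0 + t0') / 2) * ⟪κ, δ⟫ := by
    obtain ⟨lo, hlo1, hlo2⟩ := hlow t1 t1' hp1
    exact le_of_tendsto_of_tendsto (hlo2.comp hψ.tendsto_atTop) hlim0
      (Eventually.of_forall fun j => hlo1 _)
  rw [le_antisymm hle1 hle2]
  exact hlim1

end Setting
end Pool.Agent.Helper18.BL
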