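import Mathlib
import Pool.Agent.Helper18.BL.T6

set_option autoImplicit false

open Set MeasureTheory Filter Topology Metric
open scoped RealInnerProductSpace

namespace Pool.Agent.Helper18.BL
namespace Setting
variable (S : Setting)

/-- the chart along `u` -/
theorem par_lift {u v : E} (hu : u ≠ 0) (hvu : ⟪v, u⟫ ≠ 0) {T : (ℝ × ℝ) →ₗ[ℝ] E} (hT : Par u T) :
    Par v ((liftL v u).comp T) := hT.lift hu hvu

/-- Lipschitz dependence of the planar bodies in the chart along `u` -/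
theorem chart_lip {u δ : E} (hu : ‖u‖ = 1) (hδu : ⟪u, δ⟫ = 0) {T : (ℝ × ℝ) →ₗ[ℝ] E}
    (hT : Par u T) : ∃ Ct : ℝ, 0 < Ct ∧ ∀ᶠ ε in 𝓝[>] (0 : ℝ), ∀ z : ℝ × ℝ,
      |gauge (S.body (u + ε • δ) ((liftL (u + ε • δ) u).comp T)) z - gauge (S.body u T) z| ≤
        Ct * ε * gauge (S.body u T) z := by
  obtain ⟨L, hL, hlip⟩ := S.C_lip
  have hr := S.r_pos
  have hR := S.R_nonneg
  have hu0 : u ≠ 0 := by
    intro h; rw [h, norm_zero] at hu; exact zero_ne_one hu
  set D : ℝ := ‖δ‖ * (2 * L + 2 * S.R) + 1 with hD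
  have hDpos : 0 < D := by positivity
  refine ⟨2 * (D * (2 / S.r)), by positivity, ?_⟩
  have hsmall : ∀ᶠ ε in 𝓝[>] (0 : ℝ), ε < S.r / (2 * D) :=
    (eventually_lt_nhds (by positivity)).filter_mono nhdsWithin_le_nhds
  filter_upwards [hsmall, self_mem_nhdsWithin] with ε hε1 hε0 z
  have hε : (0 : ℝ) < ε := hε0
  have huv : ⟪u + ε • δ, u⟫ = 1 := by
    rw [inner_add_left, real_inner_smul_left, real_inner_comm, real_inner_comm u δ, hδu,
      real_inner_self_eq_norm_sq, hu]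
    ring
  have hvu : ⟪u + ε • δ, u⟫ ≠ 0 := by rw [huv]; exact one_ne_zero
  have hv0 : u + ε • δ ≠ 0 := by
    intro h; rw [h, inner_zero_left] at huv; exact zero_ne_one huv
  have hvn : 0 < ‖u + ε • δ‖ := norm_pos_iff.2 hv0
  have hdiff : u + ε • δ - u = ε • δ := by abel
  have hn : ‖u + ε • δ - u‖ = ε * ‖δ‖ := by
    rw [hdiff, norm_smul, Real.norm_eq_abs, abs_of_pos hε]
  -- the centre
  have hC : ‖S.C (u + ε • δ) - S.C u‖ ≤ L * (2 * (ε * ‖δ‖)) := by
    have h1 : S.C (u + ε • δ) = S.C (‖u + ε • δ‖⁻¹ • (u + ε • δ)) :=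
      (S.C_smul (inv_pos.2 hvn) hv0).symm
    rw [h1]
    refine (hlip _ _ ?_ hu).trans ?_
    · rw [norm_smul, norm_inv, norm_norm, inv_mul_cancel₀ hvn.ne']
    · refine mul_le_mul_of_nonneg_left ?_ hL.le
      have h2 : ‖‖u + ε • δ‖⁻¹ • (u + ε • δ) - (u + ε • δ)‖ = |1 - ‖u + ε • δ‖| := by
        have h3 : ‖u + ε • δ‖⁻¹ • (u + ε • δ) - (u + ε • δ) =
            (‖u + ε • δ‖⁻¹ - 1) • (u + ε • δ) := by rw [sub_smul, one_smul]
        rw [h3, norm_smul, Real.norm_eq_abs]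
        nth_rewrite 2 [← abs_of_pos hvn]
        rw [← abs_mul, sub_mul, inv_mul_cancel₀ hvn.ne', one_mul]
      have h4 : |1 - ‖u + ε • δ‖| ≤ ε * ‖δ‖ := by
        rw [← hu, ← hn, norm_sub_rev]
        exact abs_norm_sub_norm_le _ _
      calc ‖‖u + ε • δ‖⁻¹ • (u + ε • δ) - u‖
          = ‖(‖u + ε • δ‖⁻¹ • (u + ε • δ) - (u + ε • δ)) + (u + ε • δ - u)‖ := by
            congr 1; abel
        _ ≤ _ := norm_add_le _ _
        _ ≤ ε * ‖δ‖ + ε * ‖δ‖ := by rw [h2, hn]; exact add_le_add_left h4 _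
        _ = _ := by ring
  have hbound := S.chart_bound hu0 hv0 hvu hT (e := D * (2 / S.r) * ε) (by positivity)
    (by
      have : D * (2 / S.r) * ε < D * (2 / S.r) * (S.r / (2 * D)) :=
        mul_lt_mul_of_pos_left hε1 (by positivity)
      have h5 : D * (2 / S.r) * (S.r / (2 * D)) = 1 := by field_simp
      linarith)
    (by
      rw [huv, hn, hu, abs_one, div_one, mul_one]
      have h6 : D * (2 / S.r) * ε * (S.r / 2) = D * ε := by field_simp
      rw [h6, hD]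
      nlinarith) z
  rw [show 2 * (D * (2 / S.r)) * ε = 2 * (D * (2 / S.r) * ε) by ring]
  exact hbound

end Setting
end Pool.Agent.Helper18.BL
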