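import Mathlib
import Pool.Agent.Helper18.BL.T9a
import Pool.Agent.Helper18.BL.T9b
import Pool.Agent.Helper18.BL.T9c
import Pool.Agent.Helper18.BL.T5b
import Pool.Agent.Helper18.BL.P6

set_option autoImplicit false

open Set MeasureTheory Filter Topology Metric
open scoped RealInnerProductSpace

namespace Pool.Agent.Helper18.BL

/-- a planar frame of `u^⊥`: vectors `b, l`, covectors `nb, c` -/
private structure Fr (u nb c b l : E) : Prop where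
  hu : ‖u‖ = 1
  unb : ⟪u, nb⟫ = 0
  uc : ⟪u, c⟫ = 0
  ub : ⟪u, b⟫ = 0
  ul : ⟪u, l⟫ = 0
  nbb : ⟪nb, b⟫ = 1
  nbl : ⟪nb, l⟫ = 0
  cb : ⟪c, b⟫ = 0
  cl : ⟪c, l⟫ = 1
  exp : ∀ x, ⟪u, x⟫ = 0 → x = ⟪nb, x⟫ • b + ⟪c, x⟫ • l
  coexp : ∀ n, ⟪u, n⟫ = 0 → n = ⟪n, b⟫ • nb + ⟪n, l⟫ • c

/-- the chart -/
private noncomputable def chT (b l : E) : (ℝ × ℝ) →ₗ[ℝ] E :=
  (LinearMap.toSpanSingleton ℝ E b).coprod (LinearMap.toSpanSingleton ℝ E l)

private lemma chT_apply (b l : E) (z : ℝ × ℝ) : chT b l z = z.1 • b + z.2 • l := by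
  simp [chT]

/-- the chart at `v` -/
private noncomputable def chV (u b l v : E) : (ℝ × ℝ) →ₗ[ℝ] E := (liftL v u).comp (chT b l)

private lemma chV_apply (u b l v : E) (z : ℝ × ℝ) :
    chV u b l v z = chT b l z - (⟪v, chT b l z⟫ / ⟪v, u⟫) • u := rfl

section frame
variable {u nb c b l : E} (hf : Fr u nb c b l)
include hf

private lemma Fr.u0 : u ≠ 0 := by
  intro h
  have := hf.hu
  rw [h, norm_zero] at this
  exact zero_ne_one this

private lemma Fr.uu : ⟪u, u⟫ = 1 := by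
  rw [real_inner_self_eq_norm_sq, hf.hu]
  norm_num

private lemma Fr.u_T (z : ℝ × ℝ) : ⟪u, chT b l z⟫ = 0 := by
  rw [chT_apply, inner_add_right, inner_smul_right, inner_smul_right, hf.ub, hf.ul]
  ring

private lemma Fr.nb_T (z : ℝ × ℝ) : ⟪nb, chT b l z⟫ = z.1 := by
  rw [chT_apply, inner_add_right, inner_smul_right, inner_smul_right, hf.nbb, hf.nbl]
  ring

private lemma Fr.c_T (z : ℝ × ℝ) : ⟪c, chT b l z⟫ = z.2 := by
  rw [chT_apply, inner_add_right, inner_smul_right, inner_smul_right, hf.cb, hf.cl]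
  ring

omit hf in
private lemma n_T (n : E) (z : ℝ × ℝ) : ⟪n, chT b l z⟫ = pr (⟪n, b⟫, ⟪n, l⟫) z := by
  rw [chT_apply, inner_add_right, inner_smul_right, inner_smul_right, pr]
  ring

private lemma Fr.par : Par u (chT b l) := by
  refine ⟨fun z z' h => ?_, hf.u_T⟩
  have h1 := congrArg (fun x => ⟪nb, x⟫) h
  have h2 := congrArg (fun x => ⟪c, x⟫) h
  simp only [hf.nb_T, hf.c_T] at h1 h2
  exact Prod.ext h1 h2

private lemma Fr.parV {v : E} (hv : ⟪v, u⟫ ≠ 0) : Par v (chV u b l v) :=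
  Setting.par_lift hf.u0 hv hf.par

private lemma Fr.chV_self : chV u b l u = chT b l := by
  apply LinearMap.ext
  intro z
  rw [chV_apply, hf.u_T, zero_div, zero_smul, sub_zero]

omit hf in
private lemma n_V {n v : E} (hn : ⟪u, n⟫ = 0) (z : ℝ × ℝ) :
    ⟪n, chV u b l v z⟫ = pr (⟪n, b⟫, ⟪n, l⟫) z := by
  rw [chV_apply, inner_sub_right, inner_smul_right, real_inner_comm u n, hn, mul_zero, sub_zero,
    n_T]

private lemma Fr.nb_V {v : E} (z : ℝ × ℝ) : ⟪nb, chV u b l v z⟫ = z.1 := by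
  rw [n_V hf.unb, hf.nbb, hf.nbl, pr]
  ring

private lemma Fr.c_V {v : E} (z : ℝ × ℝ) : ⟪c, chV u b l v z⟫ = z.2 := by
  rw [n_V hf.uc, hf.cb, hf.cl, pr]
  ring

/-- coordinates of `x ∈ v^⊥` -/
private lemma Fr.coord {v x : E} (hv : ⟪v, u⟫ ≠ 0) (hx : ⟪v, x⟫ = 0) :
    chV u b l v (⟪nb, x⟫, ⟪c, x⟫) = x := by
  have h1 : chT b l (⟪nb, x⟫, ⟪c, x⟫) = x - ⟪u, x⟫ • u := by
    have hux : ⟪u, x - ⟪u, x⟫ • u⟫ = 0 := by
      rw [inner_sub_right, inner_smul_right, hf.uu]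
      ring
    have := hf.exp _ hux
    rw [chT_apply]
    rw [inner_sub_right, inner_sub_right, inner_smul_right, inner_smul_right,
      real_inner_comm u nb, real_inner_comm u c, hf.unb, hf.uc, mul_zero, sub_zero, sub_zero] at this
    exact this.symm
  rw [chV_apply, h1, inner_sub_right, inner_smul_right, hx]
  have : (0 - ⟪u, x⟫ * ⟪v, u⟫) / ⟪v, u⟫ = -⟪u, x⟫ := by
    field_simp
    ring
  rw [this]
  module

end frame

namespace Setting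
variable (S : Setting)

/-- boundary points in a chart -/
private lemma bd_of_gauge {v : E} (hv : v ≠ 0) {T : (ℝ × ℝ) →ₗ[ℝ] E} (hT : Par v T) {z : ℝ × ℝ}
    (hz : gauge (S.body v T) z = 1) : T z ∈ S.bd v := by
  have hB := S.body_isBody hv hT
  refine ⟨⟨hT.2 z, ?_⟩, fun c hc h => ?_⟩
  · have : z ∈ S.body v T := (hB.mem_iff_gauge z).2 hz.le
    exact this
  · have h1 : c • z ∈ S.body v T := by
      have := h.2
      rw [← map_smul] at this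
      exact this
    rw [hB.mem_iff_gauge, hB.gauge_smul, hz, abs_of_pos (by linarith)] at h1
    linarith

/-- the support function in a chart -/
private lemma lsup_eq {u nb c b l : E} (hf : Fr u nb c b l) {v n : E} (hv : ⟪v, u⟫ ≠ 0)
    (hn : ⟪u, n⟫ = 0) :
    S.lsup v n = gauge (plr (S.body v (chV u b l v))) (⟪n, b⟫, ⟪n, l⟫) := by
  have hv0 : v ≠ 0 := by
    rintro rfl
    simp at hv
  have hB := S.body_isBody hv0 (hf.parV hv)
  have hg := hB.gauge_plr (⟪n, b⟫, ⟪n, l⟫)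
  have himg : (fun w => ⟪n, w⟫) '' S.Sp v =
      (fun z => pr (⟪n, b⟫, ⟪n, l⟫) z) '' S.body v (chV u b l v) := by
    ext y
    constructor
    · rintro ⟨w, hw, rfl⟩
      refine ⟨(⟪nb, w⟫, ⟪c, w⟫), ?_, ?_⟩
      · show S.C v + chV u b l v (⟪nb, w⟫, ⟪c, w⟫) ∈ S.K1
        rw [hf.coord hv hw.1]
        exact hw.2
      · show pr (⟪n, b⟫, ⟪n, l⟫) (⟪nb, w⟫, ⟪c, w⟫) = ⟪n, w⟫
        rw [← n_V (v := v) hn, hf.coord hv hw.1]
    · rintro ⟨z, hz, rfl⟩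
      refine ⟨chV u b l v z, ⟨(hf.parV hv).2 z, hz⟩, ?_⟩
      exact n_V hn z
  unfold lsup
  rw [himg]
  exact hg.csSup_eq

private lemma R_pos9 : 0 < S.R := by
  have hv : (EuclideanSpace.single (0 : Fin 3) (1 : ℝ)) ≠ 0 := by simp
  set v : E := EuclideanSpace.single (0 : Fin 3) (1 : ℝ) with hvd
  have hnv : ‖v‖ = 1 := by simp [hvd]
  have hr := S.r_pos
  have hu : S.C v + (S.r / 2) • v ∈ S.K1 := by
    apply S.C_ball hv
    rw [mem_closedBall, dist_eq_norm, add_sub_cancel_left, norm_smul, hnv, Real.norm_eq_abs,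
      abs_of_pos (by positivity), mul_one]
  have hd : S.C v - (S.r / 2) • v ∈ S.K1 := by
    apply S.C_ball hv
    rw [mem_closedBall, dist_eq_norm, sub_sub_cancel_left, norm_neg, norm_smul, hnv,
      Real.norm_eq_abs, abs_of_pos (by positivity), mul_one]
  have h3 : ‖(S.C v + (S.r / 2) • v) - (S.C v - (S.r / 2) • v)‖ ≤ S.R + S.R :=
    (norm_sub_le _ _).trans (add_le_add (S.K1_bdd _ hu) (S.K1_bdd _ hd))
  have h4 : (S.C v + (S.r / 2) • v) - (S.C v - (S.r / 2) • v) = S.r • v := by module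
  rw [h4, norm_smul, hnv, Real.norm_eq_abs, abs_of_pos hr] at h3
  linarith

private lemma exists_c (u κ : E) : ∃ c : E, ‖c‖ = 1 ∧ ⟪u, c⟫ = 0 ∧ ⟪κ, c⟫ = 0 := by
  let f : E →ₗ[ℝ] (ℝ × ℝ) := LinearMap.prod (innerSL ℝ u).toLinearMap (innerSL ℝ κ).toLinearMap
  have hker : LinearMap.ker f ≠ ⊥ := by
    apply LinearMap.ker_ne_bot_of_finrank_lt
    simp
  obtain ⟨x, hx, hx0⟩ := Submodule.exists_mem_ne_zero_of_ne_bot hker
  have hfx : f x = 0 := hx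
  have h1 : ⟪u, x⟫ = 0 := congrArg Prod.fst hfx
  have h2 : ⟪κ, x⟫ = 0 := congrArg Prod.snd hfx
  have hnx : ‖x‖ ≠ 0 := norm_ne_zero_iff.mpr hx0
  refine ⟨(‖x‖⁻¹) • x, ?_, ?_, ?_⟩
  · rw [norm_smul, norm_inv, norm_norm, inv_mul_cancel₀ hnx]
  · rw [inner_smul_right, h1, mul_zero]
  · rw [inner_smul_right, h2, mul_zero]

/-- vanishing of vectors orthogonal to a basis -/
private lemma orth3' {u κ c x : E} (hu : u ≠ 0) (hκ : κ ≠ 0) (hc : c ≠ 0) (h1 : ⟪u, κ⟫ = 0)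
    (h2 : ⟪u, c⟫ = 0) (h3 : ⟪κ, c⟫ = 0) (e1 : ⟪u, x⟫ = 0) (e3 : ⟪c, x⟫ = 0) :
    ∃ β : ℝ, x = β • κ := by
  have hkk : ⟪κ, κ⟫ ≠ 0 := inner_self_ne_zero.mpr hκ
  refine ⟨⟪κ, x⟫ / ⟪κ, κ⟫, ?_⟩
  by_contra hne
  have hn : x - (⟪κ, x⟫ / ⟪κ, κ⟫) • κ ≠ 0 := sub_ne_zero.mpr hne
  set n := x - (⟪κ, x⟫ / ⟪κ, κ⟫) • κ with hnd
  have f1 : ⟪u, n⟫ = 0 := by
    rw [hnd, inner_sub_right, inner_smul_right, e1, h1]
    ring
  have f2 : ⟪κ, n⟫ = 0 := by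
    rw [hnd, inner_sub_right, inner_smul_right]
    field_simp
    ring
  have f3 : ⟪c, n⟫ = 0 := by
    rw [hnd, inner_sub_right, inner_smul_right, e3, real_inner_comm κ c, h3]
    ring
  have hli : LinearIndependent ℝ ![u, κ, c, n] := by
    apply linearIndependent_of_ne_zero_of_inner_eq_zero (𝕜 := ℝ)
    · intro i
      fin_cases i <;> simpa
    · intro i j hij
      fin_cases i <;> fin_cases j <;>
        first
          | exact absurd rfl hij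
          | simpa using h1
          | simpa using h2
          | simpa using h3
          | simpa using f1
          | simpa using f2
          | simpa using f3
          | (rw [real_inner_comm]; simpa using h1)
          | (rw [real_inner_comm]; simpa using h2)
          | (rw [real_inner_comm]; simpa using h3)
          | (rw [real_inner_comm]; simpa using f1)
          | (rw [real_inner_comm]; simpa using f2)
          | (rw [real_inner_comm]; simpa using f3)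
  have := hli.fintype_card_le_finrank
  simp at this

/-- the frame of a datum -/
private lemma exists_frame {u κ : E} {A : E →L[ℝ] E} (hu : ‖u‖ = 1) (hκ : κ ≠ 0)
    (h : S.Dat (Iic 0) u A κ) : ∃ (k : ℝ) (nb c b l : E), Fr u nb c b l ∧ 0 < k ∧
      k ≤ 1 / (1 + S.r / (2 * S.R)) ∧ κ = k • b ∧ b ∈ S.Sp u ∧ (∀ w ∈ S.Sp u, |⟪nb, w⟫| ≤ 1) ∧
      ⟪A nb, c⟫ = 0 ∧ 0 ≤ ⟪A c, c⟫ := by
  have hu0 : u ≠ 0 := by
    rintro rfl
    simp at hu
  obtain ⟨c, hc1, huc, hκc⟩ := exists_c u κ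
  have hc0 : c ≠ 0 := by
    rintro rfl
    simp at hc1
  have hcc : ⟪c, c⟫ = 1 := by
    rw [real_inner_self_eq_norm_sq, hc1]
    norm_num
  have huκ : ⟪u, κ⟫ = 0 := S.F_orth hu0 h.1
  obtain ⟨k, nb, hk0, hk1, hk2, hb, hunb, hnbκ, hAnb, hnbw, -⟩ :=
    S.frame0 hu0 hκ h hc0 huc hκc
  have hneg := S.not_rhoNeg_of_dat_le hu0 h
  have hρ : 0 ≤ ⟪A c, c⟫ := by
    by_contra hlt
    push Not at hlt
    exact hneg ⟨hκ, c, huc, hκc, hlt⟩
  set b : E := (1 / k) • κ with hbd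
  set l : E := c - ⟪nb, c⟫ • b with hld
  have hκb : κ = k • b := by
    rw [hbd, smul_smul, mul_one_div_cancel hk0.ne', one_smul]
  have ub : ⟪u, b⟫ = 0 := by rw [hbd, inner_smul_right, huκ, mul_zero]
  have nbb : ⟪nb, b⟫ = 1 := by
    rw [hbd, inner_smul_right, hnbκ]
    field_simp
  have cb : ⟪c, b⟫ = 0 := by
    rw [hbd, inner_smul_right, real_inner_comm κ c, hκc, mul_zero]
  have ul : ⟪u, l⟫ = 0 := by
    rw [hld, inner_sub_right, inner_smul_right, huc, ub]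
    ring
  have nbl : ⟪nb, l⟫ = 0 := by
    rw [hld, inner_sub_right, inner_smul_right, nbb]
    ring
  have cl : ⟪c, l⟫ = 1 := by
    rw [hld, inner_sub_right, inner_smul_right, cb, hcc]
    ring
  clear_value l
  clear_value b
  have hexp : ∀ x, ⟪u, x⟫ = 0 → x = ⟪nb, x⟫ • b + ⟪c, x⟫ • l := by
    intro x hx
    rw [← sub_eq_zero]
    set y := x - (⟪nb, x⟫ • b + ⟪c, x⟫ • l) with hy
    have y1 : ⟪u, y⟫ = 0 := by
      rw [hy, inner_sub_right, inner_add_right, inner_smul_right, inner_smul_right, hx, ub, ul]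
      ring
    have y2 : ⟪c, y⟫ = 0 := by
      rw [hy, inner_sub_right, inner_add_right, inner_smul_right, inner_smul_right, cb, cl]
      ring
    have y3 : ⟪nb, y⟫ = 0 := by
      rw [hy, inner_sub_right, inner_add_right, inner_smul_right, inner_smul_right, nbb, nbl]
      ring
    obtain ⟨β, hβ⟩ := orth3' hu0 hκ hc0 huκ huc hκc y1 y2
    rw [hβ, inner_smul_right, hnbκ] at y3
    rcases mul_eq_zero.mp y3 with h' | h'
    · rw [hβ, h', zero_smul]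
    · exact absurd h' hk0.ne'
  have hcoexp : ∀ n, ⟪u, n⟫ = 0 → n = ⟪n, b⟫ • nb + ⟪n, l⟫ • c := by
    intro n hn
    rw [← sub_eq_zero]
    set y := n - (⟪n, b⟫ • nb + ⟪n, l⟫ • c) with hy
    have y1 : ⟪u, y⟫ = 0 := by
      rw [hy, inner_sub_right, inner_add_right, inner_smul_right, inner_smul_right, hn, hunb, huc]
      ring
    have y2 : ⟪y, b⟫ = 0 := by
      rw [hy, inner_sub_left, inner_add_left, inner_smul_left, inner_smul_left, nbb, cb]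
      simp
    have y3 : ⟪y, l⟫ = 0 := by
      rw [hy, inner_sub_left, inner_add_left, inner_smul_left, inner_smul_left, nbl, cl]
      simp
    have y4 := hexp y y1
    have y5 : ⟪y, y⟫ = 0 := by
      have h5 := congrArg (fun z => ⟪y, z⟫) y4
      simp only [inner_add_right, inner_smul_right, y2, y3, mul_zero, add_zero] at h5
      exact h5
    exact inner_self_eq_zero.mp y5
  exact ⟨k, nb, c, b, l, ⟨hu, hunb, huc, ub, ul, nbb, nbl, cb, cl, hexp, hcoexp⟩, hk0, hk2, hκb,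
    hb.1, hnbw, hAnb, hρ⟩

/-- the pair relations in a frame -/
private lemma rel_frame {u nb c b l κ n w : E} {k t t' : ℝ} {A : E →L[ℝ] E}
    (hf : Fr u nb c b l) (hκ : κ = k • b) (hAnb : ⟪A nb, c⟫ = 0) (hn : ⟪u, n⟫ = 0)
    (hr : Rel A κ w n t t') :
    pr (⟪n, b⟫, ⟪n, l⟫) (⟪A nb, nb⟫, ⟪A c, nb⟫) = -((t + t') / 2) * ⟪nb, w⟫ + (t - t') / 2 * k ∧
    ⟪A c, c⟫ * ⟪n, l⟫ = -((t + t') / 2) * ⟪c, w⟫ := by
  unfold Rel at hr
  have hnd := hf.coexp n hn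
  have hA : A n = ⟪n, b⟫ • A nb + ⟪n, l⟫ • A c := by
    conv_lhs => rw [hnd]
    rw [map_add, map_smul, map_smul]
  have h1 := congrArg (fun z => ⟪z, nb⟫) hr
  have h2 := congrArg (fun z => ⟪z, c⟫) hr
  have hbn : ⟪b, nb⟫ = 1 := by rw [real_inner_comm]; exact hf.nbb
  have hbc : ⟪b, c⟫ = 0 := by rw [real_inner_comm]; exact hf.cb
  simp only [hA, inner_add_left, inner_smul_left, hκ, conj_trivial, hAnb, hbn, hbc] at h1 h2
  rw [real_inner_comm nb w] at h1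
  rw [real_inner_comm c w] at h2
  unfold pr
  constructor
  · simp only
    linarith
  · linarith

/-- a bound for the slopes -/
private lemma slope_bound {u n w : E} {t t' : ℝ} (hu : ‖u‖ = 1) (hn : ⟪u, n⟫ = 0)
    (hnw : ⟪n, w⟫ = 1) (hp : S.Pair u w n t t') :
    |(t + t') / 2| ≤ 8 * S.R / S.r ^ 2 := by
  have hu0 : u ≠ 0 := by
    rintro rfl
    simp at hu
  have hr := S.r_pos
  have hR := S.R_pos9
  have huu : ⟪u, u⟫ = 1 := by
    rw [real_inner_self_eq_norm_sq, hu]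
    norm_num
  have hn0 : n ≠ 0 := by
    rintro rfl
    simp at hnw
  have hnn : 0 < ‖n‖ := norm_pos_iff.mpr hn0
  have hnb : ‖n‖ ≤ 2 / S.r := by
    have hmem : (S.r / (2 * ‖n‖)) • n ∈ S.Sp u := by
      apply S.Sp_ball hu0
      · rw [inner_smul_right, hn, mul_zero]
      · rw [norm_smul, Real.norm_eq_abs, abs_of_pos (by positivity)]
        apply le_of_eq
        field_simp
    have h1 := S.pair_max hu0 hp _ hmem
    rw [inner_smul_right, hnw, real_inner_self_eq_norm_sq] at h1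
    have h2 : S.r / (2 * ‖n‖) * ‖n‖ ^ 2 = S.r / 2 * ‖n‖ := by
      field_simp
    rw [h2] at h1
    rw [le_div_iff₀ hr]
    linarith
  have hb := S.pair_bound hu0 hp
  have e1 : |t| ≤ 4 * S.R / S.r * ‖n‖ := by
    have h1 : |⟪u, n - t • u⟫| ≤ ‖u‖ * ‖n - t • u‖ := abs_real_inner_le_norm _ _
    rw [inner_sub_right, inner_smul_right, hn, huu, hu, zero_sub, mul_one, abs_neg, one_mul] at h1
    exact h1.trans hb.1
  have e2 : |t'| ≤ 4 * S.R / S.r * ‖n‖ := by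
    have h1 : |⟪u, n + t' • u⟫| ≤ ‖u‖ * ‖n + t' • u‖ := abs_real_inner_le_norm _ _
    rw [inner_add_right, inner_smul_right, hn, huu, hu, zero_add, mul_one, one_mul] at h1
    exact h1.trans hb.2
  have e3 : 4 * S.R / S.r * ‖n‖ ≤ 4 * S.R / S.r * (2 / S.r) := by gcongr
  have e4 : 4 * S.R / S.r * (2 / S.r) = 8 * S.R / S.r ^ 2 := by
    field_simp
    ring
  rw [abs_div, abs_two]
  have e5 : |t + t'| ≤ |t| + |t'| := abs_add_le _ _
  rw [div_le_iff₀ two_pos]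
  linarith

private lemma dat_univ {P : Set ℝ} {v κ : E} {A : E →L[ℝ] E} (h : S.Dat P v A κ) :
    S.Dat univ v A κ := by
  refine ⟨h.1, fun n => ?_, fun w hw => ?_⟩
  · obtain ⟨w, t, t', h1, h2, -⟩ := h.2.1 n
    exact ⟨w, t, t', h1, h2, mem_univ _⟩
  · obtain ⟨n, t, t', h0, h1, h2, -⟩ := h.2.2 w hw
    exact ⟨n, t, t', h0, h1, h2, mem_univ _⟩

private lemma pr_comm' (x y : ℝ × ℝ) : pr x y = pr y x := by
  unfold pr
  ring

private lemma pr_smul_l (a : ℝ) (x y : ℝ × ℝ) : pr (a • x) y = a * pr x y := by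
  unfold pr
  simp only [Prod.smul_fst, Prod.smul_snd, smul_eq_mul]
  ring

private lemma pr_smul_r (a : ℝ) (x y : ℝ × ℝ) : pr x (a • y) = a * pr x y := by
  unfold pr
  simp only [Prod.smul_fst, Prod.smul_snd, smul_eq_mul]
  ring

private lemma v_u {u δ : E} (hu : ‖u‖ = 1) (hδ : ⟪u, δ⟫ = 0) (ε : ℝ) : ⟪u + ε • δ, u⟫ = 1 := by
  rw [inner_add_left, inner_smul_left, real_inner_comm u δ, hδ, real_inner_self_eq_norm_sq, hu]
  simp

/-- the gauge side of the variation -/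
private lemma ae_gauge {u κ δ nb c b l : E} {k : ℝ} {A0 : E →L[ℝ] E} {ε : ℕ → ℝ}
    {A : ℕ → E →L[ℝ] E} {κj : ℕ → E} (hf : Fr u nb c b l) (hκb : κ = k • b)
    (hAnb : ⟪A0 nb, c⟫ = 0) (hδu : ⟪u, δ⟫ = 0)
    (hε : ∀ j, 0 < ε j) (hε0 : Tendsto ε atTop (𝓝 0))
    (hD : ∀ j, S.Dat (Iic 0) (u + ε j • δ) (A j) (κj j)) (hA : Tendsto A atTop (𝓝 A0))
    (hκ : Tendsto κj atTop (𝓝 κ)) (hpos : 0 < ⟪κ, δ⟫) :
    ∀ᵐ a : ℝ, ∃ (n w : ℝ × ℝ) (te s : ℝ),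
      w = (gauge (S.body u (chT b l)) (a, 1))⁻¹ • ((a, 1) : ℝ × ℝ) ∧
      n ∈ plr (S.body u (chT b l)) ∧ pr n w = 1 ∧ te ≤ 0 ∧ |te| ≤ 8 * S.R / S.r ^ 2 ∧
      pr n (⟪A0 nb, nb⟫, ⟪A0 c, nb⟫) = -te * w.1 + s * k ∧
      ⟪A0 c, c⟫ * n.2 = -te * w.2 ∧
      Tendsto (fun j => (gauge (S.body (u + ε j • δ) (chV u b l (u + ε j • δ))) (a, 1) -
        gauge (S.body u (chT b l)) (a, 1)) / ε j) atTop
          (𝓝 (gauge (S.body u (chT b l)) (a, 1) *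
            (s * pr (⟪δ, b⟫, ⟪δ, l⟫) w - te * pr (⟪δ, b⟫, ⟪δ, l⟫) (k, 0)))) := by
  have hB := S.body_isBody hf.u0 hf.par
  set B := S.body u (chT b l) with hBdef
  filter_upwards [ae_unique hB] with a ha
  have ha1 : ((a, 1) : ℝ × ℝ) ≠ 0 := by
    intro h
    exact one_ne_zero (congrArg Prod.snd h)
  have hg : 0 < gauge B (a, 1) := hB.gauge_pos ha1
  obtain ⟨⟨n0, hn0, hn0e⟩, -⟩ := hB.gauge_eq (a, 1)
  simp only at hn0e
  set g := gauge B (a, 1) with hgdef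
  set z0 : ℝ × ℝ := g⁻¹ • ((a, 1) : ℝ × ℝ) with hz0
  have hz00 : z0 ≠ 0 := smul_ne_zero (inv_ne_zero hg.ne') ha1
  have hgz0 : gauge B z0 = 1 := by
    rw [hz0, hB.gauge_smul, abs_of_pos (inv_pos.mpr hg), ← hgdef, inv_mul_cancel₀ hg.ne']
  have hw : chT b l z0 ∈ S.bd u := S.bd_of_gauge hf.u0 hf.par hgz0
  set n : E := n0.1 • nb + n0.2 • c with hn
  have hnb' : ⟪n, b⟫ = n0.1 := by
    rw [hn, inner_add_left, inner_smul_left, inner_smul_left, hf.nbb, hf.cb]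
    simp
  have hnl' : ⟪n, l⟫ = n0.2 := by
    rw [hn, inner_add_left, inner_smul_left, inner_smul_left, hf.nbl, hf.cl]
    simp
  have hun : ⟪u, n⟫ = 0 := by
    rw [hn, inner_add_right, inner_smul_right, inner_smul_right, hf.unb, hf.uc]
    ring
  have hnz : ∀ z, ⟪n, chT b l z⟫ = pr n0 z := by
    intro z
    rw [n_T, hnb', hnl']
  have hnw : ⟪n, chT b l z0⟫ = 1 := by
    rw [hnz, hz0, pr_smul_r, hn0e, inv_mul_cancel₀ hg.ne']
  have hcoord : ∀ w' ∈ S.Sp u, chT b l (⟪nb, w'⟫, ⟪c, w'⟫) = w' := by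
    intro w' hw'
    have huu1 : ⟪u, u⟫ ≠ 0 := by rw [hf.uu]; exact one_ne_zero
    have := hf.coord (v := u) huu1 hw'.1
    rwa [hf.chV_self] at this
  have hcoordB : ∀ w' ∈ S.Sp u, (⟪nb, w'⟫, ⟪c, w'⟫) ∈ B := by
    intro w' hw'
    show S.C u + chT b l (⟪nb, w'⟫, ⟪c, w'⟫) ∈ S.K1
    rw [hcoord w' hw']
    exact hw'.2
  have hmax : ∀ w' ∈ S.Sp u, ⟪n, w'⟫ ≤ 1 := by
    intro w' hw'
    rw [← hcoord w' hw', hnz]
    exact hn0 _ (hcoordB w' hw')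
  have huniq : ∀ n', ⟪u, n'⟫ = 0 → ⟪n', chT b l z0⟫ = 1 → (∀ w' ∈ S.Sp u, ⟪n', w'⟫ ≤ 1) →
      n' = n := by
    intro n' h1 h2 h3
    have h4 : (⟪n', b⟫, ⟪n', l⟫) ∈ plr B := by
      intro z hz
      rw [← n_T]
      exact h3 _ ⟨hf.u_T z, hz⟩
    have h5 : pr (⟪n', b⟫, ⟪n', l⟫) (a, 1) = g := by
      rw [n_T, hz0, pr_smul_r] at h2
      field_simp at h2
      exact h2
    have h6 : (⟪n', b⟫, ⟪n', l⟫) = n0 := (ha.2 _ h4 h5).trans (ha.2 _ hn0 hn0e).symm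
    rw [hf.coexp n' h1, hn, ← h6]
  have hvu : ∀ j, ⟪u + ε j • δ, u⟫ ≠ 0 := by
    intro j
    rw [v_u hf.hu hδu]
    exact one_ne_zero
  have hv0 : ∀ j, u + ε j • δ ≠ 0 := by
    intro j h
    have := hvu j
    rw [h, inner_zero_left] at this
    exact this rfl
  have hBj : ∀ j, IsBody (S.body (u + ε j • δ) (chV u b l (u + ε j • δ))) := fun j =>
    S.body_isBody (hv0 j) (hf.parV (hvu j))
  have hcpos : ∀ j, 0 < (gauge (S.body (u + ε j • δ) (chV u b l (u + ε j • δ))) z0)⁻¹ := fun j =>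
    inv_pos.mpr ((hBj j).gauge_pos hz00)
  have hcb : ∀ j, (gauge (S.body (u + ε j • δ) (chV u b l (u + ε j • δ))) z0)⁻¹ •
      lift (u + ε j • δ) u (chT b l z0) ∈ S.bd (u + ε j • δ) := by
    intro j
    have h1 : lift (u + ε j • δ) u (chT b l z0) = chV u b l (u + ε j • δ) z0 := rfl
    rw [h1, ← map_smul]
    apply S.bd_of_gauge (hv0 j) (hf.parV (hvu j))
    rw [(hBj j).gauge_smul, abs_of_pos (hcpos j), inv_mul_cancel₀]
    exact ((hBj j).gauge_pos hz00).ne'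
  obtain ⟨t, t', hp, hr, hs, hlim⟩ := S.var_w isClosed_Iic hf.hu hδu hε hε0 hD hA hκ hpos hun hw hnw
    hmax huniq hcpos hcb
  have hrf := rel_frame hf hκb hAnb hun hr
  rw [hf.nb_T, hf.c_T, hnb', hnl'] at hrf
  refine ⟨n0, z0, (t + t') / 2, (t - t') / 2, rfl, hn0, ?_, ?_, S.slope_bound hf.hu hun hnw hp,
    hrf.1, hrf.2, ?_⟩
  · rw [hz0, pr_smul_r, hn0e, inv_mul_cancel₀ hg.ne']
  · have : t + t' ≤ 0 := hs
    linarith
  · have h1 := hlim.const_mul g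
    have e1 : ⟪chT b l z0, δ⟫ = pr (⟪δ, b⟫, ⟪δ, l⟫) z0 := by
      rw [real_inner_comm, n_T]
    have e2 : ⟪κ, δ⟫ = pr (⟪δ, b⟫, ⟪δ, l⟫) (k, 0) := by
      rw [hκb, real_inner_comm, inner_smul_right, pr]
      simp only
      ring
    rw [e1, e2] at h1
    refine h1.congr (fun j => ?_)
    rw [inv_inv]
    have h2 : gauge (S.body (u + ε j • δ) (chV u b l (u + ε j • δ))) z0 =
        g⁻¹ * gauge (S.body (u + ε j • δ) (chV u b l (u + ε j • δ))) (a, 1) := by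
      rw [hz0, (hBj j).gauge_smul, abs_of_pos (inv_pos.mpr hg)]
    rw [h2]
    have := (hε j).ne'
    field_simp

/-- the polar side of the variation -/
private lemma ae_polar {u κ δ nb c b l : E} {k : ℝ} {A0 : E →L[ℝ] E} {ε : ℕ → ℝ}
    {A : ℕ → E →L[ℝ] E} {κj : ℕ → E} (hf : Fr u nb c b l) (hκb : κ = k • b)
    (hAnb : ⟪A0 nb, c⟫ = 0) (hδu : ⟪u, δ⟫ = 0)
    (hε : ∀ j, 0 < ε j) (hε0 : Tendsto ε atTop (𝓝 0))
    (hD : ∀ j, S.Dat (Iic 0) (u + ε j • δ) (A j) (κj j)) (hA : Tendsto A atTop (𝓝 A0))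
    (hκ : Tendsto κj atTop (𝓝 κ)) (hpos : 0 < ⟪κ, δ⟫) :
    ∀ᵐ α : ℝ, ∃ (n w : ℝ × ℝ) (te s : ℝ),
      n = (gauge (plr (S.body u (chT b l))) (α, 1))⁻¹ • ((α, 1) : ℝ × ℝ) ∧
      w ∈ S.body u (chT b l) ∧ pr n w = 1 ∧ te ≤ 0 ∧ |te| ≤ 8 * S.R / S.r ^ 2 ∧
      pr n (⟪A0 nb, nb⟫, ⟪A0 c, nb⟫) = -te * w.1 + s * k ∧
      ⟪A0 c, c⟫ * n.2 = -te * w.2 ∧
      Tendsto (fun j => (gauge (plr (S.body (u + ε j • δ) (chV u b l (u + ε j • δ)))) (α, 1) -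
        gauge (plr (S.body u (chT b l))) (α, 1)) / ε j) atTop
          (𝓝 (gauge (plr (S.body u (chT b l))) (α, 1) *
            (-s * pr (⟪δ, b⟫, ⟪δ, l⟫) w + te * pr (⟪δ, b⟫, ⟪δ, l⟫) (k, 0)))) := by
  have hB := S.body_isBody hf.u0 hf.par
  set B := S.body u (chT b l) with hBdef
  filter_upwards [ae_unique hB.plr] with a ha
  rw [hB.plr_plr] at ha
  have ha1 : ((a, 1) : ℝ × ℝ) ≠ 0 := by
    intro h
    exact one_ne_zero (congrArg Prod.snd h)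
  have hg : 0 < gauge (plr B) (a, 1) := hB.plr.gauge_pos ha1
  obtain ⟨⟨w0, hw0, hw0e⟩, hgr⟩ := hB.gauge_plr (a, 1)
  simp only at hw0e
  have hgr' : ∀ z ∈ B, pr (a, 1) z ≤ gauge (plr B) (a, 1) := fun z hz => hgr ⟨z, hz, rfl⟩
  set g := gauge (plr B) (a, 1) with hgdef
  set n0 : ℝ × ℝ := g⁻¹ • ((a, 1) : ℝ × ℝ) with hn0
  set n : E := n0.1 • nb + n0.2 • c with hn
  have hnb' : ⟪n, b⟫ = n0.1 := by
    rw [hn, inner_add_left, inner_smul_left, inner_smul_left, hf.nbb, hf.cb]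
    simp
  have hnl' : ⟪n, l⟫ = n0.2 := by
    rw [hn, inner_add_left, inner_smul_left, inner_smul_left, hf.nbl, hf.cl]
    simp
  have hun : ⟪u, n⟫ = 0 := by
    rw [hn, inner_add_right, inner_smul_right, inner_smul_right, hf.unb, hf.uc]
    ring
  have hnz : ∀ z, ⟪n, chT b l z⟫ = pr n0 z := by
    intro z
    rw [n_T, hnb', hnl']
  have hw : chT b l w0 ∈ S.Sp u := ⟨hf.u_T w0, hw0⟩
  have hnw : ⟪n, chT b l w0⟫ = 1 := by
    rw [hnz, hn0, pr_smul_l, hw0e, inv_mul_cancel₀ hg.ne']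
  have hn00 : n ≠ 0 := by
    intro h
    rw [h, inner_zero_left] at hnw
    exact zero_ne_one hnw
  have hcoord : ∀ w' ∈ S.Sp u, chT b l (⟪nb, w'⟫, ⟪c, w'⟫) = w' := by
    intro w' hw'
    have huu1 : ⟪u, u⟫ ≠ 0 := by rw [hf.uu]; exact one_ne_zero
    have := hf.coord (v := u) huu1 hw'.1
    rwa [hf.chV_self] at this
  have hcoordB : ∀ w' ∈ S.Sp u, (⟪nb, w'⟫, ⟪c, w'⟫) ∈ B := by
    intro w' hw'
    show S.C u + chT b l (⟪nb, w'⟫, ⟪c, w'⟫) ∈ S.K1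
    rw [hcoord w' hw']
    exact hw'.2
  have hmax : ∀ w' ∈ S.Sp u, ⟪n, w'⟫ ≤ ⟪n, chT b l w0⟫ := by
    intro w' hw'
    rw [hnw, ← hcoord w' hw', hnz, hn0, pr_smul_l, inv_mul_le_iff₀ hg, mul_one]
    exact hgr' _ (hcoordB w' hw')
  have huniq : ∀ w' ∈ S.Sp u, ⟪n, w'⟫ = ⟪n, chT b l w0⟫ → w' = chT b l w0 := by
    intro w' hw' h2
    rw [hnw, ← hcoord w' hw', hnz, hn0, pr_smul_l, inv_mul_eq_iff_eq_mul₀ hg.ne', mul_one] at h2
    have h5 : (⟪nb, w'⟫, ⟪c, w'⟫) = w0 :=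
      (ha.2 _ (hcoordB w' hw') (by rw [pr_comm']; exact h2)).trans
        (ha.2 _ hw0 (by rw [pr_comm']; exact hw0e)).symm
    rw [← hcoord w' hw', h5]
  have hvu : ∀ j, ⟪u + ε j • δ, u⟫ ≠ 0 := by
    intro j
    rw [v_u hf.hu hδu]
    exact one_ne_zero
  have hv0 : ∀ j, u + ε j • δ ≠ 0 := by
    intro j h
    have := hvu j
    rw [h, inner_zero_left] at this
    exact this rfl
  have hBj : ∀ j, IsBody (S.body (u + ε j • δ) (chV u b l (u + ε j • δ))) := fun j =>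
    S.body_isBody (hv0 j) (hf.parV (hvu j))
  obtain ⟨t, t', hp, hr, hs, hlim⟩ := S.var_n isClosed_Iic hf.hu hδu hε hε0 hD hA hκ hpos hun hn00
    hw hmax huniq
  have hrf := rel_frame hf hκb hAnb hun hr
  rw [hf.nb_T, hf.c_T, hnb', hnl'] at hrf
  refine ⟨n0, w0, (t + t') / 2, (t - t') / 2, rfl, hw0, ?_, ?_, S.slope_bound hf.hu hun hnw hp,
    hrf.1, hrf.2, ?_⟩
  · rw [hn0, pr_smul_l, hw0e, inv_mul_cancel₀ hg.ne']
  · have : t + t' ≤ 0 := hs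
    linarith
  · have h1 := hlim.const_mul g
    have e1 : ⟪chT b l w0, δ⟫ = pr (⟪δ, b⟫, ⟪δ, l⟫) w0 := by
      rw [real_inner_comm, n_T]
    have e2 : ⟪κ, δ⟫ = pr (⟪δ, b⟫, ⟪δ, l⟫) (k, 0) := by
      rw [hκb, real_inner_comm, inner_smul_right, pr]
      simp only
      ring
    rw [e1, e2] at h1
    have e3 : -((t - t') / 2) * pr (⟪δ, b⟫, ⟪δ, l⟫) w0 +
      (t + t') / 2 * pr (⟪δ, b⟫, ⟪δ, l⟫) (k, 0) = -((t - t') / 2) * pr (⟪δ, b⟫, ⟪δ, l⟫) w0 +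
      (t + t') / 2 * pr (⟪δ, b⟫, ⟪δ, l⟫) (k, 0) := rfl
    refine h1.congr (fun j => ?_)
    have hle : ∀ v : E, ⟪v, u⟫ ≠ 0 → IsBody (S.body v (chV u b l v)) →
        S.lsup v n = g⁻¹ * gauge (plr (S.body v (chV u b l v))) (a, 1) := by
      intro v hv hbv
      rw [S.lsup_eq hf hv hun, hnb', hnl']
      have : ((n0.1, n0.2) : ℝ × ℝ) = g⁻¹ • ((a, 1) : ℝ × ℝ) := by rw [hn0]
      rw [this, hbv.plr.gauge_smul, abs_of_pos (inv_pos.mpr hg)]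
    have huu1 : ⟪u, u⟫ ≠ 0 := by rw [hf.uu]; exact one_ne_zero
    rw [hle _ (hvu j) (hBj j), hle u huu1 (by rw [hf.chV_self]; exact hB), hf.chV_self, ← hBdef,
      ← hgdef]
    have := (hε j).ne'
    field_simp

/-- `O(ε)` bound for `Qf x x` -/
private lemma Qf_diag {B : Set (ℝ × ℝ)} (hB : IsBody B) {Bj : ℕ → Set (ℝ × ℝ)}
    (hj : ∀ j, IsBody (Bj j)) {ε : ℕ → ℝ} (hε : ∀ j, 0 < ε j) (hε0 : Tendsto ε atTop (𝓝 0))
    {Ct : ℝ} (hb : ∀ᶠ j in atTop, ∀ z, |gauge (Bj j) z - gauge B z| ≤ Ct * ε j * gauge B z)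
    {τ : ℝ → ℝ}
    (hτ : ∀ᵐ α : ℝ, Tendsto (fun j => (gauge (plr (Bj j)) (α, 1) - gauge (plr B) (α, 1)) / ε j)
      atTop (𝓝 (gauge (plr B) (α, 1) * τ α))) {x : ℝ × ℝ} (hx : x ≠ 0) :
    ∃ Cst : ℝ, 0 ≤ Cst ∧ ∀ᶠ j in atTop, |Qf (Bj j) x x - Qf B x x| ≤ Cst * ε j := by
  obtain ⟨-, hlim⟩ := log_Qf_deriv hB hj hε hε0 hb hτ hx
  set L : ℝ := -4 * (∫ α, τ α * (pr (α, 1) x) ^ 2 * (gauge (plr B) (α, 1))⁻¹ ^ 4) /
            (∫ α, (pr (α, 1) x) ^ 2 * (gauge (plr B) (α, 1))⁻¹ ^ 4) +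
          2 * (∫ α, τ α * (gauge (plr B) (α, 1))⁻¹ ^ 2) /
            ∫ α, (gauge (plr B) (α, 1))⁻¹ ^ 2 with hL
  have hQ := hB.Qf_pos hx
  have h0 : Tendsto (fun j => ε j * ((Real.log (Qf (Bj j) x x) - Real.log (Qf B x x)) / ε j)) atTop
      (𝓝 (0 * L)) := hε0.mul hlim
  rw [zero_mul] at h0
  have h1 : ∀ᶠ j in atTop,
      |ε j * ((Real.log (Qf (Bj j) x x) - Real.log (Qf B x x)) / ε j)| < 1 := by
    have := h0.abs
    rw [abs_zero] at this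
    exact this.eventually (gt_mem_nhds one_pos)
  have h2 : ∀ᶠ j in atTop,
      |(Real.log (Qf (Bj j) x x) - Real.log (Qf B x x)) / ε j| < |L| + 1 :=
    hlim.abs.eventually (gt_mem_nhds (by linarith))
  refine ⟨Qf B x x * (2 * (|L| + 1)), by positivity, ?_⟩
  filter_upwards [h1, h2] with j hj1 hj2
  have hQj := (hj j).Qf_pos hx
  set y := ε j * ((Real.log (Qf (Bj j) x x) - Real.log (Qf B x x)) / ε j) with hy
  have hy' : y = Real.log (Qf (Bj j) x x) - Real.log (Qf B x x) := by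
    rw [hy]
    have := (hε j).ne'
    field_simp
  have he : Qf (Bj j) x x - Qf B x x = Qf B x x * (Real.exp y - 1) := by
    rw [hy', Real.exp_sub, Real.exp_log hQj, Real.exp_log hQ]
    field_simp
  rw [he, abs_mul, abs_of_pos hQ]
  have h3 := Real.abs_exp_sub_one_le hj1.le
  have h4 : |y| ≤ ε j * (|L| + 1) := by
    rw [hy, abs_mul, abs_of_pos (hε j)]
    have := (hε j).le
    gcongr
  have h5 : Qf B x x * |Real.exp y - 1| ≤ Qf B x x * (2 * (ε j * (|L| + 1))) := by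
    gcongr
    linarith
  linarith

private lemma Qf_expand {B : Set (ℝ × ℝ)} (hB : IsBody B) (x y : ℝ × ℝ) :
    Qf B (x + y) (x + y) = Qf B x x + 2 * Qf B x y + Qf B y y := by
  rw [hB.Qf_add_left, IsBody.Qf_comm B x (x + y), IsBody.Qf_comm B y (x + y), hB.Qf_add_left,
    hB.Qf_add_left, IsBody.Qf_comm B y x]
  ring

private lemma Qf_row {B : Set (ℝ × ℝ)} (hB : IsBody B) (k : ℝ) (d : ℝ × ℝ) :
    Qf B (k, 0) d = k * (d.1 * Qf B (1, 0) (1, 0) + d.2 * ((Qf B (1, 1) (1, 1) -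
      Qf B (1, 0) (1, 0) - Qf B (0, 1) (0, 1)) / 2)) := by
  have h1 : ((k, 0) : ℝ × ℝ) = k • ((1, 0) : ℝ × ℝ) := by
    ext <;> simp
  have h2 : d = d.1 • ((1, 0) : ℝ × ℝ) + d.2 • ((0, 1) : ℝ × ℝ) := by
    ext <;> simp
  have h3 : ((1, 1) : ℝ × ℝ) = (1, 0) + (0, 1) := by
    ext <;> simp
  have h4 := Qf_expand hB (1, 0) (0, 1)
  rw [← h3] at h4
  have h5 : Qf B (1, 0) d = d.1 * Qf B (1, 0) (1, 0) + d.2 * Qf B (1, 0) (0, 1) := by
    rw [IsBody.Qf_comm B (1, 0) d]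
    conv_lhs => rw [h2]
    rw [hB.Qf_add_left, hB.Qf_smul_left, hB.Qf_smul_left, IsBody.Qf_comm B (0, 1) (1, 0)]
  rw [h1, hB.Qf_smul_left, h5, h4]
  ring

/-- `O(ε)` bound for the row `Qf (k,0)` -/
private lemma Qf_row_bound {B : Set (ℝ × ℝ)} (hB : IsBody B) {Bj : ℕ → Set (ℝ × ℝ)}
    (hj : ∀ j, IsBody (Bj j)) {ε : ℕ → ℝ} (hε : ∀ j, 0 < ε j) (hε0 : Tendsto ε atTop (𝓝 0))
    {Ct : ℝ} (hb : ∀ᶠ j in atTop, ∀ z, |gauge (Bj j) z - gauge B z| ≤ Ct * ε j * gauge B z)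
    {τ : ℝ → ℝ}
    (hτ : ∀ᵐ α : ℝ, Tendsto (fun j => (gauge (plr (Bj j)) (α, 1) - gauge (plr B) (α, 1)) / ε j)
      atTop (𝓝 (gauge (plr B) (α, 1) * τ α))) (k : ℝ) :
    ∃ Cst : ℝ, 0 ≤ Cst ∧ ∀ᶠ j in atTop, ∀ d : ℝ × ℝ,
      |Qf (Bj j) (k, 0) d - Qf B (k, 0) d| ≤ Cst * ε j * (|d.1| + |d.2|) := by
  obtain ⟨C1, hC1, h1⟩ := Qf_diag hB hj hε hε0 hb hτ (x := (1, 0)) (by simp)
  obtain ⟨C2, hC2, h2⟩ := Qf_diag hB hj hε hε0 hb hτ (x := (0, 1)) (by simp)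
  obtain ⟨C3, hC3, h3⟩ := Qf_diag hB hj hε hε0 hb hτ (x := (1, 1)) (by simp)
  refine ⟨|k| * (C1 + C2 + C3), by positivity, ?_⟩
  filter_upwards [h1, h2, h3] with j e1 e2 e3 d
  rw [Qf_row (hj j), Qf_row hB]
  set D1 := Qf (Bj j) (1, 0) (1, 0) - Qf B (1, 0) (1, 0) with hD1
  set D2 := Qf (Bj j) (0, 1) (0, 1) - Qf B (0, 1) (0, 1) with hD2
  set D3 := Qf (Bj j) (1, 1) (1, 1) - Qf B (1, 1) (1, 1) with hD3
  have he : k * (d.1 * Qf (Bj j) (1, 0) (1, 0) + d.2 * ((Qf (Bj j) (1, 1) (1, 1) -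
      Qf (Bj j) (1, 0) (1, 0) - Qf (Bj j) (0, 1) (0, 1)) / 2)) -
      k * (d.1 * Qf B (1, 0) (1, 0) + d.2 * ((Qf B (1, 1) (1, 1) -
      Qf B (1, 0) (1, 0) - Qf B (0, 1) (0, 1)) / 2)) =
      k * (d.1 * D1 + d.2 * ((D3 - D1 - D2) / 2)) := by
    rw [hD1, hD2, hD3]
    ring
  rw [he, abs_mul]
  have hεj := (hε j).le
  have h6 : |d.1 * D1 + d.2 * ((D3 - D1 - D2) / 2)| ≤
      (C1 + C2 + C3) * ε j * (|d.1| + |d.2|) := by
    have a1 : |d.1 * D1| ≤ |d.1| * (C1 * ε j) := by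
      rw [abs_mul]
      gcongr
    have a2 : |d.2 * ((D3 - D1 - D2) / 2)| ≤ |d.2| * ((C1 + C2 + C3) * ε j) := by
      rw [abs_mul]
      gcongr
      rw [abs_le] at e1 e2 e3 ⊢
      have := mul_nonneg hC1 hεj
      have := mul_nonneg hC2 hεj
      have := mul_nonneg hC3 hεj
      constructor <;> linarith [e1.1, e1.2, e2.1, e2.2, e3.1, e3.2]
    have a3 := abs_add_le (d.1 * D1) (d.2 * ((D3 - D1 - D2) / 2))
    have a4 : |d.1| * (C1 * ε j) ≤ |d.1| * ((C1 + C2 + C3) * ε j) := by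
      gcongr
      linarith
    nlinarith
  calc |k| * |d.1 * D1 + d.2 * ((D3 - D1 - D2) / 2)|
      ≤ |k| * ((C1 + C2 + C3) * ε j * (|d.1| + |d.2|)) := by gcongr
    _ = |k| * (C1 + C2 + C3) * ε j * (|d.1| + |d.2|) := by ring

/-- the first variation when the matrices converge -/
private lemma first_var_core {N kmax P1 : ℝ} (hkm : 1 / (1 + S.r / (2 * S.R)) ≤ kmax)
    (hPVT : ∀ (B : Set (ℝ × ℝ)) (k lam Ct : ℝ) (m δ : ℝ × ℝ) (Bj : ℕ → Set (ℝ × ℝ)) (ε : ℕ → ℝ),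
      IsBody B → MV B ≤ P1 → 0 < k → k ≤ kmax → ((1 : ℝ), (0 : ℝ)) ∈ B →
      (∀ z ∈ B, |z.1| ≤ 1) → 0 ≤ lam → (∀ x, pr δ x = Qf B (k, 0) x) →
      (∀ j, IsBody (Bj j)) → (∀ j, 0 < ε j) → Tendsto ε atTop (𝓝 0) →
      (∀ᶠ j in atTop, ∀ z, |gauge (Bj j) z - gauge B z| ≤ Ct * ε j * gauge B z) →
      (∀ᵐ a : ℝ, ∃ (n w : ℝ × ℝ) (te s : ℝ), w = (gauge B (a, 1))⁻¹ • ((a, 1) : ℝ × ℝ) ∧
        n ∈ plr B ∧ pr n w = 1 ∧ te ≤ 0 ∧ |te| ≤ Ct ∧ pr n m = -te * w.1 + s * k ∧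
        lam * n.2 = -te * w.2 ∧
        Tendsto (fun j => (gauge (Bj j) (a, 1) - gauge B (a, 1)) / ε j) atTop
          (𝓝 (gauge B (a, 1) * (s * pr δ w - te * pr δ (k, 0))))) →
      (∀ᵐ α : ℝ, ∃ (n w : ℝ × ℝ) (te s : ℝ), n = (gauge (plr B) (α, 1))⁻¹ • ((α, 1) : ℝ × ℝ) ∧
        w ∈ B ∧ pr n w = 1 ∧ te ≤ 0 ∧ |te| ≤ Ct ∧ pr n m = -te * w.1 + s * k ∧
        lam * n.2 = -te * w.2 ∧
        Tendsto (fun j => (gauge (plr (Bj j)) (α, 1) - gauge (plr B) (α, 1)) / ε j) atTop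
          (𝓝 (gauge (plr B) (α, 1) * (-s * pr δ w + te * pr δ (k, 0))))) →
      ∀ η > 0, ∀ᶠ j in atTop,
        -η * ε j ≤ N * (Real.log (MV B) - Real.log (MV (Bj j))) +
          1 / 2 * (Real.log (Qf (Bj j) (k, 0) (k, 0)) - Real.log (Qf B (k, 0) (k, 0))) -
          ε j * (δ.1 * pr δ m + lam * δ.2 ^ 2) / pr δ (k, 0))
    {u κ δ : E} {ε : ℕ → ℝ} {A : ℕ → E →L[ℝ] E} {κj : ℕ → E} {A0 : E →L[ℝ] E}
    (hu : ‖u‖ = 1) (hPu : S.P u ≤ P1) (hκF : S.C u + κ ∈ S.F u) (hκ0 : κ ≠ 0)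
    (hδu : ⟪u, δ⟫ = 0) (hδ : ∀ x, ⟪u, x⟫ = 0 → ⟪δ, x⟫ = S.Q u κ x)
    (hε : ∀ j, 0 < ε j) (hε0 : Tendsto ε atTop (𝓝 0))
    (hD : ∀ j, S.Dat (Iic 0) (u + ε j • δ) (A j) (κj j)) (hA : Tendsto A atTop (𝓝 A0))
    (hκ : Tendsto κj atTop (𝓝 κ)) (hD0 : S.Dat (Iic 0) u A0 κ) {η : ℝ} (hη : 0 < η) :
    ∀ᶠ j in atTop, -η * ε j ≤
        N * (Real.log (S.P u) - Real.log (S.P (u + ε j • δ))) +
          1 / 2 * (Real.log (S.Q (u + ε j • δ) (κj j) (κj j)) - Real.log (S.Q u κ κ)) := by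
  have hu0 : u ≠ 0 := by
    rintro rfl
    simp at hu
  have hQform := S.Q_form hu0
  have huκ : ⟪u, κ⟫ = 0 := S.F_orth hu0 hκF
  have hpos : 0 < ⟪κ, δ⟫ := by
    rw [real_inner_comm, hδ κ huκ]
    exact hQform.2.2.2.1 κ huκ hκ0
  obtain ⟨k, nb, c, b, l, hf, hk0, hk1, hκb, hbS, hnbw, hAnb, hρ⟩ := S.exists_frame hu hκ0 hD0
  have hvu : ∀ j, ⟪u + ε j • δ, u⟫ ≠ 0 := by
    intro j
    rw [v_u hf.hu hδu]
    exact one_ne_zero
  have hv0 : ∀ j, u + ε j • δ ≠ 0 := by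
    intro j h
    have := hvu j
    rw [h, inner_zero_left] at this
    exact this rfl
  have hBj : ∀ j, IsBody (S.body (u + ε j • δ) (chV u b l (u + ε j • δ))) := fun j =>
    S.body_isBody (hv0 j) (hf.parV (hvu j))
  have hB := S.body_isBody hf.u0 hf.par
  obtain ⟨Ct, hCt, hch⟩ := S.chart_lip hu hδu hf.par
  have hεr : Tendsto ε atTop (𝓝[>] (0 : ℝ)) :=
    tendsto_nhdsWithin_iff.mpr ⟨hε0, Eventually.of_forall fun j => hε j⟩
  have hgb := hεr.eventually hch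
  set Cm : ℝ := max Ct (8 * S.R / S.r ^ 2) with hCm
  have hgb' : ∀ᶠ j in atTop, ∀ z,
      |gauge (S.body (u + ε j • δ) (chV u b l (u + ε j • δ))) z -
        gauge (S.body u (chT b l)) z| ≤ Cm * ε j * gauge (S.body u (chT b l)) z := by
    filter_upwards [hgb] with j hj z
    refine (hj z).trans ?_
    have h1 : 0 ≤ gauge (S.body u (chT b l)) z := gauge_nonneg _
    have h2 := (hε j).le
    have h3 : Ct ≤ Cm := le_max_left _ _
    gcongr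
  have hag := S.ae_gauge hf hκb hAnb hδu hε hε0 hD hA hκ hpos
  have hap := S.ae_polar hf hκb hAnb hδu hε hε0 hD hA hκ hpos
  have hTk : chT b l (k, 0) = κ := by
    rw [chT_apply, hκb]
    simp
  have hprδ : ∀ x, pr (⟪δ, b⟫, ⟪δ, l⟫) x = Qf (S.body u (chT b l)) (k, 0) x := by
    intro x
    rw [← n_T, hδ _ (hf.u_T x), ← S.Q_eq hu0 hf.par, hTk]
  have h10 : ((1 : ℝ), (0 : ℝ)) ∈ S.body u (chT b l) := by
    show S.C u + chT b l (1, 0) ∈ S.K1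
    have : chT b l (1, 0) = b := by
      rw [chT_apply]
      simp
    rw [this]
    exact hbS.2
  have hz1 : ∀ z ∈ S.body u (chT b l), |z.1| ≤ 1 := by
    intro z hz
    have := hnbw (chT b l z) ⟨hf.u_T z, hz⟩
    rwa [hf.nb_T] at this
  have hMV : MV (S.body u (chT b l)) ≤ P1 := by
    rw [← S.P_eq hu0 hf.par]
    exact hPu
  have hcle : 8 * S.R / S.r ^ 2 ≤ Cm := le_max_right _ _
  have hag' := hag.mono (fun a ⟨n, w, te, s, h1, h2, h3, h4, h5, h6⟩ =>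
    (⟨n, w, te, s, h1, h2, h3, h4, h5.trans hcle, h6⟩ : ∃ (n w : ℝ × ℝ) (te s : ℝ),
      w = (gauge (S.body u (chT b l)) (a, 1))⁻¹ • ((a, 1) : ℝ × ℝ) ∧
      n ∈ plr (S.body u (chT b l)) ∧ pr n w = 1 ∧ te ≤ 0 ∧ |te| ≤ Cm ∧
      pr n (⟪A0 nb, nb⟫, ⟪A0 c, nb⟫) = -te * w.1 + s * k ∧
      ⟪A0 c, c⟫ * n.2 = -te * w.2 ∧
      Tendsto (fun j => (gauge (S.body (u + ε j • δ) (chV u b l (u + ε j • δ))) (a, 1) -
        gauge (S.body u (chT b l)) (a, 1)) / ε j) atTop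
          (𝓝 (gauge (S.body u (chT b l)) (a, 1) *
            (s * pr (⟪δ, b⟫, ⟪δ, l⟫) w - te * pr (⟪δ, b⟫, ⟪δ, l⟫) (k, 0))))))
  have hap' := hap.mono (fun a ⟨n, w, te, s, h1, h2, h3, h4, h5, h6⟩ =>
    (⟨n, w, te, s, h1, h2, h3, h4, h5.trans hcle, h6⟩ : ∃ (n w : ℝ × ℝ) (te s : ℝ),
      n = (gauge (plr (S.body u (chT b l))) (a, 1))⁻¹ • ((a, 1) : ℝ × ℝ) ∧
      w ∈ S.body u (chT b l) ∧ pr n w = 1 ∧ te ≤ 0 ∧ |te| ≤ Cm ∧
      pr n (⟪A0 nb, nb⟫, ⟪A0 c, nb⟫) = -te * w.1 + s * k ∧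
      ⟪A0 c, c⟫ * n.2 = -te * w.2 ∧
      Tendsto (fun j => (gauge (plr (S.body (u + ε j • δ) (chV u b l (u + ε j • δ)))) (a, 1) -
        gauge (plr (S.body u (chT b l))) (a, 1)) / ε j) atTop
          (𝓝 (gauge (plr (S.body u (chT b l))) (a, 1) *
            (-s * pr (⟪δ, b⟫, ⟪δ, l⟫) w + te * pr (⟪δ, b⟫, ⟪δ, l⟫) (k, 0))))))
  have hmain := hPVT (S.body u (chT b l)) k ⟪A0 c, c⟫ Cm (⟪A0 nb, nb⟫, ⟪A0 c, nb⟫)
    (⟪δ, b⟫, ⟪δ, l⟫) (fun j => S.body (u + ε j • δ) (chV u b l (u + ε j • δ))) ε hB hMV hk0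
    (hk1.trans hkm) h10 hz1 hρ hprδ hBj hε hε0 hgb' hag' hap' (η / 2) (by positivity)
  -- the constants
  have hα : (⟪δ, b⟫ * pr (⟪δ, b⟫, ⟪δ, l⟫) (⟪A0 nb, nb⟫, ⟪A0 c, nb⟫) +
      ⟪A0 c, c⟫ * ⟪δ, l⟫ ^ 2) = ⟪A0 δ, δ⟫ := by
    have hd := hf.coexp δ hδu
    have h1 : ⟪A0 δ, nb⟫ = pr (⟪δ, b⟫, ⟪δ, l⟫) (⟪A0 nb, nb⟫, ⟪A0 c, nb⟫) := by
      conv_lhs => rw [hd]
      rw [map_add, map_smul, map_smul, inner_add_left, inner_smul_left, inner_smul_left, pr]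
      simp
    have h2 : ⟪A0 δ, c⟫ = ⟪δ, l⟫ * ⟪A0 c, c⟫ := by
      conv_lhs => rw [hd]
      rw [map_add, map_smul, map_smul, inner_add_left, inner_smul_left, inner_smul_left, hAnb]
      simp
    have h3 : ⟪A0 δ, δ⟫ = ⟪δ, b⟫ * ⟪A0 δ, nb⟫ + ⟪δ, l⟫ * ⟪A0 δ, c⟫ := by
      have := congrArg (fun z => ⟪A0 δ, z⟫) hd
      simp only [inner_add_right, inner_smul_right] at this
      exact this
    rw [h3, h1, h2]
    ring
  have hq : pr (⟪δ, b⟫, ⟪δ, l⟫) (k, 0) = ⟪δ, κ⟫ := by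
    rw [← n_T, hTk]
  set q : ℝ := ⟪δ, κ⟫ with hqdef
  have hq0 : 0 < q := by rw [hqdef, real_inner_comm]; exact hpos
  have hqQ : Qf (S.body u (chT b l)) (k, 0) (k, 0) = q := by rw [← hprδ, hq]
  simp only at hmain
  rw [hα, hq] at hmain
  -- the bound of rows
  let τ : ℝ → ℝ := fun α => Classical.epsilon (fun c : ℝ => Tendsto (fun j =>
      (gauge (plr (S.body (u + ε j • δ) (chV u b l (u + ε j • δ)))) (α, 1) -
        gauge (plr (S.body u (chT b l))) (α, 1)) / ε j) atTop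
          (𝓝 (gauge (plr (S.body u (chT b l))) (α, 1) * c)))
  have hτ : ∀ᵐ α : ℝ, Tendsto (fun j =>
      (gauge (plr (S.body (u + ε j • δ) (chV u b l (u + ε j • δ)))) (α, 1) -
        gauge (plr (S.body u (chT b l))) (α, 1)) / ε j) atTop
          (𝓝 (gauge (plr (S.body u (chT b l))) (α, 1) * τ α)) := by
    filter_upwards [hap] with α hα
    obtain ⟨n, w, te, s, -, -, -, -, -, -, -, h⟩ := hα
    have hex : ∃ c : ℝ, Tendsto (fun j =>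
      (gauge (plr (S.body (u + ε j • δ) (chV u b l (u + ε j • δ)))) (α, 1) -
        gauge (plr (S.body u (chT b l))) (α, 1)) / ε j) atTop
          (𝓝 (gauge (plr (S.body u (chT b l))) (α, 1) * c)) := ⟨_, h⟩
    exact Classical.epsilon_spec hex
  obtain ⟨Cr, hCr, hrow⟩ := Qf_row_bound hB hBj hε hε0 hgb' hτ k
  -- coordinates of the contact points
  have hκv : ∀ j, ⟪u + ε j • δ, κj j⟫ = 0 := fun j => S.F_orth (hv0 j) (hD j).1
  set z : ℕ → ℝ × ℝ := fun j => (⟪nb, κj j⟫, ⟪c, κj j⟫) with hz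
  have hTz : ∀ j, chV u b l (u + ε j • δ) (z j) = κj j := fun j => hf.coord (hvu j) (hκv j)
  set d : ℕ → ℝ × ℝ := fun j => z j - (k, 0) with hd
  have hnbκ : ⟪nb, κ⟫ = k := by rw [hκb, inner_smul_right, hf.nbb, mul_one]
  have hcκ : ⟪c, κ⟫ = 0 := by rw [hκb, inner_smul_right, hf.cb, mul_zero]
  have hd1 : Tendsto (fun j => |(d j).1| + |(d j).2|) atTop (𝓝 0) := by
    have h1 : Tendsto (fun j => ⟪nb, κj j⟫) atTop (𝓝 ⟪nb, κ⟫) :=
      (tendsto_const_nhds).inner hκ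
    have h2 : Tendsto (fun j => ⟪c, κj j⟫) atTop (𝓝 ⟪c, κ⟫) :=
      (tendsto_const_nhds).inner hκ
    rw [hnbκ] at h1
    rw [hcκ] at h2
    have h3 : Tendsto (fun j => |(⟪nb, κj j⟫ - k)| + |⟪c, κj j⟫ - 0|) atTop
        (𝓝 (|k - k| + |0 - 0|)) :=
      ((h1.sub_const k).abs).add ((h2.sub_const 0).abs)
    rw [sub_self, sub_self, abs_zero, add_zero] at h3
    exact h3
  -- the contact inequality
  have hcon : ∀ j, -⟪δ, S.C (u + ε j • δ) - S.C u⟫ ≤ ⟪δ, κj j⟫ - ⟪δ, κ⟫ := by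
    intro j
    have h1 := S.h_le (u + ε j • δ) _ hκF.1
    have h2 := (hD j).1.2
    have h3 := S.h_le u _ (hD j).1.1
    have h4 := hκF.2
    have h5 : 0 ≤ ε j * ⟪δ, (S.C (u + ε j • δ) + κj j) - (S.C u + κ)⟫ := by
      have e : ε j * ⟪δ, (S.C (u + ε j • δ) + κj j) - (S.C u + κ)⟫ =
          (⟪u + ε j • δ, S.C (u + ε j • δ) + κj j⟫ - ⟪u + ε j • δ, S.C u + κ⟫) +
          (⟪u, S.C u + κ⟫ - ⟪u, S.C (u + ε j • δ) + κj j⟫) := by
        simp only [inner_add_left, inner_smul_left, inner_sub_right, inner_add_right,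
          conj_trivial]
        ring
      rw [e]
      linarith
    have h6 := nonneg_of_mul_nonneg_right h5 (hε j)
    rw [inner_sub_right, inner_add_right, inner_add_right] at h6
    rw [inner_sub_right]
    linarith
  have hvarC := S.var_C (x := δ) hu hδu hε hε0 (fun j => S.dat_univ (hD j)) hA hκ hpos
  set al : ℕ → ℝ := fun j => ⟪δ, S.C (u + ε j • δ) - S.C u⟫ / ε j +
    Cr * (|(d j).1| + |(d j).2|) with hal
  have hal0 : Tendsto al atTop (𝓝 ⟪A0 δ, δ⟫) := by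
    have := hvarC.add (hd1.const_mul Cr)
    rwa [mul_zero, add_zero] at this
  have hr : ∀ᶠ j in atTop, -(ε j * al j) ≤
      Qf (S.body (u + ε j • δ) (chV u b l (u + ε j • δ))) (k, 0) (d j) := by
    filter_upwards [hrow] with j hj
    have h1 := (abs_le.mp (hj (d j))).1
    have h2 : Qf (S.body u (chT b l)) (k, 0) (d j) = ⟪δ, κj j⟫ - ⟪δ, κ⟫ := by
      rw [← hprδ]
      have e1 : ⟪δ, κj j⟫ = pr (⟪δ, b⟫, ⟪δ, l⟫) (z j) := by
        rw [← n_V (v := u + ε j • δ) hδu, hTz]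
      have e2 : ⟪δ, κ⟫ = pr (⟪δ, b⟫, ⟪δ, l⟫) (k, 0) := hq.symm
      rw [e1, e2, hd]
      unfold pr
      simp only [Prod.fst_sub, Prod.snd_sub]
      ring
    have h3 := hcon j
    have h4 : ε j * al j = ⟪δ, S.C (u + ε j • δ) - S.C u⟫ + Cr * ε j * (|(d j).1| + |(d j).2|) := by
      rw [hal]
      have := (hε j).ne'
      field_simp
    rw [h4]
    linarith
  have hqj : Tendsto (fun j => Qf (S.body (u + ε j • δ) (chV u b l (u + ε j • δ))) (k, 0) (k, 0))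
      atTop (𝓝 q) := by
    rw [tendsto_iff_norm_sub_tendsto_zero]
    have h1 : Tendsto (fun j => Cr * ε j * (|k| + |(0 : ℝ)|)) atTop (𝓝 0) := by
      have := (hε0.const_mul Cr).mul_const (|k| + |(0 : ℝ)|)
      rwa [mul_zero, zero_mul] at this
    refine squeeze_zero' (Eventually.of_forall fun j => norm_nonneg _) ?_ h1
    filter_upwards [hrow] with j hj
    have := hj (k, 0)
    rw [hqQ] at this
    exact this
  set qj : ℕ → ℝ := fun j =>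
    Qf (S.body (u + ε j • δ) (chV u b l (u + ε j • δ))) (k, 0) (k, 0) with hqjdef
  have hden : Tendsto (fun j => qj j - 2 * (ε j * al j)) atTop (𝓝 q) := by
    have := hqj.sub ((hε0.mul hal0).const_mul 2)
    rwa [zero_mul, mul_zero, sub_zero] at this
  have hbe : Tendsto (fun j => al j / (qj j - 2 * (ε j * al j))) atTop (𝓝 (⟪A0 δ, δ⟫ / q)) :=
    hal0.div hden hq0.ne'
  have hden0 : ∀ᶠ j in atTop, 0 < qj j - 2 * (ε j * al j) := hden.eventually (lt_mem_nhds hq0)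
  have hqj0 : ∀ j, 0 < qj j := fun j => (hBj j).Qf_pos (by
    intro h
    exact hk0.ne' (congrArg Prod.fst h))
  have hbe' : ∀ᶠ j in atTop, al j / (qj j - 2 * (ε j * al j)) < ⟪A0 δ, δ⟫ / q + η / 2 :=
    hbe.eventually (gt_mem_nhds (by linarith))
  filter_upwards [hmain, hr, hden0, hbe'] with j h1 h2 h3 h4
  have hPj : S.P (u + ε j • δ) = MV (S.body (u + ε j • δ) (chV u b l (u + ε j • δ))) :=
    S.P_eq (hv0 j) (hf.parV (hvu j))
  have hPu' : S.P u = MV (S.body u (chT b l)) := S.P_eq hu0 hf.par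
  have hQj : S.Q (u + ε j • δ) (κj j) (κj j) =
      Qf (S.body (u + ε j • δ) (chV u b l (u + ε j • δ))) (z j) (z j) := by
    have := S.Q_eq (hv0 j) (hf.parV (hvu j)) (z j) (z j)
    rwa [hTz] at this
  have hQu : S.Q u κ κ = q := by rw [← hδ κ huκ]
  rw [hPj, hPu', hQj, hQu]
  rw [hqQ] at h1
  have hzd : z j = (k, 0) + d j := by rw [hd]; simp
  have hexp := Qf_expand (hBj j) (k, 0) (d j)
  rw [← hzd] at hexp
  have hdd : 0 ≤ Qf (S.body (u + ε j • δ) (chV u b l (u + ε j • δ))) (d j) (d j) := by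
    by_cases h0 : d j = 0
    · rw [h0]
      have := (hBj j).Qf_smul_left 0 0 0
      rw [zero_smul, zero_mul] at this
      exact this.ge
    · exact ((hBj j).Qf_pos h0).le
  have hge : qj j - 2 * (ε j * al j) ≤
      Qf (S.body (u + ε j • δ) (chV u b l (u + ε j • δ))) (z j) (z j) := by
    rw [hexp]
    have : qj j = Qf (S.body (u + ε j • δ) (chV u b l (u + ε j • δ))) (k, 0) (k, 0) := rfl
    linarith
  have hlog1 := Real.log_le_log h3 hge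
  have hlog2 : -(2 * (ε j * al j)) / (qj j - 2 * (ε j * al j)) ≤
      Real.log (qj j - 2 * (ε j * al j)) - Real.log (qj j) := by
    rw [← Real.log_div h3.ne' (hqj0 j).ne']
    have := Real.one_sub_inv_le_log_of_pos (div_pos h3 (hqj0 j))
    refine le_trans (le_of_eq ?_) this
    rw [inv_div, eq_sub_iff_add_eq, ← add_div, div_eq_one_iff_eq h3.ne']
    ring
  have h5 : -(2 * (ε j * al j)) / (qj j - 2 * (ε j * al j)) =
      -2 * (ε j * (al j / (qj j - 2 * (ε j * al j)))) := by ring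
  rw [h5] at hlog2
  have h6 : ε j * (al j / (qj j - 2 * (ε j * al j))) ≤ ε j * (⟪A0 δ, δ⟫ / q + η / 2) :=
    mul_le_mul_of_nonneg_left h4.le (hε j).le
  have h7 : ε j * ⟪A0 δ, δ⟫ / q = ε j * (⟪A0 δ, δ⟫ / q) := by ring
  rw [h7] at h1
  have h8 : Real.log (Qf (S.body (u + ε j • δ) (chV u b l (u + ε j • δ))) (k, 0) (k, 0)) =
    Real.log (qj j) := rfl
  rw [h8] at h1
  linarith

/-! ### T9: first variation -/
theorem first_var (P1 : ℝ) (hP1 : P1 < Real.pi ^ 2) : ∃ N0 : ℝ, ∀ N, N0 ≤ N →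
    ∀ (u κ δ : E) (ε : ℕ → ℝ) (A : ℕ → E →L[ℝ] E) (κj : ℕ → E),
      ‖u‖ = 1 → S.P u ≤ P1 → S.C u + κ ∈ S.F u → κ ≠ 0 → ⟪u, δ⟫ = 0 →
      (∀ x, ⟪u, x⟫ = 0 → ⟪δ, x⟫ = S.Q u κ x) →
      (∀ j, 0 < ε j) → Tendsto ε atTop (𝓝 0) →
      (∀ j, S.Dat (Iic 0) (u + ε j • δ) (A j) (κj j)) → Tendsto κj atTop (𝓝 κ) →
      ∀ η > 0, ∀ᶠ j in atTop, -η * ε j ≤
        N * (Real.log (S.P u) - Real.log (S.P (u + ε j • δ))) +
          1 / 2 * (Real.log (S.Q (u + ε j • δ) (κj j) (κj j)) - Real.log (S.Q u κ κ)) := by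
  have hr := S.r_pos
  have hR := S.R_pos9
  have hkm : 1 / (1 + S.r / (2 * S.R)) < 1 := by
    have : 0 < S.r / (2 * S.R) := by positivity
    rw [div_lt_one (by linarith)]
    linarith
  obtain ⟨N0, hN0⟩ := PVT (1 / (1 + S.r / (2 * S.R))) P1 hkm hP1
  refine ⟨N0, fun N hN u κ δ ε A κj hu hPu hκF hκ0 hδu hδ hε hε0 hD hκ η hη => ?_⟩
  have hu0 : u ≠ 0 := by
    rintro rfl
    simp at hu
  by_contra hnot
  rw [not_eventually] at hnot
  obtain ⟨φ, hφ, hφn⟩ := extraction_of_frequently_atTop hnot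
  have hv : Tendsto (fun j => u + ε (φ j) • δ) atTop (𝓝 u) := by
    have h1 : Tendsto (fun j => u + ε j • δ) atTop (𝓝 (u + (0 : ℝ) • δ)) :=
      tendsto_const_nhds.add (hε0.smul_const δ)
    rw [zero_smul, add_zero] at h1
    exact h1.comp hφ.tendsto_atTop
  obtain ⟨ψ, A0, κ0, hψ, hA, hκ', hD0⟩ := S.dat_compact isClosed_Iic hu0
    (fun j => hD (φ j)) hv
  have hφψ : Tendsto (fun j => φ (ψ j)) atTop atTop := hφ.tendsto_atTop.comp hψ.tendsto_atTop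
  have hκκ : κ0 = κ := tendsto_nhds_unique hκ' (hκ.comp hφψ)
  rw [hκκ] at hD0
  have := S.first_var_core (N := N) (le_refl _) (hN0 N hN) hu hPu hκF hκ0 hδu hδ
    (ε := fun j => ε (φ (ψ j))) (fun j => hε _) (hε0.comp hφψ)
    (A := fun j => A (φ (ψ j))) (κj := fun j => κj (φ (ψ j))) (fun j => hD _) hA
    (hκ.comp hφψ) hD0 hη
  obtain ⟨j, hj⟩ := this.exists
  exact hφn (ψ j) hj

end Setting
end Pool.Agent.Helper18.BL
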