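import Mathlib
import Pool.Agent.Helper18.BL.T8
import Pool.Agent.Helper18.BL.T9
import Pool.Agent.Helper18.BL.T10

set_option autoImplicit false

open Set MeasureTheory Filter Topology Metric
open scoped RealInnerProductSpace

namespace Pool.Agent.Helper18.BL
namespace Setting
variable (S : Setting)

lemma dat_mono {P P' : Set ℝ} (hP : P ⊆ P') {v κ : E} {A : E →L[ℝ] E} (h : S.Dat P v A κ) :
    S.Dat P' v A κ := by
  refine ⟨h.1, fun n => ?_, fun w hw => ?_⟩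
  · obtain ⟨w, t, t', h1, h2, h3⟩ := h.2.1 n
    exact ⟨w, t, t', h1, h2, hP h3⟩
  · obtain ⟨n, t, t', h0, h1, h2, h3⟩ := h.2.2 w hw
    exact ⟨n, t, t', h0, h1, h2, hP h3⟩

lemma F_nonempty (v : E) : ∃ κ, S.C v + κ ∈ S.F v := by
  obtain ⟨x, hx, h⟩ := S.h_att v
  exact ⟨x - S.C v, by simpa using ⟨hx, h⟩⟩

lemma F_smul {c : ℝ} (hc : 0 < c) (v : E) : S.F (c • v) = S.F v := by
  ext x
  simp only [F, mem_ofPred_eq, inner_smul_left, S.h_smul hc.le, RCLike.conj_to_real]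
  constructor
  · rintro ⟨h1, h2⟩; exact ⟨h1, mul_left_cancel₀ hc.ne' h2⟩
  · rintro ⟨h1, h2⟩; exact ⟨h1, by rw [h2]⟩

lemma Cyl_smul {c : ℝ} (hc : 0 < c) {v q : E} (h : S.Cyl v q) : S.Cyl (c • v) (c⁻¹ • q) := by
  refine ⟨?_, fun x hx => ?_⟩
  · rw [inner_smul_left, inner_smul_right, h.1]
    simp [hc.ne']
  · have := h.2 x hx
    rw [inner_smul_left, S.h_smul hc.le, smul_smul]
    have h2 : ((starRingEnd ℝ) c * ⟪v, x⟫ - c * S.h v) * c⁻¹ = ⟪v, x⟫ - S.h v := by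
      simp only [RCLike.conj_to_real]; field_simp
    rw [h2]; exact this

/-- unit vectors having a datum of nonpositive type -/
def W1 : Set E := {u | ‖u‖ = 1 ∧ ∃ (A : E →L[ℝ] E) (κ : E), S.Dat (Iic 0) u A κ}

/-- unit vectors of cylindrical type -/
def Zu : Set E := {u | ‖u‖ = 1 ∧ ∃ q, S.Cyl u q}

/-- the set on which the contact face is a point -/
def Ws : Set E := S.Zu ∪ derivedSet S.W1

lemma Zu_sub : S.Zu ⊆ S.W1 := by
  rintro u ⟨hu, q, hq⟩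
  obtain ⟨κ, hκ⟩ := S.F_nonempty u
  have hu0 : u ≠ 0 := by rintro rfl; simp at hu
  exact ⟨hu, _, _, S.dat_of_cyl hu0 hq hκ⟩

lemma Ws_closed : IsClosed S.Ws := by
  have : S.Ws = closure S.Zu ∪ derivedSet S.W1 := by
    rw [Ws, closure_eq_self_union_derivedSet, union_assoc]
    congr 1
    exact (union_eq_self_of_subset_left (derivedSet_mono _ _ S.Zu_sub)).symm
  rw [this]
  exact isClosed_closure.union (isClosed_derivedSet _)

/-- scaling a datum of nonpositive type -/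
lemma dat_le_smul {v κ : E} {A : E →L[ℝ] E} {c : ℝ} (hc : 0 < c) (hv : v ≠ 0)
    (h : S.Dat (Iic 0) v A κ) : S.Dat (Iic 0) (c • v) ((1 / c) • A) κ :=
  S.dat_smul hc hv (fun _ ht => div_nonpos_of_nonpos_of_nonneg ht hc.le) h

lemma dat_univ_smul {v κ : E} {A : E →L[ℝ] E} {c : ℝ} (hc : 0 < c) (hv : v ≠ 0)
    (h : S.Dat univ v A κ) : S.Dat univ (c • v) ((1 / c) • A) κ :=
  S.dat_smul hc hv (fun _ _ => mem_univ _) h

lemma dat_ge_smul {v κ : E} {A : E →L[ℝ] E} {c : ℝ} (hc : 0 < c) (hv : v ≠ 0)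
    (h : S.Dat (Ici 0) v A κ) : S.Dat (Ici 0) (c • v) ((1 / c) • A) κ :=
  S.dat_smul hc hv (fun _ ht => div_nonneg ht hc.le) h

lemma exists_perp {v : E} (hv : v ≠ 0) : ∃ e : E, ‖e‖ = 1 ∧ ⟪v, e⟫ = 0 := by
  have hfin : Module.finrank ℝ (ℝ ∙ v)ᗮ = 2 := by
    have : Fact (Module.finrank ℝ E = 2 + 1) := ⟨by simp⟩
    exact Submodule.finrank_orthogonal_span_singleton hv
  have : Nontrivial (ℝ ∙ v)ᗮ := Module.nontrivial_of_finrank_pos (R := ℝ) (by omega)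
  obtain ⟨x, hx⟩ := exists_ne (0 : (ℝ ∙ v)ᗮ)
  have hx0 : (x : E) ≠ 0 := fun h => hx (Subtype.ext h)
  have hx1 : ⟪v, (x : E)⟫ = 0 := by
    have := x.2
    rwa [Submodule.mem_orthogonal_singleton_iff_inner_right] at this
  refine ⟨(‖(x : E)‖)⁻¹ • (x : E), ?_, ?_⟩
  · rw [norm_smul, norm_inv, norm_norm, inv_mul_cancel₀ (norm_ne_zero_iff.2 hx0)]
  · rw [inner_smul_right, hx1, mul_zero]

/-- data at non-parallel points converging to `v` -/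
lemma exists_data_seq {v : E} (hv : v ≠ 0) : ∃ (vj κ : ℕ → E) (A : ℕ → E →L[ℝ] E),
    Tendsto vj atTop (𝓝 v) ∧ (∀ j, vj j ≠ 0) ∧ (∀ j (c : ℝ), vj j ≠ c • v) ∧
      ∀ j, S.Dat univ (vj j) (A j) (κ j) := by
  obtain ⟨e, he, hve⟩ := exists_perp hv
  have key : ∀ j : ℕ, ∃ (v' : E) (A : E →L[ℝ] E) (κ : E),
      ‖v' - (v + (1 / ((j : ℝ) + 1)) • e)‖ < 1 / ((j : ℝ) + 1) / 2 ∧ v' ≠ 0 ∧
      S.Dat univ v' A κ := by
    intro j
    have hj : (0 : ℝ) < 1 / ((j : ℝ) + 1) := by positivity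
    refine S.dat_dense ?_ (by positivity)
    intro h0
    have : ⟪v, v + (1 / ((j : ℝ) + 1)) • e⟫ = 0 := by rw [h0, inner_zero_right]
    rw [inner_add_right, inner_smul_right, hve, mul_zero, add_zero, real_inner_self_eq_norm_sq] at this
    exact hv (norm_eq_zero.1 (by simpa using this))
  choose vj A κ h1 h2 h3 using key
  refine ⟨vj, κ, A, ?_, h2, ?_, h3⟩
  · have hlim : Tendsto (fun j : ℕ => 1 / ((j : ℝ) + 1)) atTop (𝓝 0) :=
      tendsto_one_div_add_atTop_nhds_zero_nat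
    rw [tendsto_iff_norm_sub_tendsto_zero]
    refine squeeze_zero (fun _ => norm_nonneg _) (g := fun j : ℕ => 2 * (1 / ((j : ℝ) + 1))) ?_ ?_
    · intro j
      have hj : (0 : ℝ) < 1 / ((j : ℝ) + 1) := by positivity
      have : vj j - v = (vj j - (v + (1 / ((j : ℝ) + 1)) • e)) + (1 / ((j : ℝ) + 1)) • e := by abel
      rw [this]
      refine (norm_add_le _ _).trans ?_
      rw [norm_smul, he, mul_one, Real.norm_of_nonneg hj.le]
      have := h1 j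
      linarith
    · simpa using hlim.const_mul 2
  · intro j c hc
    have hj : (0 : ℝ) < 1 / ((j : ℝ) + 1) := by positivity
    have h5 : ⟪e, vj j - (v + (1 / ((j : ℝ) + 1)) • e)⟫ = - (1 / ((j : ℝ) + 1)) := by
      rw [inner_sub_right, hc, inner_smul_right, inner_add_right, inner_smul_right,
        real_inner_comm, hve, real_inner_self_eq_norm_sq, he]
      ring
    have h6 := abs_real_inner_le_norm e (vj j - (v + (1 / ((j : ℝ) + 1)) • e))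
    rw [h5, he, one_mul, abs_neg, abs_of_pos hj] at h6
    have := h1 j
    linarith

/-- if nearby data can be upgraded to type `P`, there is a sequence and a limit of type `P` -/
lemma exists_seq_upgrade {P : Set ℝ} (hP : IsClosed P) {v : E} (hv : v ≠ 0)
    (h : ∀ᶠ v' in 𝓝 v, (∀ c : ℝ, v' ≠ c • v) → ∀ (A : E →L[ℝ] E) (κ : E), S.Dat univ v' A κ →
      ∃ A' κ', S.Dat P v' A' κ') :
    (∃ (vj κ : ℕ → E) (A : ℕ → E →L[ℝ] E),
      Tendsto vj atTop (𝓝 v) ∧ (∀ j, vj j ≠ 0) ∧ (∀ j (c : ℝ), vj j ≠ c • v) ∧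
        ∀ j, S.Dat P (vj j) (A j) (κ j)) ∧ ∃ A κ, S.Dat P v A κ := by
  obtain ⟨vj, κ, A, h1, h2, h3, h4⟩ := S.exists_data_seq hv
  obtain ⟨N, hN⟩ := (h1.eventually h).exists_forall_of_atTop
  have key : ∀ j, ∃ A' κ', S.Dat P (vj (j + N)) A' κ' := fun j =>
    hN (j + N) (Nat.le_add_left _ _) (h3 _) _ _ (h4 _)
  choose A' κ' h5 using key
  have h6 : Tendsto (fun j => vj (j + N)) atTop (𝓝 v) := h1.comp (tendsto_add_atTop_nat N)
  refine ⟨⟨fun j => vj (j + N), κ', A', h6, fun j => h2 _, fun j => h3 _, h5⟩, ?_⟩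
  obtain ⟨φ, A0, κ0, -, -, -, h7⟩ := S.dat_compact hP hv h5 h6
  exact ⟨A0, κ0, h7⟩

/-- points in the chart at a unit vector -/
lemma chart_pt {u v : E} (hu : ‖u‖ = 1) (hv : 0 < ⟪u, v⟫) :
    ⟪u, (⟪u, v⟫)⁻¹ • v - u⟫ = 0 ∧ (⟪u, v⟫)⁻¹ • v = u + ((⟪u, v⟫)⁻¹ • v - u) := by
  refine ⟨?_, by abel⟩
  rw [inner_sub_right, inner_smul_right, real_inner_self_eq_norm_sq, hu, inv_mul_cancel₀ hv.ne']
  norm_num

lemma seq_of_derived {u : E} (hu : ‖u‖ = 1) (h : u ∈ derivedSet S.W1) :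
    ∃ (δ1 κ1 : ℕ → E) (ε1 : ℕ → ℝ) (A1 : ℕ → E →L[ℝ] E),
      (∀ j, 0 < ε1 j ∧ ⟪u, δ1 j⟫ = 0 ∧ ‖δ1 j‖ = 1 ∧
        S.Dat univ (u + ε1 j • δ1 j) (A1 j) (κ1 j) ∧ ¬ RhoNeg (u + ε1 j • δ1 j) (A1 j) (κ1 j)) ∧
      Tendsto ε1 atTop (𝓝 0) := by
  rw [mem_derivedSet, accPt_iff_nhds] at h
  have key : ∀ j : ℕ, ∃ y, ‖y - u‖ < 1 / ((j : ℝ) + 2) ∧ y ≠ u ∧ y ∈ S.W1 := by
    intro j
    obtain ⟨y, hy, hyu⟩ := h (ball u (1 / ((j : ℝ) + 2))) (ball_mem_nhds _ (by positivity))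
    exact ⟨y, by simpa [dist_eq_norm] using hy.1, hyu, hy.2⟩
  choose y hy1 hy2 hy3 using key
  have hin : ∀ j, (1 : ℝ) / 2 < ⟪u, y j⟫ := by
    intro j
    have h1 : ⟪u, y j⟫ = 1 + ⟪u, y j - u⟫ := by
      rw [inner_sub_right, real_inner_self_eq_norm_sq, hu]; ring
    have h2 := abs_real_inner_le_norm u (y j - u)
    rw [hu, one_mul] at h2
    have h3 : 1 / ((j : ℝ) + 2) ≤ 1 / 2 := by
      apply one_div_le_one_div_of_le (by norm_num)
      have : (0 : ℝ) ≤ j := Nat.cast_nonneg j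
      linarith
    have h4 := hy1 j
    have h5 := neg_abs_le ⟪u, y j - u⟫
    linarith
  have hin0 : ∀ j, 0 < ⟪u, y j⟫ := fun j => by linarith [hin j]
  let d : ℕ → E := fun j => (⟪u, y j⟫)⁻¹ • y j - u
  have hd0 : ∀ j, d j ≠ 0 := by
    intro j h0
    have h1 : (⟪u, y j⟫)⁻¹ • y j = u := sub_eq_zero.1 h0
    have h2 : ‖(⟪u, y j⟫)⁻¹ • y j‖ = 1 := by rw [h1, hu]
    rw [norm_smul, (hy3 j).1, mul_one, Real.norm_of_nonneg (inv_nonneg.2 (hin0 j).le)] at h2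
    rw [h2, one_smul] at h1
    exact hy2 j h1
  have hdn : ∀ j, 0 < ‖d j‖ := fun j => norm_pos_iff.2 (hd0 j)
  have hrep : ∀ j, u + ‖d j‖ • ((‖d j‖)⁻¹ • d j) = (⟪u, y j⟫)⁻¹ • y j := by
    intro j
    rw [smul_smul, mul_inv_cancel₀ (hdn j).ne', one_smul]
    simp [d]
  have hy0 : ∀ j, y j ≠ 0 := by
    intro j h0
    have := (hy3 j).1
    rw [h0, norm_zero] at this
    exact zero_ne_one this
  have key2 : ∀ j, ∃ (A : E →L[ℝ] E) (κ : E), S.Dat (Iic 0) (u + ‖d j‖ • ((‖d j‖)⁻¹ • d j)) A κ := by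
    intro j
    obtain ⟨A, κ, hA⟩ := (hy3 j).2
    exact ⟨_, κ, by rw [hrep]; exact S.dat_le_smul (inv_pos.2 (hin0 j)) (hy0 j) hA⟩
  choose A κ hA using key2
  refine ⟨fun j => (‖d j‖)⁻¹ • d j, κ, fun j => ‖d j‖, A, fun j => ⟨hdn j, ?_, ?_, ?_, ?_⟩, ?_⟩
  · rw [inner_smul_right, (chart_pt hu (hin0 j)).1, mul_zero]
  · rw [norm_smul, norm_inv, norm_norm, inv_mul_cancel₀ (hdn j).ne']
  · exact S.dat_mono (subset_univ _) (hA j)
  · refine S.not_rhoNeg_of_dat_le ?_ (hA j)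
    rw [hrep]
    exact smul_ne_zero (inv_ne_zero (hin0 j).ne') (hy0 j)
  · have hlim : Tendsto y atTop (𝓝 u) := by
      rw [tendsto_iff_norm_sub_tendsto_zero]
      refine squeeze_zero (fun _ => norm_nonneg _) (fun j => (hy1 j).le) ?_
      have h1 : Tendsto (fun j : ℕ => (j : ℝ) + 2) atTop atTop :=
        tendsto_atTop_add_const_right _ _ tendsto_natCast_atTop_atTop
      simp only [one_div]
      exact h1.inv_tendsto_atTop
    have h1 : Tendsto (fun j => ⟪u, y j⟫) atTop (𝓝 1) := by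
      have := (continuous_const.inner continuous_id : Continuous fun x : E => ⟪u, x⟫).continuousAt.tendsto.comp hlim
      simpa [real_inner_self_eq_norm_sq, hu, Function.comp_def] using this
    have h2 : Tendsto d atTop (𝓝 0) := by
      have := ((h1.inv₀ one_ne_zero).smul hlim).sub_const u
      simpa [d] using this
    simpa using h2.norm

/-- the vector representing `Q u κ` -/
lemma exists_delta {u κ : E} (hu : ‖u‖ = 1) (hκ : ⟪u, κ⟫ = 0) :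
    ∃ δ : E, ⟪u, δ⟫ = 0 ∧ ∀ x, ⟪u, x⟫ = 0 → ⟪δ, x⟫ = S.Q u κ x := by
  have hu0 : u ≠ 0 := by rintro rfl; simp at hu
  obtain ⟨q1, q2, q3, -, -⟩ := S.Q_form hu0
  have hp : ∀ x : E, ⟪u, x - ⟪u, x⟫ • u⟫ = 0 := by
    intro x
    rw [inner_sub_right, inner_smul_right, real_inner_self_eq_norm_sq, hu]; ring
  let L : E →ₗ[ℝ] ℝ :=
    { toFun := fun x => S.Q u (x - ⟪u, x⟫ • u) κ
      map_add' := by
        intro x y
        rw [← q2 _ _ _ (hp x) (hp y) hκ]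
        congr 1
        rw [inner_add_right, add_smul]; abel
      map_smul' := by
        intro c x
        rw [RingHom.id_apply, smul_eq_mul, ← q3 c _ _ (hp x) hκ]
        congr 1
        rw [inner_smul_right, smul_sub, smul_smul] }
  let δ := (InnerProductSpace.toDual ℝ E).symm (LinearMap.toContinuousLinearMap L)
  have hδ : ∀ x, ⟪δ, x⟫ = S.Q u (x - ⟪u, x⟫ • u) κ := by
    intro x
    rw [InnerProductSpace.toDual_symm_apply]; rfl
  refine ⟨δ, ?_, ?_⟩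
  · rw [real_inner_comm, hδ, real_inner_self_eq_norm_sq, hu]
    have := q3 0 u κ
    have h0 : u - ((1 : ℝ) ^ 2) • u = (0 : ℝ) • (0 : E) := by simp
    rw [h0, q3 0 0 κ (inner_zero_right _) hκ, zero_mul]
  · intro x hx
    rw [hδ, hx, zero_smul, sub_zero, q1 _ _ hx hκ]

lemma ne_of_norm {u : E} (hu : ‖u‖ = 1) : u ≠ 0 := by
  rintro rfl; simp at hu

lemma P_lt {v : E} (hv : v ≠ 0) (hE : ¬ S.Ell v) : S.P v < Real.pi ^ 2 :=
  lt_of_le_of_ne (S.P_le hv) (fun h => hE ((S.P_eq_iff hv).1 h))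

lemma not_Ell_of_P_lt {v : E} (hv : v ≠ 0) (h : S.P v < Real.pi ^ 2) : ¬ S.Ell v :=
  fun hE => h.ne ((S.P_eq_iff hv).2 hE)

/-- the function which is maximised -/
noncomputable def gfun (N : ℝ) (u κ : E) : ℝ :=
  S.Q u κ κ * Real.exp (-(2 * N) * Real.log (S.P u) - 2 * S.cap u)

lemma exists_max {u0 κ0 : E} (hu0 : ‖u0‖ = 1) (hE0 : ¬ S.Ell u0)
    (hκF0 : S.C u0 + κ0 ∈ S.F u0) (hW0 : u0 ∈ S.Ws) (hκ0 : κ0 ≠ 0) :
    ∃ (P1 N : ℝ) (u κ : E), P1 < Real.pi ^ 2 ∧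
      (∀ (u κ δ : E) (ε : ℕ → ℝ) (A : ℕ → E →L[ℝ] E) (κj : ℕ → E),
        ‖u‖ = 1 → S.P u ≤ P1 → S.C u + κ ∈ S.F u → κ ≠ 0 → ⟪u, δ⟫ = 0 →
        (∀ x, ⟪u, x⟫ = 0 → ⟪δ, x⟫ = S.Q u κ x) →
        (∀ j, 0 < ε j) → Tendsto ε atTop (𝓝 0) →
        (∀ j, S.Dat (Iic 0) (u + ε j • δ) (A j) (κj j)) → Tendsto κj atTop (𝓝 κ) →
        ∀ η > 0, ∀ᶠ j in atTop, -η * ε j ≤
          N * (Real.log (S.P u) - Real.log (S.P (u + ε j • δ))) +
            1 / 2 * (Real.log (S.Q (u + ε j • δ) (κj j) (κj j)) - Real.log (S.Q u κ κ))) ∧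
      ‖u‖ = 1 ∧ u ∈ S.Ws ∧ S.P u < P1 ∧ S.C u + κ ∈ S.F u ∧ κ ≠ 0 ∧
      ∀ v κ', ‖v‖ = 1 → v ∈ S.Ws → S.P v ≤ P1 → S.C v + κ' ∈ S.F v →
        S.gfun N v κ' ≤ S.gfun N u κ := by
  have hne : ∀ {u : E}, ‖u‖ = 1 → u ≠ 0 := fun h => ne_of_norm h
  have hu00 := hne hu0
  -- the levels
  have hP0 : S.P u0 < Real.pi ^ 2 := S.P_lt hu00 hE0
  obtain ⟨P1, hP01, hP1⟩ := exists_between hP0
  obtain ⟨N0, hN0⟩ := S.first_var P1 hP1
  have hP0pos : 0 < S.P u0 := S.P_pos hu00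
  have hlog : 0 < Real.log P1 - Real.log (S.P u0) := sub_pos.2 (Real.log_lt_log hP0pos hP01)
  obtain ⟨q1, q2, q3, q4, q5⟩ := S.Q_form hu00
  have hκ0u : ⟪u0, κ0⟫ = 0 := S.F_orth hu00 hκF0
  have hQ0 : 0 < S.Q u0 κ0 κ0 := q4 _ hκ0u hκ0
  set V := (volume S.K1).toReal with hV
  let N : ℝ := max N0 (max 0 ((2 * V - Real.log (S.Q u0 κ0 κ0)) /
    (2 * (Real.log P1 - Real.log (S.P u0))) + 1))
  have hN1 : N0 ≤ N := le_max_left _ _
  have hN2 : 0 ≤ N := (le_max_left _ _).trans (le_max_right _ _)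
  have hN3 : 2 * V - Real.log (S.Q u0 κ0 κ0) < 2 * N * (Real.log P1 - Real.log (S.P u0)) := by
    have h1 : (2 * V - Real.log (S.Q u0 κ0 κ0)) / (2 * (Real.log P1 - Real.log (S.P u0))) < N :=
      lt_of_lt_of_le (lt_add_one _) ((le_max_right _ _).trans (le_max_right _ _))
    rw [div_lt_iff₀ (by positivity)] at h1
    linarith
  -- the compact set
  let X : Set (E × E) := {p | ‖p.1‖ = 1 ∧ p.1 ∈ S.Ws ∧ S.P p.1 ≤ P1 ∧ S.C p.1 + p.2 ∈ S.F p.1}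
  have hXb : X ⊆ closedBall (0 : E) 1 ×ˢ closedBall (0 : E) (2 * S.R) := by
    rintro ⟨u, κ⟩ ⟨h1, -, -, h4⟩
    refine ⟨by simpa using h1.le, ?_⟩
    simp only [mem_closedBall, dist_zero_right]
    have h5 : ‖S.C u + κ‖ ≤ S.R := S.K1_bdd _ (S.K_sub h4.1)
    have h6 : ‖S.C u‖ ≤ S.R := S.K1_bdd _ (S.C_mem (hne h1))
    calc ‖κ‖ = ‖(S.C u + κ) - S.C u‖ := by simp
      _ ≤ ‖S.C u + κ‖ + ‖S.C u‖ := norm_sub_le _ _
      _ ≤ 2 * S.R := by linarith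
  have hXc : IsClosed X := by
    apply IsSeqClosed.isClosed
    intro p q hp hpq
    have hp1 : Tendsto (fun j => (p j).1) atTop (𝓝 q.1) := (continuous_fst.tendsto _).comp hpq
    have hp2 : Tendsto (fun j => (p j).2) atTop (𝓝 q.2) := (continuous_snd.tendsto _).comp hpq
    have hq1 : ‖q.1‖ = 1 := by
      have := hp1.norm
      refine tendsto_nhds_unique this ?_
      simp only [(hp _).1]
      exact tendsto_const_nhds
    have hq0 := hne hq1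
    refine ⟨hq1, S.Ws_closed.mem_of_tendsto hp1 (Eventually.of_forall fun j => (hp j).2.1),
      le_of_tendsto ((S.P_cont hq0).tendsto.comp hp1) (Eventually.of_forall fun j => (hp j).2.2.1),
      ?_, ?_⟩
    · exact S.K_compact.isClosed.mem_of_tendsto (((S.C_cont hq0).tendsto.comp hp1).add hp2)
        (Eventually.of_forall fun j => (hp j).2.2.2.1)
    · have h1 : Tendsto (fun j => ⟪(p j).1, S.C (p j).1 + (p j).2⟫) atTop
          (𝓝 ⟪q.1, S.C q.1 + q.2⟫) :=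
        hp1.inner (((S.C_cont hq0).tendsto.comp hp1).add hp2)
      have h2 : Tendsto (fun j => S.h (p j).1) atTop (𝓝 (S.h q.1)) :=
        (S.h_cont.tendsto _).comp hp1
      refine tendsto_nhds_unique h1 (h2.congr fun j => ?_)
      exact (hp j).2.2.2.2.symm
  have hX : IsCompact X :=
    ((isCompact_closedBall _ _).prod (isCompact_closedBall _ _)).of_isClosed_subset hXc hXb
  have hX0 : (u0, κ0) ∈ X := ⟨hu0, hW0, hP01.le, hκF0⟩
  let g : E × E → ℝ := fun p =>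
    S.Q p.1 p.2 p.2 * Real.exp (-(2 * N) * Real.log (S.P p.1) - 2 * S.cap p.1)
  have hg : ContinuousOn g X := by
    rw [continuousOn_iff_continuous_domRestrict]
    apply SeqContinuous.continuous
    intro x y hxy
    have h1 : Tendsto (fun j => (x j).1.1) atTop (𝓝 y.1.1) :=
      ((continuous_fst.comp continuous_subtype_val).tendsto _).comp hxy
    have h2 : Tendsto (fun j => (x j).1.2) atTop (𝓝 y.1.2) :=
      ((continuous_snd.comp continuous_subtype_val).tendsto _).comp hxy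
    have hy0 := hne y.2.1
    have hor : ∀ z : X, ⟪z.1.1, z.1.2⟫ = 0 := fun z => S.F_orth (hne z.2.1) z.2.2.2.2
    refine (S.Q_tendsto hy0 h1 h2 h2 (fun j => hor _) (fun j => hor _)).mul ?_
    refine (Real.continuous_exp.tendsto _).comp ?_
    refine (((((S.P_cont hy0).tendsto.comp h1).log (S.P_pos hy0).ne').const_mul _)).sub
      (((S.cap_cont hy0).tendsto.comp h1).const_mul _)
  obtain ⟨⟨u, κ⟩, ⟨hu, huW, huP, hκF⟩, hmax⟩ := hX.exists_isMaxOn ⟨_, hX0⟩ hg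
  simp only at hu huW huP hκF
  have hmax' : ∀ p ∈ X, g p ≤ g (u, κ) := hmax
  have hu00' := hne hu
  have hκu : ⟪u, κ⟫ = 0 := S.F_orth hu00' hκF
  have hg0 : 0 < g (u, κ) := lt_of_lt_of_le (mul_pos hQ0 (Real.exp_pos _)) (hmax' _ hX0)
  have hQpos : 0 < S.Q u κ κ := pos_of_mul_pos_left hg0 (Real.exp_pos _).le
  have hκ : κ ≠ 0 := by
    rintro rfl
    have := (S.Q_form hu00').2.2.1 0 0 0 (inner_zero_right _) (inner_zero_right _)
    rw [zero_smul, zero_mul] at this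
    exact hQpos.ne' this
  refine ⟨P1, N, u, κ, hP1, hN0 N hN1, hu, huW, ?_, hκF, hκ, fun v κ' h1 h2 h3 h4 =>
    hmax' (v, κ') ⟨h1, h2, h3, h4⟩⟩
  refine lt_of_le_of_ne huP fun heq => ?_
  have h1 : g (u0, κ0) ≤ g (u, κ) := hmax' _ hX0
  have hκS : κ ∈ S.Sp u := ⟨hκu, S.K_sub hκF.1⟩
  have h2 : S.Q u κ κ ≤ 1 := (S.Q_form hu00').2.2.2.2 κ hκS
  have h3 : g (u, κ) ≤ Real.exp (-(2 * N) * Real.log P1) := by
    simp only [g, heq]
    calc S.Q u κ κ * Real.exp (-(2 * N) * Real.log P1 - 2 * S.cap u)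
        ≤ 1 * Real.exp (-(2 * N) * Real.log P1 - 2 * S.cap u) :=
          mul_le_mul_of_nonneg_right h2 (Real.exp_pos _).le
      _ ≤ _ := by
          rw [one_mul]
          exact Real.exp_le_exp.2 (by have := S.cap_nonneg u; linarith)
  have h4 : Real.exp (Real.log (S.Q u0 κ0 κ0) + (-(2 * N) * Real.log (S.P u0) - 2 * V)) ≤
      g (u0, κ0) := by
    simp only [g]
    rw [Real.exp_add, Real.exp_log hQ0]
    refine mul_le_mul_of_nonneg_left (Real.exp_le_exp.2 ?_) hQ0.le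
    have := S.cap_le u0
    linarith
  have h5 := Real.exp_le_exp.1 (h4.trans (h1.trans h3))
  linarith

/-- near a maximiser, data at `u + ε δ'` are of nonpositive type -/
lemma upgrade_near {u δ : E} {ρ0 P1 : ℝ} (hu : ‖u‖ = 1) (hP1 : P1 < Real.pi ^ 2)
    (hρ0 : 0 < ρ0)
    (hsec : ∀ (ε : ℝ) (δ' : E), 0 < ε → ε < ρ0 → ⟪u, δ'⟫ = 0 → ‖δ' - δ‖ < ρ0 →
      ∀ (A : E →L[ℝ] E) (κ' : E), S.Dat univ (u + ε • δ') A κ' →
        ¬ RhoNeg (u + ε • δ') A κ') (hδ : ⟪u, δ⟫ = 0) {ε : ℝ} (hε : 0 < ε) (hερ : ε < ρ0)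
    (hP : S.P (u + ε • δ) < P1) :
    ∀ᶠ v' in 𝓝 (u + ε • δ), (∀ c : ℝ, v' ≠ c • (u + ε • δ)) → ∀ (A : E →L[ℝ] E) (κ : E),
      S.Dat univ v' A κ → ∃ A' κ', S.Dat (Iic 0) v' A' κ' := by
  have huv : ⟪u, u + ε • δ⟫ = 1 := by
    rw [inner_add_right, inner_smul_right, hδ, real_inner_self_eq_norm_sq, hu]; norm_num
  have hv0 : u + ε • δ ≠ 0 := by
    intro h0; rw [h0, inner_zero_right] at huv; exact zero_ne_one huv
  have hcont : Tendsto (fun v' : E => ⟪u, v'⟫) (𝓝 (u + ε • δ)) (𝓝 1) := by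
    have h1 : Continuous fun x : E => ⟪u, x⟫ := continuous_const.inner continuous_id
    have := h1.tendsto (u + ε • δ)
    rwa [huv] at this
  have hδt : Tendsto (fun v' : E => ε⁻¹ • ((⟪u, v'⟫)⁻¹ • v' - u)) (𝓝 (u + ε • δ)) (𝓝 δ) := by
    have h1 : Tendsto (fun v' : E => ε⁻¹ • ((⟪u, v'⟫)⁻¹ • v' - u)) (𝓝 (u + ε • δ))
        (𝓝 (ε⁻¹ • ((1 : ℝ)⁻¹ • (u + ε • δ) - u))) :=
      (((hcont.inv₀ one_ne_zero).smul tendsto_id).sub_const u).const_smul _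
    have h2 : ε⁻¹ • ((1 : ℝ)⁻¹ • (u + ε • δ) - u) = δ := by
      rw [inv_one, one_smul, add_sub_cancel_left, smul_smul, inv_mul_cancel₀ hε.ne', one_smul]
    rwa [h2] at h1
  have e1 : ∀ᶠ v' in 𝓝 (u + ε • δ), 0 < ⟪u, v'⟫ := hcont.eventually (lt_mem_nhds one_pos)
  have e2 : ∀ᶠ v' in 𝓝 (u + ε • δ), ‖ε⁻¹ • ((⟪u, v'⟫)⁻¹ • v' - u) - δ‖ < ρ0 := by
    have := (tendsto_iff_norm_sub_tendsto_zero.1 hδt).eventually (gt_mem_nhds hρ0)
    exact this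
  have e3 : ∀ᶠ v' in 𝓝 (u + ε • δ), S.P v' < P1 :=
    (S.P_cont hv0).tendsto.eventually (gt_mem_nhds hP)
  filter_upwards [e1, e2, e3] with v' h1 h2 h3 _ A κ hA
  have hv' : v' ≠ 0 := by rintro rfl; simp at h1
  have hc : 0 < (⟪u, v'⟫)⁻¹ := inv_pos.2 h1
  have hrep : (⟪u, v'⟫)⁻¹ • v' = u + ε • (ε⁻¹ • ((⟪u, v'⟫)⁻¹ • v' - u)) := by
    rw [smul_smul, mul_inv_cancel₀ hε.ne', one_smul]; abel
  have hA1 := S.dat_univ_smul hc hv' hA
  have hv1 : (⟪u, v'⟫)⁻¹ • v' ≠ 0 := smul_ne_zero hc.ne' hv'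
  have hE1 : ¬ S.Ell ((⟪u, v'⟫)⁻¹ • v') := by
    refine S.not_Ell_of_P_lt hv1 ?_
    rw [S.P_smul hv' hc]
    exact h3.trans hP1
  have hnr : ¬ RhoNeg ((⟪u, v'⟫)⁻¹ • v') ((1 / (⟪u, v'⟫)⁻¹) • A) κ := by
    have h5 := hsec ε (ε⁻¹ • ((⟪u, v'⟫)⁻¹ • v' - u)) hε hερ
      (by rw [inner_smul_right, (chart_pt hu h1).1, mul_zero]) h2 ((1 / (⟪u, v'⟫)⁻¹) • A) κ
    rw [← hrep] at h5
    exact h5 hA1
  obtain ⟨A', hA'⟩ := S.dat_le_of_not_rhoNeg hv1 hE1 hA1 hnr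
  have h6 := S.dat_le_smul h1 hv1 hA'
  rw [smul_smul, mul_inv_cancel₀ h1.ne', one_smul] at h6
  exact ⟨_, _, h6⟩

/-- the maximum principle -/
theorem max_principle {u0 κ0 : E} (hu0 : ‖u0‖ = 1) (hE0 : ¬ S.Ell u0)
    (hκF0 : S.C u0 + κ0 ∈ S.F u0) (hW0 : u0 ∈ S.Ws) : κ0 = 0 := by
  by_contra hκ0
  obtain ⟨P1, N, u, κ, hP1, hN, hu, huW, huP, hκF, hκ, hmax⟩ :=
    S.exists_max hu0 hE0 hκF0 hW0 hκ0
  have hu0' : u ≠ 0 := ne_of_norm hu
  have hE : ¬ S.Ell u := S.not_Ell_of_P_lt hu0' (huP.trans hP1)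
  obtain ⟨r1, r2, r3, r4, r5⟩ := S.Q_form hu0'
  have horth : ∀ {κ' : E}, S.C u + κ' ∈ S.F u → ⟪u, κ'⟫ = 0 := fun h => S.F_orth hu0' h
  have hκu := horth hκF
  have hQpos : 0 < S.Q u κ κ := r4 κ hκu hκ
  have hexp : 0 < Real.exp (-(2 * N) * Real.log (S.P u) - 2 * S.cap u) := Real.exp_pos _
  have hmaxQ : ∀ κ', S.C u + κ' ∈ S.F u → S.Q u κ' κ' ≤ S.Q u κ κ := by
    intro κ' h
    have := hmax u κ' hu huW huP.le h
    exact le_of_mul_le_mul_right this hexp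
  obtain ⟨δ, hδu, hδ⟩ := S.exists_delta hu hκu
  have hδκ : ⟪κ, δ⟫ = S.Q u κ κ := by rw [real_inner_comm]; exact hδ κ hκu
  have hpos : 0 < ⟪κ, δ⟫ := by rw [hδκ]; exact hQpos
  -- sector claim
  have hW : (∃ q, S.Cyl u q) ∨ ∃ (δ1 κ1 : ℕ → E) (ε1 : ℕ → ℝ) (A1 : ℕ → E →L[ℝ] E),
      (∀ j, 0 < ε1 j ∧ ⟪u, δ1 j⟫ = 0 ∧ ‖δ1 j‖ = 1 ∧
        S.Dat univ (u + ε1 j • δ1 j) (A1 j) (κ1 j) ∧ ¬ RhoNeg (u + ε1 j • δ1 j) (A1 j) (κ1 j)) ∧
      Tendsto ε1 atTop (𝓝 0) := by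
    rcases huW with h | h
    · exact Or.inl h.2
    · exact Or.inr (S.seq_of_derived hu h)
  obtain ⟨ρ0, hρ0, hsec⟩ := S.sector hu hE hκF hκ hmaxQ hδu hδ hW
  -- choice of a sequence
  have hcontv : Continuous fun ε : ℝ => u + ε • δ := by fun_prop
  have hv0 : ∀ ε : ℝ, u + ε • δ ≠ 0 := by
    intro ε h0
    have huv : ⟪u, u + ε • δ⟫ = 1 := by
      rw [inner_add_right, inner_smul_right, hδu, real_inner_self_eq_norm_sq, hu]; norm_num
    rw [h0, inner_zero_right] at huv; exact zero_ne_one huv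
  have hP : ∀ᶠ ε in 𝓝 (0 : ℝ), S.P (u + ε • δ) < P1 := by
    have h1 : Tendsto (fun ε : ℝ => S.P (u + ε • δ)) (𝓝 0) (𝓝 (S.P u)) := by
      have h2 := hcontv.tendsto 0
      simp only [zero_smul, add_zero] at h2
      exact (S.P_cont hu0').tendsto.comp h2
    exact h1.eventually (gt_mem_nhds huP)
  obtain ⟨ρ1, hρ1, hPρ⟩ := Metric.eventually_nhds_iff.1 hP
  set ρ := min ρ0 ρ1 with hρ
  have hρpos : 0 < ρ := lt_min hρ0 hρ1
  let ε' : ℕ → ℝ := fun j => ρ / 2 * (1 / ((j : ℝ) + 1))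
  have hε'pos : ∀ j, 0 < ε' j := fun j => by positivity
  have hε'lt : ∀ j, ε' j < ρ := by
    intro j
    have h1 : 1 / ((j : ℝ) + 1) ≤ 1 := by
      rw [div_le_one (by positivity)]
      have : (0 : ℝ) ≤ j := Nat.cast_nonneg j
      linarith
    have h2 : ε' j ≤ ρ / 2 * 1 := mul_le_mul_of_nonneg_left h1 (by positivity)
    linarith
  have hε'0 : Tendsto ε' atTop (𝓝 0) := by
    have := (tendsto_one_div_add_atTop_nhds_zero_nat (𝕜 := ℝ)).const_mul (ρ / 2)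
    simpa [ε'] using this
  have hP' : ∀ j, S.P (u + ε' j • δ) < P1 := by
    intro j
    apply hPρ
    rw [dist_zero_right, Real.norm_of_nonneg (hε'pos j).le]
    exact (hε'lt j).trans_le (min_le_right _ _)
  have hup : ∀ j, (∃ (vj κ : ℕ → E) (A : ℕ → E →L[ℝ] E),
      Tendsto vj atTop (𝓝 (u + ε' j • δ)) ∧ (∀ i, vj i ≠ 0) ∧
        (∀ i (c : ℝ), vj i ≠ c • (u + ε' j • δ)) ∧
        ∀ i, S.Dat (Iic 0) (vj i) (A i) (κ i)) ∧ ∃ A κ, S.Dat (Iic 0) (u + ε' j • δ) A κ :=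
    fun j => S.exists_seq_upgrade isClosed_Iic (hv0 _)
      (S.upgrade_near hu hP1 hρ0 hsec hδu (hε'pos j)
        ((hε'lt j).trans_le (min_le_left _ _)) (hP' j))
  have hWs : ∀ j, (‖u + ε' j • δ‖)⁻¹ • (u + ε' j • δ) ∈ S.Ws := by
    intro j
    obtain ⟨vj, κ1, A1, h1, h2, h3, h4⟩ := (hup j).1
    right
    rw [mem_derivedSet, accPt_iff_frequently]
    have hn : 0 < ‖u + ε' j • δ‖ := norm_pos_iff.2 (hv0 _)
    have h5 : Tendsto (fun i => (‖vj i‖)⁻¹ • vj i) atTop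
        (𝓝 ((‖u + ε' j • δ‖)⁻¹ • (u + ε' j • δ))) := (h1.norm.inv₀ hn.ne').smul h1
    refine h5.frequently (Frequently.of_forall fun i => ⟨?_, ?_, ?_⟩)
    · intro h6
      refine h3 i (‖vj i‖ * (‖u + ε' j • δ‖)⁻¹) ?_
      have h7 : ‖vj i‖ • ((‖vj i‖)⁻¹ • vj i) = ‖vj i‖ • ((‖u + ε' j • δ‖)⁻¹ • (u + ε' j • δ)) := by
        rw [h6]
      rw [smul_smul, mul_inv_cancel₀ (norm_ne_zero_iff.2 (h2 i)), one_smul, smul_smul] at h7
      exact h7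
    · rw [norm_smul, norm_inv, norm_norm, inv_mul_cancel₀ (norm_ne_zero_iff.2 (h2 i))]
    · exact ⟨_, _, S.dat_le_smul (inv_pos.2 (norm_pos_iff.2 (h2 i))) (h2 i) (h4 i)⟩
  choose A' κ' hA' using fun j => (hup j).2
  have hvlim : Tendsto (fun j => u + ε' j • δ) atTop (𝓝 u) := by
    have := (hcontv.tendsto 0).comp hε'0
    simpa [Function.comp_def] using this
  obtain ⟨φ, A0, κ0', hφ, -, hκlim, -⟩ := S.dat_compact isClosed_Iic hu0' hA' hvlim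
  -- the limit contact point is `κ`
  set ε : ℕ → ℝ := fun j => ε' (φ j) with hεdef
  have hεpos : ∀ j, 0 < ε j := fun j => hε'pos _
  have hε0 : Tendsto ε atTop (𝓝 0) := hε'0.comp hφ.tendsto_atTop
  have hD : ∀ j, S.Dat (Iic 0) (u + ε j • δ) (A' (φ j)) (κ' (φ j)) := fun j => hA' _
  obtain ⟨hF1, hF2, -⟩ := S.blowup_h hu0' hεpos hε0 (tendsto_const_nhds (x := δ))
    (fun j => rfl) (fun j => hv0 _) (fun j => (hD j).1) hκlim
  have hκeq : κ0' = κ := by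
    have h1 := hF2 κ hκF
    have h0u := horth hF1
    have h2 : ⟪κ0', δ⟫ = S.Q u κ κ0' := by rw [real_inner_comm]; exact hδ κ0' h0u
    have h3 := hmaxQ κ0' hF1
    rw [h2, hδκ] at h1
    by_contra hne
    have hne' : κ0' + (-1 : ℝ) • κ ≠ 0 := by
      intro h; apply hne
      have : κ0' - κ = 0 := by simpa [sub_eq_add_neg] using h
      exact sub_eq_zero.1 this
    have hu1 : ⟪u, (-1 : ℝ) • κ⟫ = 0 := by rw [inner_smul_right, hκu, mul_zero]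
    have hu2 : ⟪u, κ0' + (-1 : ℝ) • κ⟫ = 0 := by rw [inner_add_right, h0u, hu1, add_zero]
    have h4 := r4 _ hu2 hne'
    have h5 : S.Q u (κ0' + (-1 : ℝ) • κ) (κ0' + (-1 : ℝ) • κ) =
        S.Q u κ0' κ0' - 2 * S.Q u κ κ0' + S.Q u κ κ := by
      rw [r2 _ _ _ h0u hu1 hu2, r3 _ _ _ hκu hu2, r1 κ0' _ h0u hu2, r1 κ _ hκu hu2,
        r2 _ _ _ h0u hu1 h0u, r2 _ _ _ h0u hu1 hκu, r3 _ _ _ hκu h0u, r3 _ _ _ hκu hκu,
        r1 κ0' κ h0u hκu]
      ring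
    rw [h5] at h4
    linarith
  rw [hκeq] at hκlim
  have hκlim' : Tendsto (fun j => κ' (φ j)) atTop (𝓝 κ) := hκlim
  -- cap
  obtain ⟨c, ε0, hc, hε0', hcap⟩ := S.cap_var hu hκF hδu hpos
  have e1 := hN u κ δ ε (fun j => A' (φ j)) (fun j => κ' (φ j)) hu huP.le hκF hκ hδu hδ hεpos hε0
    hD hκlim' (c / 2) (half_pos hc)
  have e2 : ∀ᶠ j in atTop, ε j < ε0 := hε0.eventually (gt_mem_nhds hε0')
  have hvlim2 : Tendsto (fun j => u + ε j • δ) atTop (𝓝 u) := hvlim.comp hφ.tendsto_atTop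
  have e3 : ∀ᶠ j in atTop, 0 < S.Q (u + ε j • δ) (κ' (φ j)) (κ' (φ j)) :=
    (S.Q_tendsto hu0' hvlim2 hκlim' hκlim' (fun j => S.F_orth (hv0 _) (hD j).1)
      (fun j => S.F_orth (hv0 _) (hD j).1)).eventually (lt_mem_nhds hQpos)
  obtain ⟨j, h1, h2, h3⟩ := (e1.and (e2.and e3)).exists
  have hvj := hv0 (ε j)
  have hn : 0 < ‖u + ε j • δ‖ := norm_pos_iff.2 hvj
  have hni : 0 < (‖u + ε j • δ‖)⁻¹ := inv_pos.2 hn
  have h4 : S.gfun N ((‖u + ε j • δ‖)⁻¹ • (u + ε j • δ)) (κ' (φ j)) ≤ S.gfun N u κ := by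
    apply hmax
    · rw [norm_smul, norm_inv, norm_norm, inv_mul_cancel₀ hn.ne']
    · exact hWs (φ j)
    · rw [S.P_smul hvj hni]; exact (hP' (φ j)).le
    · rw [S.C_smul hni hvj, S.F_smul hni]; exact (hD j).1
  have hoj := S.F_orth hvj (hD j).1
  rw [gfun, gfun, S.P_smul hvj hni, S.cap_smul hni, S.Q_smul hvj hni _ _ hoj hoj] at h4
  have h5 := Real.log_le_log (mul_pos h3 (Real.exp_pos _)) h4
  rw [Real.log_mul h3.ne' (Real.exp_pos _).ne', Real.log_mul hQpos.ne' (Real.exp_pos _).ne',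
    Real.log_exp, Real.log_exp] at h5
  have h6 := hcap (ε j) (hεpos j) h2
  have h7 : 0 < c * ε j := mul_pos hc (hεpos j)
  linarith

lemma Nn_of_dat {v κ : E} {A : E →L[ℝ] E} (h : S.Dat (Ici 0) v A κ) : S.Nn v := by
  intro n
  obtain ⟨w, t, t', h1, -, h3⟩ := h.2.1 n
  exact ⟨w, t, t', h1, h3⟩

lemma Nn_smul {v : E} {c : ℝ} (hc : 0 < c) (hv : v ≠ 0) (h : S.Nn v) : S.Nn (c • v) := by
  intro n
  obtain ⟨w, t, t', h1, h2⟩ := h n
  exact ⟨w, t / c, t' / c, S.pair_smul hv hc h1, by rw [← add_div]; exact div_nonneg h2 hc.le⟩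

/-- nonelliptic sections satisfy (N) -/
theorem Nn_of_not_Ell {v : E} (hv : v ≠ 0) (hE : ¬ S.Ell v) : S.Nn v := by
  have hn : 0 < ‖v‖ := norm_pos_iff.2 hv
  set u := (‖v‖)⁻¹ • v with hu_def
  have hu : ‖u‖ = 1 := by rw [hu_def, norm_smul, norm_inv, norm_norm, inv_mul_cancel₀ hn.ne']
  have hu0 : u ≠ 0 := ne_of_norm hu
  have hvu : v = ‖v‖ • u := by rw [hu_def, smul_smul, mul_inv_cancel₀ hn.ne', one_smul]
  have hPu : S.P u < Real.pi ^ 2 := by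
    rw [hu_def, S.P_smul hv (inv_pos.2 hn)]; exact S.P_lt hv hE
  have hEu : ¬ S.Ell u := S.not_Ell_of_P_lt hu0 hPu
  suffices h : S.Nn u by rw [hvu]; exact S.Nn_smul hn hu0 h
  by_cases hW : u ∈ S.Ws
  · obtain ⟨-, A, κ, hA⟩ := S.exists_seq_upgrade (P := univ) isClosed_univ hu0
      (Eventually.of_forall fun v' _ A κ h => ⟨A, κ, h⟩)
    have hκ : κ = 0 := S.max_principle hu hEu hA.1 hW
    rw [hκ] at hA
    exact S.Nn_of_dat (S.dat_mono (by simp) (S.dat_zero hu0 hEu hA))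
  · have hW' : ¬ AccPt u (𝓟 S.W1) := fun h => hW (Or.inr h)
    rw [accPt_iff_nhds] at hW'
    push Not at hW'
    obtain ⟨U, hU, hU'⟩ := hW'
    have e1 : ∀ᶠ v' in 𝓝 u, (‖v'‖)⁻¹ • v' ∈ U := by
      have h1 : Tendsto (fun v' : E => (‖v'‖)⁻¹ • v') (𝓝 u) (𝓝 ((‖u‖)⁻¹ • u)) :=
        (tendsto_id.norm.inv₀ (by rw [hu]; exact one_ne_zero)).smul tendsto_id
      rw [hu, inv_one, one_smul] at h1
      exact h1.eventually hU
    have e2 : ∀ᶠ v' in 𝓝 u, v' ≠ 0 := isOpen_ne.eventually_mem hu0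
    have e3 : ∀ᶠ v' in 𝓝 u, S.P v' < Real.pi ^ 2 :=
      (S.P_cont hu0).tendsto.eventually (gt_mem_nhds hPu)
    obtain ⟨-, A, κ, hA⟩ := S.exists_seq_upgrade (P := Ici 0) isClosed_Ici hu0 (by
      filter_upwards [e1, e2, e3] with v' h1 h2 h3 h4 A κ hA
      by_cases hr : RhoNeg v' A κ
      · exact ⟨A, κ, S.dat_ge_of_rhoNeg h2 hA hr⟩
      · exfalso
        obtain ⟨A', hA'⟩ := S.dat_le_of_not_rhoNeg h2 (S.not_Ell_of_P_lt h2 h3) hA hr
        have hn' : 0 < ‖v'‖ := norm_pos_iff.2 h2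
        have h5 : (‖v'‖)⁻¹ • v' = u := by
          apply hU'
          refine ⟨h1, ?_, _, _, S.dat_le_smul (inv_pos.2 hn') h2 hA'⟩
          rw [norm_smul, norm_inv, norm_norm, inv_mul_cancel₀ hn'.ne']
        apply h4 ‖v'‖
        rw [← h5, smul_smul, mul_inv_cancel₀ hn'.ne', one_smul])
    exact S.Nn_of_dat hA

theorem Nn_closed {v : ℕ → E} {v0 : E} (hv0 : v0 ≠ 0) (hv : Tendsto v atTop (𝓝 v0))
    (h : ∀ j, S.Nn (v j)) : S.Nn v0 := by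
  intro n
  choose w t t' hp ht using fun j => h j n
  -- eventually `v j` is not small
  have hn0 : 0 < ‖v0‖ := norm_pos_iff.2 hv0
  obtain ⟨M, hM⟩ := (hv.norm.eventually (lt_mem_nhds (half_lt_self hn0))).exists_forall_of_atTop
  have hv' : Tendsto (fun j => v (j + M)) atTop (𝓝 v0) := hv.comp (tendsto_add_atTop_nat M)
  have hM' : ∀ j, ‖v0‖ / 2 < ‖v (j + M)‖ := fun j => hM _ (Nat.le_add_left _ _)
  have hne : ∀ j, v (j + M) ≠ 0 := fun j => norm_pos_iff.1 ((half_pos hn0).trans (hM' j))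
  set B := (4 * S.R / S.r * ‖n‖ + ‖n‖) / (‖v0‖ / 2) with hB
  have hRr : 0 ≤ 4 * S.R / S.r := div_nonneg (by have := S.R_nonneg; linarith) S.r_pos.le
  have hbt : ∀ j, |t (j + M)| ≤ B := by
    intro j
    have h1 := (S.pair_bound (hne j) (hp (j + M))).1
    have h2 : |t (j + M)| * ‖v (j + M)‖ ≤ 4 * S.R / S.r * ‖n‖ + ‖n‖ := by
      have h3 : t (j + M) • v (j + M) = n - (n - t (j + M) • v (j + M)) := by abel
      rw [← Real.norm_eq_abs, ← norm_smul, h3]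
      refine (norm_sub_le _ _).trans ?_
      linarith
    rw [hB, le_div_iff₀ (half_pos hn0)]
    exact (mul_le_mul_of_nonneg_left (hM' j).le (abs_nonneg _)).trans h2
  have hbt' : ∀ j, |t' (j + M)| ≤ B := by
    intro j
    have h1 := (S.pair_bound (hne j) (hp (j + M))).2
    have h2 : |t' (j + M)| * ‖v (j + M)‖ ≤ 4 * S.R / S.r * ‖n‖ + ‖n‖ := by
      have h3 : t' (j + M) • v (j + M) = (n + t' (j + M) • v (j + M)) - n := by abel
      rw [← Real.norm_eq_abs, ← norm_smul, h3]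
      refine (norm_sub_le _ _).trans ?_
      linarith
    rw [hB, le_div_iff₀ (half_pos hn0)]
    exact (mul_le_mul_of_nonneg_left (hM' j).le (abs_nonneg _)).trans h2
  have hbw : ∀ j, ‖w (j + M)‖ ≤ 2 * S.R := fun j => S.Sp_norm (hne j) (hp (j + M)).1
  let K : Set (E × ℝ × ℝ) := closedBall 0 (2 * S.R) ×ˢ (Icc (-B) B ×ˢ Icc (-B) B)
  have hK : IsCompact K := (isCompact_closedBall _ _).prod (isCompact_Icc.prod isCompact_Icc)
  obtain ⟨⟨w0, t0, t0'⟩, -, φ, hφ, hlim⟩ := hK.tendsto_subseq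
    (x := fun j => (w (j + M), t (j + M), t' (j + M)))
    (fun j => ⟨by simpa using hbw j, abs_le.1 (hbt j), abs_le.1 (hbt' j)⟩)
  have l1 : Tendsto (fun j => w (φ j + M)) atTop (𝓝 w0) := (continuous_fst.tendsto _).comp hlim
  have l2 : Tendsto (fun j => t (φ j + M)) atTop (𝓝 t0) :=
    ((continuous_fst.comp continuous_snd).tendsto _).comp hlim
  have l3 : Tendsto (fun j => t' (φ j + M)) atTop (𝓝 t0') :=
    ((continuous_snd.comp continuous_snd).tendsto _).comp hlim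
  refine ⟨w0, t0, t0', S.pair_closed hv0 (fun j => hp (φ j + M)) (hv'.comp hφ.tendsto_atTop) l1
    tendsto_const_nhds l2 l3, ?_⟩
  exact ge_of_tendsto (l2.add l3) (Eventually.of_forall fun j => ht _)

end Setting
end Pool.Agent.Helper18.BL
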