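import Mathlib
import Pool.Agent.Helper18.BL.T1
import Pool.Agent.Helper14.BL.Bridge

set_option autoImplicit false

open Set MeasureTheory Filter Topology Metric
open scoped RealInnerProductSpace

namespace Pool.Agent.Helper18.BL
namespace Setting
variable (S : Setting)

theorem rep_ev_add (G : Quad) (c w : E) : G.ev (c + w) = G.B w w + G.grad c w + G.ev c := by
  unfold Quad.ev Quad.grad
  simp only [map_add, _root_.add_apply, inner_add_right]
  rw [G.symm w c]
  ring

theorem rep_grad_smul (G : Quad) (c w : E) (t : ℝ) : G.grad c (t • w) = t * G.grad c w := by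
  unfold Quad.grad
  rw [map_smul, inner_smul_right, smul_eq_mul]
  ring

theorem rep_B_smul (G : Quad) (w : E) (t : ℝ) : G.B (t • w) (t • w) = t ^ 2 * G.B w w := by
  simp only [map_smul, _root_.smul_apply, smul_eq_mul]
  ring

theorem rep_mem_iff {G : Quad} {v : E} (hv : v ≠ 0) (h : S.Rep G v) {w : E} (hw : ⟪v, w⟫ = 0) :
    w ∈ S.Sp v ↔ G.B w w + G.grad (S.C v) w + G.ev (S.C v) ≤ 0 := by
  rw [← rep_ev_add]
  have h1 : ⟪v, S.C v + w⟫ = S.h v := by rw [inner_add_right, hw, add_zero, S.C_h v hv]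
  rw [← h _ h1]
  unfold Setting.Sp
  simp only [mem_ofPred_eq]
  exact ⟨fun h2 => h2.2, fun h2 => ⟨hw, h2⟩⟩

/-- Proof. `q(w) = G(C+w)` on `v^⊥`. If `B w w ≤ 0`, `w ≠ 0`, then `q (s w) ≤ 0` for all `s` of one
sign, so the section is unbounded. Symmetry gives the vanishing of the linear part. -/
theorem rep_center {G : Quad} {v : E} (hv : v ≠ 0) (h : S.Rep G v) :
    (∀ x, ⟪v, x⟫ = 0 → G.grad (S.C v) x = 0) ∧ (∀ x, ⟪v, x⟫ = 0 → x ≠ 0 → 0 < G.B x x) ∧
      G.ev (S.C v) < 0 := by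
  have hC0 : G.ev (S.C v) ≤ 0 := (h _ (S.C_h v hv)).1 (S.C_mem hv)
  have hpos : ∀ x, ⟪v, x⟫ = 0 → x ≠ 0 → 0 < G.B x x := by
    intro x hx hx0
    by_contra hneg
    push Not at hneg
    obtain ⟨s, hs1, hs2⟩ : ∃ s : ℝ, |s| = 1 ∧ s * G.grad (S.C v) x ≤ 0 := by
      rcases le_or_gt (G.grad (S.C v) x) 0 with h0 | h0
      · exact ⟨1, by simp, by linarith⟩
      · exact ⟨-1, by simp, by linarith⟩
    have hxn : 0 < ‖x‖ := norm_pos_iff.2 hx0
    set t : ℝ := (2 * S.R + 1) / ‖x‖ with ht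
    have hR := S.R_nonneg
    have ht0 : 0 < t := by positivity
    have hmem : (t * s) • x ∈ S.Sp v := by
      rw [S.rep_mem_iff hv h (by rw [inner_smul_right, hx, mul_zero])]
      rw [rep_B_smul, rep_grad_smul]
      have e1 : (t * s) ^ 2 * G.B x x ≤ 0 := mul_nonpos_of_nonneg_of_nonpos (sq_nonneg _) hneg
      have e2 : t * s * G.grad (S.C v) x ≤ 0 := by
        rw [mul_assoc]
        exact mul_nonpos_of_nonneg_of_nonpos ht0.le hs2
      linarith
    have h3 := S.Sp_norm hv hmem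
    rw [norm_smul, Real.norm_eq_abs, abs_mul, hs1, mul_one, abs_of_pos ht0, ht,
      div_mul_cancel₀ _ hxn.ne'] at h3
    linarith
  -- a nonzero vector in the plane and a small multiple
  have hball : ∀ x, ⟪v, x⟫ = 0 → x ≠ 0 → ∃ ε : ℝ, 0 < ε ∧ ε • x ∈ S.Sp v ∧ (-ε) • x ∈ S.Sp v := by
    intro x hx hx0
    have hxn : 0 < ‖x‖ := norm_pos_iff.2 hx0
    have hr := S.r_pos
    refine ⟨S.r / 2 / ‖x‖, by positivity, ?_, ?_⟩
    · apply S.Sp_ball hv (by rw [inner_smul_right, hx, mul_zero])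
      rw [norm_smul, Real.norm_eq_abs, abs_of_pos (by positivity), div_mul_cancel₀ _ hxn.ne']
    · apply S.Sp_ball hv (by rw [inner_smul_right, hx, mul_zero])
      rw [norm_smul, Real.norm_eq_abs, abs_neg, abs_of_pos (by positivity),
        div_mul_cancel₀ _ hxn.ne']
  have hneg : G.ev (S.C v) < 0 := by
    obtain ⟨e, f, hef, he, hf, -⟩ := Pool.Agent.Helper14.BL.exists_perp_basis v hv
    have he0 := Pool.Agent.Helper14.BL.ne_zero_left hef
    obtain ⟨ε, hε, h1, h2⟩ := hball e he he0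
    rw [S.rep_mem_iff hv h (by rw [inner_smul_right, he, mul_zero]), rep_B_smul,
      rep_grad_smul] at h1 h2
    have h3 : 0 < ε ^ 2 * G.B e e := mul_pos (by positivity) (hpos e he he0)
    have h4 : (-ε) ^ 2 = ε ^ 2 := by ring
    rw [h4] at h2
    nlinarith
  refine ⟨?_, hpos, hneg⟩
  intro x hx
  rcases eq_or_ne x 0 with rfl | hx0
  · unfold Quad.grad
    simp
  obtain ⟨t1, t2, ht1, ht2, ht⟩ := Pool.Agent.Helper14.BL.quad_roots (β := G.grad (S.C v) x)
    (hpos x hx hx0) hneg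
  have hmem : ∀ t : ℝ, t • x ∈ S.Sp v ↔ (t - t1) * (t - t2) ≤ 0 := by
    intro t
    rw [S.rep_mem_iff hv h (by rw [inner_smul_right, hx, mul_zero]), rep_B_smul, rep_grad_smul]
    have e1 : t ^ 2 * G.B x x + t * G.grad (S.C v) x + G.ev (S.C v) =
        G.B x x * ((t - t1) * (t - t2)) := by
      rw [← ht]; ring
    rw [e1]
    constructor
    · intro h2
      by_contra h3
      push Not at h3
      have := mul_pos (hpos x hx hx0) h3
      linarith
    · intro h2
      exact mul_nonpos_of_nonneg_of_nonpos (hpos x hx hx0).le h2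
  have hs : ∀ t : ℝ, (t - t1) * (t - t2) ≤ 0 → (-t - t1) * (-t - t2) ≤ 0 := by
    intro t h1
    have h2 := S.Sp_neg hv ((hmem t).2 h1)
    rw [← neg_smul] at h2
    exact (hmem (-t)).1 h2
  have e1 := hs t1 (by simp)
  have e2 := hs t2 (by simp)
  have e3 : t1 + t2 = 0 := by
    have k1 : (-t1 - t1) * (-t1 - t2) = 2 * t1 * (t1 + t2) := by ring
    have k2 : (-t2 - t1) * (-t2 - t2) = 2 * t2 * (t1 + t2) := by ring
    rw [k1] at e1
    rw [k2] at e2
    rcases lt_trichotomy (t1 + t2) 0 with h1 | h1 | h1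
    · exfalso
      have : 0 < 2 * t1 * (t1 + t2) := by nlinarith
      linarith
    · exact h1
    · exfalso
      have : 0 < 2 * t2 * (t1 + t2) := by nlinarith
      linarith
  have h5 := ht 1
  have h6 := ht (-1)
  have h7 : t2 = -t1 := by linarith
  rw [h7] at h5 h6
  linarith

/-- An elliptic section gives a quadratic polynomial on its plane. -/
theorem rep_of_ell {v : E} (hv : v ≠ 0) (h : S.Ell v) : ∃ G : Quad, S.Rep G v := by
  obtain ⟨G, hG⟩ := S.ellAt_of_ell hv h
  exact ⟨G, S.rep_of_ellAt (fun x => rfl) hG⟩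

theorem Quad.continuous_ev (G : Quad) : Continuous G.ev := by
  unfold Quad.ev
  fun_prop

/-- projection of `x` to the plane `H_v` -/
noncomputable def toPlane (v x : E) : E := x - ((⟪v, x⟫ - S.h v) / ‖v‖ ^ 2) • v

theorem toPlane_mem {v : E} (hv : v ≠ 0) (x : E) : ⟪v, S.toPlane v x⟫ = S.h v := by
  unfold toPlane
  have hn : ‖v‖ ^ 2 ≠ 0 := by
    have := norm_pos_iff.2 hv
    positivity
  rw [inner_sub_right, inner_smul_right, real_inner_self_eq_norm_sq, div_mul_cancel₀ _ hn]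
  ring

theorem toPlane_tendsto {v : ℕ → E} {v0 : E} (hv0 : v0 ≠ 0) (hv : Tendsto v atTop (𝓝 v0)) {x : E}
    (hx : ⟪v0, x⟫ = S.h v0) : Tendsto (fun j => S.toPlane (v j) x) atTop (𝓝 x) := by
  have h1 : ContinuousAt (fun v => S.toPlane v x) v0 := by
    unfold toPlane
    have hn : ‖v0‖ ^ 2 ≠ 0 := by
      have := norm_pos_iff.2 hv0
      positivity
    have hc : ContinuousAt S.h v0 := S.h_cont.continuousAt
    have h1 : ContinuousAt (fun v : E => (⟪v, x⟫ - S.h v) / ‖v‖ ^ 2) v0 :=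
      ContinuousAt.div (((continuous_id.inner continuous_const).continuousAt).sub hc)
        (continuous_norm.pow 2).continuousAt hn
    exact continuousAt_const.sub (h1.smul continuousAt_id)
  have h2 : S.toPlane v0 x = x := by
    unfold toPlane
    rw [hx, sub_self, zero_div, zero_smul, sub_zero]
  have h3 := h1.tendsto.comp hv
  rw [h2] at h3
  exact h3

theorem C_int {v : E} (hv : v ≠ 0) : S.C v ∈ interior S.K1 :=
  interior_maximal (ball_subset_closedBall.trans (S.C_ball hv)) isOpen_ball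
    (mem_ball_self (by have := S.r_pos; positivity))

/-- Proof. `B` is positive definite on `v_j^⊥`, so it has no 2-dimensional isotropic subspace; in
the limit `B ≥ 0` on `v^⊥`, linear part `0`, `G (C v) ≤ 0`; points with `G < 0` in `H_v` are limits
of points of `S_{v_j}`, hence in `K1`; boundedness gives `B > 0` on `v^⊥`. -/
theorem rep_closed {G : Quad} {v : ℕ → E} {v0 : E} (hv0 : v0 ≠ 0) (h : ∀ j, S.Rep G (v j))
    (hv : Tendsto v atTop (𝓝 v0)) : S.Rep G v0 := by
  have hev : ∀ᶠ j in atTop, v j ≠ 0 := hv.eventually_ne hv0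
  have hGc := Quad.continuous_ev G
  -- interior points of the limit section
  have hint : ∀ x, ⟪v0, x⟫ = S.h v0 → x ∈ interior S.K1 → G.ev x ≤ 0 := by
    intro x hx hxi
    have h1 := S.toPlane_tendsto hv0 hv hx
    have h2 : ∀ᶠ j in atTop, S.toPlane (v j) x ∈ interior S.K1 :=
      h1.eventually_mem (isOpen_interior.mem_nhds hxi)
    have h3 : Tendsto (fun j => G.ev (S.toPlane (v j) x)) atTop (𝓝 (G.ev x)) :=
      (hGc.tendsto x).comp h1
    refine le_of_tendsto h3 ?_
    filter_upwards [h2, hev] with j hj1 hj2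
    exact (h j _ (S.toPlane_mem hj2 x)).1 (interior_subset hj1)
  have hneg : ∀ x, ⟪v0, x⟫ = S.h v0 → G.ev x < 0 → x ∈ S.K1 := by
    intro x hx hxi
    have h1 := S.toPlane_tendsto hv0 hv hx
    have h3 : Tendsto (fun j => G.ev (S.toPlane (v j) x)) atTop (𝓝 (G.ev x)) :=
      (hGc.tendsto x).comp h1
    have h4 : ∀ᶠ j in atTop, G.ev (S.toPlane (v j) x) < 0 := h3.eventually_lt_const hxi
    refine S.K1_compact.isClosed.mem_of_tendsto h1 ?_
    filter_upwards [h4, hev] with j hj1 hj2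
    exact (h j _ (S.toPlane_mem hj2 x)).2 hj1.le
  have hCh := S.C_h v0 hv0
  have hC0 : G.ev (S.C v0) ≤ 0 := hint _ hCh (S.C_int hv0)
  -- points of the limit section
  have hall : ∀ x, ⟪v0, x⟫ = S.h v0 → x ∈ S.K1 → G.ev x ≤ 0 := by
    intro x hx hxK
    have h1 : ∀ t : ℝ, 0 < t → t ≤ 1 → G.ev ((1 - t) • x + t • S.C v0) ≤ 0 := by
      intro t ht0 ht1
      apply hint
      · rw [inner_add_right, inner_smul_right, inner_smul_right, hx, hCh]; ring
      · have := S.K1_convex.combo_interior_self_mem_interior (S.C_int hv0) hxK (a := t)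
          (b := 1 - t) ht0 (by linarith) (by ring)
        rwa [add_comm] at this
    have h2 : Tendsto (fun t : ℝ => G.ev ((1 - t) • x + t • S.C v0)) (𝓝[>] 0) (𝓝 (G.ev x)) := by
      have hc : Continuous (fun t : ℝ => G.ev ((1 - t) • x + t • S.C v0)) :=
        hGc.comp (by fun_prop)
      have := hc.tendsto 0
      simp only [sub_zero, one_smul, zero_smul, add_zero] at this
      exact this.mono_left nhdsWithin_le_nhds
    refine le_of_tendsto h2 ?_
    have h3 : ∀ᶠ t : ℝ in 𝓝[>] 0, t ∈ Ioc (0 : ℝ) 1 := Ioc_mem_nhdsGT one_pos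
    filter_upwards [h3] with t ht
    exact h1 t ht.1 ht.2
  -- limit of the linear part and of the quadratic part
  have hproj : ∀ w : E, ⟪v0, w⟫ = 0 → Tendsto (fun j => w - (⟪v j, w⟫ / ‖v j‖ ^ 2) • v j) atTop
      (𝓝 w) := by
    intro w hw
    have hn : ‖v0‖ ^ 2 ≠ 0 := by
      have := norm_pos_iff.2 hv0
      positivity
    have h1 : ContinuousAt (fun v : E => w - (⟪v, w⟫ / ‖v‖ ^ 2) • v) v0 := by
      have h1 : ContinuousAt (fun v : E => ⟪v, w⟫ / ‖v‖ ^ 2) v0 :=
        ContinuousAt.div (continuous_id.inner continuous_const).continuousAt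
          (continuous_norm.pow 2).continuousAt hn
      exact continuousAt_const.sub (h1.smul continuousAt_id)
    have h3 := h1.tendsto.comp hv
    simp only [hw, zero_div, zero_smul, sub_zero] at h3
    exact h3
  have hprojm : ∀ (w : E) (j : ℕ), v j ≠ 0 → ⟪v j, w - (⟪v j, w⟫ / ‖v j‖ ^ 2) • v j⟫ = 0 := by
    intro w j hj
    have hn : ‖v j‖ ^ 2 ≠ 0 := by
      have := norm_pos_iff.2 hj
      positivity
    rw [inner_sub_right, inner_smul_right, real_inner_self_eq_norm_sq, div_mul_cancel₀ _ hn,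
      sub_self]
  have hCt : Tendsto (fun j => S.C (v j)) atTop (𝓝 (S.C v0)) := (S.C_cont hv0).tendsto.comp hv
  have hgrad : ∀ w, ⟪v0, w⟫ = 0 → G.grad (S.C v0) w = 0 := by
    intro w hw
    have h1 : Tendsto (fun j => G.grad (S.C (v j)) (w - (⟪v j, w⟫ / ‖v j‖ ^ 2) • v j)) atTop
        (𝓝 (G.grad (S.C v0) w)) := by
      have hc : Continuous (fun p : E × E => G.grad p.1 p.2) := by
        unfold Quad.grad
        fun_prop
      exact (hc.tendsto (S.C v0, w)).comp (hCt.prodMk_nhds (hproj w hw))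
    have h2 : Tendsto (fun _ : ℕ => (0 : ℝ)) atTop (𝓝 (G.grad (S.C v0) w)) := by
      refine h1.congr' ?_
      filter_upwards [hev] with j hj
      exact (S.rep_center hj (h j)).1 _ (hprojm w j hj)
    exact tendsto_nhds_unique h2 tendsto_const_nhds
  have hBnn : ∀ w, ⟪v0, w⟫ = 0 → 0 ≤ G.B w w := by
    intro w hw
    have h1 : Tendsto (fun j => G.B (w - (⟪v j, w⟫ / ‖v j‖ ^ 2) • v j)
        (w - (⟪v j, w⟫ / ‖v j‖ ^ 2) • v j)) atTop (𝓝 (G.B w w)) := by
      have hc : Continuous (fun p : E => G.B p p) := by fun_prop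
      exact (hc.tendsto w).comp (hproj w hw)
    refine ge_of_tendsto h1 ?_
    filter_upwards [hev] with j hj
    rcases eq_or_ne (w - (⟪v j, w⟫ / ‖v j‖ ^ 2) • v j) 0 with h0 | h0
    · rw [h0]; simp
    · exact ((S.rep_center hj (h j)).2.1 _ (hprojm w j hj) h0).le
  -- G (C v0) < 0
  have hClt : G.ev (S.C v0) < 0 := by
    rcases lt_or_eq_of_le hC0 with h0 | h0
    · exact h0
    exfalso
    have hB0 : ∀ w, ⟪v0, w⟫ = 0 → G.B w w = 0 := by
      intro w hw
      rcases eq_or_ne w 0 with rfl | hw0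
      · simp
      have hwn : 0 < ‖w‖ := norm_pos_iff.2 hw0
      have hr := S.r_pos
      set ε := S.r / 2 / ‖w‖ with hε
      have hε0 : 0 < ε := by positivity
      have h1 : ε • w ∈ S.Sp v0 := by
        apply S.Sp_ball hv0 (by rw [inner_smul_right, hw, mul_zero])
        rw [norm_smul, Real.norm_eq_abs, abs_of_pos hε0, hε, div_mul_cancel₀ _ hwn.ne']
      have h2 := hall (S.C v0 + ε • w) (by
        rw [inner_add_right, inner_smul_right, hw, mul_zero, add_zero, hCh]) h1.2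
      rw [rep_ev_add, rep_B_smul, rep_grad_smul, hgrad w hw, h0] at h2
      have h3 := hBnn w hw
      have h4 : 0 < ε ^ 2 := by positivity
      nlinarith
    obtain ⟨j, hj⟩ := hev.exists
    -- a common vector of two planes
    obtain ⟨w, hw0, hw1, hw2⟩ : ∃ w : E, w ≠ 0 ∧ ⟪v0, w⟫ = 0 ∧ ⟪v j, w⟫ = 0 := by
      by_cases hli : LinearIndependent ℝ ![v0, v j]
      · obtain ⟨y, hy0, hy1, hy2, -⟩ := Pool.Agent.Helper14.BL.exists_perp_line hli
        exact ⟨y, hy0, hy1, hy2⟩
      · rw [LinearIndependent.pair_iff' hv0] at hli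
        push Not at hli
        obtain ⟨a, ha⟩ := hli
        obtain ⟨e, f, hef, he, hf, -⟩ := Pool.Agent.Helper14.BL.exists_perp_basis v0 hv0
        refine ⟨e, Pool.Agent.Helper14.BL.ne_zero_left hef, he, ?_⟩
        rw [← ha, real_inner_smul_left, he, mul_zero]
    have h1 := (S.rep_center hj (h j)).2.1 w hw2 hw0
    rw [hB0 w hw1] at h1
    exact lt_irrefl _ h1
  intro x hx
  refine ⟨hall x hx, fun hx0 => ?_⟩
  rcases lt_or_eq_of_le hx0 with h0 | h0
  · exact hneg x hx h0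
  -- boundary points
  obtain ⟨w, rfl⟩ : ∃ w, x = S.C v0 + w := ⟨x - S.C v0, by abel⟩
  have hw : ⟪v0, w⟫ = 0 := by
    rw [inner_add_right, hCh] at hx
    linarith
  rw [rep_ev_add, hgrad w hw, add_zero] at h0
  have h1 : ∀ s : ℝ, 0 ≤ s → s < 1 → S.C v0 + s • w ∈ S.K1 := by
    intro s hs0 hs1
    apply hneg
    · rw [inner_add_right, inner_smul_right, hw, mul_zero, add_zero, hCh]
    · rw [rep_ev_add, rep_B_smul, rep_grad_smul, hgrad w hw]
      have h2 : G.B w w = - G.ev (S.C v0) := by linarith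
      rw [h2]
      have h3 : s ^ 2 < 1 := by nlinarith
      nlinarith
  have h2 : Tendsto (fun s : ℝ => S.C v0 + s • w) (𝓝[<] 1) (𝓝 (S.C v0 + w)) := by
    have hc : Continuous (fun s : ℝ => S.C v0 + s • w) := by fun_prop
    have := hc.tendsto 1
    rw [one_smul] at this
    exact this.mono_left nhdsWithin_le_nhds
  refine S.K1_compact.isClosed.mem_of_tendsto h2 ?_
  have h3 : ∀ᶠ t : ℝ in 𝓝[<] 1, t ∈ Ico (0 : ℝ) 1 := Ico_mem_nhdsLT one_pos
  filter_upwards [h3] with s hs
  exact h1 s hs.1 hs.2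

theorem ellAt_of_rep {G : Quad} {v : E} (hv : v ≠ 0) (h : S.Rep G v) :
    Pool.Agent.Helper14.BL.EllAt S.K S.K1 v G.to14 := by
  refine ⟨fun x hx hx0 => (S.rep_center hv h).2.1 x hx hx0, ?_⟩
  intro x hx
  rw [S.supp14] at hx
  exact h x hx

theorem quad_unique {G G' : Quad} {v0 : E} (hv0 : v0 ≠ 0) {ρ : ℝ} (hρ : 0 < ρ)
    (h : ∀ v, ‖v - v0‖ < ρ → S.Rep G v) (h' : ∀ v, ‖v - v0‖ < ρ → S.Rep G' v) :
    ∃ c : ℝ, 0 < c ∧ ∀ x, G'.ev x = c * G.ev x := by
  have hV : IsOpen (ball v0 ρ ∩ {(0 : E)}ᶜ) := isOpen_ball.inter isOpen_compl_singleton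
  exact Pool.Agent.Helper14.BL.unique_quadric S.body14 hV (v0 := v0)
    ⟨mem_ball_self hρ, by simpa using hv0⟩ hv0 (G := G.to14) (G' := G'.to14)
    (fun v hv => S.ellAt_of_rep (by simpa using hv.2) (h v (by simpa [dist_eq_norm] using hv.1)))
    (fun v hv => S.ellAt_of_rep (by simpa using hv.2) (h' v (by simpa [dist_eq_norm] using hv.1)))

end Setting
end Pool.Agent.Helper18.BL
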