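import Mathlib
import Pool.Agent.Helper18.BL.T13a

set_option autoImplicit false

open Set MeasureTheory Filter Topology Metric
open scoped RealInnerProductSpace

namespace Pool.Agent.Helper18.BL
namespace Setting
variable (S : Setting)

/-- Local quadric lemma (proof text §7): three planes `H₁, H₂, H₃` near `H_{v0}` meeting pairwise
in chords of `K1`; quadric through the three ellipses; any other nearby section has two points on
each of the three lines `H ∩ H_i`. -/
theorem local_quad {v0 : E} (hv0 : v0 ≠ 0) {ρ0 : ℝ} (hρ0 : 0 < ρ0)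
    (h : ∀ v, ‖v - v0‖ < ρ0 → v ≠ 0 → S.Ell v) :
    ∃ (G : Quad) (ρ : ℝ), 0 < ρ ∧ ∀ v, ‖v - v0‖ < ρ → S.Rep G v := by
  have hV : IsOpen (ball v0 ρ0 ∩ {(0 : E)}ᶜ) := isOpen_ball.inter isOpen_compl_singleton
  obtain ⟨V, hVo, hvV, -, -, q, hq⟩ := Pool.Agent.Helper14.BL.local_quadric S.body14 hV
    (fun v hv => by
      obtain ⟨G, hG⟩ := S.ellAt_of_ell (by simpa using hv.2)
        (h v (by simpa [dist_eq_norm] using hv.1) (by simpa using hv.2))
      exact ⟨_, hG⟩) (u0 := v0) ⟨mem_ball_self hρ0, by simpa using hv0⟩ hv0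
  obtain ⟨G, hG, -⟩ := exists_of14 q
  obtain ⟨ρ, hρ, hball⟩ := Metric.isOpen_iff.1 hVo v0 hvV
  refine ⟨G, ρ, hρ, fun v hv => ?_⟩
  exact S.rep_of_ellAt hG (hq v (hball (by simpa [dist_eq_norm] using hv)))

end Setting
end Pool.Agent.Helper18.BL
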