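import Mathlib
import Pool.Agent.Helper18.BL.T2
import Pool.Agent.Helper18.BL.T13a

set_option autoImplicit false

open Set MeasureTheory Filter Topology Metric
open scoped RealInnerProductSpace

namespace Pool.Agent.Helper18.BL
namespace Setting
variable (S : Setting)

theorem rep_bd_eq {G : Quad} {z w : E} (hz : z ≠ 0) (hG : S.Rep G z) (hw : w ∈ S.bd z) :
    G.ev (S.C z + w) = 0 := by
  obtain ⟨hgr, hpos, hneg⟩ := S.rep_center hz hG
  have hwz : ⟪z, w⟫ = 0 := hw.1.1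
  have h1 := (S.rep_mem_iff hz hG hwz).1 hw.1
  rw [hgr w hwz, add_zero] at h1
  rw [rep_ev_add, hgr w hwz, add_zero]
  refine le_antisymm h1 ?_
  by_contra hlt
  push Not at hlt
  have hcont : Continuous (fun s : ℝ => s ^ 2 * G.B w w + G.ev (S.C z)) := by fun_prop
  have hopen : IsOpen ((fun s : ℝ => s ^ 2 * G.B w w + G.ev (S.C z)) ⁻¹' Iio 0) :=
    isOpen_Iio.preimage hcont
  obtain ⟨ε, hε, hball⟩ := Metric.isOpen_iff.1 hopen 1 (by
    simp only [mem_preimage, mem_Iio, one_pow, one_mul]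
    exact hlt)
  have h2 : (1 + ε / 2) ∈ ball (1 : ℝ) ε := by
    rw [mem_ball, Real.dist_eq, add_sub_cancel_left, abs_of_pos (by positivity)]
    linarith
  have h3 := hball h2
  simp only [mem_preimage, mem_Iio] at h3
  apply hw.2 (1 + ε / 2) (by linarith)
  rw [S.rep_mem_iff hz hG (by rw [inner_smul_right, hwz, mul_zero]), rep_B_smul, rep_grad_smul,
    hgr w hwz, mul_zero, add_zero]
  exact h3.le

theorem rep_grad_add (G : Quad) (c w y : E) : G.grad (c + w) y = G.grad c y + 2 * G.B w y := by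
  unfold Quad.grad
  rw [map_add, _root_.add_apply]
  ring

theorem rep_grad_n_pos {G : Quad} {z w n : E} (hz : z ≠ 0) (hG : S.Rep G z) (hw : w ∈ S.bd z)
    (hnz : ⟪z, n⟫ = 0) (hn : n ≠ 0) (hmax : ∀ w' ∈ S.Sp z, ⟪n, w'⟫ ≤ ⟪n, w⟫) :
    0 < G.grad (S.C z + w) n := by
  obtain ⟨hgr, hpos, hneg⟩ := S.rep_center hz hG
  have hwz : ⟪z, w⟫ = 0 := hw.1.1
  rw [rep_grad_add, hgr n hnz, zero_add]
  have h0 := S.rep_bd_eq hz hG hw
  rw [rep_ev_add, hgr w hwz, add_zero] at h0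
  -- directions pointing inside
  have key : ∀ y, ⟪z, y⟫ = 0 → G.B w y < 0 → ⟪n, y⟫ ≤ 0 := by
    intro y hy hBy
    have hyB : 0 ≤ G.B y y := by
      rcases eq_or_ne y 0 with rfl | h
      · simp
      · exact (hpos y hy h).le
    set s : ℝ := - G.B w y / (G.B y y + 1) with hs
    have hs0 : 0 < s := div_pos (by linarith) (by linarith)
    have hs1 : s * (G.B y y + 1) = - G.B w y := div_mul_cancel₀ _ (by linarith)
    have hmem : w + s • y ∈ S.Sp z := by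
      have hor : ⟪z, w + s • y⟫ = 0 := by
        rw [inner_add_right, inner_smul_right, hwz, hy]; ring
      rw [S.rep_mem_iff hz hG hor, hgr _ hor, add_zero]
      simp only [map_add, map_smul, _root_.add_apply, _root_.smul_apply, smul_eq_mul]
      rw [G.symm y w]
      have : G.B w w + s * G.B w y + (s * (G.B w y + s * G.B y y)) + G.ev (S.C z) =
          (G.B w w + G.ev (S.C z)) + s * (2 * G.B w y + s * G.B y y) := by ring
      have h3 : s * (2 * G.B w y + s * G.B y y) ≤ 0 := by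
        apply mul_nonpos_of_nonneg_of_nonpos hs0.le
        nlinarith
      nlinarith
    have h2 := hmax _ hmem
    rw [inner_add_right, inner_smul_right] at h2
    have h3 : s * ⟪n, y⟫ ≤ 0 := by linarith
    by_contra hcon
    push Not at hcon
    have := mul_pos hs0 hcon
    linarith
  have hnn : 0 < ⟪n, n⟫ := real_inner_self_pos.2 hn
  by_contra hcon
  push Not at hcon
  have hBn : G.B w n ≤ 0 := by linarith
  have h3 : ∀ η : ℝ, 0 < η → ⟪n, n⟫ ≤ η * ⟪n, w⟫ := by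
    intro η hη
    have h4 := key (n - η • w) (by rw [inner_sub_right, inner_smul_right, hnz, hwz]; ring) (by
      rw [map_sub, map_smul, smul_eq_mul]
      have : 0 < η * G.B w w := by
        apply mul_pos hη
        linarith
      linarith)
    rw [inner_sub_right, inner_smul_right] at h4
    linarith
  have h5 : 0 < |⟪n, w⟫| + 1 := by positivity
  have h6 := h3 (⟪n, n⟫ / (2 * (|⟪n, w⟫| + 1))) (by positivity)
  have h7 : ⟪n, n⟫ / (2 * (|⟪n, w⟫| + 1)) * ⟪n, w⟫ ≤ ⟪n, n⟫ / 2 := by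
    rw [div_mul_eq_mul_div, div_le_div_iff₀ (by positivity) (by norm_num)]
    have : ⟪n, w⟫ ≤ |⟪n, w⟫| + 1 := by
      have := le_abs_self ⟪n, w⟫
      linarith
    nlinarith
  linarith

/-- the main limit computation -/
theorem tq_core {G : Quad} {z w n : E} {t t' c : ℝ} (hz : z ≠ 0) {v : ℕ → E} {ε : ℕ → ℝ}
    (hε : ∀ j, 0 < ε j) (hε0 : Tendsto ε atTop (𝓝 0)) (hv : Tendsto v atTop (𝓝 z))
    (hG : ∀ j, S.Rep G (v j)) (hGz : S.Rep G z)
    (hw : w ∈ S.bd z) (hnz : ⟪z, n⟫ = 0) (hn : n ≠ 0) (hp : S.Pair z w n t t')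
    (hc : Tendsto (fun j => (⟪v j, S.C z + w⟫ - S.h (v j)) / ε j) atTop (𝓝 c)) :
    c * (⟪n, n⟫ * G.grad (S.C z + w) z / ⟪z, z⟫ + t * G.grad (S.C z + w) n) ≤ 0 := by
  have hNpos := S.rep_grad_n_pos hz hGz hw hnz hn (S.pair_max hz hp)
  have hGp := S.rep_bd_eq hz hGz hw
  set p := S.C z + w with hpdef
  set γ := G.grad p z with hγ
  set N := G.grad p n with hN
  have hnn : 0 < ⟪n, n⟫ := real_inner_self_pos.2 hn
  have hzz : 0 < ⟪z, z⟫ := real_inner_self_pos.2 hz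
  have key : ∀ η : ℝ, 0 < η → (c * γ / (⟪z, z⟫ * N) - η) * ⟪n, n⟫ + t * c ≤ 0 := by
    intro η hη
    set β := c * γ / (⟪z, z⟫ * N) - η with hβ
    set cj : ℕ → ℝ := fun j => (⟪v j, p⟫ - S.h (v j)) / ε j with hcj
    set α : ℕ → ℝ := fun j => -(cj j + β * ⟪v j, n⟫) / ⟪v j, z⟫ with hα
    have l1 : Tendsto (fun j => ⟪v j, n⟫) atTop (𝓝 0) := by
      rw [← hnz]
      exact ((continuous_id.inner continuous_const).tendsto z).comp hv
    have l2 : Tendsto (fun j => ⟪v j, z⟫) atTop (𝓝 ⟪z, z⟫) :=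
      ((continuous_id.inner continuous_const).tendsto z).comp hv
    have l3 : Tendsto α atTop (𝓝 (-(c + β * 0) / ⟪z, z⟫)) :=
      ((hc.add (l1.const_mul β)).neg).div l2 hzz.ne'
    have l3' : Tendsto α atTop (𝓝 (-c / ⟪z, z⟫)) := by
      rw [mul_zero, add_zero] at l3
      exact l3
    have l4 : Tendsto (fun j => α j • z + β • n) atTop (𝓝 ((-c / ⟪z, z⟫) • z + β • n)) :=
      (l3'.smul_const z).add_const _
    have l5 : Tendsto (fun j => G.B (α j • z + β • n) (α j • z + β • n)) atTop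
        (𝓝 (G.B ((-c / ⟪z, z⟫) • z + β • n) ((-c / ⟪z, z⟫) • z + β • n))) := by
      have hcB : Continuous (fun x : E => G.B x x) := by fun_prop
      exact (hcB.tendsto _).comp l4
    have l6 : Tendsto (fun j => α j * γ + β * N +
        ε j * G.B (α j • z + β • n) (α j • z + β • n)) atTop (𝓝 (-c / ⟪z, z⟫ * γ + β * N + 0 *
          G.B ((-c / ⟪z, z⟫) • z + β • n) ((-c / ⟪z, z⟫) • z + β • n))) :=
      ((l3'.mul_const γ).add_const _).add (hε0.mul l5)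
    have hlim : -c / ⟪z, z⟫ * γ + β * N + 0 *
          G.B ((-c / ⟪z, z⟫) • z + β • n) ((-c / ⟪z, z⟫) • z + β • n) = -(η * N) := by
      rw [hβ]
      field_simp
      ring
    rw [hlim] at l6
    have hηN : -(η * N) < 0 := by
      have := mul_pos hη hNpos
      linarith
    have e1 := l6.eventually_lt_const hηN
    have e2 : ∀ᶠ j in atTop, 0 < ⟪v j, z⟫ := l2.eventually_const_lt hzz
    have l7 : Tendsto (fun j => β * ⟪n, n⟫ - t * α j * ⟪z, z⟫) atTop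
        (𝓝 (β * ⟪n, n⟫ - t * (-c / ⟪z, z⟫) * ⟪z, z⟫)) :=
      tendsto_const_nhds.sub ((l3'.const_mul t).mul_const _)
    have hlim2 : β * ⟪n, n⟫ - t * (-c / ⟪z, z⟫) * ⟪z, z⟫ = β * ⟪n, n⟫ + t * c := by
      field_simp
      ring
    rw [hlim2] at l7
    refine le_of_tendsto l7 ?_
    filter_upwards [e1, e2] with j h1 h2
    have hεj := hε j
    have hplane : ⟪v j, p + ε j • (α j • z + β • n)⟫ = S.h (v j) := by
      rw [inner_add_right (v j) p, inner_smul_right (v j) (α j • z + β • n),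
        inner_add_right (v j) (α j • z), inner_smul_right (v j) z, inner_smul_right (v j) n]
      have e3 : α j * ⟪v j, z⟫ = -(cj j + β * ⟪v j, n⟫) := div_mul_cancel₀ _ h2.ne'
      have e4 : cj j * ε j = ⟪v j, p⟫ - S.h (v j) := div_mul_cancel₀ _ hεj.ne'
      rw [e3]
      linarith
    have hGx : G.ev (p + ε j • (α j • z + β • n)) ≤ 0 := by
      rw [rep_ev_add, rep_B_smul, rep_grad_smul, hGp]
      have e5 : G.grad p (α j • z + β • n) = α j * γ + β * N := by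
        rw [hγ, hN]
        unfold Quad.grad
        simp only [map_add, map_smul, smul_eq_mul, inner_add_right, inner_smul_right]
        ring
      rw [e5]
      have e6 : ε j ^ 2 * G.B (α j • z + β • n) (α j • z + β • n) + ε j * (α j * γ + β * N) + 0 =
          ε j * (α j * γ + β * N + ε j * G.B (α j • z + β • n) (α j • z + β • n)) := by ring
      rw [e6]
      exact (mul_neg_of_pos_of_neg hεj h1).le
    have hmem := (hG j _ hplane).2 hGx
    have h3 := hp.2.1 _ hmem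
    rw [inner_add_right (n - t • z) p, inner_smul_right (n - t • z)] at h3
    have h4 : ⟪n - t • z, α j • z + β • n⟫ = β * ⟪n, n⟫ - t * α j * ⟪z, z⟫ := by
      have hzn : ⟪n, z⟫ = 0 := by rw [real_inner_comm]; exact hnz
      simp only [inner_sub_left, inner_add_right, inner_smul_right, real_inner_smul_left, hnz, hzn]
      ring
    rw [h4] at h3
    by_contra hcon
    push Not at hcon
    have := mul_pos hεj hcon
    linarith
  have h1 : c * γ / (⟪z, z⟫ * N) * ⟪n, n⟫ + t * c ≤ 0 := by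
    by_contra hcon
    push Not at hcon
    have h2 := key ((c * γ / (⟪z, z⟫ * N) * ⟪n, n⟫ + t * c) / (2 * ⟪n, n⟫)) (by positivity)
    have h3 : (c * γ / (⟪z, z⟫ * N) * ⟪n, n⟫ + t * c) / (2 * ⟪n, n⟫) * ⟪n, n⟫ =
        (c * γ / (⟪z, z⟫ * N) * ⟪n, n⟫ + t * c) / 2 := by
      field_simp
    rw [sub_mul, h3] at h2
    linarith
  have h2 : c * (⟪n, n⟫ * γ / ⟪z, z⟫ + t * N) = (c * γ / (⟪z, z⟫ * N) * ⟪n, n⟫ + t * c) * N := by
    field_simp
  rw [h2]
  exact mul_nonpos_of_nonpos_of_nonneg h1 hNpos.le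

/-- heights of a boundary point over the nearby planes -/
theorem tq_subseq {z w δ : E} (hz : z ≠ 0) {v δj : ℕ → E} {ε : ℕ → ℝ}
    (hε : ∀ j, 0 < ε j) (hε0 : Tendsto ε atTop (𝓝 0)) (hδ : Tendsto δj atTop (𝓝 δ))
    (hv : ∀ j, v j = z + ε j • δj j) (hwz : ⟪z, w⟫ = 0) :
    ∃ (φ : ℕ → ℕ) (c : ℝ) (k : E), StrictMono φ ∧ k ∈ S.F z ∧
      Tendsto (fun j => (⟪v (φ j), S.C z + w⟫ - S.h (v (φ j))) / ε (φ j)) atTop (𝓝 c) ∧
      ⟪S.C z + w - k, δ⟫ ≤ c ∧ ∀ k' ∈ S.F z, c ≤ ⟪S.C z + w - k', δ⟫ := by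
  set p := S.C z + w with hp
  have hpz : ⟪z, p⟫ = S.h z := by rw [hp, inner_add_right, hwz, add_zero, S.C_h z hz]
  have hvt : Tendsto v atTop (𝓝 z) := by
    have h1 : Tendsto (fun j => z + ε j • δj j) atTop (𝓝 (z + (0 : ℝ) • δ)) :=
      tendsto_const_nhds.add (hε0.smul hδ)
    rw [zero_smul, add_zero] at h1
    exact h1.congr (fun j => (hv j).symm)
  choose k hkK hkh using S.h_att
  set cj : ℕ → ℝ := fun j => (⟪v j, p⟫ - S.h (v j)) / ε j with hcj
  have hlow : ∀ j, ⟪p - k (v j), δj j⟫ ≤ cj j := by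
    intro j
    rw [hcj]
    simp only
    rw [le_div_iff₀ (hε j), ← hkh (v j), ← inner_sub_right, hv j, inner_add_left,
      real_inner_smul_left, real_inner_comm (p - k _) (δj j)]
    have h1 : 0 ≤ ⟪z, p - k (z + ε j • δj j)⟫ := by
      rw [inner_sub_right, hpz]
      have := S.h_le z _ (hkK (z + ε j • δj j))
      linarith
    linarith
  have hup : ∀ k' ∈ S.F z, ∀ j, cj j ≤ ⟪p - k', δj j⟫ := by
    intro k' hk' j
    rw [hcj]
    simp only
    rw [div_le_iff₀ (hε j)]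
    have h1 := S.h_le (v j) k' hk'.1
    have h2 : ⟪v j, p⟫ - ⟪v j, k'⟫ = ⟪p - k', δj j⟫ * ε j := by
      rw [← inner_sub_right, hv j, inner_add_left, real_inner_smul_left, inner_sub_right, hpz,
        hk'.2, real_inner_comm (δj j)]
      ring
    linarith
  obtain ⟨k0, hk0⟩ : ∃ k0, k0 ∈ S.F z := ⟨k z, hkK z, hkh z⟩
  -- boundedness
  obtain ⟨M, hM⟩ : ∃ M : ℝ, ∀ j, ‖δj j‖ ≤ M := by
    obtain ⟨M, hM⟩ := hδ.norm.bddAbove_range
    exact ⟨M, fun j => hM ⟨j, rfl⟩⟩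
  have hM0 : 0 ≤ M := (norm_nonneg _).trans (hM 0)
  have hkn : ∀ x ∈ S.K, ‖p - x‖ ≤ ‖p‖ + S.R := by
    intro x hx
    have h1 := S.K1_bdd x (S.K_sub hx)
    have h2 := norm_sub_le p x
    linarith
  set B := (‖p‖ + S.R) * M with hB
  have hcb : ∀ j, cj j ∈ Icc (-B) B := by
    intro j
    have h1 := hlow j
    have h2 := hup k0 hk0 j
    have h3 := (abs_le.1 (abs_real_inner_le_norm (p - k (v j)) (δj j))).1
    have h4 := real_inner_le_norm (p - k0) (δj j)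
    have h5 : ‖p - k (v j)‖ * ‖δj j‖ ≤ B := by
      apply mul_le_mul (hkn _ (hkK _)) (hM j) (norm_nonneg _)
      have := S.R_nonneg
      positivity
    have h6 : ‖p - k0‖ * ‖δj j‖ ≤ B := by
      apply mul_le_mul (hkn _ hk0.1) (hM j) (norm_nonneg _)
      have := S.R_nonneg
      positivity
    exact ⟨by linarith, by linarith⟩
  have hcomp : IsCompact (S.K ×ˢ Icc (-B) B) := S.K_compact.prod isCompact_Icc
  obtain ⟨⟨kk, c⟩, hmem, φ, hφ, hlim⟩ := hcomp.tendsto_subseq (x := fun j => (k (v j), cj j))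
    (fun j => ⟨hkK _, hcb j⟩)
  have hlk : Tendsto (fun j => k (v (φ j))) atTop (𝓝 kk) :=
    (continuous_fst.tendsto _).comp hlim
  have hlc : Tendsto (fun j => cj (φ j)) atTop (𝓝 c) :=
    (continuous_snd.tendsto _).comp hlim
  have hδφ : Tendsto (fun j => δj (φ j)) atTop (𝓝 δ) := hδ.comp hφ.tendsto_atTop
  have hvφ : Tendsto (fun j => v (φ j)) atTop (𝓝 z) := hvt.comp hφ.tendsto_atTop
  refine ⟨φ, c, kk, hφ, ⟨hmem.1, ?_⟩, hlc, ?_, ?_⟩
  · have h1 : Tendsto (fun j => ⟪v (φ j), k (v (φ j))⟫) atTop (𝓝 ⟪z, kk⟫) := hvφ.inner hlk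
    have h2 : Tendsto (fun j => ⟪v (φ j), k (v (φ j))⟫) atTop (𝓝 (S.h z)) := by
      refine ((S.h_cont.tendsto z).comp hvφ).congr fun j => ?_
      exact (hkh _).symm
    exact tendsto_nhds_unique h1 h2
  · have h1 : Tendsto (fun j => ⟪p - k (v (φ j)), δj (φ j)⟫) atTop (𝓝 ⟪p - kk, δ⟫) :=
      (tendsto_const_nhds.sub hlk).inner hδφ
    exact le_of_tendsto_of_tendsto' h1 hlc fun j => hlow (φ j)
  · intro k' hk'
    have h1 : Tendsto (fun j => ⟪p - k', δj (φ j)⟫) atTop (𝓝 ⟪p - k', δ⟫) :=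
      tendsto_const_nhds.inner hδφ
    exact le_of_tendsto_of_tendsto' hlc h1 fun j => hup k' hk' (φ j)

theorem tendsto_of_dir {z δ : E} {v δj : ℕ → E} {ε : ℕ → ℝ}
    (hε0 : Tendsto ε atTop (𝓝 0)) (hδ : Tendsto δj atTop (𝓝 δ))
    (hv : ∀ j, v j = z + ε j • δj j) : Tendsto v atTop (𝓝 z) := by
  have h1 : Tendsto (fun j => z + ε j • δj j) atTop (𝓝 (z + (0 : ℝ) • δ)) :=
    tendsto_const_nhds.add (hε0.smul hδ)
  rw [zero_smul, add_zero] at h1
  exact h1.congr (fun j => (hv j).symm)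

/-- the reverse inequality: `C z + w` lies strictly below the planes -/
theorem tq_lower {G : Quad} {z w n δ : E} {t t' : ℝ} (hz : z ≠ 0) {v δj : ℕ → E} {ε : ℕ → ℝ}
    (hε : ∀ j, 0 < ε j) (hε0 : Tendsto ε atTop (𝓝 0)) (hδ : Tendsto δj atTop (𝓝 δ))
    (hv : ∀ j, v j = z + ε j • δj j) (hG : ∀ j, S.Rep G (v j)) (hGz : S.Rep G z)
    (hw : w ∈ S.bd z) (hnz : ⟪z, n⟫ = 0) (hn : n ≠ 0) (hp : S.Pair z w n t t')
    (hκ : ∃ κ, S.C z + κ ∈ S.F z ∧ ⟪w - κ, δ⟫ < 0) :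
    - ⟪n, n⟫ * G.grad (S.C z + w) z / ⟪z, z⟫ ≤ t * G.grad (S.C z + w) n := by
  obtain ⟨φ, c, k, hφ, hk, hc, hc1, hc2⟩ := S.tq_subseq hz hε hε0 hδ hv hw.1.1
  have hvt := (tendsto_of_dir hε0 hδ hv).comp hφ.tendsto_atTop
  have h1 := S.tq_core hz (v := fun j => v (φ j)) (ε := fun j => ε (φ j)) (fun j => hε (φ j))
    (hε0.comp hφ.tendsto_atTop) hvt (fun j => hG (φ j)) hGz hw hnz hn hp hc
  obtain ⟨κ, hκ1, hκ2⟩ := hκ
  have h2 := hc2 _ hκ1
  have h3 : S.C z + w - (S.C z + κ) = w - κ := by abel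
  rw [h3] at h2
  have hc0 : c < 0 := lt_of_le_of_lt h2 hκ2
  by_contra hcon
  push Not at hcon
  have h4 : ⟪n, n⟫ * G.grad (S.C z + w) z / ⟪z, z⟫ + t * G.grad (S.C z + w) n < 0 := by
    have : - ⟪n, n⟫ * G.grad (S.C z + w) z / ⟪z, z⟫ =
      -(⟪n, n⟫ * G.grad (S.C z + w) z / ⟪z, z⟫) := by ring
    rw [this] at hcon
    linarith
  have := mul_pos_of_neg_of_neg hc0 h4
  linarith

/-- If `v j → z` with direction `δ`, all represented by `G`, and `C z + w` lies strictly above the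
planes (`⟪w - κ, δ⟫ > 0` for all contact vectors `κ`), then `t ≤ t_Q`, where
`n = μ (gradient - normal part)`. Stated without `t_Q`: with `p = C z + w`,
`t * (grad G p n) ≤ - ⟪n,n⟫ (grad G p z) / ⟪z,z⟫`. -/
theorem tq_upper {G : Quad} {z w n δ : E} {t t' : ℝ} (hz : z ≠ 0) {v δj : ℕ → E} {ε : ℕ → ℝ}
    (hε : ∀ j, 0 < ε j) (hε0 : Tendsto ε atTop (𝓝 0)) (hδ : Tendsto δj atTop (𝓝 δ))
    (hv : ∀ j, v j = z + ε j • δj j) (hG : ∀ j, S.Rep G (v j)) (hGz : S.Rep G z)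
    (hw : w ∈ S.bd z) (hnz : ⟪z, n⟫ = 0) (hn : n ≠ 0) (hp : S.Pair z w n t t')
    (hκ : ∀ κ, S.C z + κ ∈ S.F z → 0 < ⟪w - κ, δ⟫) :
    0 < G.grad (S.C z + w) n ∧
      t * G.grad (S.C z + w) n ≤ - ⟪n, n⟫ * G.grad (S.C z + w) z / ⟪z, z⟫ := by
  refine ⟨S.rep_grad_n_pos hz hGz hw hnz hn (S.pair_max hz hp), ?_⟩
  obtain ⟨φ, c, k, hφ, hk, hc, hc1, hc2⟩ := S.tq_subseq hz hε hε0 hδ hv hw.1.1
  have hvt := (tendsto_of_dir hε0 hδ hv).comp hφ.tendsto_atTop
  have h1 := S.tq_core hz (v := fun j => v (φ j)) (ε := fun j => ε (φ j)) (fun j => hε (φ j))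
    (hε0.comp hφ.tendsto_atTop) hvt (fun j => hG (φ j)) hGz hw hnz hn hp hc
  have h2 := hκ (k - S.C z) (by rw [add_sub_cancel]; exact hk)
  have h3 : w - (k - S.C z) = S.C z + w - k := by abel
  rw [h3] at h2
  have hc0 : 0 < c := lt_of_lt_of_le h2 hc1
  by_contra hcon
  push Not at hcon
  have h4 : 0 < ⟪n, n⟫ * G.grad (S.C z + w) z / ⟪z, z⟫ + t * G.grad (S.C z + w) n := by
    have : - ⟪n, n⟫ * G.grad (S.C z + w) z / ⟪z, z⟫ =
      -(⟪n, n⟫ * G.grad (S.C z + w) z / ⟪z, z⟫) := by ring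
    rw [this] at hcon
    linarith
  have := mul_pos hc0 h4
  linarith

theorem pair_swap {z w n : E} {t t' : ℝ} (hz : z ≠ 0) (h : S.Pair z w n t t') :
    S.Pair z (-w) (-n) t' t := by
  refine ⟨S.Sp_neg hz h.1, ?_, ?_⟩
  · rw [← sub_eq_add_neg]
    exact h.2.2
  · rw [neg_neg, sub_neg_eq_add]
    exact h.2.1

theorem R_pos : 0 < S.R := by
  obtain ⟨v, hv⟩ : ∃ v : E, v ≠ 0 := exists_ne 0
  obtain ⟨e, f, hef, he, -, -⟩ := Pool.Agent.Helper14.BL.exists_perp_basis v hv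
  have he0 := Pool.Agent.Helper14.BL.ne_zero_left hef
  have hen : 0 < ‖e‖ := norm_pos_iff.2 he0
  have hr := S.r_pos
  have h1 : ‖(S.r / 2 / ‖e‖) • e‖ = S.r / 2 := by
    rw [norm_smul, Real.norm_eq_abs, abs_of_pos (by positivity), div_mul_cancel₀ _ hen.ne']
  have h2 := S.Sp_ball hv (w := (S.r / 2 / ‖e‖) • e) (by rw [inner_smul_right, he, mul_zero]) h1.le
  have h3 := S.Sp_norm hv h2
  rw [h1] at h3
  linarith

/-- a maximum point of `n ≠ 0`, `n ⊥ z`, on the section -/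
theorem max_pos {z w n : E} (hz : z ≠ 0) (hnz : ⟪z, n⟫ = 0) (hn : n ≠ 0)
    (hmax : ∀ w' ∈ S.Sp z, ⟪n, w'⟫ ≤ ⟪n, w⟫) : 0 < ⟪n, w⟫ := by
  have hnn : 0 < ‖n‖ := norm_pos_iff.2 hn
  have hr := S.r_pos
  have h1 : ‖(S.r / 2 / ‖n‖) • n‖ = S.r / 2 := by
    rw [norm_smul, Real.norm_eq_abs, abs_of_pos (by positivity), div_mul_cancel₀ _ hnn.ne']
  have h2 := S.Sp_ball hz (w := (S.r / 2 / ‖n‖) • n) (by rw [inner_smul_right, hnz, mul_zero])
    h1.le
  have h3 := hmax _ h2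
  rw [inner_smul_right, real_inner_self_eq_norm_sq] at h3
  have : 0 < S.r / 2 / ‖n‖ * ‖n‖ ^ 2 := by positivity
  linarith

theorem max_bd {z w n : E} (hz : z ≠ 0) (hnz : ⟪z, n⟫ = 0) (hn : n ≠ 0) (hw : w ∈ S.Sp z)
    (hmax : ∀ w' ∈ S.Sp z, ⟪n, w'⟫ ≤ ⟪n, w⟫) : w ∈ S.bd z := by
  refine ⟨hw, fun c hc hmem => ?_⟩
  have h1 := S.max_pos hz hnz hn hmax
  have h2 := hmax _ hmem
  rw [inner_smul_right] at h2
  nlinarith

/-- contact vectors are away from the supporting lines -/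
theorem contact_gap {z w n κ : E} (hz : z ≠ 0) (hnz : ⟪z, n⟫ = 0) (hn : n ≠ 0)
    (hmax : ∀ w' ∈ S.Sp z, ⟪n, w'⟫ ≤ ⟪n, w⟫) (hκ : S.C z + κ ∈ S.F z) :
    ⟪n, w⟫ * (1 - 1 / (1 + S.r / (2 * S.R))) ≤ ⟪w - κ, n⟫ := by
  obtain ⟨c, hc1, hc2⟩ := S.F_inside hz hκ
  have hpos := S.max_pos hz hnz hn hmax
  have h1 := hmax _ hc2
  rw [inner_smul_right] at h1
  have hR := S.R_pos
  have hr := S.r_pos
  set c0 := 1 + S.r / (2 * S.R) with hc0
  have hc0' : 0 < c0 := by positivity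
  have hcpos : 0 < c := lt_of_lt_of_le hc0' hc1
  have hcomm : ⟪w - κ, n⟫ = ⟪n, w⟫ - ⟪n, κ⟫ := by
    rw [real_inner_comm, inner_sub_right]
  rw [hcomm]
  have h2 : ⟪n, κ⟫ ≤ ⟪n, w⟫ / c := by
    rw [le_div_iff₀ hcpos]
    linarith
  have h3 : ⟪n, w⟫ / c ≤ ⟪n, w⟫ / c0 := div_le_div_of_nonneg_left hpos.le hc0' hc1
  have h4 : ⟪n, w⟫ * (1 - 1 / c0) = ⟪n, w⟫ - ⟪n, w⟫ / c0 := by ring
  linarith

/-- a touched point with `ν > 0` does not satisfy (N) -/
theorem touched {G : Quad} {z g : E} {ρ : ℝ} (hz : z ≠ 0) (hg : ‖g‖ = 1) (hgz : ⟪g, z⟫ = 0)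
    (hρ : 0 < ρ) (hrep : ∀ v, ‖v - (z + ρ • g)‖ < ρ → S.Rep G v)
    (hν : 0 < G.grad (S.C z) z) : ¬ S.Nn z := by
  intro hN
  have hε0 : Tendsto (fun j : ℕ => 1 / ((j : ℝ) + 1)) atTop (𝓝 0) :=
    tendsto_one_div_add_atTop_nhds_zero_nat
  -- admissible directions
  have hdir : ∀ δ : E, 0 < ⟪g, δ⟫ → ∃ s0 : ℝ, 0 < s0 ∧ ∀ s : ℝ, 0 < s → s < s0 →
      S.Rep G (z + s • δ) := by
    intro δ hδ
    refine ⟨2 * ρ * ⟪g, δ⟫ / (‖δ‖ ^ 2 + 1), by positivity, fun s hs hs' => ?_⟩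
    apply hrep
    rw [lt_div_iff₀ (by positivity)] at hs'
    have e1 : z + s • δ - (z + ρ • g) = s • δ - ρ • g := by abel
    rw [e1]
    have e2 : ‖s • δ - ρ • g‖ ^ 2 < ρ ^ 2 := by
      rw [norm_sub_sq_real, norm_smul, norm_smul, hg, real_inner_smul_left, inner_smul_right,
        real_inner_comm]
      simp only [Real.norm_eq_abs, mul_one]
      rw [mul_pow, sq_abs, sq_abs]
      nlinarith
    exact lt_of_pow_lt_pow_left₀ 2 hρ.le e2
  have hseq : ∀ δ : E, 0 < ⟪g, δ⟫ → ∃ ε : ℕ → ℝ, (∀ j, 0 < ε j) ∧ Tendsto ε atTop (𝓝 0) ∧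
      ∀ j, S.Rep G (z + ε j • δ) := by
    intro δ hδ
    obtain ⟨s0, hs0, hs⟩ := hdir δ hδ
    refine ⟨fun j => s0 / 2 * (1 / ((j : ℝ) + 1)), fun j => by positivity, ?_, fun j => ?_⟩
    · have := hε0.const_mul (s0 / 2)
      rwa [mul_zero] at this
    · apply hs _ (by positivity)
      have h1 : 1 / ((j : ℝ) + 1) ≤ 1 := by
        rw [div_le_one (by positivity)]
        have : (0 : ℝ) ≤ j := Nat.cast_nonneg j
        linarith
      have h2 : s0 / 2 * (1 / ((j : ℝ) + 1)) ≤ s0 / 2 * 1 :=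
        mul_le_mul_of_nonneg_left h1 (by positivity)
      linarith
  have hgg : ⟪g, g⟫ = 1 := by rw [real_inner_self_eq_norm_sq, hg]; norm_num
  have hg0 : g ≠ 0 := by
    rintro rfl
    rw [norm_zero] at hg
    exact zero_ne_one hg
  -- `G` represents the section at `z`
  have hGz : S.Rep G z := by
    obtain ⟨ε, hε, hεt, hrepε⟩ := hseq g (by rw [hgg]; exact one_pos)
    refine S.rep_closed hz hrepε ?_
    have := (hεt.smul_const g).const_add z
    rwa [zero_smul, add_zero] at this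
  obtain ⟨hgr, hpos, hneg⟩ := S.rep_center hz hGz
  -- the normal
  have hli : LinearIndependent ℝ ![g, z] := by
    rw [LinearIndependent.pair_iff]
    intro a b hab
    have h1 := congrArg (fun x => ⟪g, x⟫) hab
    simp only [inner_add_right, inner_smul_right, hgg, hgz, inner_zero_right] at h1
    have ha : a = 0 := by linarith
    subst ha
    rw [zero_smul, zero_add] at hab
    exact ⟨rfl, (smul_eq_zero.1 hab).resolve_right hz⟩
  obtain ⟨n, hn, hgn, hnz, -⟩ := Pool.Agent.Helper14.BL.exists_perp_line hli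
  obtain ⟨w, t, t', hp, htt⟩ := hN n
  have hmax := S.pair_max hz hp
  have hbd := S.max_bd hz hnz hn hp.1 hmax
  have hp' := S.pair_swap hz hp
  have hnz' : ⟪z, -n⟫ = 0 := by rw [inner_neg_right, hnz, neg_zero]
  have hn' : -n ≠ 0 := neg_ne_zero.2 hn
  have hmax' := S.pair_max hz hp'
  have hbd' := S.max_bd hz hnz' hn' hp'.1 hmax'
  have hnwpos := S.max_pos hz hnz hn hmax
  have hR := S.R_pos
  have hr := S.r_pos
  set c0 := 1 + S.r / (2 * S.R) with hc0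
  have hc0' : 1 < c0 := by
    have : 0 < S.r / (2 * S.R) := by positivity
    linarith
  set m := ⟪n, w⟫ * (1 - 1 / c0) with hm
  have hm0 : 0 < m := by
    apply mul_pos hnwpos
    rw [sub_pos, div_lt_one (by linarith)]
    exact hc0'
  set η := m / (4 * S.R + 1) / 2 with hη
  have hη0 : 0 < η := by positivity
  have hηm : η * (4 * S.R) < m := by
    rw [hη]
    have e1 : m / (4 * S.R + 1) / 2 * (4 * S.R) = m * (4 * S.R / (2 * (4 * S.R + 1))) := by
      field_simp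
    rw [e1]
    have e2 : 4 * S.R / (2 * (4 * S.R + 1)) < 1 := by
      rw [div_lt_one (by positivity)]
      linarith
    nlinarith
  have hκg : ∀ w1 κ, w1 ∈ S.Sp z → S.C z + κ ∈ S.F z → -(4 * S.R) ≤ ⟪w1 - κ, g⟫ := by
    intro w1 κ hw1 hκ
    have h1 := S.Sp_norm hz hw1
    have h2 : ‖κ‖ ≤ 2 * S.R := by
      obtain ⟨c, hc1, hc2⟩ := S.F_inside hz hκ
      have h3 := S.Sp_norm hz hc2
      have hc : 1 ≤ c := hc0'.le.trans hc1
      rw [norm_smul, Real.norm_eq_abs, abs_of_pos (by linarith)] at h3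
      nlinarith [norm_nonneg κ]
    have h3 := (abs_le.1 (abs_real_inner_le_norm (w1 - κ) g)).1
    have h4 := norm_sub_le w1 κ
    rw [hg, mul_one] at h3
    linarith
  -- first inequality
  have key : ∀ (n1 w1 : E) (t1 t1' : ℝ), ⟪z, n1⟫ = 0 → ⟪g, n1⟫ = 0 → n1 ≠ 0 →
      ⟪n1, w1⟫ = ⟪n, w⟫ → S.Pair z w1 n1 t1 t1' → 0 < G.grad (S.C z + w1) n1 ∧
      t1 * G.grad (S.C z + w1) n1 ≤ - ⟪n1, n1⟫ * G.grad (S.C z + w1) z / ⟪z, z⟫ := by
    intro n1 w1 t1 t1' hz1 hg1 hn1 heq hp1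
    have hmax1 := S.pair_max hz hp1
    have hbd1 := S.max_bd hz hz1 hn1 hp1.1 hmax1
    have hgδ : 0 < ⟪g, n1 + η • g⟫ := by
      rw [inner_add_right, inner_smul_right, hg1, hgg]
      linarith
    obtain ⟨ε, hε, hεt, hrepε⟩ := hseq (n1 + η • g) hgδ
    refine S.tq_upper hz (v := fun j => z + ε j • (n1 + η • g)) (δj := fun _ => n1 + η • g)
      hε hεt tendsto_const_nhds (fun j => rfl) hrepε hGz hbd1 hz1 hn1 hp1 ?_
    intro κ hκ
    have h1 := S.contact_gap hz hz1 hn1 hmax1 hκ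
    rw [heq] at h1
    have h2 := hκg w1 κ hp1.1 hκ
    rw [inner_add_right, inner_smul_right]
    have h3 : η * (-(4 * S.R)) ≤ η * ⟪w1 - κ, g⟫ := mul_le_mul_of_nonneg_left h2 hη0.le
    have h4 : m ≤ ⟪w1 - κ, n1⟫ := h1
    linarith
  obtain ⟨hN1, hI1⟩ := key n w t t' hnz hgn hn rfl hp
  obtain ⟨hN2, hI2⟩ := key (-n) (-w) t' t hnz' (by rw [inner_neg_right, hgn, neg_zero]) hn'
    (by rw [inner_neg_neg]) hp'
  have e1 : G.grad (S.C z + -w) (-n) = G.grad (S.C z + w) n := by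
    rw [rep_grad_add, rep_grad_add, hgr n hnz, hgr (-n) hnz']
    simp only [map_neg, _root_.neg_apply]
    ring
  have e2 : G.grad (S.C z + -w) z + G.grad (S.C z + w) z = 2 * G.grad (S.C z) z := by
    rw [rep_grad_add, rep_grad_add]
    simp only [map_neg, _root_.neg_apply]
    ring
  rw [e1, inner_neg_neg] at hI2
  have hnn : 0 < ⟪n, n⟫ := real_inner_self_pos.2 hn
  have hzz : 0 < ⟪z, z⟫ := real_inner_self_pos.2 hz
  have h5 : (t + t') * G.grad (S.C z + w) n ≤ -(2 * (⟪n, n⟫ * G.grad (S.C z) z / ⟪z, z⟫)) := by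
    have e3 : - ⟪n, n⟫ * G.grad (S.C z + w) z / ⟪z, z⟫ + - ⟪n, n⟫ * G.grad (S.C z + -w) z / ⟪z, z⟫ =
        -(⟪n, n⟫ * (G.grad (S.C z + -w) z + G.grad (S.C z + w) z) / ⟪z, z⟫) := by ring
    rw [e2] at e3
    have e4 : -(⟪n, n⟫ * (2 * G.grad (S.C z) z) / ⟪z, z⟫) =
        -(2 * (⟪n, n⟫ * G.grad (S.C z) z / ⟪z, z⟫)) := by ring
    rw [← e4, ← e3]
    linarith
  have h6 : 0 ≤ (t + t') * G.grad (S.C z + w) n := mul_nonneg htt hN1.le
  have h7 : 0 < ⟪n, n⟫ * G.grad (S.C z) z / ⟪z, z⟫ := by positivity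
  linarith

/-- inside the represented region failure of (N) means `ν > 0` -/
theorem nu_pos {G : Quad} {v : E} {ρ : ℝ} (hv : v ≠ 0) (hρ : 0 < ρ)
    (hrep : ∀ v', ‖v' - v‖ < ρ → S.Rep G v') (hN : ¬ S.Nn v) : 0 < G.grad (S.C v) v := by
  by_contra hν
  push Not at hν
  apply hN
  have hε0 : Tendsto (fun j : ℕ => 1 / ((j : ℝ) + 1)) atTop (𝓝 0) :=
    tendsto_one_div_add_atTop_nhds_zero_nat
  have hGv : S.Rep G v := hrep v (by simpa using hρ)
  obtain ⟨hgr, hpos, hneg⟩ := S.rep_center hv hGv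
  have hvv : 0 < ⟪v, v⟫ := real_inner_self_pos.2 hv
  -- the case `n ⊥ v`
  have main : ∀ n : E, ⟪v, n⟫ = 0 → ∃ (w : E) (t t' : ℝ), S.Pair v w n t t' ∧ 0 ≤ t + t' := by
    intro n hnz
    rcases eq_or_ne n 0 with rfl | hn
    · have h0 : (0 : E) ∈ S.Sp v := S.Sp_ball hv (by simp) (by
        have := S.r_pos
        simp; linarith)
      refine ⟨0, 0, 0, ⟨h0, ?_, ?_⟩, by simp⟩ <;>
      · intro x _
        simp
    -- maximum of `n`
    have hne : (S.Sp v).Nonempty := ⟨0, S.Sp_ball hv (by simp) (by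
        have := S.r_pos
        simp; linarith)⟩
    obtain ⟨w, hw, hwmax⟩ := (S.Sp_compact v).exists_isMaxOn hne
      (f := fun x => ⟪n, x⟫) (by fun_prop)
    have hmax : ∀ w' ∈ S.Sp v, ⟪n, w'⟫ ≤ ⟪n, w⟫ := fun w' hw' => hwmax hw'
    obtain ⟨t, t', hp⟩ := S.pair_exists_n hv hw hmax
    refine ⟨w, t, t', hp, ?_⟩
    have hnwpos := S.max_pos hv hnz hn hmax
    have hp' := S.pair_swap hv hp
    have hnz' : ⟪v, -n⟫ = 0 := by rw [inner_neg_right, hnz, neg_zero]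
    have hn' : -n ≠ 0 := neg_ne_zero.2 hn
    have hR := S.R_pos
    have hr := S.r_pos
    have hgap0 : 0 < ⟪n, w⟫ * (1 - 1 / (1 + S.r / (2 * S.R))) := by
      apply mul_pos hnwpos
      have : 0 < S.r / (2 * S.R) := by positivity
      rw [sub_pos, div_lt_one (by linarith)]
      linarith
    have key : ∀ (n1 w1 : E) (t1 t1' : ℝ), ⟪v, n1⟫ = 0 → n1 ≠ 0 → ⟪n1, w1⟫ = ⟪n, w⟫ →
        S.Pair v w1 n1 t1 t1' →
        - ⟪n1, n1⟫ * G.grad (S.C v + w1) v / ⟪v, v⟫ ≤ t1 * G.grad (S.C v + w1) n1 := by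
      intro n1 w1 t1 t1' hz1 hn1 heq hp1
      have hmax1 := S.pair_max hv hp1
      have hbd1 := S.max_bd hv hz1 hn1 hp1.1 hmax1
      have hn1n : 0 < ‖n1‖ := norm_pos_iff.2 hn1
      set s0 := ρ / (2 * ‖n1‖) with hs0
      have hs0' : 0 < s0 := by positivity
      obtain ⟨k, hk, hkv⟩ := S.h_att v
      refine S.tq_lower hv (v := fun j => v + (s0 * (1 / ((j : ℝ) + 1))) • (-n1))
        (δj := fun _ => -n1) (ε := fun j => s0 * (1 / ((j : ℝ) + 1)))
        (fun j => by positivity) (by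
          have := hε0.const_mul s0
          rwa [mul_zero] at this) tendsto_const_nhds (fun j => rfl) (fun j => ?_) hGv hbd1 hz1
        hn1 hp1 ⟨k - S.C v, by rw [add_sub_cancel]; exact ⟨hk, hkv⟩, ?_⟩
      · apply hrep
        rw [add_sub_cancel_left, norm_smul, norm_neg, Real.norm_eq_abs,
          abs_of_pos (by positivity)]
        have h1 : 1 / ((j : ℝ) + 1) ≤ 1 := by
          rw [div_le_one (by positivity)]
          have : (0 : ℝ) ≤ j := Nat.cast_nonneg j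
          linarith
        calc s0 * (1 / ((j : ℝ) + 1)) * ‖n1‖ ≤ s0 * 1 * ‖n1‖ := by gcongr
          _ = ρ / 2 := by rw [hs0]; field_simp
          _ < ρ := by linarith
      · have h1 := S.contact_gap hv hz1 hn1 hmax1 (κ := k - S.C v)
          (by rw [add_sub_cancel]; exact ⟨hk, hkv⟩)
        rw [heq] at h1
        rw [inner_neg_right]
        linarith
    have hI1 := key n w t t' hnz hn rfl hp
    have hI2 := key (-n) (-w) t' t hnz' hn' (by rw [inner_neg_neg]) hp'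
    have e1 : G.grad (S.C v + -w) (-n) = G.grad (S.C v + w) n := by
      rw [rep_grad_add, rep_grad_add, hgr n hnz, hgr (-n) hnz']
      simp only [map_neg, _root_.neg_apply]
      ring
    have e2 : G.grad (S.C v + -w) v + G.grad (S.C v + w) v = 2 * G.grad (S.C v) v := by
      rw [rep_grad_add, rep_grad_add]
      simp only [map_neg, _root_.neg_apply]
      ring
    rw [e1, inner_neg_neg] at hI2
    have hnn : 0 < ⟪n, n⟫ := real_inner_self_pos.2 hn
    have hN1 := S.rep_grad_n_pos hv hGv (S.max_bd hv hnz hn hp.1 hmax) hnz hn hmax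
    have h5 : -(2 * (⟪n, n⟫ * G.grad (S.C v) v / ⟪v, v⟫)) ≤ (t + t') * G.grad (S.C v + w) n := by
      have e3 : - ⟪n, n⟫ * G.grad (S.C v + w) v / ⟪v, v⟫ +
          - ⟪n, n⟫ * G.grad (S.C v + -w) v / ⟪v, v⟫ =
          -(⟪n, n⟫ * (G.grad (S.C v + -w) v + G.grad (S.C v + w) v) / ⟪v, v⟫) := by ring
      rw [e2] at e3
      have e4 : -(⟪n, n⟫ * (2 * G.grad (S.C v) v) / ⟪v, v⟫) =
          -(2 * (⟪n, n⟫ * G.grad (S.C v) v / ⟪v, v⟫)) := by ring
      rw [← e4, ← e3]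
      linarith
    have h7 : ⟪n, n⟫ * G.grad (S.C v) v / ⟪v, v⟫ ≤ 0 := by
      apply div_nonpos_of_nonpos_of_nonneg _ hvv.le
      exact mul_nonpos_of_nonneg_of_nonpos hnn.le hν
    by_contra hcon
    push Not at hcon
    have := mul_neg_of_neg_of_pos hcon hN1
    linarith
  intro n
  set s := ⟪v, n⟫ / ⟪v, v⟫ with hs
  obtain ⟨w, t, t', hp, htt⟩ := main (n - s • v) (by
    rw [inner_sub_right, inner_smul_right, hs, div_mul_cancel₀ _ hvv.ne', sub_self])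
  refine ⟨w, t + s, t' - s, ?_, by linarith⟩
  have := S.pair_shift (s := s) hv hp
  rwa [sub_add_cancel] at this

end Setting
end Pool.Agent.Helper18.BL
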