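import Mathlib
import Pool.Agent.Helper18.BL.T13a

set_option autoImplicit false

open Set MeasureTheory Filter Topology Metric
open scoped RealInnerProductSpace

namespace Pool.Agent.Helper18.BL
namespace Setting
variable (S : Setting)

namespace T15a

lemma ev_add (G : Quad) (a x : E) : G.ev (a + x) = G.ev a + G.grad a x + G.B x x := by
  unfold Quad.ev Quad.grad
  simp only [map_add, add_apply, inner_add_right]
  rw [G.symm x a]
  ring

lemma grad_add (G : Quad) (a b x : E) : G.grad (a + b) x = G.grad a x + 2 * G.B b x := by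
  unfold Quad.grad
  rw [map_add, add_apply]
  ring

lemma grad_smul (G : Quad) (a x : E) (c : ℝ) : G.grad a (c • x) = c * G.grad a x := by
  unfold Quad.grad
  rw [map_smul, inner_smul_right, smul_eq_mul]
  ring

lemma grad_addr (G : Quad) (a x y : E) : G.grad a (x + y) = G.grad a x + G.grad a y := by
  unfold Quad.grad
  rw [map_add, inner_add_right]
  ring

lemma ev_convex (G : Quad) (a b : E) (s : ℝ) :
    G.ev ((1 - s) • a + s • b) =
      (1 - s) * G.ev a + s * G.ev b - s * (1 - s) * G.B (b - a) (b - a) := by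
  have e1 : (1 - s) • a + s • b = a + s • (b - a) := by
    rw [smul_sub, sub_smul, one_smul]; abel
  have e2 : b = a + (b - a) := by abel
  have e3 : G.ev b = G.ev a + G.grad a (b - a) + G.B (b - a) (b - a) := by
    conv_lhs => rw [e2]
    exact ev_add G a (b - a)
  rw [e1, ev_add, grad_smul, e3]
  simp only [map_smul, smul_apply, smul_eq_mul]
  ring

/-- points on both sides -/
lemma exists_above {v1 y : E} (hy : y ∉ S.K) (hy1 : ⟪v1, y⟫ = S.h v1) :
    ∃ u : E, ∀ ε : ℝ, 0 < ε → S.h (v1 + ε • u) < ⟪v1 + ε • u, y⟫ := by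
  obtain ⟨f, c, hf1, hf2⟩ := geometric_hahn_banach_closed_point S.K_convex
    S.K_compact.isClosed hy
  set u : E := (InnerProductSpace.toDual ℝ E).symm f with hu
  have huf : ∀ x, ⟪u, x⟫ = f x := fun x => by
    rw [hu]; exact InnerProductSpace.toDual_symm_apply
  refine ⟨u, fun ε hε => ?_⟩
  obtain ⟨x, hxK, hx⟩ := S.h_att u
  have h1 : S.h u < ⟪u, y⟫ := by
    rw [← hx, huf, huf]
    exact (hf1 x hxK).trans hf2
  have h2 := S.h_add_le v1 (ε • u)
  rw [S.h_smul hε.le] at h2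
  rw [inner_add_left, real_inner_smul_left, hy1]
  have := mul_lt_mul_of_pos_left h1 hε
  linarith

lemma exists_below {v1 y : E} (hy : y ∉ S.K) (hy1 : ⟪v1, y⟫ = S.h v1) :
    ∃ u : E, ∀ ε : ℝ, 0 < ε → ⟪v1 + ε • u, y⟫ < S.h (v1 + ε • u) := by
  obtain ⟨k, hkK, hk⟩ := S.h_att v1
  refine ⟨k - y, fun ε hε => ?_⟩
  have hne : k - y ≠ 0 := fun h => hy (by rw [← sub_eq_zero.1 h]; exact hkK)
  have h1 := S.h_le (v1 + ε • (k - y)) k hkK
  have h2 : ⟪v1 + ε • (k - y), k⟫ - ⟪v1 + ε • (k - y), y⟫ = ε * ‖k - y‖ ^ 2 := by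
    rw [← inner_sub_right, inner_add_left, real_inner_smul_left, real_inner_self_eq_norm_sq,
      inner_sub_right, hk, hy1]
    ring
  have h3 : 0 < ε * ‖k - y‖ ^ 2 := by
    have := norm_pos_iff.2 hne
    positivity
  linarith

/-- a plane close to `v1` through a point of the arc -/
lemma exists_root {v1 u : E} {ρ : ℝ} (hρ : 0 < ρ) {p : ℝ → E} (hp : Continuous p) {a b : ℝ}
    {σ : ℝ} (hσ : σ = 1 ∨ σ = -1)
    (hb : ∀ ε : ℝ, 0 < ε → 0 < σ * (⟪v1 + ε • u, p b⟫ - S.h (v1 + ε • u)))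
    (ha : σ * (⟪v1, p a⟫ - S.h v1) < 0) :
    ∃ (v : E) (τ : ℝ), ‖v - v1‖ < ρ ∧ τ ∈ uIcc a b ∧ τ ≠ b ∧ ⟪v, p τ⟫ = S.h v := by
  have hc : Continuous fun ε : ℝ => σ * (⟪v1 + ε • u, p a⟫ - S.h (v1 + ε • u)) := by
    have h1 : Continuous fun ε : ℝ => v1 + ε • u := by fun_prop
    exact continuous_const.mul ((h1.inner continuous_const).sub (S.h_cont.comp h1))
  have h0 : ∀ᶠ ε in 𝓝 (0 : ℝ), σ * (⟪v1 + ε • u, p a⟫ - S.h (v1 + ε • u)) < 0 := by
    have := hc.continuousAt (x := 0)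
    apply this.eventually_lt continuousAt_const
    simpa using ha
  have h1 : ∀ᶠ ε in 𝓝 (0 : ℝ), ‖(v1 + ε • u) - v1‖ < ρ := by
    have hc2 : Continuous fun ε : ℝ => ‖(v1 + ε • u) - v1‖ := by fun_prop
    apply hc2.continuousAt.eventually_lt continuousAt_const
    simpa using hρ
  obtain ⟨δ, hδ, hδ2⟩ := Metric.eventually_nhds_iff.1 (h0.and h1)
  have hε : (0 : ℝ) < δ / 2 := by positivity
  obtain ⟨h2, h3⟩ := hδ2 (y := δ / 2) (by
    rw [Real.dist_eq, sub_zero, abs_of_pos hε]; linarith)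
  set v := v1 + (δ / 2) • u with hv
  have h4 := hb (δ / 2) hε
  rw [← hv] at h4
  have hcont : ContinuousOn (fun τ : ℝ => σ * (⟪v, p τ⟫ - S.h v)) (uIcc a b) := by
    apply Continuous.continuousOn
    exact continuous_const.mul ((continuous_const.inner hp).sub continuous_const)
  have hmem : (0 : ℝ) ∈ uIcc (σ * (⟪v, p a⟫ - S.h v)) (σ * (⟪v, p b⟫ - S.h v)) :=
    mem_uIcc.2 (Or.inl ⟨h2.le, h4.le⟩)
  obtain ⟨τ, hτ, hτ2⟩ := intermediate_value_uIcc hcont hmem
  refine ⟨v, τ, h3, hτ, ?_, ?_⟩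
  · rintro rfl
    simp only at hτ2
    rw [hτ2] at h4
    exact lt_irrefl _ h4
  · simp only at hτ2
    rcases hσ with h | h <;> · subst h; linarith

/-- timelike separation of the points of the meridian arc -/
lemma arc_lt {C G α β s t M : ℝ} (hC : 0 < C) (hG : 0 < G) (hM : 0 < M) (hα : 0 ≤ α)
    (hβ : 0 ≤ β) (h1 : α ^ 2 * M = C + G * s ^ 2) (h2 : β ^ 2 * M = C + G * t ^ 2)
    (hst : s ≠ t) : (α - β) ^ 2 * M - G * (s - t) ^ 2 < 0 := by
  have h3 : (C + G * s * t) ^ 2 < (α * β * M) ^ 2 := by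
    have e : (α * β * M) ^ 2 = (C + G * s ^ 2) * (C + G * t ^ 2) := by
      rw [← h1, ← h2]; ring
    rw [e]
    have : 0 < C * G * (s - t) ^ 2 := by
      have : 0 < (s - t) ^ 2 := by
        have := sub_ne_zero.2 hst
        positivity
      positivity
    nlinarith
  have h4 : C + G * s * t < α * β * M := lt_of_pow_lt_pow_left₀ 2 (by positivity) h3
  nlinarith

lemma sign_lem {G : Quad} {v1 e0 x : E} {M : ℝ}
    (h12 : ∀ x, ⟪v1, x⟫ = 0 → x ≠ 0 → 0 < G.B x x)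
    (hB : ∀ α τ : ℝ, G.B (α • e0 + τ • x) (α • e0 + τ • x) = α ^ 2 * M + τ ^ 2 * G.B x x)
    (hM : 0 ≤ M) (hpos : 0 < ⟪v1, x⟫) {a d : ℝ} (hd : d ≠ 0)
    (h1 : a ^ 2 * M + d ^ 2 * G.B x x < 0) : 0 < d * (a * ⟪v1, e0⟫ + d * ⟪v1, x⟫) := by
  by_contra hcon
  push Not at hcon
  have hd2 : 0 < d ^ 2 := by positivity
  obtain ⟨A, hA⟩ : ∃ A, A = d * (a * ⟪v1, e0⟫) := ⟨_, rfl⟩
  obtain ⟨D, hD⟩ : ∃ D, D = d ^ 2 * ⟪v1, x⟫ := ⟨_, rfl⟩
  have hDpos : 0 < D := by rw [hD]; positivity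
  have hAD : A + D ≤ 0 := by
    rw [hA, hD]
    have : d * (a * ⟪v1, e0⟫) + d ^ 2 * ⟪v1, x⟫ = d * (a * ⟪v1, e0⟫ + d * ⟪v1, x⟫) := by ring
    rw [this]; exact hcon
  have hAneg : A < 0 := by linarith
  obtain ⟨m, hm⟩ : ∃ m, m = -D / A := ⟨_, rfl⟩
  have hm0 : 0 < m := by
    rw [hm]; exact div_pos_of_neg_of_neg (by linarith) hAneg
  have hm1 : m ≤ 1 := by
    rw [hm, div_le_one_of_neg hAneg]; linarith
  have hmA : m * A = -D := by rw [hm]; exact div_mul_cancel₀ _ hAneg.ne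
  obtain ⟨X, hX⟩ : ∃ X, X = (m * a) • e0 + d • x := ⟨_, rfl⟩
  have hX0 : ⟪v1, X⟫ = 0 := by
    have h2 : d * ⟪v1, X⟫ = 0 := by
      rw [hX, inner_add_right, inner_smul_right, inner_smul_right]
      have : d * (m * a * ⟪v1, e0⟫ + d * ⟪v1, x⟫) = m * A + D := by
        rw [hA, hD]; ring
      rw [this, hmA]; ring
    exact (mul_eq_zero.1 h2).resolve_left hd
  have hBX : G.B X X < 0 := by
    rw [hX, hB]
    have h3 : (m * a) ^ 2 * M ≤ a ^ 2 * M := by
      have h4 : m ^ 2 ≤ 1 := by nlinarith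
      have h5 : 0 ≤ a ^ 2 * M := by positivity
      calc (m * a) ^ 2 * M = m ^ 2 * (a ^ 2 * M) := by ring
        _ ≤ 1 * (a ^ 2 * M) := mul_le_mul_of_nonneg_right h4 h5
        _ = a ^ 2 * M := one_mul _
    linarith
  have hXne : X ≠ 0 := by
    intro h
    rw [h] at hBX
    simp at hBX
  linarith [h12 X hX0 hXne]

lemma core {G : Quad} {q v1 : E} {ρ : ℝ}
    (hev : ∀ x, G.ev (q + x) = G.B x x + G.ev q) (hq : G.ev q < 0) (hv1 : v1 ≠ 0) (hρ : 0 < ρ)
    (hrep : ∀ v, ‖v - v1‖ < ρ → S.Rep G v) {x : E} (hx : G.B x x < 0) (hpos : 0 < ⟪v1, x⟫) :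
    False := by
  have hR1 : S.Rep G v1 := hrep v1 (by simpa using hρ)
  obtain ⟨h11, h12, h13⟩ := S.rep_center hv1 hR1
  -- a boundary point `y` of the section
  obtain ⟨e, he0, hne⟩ : ∃ e : E, ⟪v1, e⟫ = 0 ∧ e ≠ 0 := by
    obtain ⟨T, hT⟩ := exists_par v1
    obtain ⟨h1, h2⟩ := hT hv1
    refine ⟨T (1, 0), h2 _, fun h => ?_⟩
    have := h1 (h.trans (map_zero T).symm)
    simp at this
  have hBe := h12 e he0 hne
  set s : ℝ := Real.sqrt (-G.ev (S.C v1) / G.B e e) with hs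
  have hs0 : 0 < s := Real.sqrt_pos.2 (div_pos (by linarith) hBe)
  have hs2 : s ^ 2 * G.B e e = -G.ev (S.C v1) := by
    rw [hs, Real.sq_sqrt (div_pos (by linarith) hBe).le]
    field_simp
  have hline : ∀ c : ℝ, G.ev (S.C v1 + c • e) = G.ev (S.C v1) + c ^ 2 * G.B e e := by
    intro c
    rw [ev_add, grad_smul, h11 e he0]
    simp only [map_smul, smul_apply, smul_eq_mul]
    ring
  set y : E := S.C v1 + s • e with hy
  have hGy : G.ev y = 0 := by rw [hy, hline, hs2]; ring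
  have hyv : ∀ c : ℝ, ⟪v1, S.C v1 + c • e⟫ = S.h v1 := by
    intro c
    rw [inner_add_right, inner_smul_right, he0, S.C_h v1 hv1]; ring
  have hy1 : ⟪v1, y⟫ = S.h v1 := hyv s
  have hyK : y ∉ S.K := by
    intro hyK
    have hne' : 0 < ‖e‖ := norm_pos_iff.2 hne
    have h1 : S.C v1 + (s + S.r / ‖e‖) • e ∈ S.K1 := by
      apply S.ball_sub y hyK
      rw [mem_closedBall, dist_eq_norm, hy]
      have : S.C v1 + (s + S.r / ‖e‖) • e - (S.C v1 + s • e) = (S.r / ‖e‖) • e := by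
        rw [add_smul]; abel
      rw [this, norm_smul, Real.norm_of_nonneg (div_nonneg S.r_pos.le hne'.le)]
      field_simp
      exact le_refl _
    have h2 := (hR1 _ (hyv _)).1 h1
    rw [hline] at h2
    have h3 : 0 < S.r / ‖e‖ := div_pos S.r_pos hne'
    nlinarith [mul_pos (mul_pos h3 hs0) hBe, mul_pos (mul_pos h3 h3) hBe]
  -- decomposition
  have hBx : G.B x x ≠ 0 := hx.ne
  set τ0 : ℝ := G.B (y - q) x / G.B x x with hτ0
  set e0 : E := (y - q) - τ0 • x with he0'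
  have hxe : G.B e0 x = 0 := by
    rw [he0', map_sub, map_smul, sub_apply, smul_apply,
      smul_eq_mul, hτ0]
    field_simp
    ring
  have hex : G.B x e0 = 0 := by rw [G.symm]; exact hxe
  have hB : ∀ α τ : ℝ, G.B (α • e0 + τ • x) (α • e0 + τ • x) =
      α ^ 2 * G.B e0 e0 + τ ^ 2 * G.B x x := by
    intro α τ
    simp only [map_add, map_smul, add_apply, smul_apply,
      smul_eq_mul, hxe, hex]
    ring
  set C : ℝ := -G.ev q with hC
  have hCpos : 0 < C := by rw [hC]; linarith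
  set Γ : ℝ := -G.B x x with hΓ
  have hΓpos : 0 < Γ := by rw [hΓ]; linarith
  have hM : G.B e0 e0 = C + Γ * τ0 ^ 2 := by
    have h1 : y = q + ((1 : ℝ) • e0 + τ0 • x) := by rw [he0']; simp
    have h2 := hGy
    rw [h1, hev, hB] at h2
    rw [hC, hΓ]
    linarith
  set M : ℝ := G.B e0 e0 with hMdef
  have hMpos : 0 < M := by rw [hM]; positivity
  set α : ℝ → ℝ := fun τ => Real.sqrt ((C + Γ * τ ^ 2) / M) with hα
  have hα0 : ∀ τ, 0 ≤ α τ := fun τ => Real.sqrt_nonneg _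
  have hα2 : ∀ τ, α τ ^ 2 * M = C + Γ * τ ^ 2 := by
    intro τ
    rw [hα]
    simp only
    rw [Real.sq_sqrt (by positivity)]
    field_simp
  have hατ0 : α τ0 = 1 := by
    rw [hα]; simp only
    rw [← hM, div_self hMpos.ne', Real.sqrt_one]
  set p : ℝ → E := fun τ => q + (α τ • e0 + τ • x) with hp
  have hpc : Continuous p := by
    rw [hp, hα]
    fun_prop
  have hp0 : p τ0 = y := by
    simp only [hp]
    rw [hατ0, he0']; simp
  have hGp : ∀ τ, G.ev (p τ) = 0 := by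
    intro τ
    simp only [hp]
    rw [hev, hB, hα2]
    rw [hC, hΓ]; ring
  have hsep : ∀ s t, s ≠ t → G.B (p t - p s) (p t - p s) < 0 := by
    intro s t hst
    have : p t - p s = (α t - α s) • e0 + (t - s) • x := by
      simp only [hp]
      rw [sub_smul, sub_smul]; abel
    rw [this, hB]
    have := arc_lt hCpos hΓpos hMpos (hα0 t) (hα0 s) (hα2 t) (hα2 s) hst.symm
    rw [hΓ] at this
    linarith
  -- sign of `⟪v1, p τ - y⟫`
  have hsign : ∀ τ, τ ≠ τ0 → 0 < (τ - τ0) * (⟪v1, p τ⟫ - S.h v1) := by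
    intro τ hτ
    have hd : τ - τ0 ≠ 0 := sub_ne_zero.2 hτ
    have e2 : p τ - p τ0 = (α τ - 1) • e0 + (τ - τ0) • x := by
      simp only [hp, hατ0]
      rw [sub_smul, sub_smul]; abel
    have e1 : ⟪v1, p τ⟫ - S.h v1 = (α τ - 1) * ⟪v1, e0⟫ + (τ - τ0) * ⟪v1, x⟫ := by
      rw [← hy1, ← hp0, ← inner_sub_right, e2, inner_add_right, inner_smul_right, inner_smul_right]
    have h1 := hsep τ0 τ hτ.symm
    rw [e2, hB] at h1
    rw [e1]
    exact sign_lem h12 hB hMpos.le hpos hd h1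
  -- two planes
  obtain ⟨u, hu⟩ := exists_above S hyK hy1
  obtain ⟨u', hu'⟩ := exists_below S hyK hy1
  have hlow : (1 : ℝ) * (⟪v1, p (τ0 - 1)⟫ - S.h v1) < 0 := by
    have h := hsign (τ0 - 1) (fun h => by linarith)
    have e : τ0 - 1 - τ0 = -1 := by ring
    rw [e] at h
    linarith
  have hhigh : (-1 : ℝ) * (⟪v1, p (τ0 + 1)⟫ - S.h v1) < 0 := by
    have h := hsign (τ0 + 1) (fun h => by linarith)
    have e : τ0 + 1 - τ0 = 1 := by ring
    rw [e] at h
    linarith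
  obtain ⟨w, s1, hw, hs1, hs1', hs1''⟩ := exists_root S (u := u) hρ hpc (a := τ0 - 1) (b := τ0)
    (Or.inl rfl) (fun ε hε => by rw [hp0]; linarith [hu ε hε]) hlow
  obtain ⟨w', s2, hw', hs2, hs2', hs2''⟩ := exists_root S (u := u') hρ hpc (a := τ0 + 1) (b := τ0)
    (Or.inr rfl) (fun ε hε => by rw [hp0]; linarith [hu' ε hε]) hhigh
  have hm1 : p s1 ∈ S.K1 := (hrep w hw _ hs1'').2 (hGp s1).le
  have hm2 : p s2 ∈ S.K1 := (hrep w' hw' _ hs2'').2 (hGp s2).le
  have hlt1 : s1 < τ0 := by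
    rw [uIcc_of_le (by linarith)] at hs1
    exact lt_of_le_of_ne hs1.2 hs1'
  have hlt2 : τ0 < s2 := by
    rw [uIcc_of_ge (by linarith)] at hs2
    exact lt_of_le_of_ne hs2.1 (Ne.symm hs2')
  have hA1 : ⟪v1, p s1⟫ - S.h v1 < 0 := by
    have h := hsign s1 hlt1.ne
    by_contra hcon
    push Not at hcon
    nlinarith
  have hA2 : 0 < ⟪v1, p s2⟫ - S.h v1 := by
    have h := hsign s2 hlt2.ne'
    by_contra hcon
    push Not at hcon
    nlinarith
  set A1 := ⟪v1, p s1⟫ - S.h v1 with hA1d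
  set A2 := ⟪v1, p s2⟫ - S.h v1 with hA2d
  have hden : 0 < A2 - A1 := by linarith
  have hs3 : 0 < -A1 / (A2 - A1) := div_pos (by linarith) hden
  have hs4 : -A1 / (A2 - A1) < 1 := by rw [div_lt_one hden]; linarith
  have hs5 : (-A1 / (A2 - A1)) * (A2 - A1) = -A1 := div_mul_cancel₀ _ hden.ne'
  set θ := -A1 / (A2 - A1) with hθ
  have hmem : (1 - θ) • p s1 + θ • p s2 ∈ S.K1 :=
    S.K1_convex hm1 hm2 (by linarith) hs3.le (by ring)
  have hpl : ⟪v1, (1 - θ) • p s1 + θ • p s2⟫ = S.h v1 := by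
    rw [inner_add_right, inner_smul_right, inner_smul_right]
    have e1 : ⟪v1, p s1⟫ = A1 + S.h v1 := by rw [hA1d]; ring
    have e2 : ⟪v1, p s2⟫ = A2 + S.h v1 := by rw [hA2d]; ring
    rw [e1, e2]
    linarith
  have hle := (hR1 _ hpl).1 hmem
  rw [ev_convex, hGp, hGp] at hle
  have hne12 := hsep s1 s2 (by linarith : s1 < s2).ne
  have : 0 < θ * (1 - θ) := mul_pos hs3 (by linarith)
  nlinarith

end T15a

open T15a in
/-- proof text §8: otherwise `a ⊥_B z^⊥` with `B a a ≤ 0`. `B a a = 0` gives `ν = 0`. `B a a < 0`: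
for `e ∈ z^⊥`, `B e e = |c|`, the points `p(τ) = q0 + r(τ) e + τ a`, `r = √(1+|γ|τ²/|c|)`, are
pairwise timelike separated, and if `p, p' ∈ K1` lie on `G = 0` and are separated by a represented
plane `H_v` then `B (p'-p) (p'-p) ≥ 0`. -/
theorem posdef {G : Quad} {z v1 : E} {ρ : ℝ} (hz : z ≠ 0) (hRz : S.Rep G z)
    (hg : ∀ x, G.grad (S.C z) x = 0) (hv1 : v1 ≠ 0) (hρ : 0 < ρ)
    (hrep : ∀ v, ‖v - v1‖ < ρ → S.Rep G v) (hν : 0 < G.grad (S.C v1) v1) :
    ∀ x, x ≠ 0 → 0 < G.B x x := by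
  have hR1 : S.Rep G v1 := hrep v1 (by simpa using hρ)
  obtain ⟨_, _, hz3⟩ := S.rep_center hz hRz
  obtain ⟨h11, h12, h13⟩ := S.rep_center hv1 hR1
  have hev : ∀ x, G.ev (S.C z + x) = G.B x x + G.ev (S.C z) := by
    intro x
    rw [ev_add, hg]; ring
  have hnn : ∀ x, 0 ≤ G.B x x := by
    intro x
    by_contra hx
    push Not at hx
    rcases lt_trichotomy ⟪v1, x⟫ 0 with h | h | h
    · refine core S hev hz3 hv1 hρ hrep (x := -x) ?_ ?_
      · simpa using hx
      · rw [inner_neg_right]; linarith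
    · have hne : x ≠ 0 := by
        rintro rfl
        simp at hx
      linarith [h12 x h hne]
    · exact core S hev hz3 hv1 hρ hrep hx h
  intro x hx
  rcases (hnn x).lt_or_eq with h | h
  · exact h
  exfalso
  have hx0 : ∀ y, G.B y x = 0 := by
    intro y
    by_contra hne
    have hyy := hnn y
    set b := G.B y x with hb
    set c := G.B y y with hc
    have hxy : G.B x y = b := by rw [G.symm, hb]
    have key : ∀ t : ℝ, 0 ≤ 2 * t * b + t ^ 2 * c := by
      intro t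
      have := hnn (x + t • y)
      simp only [map_add, map_smul, add_apply, smul_apply, smul_eq_mul] at this
      rw [← h, hxy, ← hb, ← hc] at this
      nlinarith
    have h1 := key (-b / (c + 1))
    have hc1 : 0 < c + 1 := by linarith
    have h2 : 2 * (-b / (c + 1)) * b + (-b / (c + 1)) ^ 2 * c =
        -(b ^ 2 * (c + 2)) / (c + 1) ^ 2 := by
      field_simp
      ring
    rw [h2] at h1
    have h3 : 0 < b ^ 2 * (c + 2) / (c + 1) ^ 2 := by positivity
    rw [neg_div] at h1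
    linarith
  have h1 : G.grad (S.C v1) x = 0 := by
    have e : S.C v1 = S.C z + (S.C v1 - S.C z) := by abel
    rw [e, grad_add, hg, hx0]; ring
  have hvv : 0 < ⟪v1, v1⟫ := real_inner_self_pos.2 hv1
  set c := ⟪v1, x⟫ / ⟪v1, v1⟫ with hc
  have h2 : ⟪v1, x - c • v1⟫ = 0 := by
    rw [inner_sub_right, inner_smul_right, hc]
    field_simp
    ring
  have h3 := h11 _ h2
  have h4 : G.grad (S.C v1) x = c * G.grad (S.C v1) v1 + G.grad (S.C v1) (x - c • v1) := by
    rw [← grad_smul, ← grad_addr]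
    congr 1
    abel
  rw [h1, h3, add_zero] at h4
  have h5 : c = 0 := by
    rcases mul_eq_zero.1 h4.symm with h | h
    · exact h
    · linarith
  have h6 : ⟪v1, x⟫ = 0 := by
    rw [h5, zero_smul, sub_zero] at h2
    exact h2
  linarith [h12 x h6 hx]

end Setting
end Pool.Agent.Helper18.BL
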