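import Mathlib
import Pool.Agent.Helper18.BL.T1
import Pool.Agent.Helper14.BL.Bridge

set_option autoImplicit false

open Set MeasureTheory Filter Topology Metric
open scoped RealInnerProductSpace

namespace Pool.Agent.Helper18.BL
namespace Setting
variable (S : Setting)

/-- from an interior point to an outer point one crosses the frontier -/
theorem exists_crossing {A : Set E} (hA : IsClosed A) {z x : E} (hz : z ∈ interior A)
    (hx : x ∉ A) : ∃ t : ℝ, 0 < t ∧ t < 1 ∧ z + t • (x - z) ∈ frontier A := by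
  let γ : ℝ → E := fun t => z + t • (x - z)
  have hγ : Continuous γ := by fun_prop
  have hpre : IsPreconnected (γ '' Icc 0 1) := (isPreconnected_Icc).image _ hγ.continuousOn
  have h0 : γ 0 = z := by simp [γ]
  have h1 : γ 1 = x := by simp [γ]
  have h5 : ∃ t ∈ Icc (0 : ℝ) 1, γ t ∈ frontier A := by
    by_contra hcon
    push Not at hcon
    obtain ⟨y', -, hy1, hy2⟩ := hpre (interior A) Aᶜ isOpen_interior hA.isOpen_compl (by
        rintro _ ⟨t, ht, rfl⟩
        by_cases hzi : γ t ∈ interior A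
        · exact Or.inl hzi
        · right
          intro hzK
          apply hcon t ht
          rw [hA.frontier_eq]
          exact ⟨hzK, hzi⟩)
      ⟨z, ⟨0, ⟨le_rfl, zero_le_one⟩, h0⟩, hz⟩
      ⟨x, ⟨1, ⟨zero_le_one, le_rfl⟩, h1⟩, hx⟩
    exact hy2 (interior_subset hy1)
  obtain ⟨t, ht, hf⟩ := h5
  rw [hA.frontier_eq] at hf
  refine ⟨t, ?_, ?_, ?_⟩
  · rcases eq_or_lt_of_le ht.1 with h | h
    · exfalso
      rw [← h, h0] at hf
      exact hf.2 hz
    · exact h
  · rcases eq_or_lt_of_le ht.2 with h | h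
    · exfalso
      rw [h, h1] at hf
      exact hx hf.1
    · exact h
  · rw [hA.frontier_eq]
    exact hf

theorem covering {q0 y : E} (hq : q0 ∈ interior S.K1) (hy : y ∈ frontier S.K1) :
    ∃ v : E, v ≠ 0 ∧ ⟪v, y⟫ = S.h v ∧ 0 < ⟪v, y - q0⟫ := by
  have hyK : y ∈ S.K1 := S.K1_compact.isClosed.frontier_subset hy
  have hyi : y ∉ interior S.K1 := by
    rw [S.K1_compact.isClosed.frontier_eq] at hy
    exact hy.2
  set d := y - q0 with hd
  have hd0 : d ≠ 0 := by
    intro h0
    apply hyi
    rw [sub_eq_zero.1 h0]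
    exact hq
  -- the ray
  let ray : Set E := (fun s : ℝ => y + s • d) '' Ici 0
  have hray_conv : Convex ℝ ray := by
    rintro _ ⟨s, hs, rfl⟩ _ ⟨s', hs', rfl⟩ a b ha hb hab
    refine ⟨a * s + b * s', ?_, ?_⟩
    · simp only [mem_Ici] at hs hs' ⊢
      positivity
    · simp only [smul_add, smul_smul]
      have : y = (a + b) • y := by rw [hab, one_smul]
      conv_lhs => rw [this]
      module
  have hray_closed : IsClosed ray := by
    have he : IsClosedEmbedding (fun s : ℝ => y + s • d) := by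
      have h1 : IsClosedEmbedding (fun s : ℝ => s • d) := isClosedEmbedding_smul_left hd0
      exact (Homeomorph.addLeft y).isClosedEmbedding.comp h1
    exact he.isClosedMap _ isClosed_Ici
  have hdisj : Disjoint S.K ray := by
    rw [Set.disjoint_left]
    rintro _ hk ⟨s, hs, rfl⟩
    simp only [mem_Ici] at hs
    apply hyi
    have h1 : y + s • d ∈ interior S.K1 := S.body14.sub hk
    have h2 : y = (s / (1 + s)) • q0 + (1 / (1 + s)) • (y + s • d) := by
      have h3 : (1 + s) ≠ 0 := by positivity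
      have h4 : (1 + s) • y = (1 + s) • ((s / (1 + s)) • q0 + (1 / (1 + s)) • (y + s • d)) := by
        rw [smul_add, smul_smul, smul_smul, mul_div_cancel₀ _ h3, mul_div_cancel₀ _ h3, one_smul, hd]
        module
      exact smul_right_injective E h3 h4
    rw [h2]
    apply S.K1_convex.interior hq h1 (by positivity) (by positivity)
    field_simp
    ring
  obtain ⟨f, c1, c2, hf1, hc12, hf2⟩ := geometric_hahn_banach_compact_closed S.K_convex
    S.K_compact hray_conv hray_closed hdisj
  obtain ⟨F, hF⟩ : ∃ F : E, ∀ x, ⟪F, x⟫ = f x :=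
    ⟨(InnerProductSpace.toDual ℝ E).symm f, fun x => InnerProductSpace.toDual_symm_apply⟩
  have hFy : S.h F < ⟪F, y⟫ := by
    obtain ⟨k, hk, hk'⟩ := S.h_att F
    have h1 := hf1 k hk
    have h2 := hf2 y ⟨0, by simp, by simp⟩
    rw [← hk', hF, hF]
    linarith
  have hFd : 0 ≤ ⟪F, d⟫ := by
    by_contra hneg
    push Not at hneg
    set s : ℝ := (⟪F, y⟫ - c2) / (-⟪F, d⟫) with hs
    have h2 := hf2 y ⟨0, by simp, by simp⟩
    rw [← hF] at h2
    have hs0 : 0 ≤ s := div_nonneg (by linarith) (by linarith)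
    have h3 := hf2 (y + s • d) ⟨s, hs0, rfl⟩
    rw [← hF, inner_add_right, inner_smul_right] at h3
    have h4 : s * ⟪F, d⟫ = -(⟪F, y⟫ - c2) := by
      rw [hs]
      field_simp [hneg.ne]
    linarith
  let g : E → ℝ := fun v => ⟪v, y⟫ - S.h v
  have hg : Continuous g := by
    have := S.h_cont
    fun_prop
  -- perturb
  obtain ⟨F', hF'1, hF'2⟩ : ∃ F' : E, 0 < g F' ∧ 0 < ⟪F', d⟫ := by
    have hopen : IsOpen (g ⁻¹' Ioi 0) := isOpen_Ioi.preimage hg
    have hmem : F ∈ g ⁻¹' Ioi 0 := by
      simp only [mem_preimage, mem_Ioi, g]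
      linarith
    obtain ⟨ε, hε, hball⟩ := Metric.isOpen_iff.1 hopen F hmem
    have hdn : 0 < ‖d‖ := norm_pos_iff.2 hd0
    refine ⟨F + (ε / 2 / ‖d‖) • d, ?_, ?_⟩
    · have : F + (ε / 2 / ‖d‖) • d ∈ ball F ε := by
        rw [mem_ball, dist_eq_norm, add_sub_cancel_left, norm_smul, Real.norm_eq_abs,
          abs_of_pos (by positivity), div_mul_cancel₀ _ hdn.ne']
        linarith
      exact hball this
    · rw [inner_add_left, real_inner_smul_left, real_inner_self_eq_norm_sq]
      have : 0 < ε / 2 / ‖d‖ * ‖d‖ ^ 2 := by positivity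
      linarith
  -- a direction orthogonal to d with negative g
  obtain ⟨w, hw0, hwd, hwg⟩ : ∃ w : E, w ≠ 0 ∧ ⟪d, w⟫ = 0 ∧ g w < 0 := by
    obtain ⟨e, f', hef, he, -, -⟩ := Pool.Agent.Helper14.BL.exists_perp_basis d hd0
    have he0 := Pool.Agent.Helper14.BL.ne_zero_left hef
    have hwid := S.h_width he0
    by_cases h1 : g e < 0
    · exact ⟨e, he0, he, h1⟩
    · refine ⟨-e, by simpa using he0, by rw [inner_neg_right, he, neg_zero], ?_⟩
      simp only [g, inner_neg_left] at h1 ⊢
      push Not at h1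
      linarith
  -- far away g is negative
  obtain ⟨s0, hs0, hneg⟩ : ∃ s0 : ℝ, 0 < s0 ∧ g (F' + s0 • w) < 0 := by
    have hopen : IsOpen (g ⁻¹' Iio 0) := isOpen_Iio.preimage hg
    obtain ⟨ε, hε, hball⟩ := Metric.isOpen_iff.1 hopen w hwg
    set s0 : ℝ := (‖F'‖ + 1) / (ε / 2) with hs0
    have hs0' : 0 < s0 := by positivity
    refine ⟨s0, hs0', ?_⟩
    have h1 : w + s0⁻¹ • F' ∈ ball w ε := by
      rw [mem_ball, dist_eq_norm, add_sub_cancel_left, norm_smul, norm_inv, Real.norm_eq_abs,
        abs_of_pos hs0', hs0, inv_div, div_mul_eq_mul_div, div_lt_iff₀ (by positivity)]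
      nlinarith [norm_nonneg F']
    have h2 : g (w + s0⁻¹ • F') < 0 := hball h1
    have h3 : F' + s0 • w = s0 • (w + s0⁻¹ • F') := by
      rw [smul_add, smul_smul, mul_inv_cancel₀ hs0'.ne', one_smul, add_comm]
    rw [h3]
    simp only [g] at h2 ⊢
    rw [real_inner_smul_left, S.h_smul hs0'.le]
    have := mul_neg_of_pos_of_neg hs0' h2
    linarith
  -- intermediate value
  have hcont : Continuous (fun s : ℝ => g (F' + s • w)) := hg.comp (by fun_prop)
  obtain ⟨s, hs, hs'⟩ := intermediate_value_Icc' hs0.le hcont.continuousOn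
    (show (0 : ℝ) ∈ Icc (g (F' + s0 • w)) (g (F' + (0 : ℝ) • w)) from
      ⟨hneg.le, by rw [zero_smul, add_zero]; exact hF'1.le⟩)
  have hpos : 0 < ⟪F' + s • w, d⟫ := by
    rw [inner_add_left, real_inner_smul_left, real_inner_comm d w, hwd, mul_zero, add_zero]
    exact hF'2
  refine ⟨F' + s • w, ?_, ?_, hpos⟩
  · intro h0
    rw [h0, inner_zero_left] at hpos
    exact lt_irrefl _ hpos
  · simp only [g] at hs'
    linarith

theorem pos_connected (q0 : E) : IsPreconnected {v : E | 0 < S.h v - ⟪v, q0⟫} := by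
  have h00 : S.h 0 = 0 := by
    have := S.h_smul (le_refl (0 : ℝ)) (0 : E)
    simpa using this
  by_cases hm : ∃ m : E, m ≠ 0 ∧ S.h m - ⟪m, q0⟫ ≤ 0
  · obtain ⟨m, hm0, hm1⟩ := hm
    have hstar : StarConvex ℝ (-m) {v : E | 0 < S.h v - ⟪v, q0⟫} := by
      intro v hv a b ha hb hab
      simp only [mem_ofPred_eq] at hv ⊢
      have hwid := S.h_width hm0
      have hmm : 0 < S.h (-m) - ⟪-m, q0⟫ := by
        rw [inner_neg_left]
        linarith
      rcases eq_or_lt_of_le hb with hb0 | hb0
      · rw [← hb0, zero_smul, add_zero]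
        have : a = 1 := by linarith
        rw [this, one_smul]
        exact hmm
      · by_contra hcon
        push Not at hcon
        have h1 : b • v = (a • -m + b • v) + a • m := by module
        have h2 := S.h_add_le (a • -m + b • v) (a • m)
        rw [← h1, S.h_smul hb, S.h_smul ha] at h2
        have h3 : ⟪b • v, q0⟫ = ⟪a • -m + b • v, q0⟫ + a * ⟪m, q0⟫ := by
          conv_lhs => rw [h1]
          rw [inner_add_left, real_inner_smul_left m]
        rw [real_inner_smul_left] at h3
        have h4 : a * (S.h m - ⟪m, q0⟫) ≤ 0 := mul_nonpos_of_nonneg_of_nonpos ha hm1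
        have h5 : 0 < b * (S.h v - ⟪v, q0⟫) := mul_pos hb0 hv
        linarith
    have hmem : -m ∈ {v : E | 0 < S.h v - ⟪v, q0⟫} := by
      simp only [mem_ofPred_eq]
      have hwid := S.h_width hm0
      rw [inner_neg_left]
      linarith
    exact (hstar.isPathConnected hmem).isConnected.isPreconnected
  · push Not at hm
    have h1 : {v : E | 0 < S.h v - ⟪v, q0⟫} = {(0 : E)}ᶜ := by
      ext v
      simp only [mem_ofPred_eq, mem_compl_iff, mem_singleton_iff]
      constructor
      · rintro h rfl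
        rw [h00, inner_zero_left, sub_self] at h
        exact lt_irrefl _ h
      · exact hm v
    rw [h1]
    refine (isConnected_compl_singleton_of_one_lt_rank ?_ 0).isPreconnected
    rw [← Module.finrank_eq_rank, finrank_euclideanSpace_fin]
    norm_num

/-- every point outside `K` lies on a supporting plane -/
theorem exists_plane {y : E} (hy : y ∉ interior S.K) : ∃ v : E, v ≠ 0 ∧ ⟪v, y⟫ = S.h v := by
  obtain ⟨f, hf⟩ := geometric_hahn_banach_open_point S.K_convex.interior isOpen_interior hy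
  obtain ⟨F, hF⟩ : ∃ F : E, ∀ x, ⟪F, x⟫ = f x :=
    ⟨(InnerProductSpace.toDual ℝ E).symm f, fun x => InnerProductSpace.toDual_symm_apply⟩
  have hF0 : F ≠ 0 := by
    rintro rfl
    obtain ⟨x, hx⟩ := S.K_int
    have := hf x hx
    rw [← hF, ← hF, inner_zero_left, inner_zero_left] at this
    exact lt_irrefl _ this
  have hFy : S.h F ≤ ⟪F, y⟫ := by
    obtain ⟨k, hk, hk'⟩ := S.h_att F
    rw [← hk']
    have hkc : k ∈ closure (interior S.K) := by
      rw [S.K_convex.closure_interior_eq_closure_of_nonempty_interior S.K_int]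
      exact subset_closure hk
    have hcl : IsClosed {x : E | ⟪F, x⟫ ≤ ⟪F, y⟫} := isClosed_le (by fun_prop) continuous_const
    have hsub : interior S.K ⊆ {x : E | ⟪F, x⟫ ≤ ⟪F, y⟫} := by
      intro x hx
      simp only [mem_ofPred_eq]
      rw [hF, hF]
      exact (hf x hx).le
    exact closure_minimal hsub hcl hkc
  have hwid := S.h_width hF0
  have hpre : IsPreconnected ({(0 : E)}ᶜ) := by
    refine (isConnected_compl_singleton_of_one_lt_rank ?_ 0).isPreconnected
    rw [← Module.finrank_eq_rank, finrank_euclideanSpace_fin]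
    norm_num
  have hcont : Continuous (fun v : E => ⟪v, y⟫ - S.h v) := by
    have := S.h_cont
    fun_prop
  obtain ⟨u, hu, hu0⟩ := hpre.intermediate_value (f := fun v : E => ⟪v, y⟫ - S.h v)
    (a := -F) (b := F) (by simpa using hF0) (by simpa using hF0) hcont.continuousOn
    (show (0 : ℝ) ∈ Icc _ _ from ⟨by rw [inner_neg_left]; linarith, by linarith⟩)
  refine ⟨u, by simpa using hu, ?_⟩
  simp only at hu0
  linarith

theorem ellipsoid_of_frontier {G : Quad} (hpos : ∀ x, x ≠ 0 → 0 < G.B x x)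
    (h : ∀ y ∈ frontier S.K1, G.ev y = 0) : IsEllipsoid S.K1 := by
  have hcv : ∀ (x y : E) (t : ℝ), G.ev (x + t • (y - x)) =
      (1 - t) * G.ev x + t * G.ev y - t * (1 - t) * G.B (y - x) (y - x) := by
    intro x y t
    have h1 := Pool.Agent.Helper14.BL.Quad.ev_add_smul G.to14 x (y - x) t
    have h2 := Pool.Agent.Helper14.BL.Quad.ev_add_smul G.to14 x (y - x) 1
    rw [one_smul, add_sub_cancel] at h2
    simp only [Quad.to14_ev, Quad.to14_B] at h1 h2
    rw [h1, h2]
    ring
  have hcl := S.K1_compact.isClosed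
  obtain ⟨z0, hz0⟩ : (interior S.K1).Nonempty :=
    (S.K_int.mono interior_subset).mono S.body14.sub
  -- points of K1
  have hin : ∀ x ∈ S.K1, G.ev x ≤ 0 := by
    intro x hx
    by_cases hxi : x ∈ interior S.K1
    · obtain ⟨y, hy0⟩ : ∃ y : E, y ≠ 0 := exists_ne 0
      have hR : ∀ s : ℝ, |s| = 1 → ∃ T : ℝ, 0 < T ∧ x + (s * T) • y ∉ S.K1 := by
        intro s hs
        have hyn : 0 < ‖y‖ := norm_pos_iff.2 hy0
        have hR0 := S.R_nonneg
        refine ⟨(S.R + ‖x‖ + 1) / ‖y‖, by positivity, ?_⟩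
        intro hmem
        have h2 := S.K1_bdd _ hmem
        have h3 : ‖(s * ((S.R + ‖x‖ + 1) / ‖y‖)) • y‖ = S.R + ‖x‖ + 1 := by
          rw [norm_smul, Real.norm_eq_abs, abs_mul, hs, one_mul, abs_of_pos (by positivity)]
          field_simp
        have h4 := norm_sub_le (x + (s * ((S.R + ‖x‖ + 1) / ‖y‖)) • y) x
        rw [add_sub_cancel_left, h3] at h4
        linarith
      obtain ⟨T1, hT1, hT1'⟩ := hR 1 (by simp)
      obtain ⟨T2, hT2, hT2'⟩ := hR (-1) (by simp)
      obtain ⟨a, ha0, ha1, ha⟩ := exists_crossing hcl hxi hT1'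
      obtain ⟨b, hb0, hb1, hb⟩ := exists_crossing hcl hxi hT2'
      have e1 := h _ ha
      have e2 := h _ hb
      rw [add_sub_cancel_left, smul_smul] at e1 e2
      set α := a * (1 * T1) with hα
      set β := b * T2 with hβ
      have hα0 : 0 < α := by positivity
      have hβ0 : 0 < β := by positivity
      have hβ' : b * (-1 * T2) = -β := by rw [hβ]; ring
      rw [hβ'] at e2
      have h5 := hcv (x + (-β) • y) (x + α • y) (β / (α + β))
      have h6 : x + (-β) • y + (β / (α + β)) • (x + α • y - (x + (-β) • y)) = x := by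
        have e3 : x + α • y - (x + (-β) • y) = (α + β) • y := by module
        rw [e3, smul_smul, div_mul_cancel₀ _ (by positivity)]
        module
      rw [h6, e1, e2] at h5
      have h7 : 0 ≤ G.B (x + α • y - (x + (-β) • y)) (x + α • y - (x + (-β) • y)) := by
        rcases eq_or_ne (x + α • y - (x + (-β) • y)) 0 with h | h
        · rw [h]; simp
        · exact (hpos _ h).le
      have h8 : 0 ≤ β / (α + β) * (1 - β / (α + β)) := by
        have : β / (α + β) ≤ 1 := by
          rw [div_le_one (by positivity)]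
          linarith
        have h9 : 0 ≤ β / (α + β) := by positivity
        nlinarith
      rw [h5]
      have := mul_nonneg h8 h7
      linarith
    · have : x ∈ frontier S.K1 := by
        rw [hcl.frontier_eq]
        exact ⟨hx, hxi⟩
      rw [h x this]
  have hneg : G.ev z0 < 0 := by
    obtain ⟨ε, hε, hball⟩ := Metric.isOpen_iff.1 isOpen_interior z0 hz0
    obtain ⟨y, hy0⟩ : ∃ y : E, y ≠ 0 := exists_ne 0
    have hyn : 0 < ‖y‖ := norm_pos_iff.2 hy0
    set δ := ε / 2 / ‖y‖ with hδ
    have hδ0 : 0 < δ := by positivity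
    have hm : ∀ s : ℝ, |s| = 1 → z0 + (s * δ) • y ∈ S.K1 := by
      intro s hs
      apply interior_subset
      apply hball
      rw [mem_ball, dist_eq_norm, add_sub_cancel_left, norm_smul, Real.norm_eq_abs, abs_mul, hs,
        one_mul, abs_of_pos hδ0, hδ, div_mul_cancel₀ _ hyn.ne']
      linarith
    have e1 := hin _ (hm 1 (by simp))
    have e2 := hin _ (hm (-1) (by simp))
    have h5 := hcv (z0 + (-1 * δ) • y) (z0 + (1 * δ) • y) (1 / 2)
    have h6 : z0 + (-1 * δ) • y + ((1 : ℝ) / 2) • (z0 + (1 * δ) • y - (z0 + (-1 * δ) • y)) = z0 := by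
      module
    rw [h6] at h5
    have h7 : z0 + (1 * δ) • y - (z0 + (-1 * δ) • y) = (2 * δ) • y := by module
    have h8 : 0 < G.B ((2 * δ) • y) ((2 * δ) • y) :=
      hpos _ (smul_ne_zero (by positivity) hy0)
    rw [h7] at h5
    rw [h5]
    linarith
  have heq : S.K1 = {x | G.to14.ev x ≤ 0} := by
    ext x
    simp only [mem_ofPred_eq, Quad.to14_ev]
    refine ⟨hin x, fun hx => ?_⟩
    by_contra hxK
    obtain ⟨t, ht0, ht1, ht⟩ := exists_crossing hcl hz0 hxK
    have e1 := h _ ht
    rw [hcv] at e1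
    have hne : x - z0 ≠ 0 := by
      intro h0
      rw [sub_eq_zero] at h0
      rw [h0] at hxK
      exact hxK (interior_subset hz0)
    have e2 := hpos _ hne
    have e3 : 0 < t * (1 - t) * G.B (x - z0) (x - z0) :=
      mul_pos (mul_pos ht0 (by linarith)) e2
    have e4 : (1 - t) * G.ev z0 ≤ 0 := mul_nonpos_of_nonneg_of_nonpos (by linarith) hneg.le
    have e5 : t * G.ev x ≤ 0 := mul_nonpos_of_nonneg_of_nonpos ht0.le hx
    linarith
  rw [heq]
  exact Pool.Agent.Helper14.BL.isEll_of_quad G.to14 hpos ⟨z0, hneg⟩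

end Setting
end Pool.Agent.Helper18.BL
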