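import Mathlib
import Pool.Agent.Helper18.BL.T13
import Pool.Agent.Helper18.BL.T14
import Pool.Agent.Helper18.BL.T15a
import Pool.Agent.Helper18.BL.T15b
import Pool.Agent.Helper18.BL.T11

set_option autoImplicit false

open Set MeasureTheory Filter Topology Metric
open scoped RealInnerProductSpace

namespace Pool.Agent.Helper18.BL
namespace Setting
variable (S : Setting)

private theorem grad_zero (G : Quad) (x : E) : G.grad x 0 = 0 := by simp [Quad.grad]

private theorem grad_add (G : Quad) (x y z : E) : G.grad x (y + z) = G.grad x y + G.grad x z := by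
  simp only [Quad.grad, map_add, inner_add_right]; ring

private theorem grad_smul (G : Quad) (x y : E) (c : ℝ) : G.grad x (c • y) = c * G.grad x y := by
  simp only [Quad.grad, map_smul, inner_smul_right, smul_eq_mul]; ring

/-- a functional vanishing on `v^⊥` is determined by its value at `v` -/
private theorem grad_decomp (G : Quad) (x v y : E) (hv : v ≠ 0)
    (h : ∀ z, ⟪v, z⟫ = 0 → G.grad x z = 0) :
    G.grad x y = (⟪v, y⟫ / ⟪v, v⟫) * G.grad x v := by
  have hvv : (⟪v, v⟫ : ℝ) ≠ 0 := by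
    rw [real_inner_self_eq_norm_sq]; positivity
  have e : y = (⟪v, y⟫ / ⟪v, v⟫) • v + (y - (⟪v, y⟫ / ⟪v, v⟫) • v) := by abel
  have h0 : G.grad x (y - (⟪v, y⟫ / ⟪v, v⟫) • v) = 0 := by
    apply h
    rw [inner_sub_right, inner_smul_right]
    field_simp
    ring
  calc G.grad x y = G.grad x ((⟪v, y⟫ / ⟪v, v⟫) • v + (y - (⟪v, y⟫ / ⟪v, v⟫) • v)) := by
        rw [← e]
    _ = _ := by rw [grad_add, grad_smul, h0, add_zero]

private theorem nu_cont {v : E} (hv : v ≠ 0) (G : Quad) :
    ContinuousAt (fun w => G.grad (S.C w) w) v := by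
  unfold Quad.grad
  have h1 : ContinuousAt (fun w => G.B (S.C w)) v :=
    G.B.continuous.continuousAt.comp (S.C_cont hv)
  have h2 : ContinuousAt (fun w => G.B (S.C w) w) v := h1.clm_apply continuousAt_id
  have h3 : ContinuousAt (fun w => (⟪G.p, w⟫ : ℝ)) v :=
    (continuous_const.inner continuous_id).continuousAt
  exact (h2.const_mul 2).add h3

private theorem rep_smul' {G : Quad} {v : E} {c : ℝ} (hc : 0 < c) (h : S.Rep G v) :
    S.Rep G (c • v) := by
  intro x hx
  apply h x
  rw [real_inner_smul_left, S.h_smul hc.le] at hx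
  exact mul_left_cancel₀ hc.ne' hx

private def reg (G : Quad) : Set E := {v | v ≠ 0 ∧ S.Rep G v ∧ 0 < G.grad (S.C v) v}

private theorem reg_smul {G : Quad} {v : E} {c : ℝ} (hc : 0 < c) (h : v ∈ S.reg G) :
    c • v ∈ S.reg G := by
  obtain ⟨h0, h1, h2⟩ := h
  refine ⟨smul_ne_zero hc.ne' h0, S.rep_smul' hc h1, ?_⟩
  rw [S.C_smul hc h0, grad_smul]
  positivity

private theorem int_smul {G : Quad} {v : E} {c : ℝ} (hc : 0 < c) (h : v ∈ interior (S.reg G)) :
    c • v ∈ interior (S.reg G) := by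
  rw [mem_interior_iff_mem_nhds, Metric.mem_nhds_iff] at h ⊢
  obtain ⟨ε, hε, hb⟩ := h
  refine ⟨c * ε, by positivity, fun x hx => ?_⟩
  have h1 : c⁻¹ • x ∈ ball v ε := by
    rw [mem_ball, dist_eq_norm] at hx ⊢
    have h3 : c⁻¹ • x - v = c⁻¹ • (x - c • v) := by
      rw [smul_sub, smul_smul, inv_mul_cancel₀ hc.ne', one_smul]
    have : ‖c⁻¹ • x - v‖ = c⁻¹ * ‖x - c • v‖ := by
      rw [h3, norm_smul, norm_inv, Real.norm_of_nonneg hc.le]
    rw [this]
    calc c⁻¹ * ‖x - c • v‖ < c⁻¹ * (c * ε) := by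
          apply mul_lt_mul_of_pos_left hx; positivity
      _ = ε := by field_simp
  have h2 := S.reg_smul hc (hb h1)
  rwa [smul_smul, mul_inv_cancel₀ hc.ne', one_smul] at h2

private theorem mem_int_of {G : Quad} {z : E} (hz : z ≠ 0) {ρ : ℝ} (hρ : 0 < ρ)
    (hrep : ∀ v, ‖v - z‖ < ρ → S.Rep G v) (hν : 0 < G.grad (S.C z) z) :
    z ∈ interior (S.reg G) := by
  rw [mem_interior_iff_mem_nhds]
  have h1 : ∀ᶠ v in 𝓝 z, v ≠ 0 := isOpen_ne.mem_nhds hz
  have h2 : ∀ᶠ v in 𝓝 z, S.Rep G v := by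
    filter_upwards [Metric.ball_mem_nhds z hρ] with v hv
    apply hrep
    rwa [mem_ball, dist_eq_norm] at hv
  have h3 : ∀ᶠ v in 𝓝 z, 0 < G.grad (S.C v) v := (S.nu_cont hz G).tendsto.eventually_const_lt hν
  filter_upwards [h1, h2, h3] with v a b c
  exact ⟨a, b, c⟩

/-- failure of (N) at `z` gives a local quadric -/
private theorem quad_near (hN : ∀ v : E, v ≠ 0 → ¬ S.Ell v → S.Nn v) {z : E} (hz : z ≠ 0)
    (h : ¬ S.Nn z) : ∃ (G : Quad) (ρ : ℝ), 0 < ρ ∧ ∀ v, ‖v - z‖ < ρ → S.Rep G v := by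
  have : ∃ ρ0 : ℝ, 0 < ρ0 ∧ ∀ v, ‖v - z‖ < ρ0 → v ≠ 0 → S.Ell v := by
    by_contra hcon
    push Not at hcon
    have h1 : ∀ j : ℕ, ∃ v, ‖v - z‖ < 1 / ((j : ℝ) + 1) ∧ v ≠ 0 ∧ ¬ S.Ell v := fun j =>
      hcon _ (by positivity)
    choose v hv hv0 hvE using h1
    apply h
    apply S.Nn_closed hz _ (fun j => hN _ (hv0 j) (hvE j))
    rw [tendsto_iff_norm_sub_tendsto_zero]
    exact squeeze_zero (fun j => norm_nonneg _) (fun j => (hv j).le)
      tendsto_one_div_add_atTop_nhds_zero_nat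
  obtain ⟨ρ0, hρ0, h1⟩ := this
  exact S.local_quad hz hρ0 h1

/-- touched boundary points of the region are critical -/
private theorem touched_crit (hN : ∀ v : E, v ≠ 0 → ¬ S.Ell v → S.Nn v) {G : Quad} {z c : E}
    (hz : z ≠ 0) (hzU : z ∉ interior (S.reg G)) (hcz : c ≠ z)
    (hb : ball c (dist c z) ⊆ interior (S.reg G)) :
    S.Rep G z ∧ ∀ x, G.grad (S.C z) x = 0 := by
  have hd : 0 < ‖c - z‖ := norm_pos_iff.mpr (sub_ne_zero.mpr hcz)
  set d : ℝ := ‖c - z‖ with hd_def
  have hdist : dist c z = d := dist_eq_norm _ _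
  rw [hdist] at hb
  have hz2 : 0 < ‖z‖ := norm_pos_iff.mpr hz
  -- orthogonality
  have horth : (⟪c - z, z⟫ : ℝ) = 0 := by
    by_contra ha
    set a : ℝ := ⟪c - z, z⟫ with ha_def
    have key : ∀ τ : ℝ, -1 < τ → 0 ≤ -2 * τ * a + τ ^ 2 * ‖z‖ ^ 2 := by
      intro τ hτ
      have h1 : (1 + τ) • z ∉ interior (S.reg G) := by
        intro h2
        apply hzU
        have h3 := S.int_smul (inv_pos.mpr (by linarith : (0 : ℝ) < 1 + τ)) h2
        rwa [smul_smul, inv_mul_cancel₀ (by linarith : (1 : ℝ) + τ ≠ 0), one_smul] at h3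
      have h2 : d ≤ ‖(1 + τ) • z - c‖ := by
        by_contra h3
        push Not at h3
        apply h1
        apply hb
        rw [mem_ball, dist_eq_norm]
        exact h3
      have h3 : (1 + τ) • z - c = -((c - z) - τ • z) := by
        rw [add_smul, one_smul]; abel
      rw [h3, norm_neg] at h2
      have h4 : d ^ 2 ≤ ‖(c - z) - τ • z‖ ^ 2 := by
        apply pow_le_pow_left₀ hd.le h2
      rw [norm_sub_sq_real (c - z) (τ • z), inner_smul_right, norm_smul, mul_pow, Real.norm_eq_abs,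
        sq_abs, ← ha_def, ← hd_def] at h4
      linarith
    have ha2 : 0 < a ^ 2 := by positivity
    have hpos : 0 < ‖z‖ ^ 2 + |a| := by positivity
    have h1 := key (a / (‖z‖ ^ 2 + |a|)) (by
      rw [lt_div_iff₀ hpos]
      have := neg_abs_le a
      nlinarith)
    have h2 : -2 * (a / (‖z‖ ^ 2 + |a|)) * a + (a / (‖z‖ ^ 2 + |a|)) ^ 2 * ‖z‖ ^ 2 =
        (a ^ 2 / (‖z‖ ^ 2 + |a|) ^ 2) * (-2 * (‖z‖ ^ 2 + |a|) + ‖z‖ ^ 2) := by
      field_simp
    rw [h2] at h1
    have h3 : 0 < a ^ 2 / (‖z‖ ^ 2 + |a|) ^ 2 := by positivity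
    have h4 : -2 * (‖z‖ ^ 2 + |a|) + ‖z‖ ^ 2 < 0 := by
      have := abs_nonneg a
      nlinarith [sq_pos_of_pos hz2]
    nlinarith [mul_neg_of_pos_of_neg h3 h4]
  -- the normal direction
  set g : E := (1 / d) • (c - z) with hg_def
  have hg : ‖g‖ = 1 := by
    rw [hg_def, norm_smul, ← hd_def, Real.norm_of_nonneg (by positivity)]
    field_simp
  have hgz : (⟪g, z⟫ : ℝ) = 0 := by
    rw [hg_def, real_inner_smul_left, horth, mul_zero]
  have hdg : d • g = c - z := by
    rw [hg_def, smul_smul, mul_one_div_cancel hd.ne', one_smul]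
  have hc_eq : z + d • g = c := by rw [hdg]; abel
  have hrep : ∀ v, ‖v - (z + d • g)‖ < d → S.Rep G v := by
    intro v hv
    rw [hc_eq] at hv
    have h1 : v ∈ interior (S.reg G) := by
      apply hb
      rwa [mem_ball, dist_eq_norm]
    exact (interior_subset h1).2.1
  -- approximating sequence
  set vj : ℕ → E := fun j => z + (d / ((j : ℝ) + 2)) • g with hvj
  have hvjt : Tendsto vj atTop (𝓝 z) := by
    have h1 : Tendsto (fun j : ℕ => d / ((j : ℝ) + 2)) atTop (𝓝 0) := by
      apply Tendsto.const_div_atTop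
      exact tendsto_atTop_add_const_right _ _ tendsto_natCast_atTop_atTop
    have h2 : Tendsto (fun j : ℕ => z + (d / ((j : ℝ) + 2)) • g) atTop (𝓝 (z + (0 : ℝ) • g)) :=
      tendsto_const_nhds.add (h1.smul_const g)
    simpa using h2
  have hvjU : ∀ j, vj j ∈ interior (S.reg G) := by
    intro j
    apply hb
    rw [mem_ball, dist_eq_norm]
    have h1 : vj j - c = (d / ((j : ℝ) + 2) - d) • g := by
      rw [← hc_eq, hvj]
      simp only [sub_smul]
      abel
    have hj : (0 : ℝ) ≤ j := Nat.cast_nonneg j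
    rw [h1, norm_smul, hg, mul_one, Real.norm_eq_abs, abs_lt]
    have h3 : 0 < d / ((j : ℝ) + 2) := by positivity
    have h4 : d / ((j : ℝ) + 2) < 2 * d := by
      rw [div_lt_iff₀ (by positivity)]
      nlinarith
    constructor <;> linarith
  have hRz : S.Rep G z := S.rep_closed hz (fun j => (interior_subset (hvjU j)).2.1) hvjt
  have hν0 : 0 ≤ G.grad (S.C z) z := by
    have h1 : Tendsto (fun j => G.grad (S.C (vj j)) (vj j)) atTop (𝓝 (G.grad (S.C z) z)) :=
      (S.nu_cont hz G).tendsto.comp hvjt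
    exact ge_of_tendsto' h1 (fun j => (interior_subset (hvjU j)).2.2.le)
  have hν1 : ¬ 0 < G.grad (S.C z) z := by
    intro hν
    have hnN : ¬ S.Nn z := S.touched hz hg hgz hd hrep hν
    obtain ⟨G', ρ', hρ', hrep'⟩ := S.quad_near hN hz hnN
    -- overlap
    have h1 : ∀ᶠ j in atTop, ‖vj j - z‖ < ρ' := by
      have := (tendsto_iff_norm_sub_tendsto_zero.mp hvjt)
      exact this.eventually_lt_const hρ'
    obtain ⟨j, hj⟩ := h1.exists
    have h2 := hvjU j
    rw [mem_interior_iff_mem_nhds, Metric.mem_nhds_iff] at h2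
    obtain ⟨ε, hε, hbε⟩ := h2
    have hvj0 : vj j ≠ 0 := (interior_subset (hvjU j)).1
    have hm : 0 < min ε (ρ' - ‖vj j - z‖) := lt_min hε (by linarith)
    obtain ⟨k, hk, hkk⟩ := S.quad_unique (G := G) (G' := G') hvj0 hm
      (fun v hv => (hbε (by
        rw [mem_ball, dist_eq_norm]; exact lt_of_lt_of_le hv (min_le_left _ _))).2.1)
      (fun v hv => hrep' v (by
        have h3 : ‖v - vj j‖ < ρ' - ‖vj j - z‖ := lt_of_lt_of_le hv (min_le_right _ _)
        calc ‖v - z‖ = ‖(v - vj j) + (vj j - z)‖ := by congr 1; abel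
          _ ≤ ‖v - vj j‖ + ‖vj j - z‖ := norm_add_le _ _
          _ < ρ' := by linarith))
    apply hzU
    apply S.mem_int_of hz hρ' _ hν
    intro v hv x hx
    rw [hrep' v hv x hx, hkk x]
    constructor
    · intro h3
      by_contra h4
      push Not at h4
      nlinarith [mul_pos hk h4]
    · intro h3
      nlinarith
  have hν : G.grad (S.C z) z = 0 := le_antisymm (not_lt.mp hν1) hν0
  refine ⟨hRz, fun x => ?_⟩
  rw [grad_decomp G (S.C z) z x hz (S.rep_center hz hRz).1, hν, mul_zero]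

/-- boundary points of the region are limits of touched ones -/
private theorem touched_dense {U : Set E} (hU : IsOpen U) {z0 : E} (hz0 : z0 ≠ 0)
    (hz0U : z0 ∉ U) (hz0c : z0 ∈ closure U) {η : ℝ} (hη : 0 < η) :
    ∃ z c : E, z ≠ 0 ∧ z ∉ U ∧ c ≠ z ∧ ball c (dist c z) ⊆ U ∧ dist z z0 < η := by
  have hz2 : 0 < ‖z0‖ := norm_pos_iff.mpr hz0
  set η' : ℝ := min η ‖z0‖ with hη'
  have hη'0 : 0 < η' := lt_min hη hz2
  obtain ⟨c, hcU, hc⟩ := Metric.mem_closure_iff.mp hz0c (η' / 2) (by positivity)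
  obtain ⟨z, hz, hzd⟩ := IsClosed.exists_infDist_eq_dist hU.isClosed_compl ⟨z0, hz0U⟩ c
  have h1 : dist c z ≤ dist c z0 := by
    rw [← hzd]; exact infDist_le_dist_of_mem hz0U
  have h2 : dist z z0 < η' := by
    calc dist z z0 ≤ dist z c + dist c z0 := dist_triangle _ _ _
      _ < η' := by rw [dist_comm z c]; rw [dist_comm] at hc; linarith
  refine ⟨z, c, ?_, hz, ?_, ?_, lt_of_lt_of_le h2 (min_le_left _ _)⟩
  · intro h0
    rw [h0, dist_comm, dist_zero_right] at h2
    exact absurd h2 (not_lt.mpr (min_le_right _ _))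
  · intro h0
    rw [h0] at hcU
    exact hz hcU
  · intro x hx
    by_contra hxU
    have h3 : dist c z ≤ dist c x := by
      rw [← hzd]; exact infDist_le_dist_of_mem hxU
    rw [mem_ball, dist_comm] at hx
    linarith

/-- a boundary point of `K1` on a represented plane lies on the quadric -/
private theorem ev_zero {G : Quad} {v y : E} (hv : v ≠ 0) (h : S.Rep G v)
    (hy : y ∈ frontier S.K1) (hvy : ⟪v, y⟫ = S.h v) : G.ev y = 0 := by
  have hyK : y ∈ S.K1 := S.K1_compact.isClosed.frontier_subset hy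
  have h1 : G.ev y ≤ 0 := (h y hvy).mp hyK
  by_contra hne
  have h2 : G.ev y < 0 := lt_of_le_of_ne h1 hne
  -- move away from the centre
  have hcont : Continuous fun s : ℝ => G.ev (y + s • (y - S.C v)) := by
    unfold Quad.ev
    have hc1 : Continuous fun s : ℝ => y + s • (y - S.C v) := by fun_prop
    exact (((G.B.continuous.comp hc1).clm_apply hc1).add (continuous_const.inner hc1)).add
      continuous_const
  have h3 : ∀ᶠ s in 𝓝 (0 : ℝ), G.ev (y + s • (y - S.C v)) < 0 := by
    apply hcont.continuousAt.eventually_lt_const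
    simpa using h2
  obtain ⟨ε, hε, hb⟩ := Metric.mem_nhds_iff.mp h3
  set s : ℝ := ε / 2 with hs
  have hs0 : 0 < s := by positivity
  have h4 : G.ev (y + s • (y - S.C v)) < 0 := hb (by
    rw [mem_ball, Real.dist_eq, sub_zero, abs_of_pos hs0]; linarith)
  have h5 : (⟪v, y + s • (y - S.C v)⟫ : ℝ) = S.h v := by
    rw [inner_add_right, inner_smul_right, inner_sub_right, hvy, S.C_h v hv]
    ring
  have h6 : y + s • (y - S.C v) ∈ S.K1 := (h _ h5).mpr h4.le
  have h7 : S.C v ∈ interior S.K1 := by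
    rw [mem_interior_iff_mem_nhds]
    exact Filter.mem_of_superset (closedBall_mem_nhds _ (by have := S.r_pos; positivity))
      (S.C_ball hv)
  have h8 : y ∈ interior S.K1 := by
    have h9 := S.K1_convex.combo_interior_self_mem_interior h7 h6
      (a := s / (1 + s)) (b := 1 / (1 + s)) (by positivity) (by positivity)
      (by rw [← add_div, add_comm s 1]; exact div_self (by positivity))
    have h10 : (s / (1 + s)) • S.C v + (1 / (1 + s)) • (y + s • (y - S.C v)) = y := by
      have : (1 + s) ≠ 0 := by positivity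
      have h11 : (s / (1 + s)) • S.C v + (1 / (1 + s)) • (y + s • (y - S.C v)) =
          (s / (1 + s) - (1 / (1 + s)) * s) • S.C v + ((1 / (1 + s)) * (1 + s)) • y := by
        module
      rw [h11]
      have e1 : s / (1 + s) - (1 / (1 + s)) * s = 0 := by ring
      have e2 : (1 / (1 + s)) * (1 + s) = 1 := by field_simp
      rw [e1, e2, zero_smul, one_smul, zero_add]
    rwa [h10] at h9
  exact hy.2 h8

/-- Case II -/
theorem case_two (hN : ∀ v : E, v ≠ 0 → ¬ S.Ell v → S.Nn v) {v1 : E} (hv1 : v1 ≠ 0)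
    (h1 : ¬ S.Nn v1) : IsEllipsoid S.K1 := by
  obtain ⟨G, ρ, hρ, hrep⟩ := S.quad_near hN hv1 h1
  have hν1 : 0 < G.grad (S.C v1) v1 := S.nu_pos hv1 hρ hrep h1
  set U : Set E := interior (S.reg G) with hU_def
  have hUo : IsOpen U := isOpen_interior
  have hv1U : v1 ∈ U := S.mem_int_of hv1 hρ hrep hν1
  have hUrep : ∀ v ∈ U, S.Rep G v := fun v hv => (interior_subset hv).2.1
  by_cases hcase : ∃ z0 : E, z0 ≠ 0 ∧ z0 ∉ U ∧ z0 ∈ closure U
  · obtain ⟨z0, hz0, hz0U, hz0c⟩ := hcase
    obtain ⟨z, c, hz, hzU, hcz, hb, -⟩ := touched_dense hUo hz0 hz0U hz0c one_pos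
    obtain ⟨hRz, hcrit⟩ := S.touched_crit hN hz hzU hcz hb
    have hpos : ∀ x, x ≠ 0 → 0 < G.B x x := S.posdef hz hRz hcrit hv1 hρ hrep hν1
    set q0 : E := S.C z with hq0
    have hq0int : q0 ∈ interior S.K1 := by
      rw [mem_interior_iff_mem_nhds]
      exact Filter.mem_of_superset (closedBall_mem_nhds _ (by have := S.r_pos; positivity))
        (S.C_ball hz)
    have hgrad : ∀ x y, G.grad x y = 2 * G.B (x - q0) y := by
      intro x y
      have h2 := hcrit y
      simp only [Quad.grad] at h2 ⊢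
      have h3 : G.B (x - q0) y = G.B x y - G.B q0 y := by simp
      rw [h3]
      linarith
    -- the function f
    have hfc : Continuous fun v : E => S.h v - ⟪v, q0⟫ :=
      S.h_cont.sub (continuous_id.inner continuous_const)
    have hf0 : ∀ w : E, w ≠ 0 → w ∉ U → w ∈ closure U → S.h w - ⟪w, q0⟫ = 0 := by
      intro w hw hwU hwc
      by_contra hne
      have h2 : ∀ᶠ v in 𝓝 w, S.h v - ⟪v, q0⟫ ≠ 0 :=
        hfc.continuousAt.eventually_ne hne
      obtain ⟨ε, hε, hbε⟩ := Metric.mem_nhds_iff.mp h2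
      obtain ⟨z', c', hz', hzU', hcz', hb', hd'⟩ := touched_dense hUo hw hwU hwc hε
      obtain ⟨-, hcrit'⟩ := S.touched_crit hN hz' hzU' hcz' hb'
      apply hbε (mem_ball.mpr hd')
      have h3 : S.C z' = q0 := by
        by_contra h4
        have h5 := hpos _ (sub_ne_zero.mpr h4)
        have h6 := hcrit' (S.C z' - q0)
        rw [hgrad] at h6
        linarith
      rw [← h3, S.C_h z' hz', sub_self]
    have hUpos : U ⊆ {v : E | 0 < S.h v - ⟪v, q0⟫} := by
      intro v hv
      obtain ⟨hv0, hRv, hνv⟩ := interior_subset hv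
      have h2 := grad_decomp G (S.C v) v (S.C v - q0) hv0 (S.rep_center hv0 hRv).1
      rw [hgrad (S.C v) (S.C v - q0)] at h2
      have h3 : S.C v - q0 ≠ 0 := by
        intro h4
        rw [hgrad, h4] at hνv
        simp at hνv
      have h4 := hpos _ h3
      have h5 : (0 : ℝ) < ⟪v, v⟫ := by
        rw [real_inner_self_eq_norm_sq]; positivity
      have h6 : (⟪v, S.C v - q0⟫ : ℝ) = S.h v - ⟪v, q0⟫ := by
        rw [inner_sub_right, S.C_h v hv0]
      rw [h6] at h2
      show 0 < S.h v - ⟪v, q0⟫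
      by_contra h7
      push Not at h7
      have h8 : (S.h v - ⟪v, q0⟫) / ⟪v, v⟫ * G.grad (S.C v) v ≤ 0 :=
        mul_nonpos_of_nonpos_of_nonneg (div_nonpos_of_nonpos_of_nonneg h7 h5.le) hνv.le
      linarith
    have hsub : {v : E | 0 < S.h v - ⟪v, q0⟫} ⊆ U := by
      apply (S.pos_connected q0).subset_of_closure_inter_subset hUo ⟨v1, hUpos hv1U, hv1U⟩
      rintro w ⟨hwc, hw⟩
      by_contra hwU
      have hw0 : w ≠ 0 := by
        intro h0
        have : S.h w - ⟪w, q0⟫ = 0 := by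
          rw [h0, inner_zero_left, sub_zero]
          have := S.h_smul (le_refl (0 : ℝ)) (0 : E)
          simpa using this
        change 0 < S.h w - ⟪w, q0⟫ at hw
        rw [this] at hw
        exact lt_irrefl _ hw
      have := hf0 w hw0 hwU hwc
      change 0 < S.h w - ⟪w, q0⟫ at hw
      rw [this] at hw
      exact lt_irrefl _ hw
    apply S.ellipsoid_of_frontier hpos
    intro y hy
    obtain ⟨v, hv0, hvy, hvpos⟩ := S.covering hq0int hy
    have hvU : v ∈ U := by
      apply hsub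
      show 0 < S.h v - ⟪v, q0⟫
      rw [← hvy, ← inner_sub_right]
      exact hvpos
    exact S.ev_zero hv0 (hUrep v hvU) hy hvy
  · push Not at hcase
    have hall : ∀ v : E, v ≠ 0 → v ∈ U := by
      have hconn : IsPreconnected ({(0 : E)}ᶜ : Set E) := by
        apply IsConnected.isPreconnected
        apply isConnected_compl_singleton_of_one_lt_rank
        rw [← Module.finrank_eq_rank]
        simp
      have hsub : ({(0 : E)}ᶜ : Set E) ⊆ U := by
        apply hconn.subset_of_closure_inter_subset hUo ⟨v1, hv1, hv1U⟩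
        rintro w ⟨hwc, hw⟩
        by_contra hwU
        exact hcase w hw hwU hwc
      exact fun v hv => hsub hv
    have hpos : ∀ x, x ≠ 0 → 0 < G.B x x := by
      intro x hx
      -- a vector orthogonal to `x`
      obtain ⟨v, hv, hvx⟩ : ∃ v : E, v ≠ 0 ∧ ⟪v, x⟫ = 0 := by
        have hfin : Module.finrank ℝ (ℝ ∙ x)ᗮ = 2 := by
          have : Fact (Module.finrank ℝ E = 2 + 1) := ⟨by simp⟩
          exact Submodule.finrank_orthogonal_span_singleton hx
        have : Nontrivial (ℝ ∙ x)ᗮ := by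
          apply Module.nontrivial_of_finrank_pos (R := ℝ)
          rw [hfin]; norm_num
        obtain ⟨⟨v, hv⟩, hv0⟩ := exists_ne (0 : (ℝ ∙ x)ᗮ)
        refine ⟨v, fun h => hv0 (Subtype.ext h), ?_⟩
        rw [Submodule.mem_orthogonal_singleton_iff_inner_right] at hv
        rw [real_inner_comm]; exact hv
      exact (S.rep_center hv (hUrep v (hall v hv))).2.1 x hvx hx
    apply S.ellipsoid_of_frontier hpos
    intro y hy
    have hq : S.C v1 ∈ interior S.K1 := by
      rw [mem_interior_iff_mem_nhds]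
      exact Filter.mem_of_superset (closedBall_mem_nhds _ (by have := S.r_pos; positivity))
        (S.C_ball hv1)
    obtain ⟨v, hv0, hvy, -⟩ := S.covering hq hy
    exact S.ev_zero hv0 (hUrep v (hall v hv0)) hy hvy

end Setting
end Pool.Agent.Helper18.BL
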