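import Mathlib
import Pool.Agent.Helper18.BL.Defs

set_option autoImplicit false

namespace Pool.Agent.Helper18.BL

/-- the frozen statement in dimension `n` -/
def BLstat (n : ℕ) : Prop :=
  ∀ (K K1 : Set (EuclideanSpace ℝ (Fin n))),
      Convex ℝ K → IsCompact K → (interior K).Nonempty →
      Convex ℝ K1 → IsCompact K1 → (interior K1).Nonempty →
      K ⊆ interior K1 →
      (∀ (f : EuclideanSpace ℝ (Fin n) →L[ℝ] ℝ) (c : ℝ), f ≠ 0 →
        (∀ x ∈ K, f x ≤ c) → (∃ x ∈ K, f x = c) →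
        ∃ p : EuclideanSpace ℝ (Fin n), ∀ x ∈ K1, f x = c →
          ((2 : ℝ) • p - x ∈ K1 ∧ f ((2 : ℝ) • p - x) = c)) →
      ∃ (T : EuclideanSpace ℝ (Fin n) ≃ₗ[ℝ] EuclideanSpace ℝ (Fin n))
        (a : EuclideanSpace ℝ (Fin n)),
        K1 = (fun x => a + T x) '' Metric.closedBall 0 1

end Pool.Agent.Helper18.BL
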