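import Mathlib
import Pool.Agent.Helper18.BL.Stat
import Pool.Agent.Helper14.BL.Dim

set_option autoImplicit false

open Set MeasureTheory Filter Topology Metric
open scoped RealInnerProductSpace

namespace Pool.Agent.Helper18.BL

/-- Proof. For a 3-dimensional subspace (linear isometry `J : E³ → Eⁿ`, adjoint `J*`) the
projections `J* K, J* K1` satisfy the hypotheses (`K1 ∩ H` with `H = (J*)⁻¹ H'`), so `J* K1` is an
ellipsoid, its support function is `x ↦ ⟪a,x⟫ + ‖Tᵀ x‖`, i.e. the support function `s` of `K1`
restricted to the subspace is linear plus the root of a quadratic form. Hence the odd part of `s`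
is linear and the square of the even part satisfies the parallelogram law. -/
theorem reduction (h3 : BLstat 3) (n : ℕ) (hn : 3 ≤ n) : BLstat n := by
  intro K K1 h1 h2 h3' h4 h5 h6 h7 h8
  exact Pool.Agent.Helper14.BL.dim_reduction
    (fun K K1 h => h3 K K1 h.cK h.kK h.iK h.cK1 h.kK1 h.iK1 h.sub h.sym) n hn K K1
    ⟨h1, h2, h3', h4, h5, h6, h7, h8⟩

end Pool.Agent.Helper18.BL
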