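import Mathlib
import Pool.Agent.Helper18.BL.Stat

set_option autoImplicit false

open Set MeasureTheory Filter Topology Metric
open scoped RealInnerProductSpace

namespace Pool.Agent.Helper18.BL

theorem three_of_setting (h : ∀ S : Setting, IsEllipsoid S.K1) : BLstat 3 := by
  intro K K1 hK1 hK2 hK3 hL1 hL2 hL3 hsub hsym
  have hne : K.Nonempty := hK3.mono interior_subset
  have hmax : ∀ v : E, ∃ x ∈ K, ∀ y ∈ K, ⟪v, y⟫ ≤ ⟪v, x⟫ := by
    intro v
    obtain ⟨x, hx, hx'⟩ := hK2.exists_isMaxOn hne (f := fun x => ⟪v, x⟫) (by fun_prop)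
    exact ⟨x, hx, hx'⟩
  choose x0 hx0 hx0' using hmax
  have hcen : ∀ v : E, ∃ p : E, v ≠ 0 → ∀ x ∈ K1, ⟪v, x⟫ = ⟪v, x0 v⟫ →
      ((2 : ℝ) • p - x ∈ K1 ∧ ⟪v, (2 : ℝ) • p - x⟫ = ⟪v, x0 v⟫) := by
    intro v
    by_cases hv : v = 0
    · exact ⟨0, fun h => absurd hv h⟩
    · obtain ⟨p, hp⟩ := hsym (innerSL ℝ v) ⟪v, x0 v⟫ (by
        intro h0
        have h1 : (innerSL ℝ v) v = 0 := by rw [h0]; rfl
        rw [innerSL_apply_apply] at h1
        exact hv (inner_self_eq_zero.1 h1)) (fun x hx => hx0' v x hx) ⟨x0 v, hx0 v, rfl⟩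
      exact ⟨p, fun _ x hx hx' => hp x hx hx'⟩
  choose C hC using hcen
  obtain ⟨r, hr, hrs⟩ := hK2.exists_cthickening_subset_open isOpen_interior hsub
  obtain ⟨R, hR⟩ := hL2.isBounded.exists_norm_le
  let S : Setting :=
    { K := K
      K1 := K1
      h := fun v => ⟪v, x0 v⟫
      C := C
      r := r
      R := R
      K_convex := hK1
      K_compact := hK2
      K_int := hK3
      K1_convex := hL1
      K1_compact := hL2
      r_pos := hr
      ball_sub := fun x hx => ((closedBall_subset_cthickening hx r).trans hrs).trans interior_subset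
      K1_bdd := hR
      h_le := fun v x hx => hx0' v x hx
      h_att := fun v => ⟨x0 v, hx0 v, rfl⟩
      C_h := by
        intro v hv
        have h1 := (hC v hv (x0 v) (interior_subset (hsub (hx0 v))) rfl).2
        rw [inner_sub_right, inner_smul_right] at h1
        linarith
      C_symm := fun v hv x hx hx' => (hC v hv x hx hx').1 }
  exact h S

end Pool.Agent.Helper18.BL
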