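import Mathlib
import Pool.Agent.Helper18.BL.T12
import Pool.Agent.Helper18.BL.T15
import Pool.Agent.Helper18.BL.T16a
import Pool.Agent.Helper18.BL.T16b

set_option autoImplicit false

namespace Pool.Agent.Helper18.BL

theorem main3 (S : Setting) : IsEllipsoid S.K1 := by
  by_cases h : ∀ v : E, v ≠ 0 → S.Nn v
  · exact (S.case_one h).elim
  · push Not at h
    obtain ⟨v1, hv1, h1⟩ := h
    exact S.case_two (fun v hv hE => S.Nn_of_not_Ell hv hE) hv1 h1

theorem mainN (n : ℕ) (hn : 3 ≤ n) : BLstat n :=
  reduction (three_of_setting main3) n hn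

end Pool.Agent.Helper18.BL
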